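import Mathlib

/-!
# Q6: a linear family of pairs with scalar products
-/

set_option autoImplicit false
namespace Pool.Agent.H86N
open Module

variable {K : Type*} [Field K] {U : Type*} [AddCommGroup U] [Module K U]

theorem q6_nonscalar [FiniteDimensional K U] (h2 : 2 ≤ finrank K U) :
    ∃ a : Module.End K U, ∀ t : K, a ≠ t • 1 := by
  set b := Module.finBasis K U with hb
  let i0 : Fin (finrank K U) := ⟨0, by omega⟩
  let i1 : Fin (finrank K U) := ⟨1, by omega⟩
  have h01 : i0 ≠ i1 := by
    intro h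
    exact absurd (Fin.mk.inj_iff.1 h) (by norm_num)
  refine ⟨b.constr K fun i => if i = i0 then b i0 else 0, fun t ht => ?_⟩
  have e0 := LinearMap.congr_fun ht (b i0)
  have e1 := LinearMap.congr_fun ht (b i1)
  rw [b.constr_basis, if_pos rfl, LinearMap.smul_apply, Module.End.one_apply] at e0
  rw [b.constr_basis, if_neg (Ne.symm h01), LinearMap.smul_apply, Module.End.one_apply] at e1
  have ht0 : t = 0 := by
    rcases smul_eq_zero.1 e1.symm with h | h
    · exact h
    · exact absurd h (b.ne_zero i1)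
  rw [ht0, zero_smul] at e0
  exact b.ne_zero i0 e0

/-- A linear family of pairs of operators with scalar products, which contains all first operators and the pair
`(1, -1)`: the space has dimension at most two. -/
theorem q6_quad [CharZero K] [FiniteDimensional K U] (h2 : 2 ≤ finrank K U)
    (W : Submodule K (Module.End K U × Module.End K U)) (h1 : ∀ w ∈ W, ∃ c : K, w.1 * w.2 = c • 1)
    (honto : ∀ a, ∃ b, (a, b) ∈ W) (h0 : (1, -1) ∈ W) :
    finrank K U = 2 ∧ ∀ w ∈ W, w.2 = w.1 - LinearMap.trace K U w.1 • 1 := by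
  obtain ⟨a₀, ha₀⟩ := q6_nonscalar (K := K) h2
  -- the second operator differs from the first by a scalar
  have hpol : ∀ w ∈ W, ∃ t : K, w.2 = w.1 + t • 1 := by
    rintro ⟨a, b⟩ hw
    obtain ⟨c, hc⟩ := h1 _ hw
    obtain ⟨c', hc'⟩ := h1 _ (W.add_mem hw h0)
    simp only [Prod.fst_add, Prod.snd_add] at hc hc' ⊢
    refine ⟨c' - c + 1, ?_⟩
    have e1 : (a + 1) * (b + -1) = a * b - a + b - 1 := by noncomm_ring
    rw [e1, hc] at hc'
    have e2 : b = c' • (1 : Module.End K U) - c • 1 + a + 1 := by rw [← hc']; abel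
    rw [e2, add_smul, sub_smul, one_smul]
    abel
  -- every operator satisfies a quadratic equation
  have hquad : ∀ w ∈ W, ∃ t c : K, w.2 = w.1 + t • 1 ∧ w.1 * w.1 + t • w.1 = c • 1 := by
    intro w hw
    obtain ⟨t, ht⟩ := hpol w hw
    obtain ⟨c, hc⟩ := h1 w hw
    refine ⟨t, c, ht, ?_⟩
    rw [ht, mul_add, mul_smul_comm, mul_one] at hc
    exact hc
  have hdim : finrank K U = 2 := by
    by_contra hne
    have h3 : 3 ≤ finrank K U := by omega
    set b := Module.finBasis K U with hb
    let i0 : Fin (finrank K U) := ⟨0, by omega⟩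
    let i1 : Fin (finrank K U) := ⟨1, by omega⟩
    let i2 : Fin (finrank K U) := ⟨2, by omega⟩
    let a : Module.End K U := b.constr K fun i => ((i.1 : ℕ) : K) • b i
    have ha : ∀ i, a (b i) = ((i.1 : ℕ) : K) • b i := fun i => b.constr_basis K _ i
    obtain ⟨b', hb'⟩ := honto a
    obtain ⟨t, c, -, hq⟩ := hquad _ hb'
    have key : ∀ i : Fin (finrank K U), ((i.1 : ℕ) : K) * ((i.1 : ℕ) : K) + t * ((i.1 : ℕ) : K) - c = 0 := by
      intro i
      have e1 := LinearMap.congr_fun hq (b i)
      simp only [LinearMap.add_apply, Module.End.mul_apply, LinearMap.smul_apply, Module.End.one_apply, ha,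
        map_smul, smul_smul] at e1
      have e2 : (((i.1 : ℕ) : K) * ((i.1 : ℕ) : K) + t * ((i.1 : ℕ) : K) - c) • b i = 0 := by
        rw [sub_smul, add_smul, e1, sub_self]
      exact (smul_eq_zero.1 e2).resolve_right (b.ne_zero i)
    have k0 := key i0
    have k1 := key i1
    have k2 := key i2
    simp only [i0, i1, i2] at k0 k1 k2
    push_cast at k0 k1 k2
    have hc : c = 0 := by linear_combination -k0
    have ht1 : t = -1 := by linear_combination k1 + hc
    have h4 : (2 : K) = 0 := by
      rw [hc, ht1] at k2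
      linear_combination k2
    exact two_ne_zero h4
  refine ⟨hdim, ?_⟩
  -- Cayley-Hamilton
  have hCH : ∀ a : Module.End K U, ∃ d : K, a * a - LinearMap.trace K U a • a = d • 1 := by
    intro a
    have b := Module.finBasisOfFinrankEq K U hdim
    refine ⟨-(LinearMap.toMatrix b b a).det, ?_⟩
    apply (LinearMap.toMatrix b b).injective
    rw [map_sub, map_smul, map_smul, LinearMap.toMatrix_mul, LinearMap.toMatrix_one, LinearMap.trace_eq_matrix_trace K b]
    ext i j
    rw [Matrix.det_fin_two, Matrix.trace_fin_two]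
    fin_cases i <;> fin_cases j <;>
      simp [Matrix.mul_apply, Fin.sum_univ_two] <;> ring
  have hns : ∀ w ∈ W, (∀ t : K, w.1 ≠ t • 1) → w.2 = w.1 - LinearMap.trace K U w.1 • 1 := by
    intro w hw hn
    obtain ⟨t, c, ht, hq⟩ := hquad w hw
    obtain ⟨d, hd⟩ := hCH w.1
    have e1 : (t + LinearMap.trace K U w.1) • w.1 = (c - d) • 1 := by
      rw [add_smul, sub_smul, ← hq, ← hd]
      abel
    have e2 : t + LinearMap.trace K U w.1 = 0 := by
      by_contra hne
      apply hn ((t + LinearMap.trace K U w.1)⁻¹ * (c - d))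
      rw [← smul_smul, ← e1, smul_smul, inv_mul_cancel₀ hne, one_smul]
    have e3 : t = -LinearMap.trace K U w.1 := by linear_combination e2
    rw [ht, e3, neg_smul, sub_eq_add_neg]
  rintro ⟨a, b⟩ hw
  by_cases hn : ∀ t : K, a ≠ t • 1
  · exact hns _ hw hn
  · push Not at hn
    obtain ⟨s, hs⟩ := hn
    obtain ⟨b₀, hb₀⟩ := honto a₀
    have e1 := hns _ hb₀ ha₀
    have e2 := hns _ (W.add_mem hw hb₀) (by
      intro t ht
      apply ha₀ (t - s)
      simp only [Prod.fst_add] at ht
      rw [sub_smul, ← ht, ← hs]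
      abel)
    simp only [Prod.fst_add, Prod.snd_add, map_add, add_smul] at e1 e2 ⊢
    rw [e1] at e2
    have e3 : b = a + a₀ - (LinearMap.trace K U a • (1 : Module.End K U) + LinearMap.trace K U a₀ • 1) -
        (a₀ - LinearMap.trace K U a₀ • 1) := by rw [← e2]; abel
    rw [e3]
    abel

end Pool.Agent.H86N
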