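import Pool.Agent.Lib.H86N.KF2

/-!
# KF3: the invariant form of a Kemmer system in the middle degree
-/

set_option autoImplicit false
set_option linter.unusedSectionVars false
namespace Pool.Agent.H86N
open Module Pool.Agent.H53Toric Pool.Agent.H49M

universe u

variable {K : Type*} [Field K] {V : Type u} [AddCommGroup V] [Module K V]

section gen
variable {s : Module.End K V} {n : ℕ} {x y : Fin (n + 1) → Module.End K V}

/-- The form on the whole space from a form on the corner. -/
theorem kf_form [CharZero K] [FiniteDimensional K V] (h : Kemmer s x y) (hx : x 0 ≠ 0)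
    (κ : LinearMap.range (x 0 * y 0) →ₗ[K] LinearMap.range (x 0 * y 0) →ₗ[K] K) (hκ0 : κ ≠ 0)
    (hκ : ∀ X ∈ kgen s x y, ∀ v w : LinearMap.range (x 0 * y 0),
      κ ((x 0 * y 0).rangeRestrict (X v)) w + κ v ((x 0 * y 0).rangeRestrict (x 0 (X (y 0 w)))) = 0) :
    ∃ B : V →ₗ[K] V →ₗ[K] K, B ≠ 0 ∧ ∀ X ∈ kL s x y, ∀ v w, B (X v) w + B v (X w) = 0 := by
  let ρ : V →ₗ[K] LinearMap.range (x 0 * y 0) := (x 0 * y 0).rangeRestrict
  have hρ : ∀ v, ((ρ v : LinearMap.range (x 0 * y 0)) : V) = x 0 (y 0 v) := fun v => rfl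
  have xyx : ∀ v, x 0 (y 0 (x 0 v)) = x 0 v := fun v => LinearMap.congr_fun (K4a_xyx h 0) v
  have hρe : ∀ v, ((ρ (x 0 v) : LinearMap.range (x 0 * y 0)) : V) = x 0 v := by
    intro v
    rw [hρ, xyx]
  have hκ' : ∀ X ∈ kL s x y, ∀ v w : LinearMap.range (x 0 * y 0), κ (ρ (X v)) w + κ v (ρ (x 0 (X (y 0 w)))) = 0 := by
    intro X hX v w
    refine Submodule.span_induction (p := fun X _ => κ (ρ (X v)) w + κ v (ρ (x 0 (X (y 0 w)))) = 0)
      (fun X hX => hκ X hX v w) (by simp) ?_ ?_ hX
    · intro a b _ _ h1 h2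
      simp only [LinearMap.add_apply, map_add]
      linear_combination h1 + h2
    · intro c a _ h1
      simp only [LinearMap.smul_apply, map_smul, smul_eq_mul]
      linear_combination c * h1
  let β : V →ₗ[K] V →ₗ[K] K := κ.compl₁₂ ρ (ρ ∘ₗ x 0)
  have hβ : ∀ v w, β v w = κ (ρ v) (ρ (x 0 w)) := fun v w => rfl
  obtain ⟨B, hB1, hB2⟩ := exists_form' (kL_lie h) (kL_irr h) hx (K4a_xx h 0 0) (K4a_yy h 0 0) (K4a_xyx h 0)
    (K4a_yxy h 0) (kL_xy 0 0) β
    (by
      intro v w
      rw [hβ, hβ]
      have : ρ (x 0 (y 0 v)) = ρ v := by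
        apply Subtype.ext
        rw [hρ, hρ, xyx]
      rw [this])
    (by
      intro v w
      rw [hβ, hβ, xyx])
    (by
      intro X hX v w
      rw [hβ, hβ]
      have h1 := hκ' X hX (ρ v) (ρ (x 0 w))
      rw [hρ, hρe] at h1
      exact h1)
  refine ⟨B, ?_, hB2⟩
  rintro rfl
  apply hκ0
  ext ⟨_, ⟨a, rfl⟩⟩ ⟨_, ⟨b, rfl⟩⟩
  have h1 := hB1 a (y 0 b)
  rw [hβ] at h1
  have h2 : ρ (x 0 (y 0 b)) = ⟨(x 0 * y 0) b, b, rfl⟩ := by
    apply Subtype.ext
    rw [hρe]
    rfl
  rw [h2] at h1
  exact h1.symm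

theorem kf_fix0 [CharZero K] (h : Kemmer s x y) (v : LinearMap.range (x 0 * y 0)) : x 0 (y 0 (v : V)) = v := by
  obtain ⟨_, ⟨w, rfl⟩⟩ := v
  show x 0 (y 0 (x 0 (y 0 w))) = x 0 (y 0 w)
  exact LinearMap.congr_fun (K4a_xyx h 0) (y 0 w)

theorem kf_x0 [CharZero K] (h : Kemmer s x y) (i : Fin (n + 1)) (v : LinearMap.range (x 0 * y 0)) : x i (v : V) = 0 := by
  rw [← kf_fix0 h v]
  exact LinearMap.congr_fun (K4a_xx h i 0) (y 0 v)

theorem kf_s0 [CharZero K] (h : Kemmer s x y) (v : LinearMap.range (x 0 * y 0)) : s (v : V) = v := by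
  rw [← kf_fix0 h v]
  exact LinearMap.congr_fun (h.sx 0) (y 0 v)

/-- The condition for the generators which do not involve two nonzero indices. -/
theorem kf_triv [CharZero K] (h : Kemmer s x y)
    (κ : LinearMap.range (x 0 * y 0) →ₗ[K] LinearMap.range (x 0 * y 0) →ₗ[K] K)
    (hij : ∀ i j : Fin (n + 1), i ≠ 0 → j ≠ 0 → ∀ v w : LinearMap.range (x 0 * y 0),
      κ ((x 0 * y 0).rangeRestrict (x i (y j v))) w + κ v ((x 0 * y 0).rangeRestrict (x i (y j w))) =
        (if i = j then (1 : K) else 0) * κ v w) :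
    ∀ X ∈ kgen s x y, ∀ v w : LinearMap.range (x 0 * y 0),
      κ ((x 0 * y 0).rangeRestrict (X v)) w + κ v ((x 0 * y 0).rangeRestrict (x 0 (X (y 0 w)))) = 0 := by
  have hρ : ∀ v : V, (((x 0 * y 0).rangeRestrict v : LinearMap.range (x 0 * y 0)) : V) = x 0 (y 0 v) := fun v => rfl
  have hρU : ∀ v : LinearMap.range (x 0 * y 0), (x 0 * y 0).rangeRestrict (v : V) = v := by
    intro v
    apply Subtype.ext
    rw [hρ, kf_fix0 h]
  have hρ0 : ∀ v : V, x 0 (y 0 v) = 0 → (x 0 * y 0).rangeRestrict v = 0 := by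
    intro v hv
    apply Subtype.ext
    rw [hρ, hv]
    rfl
  have xx : ∀ i j (v : V), x i (x j v) = 0 := fun i j v => LinearMap.congr_fun (K4a_xx h i j) v
  have yy : ∀ i j (v : V), y i (y j v) = 0 := fun i j v => LinearMap.congr_fun (K4a_yy h i j) v
  rintro X (rfl | ⟨i, rfl⟩ | ⟨i, rfl⟩ | ⟨i, j, rfl⟩) v w
  · have h1 : X (y 0 (w : V)) = -(y 0 w) := LinearMap.congr_fun (h.sy 0) (w : V)
    rw [kf_s0 h, h1, map_neg, kf_fix0 h, map_neg, hρU, hρU, map_neg]
    ring
  · rw [kf_x0 h, xx]
    simp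
  · rw [yy, map_zero, map_zero, map_zero, add_zero, hρ0 _ (by rw [yy, map_zero])]
    simp
  · have h1 : (x i * y j - y j * x i) (v : V) = x i (y j v) := by
      rw [LinearMap.sub_apply, Module.End.mul_apply, Module.End.mul_apply, kf_x0 h, map_zero, sub_zero]
    have h2 : x 0 ((x i * y j - y j * x i) (y 0 w)) = -(x 0 (y j (x i (y 0 w)))) := by
      rw [LinearMap.sub_apply, Module.End.mul_apply, Module.End.mul_apply, yy, map_zero, zero_sub, map_neg]
    rw [h1, h2]
    by_cases hj : j = 0
    · subst hj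
      by_cases hi : i = 0
      · subst hi
        rw [kf_fix0 h, kf_fix0 h, kf_fix0 h, map_neg, hρU, hρU, map_neg]
        ring
      · have h4 : ∀ w : V, y 0 (x i (y 0 w)) = 0 := fun w => LinearMap.congr_fun (K4a_zero (K4a_swap h) (Ne.symm hi)) w
        rw [h4, map_zero, neg_zero, map_zero, map_zero, add_zero, hρ0 _ (by rw [h4, map_zero])]
        simp
    · by_cases hi : i = 0
      · subst hi
        have h4 : ∀ w : V, x 0 (y j (x 0 w)) = 0 := fun w => LinearMap.congr_fun (K4a_zero h (Ne.symm hj)) w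
        have h5 : x 0 (y j (v : V)) = 0 := by
          rw [← kf_fix0 h v, h4]
        rw [h4, h5]
        simp
      · have h3 := hij i j hi hj v w
        have h4 : -(x 0 (y j (x i (y 0 (w : V))))) = x i (y j w) - (if i = j then (1 : K) else 0) • (w : V) := by
          have h5 := LinearMap.congr_fun (h.r1 i j 0) (y 0 (w : V))
          rw [if_neg (Ne.symm hj), add_zero] at h5
          simp only [LinearMap.add_apply, Module.End.mul_apply] at h5
          rw [kf_fix0 h] at h5
          have h6 : x 0 (y j (x i (y 0 (w : V)))) =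
              ((if i = j then x 0 else 0 : Module.End K V)) (y 0 (w : V)) - x i (y j w) := by
            rw [← h5]; abel
          rw [h6]
          split_ifs
          · rw [kf_fix0 h, one_smul]; abel
          · simp
        rw [h4, map_sub, map_sub, map_smul, map_smul, hρU, smul_eq_mul]
        linear_combination h3

/-- The first generator is not zero in the middle degree. -/
theorem kf_ne [CharZero K] [Nontrivial V] {c : ℕ} (h : Kemmer s x y) (hn : n + 2 = 2 * c)
    (hc : ∀ v, cnt s x y v = (c : K) • v) : x 0 ≠ 0 := by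
  intro h0
  have hx : ∀ i, x i = 0 := by
    intro i
    have h1 := h.r1 0 0 i
    rw [h0] at h1
    simp only [zero_mul, mul_zero, add_zero, if_true] at h1
    split_ifs at h1
    · rw [add_zero] at h1; exact h1.symm
    · rw [add_zero] at h1; exact h1.symm
  have hy : ∀ i, y i = 0 := by
    intro i
    rw [← K4a_yxy h i, hx]
    simp
  have hc0 : (c : K) ≠ 0 := by
    rw [Nat.cast_ne_zero]; omega
  have hQ : ∀ v, ((1 / 2 : K) • (1 - s)) v = (1 / 2 : K) • v := by
    intro v
    have h1 := hc v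
    rw [cnt] at h1
    simp only [hx, hy, zero_mul, mul_zero, zero_add, sub_zero, Finset.sum_const, Finset.card_univ, Fintype.card_fin] at h1
    rw [LinearMap.add_apply, LinearMap.smul_apply (n + 1)] at h1
    rw [← Nat.cast_smul_eq_nsmul K] at h1
    have h2 : ((c : K) * 2) • ((1 / 2 : K) • (1 - s)) v = (c : K) • v := by
      rw [← h1]
      have h3 : (c : K) * 2 = 1 + ((n + 1 : ℕ) : K) := by
        have h4 : ((n + 2 : ℕ) : K) = ((2 * c : ℕ) : K) := by rw [hn]
        push_cast at h4 ⊢
        linear_combination -h4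
      rw [h3, add_smul, one_smul]
    have h3 : (c : K) • ((2 : K) • ((1 / 2 : K) • (1 - s)) v - v) = 0 := by
      rw [smul_sub, smul_smul, h2, sub_self]
    have h4 := (smul_eq_zero.1 h3).resolve_left hc0
    have h5 : (2 : K) • ((1 / 2 : K) • (1 - s)) v = v := sub_eq_zero.1 h4
    have h6 : ((1 / 2 : K) • (1 - s)) v = (1 / 2 : K) • ((2 : K) • ((1 / 2 : K) • (1 - s)) v) := by
      rw [smul_smul (1 / 2 : K) 2]
      norm_num
    rw [h6, h5]
  obtain ⟨v, hv⟩ := exists_ne (0 : V)
  have h1 := hQ v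
  have h2 : s v = 0 := by
    rw [LinearMap.smul_apply, LinearMap.sub_apply, Module.End.one_apply, smul_sub, sub_eq_self] at h1
    exact (smul_eq_zero.1 h1).resolve_left (by norm_num)
  apply hv
  have h3 := LinearMap.congr_fun h.s_sq v
  rw [Module.End.mul_apply, h2, map_zero] at h3
  exact h3.symm

end gen

/-- The condition for the generators, from the reduced system. -/
theorem kf_step [CharZero K] {s : Module.End K V} {n : ℕ} {x y : Fin (n + 2) → Module.End K V} (h : Kemmer s x y)
    (κ : LinearMap.range (x 0 * y 0) →ₗ[K] LinearMap.range (x 0 * y 0) →ₗ[K] K)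
    (hκ : ∀ X ∈ kL (ks h) (kx h) (ky h), ∀ v w, κ (X v) w + κ v (X w) = 0) :
    ∀ i j : Fin (n + 2), i ≠ 0 → j ≠ 0 → ∀ v w : LinearMap.range (x 0 * y 0),
      κ ((x 0 * y 0).rangeRestrict (x i (y j v))) w + κ v ((x 0 * y 0).rangeRestrict (x i (y j w))) =
        (if i = j then (1 : K) else 0) * κ v w := by
  intro i j hi hj v w
  have h0 : ∀ (i j : Fin (n + 2)) (hi : i ≠ 0) (hj : j ≠ 0) (v : LinearMap.range (x 0 * y 0)),
      (x 0 * y 0).rangeRestrict (x i (y j (v : V))) = kR h i j hi hj v := by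
    intro i j hi hj v
    apply Subtype.ext
    have h1 := kU_fix h (kR h i j hi hj v)
    rw [kR_coe] at h1 ⊢
    exact h1
  have ex := fun i v w => hκ (kx h i) (kL_x i) v w
  have ey := fun i v w => hκ (ky h i) (kL_y i) v w
  have e11 : ∀ v w, κ (kR h 1 1 one_ne_zero' one_ne_zero' v) w + κ v (kR h 1 1 one_ne_zero' one_ne_zero' w) = κ v w := by
    intro v w
    have h6 : ∀ w, kR h 1 1 one_ne_zero' one_ne_zero' w = (1 / 2 : K) • (w - ks h w) := by
      intro w
      apply Subtype.ext
      rw [Submodule.coe_smul, Submodule.coe_sub, ks_coe, kR_coe]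
      module
    have h7 := hκ (ks h) kL_s v w
    rw [h6, h6]
    simp only [map_sub, map_smul, LinearMap.sub_apply, LinearMap.smul_apply, smul_eq_mul]
    linear_combination -(1 / 2 : K) * h7
  have key : ∀ (i j : Fin (n + 2)) (hi : i ≠ 0) (hj : j ≠ 0), ∀ v w,
      κ (kR h i j hi hj v) w + κ v (kR h i j hi hj w) = (if i = j then (1 : K) else 0) * κ v w := by
    intro i
    refine kj_cases (n := n) (fun i => ∀ (j : Fin (n + 2)) (hi : i ≠ 0) (hj : j ≠ 0), ∀ v w,
      κ (kR h i j hi hj v) w + κ v (kR h i j hi hj w) = (if i = j then (1 : K) else 0) * κ v w) ?_ ?_ ?_ i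
    · intro j hi; exact absurd rfl hi
    · intro j
      refine kj_cases (n := n) (fun j => ∀ (hi : (1 : Fin (n + 2)) ≠ 0) (hj : j ≠ 0), ∀ v w,
        κ (kR h 1 j hi hj v) w + κ v (kR h 1 j hi hj w) = (if 1 = j then (1 : K) else 0) * κ v w) ?_ ?_ ?_ j
      · intro _ hj; exact absurd rfl hj
      · intro _ _ v w
        rw [if_pos rfl, one_mul]
        exact e11 v w
      · intro j' hi hj v w
        have h6 : ∀ w, kR h 1 (kj j') hi hj w = -(ky h j' w) := by
          intro w
          apply Subtype.ext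
          rw [kR_coe, Submodule.coe_neg, ky_coe, neg_neg]
        rw [if_neg (Ne.symm (kj_one j')), zero_mul, h6, h6, map_neg, map_neg, LinearMap.neg_apply]
        linear_combination -ey j' v w
    · intro i' j
      refine kj_cases (n := n) (fun j => ∀ (hi : kj i' ≠ 0) (hj : j ≠ 0), ∀ v w,
        κ (kR h (kj i') j hi hj v) w + κ v (kR h (kj i') j hi hj w) = (if kj i' = j then (1 : K) else 0) * κ v w)
        ?_ ?_ ?_ j
      · intro _ hj; exact absurd rfl hj
      · intro hi hj v w
        have h6 : ∀ w, kR h (kj i') 1 hi hj w = -(kx h i' w) := by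
          intro w
          apply Subtype.ext
          rw [kR_coe, Submodule.coe_neg, kx_coe, neg_neg]
        rw [if_neg (kj_one i'), zero_mul, h6, h6, map_neg, map_neg, LinearMap.neg_apply]
        linear_combination -ex i' v w
      · intro j' hi hj v w
        have h6 : ∀ w, kR h (kj i') (kj j') hi hj w = kx h i' (ky h j' w) - ky h j' (kx h i' w) +
            (if i' = j' then (1 : K) else 0) • kR h 1 1 one_ne_zero' one_ne_zero' w := by
          intro w
          apply Subtype.ext
          rw [Submodule.coe_add, Submodule.coe_sub, Submodule.coe_smul, kx_coe, ky_coe, ky_coe, kx_coe,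
            kR_coe, kR_coe]
          have h7 := LinearMap.congr_fun (kf_br h i' j') (w : V)
          simp only [LinearMap.sub_apply, Module.End.mul_apply] at h7
          simp only [map_neg, neg_neg]
          rw [h7]
          split_ifs
          · rw [one_smul, Module.End.mul_apply]; abel
          · simp
        rw [h6, h6]
        simp only [map_add, map_sub, map_smul, LinearMap.add_apply, LinearMap.sub_apply, LinearMap.smul_apply,
          smul_eq_mul, kj_inj]
        have a1 := ex i' (ky h j' v) w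
        have a2 := ey j' v (kx h i' w)
        have a3 := ey j' (kx h i' v) w
        have a4 := ex i' v (ky h j' w)
        have a5 := e11 v w
        linear_combination a1 - a2 - a3 + a4 + (if i' = j' then (1 : K) else 0) * a5
  rw [h0 i j hi hj, h0 i j hi hj]
  exact key i j hi hj v w

/-- A Kemmer system with an odd number of generators in the middle degree has an invariant form. -/
theorem kemmer_form [CharZero K] (m : ℕ) : ∀ (V : Type u) [AddCommGroup V] [Module K V]
    [FiniteDimensional K V] [Nontrivial V] {s : Module.End K V} {x y : Fin (2 * m + 1) → Module.End K V},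
    Kemmer s x y → (∀ v, cnt s x y v = ((m + 1 : ℕ) : K) • v) →
    ∃ B : V →ₗ[K] V →ₗ[K] K, B ≠ 0 ∧ ∀ X ∈ kL s x y, ∀ v w, B (X v) w + B v (X w) = 0 := by
  induction m with
  | zero =>
    intro V _ _ _ _ s x y h hc
    have hx : x 0 ≠ 0 := kf_ne h (by norm_num) hc
    have hU : Nontrivial (LinearMap.range (x 0 * y 0)) := by
      rw [Submodule.nontrivial_iff_ne_bot]
      intro h0
      apply hx
      rw [← K4a_xyx h 0, LinearMap.range_eq_bot.1 h0, zero_mul]
    obtain ⟨u, hu⟩ := exists_ne (0 : LinearMap.range (x 0 * y 0))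
    obtain ⟨φ, hφ⟩ := Module.Projective.exists_dual_ne_zero (R := K) hu
    let κ : LinearMap.range (x 0 * y 0) →ₗ[K] LinearMap.range (x 0 * y 0) →ₗ[K] K :=
      φ.smulRight φ
    refine kf_form h hx κ ?_ (kf_triv h κ ?_)
    · intro h0
      have h1 : κ u u = 0 := by rw [h0]; rfl
      have h2 : φ u * φ u = 0 := h1
      exact hφ (mul_self_eq_zero.1 h2)
    · intro i j hi
      exact absurd (Subsingleton.elim (α := Fin 1) i 0) hi
  | succ m ih =>
    intro V _ _ _ _ s x y h hc
    have hx : x 0 ≠ 0 := kf_ne (n := 2 * m + 2) (c := m + 1 + 1) h (by ring) hc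
    have hU : Nontrivial (LinearMap.range (x 0 * y 0)) := by
      rw [Submodule.nontrivial_iff_ne_bot]
      intro h0
      apply hx
      rw [← K4a_xyx h 0, LinearMap.range_eq_bot.1 h0, zero_mul]
    have hred := kf_red (n := 2 * m + 1) h hx
    obtain ⟨κ, hκ0, hκ⟩ := ih (LinearMap.range (x 0 * y 0)) hred (by
      intro v
      have h1 := kf_cnt (n := 2 * m + 1) h hc v
      rw [h1]
      congr 1
      push_cast
      ring)
    exact kf_form h hx κ hκ0 (kf_triv h κ (kf_step (n := 2 * m + 1) h κ hκ))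

end Pool.Agent.H86N
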