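import Pool.Agent.Lib.H49M.P7s

/-!
# P7e: irreducible Clifford modules have forms, up to one parity
-/

set_option autoImplicit false
set_option linter.unusedSectionVars false
namespace Pool.Agent.H86N
open Module Pool.Agent.H49M

variable {K : Type*} [Field K]

/-- There is a nonzero bilinear form. -/
theorem P7e_form {W : Type*} [AddCommGroup W] [Module K W] [Nontrivial W] :
    ∃ b : W →ₗ[K] W →ₗ[K] K, b ≠ 0 := by
  obtain ⟨u, hu⟩ := exists_ne (0 : W)
  obtain ⟨φ, hφ⟩ := Module.Projective.exists_dual_ne_zero (R := K) hu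
  refine ⟨φ.smulRight φ, fun h0 => ?_⟩
  have h1 : (φ.smulRight φ : W →ₗ[K] W →ₗ[K] K) u u = 0 := by rw [h0]; rfl
  have h2 : φ u * φ u = 0 := h1
  exact hφ (mul_self_eq_zero.1 h2)

/-- On a line every operator is scalar. -/
theorem P7e_scalar {W : Type*} [AddCommGroup W] [Module K W] (h1 : finrank K W = 1)
    (T : Module.End K W) : ∃ c : K, T = c • 1 := by
  obtain ⟨v, hv, hspan⟩ := finrank_eq_one_iff'.1 h1
  obtain ⟨c, hc⟩ := hspan (T v)
  refine ⟨c, ?_⟩
  ext x
  obtain ⟨d, rfl⟩ := hspan x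
  rw [map_smul, ← hc, LinearMap.smul_apply, Module.End.one_apply, smul_comm]

/-- As `P7_cliff`: there is a form for which the operators are self-adjoint (or skew), up to one parity. -/
theorem P7_exists [CharZero K] [IsAlgClosed K] (n : ℕ) : ∀ (W : Type*) [AddCommGroup W]
    [Module K W] [FiniteDimensional K W] [Nontrivial W] (J : Submodule K (Module.End K W)),
    finrank K W = n → (∀ w ∈ J, ∃ c : K, w * w = c • 1) →
    (∀ U : Submodule K W, (∀ w ∈ J, ∀ u ∈ U, w u ∈ U) → U = ⊥ ∨ U = ⊤) →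
    ∀ (δ : K), (δ = 1 ∨ δ = -1) →
    ∃ t : ℕ, finrank K W = 2 ^ t ∧ ((∃ b : W →ₗ[K] W →ₗ[K] K, b ≠ 0 ∧
      ∀ c ∈ J, ∀ v w, b (c v) w = δ * b v (c w)) ∨ δ * (-1) ^ t = -1) := by
  induction n using Nat.strong_induction_on with
  | _ n ih =>
  intro W _ _ _ _ J hn hJ hirr δ hδ
  by_cases hA : ∃ w₁ ∈ J, ∃ w₂ ∈ J, w₁ * w₁ = 1 ∧ w₂ * w₂ = 1 ∧ w₁ * w₂ = -(w₂ * w₁)
  · obtain ⟨w₁, hw₁, w₂, hw₂, h11, h22, h12⟩ := hA
    obtain ⟨i, hi⟩ := IsAlgClosed.exists_pow_nat_eq (-1 : K) (n := 2) (by norm_num)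
    have hi0 : i ≠ 0 := by rintro rfl; norm_num at hi
    obtain ⟨θ, hθ⟩ : ∃ θ, θ = w₁ * w₂ := ⟨_, rfl⟩
    have h21 : w₂ * w₁ = -(w₁ * w₂) := by rw [h12, neg_neg]
    have hθθ : θ * θ = -1 := by
      rw [hθ]
      calc w₁ * w₂ * (w₁ * w₂) = w₁ * (w₂ * w₁) * w₂ := by noncomm_ring
        _ = -((w₁ * w₁) * (w₂ * w₂)) := by rw [h21]; noncomm_ring
        _ = -1 := by rw [h11, h22, one_mul]
    have hw1θ : w₁ * θ = w₂ := by rw [hθ, ← mul_assoc, h11, one_mul]
    have hθw1 : θ * w₁ = -w₂ := by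
      rw [hθ, mul_assoc, h21, mul_neg, ← mul_assoc, h11, one_mul]
    obtain ⟨W₁, hW₁⟩ : ∃ W₁ : Submodule K W, W₁ = LinearMap.ker (θ - i • 1) := ⟨_, rfl⟩
    obtain ⟨W₂, hW₂⟩ : ∃ W₂ : Submodule K W, W₂ = LinearMap.ker (θ + i • 1) := ⟨_, rfl⟩
    have m1 : ∀ {v : W}, v ∈ W₁ ↔ θ v = i • v := by
      intro v
      rw [hW₁, LinearMap.mem_ker, LinearMap.sub_apply, LinearMap.smul_apply,
        Module.End.one_apply, sub_eq_zero]
    have m2 : ∀ {v : W}, v ∈ W₂ ↔ θ v = -(i • v) := by
      intro v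
      rw [hW₂, LinearMap.mem_ker, LinearMap.add_apply, LinearMap.smul_apply,
        Module.End.one_apply]
      constructor
      · intro h; exact eq_neg_of_add_eq_zero_left h
      · intro h; rw [h]; simp
    have hθv : ∀ v, θ (θ v) = -v := by
      intro v
      rw [← Module.End.mul_apply, hθθ]; rfl
    have h1v : ∀ v, w₁ (w₁ v) = v := by
      intro v
      rw [← Module.End.mul_apply, h11]; rfl
    have hθ1 : ∀ v, θ (w₁ v) = -(w₁ (θ v)) := by
      intro v
      rw [← Module.End.mul_apply, hθw1, ← Module.End.mul_apply, hw1θ]; rfl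
    have hinj : Function.Injective w₁ := by
      intro a b hab
      rw [← h1v a, hab, h1v]
    have hmap : W₁.map w₁ = W₂ := by
      ext v
      constructor
      · rintro ⟨u, hu, rfl⟩
        rw [m2, hθ1, m1.mp hu, map_smul]
      · intro hv
        refine ⟨w₁ v, ?_, h1v v⟩
        rw [SetLike.mem_coe, m1, hθ1, m2.mp hv, map_neg, neg_neg, map_smul]
    have hfin : finrank K W₁ = finrank K W₂ := by
      rw [← hmap]
      exact (Submodule.equivMapOfInjective w₁ hinj W₁).finrank_eq
    have hinf : W₁ ⊓ W₂ = ⊥ := by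
      rw [eq_bot_iff]
      rintro v ⟨hv1, hv2⟩
      have e1 := m1.mp hv1
      have e2 := m2.mp hv2
      rw [e1] at e2
      have e3 : (2 * i) • v = 0 := by
        rw [two_mul, add_smul]
        nth_rewrite 1 [e2]
        exact neg_add_cancel _
      rw [Submodule.mem_bot]
      exact (smul_eq_zero.mp e3).resolve_left (mul_ne_zero two_ne_zero hi0)
    have hsup : W₁ ⊔ W₂ = ⊤ := by
      rw [eq_top_iff]
      intro v _
      rw [Submodule.mem_sup]
      have hii : i * i = -1 := by rw [← hi]; ring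
      refine ⟨(1 / 2 : K) • (v - i • θ v), ?_, (1 / 2 : K) • (v + i • θ v), ?_, ?_⟩
      · have e1 : i • (v - i • θ v) = i • v + θ v := by
          rw [smul_sub, smul_smul, hii, neg_one_smul, sub_neg_eq_add]
        rw [m1, map_smul, map_sub, map_smul, hθv, smul_comm i, e1, smul_neg, sub_neg_eq_add,
          add_comm]
      · have e1 : i • (v + i • θ v) = i • v - θ v := by
          rw [smul_add, smul_smul, hii, neg_one_smul, ← sub_eq_add_neg]
        rw [m2, map_smul, map_add, map_smul, hθv, smul_comm i, e1]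
        module
      · rw [← smul_add]
        have : v - i • θ v + (v + i • θ v) = (2 : K) • v := by rw [two_smul]; abel
        rw [this, smul_smul]; norm_num
    have hdim : finrank K W = 2 * finrank K W₁ := by
      have := Submodule.finrank_sup_add_finrank_inf_eq W₁ W₂
      rw [hinf, hsup, finrank_bot, finrank_top, ← hfin] at this
      omega
    have hpos : 0 < finrank K W := finrank_pos
    have hW₁pos : 0 < finrank K W₁ := by omega
    have : Nontrivial W₁ := finrank_pos_iff.mp hW₁pos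
    -- the smaller space of operators
    let J' : Submodule K (Module.End K W₁) :=
      { carrier := {T | ∃ w ∈ J, w * w₁ = -(w₁ * w) ∧ w * w₂ = -(w₂ * w) ∧
          ∀ u : W₁, ((T u : W₁) : W) = w u}
        add_mem' := by
          rintro S T ⟨a, ha, a1, a2, a3⟩ ⟨b, hb, b1, b2, b3⟩
          refine ⟨a + b, J.add_mem ha hb, ?_, ?_, ?_⟩
          · rw [add_mul, a1, b1, mul_add]; abel
          · rw [add_mul, a2, b2, mul_add]; abel
          · intro u
            rw [LinearMap.add_apply, LinearMap.add_apply, Submodule.coe_add, a3, b3]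
        zero_mem' := ⟨0, J.zero_mem, by simp, by simp, by simp⟩
        smul_mem' := by
          rintro c T ⟨a, ha, a1, a2, a3⟩
          refine ⟨c • a, J.smul_mem c ha, ?_, ?_, ?_⟩
          · rw [smul_mul_assoc, a1, mul_smul_comm, smul_neg]
          · rw [smul_mul_assoc, a2, mul_smul_comm, smul_neg]
          · intro u
            rw [LinearMap.smul_apply, LinearMap.smul_apply, Submodule.coe_smul, a3] }
    have hstab : ∀ w : Module.End K W, w * w₁ = -(w₁ * w) → w * w₂ = -(w₂ * w) →
        ∀ u ∈ W₁, w u ∈ W₁ := by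
      intro w a1 a2 u hu
      have : w * θ = θ * w := by
        rw [hθ, ← mul_assoc, a1, neg_mul, mul_assoc w₁ w, a2, mul_neg, neg_neg, mul_assoc]
      rw [m1] at hu ⊢
      rw [← Module.End.mul_apply, ← this, Module.End.mul_apply, hu, map_smul]
    have hsq : ∀ w ∈ J', ∃ c : K, w * w = c • 1 := by
      rintro T ⟨w, hw, a1, a2, a3⟩
      obtain ⟨c, hc⟩ := hJ w hw
      refine ⟨c, ?_⟩
      ext u
      have : w (w u) = c • (u : W) := by
        rw [← Module.End.mul_apply, hc]; rfl
      rw [Module.End.mul_apply, a3, a3, this]; rfl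
    have hirr' : ∀ U : Submodule K W₁, (∀ w ∈ J', ∀ u ∈ U, w u ∈ U) → U = ⊥ ∨ U = ⊤ := by
      intro Y hY
      by_cases hY0 : Y = ⊥
      · exact Or.inl hY0
      right
      obtain ⟨Z, hZ⟩ : ∃ Z : Submodule K W, Z = Y.map W₁.subtype := ⟨_, rfl⟩
      have hZW : ∀ z ∈ Z, z ∈ W₁ := by
        rw [hZ]; rintro _ ⟨y, _, rfl⟩; exact y.2
      have hZst : ∀ w ∈ J, w * w₁ = -(w₁ * w) → w * w₂ = -(w₂ * w) → ∀ z ∈ Z, w z ∈ Z := by
        intro w hw a1 a2
        rw [hZ]
        rintro _ ⟨y, hy, rfl⟩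
        refine ⟨_, hY (w.restrict (hstab w a1 a2)) ⟨w, hw, a1, a2, fun u => rfl⟩ y hy, rfl⟩
      have htop : Z ⊔ Z.map w₁ = ⊤ := by
        refine (hirr _ ?_).resolve_left ?_
        · intro w hw u hu
          obtain ⟨c1, hc1⟩ := P7_polar hJ hw hw₁
          obtain ⟨c2, hc2⟩ := P7_polar hJ hw hw₂
          obtain ⟨w', hw'⟩ : ∃ w', w' = w - (c1 / 2) • w₁ - (c2 / 2) • w₂ := ⟨_, rfl⟩
          have hw'J : w' ∈ J := by
            rw [hw']
            exact J.sub_mem (J.sub_mem hw (J.smul_mem _ hw₁)) (J.smul_mem _ hw₂)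
          have a1 : w' * w₁ = -(w₁ * w') := by
            rw [eq_neg_iff_add_eq_zero, hw']
            have : (w - (c1 / 2) • w₁ - (c2 / 2) • w₂) * w₁ +
                w₁ * (w - (c1 / 2) • w₁ - (c2 / 2) • w₂) = (w * w₁ + w₁ * w) -
                (c1 / 2) • (w₁ * w₁ + w₁ * w₁) - (c2 / 2) • (w₂ * w₁ + w₁ * w₂) := by
              simp only [sub_mul, mul_sub, smul_mul_assoc, mul_smul_comm, smul_add]
              abel
            rw [this, hc1, h11, h21, neg_add_cancel, smul_zero, sub_zero, ← two_smul K, smul_smul,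
              ← sub_smul]
            rw [div_mul_cancel₀ c1 two_ne_zero, sub_self, zero_smul]
          have a2 : w' * w₂ = -(w₂ * w') := by
            rw [eq_neg_iff_add_eq_zero, hw']
            have : (w - (c1 / 2) • w₁ - (c2 / 2) • w₂) * w₂ +
                w₂ * (w - (c1 / 2) • w₁ - (c2 / 2) • w₂) = (w * w₂ + w₂ * w) -
                (c2 / 2) • (w₂ * w₂ + w₂ * w₂) - (c1 / 2) • (w₂ * w₁ + w₁ * w₂) := by
              simp only [sub_mul, mul_sub, smul_mul_assoc, mul_smul_comm, smul_add]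
              abel
            rw [this, hc2, h22, h21, neg_add_cancel, smul_zero, sub_zero, ← two_smul K, smul_smul,
              ← sub_smul]
            rw [div_mul_cancel₀ c2 two_ne_zero, sub_self, zero_smul]
          have hwe : w = w' + (c1 / 2) • w₁ + (c2 / 2) • w₂ := by rw [hw']; abel
          have s1 : ∀ z ∈ Z ⊔ Z.map w₁, w₁ z ∈ Z ⊔ Z.map w₁ := by
            intro z hz
            rw [Submodule.mem_sup] at hz
            obtain ⟨y, hy, _, ⟨x, hx, rfl⟩, rfl⟩ := hz
            rw [map_add, h1v]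
            exact add_mem (Submodule.mem_sup_right ⟨y, hy, rfl⟩) (Submodule.mem_sup_left hx)
          have s2 : ∀ z ∈ Z ⊔ Z.map w₁, θ z ∈ Z ⊔ Z.map w₁ := by
            intro z hz
            rw [Submodule.mem_sup] at hz
            obtain ⟨y, hy, _, ⟨x, hx, rfl⟩, rfl⟩ := hz
            rw [map_add, hθ1, m1.mp (hZW y hy), m1.mp (hZW x hx), map_smul]
            exact add_mem (Submodule.mem_sup_left (Z.smul_mem _ hy))
              (neg_mem (Submodule.smul_mem _ _ (Submodule.mem_sup_right ⟨x, hx, rfl⟩)))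
          have s3 : ∀ z ∈ Z ⊔ Z.map w₁, w' z ∈ Z ⊔ Z.map w₁ := by
            intro z hz
            rw [Submodule.mem_sup] at hz
            obtain ⟨y, hy, _, ⟨x, hx, rfl⟩, rfl⟩ := hz
            have e1 : w' (w₁ x) = -(w₁ (w' x)) := by
              rw [← Module.End.mul_apply, a1]; rfl
            rw [map_add, e1]
            exact add_mem (Submodule.mem_sup_left (hZst w' hw'J a1 a2 y hy))
              (neg_mem (Submodule.mem_sup_right ⟨_, hZst w' hw'J a1 a2 x hx, rfl⟩))
          rw [hwe]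
          have e2 : (w' + (c1 / 2) • w₁ + (c2 / 2) • w₂) u =
              w' u + (c1 / 2) • w₁ u + (c2 / 2) • w₁ (θ u) := by
            rw [← Module.End.mul_apply w₁ θ, hw1θ]; rfl
          rw [e2]
          exact add_mem (add_mem (s3 u hu) (Submodule.smul_mem _ _ (s1 u hu)))
            (Submodule.smul_mem _ _ (s1 _ (s2 u hu)))
        · intro h0
          apply hY0
          rw [eq_bot_iff]
          intro y hy
          have h4 : (y : W) ∈ Z ⊔ Z.map w₁ := Submodule.mem_sup_left (by rw [hZ]; exact ⟨y, hy, rfl⟩)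
          rw [h0, Submodule.mem_bot] at h4
          exact Subtype.ext h4
      rw [eq_top_iff]
      rintro ⟨u, hu⟩ -
      have hu1 : u ∈ Z ⊔ Z.map w₁ := by rw [htop]; trivial
      rw [Submodule.mem_sup] at hu1
      obtain ⟨y, hy, _, ⟨x, hx, rfl⟩, hyx⟩ := hu1
      have hx2 : w₁ x ∈ W₁ ⊓ W₂ := by
        constructor
        · have : w₁ x = u - y := by rw [← hyx]; abel
          rw [SetLike.mem_coe, this]
          exact W₁.sub_mem hu (hZW y hy)
        · rw [SetLike.mem_coe, m2, hθ1, m1.mp (hZW x hx), map_smul]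
      rw [hinf, Submodule.mem_bot] at hx2
      rw [hx2, add_zero] at hyx
      rw [hZ] at hy
      obtain ⟨y', hy', hyy⟩ := hy
      have : y' = ⟨u, hu⟩ := Subtype.ext (hyy.trans hyx)
      rwa [← this]
    -- the form on `W`
    have hδδ : δ * δ = 1 := by
      rcases hδ with rfl | rfl <;> norm_num
    obtain ⟨t, ht, hts⟩ := ih (finrank K W₁) (by omega) W₁ J' rfl hsq hirr' (-δ) (by
      rcases hδ with rfl | rfl
      · right; rfl
      · left; rw [neg_neg])
    refine ⟨t + 1, by rw [hdim, ht, pow_succ]; ring, ?_⟩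
    rcases hts with ⟨b₁, hb₁0, hb₁⟩ | hts
    swap
    · right
      rw [pow_succ]
      linear_combination hts
    left
    have hii : i * i = -1 := by rw [← hi]; ring
    have hA1 : ∀ v, ((1 / 2 : K) • (1 - i • θ)) v ∈ W₁ := by
      intro v
      rw [m1, LinearMap.smul_apply, LinearMap.sub_apply, LinearMap.smul_apply, Module.End.one_apply, map_smul,
        map_sub, map_smul, hθv]
      have e1 : i • (v - i • θ v) = i • v + θ v := by
        rw [smul_sub, smul_smul, hii, neg_one_smul, sub_neg_eq_add]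
      rw [smul_comm i, e1, smul_neg, sub_neg_eq_add, add_comm]
    have hA2 : ∀ v, (w₁ * ((1 / 2 : K) • (1 + i • θ))) v ∈ W₁ := by
      intro v
      have hx : θ (((1 / 2 : K) • (1 + i • θ)) v) = -(i • ((1 / 2 : K) • (1 + i • θ)) v) := by
        rw [LinearMap.smul_apply, LinearMap.add_apply, LinearMap.smul_apply, Module.End.one_apply, map_smul,
          map_add, map_smul, hθv]
        have e1 : i • (v + i • θ v) = i • v - θ v := by
          rw [smul_add, smul_smul, hii, neg_one_smul, ← sub_eq_add_neg]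
        rw [smul_comm i, e1]
        module
      rw [m1, Module.End.mul_apply, hθ1, hx, map_neg, neg_neg, map_smul]
    let A : W →ₗ[K] W₁ := LinearMap.codRestrict W₁ ((1 / 2 : K) • (1 - i • θ)) hA1
    let A' : W →ₗ[K] W₁ := LinearMap.codRestrict W₁ (w₁ * ((1 / 2 : K) • (1 + i • θ))) hA2
    have cA : ∀ v, ((A v : W₁) : W) = (1 / 2 : K) • (v - i • θ v) := fun v => rfl
    have cA' : ∀ v, ((A' v : W₁) : W) = w₁ ((1 / 2 : K) • (v + i • θ v)) := fun v => rfl
    have rA1 : ∀ v, A (w₁ v) = A' v := by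
      intro v
      apply Subtype.ext
      rw [cA, cA', hθ1, map_smul, map_add, map_smul]
      module
    have rA1' : ∀ v, A' (w₁ v) = A v := by
      intro v
      apply Subtype.ext
      rw [cA, cA', hθ1, map_smul, map_add, map_smul, map_neg, h1v, h1v]
      module
    have rAθ : ∀ v, A (θ v) = i • A v := by
      intro v
      apply Subtype.ext
      rw [Submodule.coe_smul, cA, cA, hθv]
      have e1 : i • (v - i • θ v) = i • v + θ v := by
        rw [smul_sub, smul_smul, hii, neg_one_smul, sub_neg_eq_add]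
      rw [smul_comm i, e1]
      module
    have rAθ' : ∀ v, A' (θ v) = -(i • A' v) := by
      intro v
      apply Subtype.ext
      rw [Submodule.coe_neg, Submodule.coe_smul, cA', cA', hθv, ← map_smul, ← map_neg]
      congr 1
      have e1 : i • (v + i • θ v) = i • v - θ v := by
        rw [smul_add, smul_smul, hii, neg_one_smul, ← sub_eq_add_neg]
      rw [smul_comm i, e1]
      module
    obtain ⟨b, hbdef⟩ : ∃ b : W →ₗ[K] W →ₗ[K] K, ∀ v w, b v w = b₁ (A v) (A' w) + δ * b₁ (A' v) (A w) :=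
      ⟨b₁.compl₁₂ A A' + δ • b₁.compl₁₂ A' A, fun v w => rfl⟩
    refine ⟨b, ?_, ?_⟩
    · rintro rfl
      apply hb₁0
      ext v w
      have e1 : A (v : W) = v := by
        apply Subtype.ext
        rw [cA, m1.mp v.2, smul_smul, hii]
        module
      have e2 : A' (v : W) = 0 := by
        apply Subtype.ext
        rw [cA', m1.mp v.2, smul_smul, hii, neg_one_smul, add_neg_cancel, smul_zero, map_zero]
        rfl
      have e3 : A (w : W) = w := by
        apply Subtype.ext
        rw [cA, m1.mp w.2, smul_smul, hii]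
        module
      have h1 := hbdef v (w₁ (w : W))
      rw [rA1', e1, e2, e3, map_zero] at h1
      simp only [LinearMap.zero_apply, mul_zero, add_zero] at h1
      exact h1.symm
    · have s1 : ∀ v w, b (w₁ v) w = δ * b v (w₁ w) := by
        intro v w
        rw [hbdef, hbdef, rA1, rA1', rA1, rA1']
        linear_combination (-(b₁ (A' v)) (A' w)) * hδδ
      have s2 : ∀ v w, b (θ v) w = -(b v (θ w)) := by
        intro v w
        rw [hbdef, hbdef, rAθ, rAθ', rAθ, rAθ']
        simp only [map_smul, map_neg, LinearMap.smul_apply, LinearMap.neg_apply, smul_eq_mul]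
        ring
      have s3 : ∀ v w, b (w₂ v) w = δ * b v (w₂ w) := by
        intro v w
        have e1 : w₂ v = w₁ (θ v) := by rw [← hw1θ]; rfl
        have e2 : w₂ w = -(θ (w₁ w)) := by
          have : θ (w₁ w) = -(w₂ w) := by rw [← Module.End.mul_apply, hθw1]; rfl
          rw [this, neg_neg]
        rw [e1, e2, s1, s2, map_neg]
      intro c hc v w
      obtain ⟨c1, hc1⟩ := P7_polar hJ hc hw₁
      obtain ⟨c2, hc2⟩ := P7_polar hJ hc hw₂
      obtain ⟨w', hw'⟩ : ∃ w', w' = c - (c1 / 2) • w₁ - (c2 / 2) • w₂ := ⟨_, rfl⟩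
      have hw'J : w' ∈ J := by
        rw [hw']
        exact J.sub_mem (J.sub_mem hc (J.smul_mem _ hw₁)) (J.smul_mem _ hw₂)
      have a1 : w' * w₁ = -(w₁ * w') := by
        rw [eq_neg_iff_add_eq_zero, hw']
        have : (c - (c1 / 2) • w₁ - (c2 / 2) • w₂) * w₁ +
            w₁ * (c - (c1 / 2) • w₁ - (c2 / 2) • w₂) = (c * w₁ + w₁ * c) -
            (c1 / 2) • (w₁ * w₁ + w₁ * w₁) - (c2 / 2) • (w₂ * w₁ + w₁ * w₂) := by
          simp only [sub_mul, mul_sub, smul_mul_assoc, mul_smul_comm, smul_add]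
          abel
        rw [this, hc1, h11, h21, neg_add_cancel, smul_zero, sub_zero, ← two_smul K, smul_smul,
          ← sub_smul]
        rw [div_mul_cancel₀ c1 two_ne_zero, sub_self, zero_smul]
      have a2 : w' * w₂ = -(w₂ * w') := by
        rw [eq_neg_iff_add_eq_zero, hw']
        have : (c - (c1 / 2) • w₁ - (c2 / 2) • w₂) * w₂ +
            w₂ * (c - (c1 / 2) • w₁ - (c2 / 2) • w₂) = (c * w₂ + w₂ * c) -
            (c2 / 2) • (w₂ * w₂ + w₂ * w₂) - (c1 / 2) • (w₂ * w₁ + w₁ * w₂) := by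
          simp only [sub_mul, mul_sub, smul_mul_assoc, mul_smul_comm, smul_add]
          abel
        rw [this, hc2, h22, h21, neg_add_cancel, smul_zero, sub_zero, ← two_smul K, smul_smul,
          ← sub_smul]
        rw [div_mul_cancel₀ c2 two_ne_zero, sub_self, zero_smul]
      have a3 : ∀ v, w' (θ v) = θ (w' v) := by
        intro v
        have : w' * θ = θ * w' := by
          rw [hθ, ← mul_assoc, a1, neg_mul, mul_assoc w₁ w', a2, mul_neg, neg_neg, mul_assoc]
        exact LinearMap.congr_fun this v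
      have a4 : ∀ v, w' (w₁ v) = -(w₁ (w' v)) := fun v => LinearMap.congr_fun a1 v
      have hmem : w'.restrict (hstab w' a1 a2) ∈ J' := ⟨w', hw'J, a1, a2, fun u => rfl⟩
      have rA : ∀ v, A (w' v) = w'.restrict (hstab w' a1 a2) (A v) := by
        intro v
        apply Subtype.ext
        rw [cA, LinearMap.coe_restrict_apply, cA, map_smul, map_sub, map_smul, a3]
      have rA' : ∀ v, A' (w' v) = -(w'.restrict (hstab w' a1 a2) (A' v)) := by
        intro v
        apply Subtype.ext
        rw [cA', Submodule.coe_neg, LinearMap.coe_restrict_apply, cA', a4, neg_neg]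
        congr 1
        rw [map_smul, map_add, map_smul, a3]
      have s4 : b (w' v) w = δ * b v (w' w) := by
        rw [hbdef, hbdef, rA, rA', rA, rA']
        have k1 := hb₁ _ hmem (A v) (A' w)
        have k2 := hb₁ _ hmem (A' v) (A w)
        simp only [map_neg, LinearMap.neg_apply]
        linear_combination k1 - δ * k2 + b₁ (A' v) (w'.restrict (hstab w' a1 a2) (A w)) * (δ * δ - δ * δ)
      have hce : c = w' + (c1 / 2) • w₁ + (c2 / 2) • w₂ := by rw [hw']; abel
      have e1 : ∀ v, c v = w' v + (c1 / 2) • w₁ v + (c2 / 2) • w₂ v := by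
        intro v
        conv_lhs => rw [hce]
        rfl
      rw [e1, e1]
      simp only [map_add, map_smul, LinearMap.add_apply, LinearMap.smul_apply, smul_eq_mul]
      rw [s4, s1, s3]
      ring
  · -- no pair
    push Not at hA
    by_cases hB : ∃ w₁ ∈ J, w₁ * w₁ = 1
    · suffices hline : finrank K W = 1 by
        refine ⟨0, by rw [hline, pow_zero], ?_⟩
        rcases hδ with rfl | rfl
        · left
          obtain ⟨b, hb⟩ := P7e_form (K := K) (W := W)
          refine ⟨b, hb, fun c _ v w => ?_⟩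
          obtain ⟨t, rfl⟩ := P7e_scalar hline c
          simp
        · right
          simp
      obtain ⟨w₁, hw₁, h11⟩ := hB
      refine P7_line (w₁ := w₁) hirr fun w hw => ?_
      obtain ⟨c1, hc1⟩ := P7_polar hJ hw hw₁
      refine ⟨c1 / 2, ?_⟩
      rw [← sub_eq_zero]
      obtain ⟨w₀, hw₀⟩ : ∃ w₀, w₀ = w - (c1 / 2) • w₁ := ⟨_, rfl⟩
      have hJ₁ : ∀ v ∈ J, v * w₁ + w₁ * v = 0 → v * v = 0 := by
        intro v hv h1
        obtain ⟨c, hc⟩ := hJ v hv
        by_cases hc0 : c = 0
        · rw [hc, hc0, zero_smul]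
        · exfalso
          obtain ⟨t, ht, htt⟩ := P7_scale hc hc0
          apply hA w₁ hw₁ (t • v) (J.smul_mem t hv) h11 htt
          rw [mul_smul_comm, smul_mul_assoc, ← smul_neg]
          congr 1
          exact eq_neg_of_add_eq_zero_right h1
      have hw₀J : w₀ ∈ J := by rw [hw₀]; exact J.sub_mem hw (J.smul_mem _ hw₁)
      have hw₀1 : w₀ * w₁ + w₁ * w₀ = 0 := by
        rw [hw₀]
        have : (w - (c1 / 2) • w₁) * w₁ + w₁ * (w - (c1 / 2) • w₁) = (w * w₁ + w₁ * w) -
            (c1 / 2) • (w₁ * w₁ + w₁ * w₁) := by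
          simp only [sub_mul, mul_sub, smul_mul_assoc, mul_smul_comm, smul_add]
          abel
        rw [this, hc1, h11, ← two_smul K, smul_smul, ← sub_smul, div_mul_cancel₀ c1 two_ne_zero,
          sub_self, zero_smul]
      rw [← hw₀]
      refine P7_zero hirr (hJ₁ w₀ hw₀J hw₀1) fun v hv => ?_
      obtain ⟨c2, hc2⟩ := P7_polar hJ hv hw₁
      obtain ⟨v', hv'⟩ : ∃ v', v' = v - (c2 / 2) • w₁ := ⟨_, rfl⟩
      have hv'J : v' ∈ J := by rw [hv']; exact J.sub_mem hv (J.smul_mem _ hw₁)
      have hv'1 : v' * w₁ + w₁ * v' = 0 := by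
        rw [hv']
        have : (v - (c2 / 2) • w₁) * w₁ + w₁ * (v - (c2 / 2) • w₁) = (v * w₁ + w₁ * v) -
            (c2 / 2) • (w₁ * w₁ + w₁ * w₁) := by
          simp only [sub_mul, mul_sub, smul_mul_assoc, mul_smul_comm, smul_add]
          abel
        rw [this, hc2, h11, ← two_smul K, smul_smul, ← sub_smul, div_mul_cancel₀ c2 two_ne_zero,
          sub_self, zero_smul]
      have h3 := hJ₁ v' hv'J hv'1
      have h4 := hJ₁ w₀ hw₀J hw₀1
      have h5 := hJ₁ (v' + w₀) (J.add_mem hv'J hw₀J) (by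
        rw [add_mul, mul_add]
        calc v' * w₁ + w₀ * w₁ + (w₁ * v' + w₁ * w₀) = (v' * w₁ + w₁ * v') +
              (w₀ * w₁ + w₁ * w₀) := by abel
          _ = 0 := by rw [hv'1, hw₀1, add_zero])
      have h6 : v' * w₀ = -(w₀ * v') := by
        have : (v' + w₀) * (v' + w₀) = v' * v' + w₀ * w₀ + (v' * w₀ + w₀ * v') := by noncomm_ring
        rw [this, h3, h4, zero_add, zero_add] at h5
        exact eq_neg_of_add_eq_zero_left h5
      refine ⟨-v' - (c2 / 2) • w₁, ?_⟩
      have h7 : v = v' + (c2 / 2) • w₁ := by rw [hv']; abel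
      rw [h7, add_mul, h6, smul_mul_assoc, eq_neg_of_add_eq_zero_right hw₀1, mul_sub, mul_neg,
        mul_smul_comm, smul_neg, sub_eq_add_neg]
    · push Not at hB
      have h0 : ∀ v ∈ J, v * v = 0 := by
        intro v hv
        obtain ⟨c, hc⟩ := hJ v hv
        by_cases hc0 : c = 0
        · rw [hc, hc0, zero_smul]
        · exfalso
          obtain ⟨t, ht, htt⟩ := P7_scale hc hc0
          exact hB _ (J.smul_mem t hv) htt
      have hz : ∀ w ∈ J, w = 0 := by
        intro w hw
        refine P7_zero hirr (h0 w hw) fun v hv => ⟨-v, ?_⟩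
        have h5 := h0 _ (J.add_mem hv hw)
        have : (v + w) * (v + w) = v * v + w * w + (v * w + w * v) := by noncomm_ring
        rw [this, h0 v hv, h0 w hw, zero_add, zero_add] at h5
        rw [mul_neg]
        exact eq_neg_of_add_eq_zero_left h5
      have hline : finrank K W = 1 := P7_line (w₁ := 0) hirr fun w hw => ⟨0, by rw [smul_zero]; exact hz w hw⟩
      refine ⟨0, by rw [hline, pow_zero], Or.inl ?_⟩
      obtain ⟨b, hb⟩ := P7e_form (K := K) (W := W)
      refine ⟨b, hb, fun c hc v w => ?_⟩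
      rw [hz c hc]
      simp

end Pool.Agent.H86N
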