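import Pool.Agent.Lib.H86N.P4

/-!
# G1: an invariant form on the corner of a frame extends to an invariant form
-/

set_option autoImplicit false
set_option linter.unusedSectionVars false
namespace Pool.Agent.H86N
open Module Pool.Agent.H53Toric Pool.Agent.H49M

variable {K : Type*} [Field K] {V : Type*} [AddCommGroup V] [Module K V]

variable {L : Submodule K (Module.End K V)}

/-- The lowering part, with both sides. -/
theorem G1_low' [CharZero K] (hl : IsLie L) {e f : Module.End K V} (hee : e * e = 0) (hff : f * f = 0)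
    (efe : e * f * e = e) (fef : f * e * f = f) (hH : e * f - f * e ∈ L)
    {z : Module.End K V} (hz : z ∈ L) :
    ∃ w ∈ L, e * f * w = 0 ∧ w * (f * e) = 0 ∧ z * (e * f) = e * f * z * (e * f) + w * (e * f) ∧
      f * e * z = f * e * z * (f * e) + f * e * w := by
  have pp : e * f * (e * f) = e * f := by rw [← mul_assoc, efe]
  have qq : f * e * (f * e) = f * e := by rw [← mul_assoc, fef]
  have pq : e * f * (f * e) = 0 := by
    rw [mul_assoc, ← mul_assoc f f, hff, zero_mul, mul_zero]
  have qp : f * e * (e * f) = 0 := by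
    rw [mul_assoc, ← mul_assoc e e, hee, zero_mul, mul_zero]
  obtain ⟨p, hp⟩ : ∃ p, p = e * f := ⟨_, rfl⟩
  obtain ⟨q, hq⟩ : ∃ q, q = f * e := ⟨_, rfl⟩
  rw [← hp] at pp pq qp
  rw [← hq] at qq pq qp
  obtain ⟨r, hr⟩ : ∃ r, r = 1 - p - q := ⟨_, rfl⟩
  have pr : p * r = 0 := by rw [hr, mul_sub, mul_sub, pp, pq]; simp
  have rq : r * q = 0 := by rw [hr, sub_mul, sub_mul, qq, pq]; simp
  have rp : r * p = 0 := by rw [hr, sub_mul, sub_mul, pp, qp]; simp
  have qr : q * r = 0 := by rw [hr, mul_sub, mul_sub, qq, qp]; simp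
  have key := fun n => P0_block hl (c := ![p, r, q]) (w := ![1, 0, -1])
    (by
      intro i j
      fin_cases i <;> fin_cases j <;> simp [pp, qq, pq, qp, pr, rq, rp, qr] <;>
        · rw [hr]
          simp [mul_sub, sub_mul, pp, qq, pq, qp])
    (by
      simp [Fin.sum_univ_succ, hr])
    (by
      simp [Fin.sum_univ_succ]
      rw [← hp, ← hq] at hH
      rwa [← sub_eq_add_neg]) hz n
  have k1 := key (-1)
  have k2 := key (-2)
  simp [Fin.sum_univ_succ] at k1 k2
  rw [← hp, ← hq]
  refine ⟨_, L.add_mem k1 k2, ?_, ?_, ?_, ?_⟩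
  · simp only [mul_add, ← mul_assoc]
    simp only [pr, pq]; simp
  · simp only [add_mul, mul_assoc]
    simp only [pq, rq]; simp
  · have e1 : p + r + q = 1 := by rw [hr]; abel
    have a1 : (r * z * p + q * z * r) * p = r * z * p := by
      calc (r * z * p + q * z * r) * p = r * z * (p * p) + q * z * (r * p) := by noncomm_ring
        _ = _ := by rw [pp, rp, mul_zero, add_zero]
    have a2 : q * z * p * p = q * z * p := by rw [mul_assoc, pp]
    rw [add_mul (r * z * p + q * z * r), a1, a2]
    calc z * p = (p + r + q) * z * p := by rw [e1, one_mul]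
      _ = _ := by noncomm_ring
  · have e1 : p + r + q = 1 := by rw [hr]; abel
    have a1 : q * (r * z * p + q * z * r) = q * z * r := by
      calc q * (r * z * p + q * z * r) = (q * r) * z * p + (q * q) * z * r := by noncomm_ring
        _ = _ := by rw [qr, qq, zero_mul, zero_mul, zero_add]
    have a2 : q * (q * z * p) = q * z * p := by rw [← mul_assoc, ← mul_assoc, qq]
    rw [mul_add q (r * z * p + q * z * r), a1, a2]
    calc q * z = q * z * (p + r + q) := by rw [e1, mul_one]
      _ = _ := by noncomm_ring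

/-- The lowering part, with both sides. -/
theorem G1_low [CharZero K] (h : CoreN L) {s e f : Module.End K V} (F : Frame L s e f)
    {z : Module.End K V} (hz : z ∈ L) :
    ∃ w ∈ L, e * f * w = 0 ∧ w * (f * e) = 0 ∧ z * (e * f) = e * f * z * (e * f) + w * (e * f) ∧
      f * e * z = f * e * z * (f * e) + f * e * w :=
  G1_low' h.lie (A2_pp F.e_mem F.e_mem) (A2_mm F.f_mem F.f_mem) F.efe F.fef (K0_H h.lie F) hz

/-- The action on the sum of a space and its dual. -/
noncomputable def dbl (X : Module.End K V) : Module.End K (V × Module.Dual K V) :=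
  LinearMap.prodMap X (-X.dualMap)

theorem dbl_apply (X : Module.End K V) (v : V) (φ : Module.Dual K V) : dbl X (v, φ) = (X v, -(φ ∘ₗ X)) := rfl

/-- The action on the sum of a space and its dual, as a linear map. -/
noncomputable def dblL : Module.End K V →ₗ[K] Module.End K (V × Module.Dual K V) where
  toFun := dbl
  map_add' X Y := by
    ext v : 1
    · ext v
      · simp [dbl_apply]
      · simp [dbl_apply]
    · ext φ
      · simp [dbl_apply]
      · simp [dbl_apply, LinearMap.comp_add]
        abel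
  map_smul' c X := by
    ext v : 1
    · ext v
      · simp [dbl_apply]
      · simp [dbl_apply]
    · ext φ
      · simp [dbl_apply]
      · simp [dbl_apply]

theorem dbl_comm (X Y : Module.End K V) : dbl X * dbl Y - dbl Y * dbl X = dbl (X * Y - Y * X) := by
  ext v : 1
  · ext v
    · simp [dbl_apply]
    · simp [dbl_apply]
  · ext φ
    · simp [dbl_apply]
    · simp [dbl_apply]

theorem dblL_apply (X : Module.End K V) (v : V) (φ : Module.Dual K V) :
    dblL X (v, φ) = (X v, -(φ ∘ₗ X)) := rfl

/-- A subspace of the dual space stable under an irreducible algebra is zero or everything. -/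
theorem G1_dual [FiniteDimensional K V] (hirr : Irr L) (A : Submodule K (Module.Dual K V))
    (hA : ∀ X ∈ L, ∀ φ ∈ A, φ ∘ₗ X ∈ A) : A = ⊥ ∨ A = ⊤ := by
  rcases hirr A.dualCoannihilator (by
    intro X hX w hw
    rw [Submodule.mem_dualCoannihilator] at hw ⊢
    intro φ hφ
    exact hw _ (hA X hX φ hφ)) with h1 | h1
  · right
    have h2 := Subspace.dualCoannihilator_dualAnnihilator_eq (K := K) (V := V) (W := A)
    rw [← h2, h1, Submodule.dualAnnihilator_bot]
  · left
    rw [eq_bot_iff]
    intro φ hφ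
    rw [Submodule.mem_bot]
    ext v
    have h2 : v ∈ A.dualCoannihilator := by rw [h1]; trivial
    exact (Submodule.mem_dualCoannihilator _).1 h2 φ hφ

/-- An invariant form on the corner extends to an invariant form on the whole space. -/
theorem exists_form' [CharZero K] [FiniteDimensional K V]
    (hl : IsLie L) (hirr : Irr L) {e f : Module.End K V} (he0 : e ≠ 0) (hee : e * e = 0) (hff : f * f = 0)
    (efe : e * f * e = e) (fef : f * e * f = f) (hH : e * f - f * e ∈ L) (β : V →ₗ[K] V →ₗ[K] K)
    (h1 : ∀ v w, β (e (f v)) w = β v w) (h2 : ∀ v w, β v (f (e w)) = β v w)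
    (h3 : ∀ X ∈ L, ∀ v w, β (X (e (f v))) w + β v (X (f (e w))) = 0) :
    ∃ B : V →ₗ[K] V →ₗ[K] K, (∀ v w, B (e (f v)) w = β v w) ∧
      ∀ X ∈ L, ∀ v w, B (X v) w + B v (X w) = 0 := by
  have pp : e * f * (e * f) = e * f := by rw [← mul_assoc, efe]
  have qq : f * e * (f * e) = f * e := by rw [← mul_assoc, fef]
  have ppv : ∀ v, e (f (e (f v))) = e (f v) := fun v => LinearMap.congr_fun pp v
  have qqv : ∀ v, f (e (f (e v))) = f (e v) := fun v => LinearMap.congr_fun qq v
  -- the algebra of the double
  let g : Submodule K (Module.End K (V × Module.Dual K V)) := L.map dblL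
  have hg : IsLie g := by
    rintro _ ⟨X, hX, rfl⟩ _ ⟨Y, hY, rfl⟩
    exact ⟨X * Y - Y * X, hl X hX Y hY, (dbl_comm X Y).symm⟩
  let E : Module.End K (V × Module.Dual K V) := LinearMap.prodMap (e * f) (f * e).dualMap
  have hE : ∀ (v : V) (φ : Module.Dual K V), E (v, φ) = (e (f v), φ ∘ₗ (f * e)) := fun v φ => rfl
  let ι : V →ₗ[K] V × Module.Dual K V := LinearMap.prod (e * f) (β ∘ₗ (e * f))
  have hι : ∀ v, ι v = (e (f v), β (e (f v))) := fun v => rfl
  let U : Submodule K (V × Module.Dual K V) := LinearMap.range ι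
  have low : ∀ z ∈ g, ∃ w ∈ g, E * w = 0 ∧ z * E = E * z * E + w * E := by
    rintro _ ⟨z, hz, rfl⟩
    obtain ⟨w, hw, w1, w2, w3, w4⟩ := G1_low' hl hee hff efe fef hH hz
    refine ⟨dblL w, ⟨w, hw, rfl⟩, ?_, ?_⟩
    · apply LinearMap.ext
      rintro ⟨v, φ⟩
      rw [Module.End.mul_apply, dblL_apply, hE]
      have a1 : e (f (w v)) = 0 := LinearMap.congr_fun w1 v
      rw [a1]
      ext x
      · rfl
      · have a2 : w (f (e x)) = 0 := LinearMap.congr_fun w2 x
        simp [a2]
    · apply LinearMap.ext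
      rintro ⟨v, φ⟩
      rw [LinearMap.add_apply, Module.End.mul_apply, Module.End.mul_apply, Module.End.mul_apply,
        Module.End.mul_apply, hE, dblL_apply, hE, dblL_apply]
      have a1 : z (e (f v)) = e (f (z (e (f v)))) + w (e (f v)) := LinearMap.congr_fun w3 v
      ext x
      · exact a1
      · have a2 : f (e (z x)) = f (e (z (f (e x)))) + f (e (w x)) := LinearMap.congr_fun w4 x
        simp [a2]
        abel
  have hU : ∀ u ∈ U, E u = u := by
    rintro _ ⟨v, rfl⟩
    rw [hι, hE, ppv]
    ext x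
    · rfl
    · show β (e (f v)) (f (e x)) = β (e (f v)) x
      rw [h2]
  have hst : ∀ C ∈ g, ∀ u ∈ U, E (C u) ∈ U := by
    rintro _ ⟨X, hX, rfl⟩ _ ⟨v, rfl⟩
    refine ⟨X (e (f v)), ?_⟩
    rw [hι, hι, dblL_apply, hE]
    ext x
    · rfl
    · show β (e (f (X (e (f v))))) x = -(β (e (f v)) (X (f (e x))))
      rw [h1, h1]
      have := h3 X hX v x
      exact eq_neg_of_add_eq_zero_left this
  -- the largest submodule with top component in the graph
  let W : Submodule K (V × Module.Dual K V) :=
    { carrier := {v | ∀ l : List (Module.End K (V × Module.Dual K V)), (∀ x ∈ l, x ∈ g) → E (l.prod v) ∈ U}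
      add_mem' := by
        intro a b ha hb l hl
        rw [map_add, map_add]
        exact U.add_mem (ha l hl) (hb l hl)
      zero_mem' := by
        intro l _
        rw [map_zero, map_zero]; exact U.zero_mem
      smul_mem' := by
        intro c a ha l hl
        rw [map_smul, map_smul]
        exact U.smul_mem c (ha l hl) }
  have hUW : U ≤ W := fun u hu l hl => P4_words hg low hU hst _ l le_rfl hl u hu
  have hWst : ∀ X ∈ L, ∀ w ∈ W, dblL X w ∈ W := by
    intro X hX w hw l hl
    have := hw (l ++ [dblL X]) (by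
      intro x hx
      rcases List.mem_append.1 hx with hx | hx
      · exact hl x hx
      · rw [List.mem_singleton.1 hx]; exact ⟨X, hX, rfl⟩)
    simpa using this
  have hWE : ∀ w ∈ W, E w ∈ U := fun w hw => by simpa using hw [] (by simp)
  -- W contains no covector
  have hzero : ∀ φ : Module.Dual K V, ((0 : V), φ) ∈ W → φ = 0 := by
    rcases G1_dual hirr (W.comap (LinearMap.inr K V (Module.Dual K V))) (by
      intro X hX φ hφ
      have h4 : ((0 : V), φ) ∈ W := hφ
      have h5 := W.neg_mem (hWst X hX _ h4)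
      rw [dblL_apply, map_zero] at h5
      have h6 : -((0 : V), -(φ ∘ₗ X)) = ((0 : V), φ ∘ₗ X) := by simp
      rw [h6] at h5
      exact h5) with h4 | h4
    · intro φ hφ
      have h5 : φ ∈ W.comap (LinearMap.inr K V (Module.Dual K V)) := hφ
      rw [h4] at h5
      exact (Submodule.mem_bot K).1 h5
    · exfalso
      have h5 : ∀ φ : Module.Dual K V, φ ∘ₗ (f * e) = 0 := by
        intro φ
        have h6 : φ ∈ W.comap (LinearMap.inr K V (Module.Dual K V)) := by rw [h4]; trivial
        obtain ⟨v, hv⟩ := hWE _ h6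
        have h7 : ι v = (e (f (0 : V)), φ ∘ₗ (f * e)) := hv
        rw [hι] at h7
        have h8 : e (f v) = e (f (0 : V)) := congrArg Prod.fst h7
        have h9 : β (e (f v)) = φ ∘ₗ (f * e) := congrArg Prod.snd h7
        rw [← h9, h8]
        simp
      have h6 : f * e = 0 := by
        apply LinearMap.ext
        intro v
        by_contra h7
        obtain ⟨φ, hφ⟩ := Module.Projective.exists_dual_ne_zero (R := K) h7
        exact hφ (LinearMap.congr_fun (h5 φ) v)
      apply he0
      rw [← efe, mul_assoc, h6, mul_zero]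
  -- W projects onto the space
  have honto : W.map (LinearMap.fst K V (Module.Dual K V)) = ⊤ := by
    rcases hirr (W.map (LinearMap.fst K V (Module.Dual K V))) (by
      rintro X hX _ ⟨w, hw, rfl⟩
      refine ⟨dblL X w, hWst X hX w hw, ?_⟩
      obtain ⟨v, φ⟩ := w
      rfl) with h4 | h4
    · exfalso
      apply he0
      rw [← efe]
      have h5 : e * f = 0 := by
        apply LinearMap.ext
        intro v
        have h6 : (e * f) v ∈ W.map (LinearMap.fst K V (Module.Dual K V)) :=
          ⟨ι v, hUW ⟨v, rfl⟩, rfl⟩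
        rw [h4] at h6
        exact (Submodule.mem_bot K).1 h6
      rw [h5, zero_mul]
    · exact h4
  let π : W →ₗ[K] V := (LinearMap.fst K V (Module.Dual K V)).domRestrict W
  have hπ : Function.Bijective π := by
    constructor
    · rintro ⟨⟨v, φ⟩, hw⟩ ⟨⟨v', φ'⟩, hw'⟩ hv
      have hv' : v = v' := hv
      subst hv'
      have h4 := W.sub_mem hw hw'
      have h5 : ((v, φ) : V × Module.Dual K V) - (v, φ') = (0, φ - φ') := by simp
      rw [h5] at h4
      have h6 : φ = φ' := sub_eq_zero.1 (hzero _ h4)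
      subst h6
      rfl
    · intro v
      have h4 : v ∈ W.map (LinearMap.fst K V (Module.Dual K V)) := by rw [honto]; trivial
      obtain ⟨w, hw, rfl⟩ := h4
      exact ⟨⟨w, hw⟩, rfl⟩
  let Φ : W ≃ₗ[K] V := LinearEquiv.ofBijective π hπ
  let B : V →ₗ[K] V →ₗ[K] K := (LinearMap.snd K V (Module.Dual K V)) ∘ₗ W.subtype ∘ₗ Φ.symm.toLinearMap
  have hB : ∀ v, (v, B v) ∈ W := by
    intro v
    have h4 : Φ (Φ.symm v) = v := Φ.apply_symm_apply v
    have h5 : ((Φ.symm v : W) : V × Module.Dual K V) = (v, B v) := by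
      ext x
      · exact h4
      · rfl
    rw [← h5]
    exact (Φ.symm v).2
  have hBu : ∀ v φ, (v, φ) ∈ W → B v = φ := by
    intro v φ hw
    have h4 := W.sub_mem (hB v) hw
    have h5 : ((v, B v) : V × Module.Dual K V) - (v, φ) = (0, B v - φ) := by simp
    rw [h5] at h4
    exact sub_eq_zero.1 (hzero _ h4)
  refine ⟨B, ?_, ?_⟩
  · intro v w
    have h4 := hBu _ _ (hUW ⟨v, rfl⟩ : (e (f v), β (e (f v))) ∈ W)
    rw [h4, h1]
  · intro X hX v w
    have h4 : B (X v) = -(B v ∘ₗ X) := hBu _ _ (hWst X hX _ (hB v))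
    rw [h4]
    show -(B v (X w)) + B v (X w) = 0
    ring

/-- An invariant form on the corner of a frame extends to an invariant form on the whole space. -/
theorem exists_form [CharZero K] [IsAlgClosed K] [FiniteDimensional K V] [Nontrivial V]
    (h : CoreN L) {s e f : Module.End K V} (F : Frame L s e f) (β : V →ₗ[K] V →ₗ[K] K)
    (h1 : ∀ v w, β (e (f v)) w = β v w) (h2 : ∀ v w, β v (f (e w)) = β v w)
    (h3 : ∀ X ∈ L, ∀ v w, β (X (e (f v))) w + β v (X (f (e w))) = 0) :
    ∃ B : V →ₗ[K] V →ₗ[K] K, (∀ v w, B (e (f v)) w = β v w) ∧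
      ∀ X ∈ L, ∀ v w, B (X v) w + B v (X w) = 0 :=
  exists_form' h.lie h.irr F.e_ne (A2_pp F.e_mem F.e_mem) (A2_mm F.f_mem F.f_mem) F.efe F.fef
    (K0_H h.lie F) β h1 h2 h3

end Pool.Agent.H86N
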