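import Pool.Agent.Lib.H86N.R1
import Pool.Agent.Lib.H86N.G1
import Pool.Agent.Lib.H86N.A3s

/-!
# R2: in rank two there is an invariant form
-/

set_option autoImplicit false
set_option linter.unusedSectionVars false
namespace Pool.Agent.H86N
open Module Pool.Agent.H53Toric Pool.Agent.H49M

variable {K : Type*} [Field K] {V : Type*} [AddCommGroup V] [Module K V]
variable {L : Submodule K (Module.End K V)}

theorem r2_tr2 (A B : Module.End K V) : LinearMap.trace K V (A * B) = LinearMap.trace K V (B * A) :=
  LinearMap.trace_mul_comm K A B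

/-- The traces of the corners at `p 1` and `q 1` are opposite: the case of a bracket. -/
theorem r2_bracket [CharZero K] [IsAlgClosed K] [FiniteDimensional K V] [Nontrivial V] (h : CoreN L)
    {s e f e' f' u : Module.End K V} (G : Grid L s e f e' f' u) (hr : finrank K (LinearMap.range e) = 2)
    {X Y : Module.End K V} (hX : X ∈ Lp L s) (hY : Y ∈ Lm L s) :
    LinearMap.trace K V (e * f * X * Y) = LinearMap.trace K V (f * e * Y * X) := by
  have hl := h.lie
  have hadj := r1_adj h G hr
  have hpp : e * f * (e * f) = e * f := by rw [← mul_assoc, G.F.efe]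
  obtain ⟨-, g1, g2, -⟩ := P3_u1 h G
  obtain ⟨-, g3, g4⟩ := P3_u2 h G
  obtain ⟨g5, g6⟩ := P3_u12 G
  have hff' : f * f' = 0 := A2_mm G.F.f_mem G.F'.f_mem
  have hf'f : f' * f = 0 := A2_mm G.F'.f_mem G.F.f_mem
  have huu : u * u = 0 := A2_pp G.u_mem G.u_mem
  have hue : u * e = 0 := A2_pp G.u_mem G.F.e_mem
  have heu : e * u = 0 := A2_pp G.F.e_mem G.u_mem
  have he'e : e' * e = 0 := A2_pp G.F'.e_mem G.F.e_mem
  have hee' : e * e' = 0 := A2_pp G.F.e_mem G.F'.e_mem
  have he'u : e' * u = 0 := A2_pp G.F'.e_mem G.u_mem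
  have hee : e * e = 0 := A2_pp G.F.e_mem G.F.e_mem
  have hff : f * f = 0 := A2_mm G.F.f_mem G.F.f_mem
  have htp : LinearMap.trace K V (e * f) = 2 := by
    rw [(K0_rank G.F).2.2, hr]; norm_num
  have B := P2_blocks h G
  obtain ⟨p, hp⟩ : ∃ p, p = pp s e f e' f' := ⟨_, rfl⟩
  obtain ⟨q, hq⟩ : ∃ q, q = qq s e f e' f' := ⟨_, rfl⟩
  rw [← hp, ← hq] at B
  have p0d : p 0 = (1 / 2 : K) • (1 + s) - e * f - e' * f' := by rw [hp]; rfl
  have q0d : q 0 = (1 / 2 : K) • (1 - s) - f * e - f' * e' := by rw [hq]; rfl
  have p1 : p 1 = e * f := by rw [hp]; rfl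
  have p2 : p 2 = e' * f' := by rw [hp]; rfl
  have q1 : q 1 = f * e := by rw [hq]; rfl
  have q2 : q 2 = f' * e' := by rw [hq]; rfl
  have hX1 : e * X = 0 := A2_pp G.F.e_mem hX
  have hY1 : f * Y = 0 := A2_mm G.F.f_mem hY
  -- X = X (q 0 + q 1 + q 2), Y = Y (p 0 + p 1 + p 2)
  have hXs : X * ((1 / 2 : K) • (1 - s)) = X := by
    rw [mul_smul_comm, mul_sub, mul_one, hX.2.2, sub_neg_eq_add, ← two_smul K X, smul_smul]
    norm_num
  have hYs : Y * ((1 / 2 : K) • (1 + s)) = Y := by
    rw [mul_smul_comm, mul_add, mul_one, hY.2.2, ← two_smul K Y, smul_smul]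
    norm_num
  have hXq : X = X * q 0 + X * q 1 + X * q 2 := by
    calc X = X * ((1 / 2 : K) • (1 - s)) := hXs.symm
      _ = X * (q 0 + q 1 + q 2) := by rw [q0d, q1, q2]; congr 1; abel
      _ = _ := by rw [mul_add, mul_add]
  have hYp : Y = Y * p 0 + Y * p 1 + Y * p 2 := by
    calc Y = Y * ((1 / 2 : K) • (1 + s)) := hYs.symm
      _ = Y * (p 0 + p 1 + p 2) := by rw [p0d, p1, p2]; congr 1; abel
      _ = _ := by rw [mul_add, mul_add]
  have hl1 : e * f * X * Y = e * f * X * q 0 * Y + e * f * X * q 1 * Y + e * f * X * q 2 * Y := by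
    calc e * f * X * Y = e * f * (X * q 0 + X * q 1 + X * q 2) * Y := by rw [← hXq]
      _ = _ := by noncomm_ring
  have hl2 : f * e * Y * X = f * e * Y * p 0 * X + f * e * Y * p 1 * X + f * e * Y * p 2 * X := by
    calc f * e * Y * X = f * e * (Y * p 0 + Y * p 1 + Y * p 2) * X := by rw [← hYp]
      _ = _ := by noncomm_ring
  have t1 : LinearMap.trace K V (e * f * X * q 1 * Y) = LinearMap.trace K V (f * e * Y * p 1 * X) := by
    rw [q1, p1]
    calc LinearMap.trace K V (e * f * X * (f * e) * Y) = LinearMap.trace K V ((e * f * X) * (f * e * Y)) := by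
          congr 1 <;> noncomm_ring
      _ = LinearMap.trace K V ((f * e * Y) * (e * f * X)) := r2_tr2 _ _
      _ = _ := by congr 1 <;> noncomm_ring
  -- the index two
  have t2 : LinearMap.trace K V (e * f * X * q 2 * Y) = LinearMap.trace K V (f * e * Y * p 2 * X) := by
    rw [q2, p2]
    obtain ⟨A, hA⟩ : ∃ A, A = e * f * X * f' * (u * f) := ⟨_, rfl⟩
    obtain ⟨D, hD⟩ : ∃ D, D = u * f' * e' * Y * (e * f) := ⟨_, rfl⟩
    obtain ⟨C, hC⟩ : ∃ C, C = e * Y * (u * f) := ⟨_, rfl⟩
    obtain ⟨M, hM⟩ : ∃ M, M = u * f' * X * f := ⟨_, rfl⟩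
    have i1 : -M = A - LinearMap.trace K V A • (e * f) := by
      have h1 := hadj _ (hl _ hX.1 _ G.F'.f_mem.1)
      have h2 : u * f' * e' * (X * f' - f' * X) * f = -M := by
        rw [hM]
        calc u * f' * e' * (X * f' - f' * X) * f = u * f' * e' * X * (f' * f) - u * (f' * e' * f') * X * f := by
              noncomm_ring
          _ = _ := by rw [hf'f, G.F'.fef]; simp
      have h3 : e * f * (X * f' - f' * X) * (u * f) = A := by
        rw [hA]
        calc e * f * (X * f' - f' * X) * (u * f) = e * f * X * f' * (u * f) - e * (f * f') * X * (u * f) := by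
              noncomm_ring
          _ = _ := by rw [hff']; simp
      rw [h2, h3] at h1
      exact h1
    have i2 : D = -C + LinearMap.trace K V C • (e * f) := by
      have h1 := hadj _ (hl _ hY.1 _ G.F.e_mem.1)
      have h2 : u * f' * e' * (Y * e - e * Y) * f = D := by
        rw [hD]
        calc u * f' * e' * (Y * e - e * Y) * f = u * f' * e' * Y * (e * f) - u * f' * (e' * e) * Y * f := by
              noncomm_ring
          _ = _ := by rw [he'e]; simp
      have h3 : e * f * (Y * e - e * Y) * (u * f) = -C := by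
        rw [hC]
        calc e * f * (Y * e - e * Y) * (u * f) = e * f * Y * (e * u) * f - (e * f * e) * Y * (u * f) := by
              noncomm_ring
          _ = _ := by rw [heu, G.F.efe]; simp
      rw [h2, h3, map_neg, neg_smul, sub_neg_eq_add] at h1
      exact h1
    have hAp : A * (e * f) = A := by
      rw [hA]
      calc e * f * X * f' * (u * f) * (e * f) = e * f * X * f' * (u * f * (e * f)) := by noncomm_ring
        _ = _ := by rw [g4]
    have hCp : C * (e * f) = C := by
      rw [hC]
      calc e * Y * (u * f) * (e * f) = e * Y * (u * f * (e * f)) := by noncomm_ring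
        _ = _ := by rw [g4]
    calc LinearMap.trace K V (e * f * X * (f' * e') * Y) = LinearMap.trace K V (A * D) := by
          have h1 : A * D = (e * f * X * (f' * e') * Y) * (e * f) := by
            rw [hA, hD]
            calc e * f * X * f' * (u * f) * (u * f' * e' * Y * (e * f)) =
                  e * f * X * f' * (u * f * (u * f')) * e' * Y * (e * f) := by noncomm_ring
              _ = e * f * X * (f' * e' * f') * e' * Y * (e * f) := by rw [g6]; noncomm_ring
              _ = _ := by rw [G.F'.fef]; noncomm_ring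
          rw [h1, r2_tr2 (e * f * X * (f' * e') * Y) (e * f)]
          congr 1
          calc e * f * X * (f' * e') * Y = (e * f * (e * f)) * X * (f' * e') * Y := by rw [hpp]
            _ = _ := by noncomm_ring
      _ = LinearMap.trace K V C * LinearMap.trace K V A - LinearMap.trace K V (A * C) := by
          rw [i2, mul_add, mul_smul_comm, hAp, map_add, map_smul, mul_neg, map_neg, smul_eq_mul]
          ring
      _ = LinearMap.trace K V (C * M) := by
          have h1 : M = LinearMap.trace K V A • (e * f) - A := by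
            have h2 : M = -(-M) := (neg_neg M).symm
            rw [h2, i1]
            abel
          rw [h1, mul_sub, mul_smul_comm, hCp, map_sub, map_smul, smul_eq_mul, r2_tr2 A C]
          ring
      _ = _ := by
          have h1 : C * M = e * (Y * (e' * f') * X * f) := by
            rw [hC, hM, ← g6]
            noncomm_ring
          rw [h1, r2_tr2]
          have h2 : Y * (e' * f') * X * f * e = (Y * (e' * f') * X) * (f * e) := by noncomm_ring
          rw [h2, r2_tr2]
          congr 1 <;> noncomm_ring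
  -- the index zero
  have t0 : LinearMap.trace K V (e * f * X * q 0 * Y) = LinearMap.trace K V (f * e * Y * p 0 * X) := by
    have hX' := B.mp X hX.1 1 0 (by decide)
    have hY' := B.mm Y hY.1 0 1 (by decide)
    rw [p1, q1] at hX' hY'
    obtain ⟨X', hXd⟩ : ∃ X', X' = e * f * X * q 0 + p 0 * X * (f * e) := ⟨_, rfl⟩
    obtain ⟨Y', hYd⟩ : ∃ Y', Y' = q 0 * Y * (e * f) + f * e * Y * p 0 := ⟨_, rfl⟩
    obtain ⟨Z, hZd⟩ : ∃ Z, Z = u * f' - f' * u := ⟨_, rfl⟩
    have hZ : Z ∈ L := by rw [hZd]; exact hl _ G.u_mem.1 _ G.F'.f_mem.1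
    rw [← hXd] at hX'
    rw [← hYd] at hY'
    have h1 := hadj _ (hl _ hX' _ (hl _ hY' _ hZ))
    -- products with p 0, q 0
    have k1 : e * f * p 0 = 0 := by rw [← p1, B.pp, if_neg (by decide)]
    have k2 : q 0 * (f * e) = 0 := by rw [← q1, B.qq, if_neg (by decide)]
    have k3 : f * e * q 0 = 0 := by rw [← q1, B.qq, if_neg (by decide)]
    have k4 : p 0 * (e * f) = 0 := by rw [← p1, B.pp, if_neg (by decide)]
    have k5 : e' * f' * p 0 = 0 := by rw [← p2, B.pp, if_neg (by decide)]
    have k6 : f' * e' * q 0 = 0 := by rw [← q2, B.qq, if_neg (by decide)]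
    have k7 : q 0 * (f' * e') = 0 := by rw [← q2, B.qq, if_neg (by decide)]
    have k8 : q 0 * q 0 = q 0 := by rw [B.qq, if_pos rfl]
    have k9 : p 0 * p 0 = p 0 := by rw [B.pp, if_pos rfl]
    have l1 : q 0 * f = 0 := by
      calc q 0 * f = q 0 * (f * e) * f := by
            rw [mul_assoc, G.F.fef]
        _ = 0 := by rw [k2, zero_mul]
    have l2 : e * q 0 = 0 := by
      calc e * q 0 = e * (f * e * q 0) := by
            rw [← mul_assoc, ← mul_assoc, G.F.efe]
        _ = 0 := by rw [k3, mul_zero]
    have l3 : e' * q 0 = 0 := by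
      calc e' * q 0 = e' * (f' * e' * q 0) := by
            rw [← mul_assoc, ← mul_assoc, G.F'.efe]
        _ = 0 := by rw [k6, mul_zero]
    have l4 : q 0 * f' = 0 := by
      calc q 0 * f' = q 0 * (f' * e') * f' := by
            rw [mul_assoc, G.F'.fef]
        _ = 0 := by rw [k7, zero_mul]
    have hse : s * e = e := G.F.e_mem.2.1
    have hse' : s * e' = e' := G.F'.e_mem.2.1
    have hsu : s * u = u := G.u_mem.2.1
    have hes : e * s = -e := G.F.e_mem.2.2
    have hes' : e' * s = -e' := G.F'.e_mem.2.2
    have l5 : q 0 * u = 0 := by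
      rw [q0d, sub_mul, sub_mul, smul_mul_assoc, sub_mul, one_mul, hsu, mul_assoc f e u, heu,
        mul_assoc f' e' u, he'u]
      simp
    have l6 : e * p 0 = 0 := by
      rw [p0d, mul_sub, mul_sub, mul_smul_comm, mul_add, mul_one, hes, ← mul_assoc, hee, ← mul_assoc, hee']
      simp
    have he'e' : e' * e' = 0 := A2_pp G.F'.e_mem G.F'.e_mem
    have l7 : e' * p 0 = 0 := by
      rw [p0d, mul_sub, mul_sub, mul_smul_comm, mul_add, mul_one, hes', ← mul_assoc, he'e, ← mul_assoc, he'e']
      simp
    -- the elements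
    have m1 : e * f * X' = e * f * X * q 0 := by
      rw [hXd]
      calc e * f * (e * f * X * q 0 + p 0 * X * (f * e)) = (e * f * (e * f)) * X * q 0 +
            (e * f * p 0) * X * (f * e) := by noncomm_ring
        _ = _ := by rw [hpp, k1]; simp
    have m2 : X' * (u * f) = 0 := by
      rw [hXd]
      calc (e * f * X * q 0 + p 0 * X * (f * e)) * (u * f) = e * f * X * (q 0 * u) * f +
            p 0 * X * f * (e * u) * f := by noncomm_ring
        _ = 0 := by rw [l5, heu]; simp
    have m3 : Z * (u * f) = e * f := by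
      rw [hZd]
      calc (u * f' - f' * u) * (u * f) = (u * f' * u) * f - f' * (u * u) * f := by noncomm_ring
        _ = _ := by rw [G.ufu', huu]; simp
    have m4 : q 0 * Z = 0 := by
      rw [hZd]
      calc q 0 * (u * f' - f' * u) = (q 0 * u) * f' - (q 0 * f') * u := by noncomm_ring
        _ = 0 := by rw [l5, l4]; simp
    have m5 : q 0 * Y' * (e * f) = q 0 * Y * (e * f) := by
      rw [hYd]
      calc q 0 * (q 0 * Y * (e * f) + f * e * Y * p 0) * (e * f) = (q 0 * q 0) * Y * (e * f * (e * f)) +
            (q 0 * (f * e)) * Y * p 0 * (e * f) := by noncomm_ring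
        _ = _ := by rw [k8, hpp, k2]; simp
    have n1 : e * f * (X' * (Y' * Z - Z * Y') - (Y' * Z - Z * Y') * X') * (u * f) =
        e * f * X * q 0 * Y * (e * f) := by
      calc e * f * (X' * (Y' * Z - Z * Y') - (Y' * Z - Z * Y') * X') * (u * f) =
            (e * f * X') * Y' * (Z * (u * f)) - (e * f * X') * Z * Y' * (u * f) -
            e * f * (Y' * Z - Z * Y') * (X' * (u * f)) := by noncomm_ring
        _ = e * f * X * (q 0 * Y' * (e * f)) - e * f * X * (q 0 * Z) * Y' * (u * f) := by
            rw [m1, m2, m3]; noncomm_ring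
        _ = _ := by rw [m5, m4]; simp only [mul_zero, zero_mul, sub_zero]; noncomm_ring
    have o1 : e' * X' = 0 := by
      rw [hXd]
      calc e' * (e * f * X * q 0 + p 0 * X * (f * e)) = (e' * e) * f * X * q 0 + (e' * p 0) * X * (f * e) := by
            noncomm_ring
        _ = 0 := by rw [he'e, l7]; simp
    have o2 : e' * Y' = 0 := by
      rw [hYd]
      calc e' * (q 0 * Y * (e * f) + f * e * Y * p 0) = (e' * q 0) * Y * (e * f) + (e' * f) * e * Y * p 0 := by
            noncomm_ring
        _ = 0 := by rw [l3, G.o3]; simp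
    have o3 : u * f' * e' * Z = -e := by
      rw [hZd]
      calc u * f' * e' * (u * f' - f' * u) = u * f' * (e' * u) * f' - u * (f' * e' * f') * u := by noncomm_ring
        _ = _ := by rw [he'u, G.F'.fef, G.ufu']; simp
    have o4 : e * Y' = e * Y * p 0 := by
      rw [hYd]
      calc e * (q 0 * Y * (e * f) + f * e * Y * p 0) = (e * q 0) * Y * (e * f) + (e * f * e) * Y * p 0 := by
            noncomm_ring
        _ = _ := by rw [l2, G.F.efe]; simp
    have o5 : X' * f = p 0 * X * f := by
      rw [hXd]
      calc (e * f * X * q 0 + p 0 * X * (f * e)) * f = e * f * X * (q 0 * f) + p 0 * X * (f * e * f) := by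
            noncomm_ring
        _ = _ := by rw [l1, G.F.fef]; simp
    have n2 : u * f' * e' * (X' * (Y' * Z - Z * Y') - (Y' * Z - Z * Y') * X') * f = -(e * Y * p 0 * X * f) := by
      calc u * f' * e' * (X' * (Y' * Z - Z * Y') - (Y' * Z - Z * Y') * X') * f =
            u * f' * (e' * X') * (Y' * Z - Z * Y') * f - u * f' * (e' * Y') * Z * X' * f +
            (u * f' * e' * Z) * Y' * (X' * f) := by noncomm_ring
        _ = -(e * Y' * (X' * f)) := by rw [o1, o2, o3]; simp
        _ = -(e * Y * (p 0 * p 0) * X * f) := by rw [o4, o5]; noncomm_ring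
        _ = _ := by rw [k9]
    rw [n1, n2] at h1
    have h2 := congrArg (LinearMap.trace K V) h1
    rw [map_neg, map_sub, map_smul, htp, smul_eq_mul] at h2
    have h3 : LinearMap.trace K V (e * f * X * q 0 * Y * (e * f)) = LinearMap.trace K V (e * f * X * q 0 * Y) := by
      rw [r2_tr2]
      congr 1
      calc e * f * (e * f * X * q 0 * Y) = (e * f * (e * f)) * X * q 0 * Y := by noncomm_ring
        _ = _ := by rw [hpp]
    have h4 : LinearMap.trace K V (e * Y * p 0 * X * f) = LinearMap.trace K V (f * e * Y * p 0 * X) := by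
      rw [r2_tr2]
      congr 1 <;> noncomm_ring
    rw [h3, h4] at h2
    linear_combination h2
  rw [hl1, hl2, map_add, map_add, map_add, map_add, t0, t1, t2]

/-- The traces of the corners at `p 1` and `q 1` are opposite. -/
theorem r2_tau [CharZero K] [IsAlgClosed K] [FiniteDimensional K V] [Nontrivial V] (h : CoreN L)
    {s e f e' f' u : Module.End K V} (G : Grid L s e f e' f' u) (hr : finrank K (LinearMap.range e) = 2)
    {X : Module.End K V} (hX : X ∈ L) :
    LinearMap.trace K V (e * f * X) + LinearMap.trace K V (f * e * X) = 0 := by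
  obtain ⟨a, ha, b, hb, c, hc, rfl⟩ := A2_decomp h G.F.s_mem G.F.s_sq hX
  have h1 : LinearMap.trace K V (e * f * a) = 0 := by
    have h2 : e * f * a = e * (f * a) := by noncomm_ring
    rw [h2, r2_tr2]
    have h3 : f * a * e = f * (a * e) := by noncomm_ring
    rw [h3, A2_pp ha G.F.e_mem, mul_zero, map_zero]
  have h2 : LinearMap.trace K V (f * e * a) = 0 := by
    rw [mul_assoc, A2_pp G.F.e_mem ha, mul_zero, map_zero]
  have h3 : LinearMap.trace K V (e * f * c) = 0 := by
    rw [mul_assoc, A2_mm G.F.f_mem hc, mul_zero, map_zero]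
  have h4 : LinearMap.trace K V (f * e * c) = 0 := by
    have h2 : f * e * c = f * (e * c) := by noncomm_ring
    rw [h2, r2_tr2]
    have h3 : e * c * f = e * (c * f) := by noncomm_ring
    rw [h3, A2_mm hc G.F.f_mem, mul_zero, map_zero]
  have h5 : LinearMap.trace K V (e * f * b) + LinearMap.trace K V (f * e * b) = 0 := by
    have hspan := A3_span h G.F.s_mem G.F.s_sq hb
    refine Submodule.span_induction (p := fun b _ => LinearMap.trace K V (e * f * b) +
      LinearMap.trace K V (f * e * b) = 0) ?_ ?_ ?_ ?_ hspan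
    · rintro _ ⟨X, hX, Y, hY, rfl⟩
      have k1 : LinearMap.trace K V (e * f * (Y * X)) = 0 := by
        have h2 : e * f * (Y * X) = e * (f * Y * X) := by noncomm_ring
        rw [h2, r2_tr2]
        have h3 : f * Y * X * e = f * Y * (X * e) := by noncomm_ring
        rw [h3, A2_pp hX G.F.e_mem, mul_zero, map_zero]
      have k2 : LinearMap.trace K V (f * e * (X * Y)) = 0 := by
        have h2 : f * e * (X * Y) = f * (e * X) * Y := by noncomm_ring
        rw [h2, A2_pp G.F.e_mem hX, mul_zero, zero_mul, map_zero]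
      have k3 := r2_bracket h G hr hX hY
      rw [mul_sub, mul_sub, map_sub, map_sub, k1, k2]
      rw [mul_assoc (e * f), mul_assoc (f * e)] at k3
      rw [k3]
      ring
    · simp
    · intro x y _ _ h1 h2
      rw [mul_add, mul_add, map_add, map_add]
      linear_combination h1 + h2
    · intro t x _ h1
      rw [mul_smul_comm, mul_smul_comm, map_smul, map_smul, smul_eq_mul, smul_eq_mul]
      linear_combination t * h1
  rw [mul_add, mul_add, mul_add, mul_add, map_add, map_add, map_add, map_add, h1, h2, h3, h4]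
  linear_combination h5

/-- In rank two there is a nonzero invariant form. -/
theorem r2_form [CharZero K] [IsAlgClosed K] [FiniteDimensional K V] [Nontrivial V] (h : CoreN L)
    {s e f e' f' u : Module.End K V} (G : Grid L s e f e' f' u) (hr : finrank K (LinearMap.range e) = 2) :
    ∃ B : V →ₗ[K] V →ₗ[K] K, B ≠ 0 ∧ ∀ X ∈ L, ∀ v w, B (X v) w + B v (X w) = 0 := by
  have hpp : e * f * (e * f) = e * f := by rw [← mul_assoc, G.F.efe]
  obtain ⟨p, hp⟩ : ∃ p, p = e * f := ⟨_, rfl⟩
  have hppp : p * p = p := by rw [hp]; exact hpp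
  have hpe : p * e = e := by rw [hp, G.F.efe]
  have hr2 : finrank K (LinearMap.range p) = 2 := by rw [hp, (K0_rank G.F).1, hr]
  have htp : LinearMap.trace K V p = 2 := by
    rw [hp, (K0_rank G.F).2.2, hr]; norm_num
  obtain ⟨κ, hκ0, hκ⟩ := r1_form (K := K) hr2
  -- the lower corner
  have hD : ∀ X ∈ L, e * X * f = p * X * p - LinearMap.trace K V (p * X * p) • p := by
    intro X hX
    obtain ⟨c, hc⟩ := K0_ext h.lie G.F (h.lie _ hX _ G.F.e_mem.1)
    have h1 : e * f * (X * e - e * X) * (f * e) = (p * X * p - e * X * f) * e := by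
      rw [hp]
      calc e * f * (X * e - e * X) * (f * e) = e * f * X * (e * f * e) - (e * f * e) * X * (f * e) := by
            noncomm_ring
        _ = e * f * X * (e * f * e) - e * X * f * e := by rw [G.F.efe]; noncomm_ring
        _ = _ := by noncomm_ring
    rw [h1] at hc
    have h2 : p * X * p - e * X * f = c • p := by
      have h3 := congrArg (· * f) hc
      rw [smul_mul_assoc, ← hp] at h3
      rw [← h3]
      calc p * X * p - e * X * f = p * X * (p * p) - e * X * (f * e * f) := by rw [hppp, G.F.fef]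
        _ = (p * X * p - e * X * f) * p := by rw [hp]; noncomm_ring
        _ = _ := by rw [hp]; noncomm_ring
    have h3 := congrArg (LinearMap.trace K V) h2
    rw [map_sub, map_smul, htp, smul_eq_mul] at h3
    have h4 : LinearMap.trace K V (p * X * p) = LinearMap.trace K V (e * f * X) := by
      rw [r2_tr2, ← mul_assoc, hppp, hp]
    have h5 : LinearMap.trace K V (e * X * f) = LinearMap.trace K V (f * e * X) := by
      rw [r2_tr2, mul_assoc]
    have h6 := r2_tau h G hr hX
    have h7 : c = LinearMap.trace K V (p * X * p) := by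
      have h8 : (2 : K) * (c - LinearMap.trace K V (p * X * p)) = 0 := by
        linear_combination -h3 - h4 - h5 - h6
      have h9 := (mul_eq_zero.1 h8).resolve_left two_ne_zero
      linear_combination h9
    rw [← h7, ← h2]
    abel
  let ρ : V →ₗ[K] LinearMap.range p := p.rangeRestrict
  have hρ : ∀ v, ((ρ v : LinearMap.range p) : V) = p v := fun v => rfl
  have hρp : ∀ v, ρ (p v) = ρ v := by
    intro v
    apply Subtype.ext
    rw [hρ, hρ, ← Module.End.mul_apply, hppp]
  have hρe : ∀ v, ((ρ (e v) : LinearMap.range p) : V) = e v := by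
    intro v
    rw [hρ, ← Module.End.mul_apply, hpe]
  let β : V →ₗ[K] V →ₗ[K] K := κ.compl₁₂ ρ (ρ ∘ₗ e)
  have hβ : ∀ v w, β v w = κ (ρ v) (ρ (e w)) := fun v w => rfl
  obtain ⟨B, hB1, hB2⟩ := exists_form h G.F β
    (by
      intro v w
      rw [hβ, hβ]
      have : e (f v) = p v := by rw [hp]; rfl
      rw [this, hρp])
    (by
      intro v w
      rw [hβ, hβ]
      have : e (f (e w)) = e w := LinearMap.congr_fun G.F.efe w
      rw [this])
    (by
      intro X hX v w
      rw [hβ, hβ]
      have h1 : ρ (X (e (f v))) = res p (p * X * p) (ρ v) := by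
        apply Subtype.ext
        rw [res_coe, hρ, hρ, hp]
        show e (f (X (e (f v)))) = e (f (e (f (X (e (f (e (f v))))))))
        have e1 : ∀ v, e (f (e v)) = e v := fun v => LinearMap.congr_fun G.F.efe v
        rw [e1, e1]
      have h2 : ρ (e (X (f (e w)))) = res p (p * X * p) (ρ (e w)) -
          LinearMap.trace K (LinearMap.range p) (res p (p * X * p)) • ρ (e w) := by
        apply Subtype.ext
        rw [hρe, Submodule.coe_sub, Submodule.coe_smul, res_coe, hρe,
          res_trace (by rw [← mul_assoc, ← mul_assoc, hppp])]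
        have h3 := LinearMap.congr_fun (hD X hX) (e w)
        rw [LinearMap.sub_apply, LinearMap.smul_apply] at h3
        have h4 : p (e w) = e w := by rw [← Module.End.mul_apply, hpe]
        rw [h4] at h3
        have h5 : p ((p * X * p) (e w)) = (p * X * p) (e w) := by
          rw [← Module.End.mul_apply, ← mul_assoc, ← mul_assoc, hppp]
        rw [h5, ← h3]
        rfl
      rw [h1, h2, map_sub, map_smul, smul_eq_mul]
      have h3 := hκ (res p (p * X * p)) (ρ v) (ρ (e w))
      linear_combination h3)
  refine ⟨B, ?_, hB2⟩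
  rintro rfl
  apply hκ0
  ext ⟨_, ⟨x, rfl⟩⟩ ⟨_, ⟨y, rfl⟩⟩
  have h1 := hB1 x (f y)
  rw [hβ] at h1
  have h2 : ρ (e (f y)) = ⟨p y, y, rfl⟩ := by
    apply Subtype.ext
    rw [hρe, hp]
    rfl
  rw [h2] at h1
  exact h1.symm

end Pool.Agent.H86N
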