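import Pool.Agent.Lib.H86N.CoreA
import Pool.Agent.Lib.H86N.KF3
import Pool.Agent.Lib.H86N.R2
import Pool.Agent.Lib.H86N.P8f

/-!
# Simple irreducible Lie algebras with an involution and no invariant form
-/

set_option autoImplicit false
set_option linter.unusedSectionVars false
namespace Pool.Agent.H86N
open Module Pool.Agent.H53Toric Pool.Agent.H49M

variable {K : Type*} [Field K] {V : Type*} [AddCommGroup V] [Module K V]
variable {L : Submodule K (Module.End K V)}

/-- If the Jordan pair has rank one there is an invariant form. -/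
theorem alpha_form [CharZero K] [IsAlgClosed K] [FiniteDimensional K V] [Nontrivial V]
    (h : CoreN L) {s e f : Module.End K V} (F : Frame L s e f) (ha : ∀ u ∈ J1 L s e f, u * f * u = 0) :
    ∃ B : V →ₗ[K] V →ₗ[K] K, B ≠ 0 ∧ ∀ X ∈ L, ∀ v w, B (X v) w + B v (X w) = 0 := by
  have hall := fun (x : Module.End K V) (hx : x ∈ Lp L s) (y : Module.End K V)
    (hy : y ∈ Lm L s) => K2_all h F ha hx hy
  obtain ⟨n, x, y, hK, hx, hy, hxL, hyL, hpx, hmy⟩ := K3_system h F hall
  obtain ⟨h4, -⟩ := K5_eig h F.s_mem F.s_sq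
  obtain ⟨k, hk, hk1, hk0, hk2⟩ := K4_dim (n + 1) V hK
  have hx0 : x 0 ≠ 0 := by rw [hx]; exact F.e_ne
  obtain ⟨k', hk'1, hk'2, r1, r2, -⟩ := K4_rank hK hx0
  have hpos : 0 < finrank K (eig s 1) := by rw [r1]; exact Nat.choose_pos hk'2
  obtain ⟨j, rfl⟩ : ∃ j, k = j + 1 := by
    refine ⟨k - 1, ?_⟩
    have : k ≠ 0 := by
      intro h0
      rw [h4, hk0 h0] at hpos
      exact absurd hpos (lt_irrefl 0)
    omega
  have h5 := hk2 j rfl
  have h6 := Nat.choose_succ_right_eq (n + 1) j
  rw [← hk1, ← h5, h4] at h6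
  have h7 : 0 < finrank K (eig s (-1)) := by rw [← h4]; exact hpos
  have h8 : j + 1 = n + 1 - j := Nat.eq_of_mul_eq_mul_left h7 h6
  have h9 : n = 2 * j := by omega
  subst h9
  obtain ⟨B, hB0, hB⟩ := kemmer_form j V hK hk
  refine ⟨B, hB0, ?_⟩
  have hp : ∀ X ∈ Lp L s, ∀ v w, B (X v) w + B v (X w) = 0 := by
    intro X hX
    have h1 : X ∈ kL s x y := by
      refine (Submodule.span_le.2 ?_ : Submodule.span K (Set.range x) ≤ kL s x y) (hpx hX)
      rintro _ ⟨i, rfl⟩
      exact kL_x i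
    exact hB X h1
  have hm : ∀ X ∈ Lm L s, ∀ v w, B (X v) w + B v (X w) = 0 := by
    intro X hX
    have h1 : X ∈ kL s x y := by
      refine (Submodule.span_le.2 ?_ : Submodule.span K (Set.range y) ≤ kL s x y) (hmy hX)
      rintro _ ⟨i, rfl⟩
      exact kL_y i
    exact hB X h1
  have h0 : ∀ X ∈ L0 L s, ∀ v w, B (X v) w + B v (X w) = 0 := by
    intro X hX v w
    refine Submodule.span_induction (p := fun X _ => B (X v) w + B v (X w) = 0) ?_ ?_ ?_ ?_
      (A3_span h F.s_mem F.s_sq hX)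
    · rintro _ ⟨X, hX, Y, hY, rfl⟩
      have a1 := hp X hX (Y v) w
      have a2 := hm Y hY v (X w)
      have a3 := hm Y hY (X v) w
      have a4 := hp X hX v (Y w)
      simp only [LinearMap.sub_apply, Module.End.mul_apply, map_sub]
      linear_combination a1 - a2 - a3 + a4
    · simp
    · intro a b _ _ h1 h2
      simp only [LinearMap.add_apply, map_add]
      linear_combination h1 + h2
    · intro c a _ h1
      simp only [LinearMap.smul_apply, map_smul, smul_eq_mul]
      linear_combination c * h1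
  intro X hX v w
  obtain ⟨a, ha, b, hb, c, hc, rfl⟩ := A2_decomp h F.s_mem F.s_sq hX
  have a1 := hp a ha v w
  have a2 := h0 b hb v w
  have a3 := hm c hc v w
  simp only [LinearMap.add_apply, map_add]
  linear_combination a1 + a2 + a3

/-- A simple irreducible Lie algebra of operators of trace zero which contains an involution and has no nonzero
invariant bilinear form: every frame has rank one, or the dimension is a power of four (at least sixteen) and the
rank is a quarter of the dimension. -/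
theorem coreNS_frame [CharZero K] [IsAlgClosed K] [FiniteDimensional K V] [Nontrivial V]
    (h : CoreN L) (hNS : ∀ B : V →ₗ[K] V →ₗ[K] K, (∀ X ∈ L, ∀ v w, B (X v) w + B v (X w) = 0) → B = 0)
    {s e f : Module.End K V} (F : Frame L s e f) :
    finrank K (LinearMap.range e) = 1 ∨
      ((∃ m : ℕ, 4 ≤ m ∧ Even m ∧ finrank K V = 2 ^ m) ∧
        finrank K V = 4 * finrank K (LinearMap.range e)) := by
  rcases coreN h F with h1 | ⟨ha, -⟩ | ⟨e', f', u, G, hr, -, -⟩ | ⟨e', f', u, G, -, h0, h4, m, hm, h5⟩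
  · exact Or.inl h1
  · exfalso
    obtain ⟨B, hB0, hB⟩ := alpha_form h F ha
    exact hB0 (hNS B hB)
  · exfalso
    obtain ⟨B, hB0, hB⟩ := r2_form h G hr
    exact hB0 (hNS B hB)
  · by_cases hm4 : 4 ≤ m
    · rcases P8_form h G h0 with ⟨B, hB0, hB⟩ | ⟨t, ht, h6⟩
      · exact absurd (hNS B hB) hB0
      · have h7 := (K5_eig h G.F.s_mem G.F.s_sq).2
        rw [h6, h5] at h7
        have h8 : 2 ^ m = 2 ^ (t + 1) := by rw [h7, pow_succ]; ring
        have h9 : m = t + 1 := Nat.pow_right_injective (le_refl 2) h8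
        refine Or.inr ⟨⟨m, hm4, ?_, h5⟩, h4⟩
        rw [h9]
        exact ht.add_one
    · exfalso
      have hm3 : m = 3 := by omega
      subst hm3
      obtain ⟨B, hB0, hB⟩ := r2_form h G (by omega)
      exact hB0 (hNS B hB)

/-- The same with an element of rank one as the conclusion. -/
theorem coreNS [CharZero K] [IsAlgClosed K] [FiniteDimensional K V] [Nontrivial V]
    (h : CoreN L) (hNS : ∀ B : V →ₗ[K] V →ₗ[K] K, (∀ X ∈ L, ∀ v w, B (X v) w + B v (X w) = 0) → B = 0)
    {s : Module.End K V} (hs : s ∈ L) (hs2 : s * s = 1)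
    (hnum : (∃ N ∈ L, N * N = 0 ∧ N ≠ 0 ∧ 4 * finrank K (LinearMap.range N) < finrank K V) ∨
      (∀ m : ℕ, 4 ≤ m → Even m → finrank K V ≠ 2 ^ m)) :
    ∃ s' e f : Module.End K V, Frame L s' e f ∧ finrank K (LinearMap.range e) = 1 := by
  rcases hnum with ⟨N, hN, hN2, hN0, hr⟩ | hnum
  · obtain ⟨s', e, f, F, hle⟩ := A4_frame h hs hs2 hN hN2 hN0
    refine ⟨s', e, f, F, ?_⟩
    rcases coreNS_frame h hNS F with h1 | ⟨-, h1⟩
    · exact h1
    · omega
  · obtain ⟨N, hN, hN0⟩ := Submodule.exists_mem_ne_zero_of_ne_bot (A2_ne h hs hs2)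
    obtain ⟨s', e, f, F, -⟩ := A4_frame h hs hs2 hN.1 (A2_pp hN hN) hN0
    refine ⟨s', e, f, F, ?_⟩
    rcases coreNS_frame h hNS F with h1 | ⟨⟨m, hm, hme, h1⟩, -⟩
    · exact h1
    · exact absurd h1 (hnum m hm hme)

end Pool.Agent.H86N
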