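import Pool.Agent.Lib.H86N.A3

/-!
# A3v: the plus space is irreducible
-/

set_option autoImplicit false
set_option linter.unusedSectionVars false
namespace Pool.Agent.H86N
open Module Pool.Agent.H53Toric Pool.Agent.H49M

variable {K : Type*} [Field K] {V : Type*} [AddCommGroup V] [Module K V]

variable {L : Submodule K (Module.End K V)}

/-- Chunk A3v. `V₊` is irreducible under `L0`. Let `U = W + span {Y w : Y ∈ Lm, w ∈ W}`. It is stable under
`L = Lp + L0 + Lm`: `Lp W = 0` (`X w = X s w = - X w`), `X Y w = (X Y - Y X) w ∈ W` for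
`X ∈ Lp` as `X w = 0` and `X Y - Y X ∈ L0`; `Z Y w = (Z Y - Y Z) w + Y (Z w)` for `Z ∈ L0`;
`Y' Y = 0`. So `U = V` by irreducibility; if `s v = v`, `v = w + Σ Y w`, apply `1 + s`:
`(1 + s) Y w = 0`, hence `2 v = 2 w`. -/
theorem A3_vec [CharZero K] [IsAlgClosed K] [FiniteDimensional K V] [Nontrivial V]
    (h : CoreN L) {s : Module.End K V} (hs : s ∈ L) (hs2 : s * s = 1)
    {W : Submodule K V} (hW : ∀ w ∈ W, s w = w) (hW0 : W ≠ ⊥)
    (hst : ∀ Z ∈ L0 L s, ∀ w ∈ W, Z w ∈ W) {v : V} (hv : s v = v) : v ∈ W := by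
  let B := Submodule.span K {u | ∃ Y ∈ Lm L s, ∃ w ∈ W, u = Y w}
  have hB : ∀ Y ∈ Lm L s, ∀ w ∈ W, Y w ∈ B := fun Y hY w hw =>
    Submodule.subset_span ⟨Y, hY, w, hw, rfl⟩
  let U := W ⊔ B
  have hU1 : W ≤ U := le_sup_left
  have hU2 : B ≤ U := le_sup_right
  have hp0 : ∀ X ∈ Lp L s, ∀ w ∈ W, X w = 0 := by
    intro X hX w hw
    have h1 : X (s w) = -(X w) := by
      change (X * s) w = _
      rw [hX.2.2]; rfl
    rw [hW w hw] at h1
    have h2 : (2 : K) • X w = 0 := by
      rw [two_smul]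
      nth_rw 1 [h1]
      exact neg_add_cancel _
    exact (smul_eq_zero.1 h2).resolve_left (by norm_num)
  have hWst : ∀ X ∈ L, ∀ w ∈ W, X w ∈ U := by
    intro X hX w hw
    obtain ⟨a, ha, b, hb, c, hc, rfl⟩ := A2_decomp h hs hs2 hX
    rw [LinearMap.add_apply, LinearMap.add_apply, hp0 a ha w hw, zero_add]
    exact U.add_mem (hU1 (hst b hb w hw)) (hU2 (hB c hc w hw))
  have hBst : ∀ X ∈ L, ∀ t ∈ B, X t ∈ U := by
    intro X hX t ht
    obtain ⟨a, ha, b, hb, c, hc, rfl⟩ := A2_decomp h hs hs2 hX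
    induction ht using Submodule.span_induction with
    | mem t ht =>
      obtain ⟨Y, hY, w', hw', rfl⟩ := ht
      rw [LinearMap.add_apply, LinearMap.add_apply]
      have e1 : a (Y w') = (a * Y - Y * a) w' := by
        rw [LinearMap.sub_apply, Module.End.mul_apply, Module.End.mul_apply, hp0 a ha w' hw',
          map_zero, sub_zero]
      have e2 : b (Y w') = (b * Y - Y * b) w' + Y (b w') := by
        rw [LinearMap.sub_apply, Module.End.mul_apply, Module.End.mul_apply, sub_add_cancel]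
      have e3 : c (Y w') = 0 := by
        change (c * Y) w' = 0
        rw [A2_mm hc hY]; rfl
      rw [e1, e2, e3, add_zero]
      exact U.add_mem (hU1 (hst _ (A3_pm h ha hY) w' hw')) (U.add_mem
        (hU2 (hB _ (A3_0m h hb hY) w' hw')) (hU2 (hB Y hY _ (hst b hb w' hw'))))
    | zero => simp
    | add x y _ _ hx hy =>
      rw [map_add]
      exact U.add_mem hx hy
    | smul r x _ hx =>
      rw [map_smul]
      exact U.smul_mem r hx
  have hst' : ∀ X ∈ L, ∀ u ∈ U, X u ∈ U := by
    intro X hX u hu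
    obtain ⟨w, hw, t, ht, rfl⟩ := Submodule.mem_sup.1 hu
    rw [map_add]
    exact U.add_mem (hWst X hX w hw) (hBst X hX t ht)
  have hUtop : U = ⊤ := by
    rcases h.irr U hst' with h1 | h1
    · exfalso
      apply hW0
      rw [eq_bot_iff, ← h1]
      exact hU1
    · exact h1
  have hst0 : ∀ t ∈ B, s t = -t := by
    intro t ht
    induction ht using Submodule.span_induction with
    | mem t ht =>
      obtain ⟨Y, hY, w', hw', rfl⟩ := ht
      change (s * Y) w' = _
      rw [hY.2.1]; rfl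
    | zero => simp
    | add x y _ _ hx hy => rw [map_add, hx, hy, neg_add]
    | smul r x _ hx => rw [map_smul, hx, smul_neg]
  have hvU : v ∈ U := by rw [hUtop]; trivial
  obtain ⟨w, hw, t, ht, rfl⟩ := Submodule.mem_sup.1 hvU
  rw [map_add, hW w hw, hst0 t ht] at hv
  have h1 : (2 : K) • t = 0 := by
    rw [two_smul]
    have := add_left_cancel hv
    nth_rw 1 [← this]
    exact neg_add_cancel _
  have h2 : t = 0 := (smul_eq_zero.1 h1).resolve_left (by norm_num)
  rw [h2, add_zero]
  exact hw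

end Pool.Agent.H86N
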