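import Pool.Agent.Lib.H86N.K2
import Pool.Agent.Lib.H86N.K3
import Pool.Agent.Lib.H49M.K4

/-!
# K5: conclusion in the case of a rank one Jordan pair
-/

set_option autoImplicit false
set_option linter.unusedSectionVars false
namespace Pool.Agent.H86N
open Module Pool.Agent.H53Toric Pool.Agent.H49M

variable {K : Type*} [Field K] {V : Type*} [AddCommGroup V] [Module K V]

variable {L : Submodule K (Module.End K V)}

theorem K5_range [CharZero K] {s : Module.End K V} (hs2 : s * s = 1) {c : K} (hc : c * c = 1) :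
    LinearMap.range ((1 / 2 : K) • (1 + c • s)) = eig s c := by
  ext v
  rw [eig, LinearMap.mem_ker, LinearMap.sub_apply, LinearMap.smul_apply, Module.End.one_apply,
    sub_eq_zero]
  constructor
  · rintro ⟨w, rfl⟩
    have h1 : s * ((1 / 2 : K) • (1 + c • s)) = c • ((1 / 2 : K) • (1 + c • s)) := by
      have h2 : c • (1 + c • s) = s + c • (1 : Module.End K V) := by
        rw [smul_add, smul_smul, hc, one_smul, add_comm]
      rw [mul_smul_comm, mul_add, mul_smul_comm, hs2, mul_one, smul_comm c, h2]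
    exact LinearMap.congr_fun h1 w
  · intro h1
    refine ⟨v, ?_⟩
    rw [LinearMap.smul_apply, LinearMap.add_apply, LinearMap.smul_apply, h1, smul_smul, hc,
      Module.End.one_apply]
    module

/-- Chunk K5. The two eigenspaces of `s` have the same dimension: `(1 + s)/2` and `(1 - s)/2` are
idempotents with these ranges, exchanged by `adj` (`adj s = - s`, `A0_rank`). -/
theorem K5_eig [CharZero K] [FiniteDimensional K V] [Nontrivial V] (h : CoreN L)
    {s : Module.End K V} (hs : s ∈ L) (hs2 : s * s = 1) :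
    finrank K (eig s 1) = finrank K (eig s (-1)) ∧
    finrank K V = 2 * finrank K (eig s 1) := by
  have hi : ∀ c : K, c * c = 1 → (finrank K (eig s c) : K) = (finrank K V : K) / 2 := by
    intro c hc
    have h1 : ((1 / 2 : K) • (1 + c • s)) * ((1 / 2 : K) • (1 + c • s)) = (1 / 2 : K) • (1 + c • s) := by
      have h2 : (1 + c • s) * (1 + c • s) = (2 : K) • (1 + c • s) := by
        have h3 : (c • s) * (c • s) = 1 := by rw [smul_mul_smul_comm, hc, hs2, one_smul]
        generalize c • s = t at h3 ⊢
        have h4 : (1 + t) * (1 + t) = 1 + t + t + t * t := by noncomm_ring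
        rw [h4, h3, two_smul]
        abel
      rw [smul_mul_smul_comm, h2, smul_smul]
      norm_num
    have h2 := trace_idem h1
    rw [K5_range hs2 hc, map_smul, map_add, map_smul, LinearMap.trace_one, h.tr s hs, smul_zero, add_zero,
      smul_eq_mul] at h2
    rw [← h2]
    ring
  have h1 : finrank K (eig s 1) = finrank K (eig s (-1)) := by
    have h2 := (hi 1 (one_mul 1)).trans (hi (-1) (by ring)).symm
    exact_mod_cast h2
  refine ⟨h1, ?_⟩
  have h2 := hi 1 (one_mul 1)
  have h3 : (finrank K V : K) = ((2 * finrank K (eig s 1) : ℕ) : K) := by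
    push_cast
    rw [h2]
    ring
  exact_mod_cast h3

/-- By `K2_all`, `K3_system`, `K4_rank` and `K5_eig`: `C(n+1,k) = C(n+1,k-1)` with
`1 ≤ k ≤ n + 1`, so `n + 1 = 2 k - 1` (`Nat.succ_mul_choose_eq` or
`C(N,k) k = C(N,k-1) (N-k+1)`), `dim V = C(n+1,k) + C(n+1,k-1) = C(2k,k)` and
`rank e = C(2k-2,k-1)`. If `k = 1` the rank is one. Otherwise use
`Nat.succ_mul_centralBinom_succ : (n+1) * centralBinom (n+1) = 2 * (2n+1) * centralBinom n`. -/
theorem K5_final [CharZero K] [IsAlgClosed K] [FiniteDimensional K V] [Nontrivial V]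
    (h : CoreN L) {s e f : Module.End K V} (F : Frame L s e f)
    (ha : ∀ u ∈ J1 L s e f, u * f * u = 0) :
    finrank K (LinearMap.range e) = 1 ∨
    (∃ k : ℕ, 2 ≤ k ∧ finrank K V = k.centralBinom ∧
      finrank K V ≤ 4 * finrank K (LinearMap.range e)) := by
  have hall := fun (x : Module.End K V) (hx : x ∈ Lp L s) (y : Module.End K V)
    (hy : y ∈ Lm L s) => K2_all h F ha hx hy
  obtain ⟨n, x, y, hK, hx, hy, -, -, -, -⟩ := K3_system h F hall
  obtain ⟨k, hk1, hk2, h1, h2, h3⟩ := K4_rank hK (by rw [hx]; exact F.e_ne)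
  obtain ⟨h4, h5⟩ := K5_eig h F.s_mem F.s_sq
  obtain ⟨j, rfl⟩ : ∃ j, k = j + 1 := ⟨k - 1, by omega⟩
  rw [Nat.add_sub_cancel] at h2 h3
  rw [h1, h2] at h4
  have h6 := Nat.choose_succ_right_eq (n + 1) j
  rw [h4] at h6
  have h7 : 0 < (n + 1).choose j := Nat.choose_pos (by omega)
  have h8 : j + 1 = n + 1 - j := Nat.eq_of_mul_eq_mul_left h7 h6
  have h9 : n = 2 * j := by omega
  have h10 : finrank K (LinearMap.range e) = j.centralBinom := by
    rw [← hx, h3, h9, Nat.centralBinom]
  have h11 : finrank K V = (j + 1).centralBinom := by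
    have e1 : (2 * (j + 1)).choose (j + 1) = (2 * j + 1).choose j + (2 * j + 1).choose (j + 1) := by
      rw [show 2 * (j + 1) = (2 * j + 1) + 1 by ring, Nat.choose_succ_succ]
    rw [h5, h1, Nat.centralBinom, e1, ← h9, h4]
    ring
  rcases Nat.eq_zero_or_pos j with hj | hj
  · left
    rw [h10, hj]; simp
  · right
    refine ⟨j + 1, by omega, h11, ?_⟩
    rw [h10, h11]
    have h12 := Nat.succ_mul_centralBinom_succ j
    have h13 : (j + 1) * (j + 1).centralBinom ≤ (j + 1) * (4 * j.centralBinom) := by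
      rw [h12]
      nlinarith [j.centralBinom_pos]
    exact Nat.le_of_mul_le_mul_left h13 (by omega)

end Pool.Agent.H86N
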