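import Pool.Agent.Lib.H86N.P6
import Pool.Agent.Lib.H86N.G1
import Pool.Agent.Lib.H86N.K5
import Pool.Agent.Lib.H86N.A3v

/-!
# E1: rank one and no invariant form: the special linear algebra
-/

set_option autoImplicit false
set_option linter.unusedSectionVars false
namespace Pool.Agent.H86N
open Module Pool.Agent.H53Toric Pool.Agent.H49M

variable {K : Type*} [Field K] {V : Type*} [AddCommGroup V] [Module K V]
variable {L : Submodule K (Module.End K V)}

/-- A rank one idempotent. -/
theorem E1_vec [FiniteDimensional K V] {p : Module.End K V} (hp : p * p = p)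
    (h : finrank K (LinearMap.range p) = 1) :
    ∃ (v : V) (χ : Module.Dual K V), χ v = 1 ∧ ∀ x, p x = χ x • v := by
  obtain ⟨w, hw0, hw⟩ := finrank_eq_one_iff'.1 h
  have hpw : p (w : V) = w := by
    obtain ⟨y, hy⟩ := w.2
    rw [← hy]
    exact LinearMap.congr_fun hp y
  have hw0' : (w : V) ≠ 0 := fun h => hw0 (Subtype.ext h)
  obtain ⟨φ, hφ⟩ := Module.Projective.exists_dual_ne_zero (R := K) hw0'
  refine ⟨w, ((φ (w : V))⁻¹ • φ) ∘ₗ p, ?_, fun x => ?_⟩
  · rw [LinearMap.comp_apply, hpw, LinearMap.smul_apply, smul_eq_mul, inv_mul_cancel₀ hφ]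
  · obtain ⟨c, hc⟩ := hw ⟨p x, LinearMap.mem_range_self p x⟩
    have hc' : c • (w : V) = p x := congrArg Subtype.val hc
    rw [LinearMap.comp_apply, ← hc', LinearMap.smul_apply, map_smul, smul_eq_mul, smul_eq_mul,
      mul_comm c, inv_mul_cancel_left₀ hφ]

theorem E1_tr [FiniteDimensional K V] {p : Module.End K V} {v : V} {χ : Module.Dual K V}
    (h : ∀ x, p x = χ x • v) (X : Module.End K V) : LinearMap.trace K V (p * X) = χ (X v) := by
  have e : p * X = (χ ∘ₗ X).smulRight v := by
    ext x
    rw [Module.End.mul_apply, h, LinearMap.smulRight_apply, LinearMap.comp_apply]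
  rw [e, LinearMap.trace_smulRight, LinearMap.comp_apply]

theorem E1_sand {p : Module.End K V} {v : V} {χ : Module.Dual K V}
    (h : ∀ x, p x = χ x • v) (X : Module.End K V) : p * X * p = χ (X v) • p := by
  ext x
  rw [Module.End.mul_apply, Module.End.mul_apply, LinearMap.smul_apply, h x, map_smul, map_smul, h,
    smul_comm]

/-- The functional `tr ((e f + f e) X)` vanishes if the Peirce one parts are in duality. -/
theorem E1_zero [CharZero K] [IsAlgClosed K] [FiniteDimensional K V] [Nontrivial V]
    (h : CoreN L) {s e f : Module.End K V} (F : Frame L s e f)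
    (H : ∀ u ∈ J1 L s e f, ∀ g ∈ J1 L (-s) f e,
      LinearMap.trace K V (e * f * u * g) = LinearMap.trace K V (f * e * g * u))
    {X : Module.End K V} (hX : X ∈ L) : LinearMap.trace K V ((e * f + f * e) * X) = 0 := by
  have hee := K0_ee F
  have hff := K0_ff F
  have pp : e * f * (e * f) = e * f := by rw [← mul_assoc, F.efe]
  have qq : f * e * (f * e) = f * e := by rw [← mul_assoc, F.fef]
  have two : (2 : K) ≠ 0 := by norm_num
  -- the main computation
  have main : ∀ X' ∈ Lp L s, ∀ Y' ∈ Lm L s,
      LinearMap.trace K V (e * f * (X' * Y')) = LinearMap.trace K V (f * e * (Y' * X')) := by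
    intro X' hX' Y' hY'
    have hu := K1_comp h.lie F hX'
    have hg := K1_comp h.lie (K0_swap h.lie F) (W := Y') (by rw [K0_Lp]; exact hY')
    have h1 := H _ hu _ hg
    obtain ⟨p, hp⟩ : ∃ p, p = e * f := ⟨_, rfl⟩
    obtain ⟨q, hq⟩ : ∃ q, q = f * e := ⟨_, rfl⟩
    rw [← hp, ← hq] at h1 ⊢
    rw [← hp] at pp
    rw [← hq] at qq
    have pq : p * q = 0 := by rw [hp, hq, mul_assoc, ← mul_assoc f, hff]; simp
    have qp : q * p = 0 := by rw [hp, hq, mul_assoc, ← mul_assoc e, hee]; simp
    have fY : f * Y' = 0 := A2_mm F.f_mem hY'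
    have eX : e * X' = 0 := A2_pp F.e_mem hX'
    have pY : p * Y' = 0 := by rw [hp, mul_assoc, fY, mul_zero]
    have qX : q * X' = 0 := by rw [hq, mul_assoc, eX, mul_zero]
    -- trace of the left side
    have e1 : LinearMap.trace K V (p * (p * X' + X' * q - (2 : K) • (p * X' * q)) *
        (q * Y' + Y' * p - (2 : K) • (q * Y' * p))) =
        LinearMap.trace K V (p * (X' * Y')) - LinearMap.trace K V (p * X' * q * Y') := by
      have a1 : p * (p * X' + X' * q - (2 : K) • (p * X' * q)) = p * X' - p * X' * q := by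
        calc p * (p * X' + X' * q - (2 : K) • (p * X' * q)) =
            (p * p) * X' + p * X' * q - (2 : K) • ((p * p) * X' * q) := by
              rw [mul_sub, mul_add, mul_smul_comm]; noncomm_ring
          _ = p * X' - p * X' * q := by rw [pp]; module
      have a2 : LinearMap.trace K V ((p * X' - p * X' * q) * (q * Y' + Y' * p - (2 : K) • (q * Y' * p))) =
          LinearMap.trace K V (((p * X' - p * X' * q) * (q * Y' + Y' * p - (2 : K) • (q * Y' * p))) * p) := by
        have a3 : (p * X' - p * X' * q) * (q * Y' + Y' * p - (2 : K) • (q * Y' * p)) =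
            p * ((X' - X' * q) * (q * Y' + Y' * p - (2 : K) • (q * Y' * p))) := by noncomm_ring
        have a4 : p * ((p * X' - p * X' * q) * (q * Y' + Y' * p - (2 : K) • (q * Y' * p))) =
            (p * p) * ((X' - X' * q) * (q * Y' + Y' * p - (2 : K) • (q * Y' * p))) := by noncomm_ring
        rw [LinearMap.trace_mul_comm K _ p, a4, pp, ← a3]
      have a5 : (p * X' - p * X' * q) * (q * Y' + Y' * p - (2 : K) • (q * Y' * p)) * p =
          p * X' * Y' * p - p * X' * q * Y' * p := by
        have b1 : (q * Y' + Y' * p - (2 : K) • (q * Y' * p)) * p = Y' * p - q * Y' * p := by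
          calc (q * Y' + Y' * p - (2 : K) • (q * Y' * p)) * p =
              q * Y' * p + Y' * (p * p) - (2 : K) • (q * Y' * (p * p)) := by
                rw [sub_mul, add_mul, smul_mul_assoc]; noncomm_ring
            _ = _ := by rw [pp]; module
        rw [mul_assoc (p * X' - p * X' * q), b1]
        calc (p * X' - p * X' * q) * (Y' * p - q * Y' * p) =
            p * X' * Y' * p - p * X' * q * Y' * p - p * X' * q * Y' * p + p * X' * (q * q) * Y' * p := by
              noncomm_ring
          _ = _ := by rw [qq]; noncomm_ring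
      rw [a1, a2, a5, map_sub]
      congr 1
      · rw [LinearMap.trace_mul_comm]
        have : p * (p * X' * Y') = (p * p) * (X' * Y') := by noncomm_ring
        rw [this, pp]
      · rw [LinearMap.trace_mul_comm]
        have : p * (p * X' * q * Y') = (p * p) * X' * q * Y' := by noncomm_ring
        rw [this, pp]
    have e2 : LinearMap.trace K V (q * (q * Y' + Y' * p - (2 : K) • (q * Y' * p)) *
        (p * X' + X' * q - (2 : K) • (p * X' * q))) =
        LinearMap.trace K V (q * (Y' * X')) - LinearMap.trace K V (q * Y' * p * X') := by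
      have a1 : q * (q * Y' + Y' * p - (2 : K) • (q * Y' * p)) = q * Y' - q * Y' * p := by
        calc q * (q * Y' + Y' * p - (2 : K) • (q * Y' * p)) =
            (q * q) * Y' + q * Y' * p - (2 : K) • ((q * q) * Y' * p) := by
              rw [mul_sub, mul_add, mul_smul_comm]; noncomm_ring
          _ = q * Y' - q * Y' * p := by rw [qq]; module
      have a2 : LinearMap.trace K V ((q * Y' - q * Y' * p) * (p * X' + X' * q - (2 : K) • (p * X' * q))) =
          LinearMap.trace K V (((q * Y' - q * Y' * p) * (p * X' + X' * q - (2 : K) • (p * X' * q))) * q) := by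
        have a3 : (q * Y' - q * Y' * p) * (p * X' + X' * q - (2 : K) • (p * X' * q)) =
            q * ((Y' - Y' * p) * (p * X' + X' * q - (2 : K) • (p * X' * q))) := by noncomm_ring
        have a4 : q * ((q * Y' - q * Y' * p) * (p * X' + X' * q - (2 : K) • (p * X' * q))) =
            (q * q) * ((Y' - Y' * p) * (p * X' + X' * q - (2 : K) • (p * X' * q))) := by noncomm_ring
        rw [LinearMap.trace_mul_comm K _ q, a4, qq, ← a3]
      have a5 : (q * Y' - q * Y' * p) * (p * X' + X' * q - (2 : K) • (p * X' * q)) * q =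
          q * Y' * X' * q - q * Y' * p * X' * q := by
        have b1 : (p * X' + X' * q - (2 : K) • (p * X' * q)) * q = X' * q - p * X' * q := by
          calc (p * X' + X' * q - (2 : K) • (p * X' * q)) * q =
              p * X' * q + X' * (q * q) - (2 : K) • (p * X' * (q * q)) := by
                rw [sub_mul, add_mul, smul_mul_assoc]; noncomm_ring
            _ = _ := by rw [qq]; module
        rw [mul_assoc (q * Y' - q * Y' * p), b1]
        calc (q * Y' - q * Y' * p) * (X' * q - p * X' * q) =
            q * Y' * X' * q - q * Y' * p * X' * q - q * Y' * p * X' * q + q * Y' * (p * p) * X' * q := by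
              noncomm_ring
          _ = _ := by rw [pp]; noncomm_ring
      rw [a1, a2, a5, map_sub]
      congr 1
      · rw [LinearMap.trace_mul_comm]
        have : q * (q * Y' * X') = (q * q) * (Y' * X') := by noncomm_ring
        rw [this, qq]
      · rw [LinearMap.trace_mul_comm]
        have : q * (q * Y' * p * X') = (q * q) * Y' * p * X' := by noncomm_ring
        rw [this, qq]
    have e3 : LinearMap.trace K V (p * X' * q * Y') = LinearMap.trace K V (q * Y' * p * X') := by
      have : p * X' * q * Y' = (p * X') * (q * Y') := by noncomm_ring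
      rw [this, LinearMap.trace_mul_comm]
      congr 1
    rw [e1, e2, e3] at h1
    linear_combination h1
  -- the decomposition of X
  obtain ⟨a, ha, b, hb, c, hc, rfl⟩ := A2_decomp h F.s_mem F.s_sq hX
  have es : e * s = -e := F.e_mem.2.2
  have se : s * e = e := F.e_mem.2.1
  have fs : f * s = f := F.f_mem.2.2
  have sf : s * f = -f := F.f_mem.2.1
  have hz : ∀ t : K, t = -t → t = 0 := by
    intro t ht
    have : (2 : K) * t = 0 := by linear_combination ht
    exact (mul_eq_zero.1 this).resolve_left two
  have ta : LinearMap.trace K V ((e * f + f * e) * a) = 0 := by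
    have h1 : f * e * a = 0 := by rw [mul_assoc, A2_pp F.e_mem ha, mul_zero]
    rw [add_mul, h1, add_zero]
    apply hz
    have h2 : e * f * a = s * (e * f * a) := by rw [← mul_assoc, ← mul_assoc, se]
    nth_rw 1 [h2]
    rw [LinearMap.trace_mul_comm, mul_assoc, ha.2.2, mul_neg, map_neg]
  have tc : LinearMap.trace K V ((e * f + f * e) * c) = 0 := by
    have h1 : e * f * c = 0 := by rw [mul_assoc, A2_mm F.f_mem hc, mul_zero]
    rw [add_mul, h1, zero_add]
    apply hz
    have h2 : f * e * c = -(s * (f * e * c)) := by rw [← mul_assoc, ← mul_assoc, sf]; noncomm_ring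
    nth_rw 1 [h2]
    rw [map_neg, LinearMap.trace_mul_comm, mul_assoc, hc.2.2]
  have tb : LinearMap.trace K V ((e * f + f * e) * b) = 0 := by
    have key : ∀ b ∈ Submodule.span K {W | ∃ X ∈ Lp L s, ∃ Y ∈ Lm L s, W = X * Y - Y * X},
        LinearMap.trace K V ((e * f + f * e) * b) = 0 := by
      intro b hb
      induction hb using Submodule.span_induction with
      | mem b hb =>
        obtain ⟨X', hX', Y', hY', rfl⟩ := hb
        have h1 : (e * f + f * e) * (X' * Y' - Y' * X') =
            e * f * (X' * Y') - f * e * (Y' * X') - e * (f * Y') * X' + f * (e * X') * Y' := by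
          noncomm_ring
        rw [h1, A2_mm F.f_mem hY', A2_pp F.e_mem hX', mul_zero, mul_zero, zero_mul, zero_mul,
          sub_zero, add_zero, map_sub, main X' hX' Y' hY', sub_self]
      | zero => rw [mul_zero, map_zero]
      | add a b _ _ ha hb => rw [mul_add, map_add, ha, hb, add_zero]
      | smul c a _ ha => rw [mul_smul_comm, map_smul, ha, smul_zero]
    exact key b (A3_span h F.s_mem F.s_sq hb)
  rw [mul_add, mul_add, map_add, map_add, ta, tb, tc, add_zero, add_zero]

/-- If the Peirce one parts are not in duality, the two halves of `u` are in `L`. -/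
theorem E1_split [CharZero K] (hl : IsLie L) {s e f : Module.End K V} (F : Frame L s e f)
    {u g : Module.End K V} (hu : u ∈ J1 L s e f) (hg : g ∈ J1 L (-s) f e) {c₁ c₂ : K}
    (h1 : e * f * u * g * (e * f) = c₁ • (e * f)) (h2 : f * e * g * u * (f * e) = c₂ • (f * e))
    (hne : c₁ ≠ c₂) : e * f * u ∈ L ∧ u * (f * e) ∈ L := by
  have hee := K0_ee F
  have hff := K0_ff F
  have hup : u ∈ Lp L s := hu.1
  have hgm : g ∈ Lm L s := by
    have := hg.1
    rwa [K0_Lp] at this
  have eu : e * u = 0 := A2_pp F.e_mem hup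
  have ue : u * e = 0 := A2_pp hup F.e_mem
  have uu : u * u = 0 := A2_pp hup hup
  have hm : u * f * u ∈ L := hl.sandwich hup.1 uu F.f_mem.1
  have h3 := hl _ (hl _ hgm.1 _ hm) _ F.e_mem.1
  have e1 : (g * (u * f * u) - u * f * u * g) * e - e * (g * (u * f * u) - u * f * u * g) =
      -(c₁ • (u * (f * e))) - c₂ • (e * f * u) := by
    have a1 : u * f * u * g * e = c₁ • (u * (f * e)) := by
      calc u * f * u * g * e = u * f * (e * f * u * g * (e * f)) * e := by
            have b1 : u * (f * e * f) * u * g * (e * f * e) = u * f * u * g * e := by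
              rw [F.fef, F.efe]
            rw [← b1]
            noncomm_ring
        _ = c₁ • (u * (f * e) * (f * e)) := by
            rw [h1, mul_smul_comm, smul_mul_assoc]
            congr 1
        _ = c₁ • (u * (f * e)) := by
            have b2 : u * (f * e) * (f * e) = u * (f * e * f) * e := by noncomm_ring
            rw [b2, F.fef, mul_assoc]
    have a2 : e * g * u * f * u = c₂ • (e * f * u) := by
      calc e * g * u * f * u = e * (f * e * g * u * (f * e)) * f * u := by
            have b1 : (e * f * e) * g * u * (f * e * f) * u = e * g * u * f * u := by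
              rw [F.fef, F.efe]
            rw [← b1]
            noncomm_ring
        _ = c₂ • (e * (f * e) * f * u) := by
            rw [h2, mul_smul_comm, smul_mul_assoc, smul_mul_assoc]
        _ = c₂ • (e * f * u) := by
            have b2 : e * (f * e) * f * u = e * (f * e * f) * u := by noncomm_ring
            rw [b2, F.fef]
    calc (g * (u * f * u) - u * f * u * g) * e - e * (g * (u * f * u) - u * f * u * g) =
        g * u * f * (u * e) - u * f * u * g * e - e * g * u * f * u + (e * u) * f * u * g := by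
          noncomm_ring
      _ = _ := by rw [ue, eu, a1, a2]; simp
  rw [e1] at h3
  have h4 : u * (f * e) = u - e * f * u := eq_sub_of_add_eq' hu.2
  have h5 : (c₁ - c₂) • (e * f * u) ∈ L := by
    have e2 : (c₁ - c₂) • (e * f * u) = (-(c₁ • (u * (f * e))) - c₂ • (e * f * u)) + c₁ • u := by
      rw [h4]
      module
    rw [e2]
    exact L.add_mem h3 (L.smul_mem _ hup.1)
  have h6 : e * f * u ∈ L := by
    have h7 := L.smul_mem (c₁ - c₂)⁻¹ h5
    rwa [smul_smul, inv_mul_cancel₀ (sub_ne_zero.2 hne), one_smul] at h7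
  refine ⟨h6, ?_⟩
  rw [h4]
  exact L.sub_mem hup.1 h6

/-- The idempotent `e f` multiplies the part of weight one. -/
theorem E1_left [CharZero K] (hl : IsLie L) {s e f : Module.End K V} (F : Frame L s e f)
    {u g : Module.End K V} (hu : u ∈ J1 L s e f) (hg : g ∈ J1 L (-s) f e) {c₂ : K}
    (h2 : f * e * g * u * (f * e) = c₂ • (f * e)) (hc : c₂ ≠ 0)
    (hu' : u * (f * e) ∈ L) (hg' : f * e * g ∈ L) {X : Module.End K V} (hX : X ∈ Lp L s) :
    e * f * X ∈ Lp L s := by
  have hee := K0_ee F
  have hff := K0_ff F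
  have hup : u ∈ Lp L s := hu.1
  have hgm : g ∈ Lm L s := by
    have := hg.1
    rwa [K0_Lp] at this
  have pp : e * f * (e * f) = e * f := by rw [← mul_assoc, F.efe]
  have qq : f * e * (f * e) = f * e := by rw [← mul_assoc, F.fef]
  have puq : e * f * u * (f * e) = 0 := by
    have h3 : e * f * (e * f * u + u * (f * e)) = e * f * u := by rw [hu.2]
    rw [mul_add, ← mul_assoc (e * f), pp, ← mul_assoc (e * f)] at h3
    exact left_eq_add.1 h3.symm
  have qgp : f * e * g * (e * f) = 0 := by
    have h3 : f * e * (f * e * g + g * (e * f)) = f * e * g := by rw [hg.2]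
    rw [mul_add, ← mul_assoc (f * e), qq, ← mul_assoc (f * e)] at h3
    exact left_eq_add.1 h3.symm
  -- the two operators of weight zero
  have m1 : u * f ∈ L := by
    have h3 := hl _ hu' _ F.f_mem.1
    have e1 : u * (f * e) * f - f * (u * (f * e)) = u * (f * e * f) - f * (e * f * u * (f * e)) := by
      have b : f * (u * (f * e)) = (f * e * f) * (u * (f * e)) := by
        rw [F.fef]
      rw [b]
      noncomm_ring
    rw [e1, F.fef, puq, mul_zero, sub_zero] at h3
    exact h3
  have m2 : e * g ∈ L := by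
    have h3 := hl _ F.e_mem.1 _ hg'
    have e1 : e * (f * e * g) - f * e * g * e = (e * f * e) * g - (f * e * g * (e * f)) * e := by
      have b : f * e * g * e = f * e * g * (e * f * e) := by rw [F.efe]
      rw [b]
      noncomm_ring
    rw [e1, F.efe, qgp, zero_mul, sub_zero] at h3
    exact h3
  have Xu : X * u = 0 := A2_pp hX hup
  have n1 : u * f * X ∈ L := by
    have h3 := hl _ m1 _ hX.1
    have e1 : u * f * X - X * (u * f) = u * f * X := by
      rw [← mul_assoc, Xu, zero_mul, sub_zero]
    rwa [e1] at h3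
  have n2 : e * g * (u * f * X) ∈ L := by
    have h3 := hl _ m2 _ n1
    have e1 : e * g * (u * f * X) - u * f * X * (e * g) = e * g * (u * f * X) := by
      have b : u * f * X * (e * g) = u * f * (X * e) * g := by noncomm_ring
      rw [b, A2_pp hX F.e_mem, mul_zero, zero_mul, sub_zero]
    rwa [e1] at h3
  have e2 : e * g * (u * f * X) = c₂ • (e * f * X) := by
    calc e * g * (u * f * X) = e * (f * e * g * u * (f * e)) * f * X := by
          have b : (e * f * e) * g * u * (f * e * f) * X = e * g * (u * f * X) := by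
            rw [F.efe, F.fef]
            noncomm_ring
          rw [← b]
          noncomm_ring
      _ = c₂ • (e * (f * e * f) * X) := by
          rw [h2, mul_smul_comm, smul_mul_assoc, smul_mul_assoc]
          congr 1
      _ = c₂ • (e * f * X) := by rw [F.fef]
  rw [e2] at n2
  have n3 : e * f * X ∈ L := by
    have h7 := L.smul_mem c₂⁻¹ n2
    rwa [smul_smul, inv_mul_cancel₀ hc, one_smul] at h7
  refine ⟨n3, ?_, ?_⟩
  · rw [← mul_assoc, ← mul_assoc, F.e_mem.2.1]
  · rw [mul_assoc, hX.2.2, mul_neg]

/-- If `e f` multiplies the part of weight one, this part is everything. -/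
theorem E1_full [CharZero K] [IsAlgClosed K] [FiniteDimensional K V] [Nontrivial V]
    (h : CoreN L) {s e f : Module.End K V} (F : Frame L s e f)
    {v₁ : V} {χ : Module.Dual K V} (hχ : χ v₁ = 1) (hp : ∀ x, (e * f) x = χ x • v₁)
    (hL : ∀ X ∈ Lp L s, e * f * X ∈ Lp L s) {T : Module.End K V} (hT : s * T = T)
    (hT' : T * s = -T) : T ∈ Lp L s := by
  have pv : (e * f) v₁ = v₁ := by rw [hp, hχ, one_smul]
  have sp : s * (e * f) = e * f := by rw [← mul_assoc, F.e_mem.2.1]
  have ps : e * f * s = e * f := by rw [mul_assoc, F.f_mem.2.2]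
  have sv : s v₁ = v₁ := by
    have := LinearMap.congr_fun sp v₁
    rwa [Module.End.mul_apply, pv] at this
  have hv0 : v₁ ≠ 0 := by
    rintro rfl
    rw [map_zero] at hχ
    exact zero_ne_one hχ
  have χs : ∀ x, χ (s x) = χ x := by
    intro x
    have h1 := LinearMap.congr_fun ps x
    rw [Module.End.mul_apply, hp, hp] at h1
    have h2 := congrArg χ h1
    rwa [map_smul, map_smul, hχ, smul_eq_mul, smul_eq_mul, mul_one, mul_one] at h2
  -- the multipliers
  let W : Submodule K V :=
    { carrier := {a | s a = a ∧ ∀ X ∈ Lp L s, (χ.smulRight a : Module.End K V) * X ∈ Lp L s}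
      add_mem' := by
        rintro a b ⟨h1, h2⟩ ⟨h3, h4⟩
        refine ⟨by rw [map_add, h1, h3], fun X hX => ?_⟩
        have e1 : (χ.smulRight (a + b) : Module.End K V) = χ.smulRight a + χ.smulRight b := by
          ext x
          simp
        rw [e1, add_mul]
        exact (Lp L s).add_mem (h2 X hX) (h4 X hX)
      zero_mem' := by
        refine ⟨map_zero s, fun X hX => ?_⟩
        have e1 : (χ.smulRight (0 : V) : Module.End K V) = 0 := by
          ext x
          simp
        rw [e1, zero_mul]
        exact (Lp L s).zero_mem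
      smul_mem' := by
        rintro c a ⟨h1, h2⟩
        refine ⟨by rw [map_smul, h1], fun X hX => ?_⟩
        have e1 : (χ.smulRight (c • a) : Module.End K V) = c • χ.smulRight a := by
          ext x
          rw [LinearMap.smulRight_apply, LinearMap.smul_apply, LinearMap.smulRight_apply, smul_comm]
        rw [e1, smul_mul_assoc]
        exact (Lp L s).smul_mem _ (h2 X hX) }
  have hpe : (e * f : Module.End K V) = χ.smulRight v₁ := by
    ext x
    rw [hp, LinearMap.smulRight_apply]
  have hW1 : v₁ ∈ W := ⟨sv, fun X hX => by rw [← hpe]; exact hL X hX⟩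
  have hWst : ∀ Z ∈ L0 L s, ∀ w ∈ W, Z w ∈ W := by
    rintro Z hZ a ⟨h1, h2⟩
    refine ⟨?_, fun X hX => ?_⟩
    · have := LinearMap.congr_fun hZ.2 a
      rw [Module.End.mul_apply, Module.End.mul_apply, h1] at this
      exact this
    · -- `(Z a) χ = (Z (a χ) - (a χ) Z) p + χ(Z v₁) a χ`
      have h3 : e * f * X ∈ Lp L s := hL X hX
      have h4 := A3_0p h hZ (h2 _ h3)
      have h5 := h2 _ (A3_0p h hZ h3)
      have e1 : (χ.smulRight (Z a) : Module.End K V) * X =
          (Z * (χ.smulRight a * (e * f * X)) - χ.smulRight a * (e * f * X) * Z) -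
            χ.smulRight a * (Z * (e * f * X) - e * f * X * Z) +
            χ (Z v₁) • (χ.smulRight a * X) := by
        ext x
        simp only [Module.End.mul_apply, LinearMap.add_apply, LinearMap.sub_apply, LinearMap.smul_apply,
          LinearMap.smulRight_apply, map_sub, map_smul]
        have hp' : ∀ x, e (f x) = χ x • v₁ := hp
        simp only [hp', map_smul, hχ, smul_eq_mul, mul_one, smul_smul]
        module
      rw [e1]
      exact (Lp L s).add_mem ((Lp L s).sub_mem h4 h5) ((Lp L s).smul_mem _ (h2 X hX))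
  have hWall : ∀ a, s a = a → a ∈ W := fun a ha =>
    A3_vec h F.s_mem F.s_sq (W := W) (fun w hw => hw.1) (fun h0 => hv0 (by
      rw [h0] at hW1
      exact (Submodule.mem_bot K).1 hW1)) hWst ha
  -- the covectors
  let Ψ : Submodule K (Module.Dual K V) :=
    { carrier := {ψ | ∀ a, s a = a → (ψ.smulRight a : Module.End K V) ∈ Lp L s}
      add_mem' := by
        intro ψ ψ' h1 h2 a ha
        have e1 : ((ψ + ψ').smulRight a : Module.End K V) = ψ.smulRight a + ψ'.smulRight a := by
          ext x
          simp [add_smul]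
        rw [e1]
        exact (Lp L s).add_mem (h1 a ha) (h2 a ha)
      zero_mem' := by
        intro a ha
        have e1 : ((0 : Module.Dual K V).smulRight a : Module.End K V) = 0 := by
          ext x
          simp
        rw [e1]
        exact (Lp L s).zero_mem
      smul_mem' := by
        intro c ψ h1 a ha
        have e1 : ((c • ψ).smulRight a : Module.End K V) = c • ψ.smulRight a := by
          ext x
          simp [smul_smul]
        rw [e1]
        exact (Lp L s).smul_mem _ (h1 a ha) }
  have hΨs : ∀ ψ ∈ Ψ, ∀ x, ψ (s x) = -ψ x := by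
    intro ψ hψ x
    have h1 := LinearMap.congr_fun (hψ v₁ sv).2.2 x
    rw [Module.End.mul_apply, LinearMap.neg_apply, LinearMap.smulRight_apply,
      LinearMap.smulRight_apply] at h1
    have h2 := congrArg χ h1
    rwa [map_neg, map_smul, map_smul, hχ, smul_eq_mul, smul_eq_mul, mul_one, mul_one] at h2
  have hΨ1 : χ ∘ₗ e ∈ Ψ := by
    intro a ha
    have e1 : ((χ ∘ₗ e).smulRight a : Module.End K V) = χ.smulRight a * e := by
      ext x
      simp
    rw [e1]
    exact (hWall a ha).2 e F.e_mem
  have hΨst : ∀ Z ∈ L0 L s, ∀ ψ ∈ Ψ, ψ ∘ₗ Z ∈ Ψ := by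
    intro Z hZ ψ hψ a ha
    have h1 := A3_0p h hZ (hψ a ha)
    have ha' : s (Z a) = Z a := by
      have := LinearMap.congr_fun hZ.2 a
      rw [Module.End.mul_apply, Module.End.mul_apply, ha] at this
      exact this
    have h2 := hψ _ ha'
    have e1 : ((ψ ∘ₗ Z).smulRight a : Module.End K V) = ψ.smulRight (Z a) -
        (Z * ψ.smulRight a - ψ.smulRight a * Z) := by
      ext x
      simp
    rw [e1]
    exact (Lp L s).sub_mem h2 h1
  have hN : ∀ v, s v = -v → (∀ ψ ∈ Ψ, ψ v = 0) → v = 0 := by
    let N : Submodule K V :=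
      { carrier := {v | s v = -v ∧ ∀ ψ ∈ Ψ, ψ v = 0}
        add_mem' := by
          rintro a b ⟨h1, h2⟩ ⟨h3, h4⟩
          exact ⟨by rw [map_add, h1, h3]; abel, fun ψ hψ => by rw [map_add, h2 ψ hψ, h4 ψ hψ, add_zero]⟩
        zero_mem' := ⟨by simp, fun ψ _ => map_zero ψ⟩
        smul_mem' := by
          rintro c a ⟨h1, h2⟩
          exact ⟨by rw [map_smul, h1, smul_neg], fun ψ hψ => by rw [map_smul, h2 ψ hψ, smul_zero]⟩ }
    by_contra hcon
    push Not at hcon
    obtain ⟨v, hv1, hv2, hv3⟩ := hcon
    have hN0 : N ≠ ⊥ := by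
      intro h0
      have : v ∈ N := ⟨hv1, hv2⟩
      rw [h0] at this
      exact hv3 ((Submodule.mem_bot K).1 this)
    have hall : ∀ w, (-s) w = w → w ∈ N := fun w hw =>
      A3_vec h (L.neg_mem F.s_mem) (by rw [neg_mul_neg, F.s_sq]) (W := N)
        (fun w hw => by rw [LinearMap.neg_apply, hw.1, neg_neg]) hN0
        (fun Z hZ w hw => by
          rw [K0_L0] at hZ
          refine ⟨?_, fun ψ hψ => hw.2 _ (hΨst Z hZ ψ hψ)⟩
          have := LinearMap.congr_fun hZ.2 w
          rw [Module.End.mul_apply, Module.End.mul_apply, hw.1, map_neg] at this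
          exact this) hw
    have hf : (-s) (f v₁) = f v₁ := by
      have := LinearMap.congr_fun F.f_mem.2.1 v₁
      rw [Module.End.mul_apply, LinearMap.neg_apply] at this
      rw [LinearMap.neg_apply, this, neg_neg]
    have h1 := (hall _ hf).2 _ hΨ1
    rw [LinearMap.comp_apply] at h1
    have h2 : e (f v₁) = v₁ := pv
    rw [h2, hχ] at h1
    exact one_ne_zero h1
  have hΨall : ∀ ψ : Module.Dual K V, (∀ x, ψ (s x) = -ψ x) → ψ ∈ Ψ := by
    intro ψ hψ
    rw [← Subspace.dualCoannihilator_dualAnnihilator_eq (K := K) (V := V) (W := Ψ),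
      Submodule.mem_dualAnnihilator]
    intro v hv
    rw [Submodule.mem_dualCoannihilator] at hv
    have h1 : v - s v = 0 := by
      refine hN _ ?_ fun φ hφ => ?_
      · rw [map_sub]
        have : s (s v) = v := LinearMap.congr_fun F.s_sq v
        rw [this]
        abel
      · rw [map_sub, hΨs φ hφ, hv φ hφ]
        simp
    have h2 := hψ v
    rw [← sub_eq_zero.1 h1] at h2
    have h3 : (2 : K) * ψ v = 0 := by linear_combination h2
    exact (mul_eq_zero.1 h3).resolve_left (by norm_num)
  -- the assembly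
  let b := Module.finBasis K V
  have e1 : T = ∑ i, ((b.coord i) ∘ₗ T).smulRight ((1 / 2 : K) • (b i + s (b i))) := by
    ext x
    have h1 : T x = ∑ i, b.repr (T x) i • b i := (b.sum_repr (T x)).symm
    have h2 : s (T x) = T x := LinearMap.congr_fun hT x
    have h3 : T x = (1 / 2 : K) • (T x + s (T x)) := by
      rw [h2, ← two_smul K (T x), smul_smul]
      norm_num
    have h4 : T x + s (T x) = ∑ i, b.repr (T x) i • (b i + s (b i)) := by
      nth_rw 1 2 [h1]
      rw [map_sum, ← Finset.sum_add_distrib]
      refine Finset.sum_congr rfl fun i _ => ?_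
      rw [map_smul, smul_add]
    rw [LinearMap.sum_apply]
    nth_rw 1 [h3]
    rw [h4, Finset.smul_sum]
    refine Finset.sum_congr rfl fun i _ => ?_
    rw [LinearMap.smulRight_apply, LinearMap.comp_apply, Module.Basis.coord_apply, smul_comm]
  rw [e1]
  refine Submodule.sum_mem _ fun i _ => hΨall _ (fun x => ?_) _ ?_
  · rw [LinearMap.comp_apply, LinearMap.comp_apply, ← map_neg]
    congr 1
    exact LinearMap.congr_fun hT' x
  · have : s (s (b i)) = b i := LinearMap.congr_fun F.s_sq (b i)
    rw [map_smul, map_add, this, add_comm]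

theorem E1_nd {D : Module.End K V} [FiniteDimensional K V]
    (hD : ∀ T : Module.End K V, LinearMap.trace K V (D * T) = 0) : D = 0 := by
  ext w
  by_contra hne
  obtain ⟨φ, hφ⟩ := Module.Projective.exists_dual_ne_zero (R := K) hne
  apply hφ
  have h1 := hD (φ.smulRight w)
  have e : D * (φ.smulRight w : Module.End K V) = φ.smulRight (D w) := by
    ext x
    rw [Module.End.mul_apply, LinearMap.smulRight_apply, LinearMap.smulRight_apply, map_smul]
  rw [e, LinearMap.trace_smulRight] at h1
  exact h1

/-- If the part of weight one is everything, so is the part of weight minus one. -/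
theorem E1_dual [CharZero K] [IsAlgClosed K] [FiniteDimensional K V] [Nontrivial V]
    (h : CoreN L) {s : Module.End K V} (hs : s ∈ L) (hs2 : s * s = 1)
    (hfull : ∀ T : Module.End K V, s * T = T → T * s = -T → T ∈ L)
    {Y : Module.End K V} (hY : s * Y = -Y) (hY' : Y * s = Y) : Y ∈ L := by
  let φ : L →ₗ[K] K := (LinearMap.trace K V) ∘ₗ (LinearMap.mulLeft K Y) ∘ₗ L.subtype
  obtain ⟨Z, hZ, hφ⟩ := exists_trace_repr h.lie h.irr h.tr φ
  have hφ' : ∀ X ∈ L, LinearMap.trace K V (Y * X) = LinearMap.trace K V (Z * X) :=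
    fun X hX => hφ ⟨X, hX⟩
  obtain ⟨a, ha, b, hb, c, hc, rfl⟩ := A2_decomp h hs hs2 hZ
  have key : Y - c = 0 := by
    apply E1_nd
    intro T
    obtain ⟨A, hA⟩ : ∃ A, A = (1 / 4 : K) • ((1 + s) * T * (1 - s)) := ⟨_, rfl⟩
    have sA : s * A = A := by
      rw [hA, mul_smul_comm]
      congr 1
      have : s * ((1 + s) * T * (1 - s)) = (s + s * s) * T * (1 - s) := by noncomm_ring
      rw [this, hs2, add_comm s 1]
    have As : A * s = -A := by
      rw [hA, smul_mul_assoc, ← smul_neg]
      congr 1
      have : (1 + s) * T * (1 - s) * s = (1 + s) * T * (s - s * s) := by noncomm_ring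
      rw [this, hs2]
      noncomm_ring
    have hAL : A ∈ L := hfull A sA As
    have hAp : A ∈ Lp L s := ⟨hAL, sA, As⟩
    have h1 : LinearMap.trace K V ((Y - c) * T) = LinearMap.trace K V ((Y - c) * A) := by
      obtain ⟨D, hD⟩ : ∃ D, D = Y - c := ⟨_, rfl⟩
      have sD : s * D = -D := by rw [hD, mul_sub, hY, hc.2.1]; abel
      have Ds : D * s = D := by rw [hD, sub_mul, hY', hc.2.2]
      rw [← hD, hA, mul_smul_comm, map_smul]
      have e1 : D * ((1 + s) * T * (1 - s)) = (D + D * s) * T * (1 - s) := by noncomm_ring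
      rw [e1, Ds, LinearMap.trace_mul_comm K ((D + D) * T) (1 - s)]
      have e2 : (1 - s) * ((D + D) * T) = (D + D - (s * D + s * D)) * T := by noncomm_ring
      rw [e2, sD]
      have e3 : (D + D - (-D + -D)) * T = (4 : K) • (D * T) := by
        have : (D + D - (-D + -D)) = (4 : K) • D := by module
        rw [this, smul_mul_assoc]
      rw [e3, map_smul, smul_eq_mul, smul_eq_mul]
      ring
    rw [h1, sub_mul, map_sub, hφ' A hAL, add_mul, add_mul, map_add, map_add, A2_pp ha hAp, map_zero]
    have h2 : LinearMap.trace K V (b * A) = 0 := by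
      have h3 : LinearMap.trace K V (b * A) = -LinearMap.trace K V (b * A) := by
        nth_rw 1 [← sA]
        rw [← mul_assoc, ← hb.2, mul_assoc, LinearMap.trace_mul_comm, mul_assoc, As, mul_neg, map_neg]
      have : (2 : K) * LinearMap.trace K V (b * A) = 0 := by linear_combination h3
      exact (mul_eq_zero.1 this).resolve_left (by norm_num)
    rw [h2]
    ring
  rw [sub_eq_zero.1 key]
  exact hc.1

/-- If both parts are everything, `L` is the special linear algebra. -/
theorem E1_end [CharZero K] [IsAlgClosed K] [FiniteDimensional K V] [Nontrivial V]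
    (h : CoreN L) {s : Module.End K V} (hs2 : s * s = 1)
    (h1 : ∀ T : Module.End K V, s * T = T → T * s = -T → T ∈ L)
    (h2 : ∀ T : Module.End K V, s * T = -T → T * s = T → T ∈ L)
    {v w : V} (hv : v ≠ 0) (hsv : s v = v) (hw : w ≠ 0) (hsw : s w = -w)
    {X : Module.End K V} (hX : LinearMap.trace K V X = 0) : X ∈ L := by
  let φ : L →ₗ[K] K := (LinearMap.trace K V) ∘ₗ (LinearMap.mulLeft K X) ∘ₗ L.subtype
  obtain ⟨Z, hZ, hφ⟩ := exists_trace_repr h.lie h.irr h.tr φ
  obtain ⟨D, hD⟩ : ∃ D, D = X - Z := ⟨_, rfl⟩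
  have hDL : ∀ Y ∈ L, LinearMap.trace K V (D * Y) = 0 := by
    intro Y hY
    have h3 : LinearMap.trace K V (X * Y) = LinearMap.trace K V (Z * Y) := hφ ⟨Y, hY⟩
    rw [hD, sub_mul, map_sub, h3, sub_self]
  obtain ⟨P, hP⟩ : ∃ P, P = (1 / 2 : K) • (1 + s) := ⟨_, rfl⟩
  obtain ⟨Q, hQ⟩ : ∃ Q, Q = (1 / 2 : K) • (1 - s) := ⟨_, rfl⟩
  have PQ : P + Q = 1 := by rw [hP, hQ]; module
  have sP : s * P = P := by rw [hP, mul_smul_comm, mul_add, hs2, mul_one, add_comm]
  have Ps : P * s = P := by rw [hP, smul_mul_assoc, add_mul, hs2, one_mul, add_comm]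
  have sQ : s * Q = -Q := by rw [hQ, mul_smul_comm, mul_sub, hs2, mul_one, ← smul_neg, neg_sub]
  have Qs : Q * s = -Q := by rw [hQ, smul_mul_assoc, sub_mul, hs2, one_mul, ← smul_neg, neg_sub]
  have PP : P * P = P := by
    nth_rw 1 [hP]
    rw [smul_mul_assoc, add_mul, one_mul, sP, ← two_smul K P, smul_smul]
    norm_num
  have QQ : Q * Q = Q := by
    nth_rw 1 [hQ]
    rw [smul_mul_assoc, sub_mul, one_mul, sQ, sub_neg_eq_add, ← two_smul K Q, smul_smul]
    norm_num
  have mA : ∀ T : Module.End K V, P * T * Q ∈ L := fun T => h1 _ (by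
    rw [← mul_assoc, ← mul_assoc, sP]) (by rw [mul_assoc, Qs, mul_neg])
  have mB : ∀ T : Module.End K V, Q * T * P ∈ L := fun T => h2 _ (by
    rw [← mul_assoc, ← mul_assoc, sQ, neg_mul, neg_mul]) (by rw [mul_assoc, Ps])
  have d1 : Q * D * P = 0 := by
    apply E1_nd
    intro T
    have e : Q * D * P * T = Q * (D * P * T) := by noncomm_ring
    rw [e, LinearMap.trace_mul_comm]
    have e' : D * P * T * Q = D * (P * T * Q) := by noncomm_ring
    rw [e']
    exact hDL _ (mA T)
  have d2 : P * D * Q = 0 := by
    apply E1_nd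
    intro T
    have e : P * D * Q * T = P * (D * Q * T) := by noncomm_ring
    rw [e, LinearMap.trace_mul_comm]
    have e' : D * Q * T * P = D * (Q * T * P) := by noncomm_ring
    rw [e']
    exact hDL _ (mB T)
  have d3 : ∀ T : Module.End K V, P * D * P * T * Q = P * T * Q * D * Q := by
    intro T
    rw [← sub_eq_zero]
    apply E1_nd
    intro S
    have h3 := hDL _ (h.lie _ (mA T) _ (mB S))
    have e1 : D * (P * T * Q * (Q * S * P) - Q * S * P * (P * T * Q)) =
        D * P * T * (Q * Q) * S * P - (D * Q * S) * ((P * P) * T * Q) := by noncomm_ring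
    rw [e1, QQ, PP, map_sub] at h3
    have e2 : LinearMap.trace K V (D * P * T * Q * S * P) =
        LinearMap.trace K V (P * D * P * T * Q * S) := by
      rw [LinearMap.trace_mul_comm]
      congr 1
    have e3 : LinearMap.trace K V (D * Q * S * (P * T * Q)) =
        LinearMap.trace K V (P * T * Q * D * Q * S) := by
      rw [LinearMap.trace_mul_comm]
      congr 1
    rw [e2, e3] at h3
    rw [sub_mul, map_sub]
    exact h3
  have Pv : P v = v := by
    rw [hP, LinearMap.smul_apply, LinearMap.add_apply, Module.End.one_apply, hsv, ← two_smul K v,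
      smul_smul]
    norm_num
  have Qw : Q w = w := by
    rw [hQ, LinearMap.smul_apply, LinearMap.sub_apply, Module.End.one_apply, hsw, sub_neg_eq_add,
      ← two_smul K w, smul_smul]
    norm_num
  obtain ⟨ψ, hψ⟩ := Module.Projective.exists_dual_ne_zero (R := K) hw
  obtain ⟨c, hc⟩ : ∃ c, c = (ψ w)⁻¹ * ψ (Q (D (Q w))) := ⟨_, rfl⟩
  have d4 : ∀ x, P (D (P x)) = c • P x := by
    intro x
    have h3 := LinearMap.congr_fun (d3 (ψ.smulRight x)) w
    simp only [Module.End.mul_apply, LinearMap.smulRight_apply, map_smul] at h3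
    rw [Qw] at h3
    have h4 := congrArg (fun t => (ψ w)⁻¹ • t) h3
    simp only [smul_smul, inv_mul_cancel₀ hψ, one_smul] at h4
    rw [h4, hc, Qw]
  have d5 : ∀ x, Q (D (Q x)) = c • Q x := by
    intro x
    rw [← sub_eq_zero]
    by_contra hne
    obtain ⟨φ, hφ⟩ := Module.Projective.exists_dual_ne_zero (R := K) hne
    apply hφ
    have h3 := LinearMap.congr_fun (d3 (φ.smulRight v)) x
    simp only [Module.End.mul_apply, LinearMap.smulRight_apply, map_smul] at h3
    rw [d4, Pv, smul_smul, ← sub_eq_zero, ← sub_smul] at h3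
    have h4 := (smul_eq_zero.1 h3).resolve_right hv
    rw [map_sub, map_smul, smul_eq_mul]
    linear_combination -h4
  have d6 : D = c • 1 := by
    ext x
    have e1 : D x = P (D (P x)) + P (D (Q x)) + (Q (D (P x)) + Q (D (Q x))) := by
      have h3 : ∀ y, P y + Q y = y := fun y => LinearMap.congr_fun PQ y
      rw [← map_add P, ← map_add Q, ← map_add D, h3, h3]
    have e2 : P (D (Q x)) = 0 := LinearMap.congr_fun d2 x
    have e3 : Q (D (P x)) = 0 := LinearMap.congr_fun d1 x
    rw [e1, e2, e3, d4, d5, add_zero, zero_add, ← smul_add, LinearMap.smul_apply, Module.End.one_apply]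
    congr 1
    exact LinearMap.congr_fun PQ x
  have d7 : LinearMap.trace K V D = 0 := by rw [hD, map_sub, hX, h.tr Z hZ, sub_zero]
  rw [d6, map_smul, LinearMap.trace_one, smul_eq_mul] at d7
  have hn : (finrank K V : K) ≠ 0 := by
    rw [Nat.cast_ne_zero]
    exact (Module.finrank_pos (R := K) (M := V)).ne'
  have hc0 : c = 0 := (mul_eq_zero.1 d7).resolve_right hn
  rw [hc0, zero_smul] at d6
  rw [d6] at hD
  rw [sub_eq_zero.1 hD.symm]
  exact hZ

/-- If the extremal element has rank one and there is no invariant bilinear form, `L` is `sl(V)`. -/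
theorem full_sl [CharZero K] [IsAlgClosed K] [FiniteDimensional K V] [Nontrivial V]
    (h : CoreN L) {s e f : Module.End K V} (F : Frame L s e f) (hr : finrank K (LinearMap.range e) = 1)
    (hNS : ∀ B : V →ₗ[K] V →ₗ[K] K, (∀ X ∈ L, ∀ v w, B (X v) w + B v (X w) = 0) → B = 0)
    {X : Module.End K V} (hX : LinearMap.trace K V X = 0) : X ∈ L := by
  have F' := K0_swap h.lie F
  have hr' : finrank K (LinearMap.range f) = 1 := by rw [(K0_rank F).2.1, hr]
  have pp : e * f * (e * f) = e * f := by rw [← mul_assoc, F.efe]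
  have qq : f * e * (f * e) = f * e := by rw [← mul_assoc, F.fef]
  obtain ⟨v, χ, hχ, hp⟩ := E1_vec pp (by rw [(K0_rank F).1, hr])
  obtain ⟨w, φ, hφ, hq⟩ := E1_vec qq (by rw [(K0_rank F').1, hr'])
  have hv : v ≠ 0 := by
    rintro rfl
    rw [map_zero] at hχ
    exact zero_ne_one hχ
  have hw : w ≠ 0 := by
    rintro rfl
    rw [map_zero] at hφ
    exact zero_ne_one hφ
  have pv : (e * f) v = v := by rw [hp, hχ, one_smul]
  have qw : (f * e) w = w := by rw [hq, hφ, one_smul]
  have sv : s v = v := by
    have h1 : s * (e * f) = e * f := by rw [← mul_assoc, F.e_mem.2.1]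
    have := LinearMap.congr_fun h1 v
    rwa [Module.End.mul_apply, pv] at this
  have sw : s w = -w := by
    have h1 : s * (f * e) = -(f * e) := by rw [← mul_assoc, F.f_mem.2.1, neg_mul]
    have := LinearMap.congr_fun h1 w
    rwa [Module.End.mul_apply, LinearMap.neg_apply, qw] at this
  -- a failing pair
  have hex : ∃ u ∈ J1 L s e f, ∃ g ∈ J1 L (-s) f e, χ (u (g v)) ≠ φ (g (u w)) := by
    by_contra hcon
    push Not at hcon
    have hz := fun X (hX : X ∈ L) => E1_zero h F (fun u hu g hg => by
      rw [mul_assoc (e * f), mul_assoc (f * e), E1_tr hp, E1_tr hq]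
      exact hcon u hu g hg) hX
    let β : V →ₗ[K] V →ₗ[K] K := χ.smulRight φ
    have hβ : ∀ x y, β x y = χ x * φ y := fun x y => rfl
    have χp : ∀ x, χ (e (f x)) = χ x := by
      intro x
      have := hp x
      rw [Module.End.mul_apply] at this
      rw [this, map_smul, hχ, smul_eq_mul, mul_one]
    have φq : ∀ x, φ (f (e x)) = φ x := by
      intro x
      have := hq x
      rw [Module.End.mul_apply] at this
      rw [this, map_smul, hφ, smul_eq_mul, mul_one]
    obtain ⟨B, hB1, hB2⟩ := exists_form h F β (fun x y => by rw [hβ, hβ, χp])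
      (fun x y => by rw [hβ, hβ, φq]) (fun X hX x y => by
        have h1 := hz X hX
        rw [add_mul, map_add, E1_tr hp, E1_tr hq] at h1
        have e1 : e (f x) = χ x • v := hp x
        have e2 : f (e y) = φ y • w := hq y
        rw [hβ, hβ, e1, e2, map_smul, map_smul, map_smul, map_smul, smul_eq_mul, smul_eq_mul]
        linear_combination (χ x * φ y) * h1)
    have h1 := hNS B hB2
    have h2 := hB1 v w
    rw [h1, hβ, hχ, hφ] at h2
    simp at h2
  obtain ⟨u, hu, g, hg, hne⟩ := hex
  have c1 : e * f * u * g * (e * f) = χ (u (g v)) • (e * f) := by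
    rw [mul_assoc (e * f) u g, E1_sand hp]
    rfl
  have c2 : f * e * g * u * (f * e) = φ (g (u w)) • (f * e) := by
    rw [mul_assoc (f * e) g u, E1_sand hq]
    rfl
  obtain ⟨u1, u2⟩ := E1_split h.lie F hu hg c1 c2 hne
  have hu' : u ∈ J1 L (-(-s)) e f := by rw [neg_neg]; exact hu
  obtain ⟨g1, g2⟩ := E1_split h.lie F' hg hu' c2 c1 hne.symm
  by_cases hc : φ (g (u w)) = 0
  · have hc' : χ (u (g v)) ≠ 0 := fun h0 => hne (by rw [h0, hc])
    have h3 : ∀ X ∈ Lp L (-s), f * e * X ∈ Lp L (-s) := fun X hX =>
      E1_left h.lie F' hg hu' c1 hc' g2 u1 hX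
    have h4 : ∀ T : Module.End K V, s * T = -T → T * s = T → T ∈ L := fun T hT hT' =>
      (E1_full h F' hφ hq h3 (T := T) (by rw [neg_mul, hT, neg_neg]) (by rw [mul_neg, hT'])).1
    have h5 : ∀ T : Module.End K V, s * T = T → T * s = -T → T ∈ L := fun T hT hT' =>
      E1_dual h (L.neg_mem F.s_mem) (by rw [neg_mul_neg, F.s_sq])
        (fun T hT hT' => h4 T (by rw [neg_mul] at hT; exact neg_eq_iff_eq_neg.1 hT)
          (by rw [mul_neg] at hT'; exact neg_inj.1 hT'))
        (by rw [neg_mul, hT]) (by rw [mul_neg, hT', neg_neg])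
    exact E1_end h F.s_sq h5 h4 hv sv hw sw hX
  · have h3 : ∀ X ∈ Lp L s, e * f * X ∈ Lp L s := fun X hX => E1_left h.lie F hu hg c2 hc u2 g1 hX
    have h4 : ∀ T : Module.End K V, s * T = T → T * s = -T → T ∈ L := fun T hT hT' =>
      (E1_full h F hχ hp h3 hT hT').1
    exact E1_end h F.s_sq h4 (fun T hT hT' => E1_dual h F.s_mem F.s_sq h4 hT hT') hv sv hw sw hX

end Pool.Agent.H86N
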