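import Pool.Agent.Lib.H86N.O2
import Pool.Agent.Lib.H86N.O3
import Pool.Agent.Lib.H49M.R3

/-!
# O4: simple irreducible Lie algebras with an involution and an invariant symmetric form
-/

set_option autoImplicit false
set_option linter.unusedSectionVars false
namespace Pool.Agent.H86N
open Module Pool.Agent.H53Toric Pool.Agent.H49M

variable {K : Type*} [Field K] {V : Type*} [AddCommGroup V] [Module K V]
variable {L : Submodule K (Module.End K V)}

/-- The rank of an extremal element. -/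
theorem o4_ext [CharZero K] [IsAlgClosed K] [FiniteDimensional K V] [Nontrivial V]
    (h : CoreN L) {B : V →ₗ[K] V →ₗ[K] K} (hB : B ≠ 0) (hsym : ∀ v w, B v w = B w v)
    (hinv : ∀ X ∈ L, ∀ v w, B (X v) w + B v (X w) = 0) {s : Module.End K V} (hs : s ∈ L) (hs2 : s * s = 1)
    (hnot : ¬ ∀ X : Module.End K V, (∀ v w, B (X v) w + B v (X w) = 0) → X ∈ L) {N : Module.End K V} (hN : N ∈ L)
    (hN2 : N * N = 0) (hN0 : N ≠ 0) (hext : ∀ X ∈ L, ∃ c : K, N * X * N = c • N) :
    (∃ k : ℕ, 4 ≤ k ∧ Even k ∧ finrank K V = k.centralBinom ∧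
      finrank K (LinearMap.range N) = (k - 1).centralBinom) ∨
    (∃ m : ℕ, 3 ≤ m ∧ (m % 4 = 0 ∨ m % 4 = 3) ∧ finrank K V = 2 ^ m ∧
      4 * finrank K (LinearMap.range N) = finrank K V) := by
  have hset := A1_setup h hs hs2
  obtain ⟨y, e, f, hy, hy2, he, hf, c1, c2, c3, c4, hee, hff, hefe, hfef, hrk, hext'⟩ :=
    A4_frame_aux hset hN hN2 hN0 hext
  have he0 : e ≠ 0 := by
    intro h0
    have h1 : finrank K (LinearMap.range N) = 0 := by
      rw [← hrk, h0, LinearMap.range_zero, finrank_bot]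
    exact hN0 (LinearMap.range_eq_bot.mp (Submodule.finrank_eq_zero.mp h1))
  have F : Frame L y e f := ⟨hy, hy2, ⟨he, c1, c2⟩, ⟨hf, c3, c4⟩, he0, hefe, hfef, hext'⟩
  rw [← hrk]
  by_cases ha : ∀ u ∈ J1 L y e f, u * f * u = 0
  · left
    rcases o2_alpha h hB hsym hinv F ha with h1 | h1
    · exact absurd h1 hnot
    · exact h1
  · right
    push Not at ha
    obtain ⟨u, hu, hu0⟩ := ha
    obtain ⟨e', f', G⟩ := P1_grid h F hu hu0
    by_cases hall : ∀ T : Module.End K V, e * f * T * (e * f) * (u * f') ∈ LL L (e * f) (e' * f')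
    · exact absurd (fun X hX => full_so' h G hall hB hsym hinv hX) hnot
    · have h1 := (P5_dich h G).resolve_left hall
      have h4 := P8_four h G h1
      obtain ⟨t, ht, ht2⟩ := o3_spin h hB hsym hinv G h1
      have h5 := (K5_eig h G.F.s_mem G.F.s_sq).2
      have h6 : finrank K V = 2 ^ (t + 1) := by rw [h5, ht, pow_succ]; ring
      exact ⟨t + 1, by omega, by omega, h6, h4.symm⟩

/-- A simple irreducible Lie algebra of skew operators of a space with a symmetric form containing an involution is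
the full orthogonal Lie algebra, except if the dimension is `2 ^ m` with `m ≡ 0, 3 mod 4`, `m ≥ 3`, and all square
zero elements have rank a quarter or a half of the dimension, or the dimension is `C(2k, k)` with `k ≥ 4` even and
all square zero elements have rank `C(2k-2, k-1)`. -/
theorem coreO [CharZero K] [IsAlgClosed K] [FiniteDimensional K V] [Nontrivial V]
    (h : CoreN L) {B : V →ₗ[K] V →ₗ[K] K} (hB : B ≠ 0) (hsym : ∀ v w, B v w = B w v)
    (hinv : ∀ X ∈ L, ∀ v w, B (X v) w + B v (X w) = 0) {s : Module.End K V} (hs : s ∈ L) (hs2 : s * s = 1) :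
    (∀ X : Module.End K V, (∀ v w, B (X v) w + B v (X w) = 0) → X ∈ L) ∨
    (∃ m : ℕ, 3 ≤ m ∧ (m % 4 = 0 ∨ m % 4 = 3) ∧ finrank K V = 2 ^ m ∧
      ∀ N ∈ L, N * N = 0 → N ≠ 0 → 4 * finrank K (LinearMap.range N) = finrank K V ∨
        2 * finrank K (LinearMap.range N) = finrank K V) ∨
    (∃ k : ℕ, 4 ≤ k ∧ Even k ∧ finrank K V = k.centralBinom ∧
      ∀ N ∈ L, N * N = 0 → N ≠ 0 →
        finrank K (LinearMap.range N) = (k - 1).centralBinom) := by
  by_cases hfull : ∀ X : Module.End K V, (∀ v w, B (X v) w + B v (X w) = 0) → X ∈ L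
  · exact Or.inl hfull
  right
  have hset := A1_setup h hs hs2
  obtain ⟨N₁, hN₁, hN₁0⟩ := Submodule.exists_mem_ne_zero_of_ne_bot (A2_ne h hs hs2)
  obtain ⟨N₀, hN₀, hN₀2, hN₀0, -, hext₀⟩ := A4_extremal h.lie h.irr hset.tr hN₁.1
    (A2_pp hN₁ hN₁) hN₁0
  rcases o4_ext h hB hsym hinv hs hs2 hfull hN₀ hN₀2 hN₀0 hext₀ with ⟨k, hk3, hk, hdim, -⟩ |
    ⟨m, hm5, hm, hdim, hr0⟩
  · right
    refine ⟨k, hk3, hk, hdim, fun N hN hN2 hN0 => ?_⟩
    obtain ⟨c, hc1, hc⟩ := R1_sum h.lie h.irr hset.tr (r := (k - 1).centralBinom) (by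
      intro N' hN' hN'2 hN'0 hext'
      rcases o4_ext h hB hsym hinv hs hs2 hfull hN' hN'2 hN'0 hext' with ⟨k', -, -, hdim', hr'⟩ |
        ⟨m, -, -, hdim', -⟩
      · rw [hdim] at hdim'
        rw [Nat.centralBinom_strictMono.injective hdim']
        exact hr'
      · rw [hdim] at hdim'
        exact absurd hdim' (R3_binom_pow (by omega))) _ N hN hN2 rfl hN0
    have h1 := R1_half hN2
    obtain ⟨j, rfl⟩ : ∃ j, k = j + 1 := ⟨k - 1, by omega⟩
    have h2 := R3_binom_lt j
    rw [Nat.add_sub_cancel] at hc ⊢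
    have hc2 : c < 2 := by
      by_contra hcon
      push Not at hcon
      have h3 : 2 * j.centralBinom ≤ c * j.centralBinom := Nat.mul_le_mul_right _ hcon
      omega
    have : c = 1 := by omega
    rw [hc, this, one_mul]
  · left
    refine ⟨m, hm5, hm, hdim, fun N hN hN2 hN0 => ?_⟩
    obtain ⟨c, hc1, hc⟩ := R1_sum h.lie h.irr hset.tr (r := finrank K (LinearMap.range N₀)) (by
      intro N' hN' hN'2 hN'0 hext'
      rcases o4_ext h hB hsym hinv hs hs2 hfull hN' hN'2 hN'0 hext' with ⟨k', hk', -, hdim', -⟩ |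
        ⟨m', -, -, -, hr'⟩
      · rw [hdim] at hdim'
        exact absurd hdim'.symm (R3_binom_pow (by omega))
      · omega) _ N hN hN2 rfl hN0
    have h1 := R1_half hN2
    have hpos : 0 < finrank K (LinearMap.range N₀) := by
      rw [Nat.pos_iff_ne_zero]
      intro h0
      exact hN₀0 (LinearMap.range_eq_bot.mp (Submodule.finrank_eq_zero.mp h0))
    have hc2 : c < 3 := by
      by_contra hcon
      push Not at hcon
      have h3 : 3 * finrank K (LinearMap.range N₀) ≤ c * finrank K (LinearMap.range N₀) :=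
        Nat.mul_le_mul_right _ hcon
      omega
    have : c = 1 ∨ c = 2 := by omega
    rcases this with rfl | rfl
    · left; omega
    · right; omega

end Pool.Agent.H86N
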