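import Pool.Agent.Lib.H86N.DefsF

/-!
# A1: the Lie algebra is spanned by involutions
-/

set_option autoImplicit false
set_option linter.unusedSectionVars false
namespace Pool.Agent.H86N
open Module Pool.Agent.H53Toric Pool.Agent.H49M

variable {K : Type*} [Field K] {V : Type*} [AddCommGroup V] [Module K V]

variable {L : Submodule K (Module.End K V)}

theorem A1_pert [CharZero K] (h : CoreN L) {y N : Module.End K V} (hy : y ∈ L)
    (hy2 : y * y = 1) (hN : N ∈ L) (hNN : N * N = 0) (hyN : y * N = -(N * y)) :
    N ∈ Submodule.span K {y | y ∈ L ∧ y * y = 1} := by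
  have h1 : y ∈ Submodule.span K {y | y ∈ L ∧ y * y = 1} := Submodule.subset_span ⟨hy, hy2⟩
  have h2 : y - N ∈ Submodule.span K {y | y ∈ L ∧ y * y = 1} := by
    refine Submodule.subset_span ⟨L.sub_mem hy hN, ?_⟩
    have e : (y - N) * (y - N) = y * y - y * N - N * y + N * N := by noncomm_ring
    rw [e, hy2, hyN, hNN]
    simp
  have h3 := (Submodule.span K {y | y ∈ L ∧ y * y = 1}).sub_mem h1 h2
  rwa [sub_sub_cancel] at h3

/-- Chunk A1. Let `I` be the span of the involutions `y` of `L`; `I ≤ L`. It is an ideal: for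
`X ∈ L` and an involution `y ∈ L` the elements `N₊ = (1 + y) X (1 - y)` and
`N₋ = (1 - y) X (1 + y)` are in `L` (`IsLie.plus`, `IsLie.minus`), have square zero and
anticommute with `y`, so `y - N₊`, `y - N₋` are involutions of `L` and `N₊, N₋ ∈ I`; and
`X y - y X = (1 / 2) (N₋ - N₊)`. As `s ∈ I` and `s ≠ 0` (`s s = 1`, `V ≠ 0`), `I = L` because
`L` is simple. (Compare `Amb.pert`, `Amb.bracket` in H53Toric.Core10.) -/
theorem A1_span [CharZero K] [Nontrivial V] (h : CoreN L) {s : Module.End K V} (hs : s ∈ L)
    (hs2 : s * s = 1) : L ≤ Submodule.span K {y | y ∈ L ∧ y * y = 1} := by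
  set I := Submodule.span K {y | y ∈ L ∧ y * y = 1} with hI
  have hIL : I ≤ L := Submodule.span_le.2 fun y hy => hy.1
  have hid : ∀ X ∈ L, ∀ Y ∈ I, X * Y - Y * X ∈ I := by
    intro X hX Y hY
    induction hY using Submodule.span_induction with
    | mem y hy =>
      obtain ⟨hy, hy2⟩ := hy
      have p1 : (1 + y) * X * (1 - y) ∈ I := by
        refine A1_pert h hy hy2 (h.lie.plus hy hy2 hX) ?_ ?_
        · calc (1 + y) * X * (1 - y) * ((1 + y) * X * (1 - y)) =
              (1 + y) * X * (1 - y * y) * X * (1 - y) := by noncomm_ring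
            _ = 0 := by rw [hy2, sub_self]; simp
        · have e1 : y * ((1 + y) * X * (1 - y)) = (y + y * y) * X * (1 - y) := by noncomm_ring
          have e2 : (1 + y) * X * (1 - y) * y = (1 + y) * X * (y - y * y) := by noncomm_ring
          rw [e1, e2, hy2]
          noncomm_ring
      have p2 : (1 - y) * X * (1 + y) ∈ I := by
        refine A1_pert h hy hy2 (h.lie.minus hy hy2 hX) ?_ ?_
        · calc (1 - y) * X * (1 + y) * ((1 - y) * X * (1 + y)) =
              (1 - y) * X * (1 - y * y) * X * (1 + y) := by noncomm_ring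
            _ = 0 := by rw [hy2, sub_self]; simp
        · have e1 : y * ((1 - y) * X * (1 + y)) = (y - y * y) * X * (1 + y) := by noncomm_ring
          have e2 : (1 - y) * X * (1 + y) * y = (1 - y) * X * (y + y * y) := by noncomm_ring
          rw [e1, e2, hy2]
          noncomm_ring
      have p3 := I.smul_mem (1 / 2 : K) (I.sub_mem p2 p1)
      have e : (1 - y) * X * (1 + y) - (1 + y) * X * (1 - y) = (2 : K) • (X * y - y * X) := by
        have : (1 - y) * X * (1 + y) - (1 + y) * X * (1 - y) =
            (X * y - y * X) + (X * y - y * X) := by noncomm_ring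
        rw [this, two_smul]
      rw [e, smul_smul] at p3
      norm_num at p3
      exact p3
    | zero => simp
    | add a b _ _ ha hb =>
      have e : X * (a + b) - (a + b) * X = (X * a - a * X) + (X * b - b * X) := by noncomm_ring
      rw [e]
      exact I.add_mem ha hb
    | smul c a _ ha =>
      rw [mul_smul_comm, smul_mul_assoc, ← smul_sub]
      exact I.smul_mem c ha
  rcases h.simple I hIL hid with h0 | h0
  · exfalso
    have h1 : s ∈ I := Submodule.subset_span ⟨hs, hs2⟩
    rw [h0, Submodule.mem_bot] at h1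
    rw [h1, mul_zero] at hs2
    exact zero_ne_one hs2
  · exact h0.ge

theorem A1_setup [CharZero K] [FiniteDimensional K V] [Nontrivial V] (h : CoreN L)
    {s : Module.End K V} (hs : s ∈ L) (hs2 : s * s = 1) : SetupN L where
  lie := h.lie
  irr := h.irr
  tr := h.tr
  span := A1_span h hs hs2

end Pool.Agent.H86N
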