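import Pool.Agent.Lib.H86N.A1

/-!
# A2: the grading given by an involution
-/

set_option autoImplicit false
set_option linter.unusedSectionVars false
namespace Pool.Agent.H86N
open Module Pool.Agent.H53Toric Pool.Agent.H49M

variable {K : Type*} [Field K] {V : Type*} [AddCommGroup V] [Module K V]

variable {L : Submodule K (Module.End K V)}

/-- Chunk A2. `X = (1/4)(1+s)X(1-s) + (1/4)(1-s)X(1+s) + rest`, the first two are in `L` by
`IsLie.plus`, `IsLie.minus`, and the rest `(1/4)(1+s)X(1+s) + (1/4)(1-s)X(1-s)` commutes with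
`s`. -/
theorem A2_decomp [CharZero K] (h : CoreN L) {s : Module.End K V} (hs : s ∈ L)
    (hs2 : s * s = 1) {X : Module.End K V} (hX : X ∈ L) :
    ∃ a ∈ Lp L s, ∃ b ∈ L0 L s, ∃ c ∈ Lm L s, X = a + b + c := by
  have hp := h.lie.plus hs hs2 hX
  have hm := h.lie.minus hs hs2 hX
  have e1 : s * ((1 + s) * X * (1 - s)) = (1 + s) * X * (1 - s) := by
    have : s * ((1 + s) * X * (1 - s)) = (s + s * s) * X * (1 - s) := by noncomm_ring
    rw [this, hs2, add_comm s 1]
  have e2 : (1 + s) * X * (1 - s) * s = -((1 + s) * X * (1 - s)) := by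
    have : (1 + s) * X * (1 - s) * s = (1 + s) * X * (s - s * s) := by noncomm_ring
    rw [this, hs2]; noncomm_ring
  have e3 : s * ((1 - s) * X * (1 + s)) = -((1 - s) * X * (1 + s)) := by
    have : s * ((1 - s) * X * (1 + s)) = (s - s * s) * X * (1 + s) := by noncomm_ring
    rw [this, hs2]; noncomm_ring
  have e4 : (1 - s) * X * (1 + s) * s = (1 - s) * X * (1 + s) := by
    have : (1 - s) * X * (1 + s) * s = (1 - s) * X * (s + s * s) := by noncomm_ring
    rw [this, hs2, add_comm s 1]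
  have ha : (1 / 4 : K) • ((1 + s) * X * (1 - s)) ∈ Lp L s :=
    (Lp L s).smul_mem _ ⟨hp, e1, e2⟩
  have hc : (1 / 4 : K) • ((1 - s) * X * (1 + s)) ∈ Lm L s :=
    (Lm L s).smul_mem _ ⟨hm, e3, e4⟩
  refine ⟨_, ha, X - (1 / 4 : K) • ((1 + s) * X * (1 - s)) -
    (1 / 4 : K) • ((1 - s) * X * (1 + s)), ⟨L.sub_mem (L.sub_mem hX ha.1) hc.1, ?_⟩, _, hc, ?_⟩
  · have e5 : (1 + s) * X * (1 - s) = X - X * s + s * X - s * X * s := by noncomm_ring
    have e6 : (1 - s) * X * (1 + s) = X + X * s - s * X - s * X * s := by noncomm_ring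
    generalize (1 + s) * X * (1 - s) = P at *
    generalize (1 - s) * X * (1 + s) = Q at *
    rw [mul_sub, mul_sub, sub_mul, sub_mul, mul_smul_comm, mul_smul_comm, smul_mul_assoc,
      smul_mul_assoc, e1, e2, e3, e4, e5, e6]
    module
  · abel

/-- `X Y = X (s Y) = (X s) Y = - X Y`. -/
theorem A2_pp [CharZero K] {s X Y : Module.End K V} (hX : X ∈ Lp L s) (hY : Y ∈ Lp L s) :
    X * Y = 0 := by
  have h1 : X * (s * Y) = (X * s) * Y := by rw [mul_assoc]
  rw [hY.2.1, hX.2.2, neg_mul] at h1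
  have h2 : (2 : K) • (X * Y) = 0 := by
    rw [two_smul]
    nth_rw 1 [h1]
    exact neg_add_cancel _
  exact (smul_eq_zero.1 h2).resolve_left (by norm_num)

theorem A2_mm [CharZero K] {s X Y : Module.End K V} (hX : X ∈ Lm L s) (hY : Y ∈ Lm L s) :
    X * Y = 0 := by
  have h1 : X * (s * Y) = (X * s) * Y := by rw [mul_assoc]
  rw [hY.2.1, hX.2.2, mul_neg] at h1
  have h2 : (2 : K) • (X * Y) = 0 := by
    rw [two_smul]
    nth_rw 1 [← h1]
    exact neg_add_cancel _
  exact (smul_eq_zero.1 h2).resolve_left (by norm_num)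

/-- The trace form pairs weight `1` with weight `-1`: if `X` has weight one and
`tr (X Y) = 0` for all `Y` of weight `-1`, then `X = 0`. Proof: for `Z = a + b + c ∈ L`
(`A2_decomp`), `X a = 0`, `tr (X b) = tr (s X b) = tr (X b s) = tr (X s b) = - tr (X b)`, so
`tr (X Z) = tr (X c) = 0`; use `trace_nondeg` of H53Toric.Core1 (the traces vanish by
`(A1_setup ..).tr`). -/
theorem A2_nondeg [CharZero K] [IsAlgClosed K] [FiniteDimensional K V] [Nontrivial V]
    (h : CoreN L) {s : Module.End K V} (hs : s ∈ L) (hs2 : s * s = 1) {X : Module.End K V}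
    (hX : X ∈ Lp L s) (h0 : ∀ Y ∈ Lm L s, LinearMap.trace K V (X * Y) = 0) : X = 0 := by
  apply trace_nondeg h.lie h.irr h.tr hX.1
  intro Z hZ
  obtain ⟨a, ha, b, hb, c, hc, rfl⟩ := A2_decomp h hs hs2 hZ
  rw [mul_add, mul_add, A2_pp hX ha, zero_add, map_add, h0 c hc, add_zero]
  have h1 : LinearMap.trace K V (X * b) = -LinearMap.trace K V (X * b) := by
    calc LinearMap.trace K V (X * b) = LinearMap.trace K V (s * (X * b)) := by
          rw [← mul_assoc, hX.2.1]
      _ = LinearMap.trace K V ((X * b) * s) := LinearMap.trace_mul_comm K s (X * b)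
      _ = LinearMap.trace K V ((X * s) * b) := by rw [mul_assoc, ← hb.2, ← mul_assoc]
      _ = _ := by rw [hX.2.2, neg_mul, map_neg]
  have h2 : (2 : K) * LinearMap.trace K V (X * b) = 0 := by linear_combination h1
  exact (mul_eq_zero.1 h2).resolve_left (by norm_num)

theorem A2_nondeg' [CharZero K] [IsAlgClosed K] [FiniteDimensional K V] [Nontrivial V]
    (h : CoreN L) {s : Module.End K V} (hs : s ∈ L) (hs2 : s * s = 1) {Y : Module.End K V}
    (hY : Y ∈ Lm L s) (h0 : ∀ X ∈ Lp L s, LinearMap.trace K V (X * Y) = 0) : Y = 0 := by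
  apply trace_nondeg h.lie h.irr h.tr hY.1
  intro Z hZ
  obtain ⟨a, ha, b, hb, c, hc, rfl⟩ := A2_decomp h hs hs2 hZ
  have h3 : LinearMap.trace K V (Y * a) = 0 := by
    rw [LinearMap.trace_mul_comm]; exact h0 a ha
  rw [mul_add, mul_add, A2_mm hY hc, add_zero, map_add, h3, zero_add]
  have h1 : LinearMap.trace K V (Y * b) = -LinearMap.trace K V (Y * b) := by
    calc LinearMap.trace K V (Y * b) = LinearMap.trace K V ((Y * s) * b) := by
          rw [hY.2.2]
      _ = LinearMap.trace K V ((Y * b) * s) := by rw [mul_assoc, hb.2, ← mul_assoc]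
      _ = LinearMap.trace K V (s * (Y * b)) := LinearMap.trace_mul_comm K (Y * b) s
      _ = _ := by rw [← mul_assoc, hY.2.1, neg_mul, map_neg]
  have h2 : (2 : K) * LinearMap.trace K V (Y * b) = 0 := by linear_combination h1
  exact (mul_eq_zero.1 h2).resolve_left (by norm_num)

/-- If `Lp L s = 0`, then `Lm L s = 0` by `A2_nondeg'`, hence `L = L0 L s` by `A2_decomp`, so
the range of `1 + s` is stable under `L` and `s = 1` or `s = -1` by irreducibility; but
`tr s = 0` (`(A1_setup ..).tr`) and `V ≠ 0`, characteristic zero. -/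
theorem A2_ne [CharZero K] [IsAlgClosed K] [FiniteDimensional K V] [Nontrivial V]
    (h : CoreN L) {s : Module.End K V} (hs : s ∈ L) (hs2 : s * s = 1) : Lp L s ≠ ⊥ := by
  intro hp
  have hm : ∀ Y ∈ Lm L s, Y = 0 := by
    intro Y hY
    apply A2_nondeg' h hs hs2 hY
    intro X hX
    rw [hp, Submodule.mem_bot] at hX
    rw [hX, zero_mul, map_zero]
  have hcomm : ∀ Z ∈ L, s * Z = Z * s := by
    intro Z hZ
    obtain ⟨a, ha, b, hb, c, hc, rfl⟩ := A2_decomp h hs hs2 hZ
    rw [hp, Submodule.mem_bot] at ha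
    rw [ha, hm c hc, zero_add, add_zero]
    exact hb.2
  have hst := h.irr (LinearMap.range (1 + s)) (by
    rintro X hX _ ⟨v, rfl⟩
    refine ⟨X v, ?_⟩
    have h1 : (1 + s) * X = X * (1 + s) := by rw [add_mul, mul_add, hcomm X hX, one_mul, mul_one]
    exact LinearMap.congr_fun h1 v)
  have htr := h.tr s hs
  have hV : (finrank K V : K) ≠ 0 := by
    exact_mod_cast (finrank_pos (R := K) (M := V)).ne'
  rcases hst with h1 | h1
  · have h2 : s = -1 := by
      rw [LinearMap.range_eq_bot] at h1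
      exact eq_neg_of_add_eq_zero_right h1
    rw [h2, map_neg, LinearMap.trace_one, neg_eq_zero] at htr
    exact hV htr
  · have h2 : s = 1 := by
      ext v
      obtain ⟨w, rfl⟩ := LinearMap.range_eq_top.1 h1 v
      have h3 : s * (1 + s) = 1 * (1 + s) := by rw [mul_add, hs2, one_mul, mul_one, add_comm]
      exact LinearMap.congr_fun h3 w
    rw [h2, LinearMap.trace_one] at htr
    exact hV htr

end Pool.Agent.H86N
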