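import Pool.Agent.Lib.H86N.A2

/-!
# A3: the graded pieces are irreducible
-/

set_option autoImplicit false
set_option linter.unusedSectionVars false
namespace Pool.Agent.H86N
open Module Pool.Agent.H53Toric Pool.Agent.H49M

variable {K : Type*} [Field K] {V : Type*} [AddCommGroup V] [Module K V]

variable {L : Submodule K (Module.End K V)}

theorem A3_pm [CharZero K] (h : CoreN L) {s X Y : Module.End K V} (hX : X ∈ Lp L s)
    (hY : Y ∈ Lm L s) : X * Y - Y * X ∈ L0 L s := by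
  refine ⟨h.lie X hX.1 Y hY.1, ?_⟩
  rw [mul_sub, sub_mul, ← mul_assoc, ← mul_assoc, hX.2.1, hY.2.1, mul_assoc X Y s, hY.2.2,
    mul_assoc Y X s, hX.2.2]
  noncomm_ring

theorem A3_0m (h : CoreN L) {s Z Y : Module.End K V} (hZ : Z ∈ L0 L s)
    (hY : Y ∈ Lm L s) : Z * Y - Y * Z ∈ Lm L s := by
  refine ⟨h.lie Z hZ.1 Y hY.1, ?_, ?_⟩
  · rw [mul_sub, ← mul_assoc, ← mul_assoc, hZ.2, hY.2.1, mul_assoc, hY.2.1]
    noncomm_ring
  · rw [sub_mul, mul_assoc, mul_assoc, ← hZ.2, hY.2.2, ← mul_assoc, hY.2.2]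

theorem A3_0p (h : CoreN L) {s Z X : Module.End K V} (hZ : Z ∈ L0 L s)
    (hX : X ∈ Lp L s) : Z * X - X * Z ∈ Lp L s := by
  refine ⟨h.lie Z hZ.1 X hX.1, ?_, ?_⟩
  · rw [mul_sub, ← mul_assoc, ← mul_assoc, hZ.2, hX.2.1, mul_assoc, hX.2.1]
  · rw [sub_mul, mul_assoc, mul_assoc, ← hZ.2, hX.2.2, ← mul_assoc, hX.2.2]
    noncomm_ring

/-- Chunk A3. Write `[X, Y] = X Y - Y X`. Let `I` be the span of `𝒳`, of all `[X, Y]` and of all
`[[X, Y], Y']` with `X ∈ 𝒳`, `Y, Y' ∈ Lm`. It is an ideal of `L`: by `A2_decomp` it is enough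
to bracket with `Z ∈ Lp, L0, Lm`.
`Z ∈ L0`: Jacobi, `[L0, 𝒳] ⊆ 𝒳`, `[L0, Lm] ⊆ Lm`.
`Z ∈ Lm`: clear, and `[[[X, Y], Y'], Z] = 0` because `[[X,Y],Y'] ∈ Lm` and `Lm Lm = 0`.
`Z ∈ Lp`: `[Z, X] = 0`; `[Z, [X, Y]] = [X, [Z, Y]]` (as `[Z, X] = 0`) and `[Z, Y] ∈ L0`, so this
is in `𝒳`; `[Z, [[X, Y], Y']] = [[Z, [X, Y]], Y'] + [[X, Y], [Z, Y']]`, the first is in
`[𝒳, Lm]`, the second is `[[X,Y],W]`, `W = [Z, Y'] ∈ L0`, which is in `[𝒳, Lm]` by Jacobi.
`I ≠ 0`, so `I = L` by simplicity. Every element of `I` is `x + b + c` with `x ∈ 𝒳`, `b ∈ L0`,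
`c ∈ Lm`; an element `a` of `Lp` of this form equals `x`: apply `T ↦ (1 + s) T (1 - s)`, which is
multiplication by `4` on `Lp` and zero on `L0` and `Lm`. -/
theorem A3_irr [CharZero K] [IsAlgClosed K] [FiniteDimensional K V] [Nontrivial V]
    (h : CoreN L) {s : Module.End K V} (hs : s ∈ L) (hs2 : s * s = 1)
    {X₀ : Submodule K (Module.End K V)} (hle : X₀ ≤ Lp L s) (h0 : X₀ ≠ ⊥)
    (hst : ∀ Z ∈ L0 L s, ∀ X ∈ X₀, Z * X - X * Z ∈ X₀) : X₀ = Lp L s := by
  let S : Set (Module.End K V) := {T | T ∈ X₀ ∨ (∃ X ∈ X₀, ∃ Y ∈ Lm L s, T = X * Y - Y * X) ∨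
    ∃ X ∈ X₀, ∃ Y ∈ Lm L s, ∃ Y' ∈ Lm L s,
      T = (X * Y - Y * X) * Y' - Y' * (X * Y - Y * X)}
  have hS1 : ∀ X ∈ X₀, X ∈ Submodule.span K S := fun X hX =>
    Submodule.subset_span (Or.inl hX)
  have hS2 : ∀ X ∈ X₀, ∀ Y ∈ Lm L s, X * Y - Y * X ∈ Submodule.span K S := fun X hX Y hY =>
    Submodule.subset_span (Or.inr (Or.inl ⟨X, hX, Y, hY, rfl⟩))
  have hS3 : ∀ X ∈ X₀, ∀ Y ∈ Lm L s, ∀ Y' ∈ Lm L s,
      (X * Y - Y * X) * Y' - Y' * (X * Y - Y * X) ∈ Submodule.span K S :=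
    fun X hX Y hY Y' hY' => Submodule.subset_span (Or.inr (Or.inr ⟨X, hX, Y, hY, Y', hY', rfl⟩))
  have hSL : Submodule.span K S ≤ L := by
    refine Submodule.span_le.2 ?_
    rintro T (hT | ⟨X, hX, Y, hY, rfl⟩ | ⟨X, hX, Y, hY, Y', hY', rfl⟩)
    · exact (hle hT).1
    · exact h.lie X (hle hX).1 Y hY.1
    · exact h.lie _ (h.lie X (hle hX).1 Y hY.1) Y' hY'.1
  -- brackets with the three parts
  have b0 : ∀ Z ∈ L0 L s, ∀ T ∈ S, Z * T - T * Z ∈ Submodule.span K S := by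
    rintro Z hZ T (hT | ⟨X, hX, Y, hY, rfl⟩ | ⟨X, hX, Y, hY, Y', hY', rfl⟩)
    · exact hS1 _ (hst Z hZ T hT)
    · have e : Z * (X * Y - Y * X) - (X * Y - Y * X) * Z =
          ((Z * X - X * Z) * Y - Y * (Z * X - X * Z)) +
          (X * (Z * Y - Y * Z) - (Z * Y - Y * Z) * X) := by noncomm_ring
      rw [e]
      exact Submodule.add_mem _ (hS2 _ (hst Z hZ X hX) Y hY) (hS2 X hX _ (A3_0m h hZ hY))
    · have e : Z * ((X * Y - Y * X) * Y' - Y' * (X * Y - Y * X)) -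
          ((X * Y - Y * X) * Y' - Y' * (X * Y - Y * X)) * Z =
          (((Z * X - X * Z) * Y - Y * (Z * X - X * Z)) * Y' -
            Y' * ((Z * X - X * Z) * Y - Y * (Z * X - X * Z))) +
          ((X * (Z * Y - Y * Z) - (Z * Y - Y * Z) * X) * Y' -
            Y' * (X * (Z * Y - Y * Z) - (Z * Y - Y * Z) * X)) +
          ((X * Y - Y * X) * (Z * Y' - Y' * Z) - (Z * Y' - Y' * Z) * (X * Y - Y * X)) := by
        noncomm_ring
      rw [e]
      exact Submodule.add_mem _ (Submodule.add_mem _ (hS3 _ (hst Z hZ X hX) Y hY Y' hY')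
        (hS3 X hX _ (A3_0m h hZ hY) Y' hY')) (hS3 X hX Y hY _ (A3_0m h hZ hY'))
  have bm : ∀ Z ∈ Lm L s, ∀ T ∈ S, Z * T - T * Z ∈ Submodule.span K S := by
    rintro Z hZ T (hT | ⟨X, hX, Y, hY, rfl⟩ | ⟨X, hX, Y, hY, Y', hY', rfl⟩)
    · have := Submodule.neg_mem _ (hS2 T hT Z hZ)
      rwa [neg_sub] at this
    · have := Submodule.neg_mem _ (hS3 X hX Y hY Z hZ)
      rwa [neg_sub] at this
    · have h1 := A3_0m h (A3_pm h (hle hX) hY) hY'
      rw [A2_mm hZ h1, A2_mm h1 hZ, sub_self]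
      exact Submodule.zero_mem _
  have bp : ∀ Z ∈ Lp L s, ∀ T ∈ S, Z * T - T * Z ∈ Submodule.span K S := by
    have key : ∀ Z ∈ Lp L s, ∀ X ∈ X₀, ∀ Y ∈ Lm L s,
        Z * (X * Y - Y * X) - (X * Y - Y * X) * Z =
          -((Z * Y - Y * Z) * X - X * (Z * Y - Y * Z)) := by
      intro Z hZ X hX Y hY
      have e : Z * (X * Y - Y * X) - (X * Y - Y * X) * Z =
          ((Z * X - X * Z) * Y - Y * (Z * X - X * Z)) -
          ((Z * Y - Y * Z) * X - X * (Z * Y - Y * Z)) := by noncomm_ring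
      rw [e, A2_pp hZ (hle hX), A2_pp (hle hX) hZ]
      noncomm_ring
    rintro Z hZ T (hT | ⟨X, hX, Y, hY, rfl⟩ | ⟨X, hX, Y, hY, Y', hY', rfl⟩)
    · rw [A2_pp hZ (hle hT), A2_pp (hle hT) hZ, sub_self]
      exact Submodule.zero_mem _
    · rw [key Z hZ X hX Y hY]
      exact Submodule.neg_mem _ (hS1 _ (hst _ (A3_pm h hZ hY) X hX))
    · have e : Z * ((X * Y - Y * X) * Y' - Y' * (X * Y - Y * X)) -
          ((X * Y - Y * X) * Y' - Y' * (X * Y - Y * X)) * Z =
          ((Z * (X * Y - Y * X) - (X * Y - Y * X) * Z) * Y' -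
            Y' * (Z * (X * Y - Y * X) - (X * Y - Y * X) * Z)) -
          (((Z * Y' - Y' * Z) * X - X * (Z * Y' - Y' * Z)) * Y -
            Y * ((Z * Y' - Y' * Z) * X - X * (Z * Y' - Y' * Z))) -
          (X * ((Z * Y' - Y' * Z) * Y - Y * (Z * Y' - Y' * Z)) -
            ((Z * Y' - Y' * Z) * Y - Y * (Z * Y' - Y' * Z)) * X) := by noncomm_ring
      rw [e, key Z hZ X hX Y hY]
      have hW := A3_pm h hZ hY'
      have e2 : -((Z * Y - Y * Z) * X - X * (Z * Y - Y * Z)) * Y' -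
          Y' * -((Z * Y - Y * Z) * X - X * (Z * Y - Y * Z)) =
          -(((Z * Y - Y * Z) * X - X * (Z * Y - Y * Z)) * Y' -
          Y' * ((Z * Y - Y * Z) * X - X * (Z * Y - Y * Z))) := by noncomm_ring
      rw [e2]
      exact Submodule.sub_mem _ (Submodule.sub_mem _ (Submodule.neg_mem _
        (hS2 _ (hst _ (A3_pm h hZ hY) X hX) Y' hY')) (hS2 _ (hst _ hW X hX) Y hY))
        (hS2 X hX _ (A3_0m h hW hY))
  have hid : ∀ Z ∈ L, ∀ T ∈ Submodule.span K S, Z * T - T * Z ∈ Submodule.span K S := by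
    intro Z hZ T hT
    obtain ⟨a, ha, b, hb, c, hc, rfl⟩ := A2_decomp h hs hs2 hZ
    induction hT using Submodule.span_induction with
    | mem T hT =>
      have e : (a + b + c) * T - T * (a + b + c) = (a * T - T * a) + (b * T - T * b) +
          (c * T - T * c) := by noncomm_ring
      rw [e]
      exact Submodule.add_mem _ (Submodule.add_mem _ (bp a ha T hT) (b0 b hb T hT))
        (bm c hc T hT)
    | zero => simp
    | add x y _ _ hx hy =>
      have e : (a + b + c) * (x + y) - (x + y) * (a + b + c) =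
          ((a + b + c) * x - x * (a + b + c)) + ((a + b + c) * y - y * (a + b + c)) := by
        noncomm_ring
      rw [e]
      exact Submodule.add_mem _ hx hy
    | smul r x _ hx =>
      rw [mul_smul_comm, smul_mul_assoc, ← smul_sub]
      exact Submodule.smul_mem _ r hx
  have hL : L ≤ Submodule.span K S := by
    rcases h.simple _ hSL hid with h1 | h1
    · exfalso
      apply h0
      rw [eq_bot_iff, ← h1]
      exact hS1
    · exact h1.ge
  have hφ : ∀ T ∈ Submodule.span K S, (1 + s) * T * (1 - s) ∈ X₀ := by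
    intro T hT
    induction hT using Submodule.span_induction with
    | mem T hT =>
      rcases hT with hT | ⟨X, hX, Y, hY, rfl⟩ | ⟨X, hX, Y, hY, Y', hY', rfl⟩
      · have e : (1 + s) * T * (1 - s) = (4 : K) • T := by
          have : (1 + s) * T * (1 - s) = T + s * T - T * s - (s * T) * s := by noncomm_ring
          rw [this, (hle hT).2.1, (hle hT).2.2]
          module
        rw [e]
        exact X₀.smul_mem _ hT
      · have h1 := A3_pm h (hle hX) hY
        have e : (1 + s) * (X * Y - Y * X) * (1 - s) = 0 := by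
          generalize X * Y - Y * X = Z at h1
          have : (1 + s) * Z * (1 - s) = Z - Z * s + s * Z - (s * Z) * s := by noncomm_ring
          rw [this, h1.2, mul_assoc, hs2]
          noncomm_ring
        rw [e]
        exact X₀.zero_mem
      · have h1 := A3_0m h (A3_pm h (hle hX) hY) hY'
        have e : (1 + s) * ((X * Y - Y * X) * Y' - Y' * (X * Y - Y * X)) * (1 - s) = 0 := by
          generalize (X * Y - Y * X) * Y' - Y' * (X * Y - Y * X) = Z at h1
          have : (1 + s) * Z * (1 - s) = (Z + s * Z) * (1 - s) := by noncomm_ring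
          rw [this, h1.2.1]
          simp
        rw [e]
        exact X₀.zero_mem
    | zero => simp
    | add x y _ _ hx hy =>
      rw [mul_add, add_mul]
      exact X₀.add_mem hx hy
    | smul r x _ hx =>
      rw [mul_smul_comm, smul_mul_assoc]
      exact X₀.smul_mem r hx
  apply le_antisymm hle
  intro a ha
  have h1 := hφ a (hL ha.1)
  have e : (1 + s) * a * (1 - s) = (4 : K) • a := by
    have : (1 + s) * a * (1 - s) = a + s * a - a * s - (s * a) * s := by noncomm_ring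
    rw [this, ha.2.1, ha.2.2]
    module
  rw [e] at h1
  have h2 := X₀.smul_mem (1 / 4 : K) h1
  rw [smul_smul] at h2
  norm_num at h2
  exact h2

/-- The same for the negative part: apply `A3_irr` to the involution `-s`;
`Lp L (-s) = Lm L s` and `L0 L (-s) = L0 L s`. -/
theorem A3_irr' [CharZero K] [IsAlgClosed K] [FiniteDimensional K V] [Nontrivial V]
    (h : CoreN L) {s : Module.End K V} (hs : s ∈ L) (hs2 : s * s = 1)
    {X₀ : Submodule K (Module.End K V)} (hle : X₀ ≤ Lm L s) (h0 : X₀ ≠ ⊥)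
    (hst : ∀ Z ∈ L0 L s, ∀ X ∈ X₀, Z * X - X * Z ∈ X₀) : X₀ = Lm L s := by
  have hp : Lp L (-s) = Lm L s := by
    ext X
    rw [mem_Lp, mem_Lm, neg_mul, mul_neg, neg_eq_iff_eq_neg, neg_inj]
  have h00 : L0 L (-s) = L0 L s := by
    ext X
    rw [mem_L0, mem_L0, neg_mul, mul_neg, neg_inj]
  have := A3_irr h (L.neg_mem hs) (s := -s) (by rw [neg_mul_neg, hs2]) (X₀ := X₀)
    (by rw [hp]; exact hle) h0 (by rw [h00]; exact hst)
  rw [this, hp]

end Pool.Agent.H86N
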