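import Pool.Agent.Lib.H86N.Base

/-! Chunk AN: the analytic case. -/

open Filter Topology Asymptotics
open scoped ContDiff

namespace H86N

/-- all homogeneous parts of the power series of a flat function vanish -/
lemma an_coeff {F : ℝ × ℝ → ℝ} {p : FormalMultilinearSeries ℝ (ℝ × ℝ) ℝ}
    (hp : HasFPowerSeriesAt F p 0) (h : Flat F) (n : ℕ) :
    ∀ y : ℝ × ℝ, (p n fun _ => y) = 0 := by
  induction n using Nat.strong_induction_on with
  | _ n ih =>
    have h1 := hp.isBigO_sub_partialSum_pow (n + 1)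
    have h2 : (fun y : ℝ × ℝ => p.partialSum (n + 1) y) = fun y => p n fun _ => y := by
      funext y
      rw [FormalMultilinearSeries.partialSum, Finset.sum_range_succ,
        Finset.sum_eq_zero fun k hk => ih k (Finset.mem_range.1 hk) y, zero_add]
    have h3 := h (n + 1)
    have h4 : (fun y : ℝ × ℝ => F y - (F (0 + y) - p.partialSum (n + 1) y))
        =O[𝓝 0] fun y => ‖y‖ ^ (n + 1) := h3.sub h1
    have h5 : (fun y : ℝ × ℝ => F y - (F (0 + y) - p.partialSum (n + 1) y))
        = fun y => p n fun _ => y := by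
      rw [← h2]
      funext y
      rw [zero_add]; ring
    rw [h5] at h4
    exact h4.continuousMultilinearMap_apply_eq_zero

/-- A function analytic at `0` and flat at `0` vanishes near `0`. (E.g. take a ball on which `F` is
analytic; for `z` in the ball `t ↦ F (t z)` is analytic near `[0,1]` and flat at `t = 0`, so its order
at `0` is infinite, it vanishes near `t = 0` and, by the identity theorem, at `t = 1`.) -/
theorem analytic_flat {F : ℝ × ℝ → ℝ} (hF : AnalyticAt ℝ F 0) (h : Flat F) :
    ∀ᶠ z in 𝓝 (0 : ℝ × ℝ), F z = 0 := by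
  obtain ⟨p, hp⟩ := hF
  have hz := an_coeff hp h
  filter_upwards [hp.eventually_hasSum] with y hy
  have h0 : (fun n : ℕ => p n fun _ : Fin n => y) = fun _ => 0 := funext fun n => hz n y
  rw [h0, zero_add] at hy
  exact hy.unique hasSum_zero

theorem analytic_dy {F : ℝ × ℝ → ℝ} (hF : AnalyticAt ℝ F 0) : AnalyticAt ℝ (dy F) 0 := by
  have h1 : AnalyticAt ℝ (fderiv ℝ F) 0 := hF.fderiv
  exact ((ContinuousLinearMap.apply ℝ ℝ ((0 : ℝ), (1 : ℝ))).analyticAt _).comp h1

theorem analytic_smooth {F : ℝ × ℝ → ℝ} (hF : AnalyticAt ℝ F 0) : SmoothNear F := by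
  obtain ⟨U, hU, hUo, h0⟩ := eventually_nhds_iff.1 hF.eventually_analyticAt
  exact ⟨U, hUo, h0, fun z hz => (hU z hz).contDiffAt.contDiffWithinAt⟩

end H86N
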