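import Pool.Agent.Lib.H86N.Base

/-! Chunk FLATD: derivatives and pullbacks of flat functions are flat. -/

open Filter Topology Asymptotics
open scoped ContDiff

namespace H86N

/-- Taylor estimate with a Lipschitz derivative on a ball -/
theorem flatd_taylor {E : Type} [NormedAddCommGroup E] [NormedSpace ℝ E] {F : E → ℝ}
    (hF : ContDiff ℝ ∞ F) (v : E) : ∃ K : ℝ, 0 ≤ K ∧ ∃ r : ℝ, 0 < r ∧ ∀ z : E, ∀ h : ℝ, 0 ≤ h → ‖z‖ < r →
      h * ‖v‖ < r → |F (z + h • v) - F z - h * fderiv ℝ F z v| ≤ K * h ^ 2 := by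
  have hG : ContDiff ℝ ∞ (fun z => fderiv ℝ F z v) :=
    (hF.fderiv_right (m := ∞) (by simp)).clm_apply contDiff_const
  obtain ⟨K, s, hs, hK⟩ := (hG.contDiffAt (x := (0 : E)).of_le (m := 1) (by simp)).exists_lipschitzOnWith
  obtain ⟨r, hr, hrs⟩ := Metric.mem_nhds_iff.1 hs
  refine ⟨K * ‖v‖, by positivity, r / 2, by positivity, ?_⟩
  intro z h hh hz hv
  have hd : ∀ t ∈ Set.Icc (0 : ℝ) h, HasDerivWithinAt (fun t => F (z + t • v) - t * fderiv ℝ F z v)
      (fderiv ℝ F (z + t • v) v - fderiv ℝ F z v) (Set.Icc (0 : ℝ) h) t := by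
    intro t _
    have e1 : HasDerivAt (fun t : ℝ => z + t • v) v t := by
      have := ((hasDerivAt_id t).smul_const v).const_add z
      simpa using this
    have e2 : HasDerivAt (fun t : ℝ => F (z + t • v)) (fderiv ℝ F (z + t • v) v) t :=
      ((hF.differentiable (by simp)) (z + t • v)).hasFDerivAt.comp_hasDerivAt t e1
    have e3 : HasDerivAt (fun t : ℝ => t * fderiv ℝ F z v) (fderiv ℝ F z v) t := by
      have := (hasDerivAt_id t).mul_const (fderiv ℝ F z v)
      simpa using this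
    exact (e2.sub e3).hasDerivWithinAt
  have hb : ∀ t ∈ Set.Ico (0 : ℝ) h, ‖fderiv ℝ F (z + t • v) v - fderiv ℝ F z v‖ ≤ K * (‖v‖ * h) := by
    intro t ht
    have e0 : ‖t • v‖ ≤ h * ‖v‖ := by
      rw [norm_smul, Real.norm_of_nonneg ht.1]
      exact mul_le_mul_of_nonneg_right ht.2.le (norm_nonneg _)
    have e1 : z + t • v ∈ s := by
      apply hrs
      rw [Metric.mem_ball, dist_zero_right]
      calc ‖z + t • v‖ ≤ ‖z‖ + ‖t • v‖ := norm_add_le _ _
        _ < r / 2 + r / 2 := by linarith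
        _ = r := by ring
    have e2 : z ∈ s := by
      apply hrs
      rw [Metric.mem_ball, dist_zero_right]
      linarith
    have e3 := hK.norm_sub_le e1 e2
    refine e3.trans ?_
    have e4 : z + t • v - z = t • v := by abel
    rw [e4]
    have e5 : ‖t • v‖ ≤ ‖v‖ * h := by rw [mul_comm]; exact e0
    exact mul_le_mul_of_nonneg_left e5 K.2
  have hm := norm_image_sub_le_of_norm_deriv_le_segment' hd hb h (Set.right_mem_Icc.2 hh)
  have e6 : F (z + h • v) - h * fderiv ℝ F z v - (F (z + (0 : ℝ) • v) - 0 * fderiv ℝ F z v)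
      = F (z + h • v) - F z - h * fderiv ℝ F z v := by
    rw [zero_smul, add_zero]; ring
  rw [e6, Real.norm_eq_abs] at hm
  refine hm.trans (le_of_eq ?_)
  ring

theorem flatd_zero {E : Type} [NormedAddCommGroup E] [NormedSpace ℝ E] {F : E → ℝ}
    (h : ∀ n : ℕ, F =O[𝓝 0] fun z => ‖z‖ ^ n) : F 0 = 0 ∧ fderiv ℝ F 0 = 0 := by
  have hF0 : F 0 = 0 := by
    obtain ⟨C, hC⟩ := (h 1).bound
    have := hC.self_of_nhds
    simp only [norm_zero, pow_one, mul_zero] at this
    exact norm_le_zero_iff.1 this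
  refine ⟨hF0, ?_⟩
  have h1 : F =o[𝓝 0] (id : E → E) := (h 2).trans_isLittleO (isLittleO_norm_pow_id one_lt_two)
  have h2 : HasFDerivAt F (0 : E →L[ℝ] ℝ) 0 := by
    rw [hasFDerivAt_iff_isLittleO]
    refine h1.congr (fun x => ?_) (fun x => ?_)
    · rw [hF0]; simp
    · simp
  exact h2.fderiv

/-- General Landau argument: `F` smooth, `F = O(‖z‖^n)` for all `n`, then also `fderiv F z v`.
Proof: near `0` the second derivative along `v` is bounded by `C`, so
`|F(z + h v) - F(z) - h DF(z)v| ≤ C h²` for `z, h` small. Take `h = ‖z‖^n` (for `z = 0` the claim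
for `n ≥ 1` says that the derivative vanishes, use a limit or `h` arbitrary):
`|DF(z) v| ≤ (|F(z+hv)| + |F z|)/h + C h = O(‖z‖^(2n)/‖z‖^n) + O(‖z‖^n)`. -/
theorem flat_fderiv {E : Type} [NormedAddCommGroup E] [NormedSpace ℝ E] {F : E → ℝ}
    (hF : ContDiff ℝ ∞ F) (h : ∀ n : ℕ, F =O[𝓝 0] fun z => ‖z‖ ^ n) (v : E) (n : ℕ) :
    (fun z => fderiv ℝ F z v) =O[𝓝 0] fun z => ‖z‖ ^ n := by
  -- it is enough to treat `n + 1`
  have key : ∀ n : ℕ, (fun z => fderiv ℝ F z v) =O[𝓝 0] fun z => ‖z‖ ^ (n + 1) := by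
    intro n
    obtain ⟨K, hK0, r, hr, hK⟩ := flatd_taylor hF v
    obtain ⟨C, hC0, hC⟩ := (h (2 * (n + 1))).exists_pos
    obtain ⟨s, hs, hCs⟩ := Metric.eventually_nhds_iff.1 (isBigOWith_iff.1 hC)
    set a : ℝ := 1 + ‖v‖ with ha
    have ha1 : 1 ≤ a := by rw [ha]; linarith [norm_nonneg v]
    have ha0 : 0 < a := by linarith
    rw [isBigO_iff]
    refine ⟨C * a ^ (2 * (n + 1)) + C + K, ?_⟩
    have hρ : 0 < min (min (r / a) (s / a)) 1 := by positivity
    rw [Metric.eventually_nhds_iff]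
    refine ⟨min (min (r / a) (s / a)) 1, hρ, ?_⟩
    intro z hz
    rw [dist_zero_right] at hz
    have hz1 : ‖z‖ < r / a := lt_of_lt_of_le hz ((min_le_left _ _).trans (min_le_left _ _))
    have hz2 : ‖z‖ < s / a := lt_of_lt_of_le hz ((min_le_left _ _).trans (min_le_right _ _))
    have hz3 : ‖z‖ < 1 := lt_of_lt_of_le hz (min_le_right _ _)
    rw [lt_div_iff₀ ha0] at hz1 hz2
    have hza : ‖z‖ ≤ ‖z‖ * a := by nlinarith [norm_nonneg z]
    by_cases hz0 : z = 0
    · subst hz0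
      rw [(flatd_zero h).2]
      simp
    · have hzp : 0 < ‖z‖ := norm_pos_iff.2 hz0
      set t : ℝ := ‖z‖ ^ (n + 1) with ht
      have ht0 : 0 < t := by positivity
      have htz : t ≤ ‖z‖ := by
        rw [ht]
        calc ‖z‖ ^ (n + 1) ≤ ‖z‖ ^ 1 := pow_le_pow_of_le_one (norm_nonneg _) hz3.le (by omega)
          _ = ‖z‖ := pow_one _
      have htv : t * ‖v‖ ≤ ‖z‖ * ‖v‖ := mul_le_mul_of_nonneg_right htz (norm_nonneg _)
      have hzv : ‖z‖ * ‖v‖ ≤ ‖z‖ * a := mul_le_mul_of_nonneg_left (by rw [ha]; linarith) (norm_nonneg _)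
      have h1 := hK z t ht0.le (by linarith) (by linarith)
      have h2 : t * |fderiv ℝ F z v| ≤ |F (z + t • v)| + |F z| + K * t ^ 2 := by
        have e : t * fderiv ℝ F z v = F (z + t • v) - F z - (F (z + t • v) - F z - t * fderiv ℝ F z v) := by
          ring
        have h2 : |t * fderiv ℝ F z v| ≤ |F (z + t • v)| + |F z| + K * t ^ 2 := by
          rw [e]
          calc |F (z + t • v) - F z - (F (z + t • v) - F z - t * fderiv ℝ F z v)|
              ≤ |F (z + t • v) - F z| + |F (z + t • v) - F z - t * fderiv ℝ F z v| := abs_sub _ _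
            _ ≤ (|F (z + t • v)| + |F z|) + K * t ^ 2 := add_le_add (abs_sub _ _) h1
        rwa [abs_mul, abs_of_pos ht0] at h2
      have h3 : ‖z + t • v‖ ≤ a * ‖z‖ := by
        calc ‖z + t • v‖ ≤ ‖z‖ + ‖t • v‖ := norm_add_le _ _
          _ = ‖z‖ + t * ‖v‖ := by rw [norm_smul, Real.norm_of_nonneg ht0.le]
          _ ≤ ‖z‖ + ‖z‖ * ‖v‖ := by linarith
          _ = a * ‖z‖ := by rw [ha]; ring
      have h4 : |F (z + t • v)| ≤ C * (a ^ (2 * (n + 1)) * t ^ 2) := by
        have h5 := hCs (y := z + t • v) (by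
          rw [dist_zero_right]
          calc ‖z + t • v‖ ≤ a * ‖z‖ := h3
            _ = ‖z‖ * a := by ring
            _ < s := hz2)
        rw [Real.norm_eq_abs, norm_pow, norm_norm] at h5
        refine h5.trans (mul_le_mul_of_nonneg_left ?_ hC0.le)
        calc ‖z + t • v‖ ^ (2 * (n + 1)) ≤ (a * ‖z‖) ^ (2 * (n + 1)) :=
              pow_le_pow_left₀ (norm_nonneg _) h3 _
          _ = a ^ (2 * (n + 1)) * t ^ 2 := by rw [mul_pow, ht, ← pow_mul, mul_comm (n + 1) 2]
      have h6 : |F z| ≤ C * t ^ 2 := by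
        have h5 := hCs (y := z) (by rw [dist_zero_right]; linarith)
        rw [Real.norm_eq_abs, norm_pow, norm_norm] at h5
        refine h5.trans (le_of_eq ?_)
        rw [ht, ← pow_mul, mul_comm (n + 1) 2]
      have h7 : t * |fderiv ℝ F z v| ≤ t * ((C * a ^ (2 * (n + 1)) + C + K) * t) := by
        calc t * |fderiv ℝ F z v| ≤ C * (a ^ (2 * (n + 1)) * t ^ 2) + C * t ^ 2 + K * t ^ 2 := by linarith
          _ = t * ((C * a ^ (2 * (n + 1)) + C + K) * t) := by ring
      have h8 := le_of_mul_le_mul_left h7 ht0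
      rw [Real.norm_eq_abs, norm_pow, norm_norm]
      exact h8
  rcases Nat.eq_zero_or_pos n with rfl | hn
  · refine (key 0).trans ?_
    rw [isBigO_iff]
    refine ⟨1, ?_⟩
    filter_upwards [Metric.ball_mem_nhds (0 : E) one_pos] with z hz
    rw [Metric.mem_ball, dist_zero_right] at hz
    simpa using hz.le
  · obtain ⟨m, rfl⟩ : ∃ m, n = m + 1 := ⟨n - 1, by omega⟩
    exact key m

theorem flat_dx {F : ℝ × ℝ → ℝ} (hF : Sm F) (h : Flat F) : Flat (dx F) := fun n =>
  flat_fderiv hF h (1, 0) n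

theorem flat_dy {F : ℝ × ℝ → ℝ} (hF : Sm F) (h : Flat F) : Flat (dy F) := fun n =>
  flat_fderiv hF h (0, 1) n

theorem flat1_deriv {φ : ℝ → ℝ} (hφ : Sm1 φ) (h : Flat1 φ) : Flat1 (deriv φ) := by
  intro n
  have h1 : ∀ n : ℕ, φ =O[𝓝 0] fun z => ‖z‖ ^ n := fun n =>
    (h n).trans (IsBigO.of_bound 1 (Eventually.of_forall fun t => by simp))
  have h2 := flat_fderiv hφ h1 1 n
  have h3 : (fun z => fderiv ℝ φ z 1) = deriv φ := by
    funext z; simp
  rw [h3] at h2
  exact h2.trans (IsBigO.of_bound 1 (Eventually.of_forall fun t => by simp))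

/-- pullback by a smooth map fixing `0` (`‖(a z, b z)‖ = O(‖z‖)`) -/
theorem flat_comp {F a b : ℝ × ℝ → ℝ} (h : Flat F) (ha : Sm a) (hb : Sm b) (ha0 : a 0 = 0)
    (hb0 : b 0 = 0) : Flat (fun z => F (a z, b z)) := by
  intro n
  have hm : ContDiff ℝ ∞ (fun z : ℝ × ℝ => (a z, b z)) := ha.prodMk hb
  have ht : Tendsto (fun z : ℝ × ℝ => (a z, b z)) (𝓝 0) (𝓝 (0 : ℝ × ℝ)) := by
    have := hm.continuous.tendsto 0
    rw [ha0, hb0] at this
    exact this
  have h1 := (h n).comp_tendsto ht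
  refine h1.trans ?_
  have h2 : (fun z : ℝ × ℝ => (a z, b z)) =O[𝓝 0] fun z => z := by
    have hd : DifferentiableAt ℝ (fun z : ℝ × ℝ => (a z, b z)) 0 := (hm.differentiable (by simp)) 0
    have h3 := hd.isBigO_sub
    simpa [ha0, hb0] using h3
  have h3 := h2.norm_norm.pow n
  exact h3

/-- product with a continuous function -/
theorem flat_mul {F G : ℝ × ℝ → ℝ} (h : Flat F) (hG : Continuous G) :
    Flat (fun z => G z * F z) := by
  intro n
  have h1 : G =O[𝓝 0] fun _ => (1 : ℝ) := (hG.tendsto 0).isBigO_one ℝ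
  have h2 := h1.mul (h n)
  simpa using h2

end H86N
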