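import Pool.Agent.Lib.H86N.Ext

/-! Chunk INV: local inverses and implicit functions with global smooth representatives. -/

open Filter Topology
open scoped ContDiff

namespace H86N

/-- the linear map `(a,b) ↦ (a, c a + d b)` -/
noncomputable def invL (c d : ℝ) : (ℝ × ℝ) →L[ℝ] (ℝ × ℝ) :=
  (ContinuousLinearMap.fst ℝ ℝ ℝ).prod
    (c • ContinuousLinearMap.fst ℝ ℝ ℝ + d • ContinuousLinearMap.snd ℝ ℝ ℝ)

lemma invL_apply (c d : ℝ) (v : ℝ × ℝ) : invL c d v = (v.1, c * v.1 + d * v.2) := by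
  simp [invL]

/-- `invL` as an equivalence -/
noncomputable def invE (c d : ℝ) (hd : d ≠ 0) : (ℝ × ℝ) ≃L[ℝ] (ℝ × ℝ) :=
  ContinuousLinearEquiv.equivOfInverse (invL c d) (invL (-c / d) (1 / d))
    (by
      intro v
      rw [invL_apply, invL_apply]
      ext
      · rfl
      · simp only
        field_simp
        ring)
    (by
      intro v
      rw [invL_apply, invL_apply]
      ext
      · rfl
      · simp only
        field_simp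
        ring)

lemma inv_hasFDerivAt {G : ℝ × ℝ → ℝ} (hG : Sm G) (z : ℝ × ℝ) (hd : dy G z ≠ 0) :
    HasFDerivAt (fun w : ℝ × ℝ => (w.1, G w)) (invE (dx G z) (dy G z) hd : (ℝ × ℝ) →L[ℝ] (ℝ × ℝ))
      z := by
  have h1 : HasFDerivAt (fun w : ℝ × ℝ => (w.1, G w))
      ((ContinuousLinearMap.fst ℝ ℝ ℝ).prod (fderiv ℝ G z)) z :=
    hasFDerivAt_fst.prodMk (hG.diffAt z).hasFDerivAt
  refine h1.congr_fderiv ?_
  refine ContinuousLinearMap.ext fun v => ?_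
  have : (invE (dx G z) (dy G z) hd : (ℝ × ℝ) →L[ℝ] (ℝ × ℝ)) v = invL (dx G z) (dy G z) v := rfl
  rw [this, invL_apply]
  simp [fderiv_apply_eq G z v]

/-- Apply the inverse function theorem to `Ψ(x,y) = (x, G(x,y))` at `0`. -/
theorem inv_y {G : ℝ × ℝ → ℝ} (hG : Sm G) (h0 : G 0 = 0) (h1 : dy G 0 ≠ 0) :
    ∃ Y : ℝ × ℝ → ℝ, Sm Y ∧ Y 0 = 0 ∧ (∀ᶠ z in 𝓝 (0 : ℝ × ℝ), G (z.1, Y z) = z.2) ∧
      (∀ᶠ z in 𝓝 (0 : ℝ × ℝ), Y (z.1, G z) = z.2) := by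
  have hΨ : ContDiff ℝ ∞ (fun w : ℝ × ℝ => (w.1, G w)) := contDiff_fst.prodMk hG
  set Φ := (hΨ.contDiffAt (x := 0)).toOpenPartialHomeomorph _ (inv_hasFDerivAt hG 0 h1) (by simp)
    with hΦ
  have hcoe : ∀ w, Φ w = (w.1, G w) := fun w => rfl
  have hsrc : (0 : ℝ × ℝ) ∈ Φ.source :=
    ContDiffAt.mem_toOpenPartialHomeomorph_source _ _ _
  have hΦ0 : Φ 0 = 0 := by rw [hcoe, h0]; rfl
  have htgt : (0 : ℝ × ℝ) ∈ Φ.target := by
    have := Φ.map_source hsrc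
    rwa [hΦ0] at this
  have hS0 : Φ.symm 0 = 0 := by
    have := Φ.left_inv hsrc
    rwa [hΦ0] at this
  have hopen : IsOpen {w : ℝ × ℝ | dy G w ≠ 0} := isOpen_ne_fun hG.dy.continuous continuous_const
  have hUo : IsOpen (Φ.target ∩ Φ.symm ⁻¹' {w : ℝ × ℝ | dy G w ≠ 0}) :=
    Φ.isOpen_inter_preimage_symm hopen
  have hU0 : (0 : ℝ × ℝ) ∈ Φ.target ∩ Φ.symm ⁻¹' {w : ℝ × ℝ | dy G w ≠ 0} := by
    refine ⟨htgt, ?_⟩
    simp only [Set.mem_preimage, Set.mem_ofPred_eq, hS0]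
    exact h1
  have hsm : SmoothNear (fun w => (Φ.symm w).2) := by
    refine ⟨_, hUo, hU0, ?_⟩
    intro w hw
    have hd : HasFDerivAt Φ
        (invE (dx G (Φ.symm w)) (dy G (Φ.symm w)) hw.2 : (ℝ × ℝ) →L[ℝ] (ℝ × ℝ)) (Φ.symm w) :=
      inv_hasFDerivAt hG _ hw.2
    have h2 : ContDiffAt ℝ ∞ Φ.symm w := Φ.contDiffAt_symm hw.1 hd hΨ.contDiffAt
    exact (contDiffAt_snd.comp w h2).contDiffWithinAt
  obtain ⟨Y, hY, hYe⟩ := exists_sm_ext hsm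
  refine ⟨Y, hY, ?_, ?_, ?_⟩
  · rw [hYe.self_of_nhds, hS0]; rfl
  · filter_upwards [hYe, Φ.open_target.mem_nhds htgt] with z hz hzt
    have h3 := Φ.right_inv hzt
    rw [hcoe] at h3
    obtain ⟨h4, h5⟩ := Prod.ext_iff.1 h3
    simp only at h4 h5
    rw [hz, ← h4]
    exact h5
  · have h6 := ev_comp2 (a := fun z => z.1) (b := G) hYe continuous_fst hG.continuous rfl h0
    filter_upwards [h6, Φ.open_source.mem_nhds hsrc] with z hz hzs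
    rw [hz]
    have h3 := Φ.left_inv hzs
    rw [hcoe] at h3
    rw [h3]

/-- from `inv_y` by swapping the coordinates -/
theorem inv_x {G : ℝ × ℝ → ℝ} (hG : Sm G) (h0 : G 0 = 0) (h1 : dx G 0 ≠ 0) :
    ∃ X : ℝ × ℝ → ℝ, Sm X ∧ X 0 = 0 ∧ (∀ᶠ z in 𝓝 (0 : ℝ × ℝ), G (X z, z.2) = z.1) ∧
      (∀ᶠ z in 𝓝 (0 : ℝ × ℝ), X (G z, z.2) = z.1) := by
  have hG' : Sm (fun z : ℝ × ℝ => G (z.2, z.1)) := hG.comp2 sm_snd sm_fst
  have hd : dy (fun z : ℝ × ℝ => G (z.2, z.1)) 0 = dx G 0 := by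
    rw [dy_comp2 hG sm_snd sm_fst, dy_fst, dy_snd]
    simp only [mul_one, mul_zero, add_zero]
    rfl
  obtain ⟨Y, hY, hY0, hY1, hY2⟩ := inv_y hG' h0 (by rw [hd]; exact h1)
  refine ⟨fun z => Y (z.2, z.1), hY.comp2 sm_snd sm_fst, hY0, ?_, ?_⟩
  · exact ev_comp2 (a := fun z => z.2) (b := fun z => z.1) hY1 continuous_snd continuous_fst rfl rfl
  · exact ev_comp2 (a := fun z => z.2) (b := fun z => z.1) hY2 continuous_snd continuous_fst rfl rfl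

/-- `ρ x = Y (x, 0)` -/
theorem imp_fun {G : ℝ × ℝ → ℝ} (hG : Sm G) (h0 : G 0 = 0) (h1 : dy G 0 ≠ 0) :
    ∃ ρ : ℝ → ℝ, Sm1 ρ ∧ ρ 0 = 0 ∧ ∀ᶠ x in 𝓝 (0 : ℝ), G (x, ρ x) = 0 := by
  obtain ⟨Y, hY, hY0, hY1, -⟩ := inv_y hG h0 h1
  refine ⟨fun x => Y (x, 0), hY.curve contDiff_id contDiff_const, hY0, ?_⟩
  exact ev_curve hY1 continuous_id continuous_const rfl rfl

end H86N
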