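import Pool.Agent.Lib.H86N.Base

/-! Chunk LEADD: derivatives at `0` of a function with a leading term. -/

open Filter Topology Asymptotics
open scoped ContDiff

namespace H86N

/-- the derivative of a leading term, explicit form -/
theorem leadd_aux {b : ℝ → ℝ} {J : ℕ} {ψ : ℝ → ℝ} (h : Lead b J ψ) (hJ : 1 ≤ J) :
    Lead (deriv b) (J - 1) (fun t => J * ψ t + t * deriv ψ t) := by
  obtain ⟨h1, h2, h3⟩ := h
  refine ⟨?_, ?_, ?_⟩
  · exact (contDiff_const.mul h1).add (contDiff_id.mul h1.deriv)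
  · have hJ' : J ≠ 0 := by omega
    simpa using ⟨hJ', h2⟩
  · have h4 : b =ᶠ[𝓝 0] fun t => t ^ J * ψ t := h3
    filter_upwards [h4.deriv] with t ht
    rw [ht]
    have h5 : HasDerivAt (fun t => t ^ J * ψ t) ((J : ℝ) * t ^ (J - 1) * ψ t + t ^ J * deriv ψ t) t :=
      (hasDerivAt_pow J t).mul (h1.diffAt t).hasDerivAt
    rw [h5.deriv]
    obtain ⟨j, rfl⟩ : ∃ j, J = j + 1 := ⟨J - 1, by omega⟩
    simp only [Nat.add_sub_cancel, pow_succ]
    ring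

/-- a leading term with `J ≥ 1`: `b' = t^(J-1) ψ₁`, `ψ₁(0) ≠ 0` -/
theorem lead_deriv1 {b : ℝ → ℝ} (hb : Sm1 b) {J : ℕ} {ψ : ℝ → ℝ} (h : Lead b J ψ) (hJ : 1 ≤ J) :
    ∃ ψ₁ : ℝ → ℝ, Lead (deriv b) (J - 1) ψ₁ ∧ ψ₁ 0 = J * ψ 0 := by
  have _ := hb
  exact ⟨_, leadd_aux h hJ, by simp⟩

/-- `dy^[k] B (0,t)` is the `k`-th derivative of `b(t) = B(0,t) = t^J ψ(t)` at `t`. By induction on
`k ≤ J`: near `0` `b^(k) = t^(J-k) ψ_k` with `ψ_k` smooth, `ψ_k(0) = J!/(J-k)! ψ(0)`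
(`ψ_{k+1} = (J-k) ψ_k + t ψ_k'`). -/
theorem lead_deriv {B : ℝ × ℝ → ℝ} (hB : Sm B) {J : ℕ} {ψ : ℝ → ℝ}
    (hb : Lead (fun t => B (0, t)) J ψ) : (∀ k < J, dy^[k] B 0 = 0) ∧ dy^[J] B 0 ≠ 0 := by
  induction J generalizing B ψ with
  | zero =>
    refine ⟨fun k hk => absurd hk (by omega), ?_⟩
    have h0 := hb.2.2.self_of_nhds
    rw [pow_zero, one_mul] at h0
    have h1 : B 0 = ψ 0 := h0
    rw [Function.iterate_zero, id, h1]
    exact hb.2.1
  | succ J ih =>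
    have h0 : B (0, 0) = 0 ^ (J + 1) * ψ 0 := hb.2.2.self_of_nhds
    have h1 : B 0 = 0 := by
      have : B (0, 0) = 0 := by
        rw [h0]; simp
      exact this
    have h2 := leadd_aux hb (by omega)
    have h3 : deriv (fun t => B (0, t)) = fun t => dy B (0, t) := by
      funext t
      exact deriv_slice0 hB t
    rw [h3, Nat.add_sub_cancel] at h2
    obtain ⟨h4, h5⟩ := ih hB.dy h2
    refine ⟨?_, ?_⟩
    · intro k hk
      rcases Nat.eq_zero_or_pos k with rfl | hk0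
      · simpa using h1
      · obtain ⟨j, rfl⟩ : ∃ j, k = j + 1 := ⟨k - 1, by omega⟩
        rw [Function.iterate_succ_apply]
        exact h4 j (by omega)
    · rw [Function.iterate_succ_apply]
      exact h5

/-- leading terms are unique: if `c b = O(t^(J+1))` then `c = 0` -/
theorem lead_unique {b : ℝ → ℝ} {J : ℕ} {ψ : ℝ → ℝ} (h : Lead b J ψ) {c : ℝ}
    (hc : (fun t => c * b t) =O[𝓝 0] fun t => t ^ (J + 1)) : c = 0 := by
  obtain ⟨h1, h2, h3⟩ := h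
  obtain ⟨C, hC⟩ := hc.bound
  have h4 : ∀ᶠ t in 𝓝[≠] (0 : ℝ), ‖c * ψ t‖ ≤ C * ‖t‖ := by
    filter_upwards [self_mem_nhdsWithin, (hC.and h3).filter_mono nhdsWithin_le_nhds] with t ht ht2
    obtain ⟨e1, e2⟩ := ht2
    rw [e2] at e1
    have ht' : t ≠ 0 := ht
    have h5 : 0 < ‖t‖ ^ J := by positivity
    rw [norm_pow, norm_mul, norm_mul, norm_pow] at e1
    have h6 : ‖t‖ ^ J * ‖c * ψ t‖ ≤ ‖t‖ ^ J * (C * ‖t‖) := by
      rw [norm_mul]
      calc ‖t‖ ^ J * (‖c‖ * ‖ψ t‖) = ‖c‖ * (‖t‖ ^ J * ‖ψ t‖) := by ring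
        _ ≤ C * ‖t‖ ^ (J + 1) := e1
        _ = _ := by ring
    exact le_of_mul_le_mul_left h6 h5
  have h7 : Tendsto (fun t => ‖c * ψ t‖) (𝓝[≠] (0 : ℝ)) (𝓝 ‖c * ψ 0‖) := by
    have : Continuous fun t => ‖c * ψ t‖ := (continuous_const.mul h1.continuous).norm
    exact (this.tendsto 0).mono_left nhdsWithin_le_nhds
  have h8 : Tendsto (fun t : ℝ => C * ‖t‖) (𝓝[≠] (0 : ℝ)) (𝓝 0) := by
    have : Continuous fun t : ℝ => C * ‖t‖ := continuous_const.mul continuous_norm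
    have h := (this.tendsto 0).mono_left (nhdsWithin_le_nhds (s := {0}ᶜ))
    simpa using h
  have h9 := le_of_tendsto_of_tendsto h7 h8 h4
  have h10 : c * ψ 0 = 0 := norm_le_zero_iff.1 h9
  rcases mul_eq_zero.1 h10 with h | h
  · exact h
  · exact absurd h h2

/-- a function with a leading term is not flat -/
theorem lead_not_flat {b : ℝ → ℝ} {J : ℕ} {ψ : ℝ → ℝ} (h : Lead b J ψ) : ¬ Flat1 b := by
  intro hf
  have h1 := lead_unique (c := 1) h (by simpa using hf (J + 1))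
  exact one_ne_zero h1

end H86N
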