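import Pool.Agent.Lib.H86N.Ext

/-! Chunk ROOT: reciprocals and roots of germs. -/

open Filter Topology Asymptotics
open scoped ContDiff

namespace H86N

/-- `1/V` is smooth near `0`; cut off. -/
theorem recip {V : ℝ × ℝ → ℝ} (hV : Sm V) (h0 : V 0 ≠ 0) :
    ∃ w : ℝ × ℝ → ℝ, Sm w ∧ w 0 ≠ 0 ∧ ∀ᶠ z in 𝓝 (0 : ℝ × ℝ), w z * V z = 1 := by
  have hU : IsOpen {z | V z ≠ 0} := isOpen_ne_fun hV.continuous continuous_const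
  have hs : SmoothNear fun z => (V z)⁻¹ :=
    ⟨{z | V z ≠ 0}, hU, h0, hV.contDiffOn.inv fun z hz => hz⟩
  obtain ⟨w, h1, h2⟩ := exists_sm_ext hs
  refine ⟨w, h1, ?_, ?_⟩
  · rw [h2.self_of_nhds]
    exact inv_ne_zero h0
  · filter_upwards [h2, hU.mem_nhds h0] with z hz hz2
    rw [hz]
    exact inv_mul_cancel₀ hz2

/-- `V^(1/n)` (`Real.rpow`) is smooth near `0`; cut off. -/
theorem root {V : ℝ × ℝ → ℝ} (hV : Sm V) (h0 : 0 < V 0) {n : ℕ} (hn : n ≠ 0) :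
    ∃ v : ℝ × ℝ → ℝ, Sm v ∧ 0 < v 0 ∧ ∀ᶠ z in 𝓝 (0 : ℝ × ℝ), V z = v z ^ n := by
  have hU : IsOpen {z | 0 < V z} := isOpen_lt continuous_const hV.continuous
  have hs : SmoothNear fun z => (V z) ^ ((n : ℝ)⁻¹) :=
    ⟨{z | 0 < V z}, hU, h0, hV.contDiffOn.rpow_const_of_ne fun z hz => ne_of_gt hz⟩
  obtain ⟨v, h1, h2⟩ := exists_sm_ext hs
  refine ⟨v, h1, ?_, ?_⟩
  · rw [h2.self_of_nhds]
    exact Real.rpow_pos_of_pos h0 _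
  · filter_upwards [h2, hU.mem_nhds h0] with z hz hz2
    have hz3 : 0 < V z := hz2
    rw [hz, Real.rpow_inv_natCast_pow hz3.le hn]

/-- a signed root: `V = s v^n` -/
theorem root_signed {V : ℝ × ℝ → ℝ} (hV : Sm V) (h0 : V 0 ≠ 0) {n : ℕ} (hn : n ≠ 0) :
    ∃ (s : ℝ) (v : ℝ × ℝ → ℝ), (s = 1 ∨ s = -1) ∧ (0 < V 0 → s = 1) ∧ Sm v ∧ 0 < v 0 ∧
      ∀ᶠ z in 𝓝 (0 : ℝ × ℝ), V z = s * v z ^ n := by
  rcases lt_or_gt_of_ne h0 with h | h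
  · obtain ⟨v, h1, h2, h3⟩ := root (V := fun z => - V z) hV.neg (by simpa using h) hn
    refine ⟨-1, v, Or.inr rfl, fun h' => absurd h' (by linarith), h1, h2, ?_⟩
    filter_upwards [h3] with z hz
    rw [← hz]; ring
  · obtain ⟨v, h1, h2, h3⟩ := root hV h hn
    refine ⟨1, v, Or.inl rfl, fun _ => rfl, h1, h2, ?_⟩
    filter_upwards [h3] with z hz
    rw [hz]; ring

/-- `ε` = sign of `V 0`, `ε V = v^J`, `H = (y - ρ x) v`. -/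
theorem pow_form {B V : ℝ × ℝ → ℝ} {ρ : ℝ → ℝ} {J : ℕ} (hJ : J ≠ 0) (hρ : Sm1 ρ) (hρ0 : ρ 0 = 0)
    (hV : Sm V) (hV0 : V 0 ≠ 0)
    (h : ∀ᶠ z in 𝓝 (0 : ℝ × ℝ), B z = (z.2 - ρ z.1) ^ J * V z) :
    ∃ (ε : ℝ) (H : ℝ × ℝ → ℝ), PowForm B ε J H := by
  obtain ⟨s, v, hs, -, hv, hv0, h1⟩ := root_signed hV hV0 hJ
  have hρ1 : Sm fun z : ℝ × ℝ => ρ z.1 := hρ.comp1 sm_fst
  have hsub : Sm fun z : ℝ × ℝ => z.2 - ρ z.1 := sm_snd.sub hρ1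
  refine ⟨s, fun z => (z.2 - ρ z.1) * v z, hs, hsub.mul hv, ?_, ?_, ?_⟩
  · simp [hρ0]
  · rw [dy_mul hsub hv, dy_sub sm_snd hρ1, dy_snd, dy_comp1 hρ sm_fst, dy_fst]
    simpa [hρ0] using hv0.ne'
  · filter_upwards [h, h1] with z a b
    rw [a, b, mul_pow]
    ring

/-- multiplying `ε H^J` by a function not vanishing at `0`: `U B = ε' Y^J` with `Y = H u` -/
theorem pow_form_mul {B U H : ℝ × ℝ → ℝ} {ε : ℝ} {J : ℕ} (hJ : J ≠ 0) (h : PowForm B ε J H)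
    (hU : Sm U) (hU0 : U 0 ≠ 0) :
    ∃ (ε' : ℝ) (u : ℝ × ℝ → ℝ), Sm u ∧ 0 < u 0 ∧ (0 < U 0 → ε' = ε) ∧
      PowForm (fun z => U z * B z) ε' J (fun z => H z * u z) := by
  obtain ⟨s, u, hs, hs1, hu, hu0, h1⟩ := root_signed hU hU0 hJ
  obtain ⟨g1, g2, g3, g4, g5⟩ := h
  refine ⟨s * ε, u, hu, hu0, fun h' => by rw [hs1 h', one_mul], ?_, g2.mul hu, ?_, ?_, ?_⟩
  · rcases hs with rfl | rfl <;> rcases g1 with rfl | rfl <;> simp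
  · simp [g3]
  · rw [dy_mul g2 hu, g3]
    simpa using ⟨g4, hu0.ne'⟩
  · filter_upwards [g5, h1] with z a b
    rw [a, b, mul_pow]
    ring

end H86N
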