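import Pool.Agent.Lib.H86N.NormalR
import Pool.Agent.Lib.H86N.Inv
import Pool.Agent.Lib.H86N.Root
import Pool.Agent.Lib.H86N.FlatD
import Pool.Agent.Lib.H86N.LeadD

/-! Chunk BACK: every function with a normal form is admissible. -/

open Filter Topology Asymptotics
open scoped ContDiff

namespace H86N

lemma back_restrict {F : ℝ × ℝ → ℝ} (h : Flat F) : Flat1 (fun t => F (t, 0)) := by
  intro n
  have hc : Tendsto (fun t : ℝ => (t, (0 : ℝ))) (𝓝 0) (𝓝 (0 : ℝ × ℝ)) := by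
    have : Continuous (fun t : ℝ => (t, (0 : ℝ))) := by fun_prop
    exact this.tendsto 0
  have h1 := (h n).comp_tendsto hc
  refine h1.trans (IsBigO.of_bound 1 (Eventually.of_forall fun t => ?_))
  simp [Prod.norm_def]

/-- `Y` may be taken globally smooth (`exists_sm_ext`). `f_x = N_x(x,Y) + N_y(x,Y) Y_x`, `f_y = N_y(x,Y) Y_y`,
`R_f = [RN(x,Y) + Y_x (x - 2 N_x(x,Y)) - N_y(x,Y) Y_x^2]/Y_y` where `f_y ≠ 0`; `1/Y_y` from `recip` (or
`SmoothNear` directly). Non-flatness: let `y(t)` be smooth with `Y(t, y(t)) = t`, `y(0) = 0` (`imp_fun` for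
`Y(x,y) - x`); if `f_y` were flat then `N_y(t,t) Y_y(t, y(t)) = f_y(t, y t) = O(t^n)` for all `n`, so
`N_y(t,t)` would be flat, contradicting `lead_not_flat`. -/
theorem back {f : ℝ × ℝ → ℝ} (h : HasNormalForm f) :
    dy f 0 = 0 ∧ ¬ Flat (dy f) ∧ RExtends f := by
  obtain ⟨N, hN, Y0, hY0s, hY00, hY0y, hf0⟩ := h
  obtain ⟨Y, hY, hYe⟩ := exists_sm_ext hY0s
  obtain ⟨hNs, hN0, ⟨RN, hRN, hR⟩, ⟨J, ψ, hL⟩⟩ := normal_R hN
  set N' : ℝ × ℝ → ℝ := fun z => N z.1 z.2 with hN'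
  have hY1 : Y 0 = 0 := by rw [hYe.self_of_nhds, hY00]
  have hYy : dy Y 0 ≠ 0 := by
    have := (germ_dy (F := Y) (G := Y0) hYe).self_of_nhds
    rw [this]; exact hY0y
  set F : ℝ × ℝ → ℝ := fun z => N' (z.1, Y z) with hF
  have hFs : Sm F := hNs.comp2 sm_fst hY
  have hfF : ∀ᶠ z in 𝓝 (0 : ℝ × ℝ), f z = F z := by
    filter_upwards [hf0, hYe] with z h1 h2
    rw [h1, ← h2]
  have hdx : ∀ z, dx F z = dx N' (z.1, Y z) + dy N' (z.1, Y z) * dx Y z := by
    intro z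
    rw [hF, dx_comp2 hNs sm_fst hY, dx_fst]; ring
  have hdy : ∀ z, dy F z = dy N' (z.1, Y z) * dy Y z := by
    intro z
    rw [hF, dy_comp2 hNs sm_fst hY, dy_fst]; ring
  have hgx := germ_dx (F := f) (G := F) hfF
  have hgy := germ_dy (F := f) (G := F) hfF
  obtain ⟨w, hw, hw0, hwe⟩ := recip hY.dy hYy
  refine ⟨?_, ?_, ?_⟩
  · rw [hgy.self_of_nhds, hdy]
    have : ((0 : ℝ × ℝ).1, Y 0) = (0 : ℝ × ℝ) := by rw [hY1]; rfl
    rw [this, hN0, zero_mul]
  · intro hfl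
    obtain ⟨ρ, hρ, hρ0, hρe⟩ := imp_fun (G := fun z => Y z - z.1) (hY.sub sm_fst)
      (by simp [hY1]) (by
        rw [dy_sub hY sm_fst, dy_fst, sub_zero]; exact hYy)
    have hρs : Sm (fun z : ℝ × ℝ => ρ z.1) := hρ.comp1 sm_fst
    have h1 : Flat (fun z : ℝ × ℝ => dy f (z.1, ρ z.1)) :=
      flat_comp (a := fun z => z.1) (b := fun z => ρ z.1) hfl sm_fst hρs rfl hρ0
    have h2 := flat_mul (G := fun z : ℝ × ℝ => w (z.1, ρ z.1)) h1
      (hw.comp2 sm_fst hρs).continuous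
    have h3 := back_restrict h2
    apply lead_not_flat hL
    refine h3.congr ?_
    have e1 := ev_curve (φ := fun t => t) (ψ := ρ) hgy continuous_id hρ.continuous rfl hρ0
    have e2 := ev_curve (φ := fun t => t) (ψ := ρ) hwe continuous_id hρ.continuous rfl hρ0
    filter_upwards [e1, e2, hρe] with t h4 h5 h6
    have h7 : Y (t, ρ t) = t := by linarith
    rw [h4, hdy]
    simp only [h7]
    calc dy N' (t, t) = (w (t, ρ t) * dy Y (t, ρ t)) * dy N' (t, t) := by rw [h5, one_mul]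
      _ = _ := by ring
  · refine ⟨fun z => w z * (RN (z.1, Y z) + dx Y z * (z.1 - 2 * dx N' (z.1, Y z))
        - dy N' (z.1, Y z) * dx Y z ^ 2), SmoothNear.of_sm ?_, ?_⟩
    · have a1 : Sm (fun z : ℝ × ℝ => RN (z.1, Y z)) := hRN.comp2 sm_fst hY
      have a2 : Sm (fun z : ℝ × ℝ => dx N' (z.1, Y z)) := hNs.dx.comp2 sm_fst hY
      have a3 : Sm (fun z : ℝ × ℝ => dy N' (z.1, Y z)) := hNs.dy.comp2 sm_fst hY
      exact hw.mul ((a1.add (hY.dx.mul (sm_fst.sub (contDiff_const.mul a2)))).sub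
        (a3.mul (hY.dx.pow 2)))
    · filter_upwards [hfF, hgx, hgy, hwe] with z h1 h2 h3 h4 hne
      rw [eq_div_iff hne, h3, h2, h1, hdx, hdy]
      have h5 := hR (z.1, Y z)
      simp only at h5
      have h6 : F z = N z.1 (Y z) := rfl
      rw [h6]
      linear_combination (dy N' (z.1, Y z) * (RN (z.1, Y z)
        + dx Y z * (z.1 - 2 * dx N' (z.1, Y z)) - dy N' (z.1, Y z) * dx Y z ^ 2)) * h4 - h5

end H86N
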