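import Pool.Agent.Lib.H86N.BackW

/-! Chunk BKQ: functions of type Q are admissible. -/

open Filter Topology Asymptotics
open scoped ContDiff

namespace H86N

/-- Take global representatives. Differentiate `x = q_p(p,y) - 2 p` (with `p = p(x,y)`):
`1 = q_pp p_x - 2 p_x`, `0 = q_pp p_y + q_py - 2 p_y`; `f = q_p^2/4 - q`:
`f_x = q_p (q_pp p_x)/2 - q_p p_x = q_p/2`, `f_y = q_p (q_pp p_y + q_py)/2 - q_p p_y - q_y = - q_y(p,y)`.
`f_x (x - f_x) - f = (q_p/2)(q_p/2 - 2 p) - q_p^2/4 + q = q - p q_p`, so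
`R_f = ((p q_p - q)/q_y)(p,y) = G(p,y)` where `f_y ≠ 0`. The rest as in `typeW_back`, `p_x(0) = - 1/2`. -/
theorem typeQ_back {f : ℝ × ℝ → ℝ} (h : TypeQ f) :
    dy f 0 = 0 ∧ (¬ ∀ᶠ z in 𝓝 (0 : ℝ × ℝ), dy f z = 0) ∧ RExtends f := by
  obtain ⟨W0, P0, hW0, hP0, hP00, hfl0, hn0, ⟨G0, hG0, hG0e⟩, he0⟩ := h
  obtain ⟨W, hW, hWe⟩ := exists_sm_ext hW0
  obtain ⟨P, hP, hPe⟩ := exists_sm_ext hP0
  obtain ⟨G, hG, hGe⟩ := exists_sm_ext hG0
  have hWe' : W =ᶠ[𝓝 0] W0 := hWe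
  have hWx := germ_dx hWe'
  have hWy := germ_dy hWe'
  have z1 : ((0 : ℝ × ℝ)).1 = 0 := rfl
  have z2 : ((0 : ℝ × ℝ)).2 = 0 := rfl
  have zz : ((0 : ℝ), (0 : ℝ)) = 0 := rfl
  have hPz : P 0 = 0 := by rw [hPe.self_of_nhds, hP00]
  have hWc := ev_comp2 hWe' hP.continuous continuous_snd hPz rfl
  have hWxc := ev_comp2 hWx hP.continuous continuous_snd hPz rfl
  have hWyc := ev_comp2 hWy hP.continuous continuous_snd hPz rfl
  have hx : ∀ᶠ z in 𝓝 (0 : ℝ × ℝ), z.1 = dx W (P z, z.2) - 2 * P z := by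
    filter_upwards [he0, hPe, hWxc] with z a1 a2 a3
    rw [a3, a2]
    exact a1.1
  have hf : ∀ᶠ z in 𝓝 (0 : ℝ × ℝ),
      f z = (dx W (P z, z.2)) ^ 2 / 4 - W (P z, z.2) := by
    filter_upwards [he0, hPe, hWxc, hWc] with z a1 a2 a3 a4
    rw [a3, a4, a2]
    exact a1.2
  have hWP : Sm fun z : ℝ × ℝ => W (P z, z.2) := hW.comp2 hP sm_snd
  have hWxP : Sm fun z : ℝ × ℝ => dx W (P z, z.2) := hW.dx.comp2 hP sm_snd
  have hx' : (fun z : ℝ × ℝ => z.1) =ᶠ[𝓝 0] fun z =>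
      dx W (P z, z.2) - (fun _ => (2 : ℝ)) z * P z := hx
  have h2P : Sm fun z : ℝ × ℝ => (fun _ => (2 : ℝ)) z * P z := contDiff_const.mul hP
  have hxx : ∀ᶠ z in 𝓝 (0 : ℝ × ℝ), 1 = dx (dx W) (P z, z.2) * dx P z - 2 * dx P z := by
    filter_upwards [germ_dx hx'] with z hz
    rw [dx_fst, dx_sub hWxP h2P, dx_mul (F := fun _ => (2 : ℝ)) contDiff_const hP, dx_const,
      dx_comp2 hW.dx hP sm_snd, dx_snd] at hz
    linarith
  have hxy : ∀ᶠ z in 𝓝 (0 : ℝ × ℝ),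
      0 = dx (dx W) (P z, z.2) * dy P z + dy (dx W) (P z, z.2) - 2 * dy P z := by
    filter_upwards [germ_dy hx'] with z hz
    rw [dy_fst, dy_sub hWxP h2P, dy_mul (F := fun _ => (2 : ℝ)) contDiff_const hP, dy_const,
      dy_comp2 hW.dx hP sm_snd, dy_snd] at hz
    linarith
  have hf' : f =ᶠ[𝓝 0] fun z => (fun _ => (1 / 4 : ℝ)) z * (dx W (P z, z.2)) ^ 2
      - W (P z, z.2) := by
    filter_upwards [hf] with z hz
    rw [hz]
    ring
  have hB : Sm fun z : ℝ × ℝ => (fun _ => (1 / 4 : ℝ)) z * (dx W (P z, z.2)) ^ 2 :=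
    contDiff_const.mul (hWxP.pow 2)
  have hfx : ∀ᶠ z in 𝓝 (0 : ℝ × ℝ), dx f z = dx W (P z, z.2) / 2 := by
    filter_upwards [germ_dx hf', hxx] with z hz a1
    rw [hz, dx_sub hB hWP,
      dx_mul (F := fun _ => (1 / 4 : ℝ)) contDiff_const (hWxP.pow 2), dx_const, dx_pow hWxP,
      dx_comp2 hW.dx hP sm_snd, dx_comp2 hW hP sm_snd, dx_snd]
    simp only [zero_mul, zero_add, mul_zero, add_zero, Nat.add_one_sub_one, pow_one]
    push_cast
    linear_combination (-dx W (P z, z.2) / 2) * a1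
  have hfy : ∀ᶠ z in 𝓝 (0 : ℝ × ℝ), dy f z = - dy W (P z, z.2) := by
    filter_upwards [germ_dy hf', hxy] with z hz a1
    rw [hz, dy_sub hB hWP,
      dy_mul (F := fun _ => (1 / 4 : ℝ)) contDiff_const (hWxP.pow 2), dy_const, dy_pow hWxP,
      dy_comp2 hW.dx hP sm_snd, dy_comp2 hW hP sm_snd, dy_snd]
    simp only [zero_mul, zero_add, mul_one, Nat.add_one_sub_one, pow_one]
    push_cast
    linear_combination (-dx W (P z, z.2) / 2) * a1
  have hfl : Flat W := hfl0.congr hWe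
  refine ⟨?_, ?_, ?_⟩
  · rw [hfy.self_of_nhds, hPz, z2, zz, flat_at_zero (flat_dy hW hfl), neg_zero]
  · intro hc
    have hPx : dx P 0 ≠ 0 := by
      intro h0
      have h1 := hxx.self_of_nhds
      rw [h0] at h1
      norm_num at h1
    obtain ⟨X, hX, hX0, hX1, -⟩ := inv_x hP hPz hPx
    apply hn0
    have h1 : ∀ᶠ z in 𝓝 (0 : ℝ × ℝ), dy W (P z, z.2) = 0 := by
      filter_upwards [hc, hfy] with z a1 a2
      linarith
    have h2 := ev_comp2 h1 hX.continuous continuous_snd hX0 rfl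
    filter_upwards [h2, hX1, hWy] with z a1 a2 a3
    have a1' : dy W (P (X z, z.2), z.2) = 0 := a1
    rw [a2] at a1'
    rw [← a3]
    exact a1'
  · refine ⟨fun z => G (P z, z.2), SmoothNear.of_sm (hG.comp2 hP sm_snd), ?_⟩
    have hGc := ev_comp2 hGe hP.continuous continuous_snd hPz rfl
    have hG0c := ev_comp2 hG0e hP.continuous continuous_snd hPz rfl
    filter_upwards [hfx, hfy, hf, hx, hGc, hG0c, hWyc, hWc, hWxc] with z a1 a2 a3 a4 a5 a6 a7 a8 a9 hne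
    have hne' : dy W (P z, z.2) ≠ 0 := by
      intro h0
      apply hne
      rw [a2, h0, neg_zero]
    have h1 := a6 (by rw [← a7]; exact hne')
    rw [a1, a2, a3, a5, h1, ← a8, ← a7, ← a9]
    rw [div_eq_div_iff hne' (neg_ne_zero.mpr hne')]
    have h3 : dx W (P z, z.2) = z.1 + 2 * P z := by linarith
    rw [h3]
    ring

end H86N
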