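import Pool.Agent.Lib.H86N.S2Defs
import Pool.Agent.Lib.H86N.Inv
import Pool.Agent.Lib.H86N.FlatD

/-! Chunk BKW: functions of type W are admissible. -/

open Filter Topology Asymptotics
open scoped ContDiff

namespace H86N

lemma flat_at_zero {F : ℝ × ℝ → ℝ} (h : Flat F) : F 0 = 0 := by
  obtain ⟨C, hC⟩ := (h 1).bound
  have h1 := hC.self_of_nhds
  simpa using h1

/-- Take global representatives of `W, P, G` (`exists_sm_ext`). Differentiate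
`x = 2 P - W_P(P,y)`: `1 = 2 P_x - W_PP P_x`, `0 = 2 P_y - W_PP P_y - W_Py`, and
`f = x^2/4 + W - W_P^2/4`: `f_x = x/2 + W_P P_x - W_P (W_PP P_x)/2 = x/2 + W_P/2 = P`,
`f_y = W_P P_y + W_y - W_P (W_PP P_y + W_Py)/2 = W_y(P,y)`. So
`f_x (x - f_x) - f = P (x - P) - x^2/4 - W + W_P^2/4 = - W(P,y)` (`W_P = 2 P - x`), and
`R_f = - (W/W_y)(P,y) = - G(P,y)` where `f_y ≠ 0`. `f_y(0) = W_y(0) = 0` (`flat_dy`, `n = 1`). `W_PP(0) = 0` so
`P_x(0) = 1/2` and `(x,y) ↦ (P,y)` is a local diffeomorphism (`inv_x`): if `f_y = 0` near `0` then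
`W_y = 0` near `0`. -/
theorem typeW_back {f : ℝ × ℝ → ℝ} (h : TypeW f) :
    dy f 0 = 0 ∧ (¬ ∀ᶠ z in 𝓝 (0 : ℝ × ℝ), dy f z = 0) ∧ RExtends f := by
  obtain ⟨W0, P0, hW0, hP0, hP00, hfl0, hn0, ⟨G0, hG0, hG0e⟩, he0⟩ := h
  obtain ⟨W, hW, hWe⟩ := exists_sm_ext hW0
  obtain ⟨P, hP, hPe⟩ := exists_sm_ext hP0
  obtain ⟨G, hG, hGe⟩ := exists_sm_ext hG0
  have hWe' : W =ᶠ[𝓝 0] W0 := hWe
  have hWx := germ_dx hWe'
  have hWy := germ_dy hWe'
  have z1 : ((0 : ℝ × ℝ)).1 = 0 := rfl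
  have z2 : ((0 : ℝ × ℝ)).2 = 0 := rfl
  have zz : ((0 : ℝ), (0 : ℝ)) = 0 := rfl
  have hPz : P 0 = 0 := by rw [hPe.self_of_nhds, hP00]
  have hWc := ev_comp2 hWe' hP.continuous continuous_snd hPz rfl
  have hWxc := ev_comp2 hWx hP.continuous continuous_snd hPz rfl
  have hWyc := ev_comp2 hWy hP.continuous continuous_snd hPz rfl
  have hx : ∀ᶠ z in 𝓝 (0 : ℝ × ℝ), z.1 = 2 * P z - dx W (P z, z.2) := by
    filter_upwards [he0, hPe, hWxc] with z a1 a2 a3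
    rw [a3, a2]
    exact a1.1
  have hf : ∀ᶠ z in 𝓝 (0 : ℝ × ℝ),
      f z = z.1 ^ 2 / 4 + W (P z, z.2) - (dx W (P z, z.2)) ^ 2 / 4 := by
    filter_upwards [he0, hPe, hWxc, hWc] with z a1 a2 a3 a4
    rw [a3, a4, a2]
    exact a1.2
  have hWP : Sm fun z : ℝ × ℝ => W (P z, z.2) := hW.comp2 hP sm_snd
  have hWxP : Sm fun z : ℝ × ℝ => dx W (P z, z.2) := hW.dx.comp2 hP sm_snd
  have hx' : (fun z : ℝ × ℝ => z.1) =ᶠ[𝓝 0] fun z =>
      (fun _ => (2 : ℝ)) z * P z - dx W (P z, z.2) := hx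
  have h2P : Sm fun z : ℝ × ℝ => (fun _ => (2 : ℝ)) z * P z := contDiff_const.mul hP
  have hxx : ∀ᶠ z in 𝓝 (0 : ℝ × ℝ), 1 = 2 * dx P z - dx (dx W) (P z, z.2) * dx P z := by
    filter_upwards [germ_dx hx'] with z hz
    rw [dx_fst, dx_sub h2P hWxP, dx_mul (F := fun _ => (2 : ℝ)) contDiff_const hP, dx_const,
      dx_comp2 hW.dx hP sm_snd, dx_snd] at hz
    linarith
  have hxy : ∀ᶠ z in 𝓝 (0 : ℝ × ℝ),
      0 = 2 * dy P z - (dx (dx W) (P z, z.2) * dy P z + dy (dx W) (P z, z.2)) := by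
    filter_upwards [germ_dy hx'] with z hz
    rw [dy_fst, dy_sub h2P hWxP, dy_mul (F := fun _ => (2 : ℝ)) contDiff_const hP, dy_const,
      dy_comp2 hW.dx hP sm_snd, dy_snd] at hz
    linarith
  have hf' : f =ᶠ[𝓝 0] fun z => ((fun _ => (1 / 4 : ℝ)) z * z.1 ^ 2 + W (P z, z.2)) -
      (fun _ => (1 / 4 : ℝ)) z * (dx W (P z, z.2)) ^ 2 := by
    filter_upwards [hf] with z hz
    rw [hz]
    ring
  have hA : Sm fun z : ℝ × ℝ => (fun _ => (1 / 4 : ℝ)) z * z.1 ^ 2 :=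
    contDiff_const.mul (sm_fst.pow 2)
  have hB : Sm fun z : ℝ × ℝ => (fun _ => (1 / 4 : ℝ)) z * (dx W (P z, z.2)) ^ 2 :=
    contDiff_const.mul (hWxP.pow 2)
  have hAW : Sm fun z : ℝ × ℝ => (fun _ => (1 / 4 : ℝ)) z * z.1 ^ 2 + W (P z, z.2) := hA.add hWP
  have hfx : ∀ᶠ z in 𝓝 (0 : ℝ × ℝ), dx f z = P z := by
    filter_upwards [germ_dx hf', hxx, hx] with z hz a1 a2
    rw [hz, dx_sub hAW hB, dx_add hA hWP, dx_mul (F := fun _ => (1 / 4 : ℝ)) contDiff_const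
      (sm_fst.pow 2), dx_const, dx_pow sm_fst, dx_fst,
      dx_mul (F := fun _ => (1 / 4 : ℝ)) contDiff_const (hWxP.pow 2), dx_const, dx_pow hWxP,
      dx_comp2 hW.dx hP sm_snd, dx_comp2 hW hP sm_snd, dx_snd]
    simp only [zero_mul, zero_add, mul_zero, add_zero, mul_one, Nat.add_one_sub_one, pow_one]
    push_cast
    linear_combination (-dx W (P z, z.2) / 2) * a1 + (1 / 2 : ℝ) * a2
  have hfy : ∀ᶠ z in 𝓝 (0 : ℝ × ℝ), dy f z = dy W (P z, z.2) := by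
    filter_upwards [germ_dy hf', hxy] with z hz a1
    rw [hz, dy_sub hAW hB, dy_add hA hWP, dy_mul (F := fun _ => (1 / 4 : ℝ)) contDiff_const
      (sm_fst.pow 2), dy_const, dy_pow sm_fst, dy_fst,
      dy_mul (F := fun _ => (1 / 4 : ℝ)) contDiff_const (hWxP.pow 2), dy_const, dy_pow hWxP,
      dy_comp2 hW.dx hP sm_snd, dy_comp2 hW hP sm_snd, dy_snd]
    simp only [zero_mul, zero_add, mul_zero, add_zero, mul_one, Nat.add_one_sub_one, pow_one]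
    push_cast
    linear_combination (-dx W (P z, z.2) / 2) * a1
  have hfl : Flat W := hfl0.congr hWe
  refine ⟨?_, ?_, ?_⟩
  · rw [hfy.self_of_nhds, hPz, z2, zz]
    exact flat_at_zero (flat_dy hW hfl)
  · intro hc
    have hPx : dx P 0 ≠ 0 := by
      intro h0
      have h1 := hxx.self_of_nhds
      rw [h0] at h1
      norm_num at h1
    obtain ⟨X, hX, hX0, hX1, -⟩ := inv_x hP hPz hPx
    apply hn0
    have h1 : ∀ᶠ z in 𝓝 (0 : ℝ × ℝ), dy W (P z, z.2) = 0 := by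
      filter_upwards [hc, hfy] with z a1 a2
      rw [← a2, a1]
    have h2 := ev_comp2 h1 hX.continuous continuous_snd hX0 rfl
    filter_upwards [h2, hX1, hWy] with z a1 a2 a3
    have a1' : dy W (P (X z, z.2), z.2) = 0 := a1
    rw [a2] at a1'
    rw [← a3]
    exact a1'
  · refine ⟨fun z => - G (P z, z.2), SmoothNear.of_sm (hG.comp2 hP sm_snd).neg, ?_⟩
    have hGc := ev_comp2 hGe hP.continuous continuous_snd hPz rfl
    have hG0c := ev_comp2 hG0e hP.continuous continuous_snd hPz rfl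
    filter_upwards [hfx, hfy, hf, hx, hGc, hG0c, hWyc, hWc] with z a1 a2 a3 a4 a5 a6 a7 a8 hne
    rw [a2, a7] at hne
    have h1 := a6 hne
    rw [a1, a2, a3, a5, h1, ← a8, ← a7]
    rw [← a7] at hne
    rw [eq_div_iff hne, neg_mul, div_mul_cancel₀ _ hne]
    have h3 : dx W (P z, z.2) = 2 * P z - z.1 := by linarith
    rw [h3]
    ring

end H86N
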