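import Pool.Agent.Lib.H86N.Calc

/-! Auxiliary notions: the linear equation, decompositions, leading terms. (no chunk, complete) -/

open Filter Topology Asymptotics
open scoped ContDiff

namespace H86N

/-- `θ x F_x + g F_y = κ F` near `0` -/
def PDE (θ κ : ℝ) (g F : ℝ × ℝ → ℝ) : Prop :=
  ∀ᶠ z in 𝓝 (0 : ℝ × ℝ), θ * (z.1 * dx F z) + g z * dy F z = κ * F z

/-- `F = ∑_{m<i} x^m φ_m(y) + x^i B` near `0`, `φ_m` flat (`m < i`) -/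
def Dec (F : ℝ × ℝ → ℝ) (i : ℕ) (φ : ℕ → ℝ → ℝ) (B : ℝ × ℝ → ℝ) : Prop :=
  Sm B ∧ (∀ m, Sm1 (φ m)) ∧ (∀ m < i, Flat1 (φ m)) ∧
    ∀ᶠ z in 𝓝 (0 : ℝ × ℝ), F z = ∑ m ∈ Finset.range i, z.1 ^ m * φ m z.2 + z.1 ^ i * B z

/-- `b(t) = t^J ψ(t)` near `0`, `ψ` smooth, `ψ(0) ≠ 0` -/
def Lead (b : ℝ → ℝ) (J : ℕ) (ψ : ℝ → ℝ) : Prop :=
  Sm1 ψ ∧ ψ 0 ≠ 0 ∧ ∀ᶠ t in 𝓝 (0 : ℝ), b t = t ^ J * ψ t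

/-- `B = ε H^J` near `0`, `H(0) = 0`, `H_y(0) ≠ 0` -/
def PowForm (B : ℝ × ℝ → ℝ) (ε : ℝ) (J : ℕ) (H : ℝ × ℝ → ℝ) : Prop :=
  (ε = 1 ∨ ε = -1) ∧ Sm H ∧ H 0 = 0 ∧ dy H 0 ≠ 0 ∧ ∀ᶠ z in 𝓝 (0 : ℝ × ℝ), B z = ε * H z ^ J

/-- the possible shapes of solutions of the linear equation -/
def SForm (Q : ℝ × ℝ → ℝ) : Prop :=
  (∃ (i : ℕ) (B : ℝ × ℝ → ℝ), 2 ≤ i ∧ Sm B ∧ dy B 0 ≠ 0 ∧
      ∀ᶠ z in 𝓝 (0 : ℝ × ℝ), Q z = z.1 ^ i * B z) ∨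
  (∃ (i J : ℕ) (ε : ℝ) (B H : ℝ × ℝ → ℝ), ((i = 0 ∧ 3 ≤ J) ∨ (1 ≤ i ∧ 2 ≤ J)) ∧
      PowForm B ε J H ∧ ∀ᶠ z in 𝓝 (0 : ℝ × ℝ), Q z = z.1 ^ i * B z)

lemma SmoothNear.of_sm {F : ℝ × ℝ → ℝ} (hF : Sm F) : SmoothNear F :=
  ⟨Set.univ, isOpen_univ, Set.mem_univ _, hF.contDiffOn⟩

lemma SmoothNear.congr {F G : ℝ × ℝ → ℝ} (hF : SmoothNear F)
    (h : ∀ᶠ z in 𝓝 (0 : ℝ × ℝ), G z = F z) : SmoothNear G := by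
  obtain ⟨U, hU, h0, hs⟩ := hF
  obtain ⟨V, hV, hVo, hV0⟩ := eventually_nhds_iff.1 h
  refine ⟨U ∩ V, hU.inter hVo, ⟨h0, hV0⟩, ?_⟩
  exact (hs.mono Set.inter_subset_left).congr fun z hz => hV z hz.2

lemma Flat.congr {F G : ℝ × ℝ → ℝ} (hF : Flat F)
    (h : ∀ᶠ z in 𝓝 (0 : ℝ × ℝ), G z = F z) : Flat G := fun n =>
  (hF n).congr' (h.mono fun _ hz => hz.symm) (Eventually.of_forall fun _ => rfl)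

lemma Flat1.congr {F G : ℝ → ℝ} (hF : Flat1 F)
    (h : ∀ᶠ z in 𝓝 (0 : ℝ), G z = F z) : Flat1 G := fun n =>
  (hF n).congr' (h.mono fun _ hz => hz.symm) (Eventually.of_forall fun _ => rfl)

lemma HasNormalForm.congr {f f' : ℝ × ℝ → ℝ} (h : HasNormalForm f)
    (e : ∀ᶠ z in 𝓝 (0 : ℝ × ℝ), f' z = f z) : HasNormalForm f' := by
  obtain ⟨N, hN, Y, h1, h2, h3, h4⟩ := h
  exact ⟨N, hN, Y, h1, h2, h3, by filter_upwards [h4, e] with z a b; rw [b, a]⟩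

end H86N
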