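import Pool.Agent.Lib.H86N.Base

/-! Chunk BOX. -/

open Filter Topology
open scoped ContDiff

namespace H86N

lemma box_hx {F : ℝ × ℝ → ℝ} (hF : Sm F) (x y : ℝ) :
    HasDerivAt (fun t => F (t, y)) (dx F (x, y)) x := by
  have h := (hF.diffAt (x, y)).hasFDerivAt.comp_hasDerivAt x
    ((hasDerivAt_id x).prodMk (hasDerivAt_const x y))
  exact h

lemma box_hy {F : ℝ × ℝ → ℝ} (hF : Sm F) (x y : ℝ) :
    HasDerivAt (fun t => F (x, t)) (dy F (x, y)) y := by
  have h := (hF.diffAt (x, y)).hasFDerivAt.comp_hasDerivAt y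
    ((hasDerivAt_const y x).prodMk (hasDerivAt_id y))
  exact h

/-- a function with zero derivative on `(-δ, δ)` is constant there -/
lemma box_const {g : ℝ → ℝ} {δ : ℝ} (h : ∀ x, |x| < δ → HasDerivAt g 0 x) {a b : ℝ}
    (ha : |a| < δ) (hb : |b| < δ) : g a = g b := by
  have hconv : Convex ℝ (Set.Ioo (-δ) δ) := convex_Ioo _ _
  have ha' : a ∈ Set.Ioo (-δ) δ := abs_lt.1 ha
  have hb' : b ∈ Set.Ioo (-δ) δ := abs_lt.1 hb
  have hb2 : ‖g b - g a‖ ≤ 0 * ‖b - a‖ :=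
    hconv.norm_image_sub_le_of_norm_hasDerivWithin_le (f' := fun _ => (0 : ℝ)) (C := 0)
      (fun x hx => (h x (abs_lt.2 hx)).hasDerivWithinAt) (fun x _ => by simp) ha' hb'
  rw [zero_mul] at hb2
  have := norm_le_zero_iff.1 hb2
  linarith

/-- Let the implication hold on the box `|x|, |y| < δ`. Fix `y` and let `m(x) = L_y(x,y)`. At points with
`m(x) ≠ 0`, `L_x = 0` in a neighbourhood of `(x,y)`, so `m'(x) = L_xy = 0`; hence `(m²)' = 2 m m' = 0`
everywhere, `m²` is constant in `x`. So `L_y(x,y) ≠ 0` iff `L_y(0,y) ≠ 0`, and `L_xy(x,y) = m'(x) = 0`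
everywhere in the box (`m` is identically zero in `x` if it vanishes somewhere). By `hn` there
is a point `(x₁,y₁)` of the box with `L_y ≠ 0`, hence `L_y(x,y₁) ≠ 0` and `L_x(x,y₁) = 0` for all `x`, and
`L_x(x,·)` is constant: `L_x = 0` on the box. -/
theorem box {L : ℝ × ℝ → ℝ} (hL : Sm L)
    (h : ∀ᶠ z in 𝓝 (0 : ℝ × ℝ), dy L z ≠ 0 → dx L z = 0)
    (hn : ¬ ∀ᶠ z in 𝓝 (0 : ℝ × ℝ), dy L z = 0) : ∀ᶠ z in 𝓝 (0 : ℝ × ℝ), dx L z = 0 := by
  obtain ⟨δ, hδ, hball⟩ := Metric.eventually_nhds_iff_ball.1 h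
  have hmem : ∀ x y : ℝ, (x, y) ∈ Metric.ball (0 : ℝ × ℝ) δ ↔ |x| < δ ∧ |y| < δ := by
    intro x y
    rw [Metric.mem_ball, dist_zero_right, Prod.norm_def]
    simp
  -- the mixed derivative vanishes where `L_y ≠ 0`
  have h1 : ∀ x y : ℝ, |x| < δ → |y| < δ → dy L (x, y) ≠ 0 → dx (dy L) (x, y) = 0 := by
    intro x y hx hy hne
    have hev : dx L =ᶠ[𝓝 (x, y)] fun _ => (0 : ℝ) := by
      have e1 : ∀ᶠ z in 𝓝 (x, y), dy L z ≠ 0 :=
        hL.dy.continuous.continuousAt.eventually_ne hne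
      have e2 : ∀ᶠ z in 𝓝 (x, y), z ∈ Metric.ball (0 : ℝ × ℝ) δ :=
        Metric.isOpen_ball.mem_nhds ((hmem x y).2 ⟨hx, hy⟩)
      filter_upwards [e1, e2] with z hz1 hz2
      exact hball z hz2 hz1
    rw [dx_dy hL]
    have := (germ_dy hev).self_of_nhds
    rw [this]
    exact dy_const 0 _
  -- `L_y ^ 2` is constant in `x`
  have h2 : ∀ x x' y : ℝ, |x| < δ → |x'| < δ → |y| < δ →
      dy L (x, y) * dy L (x, y) = dy L (x', y) * dy L (x', y) := by
    intro x x' y hx hx' hy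
    refine box_const (g := fun t => dy L (t, y) * dy L (t, y)) (δ := δ) ?_ hx hx'
    intro t ht
    have hd := (box_hx hL.dy t y).mul (box_hx hL.dy t y)
    have hz : dx (dy L) (t, y) * dy L (t, y) + dy L (t, y) * dx (dy L) (t, y) = 0 := by
      by_cases hne : dy L (t, y) = 0
      · rw [hne]; ring
      · rw [h1 t y ht hy hne]; ring
    rw [hz] at hd
    exact hd
  have h3 : ∀ x x' y : ℝ, |x| < δ → |x'| < δ → |y| < δ → dy L (x, y) = 0 →
      dy L (x', y) = 0 := by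
    intro x x' y hx hx' hy h0
    have := h2 x x' y hx hx' hy
    rw [h0] at this
    have h' : dy L (x', y) * dy L (x', y) = 0 := by linarith
    exact mul_self_eq_zero.1 h'
  -- the mixed derivative vanishes everywhere
  have h4 : ∀ x y : ℝ, |x| < δ → |y| < δ → dx (dy L) (x, y) = 0 := by
    intro x y hx hy
    by_cases hne : dy L (x, y) = 0
    · have hd := box_hx hL.dy x y
      have hz : HasDerivAt (fun t => dy L (t, y)) 0 x := by
        have hev : (fun t => dy L (t, y)) =ᶠ[𝓝 x] fun _ => (0 : ℝ) := by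
          have : ∀ᶠ t in 𝓝 x, |t| < δ :=
            continuous_abs.continuousAt.eventually_lt continuousAt_const hx
          filter_upwards [this] with t ht
          exact h3 x t y hx ht hy hne
        exact (hasDerivAt_const x (0 : ℝ)).congr_of_eventuallyEq hev
      exact hd.unique hz
    · exact h1 x y hx hy hne
  -- a point with `L_y ≠ 0`
  obtain ⟨x₁, y₁, hx1, hy1, hne⟩ : ∃ x₁ y₁ : ℝ, |x₁| < δ ∧ |y₁| < δ ∧ dy L (x₁, y₁) ≠ 0 := by
    by_contra hcon
    push Not at hcon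
    apply hn
    filter_upwards [Metric.ball_mem_nhds (0 : ℝ × ℝ) hδ] with z hz
    obtain ⟨x, y⟩ := z
    obtain ⟨hx, hy⟩ := (hmem x y).1 hz
    exact hcon x y hx hy
  filter_upwards [Metric.ball_mem_nhds (0 : ℝ × ℝ) hδ] with z hz
  obtain ⟨x, y⟩ := z
  obtain ⟨hx, hy⟩ := (hmem x y).1 hz
  have hne' : dy L (x, y₁) ≠ 0 := fun h0 => hne (h3 x x₁ y₁ hx hx1 hy1 h0)
  have hx0 : dx L (x, y₁) = 0 := hball _ ((hmem x y₁).2 ⟨hx, hy1⟩) hne'
  have hc : dx L (x, y) = dx L (x, y₁) := by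
    refine box_const (g := fun t => dx L (x, t)) (δ := δ) ?_ hy hy1
    intro t ht
    have hd := box_hy hL.dx x t
    rw [← dx_dy hL, h4 x t hx ht] at hd
    exact hd
  rw [hc, hx0]

end H86N
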