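import Pool.Agent.Lib.H86N.Defs

/-! Calculus of the partial derivatives `dx`, `dy` of globally smooth functions on the plane. -/

open Filter Topology
open scoped ContDiff

namespace H86N

variable {F G a b : ℝ × ℝ → ℝ} {φ ψ : ℝ → ℝ}

lemma Sm.diffAt (hF : Sm F) (z : ℝ × ℝ) : DifferentiableAt ℝ F z :=
  (hF.differentiable (by simp)) z

lemma Sm1.diffAt (hF : Sm1 φ) (z : ℝ) : DifferentiableAt ℝ φ z :=
  (hF.differentiable (by simp)) z

lemma Sm.dx (hF : Sm F) : Sm (dx F) := by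
  unfold H86N.dx
  have : ContDiff ℝ ∞ (fderiv ℝ F) := hF.fderiv_right (by simp)
  exact this.clm_apply contDiff_const

lemma Sm.dy (hF : Sm F) : Sm (dy F) := by
  unfold H86N.dy
  have : ContDiff ℝ ∞ (fderiv ℝ F) := hF.fderiv_right (by simp)
  exact this.clm_apply contDiff_const

lemma Sm.iter_dy (hF : Sm F) (n : ℕ) : Sm (H86N.dy^[n] F) := by
  induction n with
  | zero => simpa using hF
  | succ n ih => rw [Function.iterate_succ_apply']; exact ih.dy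

lemma Sm.iter_dx (hF : Sm F) (n : ℕ) : Sm (H86N.dx^[n] F) := by
  induction n with
  | zero => simpa using hF
  | succ n ih => rw [Function.iterate_succ_apply']; exact ih.dx

lemma Sm1.deriv (hF : Sm1 φ) : Sm1 (deriv φ) := by
  have h := (contDiff_infty_iff_deriv (f := φ)).1 hF
  exact h.2

/-- slice `x = 0` -/
lemma Sm.slice0 (hF : Sm F) : Sm1 (fun t => F (0, t)) :=
  hF.comp (contDiff_const.prodMk contDiff_id)

/-- composition with a curve -/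
lemma Sm.curve (hF : Sm F) (hφ : Sm1 φ) (hψ : Sm1 ψ) : Sm1 (fun t => F (φ t, ψ t)) :=
  hF.comp (hφ.prodMk hψ)

lemma Sm.comp2 (hF : Sm F) (ha : Sm a) (hb : Sm b) : Sm (fun z => F (a z, b z)) :=
  hF.comp (ha.prodMk hb)

lemma Sm1.comp1 (hφ : Sm1 φ) (ha : Sm a) : Sm (fun z => φ (a z)) :=
  hφ.comp ha

lemma sm_fst : Sm (fun z : ℝ × ℝ => z.1) := contDiff_fst
lemma sm_snd : Sm (fun z : ℝ × ℝ => z.2) := contDiff_snd

/-! ### Rules -/

lemma fderiv_apply_eq (F : ℝ × ℝ → ℝ) (z v : ℝ × ℝ) :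
    fderiv ℝ F z v = dx F z * v.1 + dy F z * v.2 := by
  have h : v = v.1 • ((1 : ℝ), (0 : ℝ)) + v.2 • ((0 : ℝ), (1 : ℝ)) := by
    ext <;> simp
  conv_lhs => rw [h]
  rw [map_add, map_smul, map_smul]
  simp [dx, dy, mul_comm]

lemma dx_add (hF : Sm F) (hG : Sm G) (z : ℝ × ℝ) :
    dx (fun w => F w + G w) z = dx F z + dx G z := by
  simp only [dx]
  rw [fderiv_fun_add (hF.diffAt z) (hG.diffAt z)]; rfl

lemma dy_add (hF : Sm F) (hG : Sm G) (z : ℝ × ℝ) :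
    dy (fun w => F w + G w) z = dy F z + dy G z := by
  simp only [dy]
  rw [fderiv_fun_add (hF.diffAt z) (hG.diffAt z)]; rfl

lemma dx_sub (hF : Sm F) (hG : Sm G) (z : ℝ × ℝ) :
    dx (fun w => F w - G w) z = dx F z - dx G z := by
  simp only [dx]
  rw [fderiv_fun_sub (hF.diffAt z) (hG.diffAt z)]; rfl

lemma dy_sub (hF : Sm F) (hG : Sm G) (z : ℝ × ℝ) :
    dy (fun w => F w - G w) z = dy F z - dy G z := by
  simp only [dy]
  rw [fderiv_fun_sub (hF.diffAt z) (hG.diffAt z)]; rfl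

lemma dx_neg (z : ℝ × ℝ) : dx (fun w => - F w) z = - dx F z := by
  simp only [dx]
  rw [fderiv_fun_neg]; rfl

lemma dy_neg (z : ℝ × ℝ) : dy (fun w => - F w) z = - dy F z := by
  simp only [dy]
  rw [fderiv_fun_neg]; rfl

lemma dx_mul (hF : Sm F) (hG : Sm G) (z : ℝ × ℝ) :
    dx (fun w => F w * G w) z = dx F z * G z + F z * dx G z := by
  simp only [dx]
  rw [fderiv_fun_mul (hF.diffAt z) (hG.diffAt z)]
  simp; ring

lemma dy_mul (hF : Sm F) (hG : Sm G) (z : ℝ × ℝ) :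
    dy (fun w => F w * G w) z = dy F z * G z + F z * dy G z := by
  simp only [dy]
  rw [fderiv_fun_mul (hF.diffAt z) (hG.diffAt z)]
  simp; ring

lemma dx_const (c : ℝ) (z : ℝ × ℝ) : dx (fun _ => c) z = 0 := by simp [dx]
lemma dy_const (c : ℝ) (z : ℝ × ℝ) : dy (fun _ => c) z = 0 := by simp [dy]

lemma dx_fst (z : ℝ × ℝ) : dx (fun w : ℝ × ℝ => w.1) z = 1 := by
  have h : fderiv ℝ (fun w : ℝ × ℝ => w.1) z = ContinuousLinearMap.fst ℝ ℝ ℝ :=
    hasFDerivAt_fst.fderiv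
  simp [dx, h]
lemma dy_fst (z : ℝ × ℝ) : dy (fun w : ℝ × ℝ => w.1) z = 0 := by
  have h : fderiv ℝ (fun w : ℝ × ℝ => w.1) z = ContinuousLinearMap.fst ℝ ℝ ℝ :=
    hasFDerivAt_fst.fderiv
  simp [dy, h]
lemma dx_snd (z : ℝ × ℝ) : dx (fun w : ℝ × ℝ => w.2) z = 0 := by
  have h : fderiv ℝ (fun w : ℝ × ℝ => w.2) z = ContinuousLinearMap.snd ℝ ℝ ℝ :=
    hasFDerivAt_snd.fderiv
  simp [dx, h]
lemma dy_snd (z : ℝ × ℝ) : dy (fun w : ℝ × ℝ => w.2) z = 1 := by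
  have h : fderiv ℝ (fun w : ℝ × ℝ => w.2) z = ContinuousLinearMap.snd ℝ ℝ ℝ :=
    hasFDerivAt_snd.fderiv
  simp [dy, h]

/-- chain rule, two variables -/
lemma dx_comp2 (hF : Sm F) (ha : Sm a) (hb : Sm b) (z : ℝ × ℝ) :
    dx (fun w => F (a w, b w)) z = dx F (a z, b z) * dx a z + dy F (a z, b z) * dx b z := by
  have h : HasFDerivAt (fun w => F (a w, b w))
      ((fderiv ℝ F (a z, b z)).comp ((fderiv ℝ a z).prod (fderiv ℝ b z))) z :=
    (hF.diffAt (a z, b z)).hasFDerivAt.comp z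
      ((ha.diffAt z).hasFDerivAt.prodMk (hb.diffAt z).hasFDerivAt)
  simp only [dx]
  rw [h.fderiv]
  simp only [ContinuousLinearMap.coe_comp, Function.comp_apply, ContinuousLinearMap.prod_apply]
  rw [fderiv_apply_eq F]
  rfl

lemma dy_comp2 (hF : Sm F) (ha : Sm a) (hb : Sm b) (z : ℝ × ℝ) :
    dy (fun w => F (a w, b w)) z = dx F (a z, b z) * dy a z + dy F (a z, b z) * dy b z := by
  have h : HasFDerivAt (fun w => F (a w, b w))
      ((fderiv ℝ F (a z, b z)).comp ((fderiv ℝ a z).prod (fderiv ℝ b z))) z :=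
    (hF.diffAt (a z, b z)).hasFDerivAt.comp z
      ((ha.diffAt z).hasFDerivAt.prodMk (hb.diffAt z).hasFDerivAt)
  simp only [dy]
  rw [h.fderiv]
  simp only [ContinuousLinearMap.coe_comp, Function.comp_apply, ContinuousLinearMap.prod_apply]
  rw [fderiv_apply_eq F]
  rfl

/-- chain rule, one variable outside -/
lemma dx_comp1 (hφ : Sm1 φ) (ha : Sm a) (z : ℝ × ℝ) :
    dx (fun w => φ (a w)) z = deriv φ (a z) * dx a z := by
  have h := (hφ.diffAt (a z)).hasDerivAt.comp_hasFDerivAt z (ha.diffAt z).hasFDerivAt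
  have h' : fderiv ℝ (fun w => φ (a w)) z = deriv φ (a z) • fderiv ℝ a z := h.fderiv
  simp only [dx]
  rw [h']; rfl

lemma dy_comp1 (hφ : Sm1 φ) (ha : Sm a) (z : ℝ × ℝ) :
    dy (fun w => φ (a w)) z = deriv φ (a z) * dy a z := by
  have h := (hφ.diffAt (a z)).hasDerivAt.comp_hasFDerivAt z (ha.diffAt z).hasFDerivAt
  have h' : fderiv ℝ (fun w => φ (a w)) z = deriv φ (a z) • fderiv ℝ a z := h.fderiv
  simp only [dy]
  rw [h']; rfl

/-- chain rule along a curve -/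
lemma deriv_curve (hF : Sm F) (hφ : Sm1 φ) (hψ : Sm1 ψ) (t : ℝ) :
    deriv (fun t => F (φ t, ψ t)) t
      = dx F (φ t, ψ t) * deriv φ t + dy F (φ t, ψ t) * deriv ψ t := by
  have h := (hF.diffAt (φ t, ψ t)).hasFDerivAt.comp_hasDerivAt t
      ((hφ.diffAt t).hasDerivAt.prodMk (hψ.diffAt t).hasDerivAt)
  have h' : deriv (fun t => F (φ t, ψ t)) t = fderiv ℝ F (φ t, ψ t) (deriv φ t, deriv ψ t) :=
    h.deriv
  rw [h', fderiv_apply_eq F]

lemma deriv_slice0 (hF : Sm F) (t : ℝ) : deriv (fun t => F (0, t)) t = dy F (0, t) := by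
  have h := deriv_curve (φ := fun _ => 0) (ψ := fun t => t) hF contDiff_const contDiff_id t
  simpa using h

lemma dx_pow (hF : Sm F) (n : ℕ) (z : ℝ × ℝ) :
    dx (fun w => F w ^ n) z = n * F z ^ (n - 1) * dx F z := by
  have h := dx_comp1 (φ := fun t => t ^ n) (contDiff_id.pow n) hF z
  simpa using h

lemma dy_pow (hF : Sm F) (n : ℕ) (z : ℝ × ℝ) :
    dy (fun w => F w ^ n) z = n * F z ^ (n - 1) * dy F z := by
  have h := dy_comp1 (φ := fun t => t ^ n) (contDiff_id.pow n) hF z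
  simpa using h

/-- Schwarz -/
lemma dx_dy (hF : Sm F) (z : ℝ × ℝ) : dx (dy F) z = dy (dx F) z := by
  have h2 : ContDiffAt ℝ 2 F z := by
    have := (contDiff_infty.1 hF 2).contDiffAt (x := z)
    exact_mod_cast this
  have hs : IsSymmSndFDerivAt ℝ F z := h2.isSymmSndFDerivAt (by simp)
  have hd : DifferentiableAt ℝ (fderiv ℝ F) z :=
    ((hF.fderiv_right (m := ∞) (by simp)).differentiable (by simp)) z
  have e1 : dx (dy F) z = fderiv ℝ (fderiv ℝ F) z (1, 0) (0, 1) := by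
    have : fderiv ℝ (dy F) z = (fderiv ℝ (fderiv ℝ F) z).flip (0, 1) := by
      unfold dy
      rw [fderiv_clm_apply hd (differentiableAt_const _)]
      simp
    simp only [dx, this]; rfl
  have e2 : dy (dx F) z = fderiv ℝ (fderiv ℝ F) z (0, 1) (1, 0) := by
    have : fderiv ℝ (dx F) z = (fderiv ℝ (fderiv ℝ F) z).flip (1, 0) := by
      unfold dx
      rw [fderiv_clm_apply hd (differentiableAt_const _)]
      simp
    simp only [dy, this]; rfl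
  rw [e1, e2]
  exact hs _ _

/-! ### Germs -/

lemma germ_dx {z₀ : ℝ × ℝ} (h : F =ᶠ[𝓝 z₀] G) : dx F =ᶠ[𝓝 z₀] dx G := by
  have := h.fderiv (𝕜 := ℝ)
  filter_upwards [this] with z hz
  simp [dx, hz]

lemma germ_dy {z₀ : ℝ × ℝ} (h : F =ᶠ[𝓝 z₀] G) : dy F =ᶠ[𝓝 z₀] dy G := by
  have := h.fderiv (𝕜 := ℝ)
  filter_upwards [this] with z hz
  simp [dy, hz]

/-- an eventual property near `0` of the plane holds along a curve through `0` -/
lemma ev_curve {p : ℝ × ℝ → Prop} (h : ∀ᶠ z in 𝓝 (0 : ℝ × ℝ), p z) {φ ψ : ℝ → ℝ}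
    (hφ : Continuous φ) (hψ : Continuous ψ) (h0 : φ 0 = 0) (h1 : ψ 0 = 0) :
    ∀ᶠ t in 𝓝 (0 : ℝ), p (φ t, ψ t) := by
  have : Tendsto (fun t => (φ t, ψ t)) (𝓝 0) (𝓝 (0 : ℝ × ℝ)) := by
    have := (hφ.prodMk hψ).tendsto 0
    rw [h0, h1] at this
    exact this
  exact this.eventually h

/-- an eventual property near `0` is pulled back by a map fixing `0` -/
lemma ev_comp2 {p : ℝ × ℝ → Prop} (h : ∀ᶠ z in 𝓝 (0 : ℝ × ℝ), p z)
    (ha : Continuous a) (hb : Continuous b) (h0 : a 0 = 0) (h1 : b 0 = 0) :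
    ∀ᶠ z in 𝓝 (0 : ℝ × ℝ), p (a z, b z) := by
  have : Tendsto (fun t => (a t, b t)) (𝓝 0) (𝓝 (0 : ℝ × ℝ)) := by
    have := (ha.prodMk hb).tendsto 0
    rw [h0, h1] at this
    exact this
  exact this.eventually h

lemma ev_slice0 {p : ℝ × ℝ → Prop} (h : ∀ᶠ z in 𝓝 (0 : ℝ × ℝ), p z) :
    ∀ᶠ t in 𝓝 (0 : ℝ), p (0, t) :=
  ev_curve h continuous_const continuous_id rfl rfl

/-- a property of the first coordinate near `0` holds near `0` in the plane -/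
lemma ev_fst {p : ℝ → Prop} (h : ∀ᶠ t in 𝓝 (0 : ℝ), p t) :
    ∀ᶠ z in 𝓝 (0 : ℝ × ℝ), p z.1 :=
  (continuous_fst.tendsto (0 : ℝ × ℝ)).eventually h

lemma ev_snd {p : ℝ → Prop} (h : ∀ᶠ t in 𝓝 (0 : ℝ), p t) :
    ∀ᶠ z in 𝓝 (0 : ℝ × ℝ), p z.2 :=
  (continuous_snd.tendsto (0 : ℝ × ℝ)).eventually h

/-- cancellation of a power of `x` in an identity of germs -/
lemma cancel_x {A B : ℝ × ℝ → ℝ} (hA : Continuous A) (hB : Continuous B) (n : ℕ)
    (h : ∀ᶠ z in 𝓝 (0 : ℝ × ℝ), z.1 ^ n * A z = z.1 ^ n * B z) :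
    ∀ᶠ z in 𝓝 (0 : ℝ × ℝ), A z = B z := by
  obtain ⟨U, hU, hUo, h0⟩ := eventually_nhds_iff.1 h
  refine eventually_nhds_iff.2 ⟨U, ?_, hUo, h0⟩
  intro z hz
  by_contra hne
  have hopen : IsOpen {w | A w ≠ B w} := isOpen_ne_fun hA hB
  have hlim : Tendsto (fun t : ℝ => (z.1 + t, z.2)) (𝓝[≠] 0) (𝓝 z) := by
    have : Tendsto (fun t : ℝ => (z.1 + t, z.2)) (𝓝 0) (𝓝 (z.1 + 0, z.2)) := by
      apply Continuous.tendsto; fun_prop
    simpa using this.mono_left nhdsWithin_le_nhds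
  have h1 : ∀ᶠ t in 𝓝[≠] (0 : ℝ), (z.1 + t, z.2) ∈ U ∩ {w | A w ≠ B w} :=
    hlim.eventually ((hUo.inter hopen).mem_nhds ⟨hz, hne⟩)
  have h2 : ∀ᶠ t in 𝓝[≠] (0 : ℝ), z.1 + t ≠ 0 := by
    by_cases hz1 : z.1 = 0
    · filter_upwards [self_mem_nhdsWithin] with t ht
      simpa [hz1] using ht
    · have : Tendsto (fun t : ℝ => z.1 + t) (𝓝[≠] 0) (𝓝 z.1) := by
        have : Tendsto (fun t : ℝ => z.1 + t) (𝓝 0) (𝓝 (z.1 + 0)) := by
          apply Continuous.tendsto; fun_prop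
        simpa using this.mono_left nhdsWithin_le_nhds
      exact this.eventually_ne hz1
  obtain ⟨t, ht1, ht2⟩ := (h1.and h2).exists
  have := hU _ ht1.1
  exact ht1.2 (mul_left_cancel₀ (pow_ne_zero n ht2) this)

/-- cancellation of a power of `y - ρ x` in an identity of germs -/
lemma cancel_y {A B : ℝ × ℝ → ℝ} {ρ : ℝ → ℝ} (hA : Continuous A) (hB : Continuous B) (n : ℕ)
    (h : ∀ᶠ z in 𝓝 (0 : ℝ × ℝ), (z.2 - ρ z.1) ^ n * A z = (z.2 - ρ z.1) ^ n * B z) :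
    ∀ᶠ z in 𝓝 (0 : ℝ × ℝ), A z = B z := by
  obtain ⟨U, hU, hUo, h0⟩ := eventually_nhds_iff.1 h
  refine eventually_nhds_iff.2 ⟨U, ?_, hUo, h0⟩
  intro z hz
  by_contra hne
  have hopen : IsOpen {w | A w ≠ B w} := isOpen_ne_fun hA hB
  have hlim : Tendsto (fun t : ℝ => (z.1, z.2 + t)) (𝓝[≠] 0) (𝓝 z) := by
    have : Tendsto (fun t : ℝ => (z.1, z.2 + t)) (𝓝 0) (𝓝 (z.1, z.2 + 0)) := by
      apply Continuous.tendsto; fun_prop
    simpa using this.mono_left nhdsWithin_le_nhds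
  have h1 : ∀ᶠ t in 𝓝[≠] (0 : ℝ), (z.1, z.2 + t) ∈ U ∩ {w | A w ≠ B w} :=
    hlim.eventually ((hUo.inter hopen).mem_nhds ⟨hz, hne⟩)
  have h2 : ∀ᶠ t in 𝓝[≠] (0 : ℝ), z.2 + t - ρ z.1 ≠ 0 := by
    by_cases hz1 : z.2 - ρ z.1 = 0
    · filter_upwards [self_mem_nhdsWithin] with t ht
      intro h
      apply ht
      simp only [Set.mem_singleton_iff]
      linarith
    · have : Tendsto (fun t : ℝ => z.2 + t - ρ z.1) (𝓝[≠] 0) (𝓝 (z.2 - ρ z.1)) := by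
        have : Tendsto (fun t : ℝ => z.2 + t - ρ z.1) (𝓝 0) (𝓝 (z.2 + 0 - ρ z.1)) := by
          apply Continuous.tendsto; fun_prop
        simpa using this.mono_left nhdsWithin_le_nhds
      exact this.eventually_ne hz1
  obtain ⟨t, ht1, ht2⟩ := (h1.and h2).exists
  have := hU _ ht1.1
  exact ht1.2 (mul_left_cancel₀ (pow_ne_zero n ht2) this)

end H86N
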