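import Pool.Agent.Lib.H86N.FlatD

/-! Chunk CURVE: the relation `θ i + J μ = κ`. -/

open Filter Topology Asymptotics
open scoped ContDiff

namespace H86N

/-- derivative of `t^J ψ t` -/
lemma curve_dpow {ψ : ℝ → ℝ} (hψ : Sm1 ψ) (J : ℕ) (t : ℝ) :
    deriv (fun s => s ^ J * ψ s) t = J * t ^ (J - 1) * ψ t + t ^ J * deriv ψ t := by
  have h1 : HasDerivAt (fun s : ℝ => s ^ J) (J * t ^ (J - 1)) t := hasDerivAt_pow J t
  exact (h1.mul (hψ.diffAt t).hasDerivAt).deriv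

/-- dividing a big O by a power -/
lemma curve_div {e : ℝ → ℝ} {a n : ℕ}
    (h : (fun t : ℝ => t ^ a * e t) =O[𝓝 0] fun t => t ^ (a + n)) :
    ∃ C : ℝ, ∀ᶠ t in 𝓝[≠] (0 : ℝ), |e t| ≤ C * |t| ^ n := by
  obtain ⟨C, hC⟩ := h.bound
  refine ⟨C, ?_⟩
  have h1 : ∀ᶠ t in 𝓝[≠] (0 : ℝ), ‖t ^ a * e t‖ ≤ C * ‖t ^ (a + n)‖ :=
    hC.filter_mono nhdsWithin_le_nhds
  filter_upwards [h1, self_mem_nhdsWithin] with t ht ht0
  have ht0' : 0 < |t| ^ a := pow_pos (abs_pos.2 ht0) a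
  rw [norm_mul, norm_pow, norm_pow, Real.norm_eq_abs, Real.norm_eq_abs, pow_add] at ht
  refine le_of_mul_le_mul_left ?_ ht0'
  linarith

/-- Insert the decomposition into the equation: near `0`
`∑_{m<i} x^m [(θ m - κ) φ_m(y) + g φ_m'(y)] + x^i E(x,y) = 0`,
`E = (θ i - κ) B + θ x B_x + g B_y` smooth. On the curve `x = y^n` (`n = J + 1`) this gives
`|E(y^n, y)| ≤ C |y|^n` because `φ_m, φ_m'` are `O(|y|^(n i + n))` (`flat1_deriv`), divide by
`y^(n i)`, `y ≠ 0`. Since `E` is `C¹`, `|E(0,y)| ≤ C |y|^(J+1)`. But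
`E(0,y) = y^J [(θ i - κ) ψ + g(0,y)/y (J ψ + y ψ')]` and `g(0,y)/y → g_y(0)` as `y → 0`
(`g(0) = 0`). Divide by `y^J` and let `y → 0`: `(θ i - κ + J g_y(0)) ψ(0) = 0`. -/
theorem curve {θ κ : ℝ} {g F B : ℝ × ℝ → ℝ} {i J : ℕ} {φ : ℕ → ℝ → ℝ} {ψ : ℝ → ℝ}
    (hg : Sm g) (hF : Sm F) (hP : PDE θ κ g F) (hD : Dec F i φ B)
    (hb : Lead (fun t => B (0, t)) J ψ) (hg0 : g 0 = 0) : θ * i + J * dy g 0 = κ := by
  obtain ⟨hB, hφ, hfl, hdec⟩ := hD
  obtain ⟨hψ, hψ0, hbψ⟩ := hb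
  set n : ℕ := J + 1 with hn
  set E : ℝ × ℝ → ℝ := fun z => (θ * i - κ) * B z + θ * (z.1 * dx B z) + g z * dy B z with hEdef
  have hE : Sm E := by
    refine ContDiff.add (ContDiff.add ?_ ?_) ?_
    · exact contDiff_const.mul hB
    · exact contDiff_const.mul (sm_fst.mul hB.dx)
    · exact hg.mul hB.dy
  -- the decomposition, differentiated
  set S : ℝ × ℝ → ℝ := fun z => ∑ m ∈ Finset.range i, z.1 ^ m * φ m z.2 with hSdef
  have hsm : ∀ m, Sm (fun z : ℝ × ℝ => z.1 ^ m * φ m z.2) := fun m =>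
    (sm_fst.pow m).mul ((hφ m).comp1 sm_snd)
  have hS : Sm S := ContDiff.sum fun m _ => hsm m
  have hxm : ∀ m z, z.1 * dx (fun w : ℝ × ℝ => w.1 ^ m * φ m w.2) z = m * (z.1 ^ m * φ m z.2) := by
    intro m z
    rw [dx_mul (sm_fst.pow m) ((hφ m).comp1 sm_snd), dx_pow sm_fst, dx_fst,
      dx_comp1 (hφ m) sm_snd, dx_snd]
    rcases m with _ | m
    · simp
    · simp only [Nat.add_sub_cancel]
      ring
  have hym : ∀ m z, dy (fun w : ℝ × ℝ => w.1 ^ m * φ m w.2) z = z.1 ^ m * deriv (φ m) z.2 := by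
    intro m z
    rw [dy_mul (sm_fst.pow m) ((hφ m).comp1 sm_snd), dy_pow sm_fst, dy_fst,
      dy_comp1 (hφ m) sm_snd, dy_snd]
    ring
  have hdxS : ∀ z, z.1 * dx S z = ∑ m ∈ Finset.range i, m * (z.1 ^ m * φ m z.2) := by
    intro z
    have h1 : dx S z = ∑ m ∈ Finset.range i, dx (fun w : ℝ × ℝ => w.1 ^ m * φ m w.2) z := by
      simp only [dx, hSdef]
      rw [fderiv_fun_sum fun m _ => (hsm m).diffAt z]
      simp
    rw [h1, Finset.mul_sum]
    exact Finset.sum_congr rfl fun m _ => hxm m z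
  have hdyS : ∀ z, dy S z = ∑ m ∈ Finset.range i, z.1 ^ m * deriv (φ m) z.2 := by
    intro z
    have h1 : dy S z = ∑ m ∈ Finset.range i, dy (fun w : ℝ × ℝ => w.1 ^ m * φ m w.2) z := by
      simp only [dy, hSdef]
      rw [fderiv_fun_sum fun m _ => (hsm m).diffAt z]
      simp
    rw [h1]
    exact Finset.sum_congr rfl fun m _ => hym m z
  have hxi : Sm (fun z : ℝ × ℝ => z.1 ^ i) := sm_fst.pow i
  have hdxT : ∀ z, z.1 * dx (fun w : ℝ × ℝ => w.1 ^ i * B w) z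
      = z.1 ^ i * (i * B z + z.1 * dx B z) := by
    intro z
    rw [dx_mul hxi hB, dx_pow sm_fst, dx_fst]
    rcases i with _ | i
    · simp
    · simp only [Nat.add_sub_cancel]
      ring
  have hdyT : ∀ z, dy (fun w : ℝ × ℝ => w.1 ^ i * B w) z = z.1 ^ i * dy B z := by
    intro z
    rw [dy_mul hxi hB, dy_pow sm_fst, dy_fst]
    simp
  have hFe : F =ᶠ[𝓝 0] fun z => S z + z.1 ^ i * B z := hdec
  have hid : ∀ᶠ z in 𝓝 (0 : ℝ × ℝ), z.1 ^ i * E z =
      - ∑ m ∈ Finset.range i, z.1 ^ m * ((θ * m - κ) * φ m z.2 + g z * deriv (φ m) z.2) := by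
    filter_upwards [hP, hFe, germ_dx hFe, germ_dy hFe] with z h1 h2 h3 h4
    rw [dx_add hS (hxi.mul hB)] at h3
    rw [dy_add hS (hxi.mul hB)] at h4
    have h5 : z.1 * dx F z = z.1 * dx S z + z.1 * dx (fun w : ℝ × ℝ => w.1 ^ i * B w) z := by
      rw [h3]; ring
    rw [h5, h4, h2, hdxS, hdxT, hdyS, hdyT] at h1
    have h6 : ∑ m ∈ Finset.range i, z.1 ^ m * ((θ * m - κ) * φ m z.2 + g z * deriv (φ m) z.2)
        = θ * ∑ m ∈ Finset.range i, m * (z.1 ^ m * φ m z.2)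
          + g z * ∑ m ∈ Finset.range i, z.1 ^ m * deriv (φ m) z.2
          - κ * ∑ m ∈ Finset.range i, z.1 ^ m * φ m z.2 := by
      simp only [Finset.mul_sum]
      rw [← Finset.sum_add_distrib, ← Finset.sum_sub_distrib]
      refine Finset.sum_congr rfl fun m _ => ?_
      ring
    rw [h6, hEdef]
    simp only [hSdef] at h1
    linear_combination h1
  -- along the curve
  have hcont_pow : Continuous fun t : ℝ => t ^ n := continuous_pow n
  have hpow0 : (fun t : ℝ => t ^ n) 0 = 0 := by simp [hn]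
  have hid2 := ev_curve hid hcont_pow continuous_id hpow0 rfl
  have hbig : (fun t : ℝ => t ^ (n * i) * E (t ^ n, t)) =O[𝓝 0] fun t => t ^ (n * i + n) := by
    have h1 : (fun t : ℝ => - ∑ m ∈ Finset.range i, (t ^ n) ^ m * ((θ * m - κ) * φ m t
        + g (t ^ n, t) * deriv (φ m) t)) =O[𝓝 0] fun t => t ^ (n * i + n) := by
      refine IsBigO.neg_left (f' := fun t : ℝ => ∑ m ∈ Finset.range i, (t ^ n) ^ m *
        ((θ * m - κ) * φ m t + g (t ^ n, t) * deriv (φ m) t)) ?_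
      refine IsBigO.fun_sum (A := fun (m : ℕ) (t : ℝ) => (t ^ n) ^ m *
        ((θ * m - κ) * φ m t + g (t ^ n, t) * deriv (φ m) t)) fun m hm => ?_
      have hm' := Finset.mem_range.1 hm
      have h2 : (fun t : ℝ => (t ^ n) ^ m) =O[𝓝 0] fun _ => (1 : ℝ) := by
        have : Continuous fun t : ℝ => (t ^ n) ^ m := by fun_prop
        exact (this.tendsto 0).isBigO_one ℝ
      have h3 : (fun t : ℝ => g (t ^ n, t)) =O[𝓝 0] fun _ => (1 : ℝ) := by
        have : Continuous fun t : ℝ => g (t ^ n, t) := hg.continuous.comp (by fun_prop)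
        exact (this.tendsto 0).isBigO_one ℝ
      have h4 : (fun t : ℝ => (θ * m - κ) * φ m t) =O[𝓝 0] fun t => t ^ (n * i + n) :=
        (hfl m hm' _).const_mul_left _
      have h5 : (fun t : ℝ => g (t ^ n, t) * deriv (φ m) t) =O[𝓝 0] fun t => t ^ (n * i + n) := by
        have := h3.mul (flat1_deriv (hφ m) (hfl m hm') (n * i + n))
        simpa using this
      have := h2.mul (h4.add h5)
      simpa using this
    refine h1.congr' ?_ EventuallyEq.rfl
    filter_upwards [hid2] with t ht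
    simp only [id] at ht
    rw [← ht, pow_mul]
  obtain ⟨C, hC⟩ := curve_div hbig
  -- Lipschitz
  obtain ⟨K, s, hs, hK⟩ := ((hE.of_le (m := 1) (by exact_mod_cast le_top)).contDiffAt
    (x := (0 : ℝ × ℝ))).exists_lipschitzOnWith
  have hs1 : ∀ᶠ t in 𝓝 (0 : ℝ), (t ^ n, t) ∈ s := ev_curve hs hcont_pow continuous_id hpow0 rfl
  have hs2 : ∀ᶠ t in 𝓝 (0 : ℝ), ((0 : ℝ), t) ∈ s := ev_slice0 hs
  have hE0 : ∀ᶠ t in 𝓝[≠] (0 : ℝ), |E (0, t)| ≤ (C + K) * |t| ^ n := by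
    filter_upwards [hC, hs1.filter_mono nhdsWithin_le_nhds,
      hs2.filter_mono nhdsWithin_le_nhds] with t h1 h2 h3
    have h4 := hK.dist_le_mul _ h2 _ h3
    have h5 : dist ((t ^ n, t) : ℝ × ℝ) (0, t) = |t| ^ n := by
      rw [Prod.dist_eq]
      simp
    rw [h5, Real.dist_eq] at h4
    have h6 : |E (0, t)| ≤ |E (t ^ n, t)| + |E (t ^ n, t) - E (0, t)| := by
      have := abs_sub_abs_le_abs_sub (E (0, t)) (E (t ^ n, t))
      rw [abs_sub_comm] at this
      linarith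
    linarith
  -- the value on the line
  have hderiv : ∀ᶠ t in 𝓝 (0 : ℝ), dy B (0, t) = J * t ^ (J - 1) * ψ t + t ^ J * deriv ψ t := by
    have h1 : (fun t => B (0, t)) =ᶠ[𝓝 0] fun t => t ^ J * ψ t := hbψ
    filter_upwards [h1.deriv] with t ht
    rw [← deriv_slice0 hB, ht, curve_dpow hψ]
  set L : ℝ → ℝ := fun t => (θ * i - κ) * ψ t + J * (g (0, t) / t) * ψ t + g (0, t) * deriv ψ t
    with hL
  have hEL : ∀ᶠ t in 𝓝[≠] (0 : ℝ), E (0, t) = t ^ J * L t := by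
    filter_upwards [hbψ.filter_mono nhdsWithin_le_nhds,
      hderiv.filter_mono nhdsWithin_le_nhds, self_mem_nhdsWithin] with t h1 h2 h3
    have h3' : t ≠ 0 := h3
    simp only [hEdef, hL]
    rw [h2, h1]
    rcases J with _ | J
    · simp
    · simp only [Nat.add_sub_cancel]
      field_simp
      ring
  have hlim1 : Tendsto L (𝓝[≠] 0) (𝓝 ((θ * i - κ) * ψ 0 + J * dy g 0 * ψ 0 + 0 * deriv ψ 0)) := by
    have t1 : Tendsto ψ (𝓝[≠] 0) (𝓝 (ψ 0)) :=
      (hψ.continuous.tendsto 0).mono_left nhdsWithin_le_nhds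
    have t2 : Tendsto (deriv ψ) (𝓝[≠] 0) (𝓝 (deriv ψ 0)) :=
      (hψ.deriv.continuous.tendsto 0).mono_left nhdsWithin_le_nhds
    have t3 : Tendsto (fun t => g (0, t)) (𝓝[≠] 0) (𝓝 0) := by
      have h1 := (hg.slice0.continuous.tendsto 0).mono_left
        (nhdsWithin_le_nhds (s := ({0}ᶜ : Set ℝ)))
      have h2 : g (0, 0) = 0 := hg0
      simpa [h2] using h1
    have t4 : Tendsto (fun t => g (0, t) / t) (𝓝[≠] 0) (𝓝 (dy g 0)) := by
      have h1 : HasDerivAt (fun t => g (0, t)) (dy g (0, 0)) 0 := by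
        have := (hg.slice0.diffAt 0).hasDerivAt
        rwa [deriv_slice0 hg] at this
      have h2 := hasDerivAt_iff_tendsto_slope.1 h1
      refine h2.congr' ?_
      filter_upwards with t
      have h3 : g (0, 0) = 0 := hg0
      simp [slope_def_field, h3]
    exact (((t1.const_mul _).add ((t4.const_mul _).mul t1))).add (t3.mul t2)
  have hlim2 : Tendsto L (𝓝[≠] 0) (𝓝 0) := by
    have hb1 : ∀ᶠ t in 𝓝[≠] (0 : ℝ), ‖L t‖ ≤ (C + K) * |t| := by
      filter_upwards [hEL, hE0, self_mem_nhdsWithin] with t h1 h2 h3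
      have h3' : t ≠ 0 := h3
      rw [h1, abs_mul, abs_pow, hn, pow_succ] at h2
      have h4 : 0 < |t| ^ J := pow_pos (abs_pos.2 h3') J
      rw [Real.norm_eq_abs]
      refine le_of_mul_le_mul_left ?_ h4
      linarith
    have hb2 : Tendsto (fun t : ℝ => (C + K) * |t|) (𝓝[≠] 0) (𝓝 0) := by
      have : Continuous fun t : ℝ => (C + K) * |t| := by fun_prop
      have h5 := (this.tendsto 0).mono_left (nhdsWithin_le_nhds (s := ({0}ᶜ : Set ℝ)))
      simpa using h5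
    exact squeeze_zero_norm' hb1 hb2
  have huniq := tendsto_nhds_unique hlim1 hlim2
  have h7 : (θ * i + J * dy g 0 - κ) * ψ 0 = 0 := by linear_combination huniq
  rcases mul_eq_zero.1 h7 with h | h
  · linarith
  · exact absurd h hψ0

end H86N
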