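import Pool.Agent.Lib.H86N.Had

/-! Chunk DIV: division by `(y - ρ x)^J`. -/

open Filter Topology Asymptotics
open scoped ContDiff

namespace H86N

/-- Hadamard in `y` around the curve `y = ρ x` (apply `had_y` to `B (x, y + ρ x)` and substitute
back) -/
theorem had_curve {B : ℝ × ℝ → ℝ} {ρ : ℝ → ℝ} (hB : Sm B) (hρ : Sm1 ρ) :
    ∃ V : ℝ × ℝ → ℝ, Sm V ∧ ∀ z, B z = B (z.1, ρ z.1) + (z.2 - ρ z.1) * V z := by
  have hρ1 : Sm fun z : ℝ × ℝ => ρ z.1 := hρ.comp1 sm_fst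
  obtain ⟨H, h1, h2⟩ := had_y (hB.comp2 sm_fst (sm_snd.add hρ1))
  refine ⟨fun z => H (z.1, z.2 - ρ z.1), h1.comp2 sm_fst (sm_snd.sub hρ1), fun z => ?_⟩
  have h3 := h2 (z.1, z.2 - ρ z.1)
  simpa using h3

/-- the derivative of a product with `y - ρ x` -/
theorem div_dy {V : ℝ × ℝ → ℝ} {ρ : ℝ → ℝ} (hV : Sm V) (hρ : Sm1 ρ) (m : ℕ) (z : ℝ × ℝ) :
    dy^[m + 1] (fun z => (z.2 - ρ z.1) * V z) z = (m + 1) * dy^[m] V z + (z.2 - ρ z.1) * dy^[m + 1] V z := by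
  have hρ1 : Sm fun z : ℝ × ℝ => ρ z.1 := hρ.comp1 sm_fst
  have hs : Sm fun z : ℝ × ℝ => z.2 - ρ z.1 := sm_snd.sub hρ1
  have hs1 : ∀ z : ℝ × ℝ, dy (fun z : ℝ × ℝ => z.2 - ρ z.1) z = 1 := by
    intro z
    rw [dy_sub sm_snd hρ1, dy_snd, dy_comp1 hρ sm_fst, dy_fst]
    ring
  induction m generalizing z with
  | zero =>
    rw [Function.iterate_one, Function.iterate_zero, id, dy_mul hs hV, hs1]
    push_cast
    ring
  | succ m ih =>
    rw [Function.iterate_succ_apply']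
    have h1 : dy^[m + 1] (fun z => (z.2 - ρ z.1) * V z)
        = fun z => ((m : ℝ) + 1) * dy^[m] V z + (z.2 - ρ z.1) * dy^[m + 1] V z := by
      funext w
      exact ih w
    have h2 : Sm fun z : ℝ × ℝ => ((m : ℝ) + 1) * dy^[m] V z := contDiff_const.mul (hV.iter_dy m)
    have h3 : Sm fun z : ℝ × ℝ => (z.2 - ρ z.1) * dy^[m + 1] V z := hs.mul (hV.iter_dy (m + 1))
    rw [h1, dy_add h2 h3, dy_mul contDiff_const (hV.iter_dy m), dy_const, dy_mul hs (hV.iter_dy (m + 1)), hs1,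
      ← Function.iterate_succ_apply' dy m V, ← Function.iterate_succ_apply' dy (m + 1) V]
    push_cast
    ring

theorem div_germ {F G : ℝ × ℝ → ℝ} (h : F =ᶠ[𝓝 0] G) (m : ℕ) : dy^[m] F =ᶠ[𝓝 0] dy^[m] G := by
  induction m with
  | zero => exact h
  | succ m ih =>
    rw [Function.iterate_succ_apply', Function.iterate_succ_apply']
    exact germ_dy ih

/-- Induction on `J`: `B = (y - ρ x) V` near `0` by `had_curve` (`m = 0`), and
`dy^[m+1] B = (m+1) dy^[m] V + (y - ρ x) dy^[m+1] V` near `0` gives `dy^[m] V (x, ρ x) = 0` for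
`m < J - 1`. (`ρ 0 = 0` so that the curve stays near `0`.) -/
theorem div_curve {B : ℝ × ℝ → ℝ} {ρ : ℝ → ℝ} {J : ℕ} (hB : Sm B) (hρ : Sm1 ρ) (hρ0 : ρ 0 = 0)
    (h : ∀ m < J, ∀ᶠ x in 𝓝 (0 : ℝ), dy^[m] B (x, ρ x) = 0) :
    ∃ V : ℝ × ℝ → ℝ, Sm V ∧ ∀ᶠ z in 𝓝 (0 : ℝ × ℝ), B z = (z.2 - ρ z.1) ^ J * V z := by
  induction J generalizing B with
  | zero => exact ⟨B, hB, Eventually.of_forall fun z => by simp⟩
  | succ J ih =>
    obtain ⟨V, hV, h1⟩ := had_curve hB hρ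
    have h2 : B =ᶠ[𝓝 0] fun z => (z.2 - ρ z.1) * V z := by
      have h3 := ev_fst (h 0 (by omega))
      filter_upwards [h3] with z hz
      rw [Function.iterate_zero, id] at hz
      rw [h1 z, hz, zero_add]
    have h4 : ∀ m < J, ∀ᶠ x in 𝓝 (0 : ℝ), dy^[m] V (x, ρ x) = 0 := by
      intro m hm
      have e1 := div_germ h2 (m + 1)
      have e2 := ev_curve (φ := fun x => x) e1 continuous_id hρ.continuous rfl hρ0
      filter_upwards [e2, h (m + 1) (by omega)] with x hx1 hx2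
      rw [hx2, div_dy hV hρ] at hx1
      have e3 : ((m : ℝ) + 1) * dy^[m] V (x, ρ x) = 0 := by
        rw [hx1]; simp
      have e4 : (m : ℝ) + 1 ≠ 0 := by positivity
      exact (mul_eq_zero.1 e3).resolve_left e4
    obtain ⟨W, hW, h5⟩ := ih hV h4
    refine ⟨W, hW, ?_⟩
    filter_upwards [h2, h5] with z a b
    rw [a, b, pow_succ]
    ring

/-- `t^J V(0,t) = t^J ψ(t)` near `0` -/
theorem div_lead {B V : ℝ × ℝ → ℝ} {ρ : ℝ → ℝ} {J : ℕ} {ψ : ℝ → ℝ} (hρ0 : ρ 0 = 0) (hV : Sm V)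
    (h : ∀ᶠ z in 𝓝 (0 : ℝ × ℝ), B z = (z.2 - ρ z.1) ^ J * V z)
    (hb : Lead (fun t => B (0, t)) J ψ) : V 0 ≠ 0 := by
  obtain ⟨h1, h2, h3⟩ := hb
  have h4 : ∀ᶠ t in 𝓝[≠] (0 : ℝ), V (0, t) = ψ t := by
    filter_upwards [self_mem_nhdsWithin, ((ev_slice0 h).and h3).filter_mono nhdsWithin_le_nhds] with t ht ht2
    obtain ⟨e1, e2⟩ := ht2
    rw [e2] at e1
    simp only [hρ0, sub_zero] at e1
    have ht' : t ^ J ≠ 0 := pow_ne_zero _ ht
    exact (mul_left_cancel₀ ht' e1).symm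
  have h5 : Tendsto (fun t => V (0, t)) (𝓝[≠] (0 : ℝ)) (𝓝 (V (0, 0))) :=
    (hV.slice0.continuous.tendsto 0).mono_left nhdsWithin_le_nhds
  have h6 : Tendsto ψ (𝓝[≠] (0 : ℝ)) (𝓝 (ψ 0)) := (h1.continuous.tendsto 0).mono_left nhdsWithin_le_nhds
  have h7 := tendsto_nhds_unique (h5.congr' h4) h6
  have h8 : V 0 = ψ 0 := h7
  rw [h8]
  exact h2

end H86N
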