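import Pool.Agent.Lib.H86N.Base

/-! Chunk LEIB: the equations for the `y`-derivatives along a curve. -/

open Filter Topology Asymptotics
open scoped ContDiff

namespace H86N

/-- rearrangement of the sum in the induction step of `leib` -/
lemma leib_sum (m : ℕ) (c d : ℕ → ℝ) (D : ℕ → ℝ) (a : ℝ) :
    ∑ k ∈ Finset.range m, (d k * D k + c k * D (k + 1)) + a * D m =
      ∑ k ∈ Finset.range (m + 1), ((if k < m then d k else 0) + (if 1 ≤ k then c (k - 1) else 0)
        + (if k = m then a else 0)) * D k := by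
  have h1 : ∑ k ∈ Finset.range (m + 1), (if k < m then d k else 0) * D k
      = ∑ k ∈ Finset.range m, d k * D k := by
    rw [Finset.sum_range_succ]
    simp only [lt_irrefl, if_false, zero_mul, add_zero]
    refine Finset.sum_congr rfl fun k hk => ?_
    rw [if_pos (Finset.mem_range.1 hk)]
  have h2 : ∑ k ∈ Finset.range (m + 1), (if 1 ≤ k then c (k - 1) else 0) * D k
      = ∑ k ∈ Finset.range m, c k * D (k + 1) := by
    rw [Finset.sum_range_succ']
    simp
  have h3 : ∑ k ∈ Finset.range (m + 1), (if k = m then a else 0) * D k = a * D m := by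
    rw [Finset.sum_range_succ]
    simp only [if_true]
    have : ∑ k ∈ Finset.range m, (if k = m then a else 0) * D k = 0 := by
      refine Finset.sum_eq_zero fun k hk => ?_
      rw [if_neg (Finset.mem_range.1 hk).ne, zero_mul]
    rw [this, zero_add]
  simp only [add_mul, Finset.sum_add_distrib]
  rw [h1, h2, h3]

/-- `∂_y` of a finite sum of products -/
lemma leib_dy_sum {c D : ℕ → ℝ × ℝ → ℝ} (hc : ∀ k, Sm (c k)) (hD : ∀ k, Sm (D k)) (m : ℕ)
    (z : ℝ × ℝ) :
    dy (fun w => ∑ k ∈ Finset.range m, c k w * D k w) z =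
      ∑ k ∈ Finset.range m, (dy (c k) z * D k z + c k z * dy (D k) z) := by
  induction m with
  | zero => simp [dy_const]
  | succ m ih =>
    simp only [Finset.sum_range_succ]
    have hs : Sm (fun w => ∑ k ∈ Finset.range m, c k w * D k w) :=
      ContDiff.sum fun k _ => (hc k).mul (hD k)
    rw [dy_add hs ((hc m).mul (hD m)), ih, dy_mul (hc m) (hD m)]

/-- Induction on `m`, differentiate: `∂_y (g D^{m+1}B) = g_y D^{m+1}B + g D^{m+2}B`,
`∂_y (m g_y D^m B) = m g_yy D^m B + m g_y D^{m+1} B`, `∂_y (c_k D^k B) = (c_k)_y D^k B + c_k D^{k+1} B`. -/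
theorem leib {g B : ℝ × ℝ → ℝ} (hg : Sm g) (hB : Sm B) (m : ℕ) :
    ∃ c : ℕ → ℝ × ℝ → ℝ, (∀ k, Sm (c k)) ∧ ∀ z,
      dy^[m] (fun w => g w * dy B w) z =
        g z * dy^[m + 1] B z + m * dy g z * dy^[m] B z + ∑ k ∈ Finset.range m, c k z * dy^[k] B z := by
  induction m with
  | zero =>
    refine ⟨fun _ _ => 0, fun _ => contDiff_const, fun z => ?_⟩
    simp
  | succ m ih =>
    obtain ⟨c, hc, h⟩ := ih
    have hD : ∀ k, Sm (dy^[k] B) := fun k => hB.iter_dy k
    have hS : ∀ k, dy (dy^[k] B) = dy^[k + 1] B := fun k =>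
      (Function.iterate_succ_apply' dy k B).symm
    refine ⟨fun k z => (if k < m then dy (c k) z else 0) + (if 1 ≤ k then c (k - 1) z else 0)
        + (if k = m then m * dy (dy g) z else 0), ?_, ?_⟩
    · intro k
      have a1 : Sm (fun z => if k < m then dy (c k) z else 0) := by
        by_cases hk : k < m
        · simpa [hk] using (hc k).dy
        · simp only [hk, if_false]
          exact contDiff_const
      have a2 : Sm (fun z => if 1 ≤ k then c (k - 1) z else 0) := by
        by_cases hk : 1 ≤ k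
        · simpa [hk] using hc (k - 1)
        · simp only [hk, if_false]
          exact contDiff_const
      have a3 : Sm (fun z => if k = m then (m : ℝ) * dy (dy g) z else 0) := by
        by_cases hk : k = m
        · simpa [hk] using contDiff_const.mul hg.dy.dy
        · simp only [hk, if_false]
          exact contDiff_const
      exact (a1.add a2).add a3
    · intro z
      have hfun : dy^[m] (fun w => g w * dy B w) = fun z =>
          (g z * dy^[m + 1] B z + (m : ℝ) * dy g z * dy^[m] B z)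
            + ∑ k ∈ Finset.range m, c k z * dy^[k] B z := funext h
      rw [Function.iterate_succ_apply', hfun]
      have s1 : Sm (fun z => g z * dy^[m + 1] B z) := hg.mul (hD _)
      have s2 : Sm (fun z => (m : ℝ) * dy g z * dy^[m] B z) :=
        (contDiff_const.mul hg.dy).mul (hD _)
      have s3 : Sm (fun z => ∑ k ∈ Finset.range m, c k z * dy^[k] B z) :=
        ContDiff.sum fun k _ => (hc k).mul (hD k)
      have s4 : Sm (fun z => (m : ℝ) * dy g z) := contDiff_const.mul hg.dy
      have s5 : Sm (fun z => g z * dy^[m + 1] B z + (m : ℝ) * dy g z * dy^[m] B z) := s1.add s2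
      rw [dy_add s5 s3, dy_add s1 s2, dy_mul hg (hD _), dy_mul s4 (hD _),
        dy_mul (F := fun _ => (m : ℝ)) contDiff_const hg.dy, dy_const,
        leib_dy_sum hc hD, hS, hS]
      simp only [hS]
      have := leib_sum m (fun k => c k z) (fun k => dy (c k) z) (fun k => dy^[k] B z)
        (m * dy (dy g) z)
      rw [← this]
      push_cast
      ring

/-- `∂_y^m` commutes with `∂_x` and with multiplication by `x`. -/
theorem iter_x_dx {B : ℝ × ℝ → ℝ} (hB : Sm B) (m : ℕ) (z : ℝ × ℝ) :
    dy^[m] (fun w => w.1 * dx B w) z = z.1 * dx (dy^[m] B) z := by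
  induction m generalizing z with
  | zero => simp
  | succ m ih =>
    have hfun : dy^[m] (fun w => w.1 * dx B w) = fun z => z.1 * dx (dy^[m] B) z := funext ih
    rw [Function.iterate_succ_apply', hfun, Function.iterate_succ_apply']
    change dy (fun w : ℝ × ℝ => w.1 * dx (dy^[m] B) w) z = _
    rw [dy_mul sm_fst (hB.iter_dy m).dx, dy_fst, zero_mul, zero_add, dx_dy (hB.iter_dy m)]

/-- equality of germs is preserved by `∂_y^m` -/
theorem germ_iter {F G : ℝ × ℝ → ℝ} (h : F =ᶠ[𝓝 (0 : ℝ × ℝ)] G) (m : ℕ) :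
    dy^[m] F =ᶠ[𝓝 (0 : ℝ × ℝ)] dy^[m] G := by
  induction m with
  | zero => simpa using h
  | succ m ih =>
    rw [Function.iterate_succ_apply', Function.iterate_succ_apply']
    exact germ_dy ih

lemma leib_iter_add {F G : ℝ × ℝ → ℝ} (hF : Sm F) (hG : Sm G) (m : ℕ) :
    dy^[m] (fun w => F w + G w) = fun z => dy^[m] F z + dy^[m] G z := by
  induction m with
  | zero => rfl
  | succ m ih =>
    funext z
    rw [Function.iterate_succ_apply', ih, Function.iterate_succ_apply',
      Function.iterate_succ_apply']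
    exact dy_add (hF.iter_dy m) (hG.iter_dy m) z

lemma leib_iter_const_mul {F : ℝ × ℝ → ℝ} (hF : Sm F) (κ : ℝ) (m : ℕ) :
    dy^[m] (fun w => κ * F w) = fun z => κ * dy^[m] F z := by
  induction m with
  | zero => rfl
  | succ m ih =>
    funext z
    rw [Function.iterate_succ_apply', ih, Function.iterate_succ_apply']
    have := dy_mul (F := fun _ => κ) contDiff_const (hF.iter_dy m) z
    rw [dy_const, zero_mul, zero_add] at this
    exact this

/-- Apply `dy^[m]` to the equation (germs), use `leib`, `iter_x_dx`, evaluate at `(x, ρ x)` and use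
`d/dx [D^m B (x, ρ x)] = (∂_x D^m B)(x, ρ x) + ρ'(x) D^{m+1}B (x, ρ x)` (`deriv_curve`). -/
theorem along_curve {κ : ℝ} {g B : ℝ × ℝ → ℝ} {ρ : ℝ → ℝ} (hg : Sm g) (hB : Sm B) (hρ : Sm1 ρ)
    (hρ0 : ρ 0 = 0) (hP : PDE 1 κ g B) (m : ℕ) :
    ∃ c : ℕ → ℝ → ℝ, (∀ k, Sm1 (c k)) ∧ ∀ᶠ x in 𝓝 (0 : ℝ),
      x * deriv (fun t => dy^[m] B (t, ρ t)) x =
        (κ - m * dy g (x, ρ x)) * dy^[m] B (x, ρ x)
          + (x * deriv ρ x - g (x, ρ x)) * dy^[m + 1] B (x, ρ x)
          + ∑ k ∈ Finset.range m, c k x * dy^[k] B (x, ρ x) := by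
  obtain ⟨c, hc, hleib⟩ := leib hg hB m
  refine ⟨fun k x => - c k (x, ρ x), fun k => ((hc k).curve contDiff_id hρ).neg, ?_⟩
  have hE : (fun w : ℝ × ℝ => w.1 * dx B w + g w * dy B w) =ᶠ[𝓝 (0 : ℝ × ℝ)]
      fun w => κ * B w := by
    filter_upwards [hP] with z hz
    rw [one_mul] at hz
    exact hz
  have hE2 := germ_iter hE m
  rw [leib_iter_add (sm_fst.mul hB.dx) (hg.mul hB.dy), leib_iter_const_mul hB] at hE2
  have hE3 := ev_curve hE2 (φ := fun t => t) (ψ := ρ) continuous_id hρ.continuous rfl hρ0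
  filter_upwards [hE3] with x hx
  rw [deriv_curve (φ := fun t => t) (hB.iter_dy m) contDiff_id hρ x, deriv_id'',
    ← Function.iterate_succ_apply' dy m B]
  have e1 := iter_x_dx hB m (x, ρ x)
  have e2 := hleib (x, ρ x)
  simp only at hx e1 e2
  rw [e1, e2] at hx
  simp only [neg_mul, Finset.sum_neg_distrib]
  linear_combination hx

end H86N
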