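import Pool.Agent.Lib.H86N.Base

/-! Chunk GRON: flat solutions of Fuchsian differential inequalities vanish. -/

open Filter Topology Asymptotics
open scoped ContDiff

namespace H86N

/-- the right half -/
theorem gron_pos {S : ℝ → ℝ} {C : ℝ} (hd : ∀ᶠ t in 𝓝 (0 : ℝ), DifferentiableAt ℝ S t)
    (h0 : ∀ t, 0 ≤ S t) (hf : Flat1 S) (h : ∀ᶠ t in 𝓝 (0 : ℝ), |t * deriv S t| ≤ C * S t) :
    ∃ δ > 0, ∀ t, 0 < t → t < δ → S t = 0 := by
  obtain ⟨M, hM⟩ := exists_nat_ge C
  obtain ⟨δ, hδ, hball⟩ := Metric.eventually_nhds_iff.1 (hd.and h)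
  refine ⟨δ, hδ, fun t ht htδ => ?_⟩
  have hin : ∀ s, 0 < s → s < δ → DifferentiableAt ℝ S s ∧ |s * deriv S s| ≤ C * S s := by
    intro s hs hsδ
    apply hball
    rw [Real.dist_eq, sub_zero, abs_of_pos hs]
    exact hsδ
  have hdiff : ∀ s, 0 < s → s < δ → HasDerivAt (fun s => S s / s ^ M)
      ((deriv S s * s ^ M - S s * (M * s ^ (M - 1))) / (s ^ M) ^ 2) s := by
    intro s hs hsδ
    have h1 := (hin s hs hsδ).1.hasDerivAt
    have h2 : HasDerivAt (fun s : ℝ => s ^ M) (M * s ^ (M - 1)) s := hasDerivAt_pow M s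
    exact h1.div h2 (pow_ne_zero _ hs.ne')
  have hanti : AntitoneOn (fun s => S s / s ^ M) (Set.Ioo 0 δ) := by
    apply antitoneOn_of_deriv_nonpos (convex_Ioo 0 δ)
    · intro s hs
      exact (hdiff s hs.1 hs.2).continuousAt.continuousWithinAt
    · rw [interior_Ioo]
      intro s hs
      exact (hdiff s hs.1 hs.2).differentiableAt.differentiableWithinAt
    · rw [interior_Ioo]
      intro s hs
      rw [(hdiff s hs.1 hs.2).deriv]
      apply div_nonpos_of_nonpos_of_nonneg _ (by positivity)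
      have h1 := (hin s hs.1 hs.2).2
      have h2 : s * deriv S s ≤ M * S s := by
        have h3 := (abs_le.1 h1).2
        have h4 := mul_le_mul_of_nonneg_right hM (h0 s)
        linarith
      have hs0 : 0 < s := hs.1
      rcases Nat.eq_zero_or_pos M with hM0 | hM0
      · subst hM0
        simp only [Nat.cast_zero, zero_mul] at h2
        simp only [pow_zero, Nat.cast_zero, zero_mul, mul_zero, mul_one, sub_zero]
        by_contra hcon
        push Not at hcon
        have := mul_pos hs0 hcon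
        linarith
      · have h5 : s ^ M = s * s ^ (M - 1) := by
          rw [← pow_succ', Nat.sub_add_cancel hM0]
        rw [h5]
        have h6 : deriv S s * (s * s ^ (M - 1)) - S s * (M * s ^ (M - 1)) =
            (s * deriv S s - M * S s) * s ^ (M - 1) := by ring
        rw [h6]
        exact mul_nonpos_of_nonpos_of_nonneg (by linarith) (by positivity)
  obtain ⟨K, hK⟩ := (hf (M + 1)).bound
  obtain ⟨δ', hδ', hball'⟩ := Metric.eventually_nhds_iff.1 hK
  have hkey : ∀ s, 0 < s → s < δ' → s < t → S t / t ^ M ≤ K * s := by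
    intro s hs hsδ hst
    have h1 := hanti (show s ∈ Set.Ioo 0 δ from ⟨hs, hst.trans htδ⟩) (show t ∈ Set.Ioo 0 δ from ⟨ht, htδ⟩)
      hst.le
    refine h1.trans ?_
    have h2 := hball' (show dist s 0 < δ' by rw [Real.dist_eq, sub_zero, abs_of_pos hs]; exact hsδ)
    rw [Real.norm_eq_abs, abs_of_nonneg (h0 s), Real.norm_eq_abs, abs_of_pos (by positivity)] at h2
    rw [div_le_iff₀ (by positivity)]
    calc S s ≤ K * s ^ (M + 1) := h2
      _ = K * s * s ^ M := by ring
  have hle : S t / t ^ M ≤ 0 := by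
    have hlim : Tendsto (fun s : ℝ => K * s) (𝓝[>] 0) (𝓝 0) := by
      have : Tendsto (fun s : ℝ => K * s) (𝓝 0) (𝓝 (K * 0)) := (continuous_const_mul K).tendsto 0
      rw [mul_zero] at this
      exact this.mono_left nhdsWithin_le_nhds
    refine ge_of_tendsto hlim ?_
    have h1 : ∀ᶠ s in 𝓝[>] (0 : ℝ), s ∈ Set.Ioo 0 (min δ' t) :=
      Ioo_mem_nhdsGT (lt_min hδ' ht)
    filter_upwards [h1] with s hs
    exact hkey s hs.1 (hs.2.trans_le (min_le_left _ _)) (hs.2.trans_le (min_le_right _ _))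
  have h1 : S t ≤ 0 := by
    rw [div_le_iff₀ (by positivity)] at hle
    linarith
  exact le_antisymm h1 (h0 t)

/-- For `t > 0` small `(S t * t^(-C))' = t^(-C-1) (t S' - C S) ≤ 0` (take `C` to be a natural number
`M ≥ C` and use `S / t^M`), so `S / t^M` is antitone on `(0, δ)`, nonnegative, and tends to `0` at
`0+` by flatness; hence it is `0`. For `t < 0` apply this to `S(-t)`. At `t = 0` use flatness
(`n = 1`). -/
theorem gron {S : ℝ → ℝ} {C : ℝ} (hd : ∀ᶠ t in 𝓝 (0 : ℝ), DifferentiableAt ℝ S t)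
    (h0 : ∀ t, 0 ≤ S t) (hf : Flat1 S) (h : ∀ᶠ t in 𝓝 (0 : ℝ), |t * deriv S t| ≤ C * S t) :
    ∀ᶠ t in 𝓝 (0 : ℝ), S t = 0 := by
  obtain ⟨δ, hδ, h1⟩ := gron_pos hd h0 hf h
  have hneg : Tendsto (fun t : ℝ => -t) (𝓝 0) (𝓝 0) := by
    have := continuous_neg.tendsto (0 : ℝ)
    rwa [neg_zero] at this
  obtain ⟨δ', hδ', h2⟩ := gron_pos (S := fun t => S (-t)) (C := C)
    (by
      filter_upwards [hneg.eventually hd] with t ht
      exact ht.comp t differentiable_neg.differentiableAt)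
    (fun t => h0 _)
    (by
      intro n
      have h3 := (hf n).comp_tendsto hneg
      refine h3.trans ?_
      apply IsBigO.of_bound 1
      filter_upwards with t
      simp)
    (by
      filter_upwards [hneg.eventually h] with t ht
      rw [deriv_comp_neg, mul_neg, ← neg_mul]
      exact ht)
  have h3 : S 0 = 0 := by
    obtain ⟨K, hK⟩ := (hf 1).bound
    have := hK.self_of_nhds
    simp at this
    exact this
  rw [Metric.eventually_nhds_iff]
  refine ⟨min δ δ', lt_min hδ hδ', fun t ht => ?_⟩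
  rw [Real.dist_eq, sub_zero] at ht
  rcases lt_trichotomy t 0 with h4 | h4 | h4
  · have h5 := h2 (-t) (by linarith) (by
      rw [abs_of_neg h4] at ht
      exact ht.trans_le (min_le_right _ _))
    simpa using h5
  · rw [h4, h3]
  · exact h1 t h4 (by
      rw [abs_of_pos h4] at ht
      exact ht.trans_le (min_le_left _ _))

theorem gron_lower {a : ℝ → ℝ} (ha : Sm1 a) (h : a 0 ≠ 0 ∨ deriv a 0 ≠ 0) :
    ∃ c0 > 0, ∀ᶠ t in 𝓝 (0 : ℝ), c0 * |t| ≤ |a t| := by
  by_cases h0 : a 0 = 0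
  · have hda : deriv a 0 ≠ 0 := by
      rcases h with h | h
      · exact absurd h0 h
      · exact h
    refine ⟨|deriv a 0| / 2, by positivity, ?_⟩
    have h1 := (ha.diffAt 0).hasDerivAt.isLittleO
    have h2 := h1.bound (show 0 < |deriv a 0| / 2 by positivity)
    filter_upwards [h2] with t ht
    simp only [sub_zero, h0, smul_eq_mul, Real.norm_eq_abs] at ht
    have h3 : |t * deriv a 0| - |a t| ≤ |a t - t * deriv a 0| := by
      have := abs_sub_abs_le_abs_sub (t * deriv a 0) (a t)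
      rwa [abs_sub_comm] at this
    rw [abs_mul] at h3
    linarith
  · refine ⟨|a 0| / 2, by positivity, ?_⟩
    have h1 : ∀ᶠ t in 𝓝 (0 : ℝ), |a 0| / 2 < |a t| := by
      have : Tendsto (fun t => |a t|) (𝓝 0) (𝓝 |a 0|) :=
        (ha.continuous.abs).tendsto 0
      exact this.eventually_const_lt (by
        have : 0 < |a 0| := abs_pos.2 h0
        linarith)
    have h2 : ∀ᶠ t in 𝓝 (0 : ℝ), |t| < 1 := by
      have : Tendsto (fun t : ℝ => |t|) (𝓝 0) (𝓝 |0|) := continuous_abs.tendsto 0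
      exact this.eventually_lt_const (by simp)
    filter_upwards [h1, h2] with t ht1 ht2
    have h3 : |a 0| / 2 * |t| ≤ |a 0| / 2 * 1 := by gcongr
    linarith

/-- If `a(0) ≠ 0` or `a'(0) ≠ 0` then `|a t| ≥ c |t|` near `0`, so `S = φ²` satisfies
`|t S'| = |2 φ t φ'| ≤ 2 |c'| |φ|² |t / a t|`. Use `gron`. -/
theorem flat_zero {a φ : ℝ → ℝ} {c : ℝ} (ha : Sm1 a) (hφ : Sm1 φ)
    (h : a 0 ≠ 0 ∨ deriv a 0 ≠ 0) (hfl : Flat1 φ)
    (he : ∀ᶠ t in 𝓝 (0 : ℝ), a t * deriv φ t = c * φ t) : ∀ᶠ t in 𝓝 (0 : ℝ), φ t = 0 := by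
  obtain ⟨c0, hc0, hl⟩ := gron_lower ha h
  have h1 : ∀ᶠ t in 𝓝 (0 : ℝ), φ t ^ 2 = 0 := by
    refine gron (S := fun t => φ t ^ 2) (C := 2 * |c| / c0) ?_ (fun t => sq_nonneg _) ?_ ?_
    · filter_upwards with t
      exact (hφ.diffAt t).pow 2
    · intro n
      have h2 := (hfl n).mul (hfl 0)
      refine (h2.congr_left fun t => ?_).congr_right fun t => ?_
      · ring
      · simp
    · filter_upwards [he, hl] with t ht1 ht2
      have h3 : deriv (fun t => φ t ^ 2) t = 2 * φ t * deriv φ t := by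
        have := ((hφ.diffAt t).hasDerivAt.fun_pow 2).deriv
        rw [this]
        simp
      rw [h3]
      have h4 : c0 * |t * deriv φ t| ≤ |c| * |φ t| := by
        calc c0 * |t * deriv φ t| = (c0 * |t|) * |deriv φ t| := by rw [abs_mul]; ring
          _ ≤ |a t| * |deriv φ t| := mul_le_mul_of_nonneg_right ht2 (abs_nonneg _)
          _ = |c| * |φ t| := by rw [← abs_mul, ht1, abs_mul]
      have h5 : |t * (2 * φ t * deriv φ t)| = 2 * |φ t| * |t * deriv φ t| := by
        rw [show t * (2 * φ t * deriv φ t) = 2 * φ t * (t * deriv φ t) by ring, abs_mul, abs_mul]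
        norm_num
      rw [h5, div_mul_eq_mul_div, le_div_iff₀ hc0, ← sq_abs]
      nlinarith [abs_nonneg (φ t), abs_nonneg (t * deriv φ t)]
  filter_upwards [h1] with t ht
  exact pow_eq_zero_iff (two_ne_zero) |>.1 ht

end H86N
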