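import Pool.Agent.Lib.H86N.SysFlat
import Pool.Agent.Lib.H86N.Gron

/-! Chunk SYSZ: a Fuchsian system with lower triangular residue, vanishing. -/

open Filter Topology Asymptotics
open scoped ContDiff

namespace H86N

/-- `S = ∑_{m<N} (b m)^2` is flat and `|x S'| ≤ C S` near `0`, use `gron`. -/
theorem sys_zero {N : ℕ} {b l : ℕ → ℝ → ℝ} {e : ℝ → ℝ} {c : ℕ → ℕ → ℝ → ℝ}
    (hb : ∀ m, Sm1 (b m)) (hl : ∀ m, Sm1 (l m)) (hc : ∀ m k, Sm1 (c m k))
    (h0 : ∀ m < N, b m 0 = 0)
    (he : ∃ C : ℝ, ∀ᶠ x in 𝓝 (0 : ℝ), |e x| ≤ C * ∑ k ∈ Finset.range N, |b k x|)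
    (hN : ∀ᶠ x in 𝓝 (0 : ℝ), b N x = 0)
    (hs : ∀ m < N, ∀ᶠ x in 𝓝 (0 : ℝ), x * deriv (b m) x =
      l m x * b m x + e x * b (m + 1) x + ∑ k ∈ Finset.range m, c m k x * b k x)
    (hl1 : ∀ m < N, l m 0 < 1 ∨ (m = 0 ∧ l 0 0 = 1 ∧ deriv (b 0) 0 = 0)) :
    ∀ m < N, ∀ᶠ x in 𝓝 (0 : ℝ), b m x = 0 := by
  have hflat := sys_flat hb hl hc h0 he hN hs hl1
  set S : ℝ → ℝ := fun x => ∑ m ∈ Finset.range N, b m x ^ 2 with hS
  have hS0 : ∀ x, 0 ≤ S x := fun x => Finset.sum_nonneg fun m _ => sq_nonneg _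
  have hO1 : ∀ {f : ℝ → ℝ}, Sm1 f → f =O[𝓝 (0 : ℝ)] fun _ => (1 : ℝ) := fun hf =>
    (hf.continuous.tendsto 0).isBigO_one ℝ
  have hSd : ∀ x, HasDerivAt S (∑ m ∈ Finset.range N, 2 * b m x * deriv (b m) x) x := by
    intro x
    apply HasDerivAt.fun_sum
    intro m _
    have := ((hb m).diffAt x).hasDerivAt.fun_pow 2
    simpa using this
  -- products
  have hprod : ∀ m < N, ∀ k < N, (fun x => b m x * b k x) =O[𝓝 (0 : ℝ)] S := by
    intro m hm k hk
    apply IsBigO.of_bound 1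
    filter_upwards with x
    rw [Real.norm_eq_abs, Real.norm_eq_abs, abs_of_nonneg (hS0 x), one_mul, abs_mul]
    have h1 : b m x ^ 2 ≤ S x := Finset.single_le_sum (f := fun m => b m x ^ 2)
      (fun m _ => sq_nonneg _) (Finset.mem_range.2 hm)
    have h2 : b k x ^ 2 ≤ S x := Finset.single_le_sum (f := fun m => b m x ^ 2)
      (fun m _ => sq_nonneg _) (Finset.mem_range.2 hk)
    rw [← sq_abs] at h1 h2
    nlinarith [sq_nonneg (|b m x| - |b k x|)]
  have heO : e =O[𝓝 (0 : ℝ)] fun _ => (1 : ℝ) := by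
    obtain ⟨C, hC⟩ := he
    have h1 : e =O[𝓝 (0 : ℝ)] fun x => ∑ k ∈ Finset.range N, |b k x| := by
      apply IsBigO.of_bound C
      filter_upwards [hC] with x hx
      rw [Real.norm_eq_abs, Real.norm_eq_abs, abs_of_nonneg (a := ∑ k ∈ Finset.range N, |b k x|)
        (Finset.sum_nonneg fun k _ => abs_nonneg _)]
      exact hx
    refine h1.trans ?_
    apply IsBigO.fun_sum
    intro k _
    exact (hO1 (hb k)).abs_left
  have hterm : ∀ m < N, (fun x => b m x * (x * deriv (b m) x)) =O[𝓝 (0 : ℝ)] S := by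
    intro m hm
    have h1 : (fun x => l m x * (b m x * b m x)) =O[𝓝 (0 : ℝ)] S := by
      have := (hO1 (hl m)).mul (hprod m hm m hm)
      simpa only [one_mul] using this
    have h2 : (fun x => e x * (b m x * b (m + 1) x)) =O[𝓝 (0 : ℝ)] S := by
      by_cases h : m + 1 < N
      · have := heO.mul (hprod m hm (m + 1) h)
        simpa only [one_mul] using this
      · have h1 : m + 1 = N := by omega
        rw [h1]
        apply IsBigO.of_bound 0
        filter_upwards [hN] with x hx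
        rw [hx]
        simp
    have h3 : (fun x => ∑ k ∈ Finset.range m, c m k x * (b m x * b k x)) =O[𝓝 (0 : ℝ)] S := by
      apply IsBigO.fun_sum
      intro k hk
      have := (hO1 (hc m k)).mul (hprod m hm k ((Finset.mem_range.1 hk).trans hm))
      simpa only [one_mul] using this
    refine ((h1.add h2).add h3).congr' ?_ EventuallyEq.rfl
    filter_upwards [hs m hm] with x hx
    rw [hx, mul_add, mul_add, Finset.mul_sum]
    congr 1
    · ring
    · exact Finset.sum_congr rfl fun k _ => by ring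
  have hSO : (fun x => x * deriv S x) =O[𝓝 (0 : ℝ)] S := by
    have h1 : (fun x => ∑ m ∈ Finset.range N, 2 * (b m x * (x * deriv (b m) x))) =O[𝓝 (0 : ℝ)] S := by
      apply IsBigO.fun_sum
      intro m hm
      exact (hterm m (Finset.mem_range.1 hm)).const_mul_left 2
    refine h1.congr_left fun x => ?_
    rw [(hSd x).deriv, Finset.mul_sum]
    exact Finset.sum_congr rfl fun m _ => by ring
  obtain ⟨C, hC⟩ := hSO.bound
  have hzero : ∀ᶠ x in 𝓝 (0 : ℝ), S x = 0 := by
    refine gron (C := C) (Eventually.of_forall fun x => (hSd x).differentiableAt) hS0 ?_ ?_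
    · intro n
      apply IsBigO.fun_sum
      intro m hm
      have h2 := (hflat m (Finset.mem_range.1 hm) n).mul (hflat m (Finset.mem_range.1 hm) 0)
      refine (h2.congr_left fun t => ?_).congr_right fun t => ?_
      · ring
      · simp
    · filter_upwards [hC] with x hx
      rw [Real.norm_eq_abs, Real.norm_eq_abs, abs_of_nonneg (hS0 x)] at hx
      exact hx
  intro m hm
  filter_upwards [hzero] with x hx
  have h1 : b m x ^ 2 ≤ S x := Finset.single_le_sum (f := fun m => b m x ^ 2)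
    (fun m _ => sq_nonneg _) (Finset.mem_range.2 hm)
  rw [hx] at h1
  exact pow_eq_zero_iff (two_ne_zero) |>.1 (le_antisymm h1 (sq_nonneg _))

end H86N
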