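import Pool.Agent.Lib.H86N.Inv
import Pool.Agent.Lib.H86N.Leib
import Pool.Agent.Lib.H86N.Sys
import Pool.Agent.Lib.H86N.LeadD
import Pool.Agent.Lib.H86N.Div

/-! Chunk M: `x B_x + g B_y = κ B`, `B(0,y) = y^J ψ(y)`, `g(0) = 0`. -/

open Filter Topology Asymptotics
open scoped ContDiff

namespace H86N

/-- `ρ` from `imp_fun` for `dy^[J-1] B` (`lead_deriv`). Put `b m x = dy^[m] B (x, ρ x)`,
`N = J - 1`, `e x = x ρ'(x) - g(x, ρ x)`, `l m x = κ - m g_y(x, ρ x)`, `c` from `along_curve`. Then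
`b N = 0` near `0`; the equation `m = N` of `along_curve` (`b N = 0` near `0` so its derivative
vanishes near `0` too) reads `0 = e b_J + ∑_{k<N} c_k b_k`, and `b_J(0) = dy^[J] B 0 ≠ 0`, so
`|e| ≤ C ∑_{k<N} |b_k|`. `b m 0 = dy^[m] B 0 = 0` for `m < J`. In the exceptional case `κ = 1`, `m = 0`:
`deriv (b 0) 0 = B_x(0) + B_y(0) ρ'(0) = 0` (`B_y(0) = 0` as `J ≥ 2`). `sys_zero` gives `b m = 0` near `0` for
`m < N`, hence for `m < J`; then `div_curve` and `div_lead`. -/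
theorem lemM {κ : ℝ} {g B : ℝ × ℝ → ℝ} {J : ℕ} {ψ : ℝ → ℝ} (hg : Sm g) (hB : Sm B)
    (hP : PDE 1 κ g B) (hJ : 2 ≤ J) (hb : Lead (fun t => B (0, t)) J ψ)
    (hκ : ∀ m : ℕ, m + 2 ≤ J → κ - m * dy g 0 < 1 ∨ (m = 0 ∧ κ = 1 ∧ dx B 0 = 0)) :
    ∃ (ρ : ℝ → ℝ) (V : ℝ × ℝ → ℝ), Sm1 ρ ∧ ρ 0 = 0 ∧ Sm V ∧ V 0 ≠ 0 ∧
      ∀ᶠ z in 𝓝 (0 : ℝ × ℝ), B z = (z.2 - ρ z.1) ^ J * V z := by
  obtain ⟨N, rfl⟩ : ∃ N, J = N + 1 := ⟨J - 1, by omega⟩
  have hN1 : 1 ≤ N := by omega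
  obtain ⟨hlow, htop⟩ := lead_deriv hB hb
  obtain ⟨ρ, hρ, hρ0, hρN⟩ := imp_fun (G := dy^[N] B) (hB.iter_dy N) (hlow N (Nat.lt_succ_self N))
    (by rw [Function.iterate_succ_apply'] at htop; exact htop)
  have hpt : ((0 : ℝ), ρ 0) = 0 := by rw [hρ0]; rfl
  have hsb : ∀ m, Sm1 (fun x => dy^[m] B (x, ρ x)) := fun m =>
    (hB.iter_dy m).curve (φ := fun x => x) contDiff_id hρ
  choose c hc hcs using fun m => along_curve hg hB hρ hρ0 hP m
  have hN : ∀ᶠ x in 𝓝 (0 : ℝ), (fun x => dy^[N] B (x, ρ x)) x = 0 := hρN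
  have hN' : ∀ᶠ x in 𝓝 (0 : ℝ), deriv (fun x => dy^[N] B (x, ρ x)) x = 0 := by
    have h1 : (fun x => dy^[N] B (x, ρ x)) =ᶠ[𝓝 0] fun _ => (0 : ℝ) := hN
    filter_upwards [h1.deriv] with x hx
    rw [hx]; simp
  have he : ∃ C : ℝ, ∀ᶠ x in 𝓝 (0 : ℝ), |x * deriv ρ x - g (x, ρ x)| ≤
      C * ∑ k ∈ Finset.range N, |(fun x => dy^[k] B (x, ρ x)) x| := by
    set δ : ℝ := |dy^[N + 1] B 0| / 2 with hδ
    have hδ0 : 0 < δ := by
      have := abs_pos.2 htop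
      positivity
    have h2 : ∀ᶠ x in 𝓝 (0 : ℝ), δ < |dy^[N + 1] B (x, ρ x)| := by
      have hcont : Continuous fun x => |dy^[N + 1] B (x, ρ x)| := (hsb (N + 1)).continuous.abs
      refine hcont.continuousAt.eventually_const_lt ?_
      show δ < |dy^[N + 1] B (0, ρ 0)|
      rw [hpt]
      have := abs_pos.2 htop
      rw [hδ]; linarith
    set C : ℝ := ∑ k ∈ Finset.range N, (|c N k 0| + 1) with hC
    have h3 : ∀ᶠ x in 𝓝 (0 : ℝ), ∀ k ∈ Finset.range N, |c N k x| < |c N k 0| + 1 := by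
      rw [Filter.eventually_all_finset]
      intro k _
      have hcont : Continuous fun x => |c N k x| := (hc N k).continuous.abs
      refine hcont.continuousAt.eventually_lt_const ?_
      show |c N k 0| < |c N k 0| + 1
      linarith
    have hle : ∀ k ∈ Finset.range N, |c N k 0| + 1 ≤ C := by
      intro k hk
      exact Finset.single_le_sum (f := fun k => |c N k 0| + 1) (fun j _ => by positivity) hk
    refine ⟨C / δ, ?_⟩
    filter_upwards [hcs N, hN, hN', h2, h3] with x h1 hx0 hx1 hx2 hx3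
    have hx0' : dy^[N] B (x, ρ x) = 0 := hx0
    rw [hx1, hx0'] at h1
    have h4 : (x * deriv ρ x - g (x, ρ x)) * dy^[N + 1] B (x, ρ x)
        = - ∑ k ∈ Finset.range N, c N k x * dy^[k] B (x, ρ x) := by linarith
    have h5 : |x * deriv ρ x - g (x, ρ x)| * |dy^[N + 1] B (x, ρ x)|
        ≤ C * ∑ k ∈ Finset.range N, |dy^[k] B (x, ρ x)| := by
      rw [← abs_mul, h4, abs_neg, Finset.mul_sum]
      refine (Finset.abs_sum_le_sum_abs _ _).trans (Finset.sum_le_sum fun k hk => ?_)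
      rw [abs_mul]
      exact mul_le_mul_of_nonneg_right ((hx3 k hk).le.trans (hle k hk)) (abs_nonneg _)
    have h6 : |x * deriv ρ x - g (x, ρ x)| * δ
        ≤ C * ∑ k ∈ Finset.range N, |dy^[k] B (x, ρ x)| :=
      (mul_le_mul_of_nonneg_left hx2.le (abs_nonneg _)).trans h5
    show |x * deriv ρ x - g (x, ρ x)| ≤ C / δ * ∑ k ∈ Finset.range N, |dy^[k] B (x, ρ x)|
    rw [div_mul_eq_mul_div, le_div_iff₀ hδ0]
    exact h6
  have hz := sys_zero (N := N) (b := fun m x => dy^[m] B (x, ρ x))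
    (l := fun m x => κ - m * dy g (x, ρ x)) (e := fun x => x * deriv ρ x - g (x, ρ x)) (c := c)
    hsb (fun m => contDiff_const.sub (contDiff_const.mul (hg.dy.curve (φ := fun x => x) contDiff_id hρ)))
    hc (fun m hm => by
      show dy^[m] B (0, ρ 0) = 0
      rw [hpt]; exact hlow m (by omega))
    he hN (fun m _ => hcs m) (fun m hm => by
      show κ - m * dy g (0, ρ 0) < 1 ∨ (m = 0 ∧ κ - ((0 : ℕ) : ℝ) * dy g (0, ρ 0) = 1 ∧ _)
      rw [hpt]
      rcases hκ m (by omega) with h | ⟨h1, h2, h3⟩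
      · exact Or.inl h
      · refine Or.inr ⟨h1, ?_, ?_⟩
        · rw [h2]; simp
        · show deriv (fun x => dy^[0] B (x, ρ x)) 0 = 0
          simp only [Function.iterate_zero, id]
          rw [deriv_curve (φ := fun x => x) hB contDiff_id hρ]
          have h4 : dy B 0 = 0 := by simpa using hlow 1 (by omega)
          have h5 : ((0 : ℝ), ρ 0) = 0 := hpt
          rw [h5, h3, h4]
          ring)
  obtain ⟨V, hV, hBV⟩ := div_curve (J := N + 1) hB hρ hρ0 (fun m hm => by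
    rcases Nat.lt_succ_iff_lt_or_eq.1 hm with h | h
    · exact hz m h
    · rw [h]; exact hρN)
  exact ⟨ρ, V, hρ, hρ0, hV, div_lead hρ0 hV hBV hb, hBV⟩

end H86N
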