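import Pool.Agent.Lib.H86N.Lambda
import Pool.Agent.Lib.H86N.Curve
import Pool.Agent.Lib.H86N.M

/-! Chunk CASEI: `f(0) ≠ 0`. -/

open Filter Topology Asymptotics
open scoped ContDiff

namespace H86N

/-- `Φ = λ + l`, `PDE 1 0 (-x h) Φ`. `f_y = - Φ_y (x + 2λ)` near `0`, so `Φ` is not flat (`flat_dy`,
`flat_mul`) and `Φ_y(0) = 0`. `order2`: `i, φ, B, J, ψ`; `curve` (`g = - x h`, `g_y(0) = 0`) gives `i = 0`, so
`Φ = B` near `0`; `J ≥ 2` since `Φ(0) = 0 = Φ_y(0)`. `lemM` (`κ = 0`, `g_y(0) = 0`) and `pow_form`: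
`Φ = ε H^J`. `f = - (Φ - l)(x + Φ - l) = l x - l^2 + Φ (2l - x - Φ)`, apply `pow_form_mul` with
`U = 2l - x - Φ`: normal form `A`. -/
theorem caseI {f g : ℝ × ℝ → ℝ} (hf : Sm f) (hg : Sm g)
    (hI : ∀ᶠ z in 𝓝 (0 : ℝ × ℝ), dx f z * (z.1 - dx f z) - f z = g z * dy f z)
    (h0 : f 0 ≠ 0) (h2 : dy f 0 = 0) (hnf : ¬ Flat (dy f)) : HasNormalForm f := by
  obtain ⟨l, lam, h, hl0, hlam, hh, hlam0, hff, hlx⟩ := caseI_lambda hf hg hI h0 h2
  have z1 : ((0 : ℝ × ℝ)).1 = 0 := rfl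
  set Φ : ℝ × ℝ → ℝ := fun z => lam z + (fun _ => l) z with hΦ
  have hΦs : Sm Φ := hlam.add contDiff_const
  have hΦ0 : Φ 0 = 0 := by simp only [hΦ, hlam0]; ring
  have hΦx : ∀ z, dx Φ z = dx lam z := fun z => by
    rw [hΦ, dx_add hlam (G := fun _ => l) contDiff_const, dx_const, add_zero]
  have hΦy : ∀ z, dy Φ z = dy lam z := fun z => by
    rw [hΦ, dy_add hlam (G := fun _ => l) contDiff_const, dy_const, add_zero]
  set g' : ℝ × ℝ → ℝ := fun z => - (z.1 * h z) with hg'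
  have hxh : Sm fun z : ℝ × ℝ => z.1 * h z := sm_fst.mul hh
  have hg's : Sm g' := hxh.neg
  have hg'0 : g' 0 = 0 := by simp [hg']
  have hg'y : dy g' 0 = 0 := by
    rw [hg', dy_neg, dy_mul sm_fst hh, dy_fst]
    simp
  have hP : PDE 1 0 g' Φ := by
    filter_upwards [hlx] with z hz
    rw [hΦx, hΦy, hz, hg']
    ring
  have hfy : ∀ᶠ z in 𝓝 (0 : ℝ × ℝ), dy f z = (- (z.1 + 2 * lam z)) * dy Φ z := by
    have h1 : f =ᶠ[𝓝 0] fun z => - (lam z * (z.1 + lam z)) := hff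
    filter_upwards [germ_dy h1] with z hz
    rw [hz, dy_neg, dy_mul hlam (sm_fst.add hlam), dy_add sm_fst hlam, dy_fst, hΦy]
    ring
  have hnΦ : ¬ Flat Φ := by
    intro hfl
    apply hnf
    have h1 := flat_mul (G := fun z => - (z.1 + 2 * lam z)) (flat_dy hΦs hfl)
      ((continuous_fst.add (continuous_const.mul hlam.continuous)).neg)
    exact h1.congr hfy
  have hΦy0 : dy Φ 0 = 0 := by
    have h1 := hfy.self_of_nhds
    rw [h2, hlam0, z1] at h1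
    have h3 : dy Φ 0 * l = 0 := by linarith
    rcases mul_eq_zero.1 h3 with h4 | h4
    · exact h4
    · exact absurd h4 hl0
  obtain ⟨i, φ, B, J, ψ, hD, hL⟩ := order2 hΦs hnΦ
  have hi : i = 0 := by
    have h1 := curve hg's hΦs hP hD hL hg'0
    rw [hg'y, mul_zero, add_zero, one_mul] at h1
    exact_mod_cast h1
  subst hi
  obtain ⟨hB, -, -, hDe⟩ := hD
  have hΦB : ∀ᶠ z in 𝓝 (0 : ℝ × ℝ), Φ z = B z := by
    filter_upwards [hDe] with z hz
    simpa using hz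
  have hΦB' : Φ =ᶠ[𝓝 0] B := hΦB
  have hBx := germ_dx hΦB'
  have hBy := germ_dy hΦB'
  have hPB : PDE 1 0 g' B := by
    filter_upwards [hP, hΦB, hBx, hBy] with z a1 a2 a3 a4
    rw [← a2, ← a3, ← a4]
    exact a1
  have hJ : 2 ≤ J := by
    obtain ⟨-, htop⟩ := lead_deriv hB hL
    have e0 : B 0 = 0 := by rw [← hΦB.self_of_nhds]; exact hΦ0
    have e1 : dy B 0 = 0 := by rw [← hBy.self_of_nhds]; exact hΦy0
    by_contra hc
    have : J = 0 ∨ J = 1 := by omega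
    rcases this with rfl | rfl
    · exact htop e0
    · exact htop e1
  obtain ⟨ρ, V, hρ, hρ0, hV, hV0, hBV⟩ := lemM hg's hB hPB hJ hL (fun m _ => by
    left
    rw [hg'y]
    norm_num)
  obtain ⟨ε, H, hpf⟩ := pow_form (by omega) hρ hρ0 hV hV0 hBV
  set U : ℝ × ℝ → ℝ := fun z => 2 * l - z.1 - Φ z with hU
  have hUs : Sm U := (contDiff_const.sub sm_fst).sub hΦs
  have hU0 : U 0 ≠ 0 := by
    simp only [hU, z1, hΦ0]
    simpa using hl0
  obtain ⟨ε', u, hu, hu0, -, hε', hY, hY0, hYy, hYe⟩ := pow_form_mul (by omega) hpf hUs hU0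
  refine ⟨_, NormalForm.A l ε' J hε' hJ, fun z => H z * u z, SmoothNear.of_sm hY, hY0, hYy, ?_⟩
  filter_upwards [hff, hYe, hΦB] with z a1 a2 a3
  show f z = l * z.1 - l ^ 2 + ε' * (H z * u z) ^ J
  rw [← a2, ← a3, a1]
  simp only [hU, hΦ]
  ring

end H86N
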