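import Pool.Agent.Lib.H86N.Inv
import Pool.Agent.Lib.H86N.Div
import Pool.Agent.Lib.H86N.LeadD
import Pool.Agent.Lib.H86N.Root

/-! Chunk CASEIIA: `f(0) = 0`, `f_yy(0) ≠ 0`. -/

open Filter Topology Asymptotics
open scoped ContDiff

namespace H86N

/-- `c + c'^2 = 0` gives `c' (1 + 2 c'') = 0` near `0`. If `1 + 2 c''(0) ≠ 0` then `c' = 0`
near `0`, so `c = 0`. If `c''(0) = -1/2`, then (`c'(0) = 0`) `c'(x) ≠ 0` for `x ≠ 0` near `0`, so `c'' = -1/2` for
`x ≠ 0`, hence near `0`, `c' = -x/2` and `c = - x^2/4`. -/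
theorem ode_c {c : ℝ → ℝ} (hc : Sm1 c) (h0 : c 0 = 0)
    (h : ∀ᶠ x in 𝓝 (0 : ℝ), c x + (deriv c x) ^ 2 = 0) :
    (∀ᶠ x in 𝓝 (0 : ℝ), c x = 0) ∨ (∀ᶠ x in 𝓝 (0 : ℝ), c x = - x ^ 2 / 4) := by
  have hc1 : Sm1 (deriv c) := hc.deriv
  have hc2 : Sm1 (deriv (deriv c)) := hc1.deriv
  have hd0 : deriv c 0 = 0 := by
    have := h.self_of_nhds
    rw [h0, zero_add] at this
    exact pow_eq_zero_iff (two_ne_zero) |>.1 this
  have hdiff : ∀ᶠ x in 𝓝 (0 : ℝ), deriv c x * (1 + 2 * deriv (deriv c) x) = 0 := by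
    have he : (fun x => c x + (deriv c x) ^ 2) =ᶠ[𝓝 (0 : ℝ)] fun _ => (0 : ℝ) := h
    filter_upwards [he.deriv] with x hx
    have h1 : HasDerivAt (fun x => c x + (deriv c x) ^ 2)
        (deriv c x + 2 * deriv c x ^ (2 - 1) * deriv (deriv c) x) x := by
      have a1 := (hc.diffAt x).hasDerivAt
      have a2 := ((hc1.diffAt x).hasDerivAt).fun_pow 2
      have a3 := a1.fun_add a2
      exact a3.congr_deriv (by push_cast; ring)
    rw [h1.deriv, deriv_const] at hx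
    simp only [Nat.add_one_sub_one, pow_one] at hx
    linear_combination hx
  by_cases hcase : 1 + 2 * deriv (deriv c) 0 = 0
  · right
    have hder : HasDerivAt (deriv c) (deriv (deriv c) 0) 0 := (hc1.diffAt 0).hasDerivAt
    have hne : ∀ᶠ x in 𝓝[≠] (0 : ℝ), deriv c x ≠ 0 := by
      refine hder.eventually_ne ?_
      intro h
      rw [h] at hcase
      norm_num at hcase
    have h2 : ∀ᶠ x in 𝓝 (0 : ℝ), 1 + 2 * deriv (deriv c) x = 0 := by
      have h3 : ∀ᶠ x in 𝓝[≠] (0 : ℝ), 1 + 2 * deriv (deriv c) x = 0 := by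
        filter_upwards [hne, hdiff.filter_mono nhdsWithin_le_nhds] with x a b
        exact (mul_eq_zero.1 b).resolve_left a
      rw [eventually_nhdsWithin_iff] at h3
      filter_upwards [h3] with x hx
      by_cases hx0 : x = 0
      · rw [hx0]; exact hcase
      · exact hx hx0
    obtain ⟨ε, hε, hb⟩ := Metric.eventually_nhds_iff_ball.1 h2
    have hlin : ∀ x ∈ Metric.ball (0 : ℝ) ε, deriv c x + x / 2 = 0 := by
      intro x hx
      have hφ : Differentiable ℝ (fun x : ℝ => deriv c x + x / 2) := fun y =>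
        (hc1.diffAt y).add (differentiableAt_id.div_const 2)
      have hconst := (Metric.isOpen_ball (x := (0 : ℝ)) (ε := ε)).is_const_of_deriv_eq_zero
        (f := fun x : ℝ => deriv c x + x / 2)
        (convex_ball (0 : ℝ) ε).isPreconnected hφ.differentiableOn
        (by
          intro y hy
          have h1 : HasDerivAt (fun x : ℝ => deriv c x + x / 2) (deriv (deriv c) y + 1 / 2) y :=
            (hc1.diffAt y).hasDerivAt.add ((hasDerivAt_id y).div_const 2)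
          rw [h1.deriv]
          have := hb y hy
          simp only [Pi.zero_apply]
          linarith) hx (Metric.mem_ball_self hε)
      rw [hconst, hd0]
      simp
    filter_upwards [h, Metric.ball_mem_nhds (0 : ℝ) hε] with x h1 h3
    have := hlin x h3
    have h4 : deriv c x = - (x / 2) := by linarith
    rw [h4] at h1
    linear_combination h1
  · left
    have hcont : Continuous (fun x => 1 + 2 * deriv (deriv c) x) :=
      continuous_const.add (continuous_const.mul hc2.continuous)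
    filter_upwards [h, hdiff, hcont.continuousAt.eventually_ne hcase] with x h1 h3 h4
    have : deriv c x = 0 := (mul_eq_zero.1 h3).resolve_right h4
    rw [this] at h1
    simpa using h1

lemma caseIIa_dy_fst {a : ℝ → ℝ} (ha : Sm1 a) (z : ℝ × ℝ) :
    dy (fun z : ℝ × ℝ => a z.1) z = 0 := by
  rw [dy_comp1 ha sm_fst, dy_fst, mul_zero]

/-- `ρ` from `imp_fun` for `f_y`. `c(x) = f(x, ρ x) - x^2/4` has `c' = f_x(x, ρ x) - x/2`, the identity on the
curve gives `c + c'^2 = 0`; `ode_c`. `B = f - f(x, ρ x)` has `dy^[0] B = dy^[1] B = 0` on the curve;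
`div_curve` with `J = 2`: `B = (y - ρ x)^2 V`, `2 V(0) = f_yy(0) ≠ 0`; `pow_form`. Normal form `B`
(`n = 2`) if `c = 0` and `A` (`l = 0`, `n = 2`) if `c = - x^2/4`. -/
theorem caseIIa {f g : ℝ × ℝ → ℝ} (hf : Sm f) (hg : Sm g)
    (hI : ∀ᶠ z in 𝓝 (0 : ℝ × ℝ), dx f z * (z.1 - dx f z) - f z = g z * dy f z)
    (h0 : f 0 = 0) (h2 : dy f 0 = 0) (h4 : dy (dy f) 0 ≠ 0) : HasNormalForm f := by
  obtain ⟨ρ, hρ, hρ0, hfρ⟩ := imp_fun hf.dy h2 h4
  -- the critical value
  have hF : Sm1 (fun x => f (x, ρ x)) := hf.curve contDiff_id hρ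
  have hq : Sm1 (fun x : ℝ => x ^ 2 / 4) := (contDiff_id.pow 2).div_const 4
  have hcs : Sm1 (fun x => f (x, ρ x) - x ^ 2 / 4) := hF.sub hq
  have hderiv : ∀ᶠ x in 𝓝 (0 : ℝ), deriv (fun x => f (x, ρ x) - x ^ 2 / 4) x
      = dx f (x, ρ x) - x / 2 := by
    filter_upwards [hfρ] with x hx
    have e1 : deriv (fun x => f (x, ρ x)) x = dx f (x, ρ x) := by
      have := deriv_curve (φ := fun t => t) hf contDiff_id hρ x
      rw [this, hx, deriv_id'']
      ring
    have e2 : HasDerivAt (fun x : ℝ => x ^ 2 / 4) (x / 2) x := by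
      have := (hasDerivAt_pow 2 x).div_const 4
      refine this.congr_deriv ?_
      simp only [Nat.cast_ofNat, Nat.add_one_sub_one, pow_one]
      ring
    have e3 : HasDerivAt (fun x => f (x, ρ x) - x ^ 2 / 4)
        (deriv (fun x => f (x, ρ x)) x - x / 2) x := (hF.diffAt x).hasDerivAt.sub e2
    rw [e3.deriv, e1]
  have hode : ∀ᶠ x in 𝓝 (0 : ℝ), (f (x, ρ x) - x ^ 2 / 4)
      + (deriv (fun x => f (x, ρ x) - x ^ 2 / 4) x) ^ 2 = 0 := by
    have hI' := ev_curve hI (φ := fun t => t) (ψ := ρ) continuous_id hρ.continuous rfl hρ0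
    filter_upwards [hderiv, hfρ, hI'] with x e1 e2 e3
    rw [e1]
    rw [e2, mul_zero] at e3
    linear_combination -e3
  have hc00 : (fun x => f (x, ρ x) - x ^ 2 / 4) 0 = 0 := by
    simp only [hρ0]
    have : f (0, 0) = 0 := h0
    rw [this]
    norm_num
  have hode' := ode_c hcs hc00 hode
  -- the remainder
  have hBs : Sm (fun z : ℝ × ℝ => f z - f (z.1, ρ z.1)) := hf.sub (hF.comp1 sm_fst)
  have hdB : ∀ z, dy (fun z : ℝ × ℝ => f z - f (z.1, ρ z.1)) z = dy f z := by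
    intro z
    rw [dy_sub (G := fun z : ℝ × ℝ => f (z.1, ρ z.1)) hf (hF.comp1 sm_fst)]
    have := caseIIa_dy_fst hF z
    rw [this, sub_zero]
  have hdiv : ∀ m < 2, ∀ᶠ x in 𝓝 (0 : ℝ),
      dy^[m] (fun z : ℝ × ℝ => f z - f (z.1, ρ z.1)) (x, ρ x) = 0 := by
    intro m hm
    have hm01 : m = 0 ∨ m = 1 := by omega
    rcases hm01 with rfl | rfl
    · refine Eventually.of_forall fun x => ?_
      simp
    · filter_upwards [hfρ] with x hx
      rw [Function.iterate_one, hdB, hx]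
  obtain ⟨V, hV, hBV⟩ := div_curve hBs hρ hρ0 hdiv
  have hr : Sm (fun z : ℝ × ℝ => z.2 - ρ z.1) := sm_snd.sub (hρ.comp1 sm_fst)
  have hdr : ∀ z, dy (fun z : ℝ × ℝ => z.2 - ρ z.1) z = 1 := by
    intro z
    rw [dy_sub (F := fun z : ℝ × ℝ => z.2) (G := fun z : ℝ × ℝ => ρ z.1) sm_snd
      (hρ.comp1 sm_fst), dy_snd, caseIIa_dy_fst hρ, sub_zero]
  have hV0 : V 0 ≠ 0 := by
    intro hV0
    have e1 : dy f =ᶠ[𝓝 (0 : ℝ × ℝ)] fun z =>
        (2 * (z.2 - ρ z.1)) * V z + (z.2 - ρ z.1) ^ 2 * dy V z := by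
      have := germ_dy (show (fun z : ℝ × ℝ => f z - f (z.1, ρ z.1)) =ᶠ[𝓝 (0 : ℝ × ℝ)] _
        from hBV)
      filter_upwards [this] with z hz
      rw [hdB] at hz
      rw [hz]
      change dy (fun w : ℝ × ℝ => (w.2 - ρ w.1) ^ 2 * V w) z = _
      rw [dy_mul (F := fun w : ℝ × ℝ => (w.2 - ρ w.1) ^ 2) (hr.pow 2) hV,
        dy_pow (F := fun w : ℝ × ℝ => w.2 - ρ w.1) hr, hdr, mul_one]
      simp
    apply h4
    rw [(germ_dy e1).self_of_nhds]
    change dy (fun w : ℝ × ℝ => (2 * (w.2 - ρ w.1)) * V w + (w.2 - ρ w.1) ^ 2 * dy V w) 0 = 0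
    have s1 : Sm (fun w : ℝ × ℝ => 2 * (w.2 - ρ w.1)) := contDiff_const.mul hr
    rw [dy_add (F := fun w : ℝ × ℝ => (2 * (w.2 - ρ w.1)) * V w)
        (G := fun w : ℝ × ℝ => (w.2 - ρ w.1) ^ 2 * dy V w) (s1.mul hV) ((hr.pow 2).mul hV.dy),
      dy_mul s1 hV, dy_mul (F := fun w : ℝ × ℝ => (w.2 - ρ w.1) ^ 2) (hr.pow 2) hV.dy,
      dy_pow (F := fun w : ℝ × ℝ => w.2 - ρ w.1) hr, hdr, hV0]
    simp [hρ0]
  obtain ⟨ε, H, hε, hH, hH0, hdH, hBH⟩ := pow_form two_ne_zero hρ hρ0 hV hV0 hBV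
  rcases hode' with hc | hc
  · refine ⟨_, NormalForm.B ε 2 hε le_rfl, H, SmoothNear.of_sm hH, hH0, hdH, ?_⟩
    filter_upwards [hBH, ev_fst hc] with z e1 e2
    linear_combination e1 + e2
  · refine ⟨_, NormalForm.A 0 ε 2 hε le_rfl, H, SmoothNear.of_sm hH, hH0, hdH, ?_⟩
    filter_upwards [hBH, ev_fst hc] with z e1 e2
    linear_combination e1 + e2

end H86N
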