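import Pool.Agent.Lib.H86N.Root

/-! Chunk CONV1: from the shape of `Q` back to `f`. Here `Δ = Q - Q_t^2/4` at `(T z, z.2)`. -/

open Filter Topology Asymptotics
open scoped ContDiff

namespace H86N

/-- `Q = t^i B`, `i ≥ 2`. `Q_t = t^(i-1) (i B + t B_t)`, so `s x = T X̂(T,y)` with
`X̂ = t^(i-2) (i B + t B_t) - 2`; differentiate in `x` at `0`: `s = T_x(0) X̂(0)`, so `X̂(0) ≠ 0`. With `w = 1/X̂(T,y)`
(`recip`), `T = s x w`. `Δ = T^i [B - T^(i-2) (i B + T B_t)^2/4] = x^i C`,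
`C = s^i w^i [B - T^(i-2) (i B + T B_t)^2/4]` (at `(T,y)`).
`C_y(0) ≠ 0`: differentiate `Δ` in `y`: `Δ_y = Q_t T_y + Q_y - Q_t (Q_tt T_y + Q_ty)/2`, and differentiating
`s x = Q_t(T,y) - 2T` in `y`: `Q_tt T_y + Q_ty = 2 T_y`. So `Δ_y = Q_y(T,y) = T^i B_y(T,y) = x^i s^i w^i B_y(T,y)`, while
`Δ_y = x^i C_y`; `cancel_x`: `C_y(0) = s^i w(0)^i B_y(0) ≠ 0`. -/
theorem conv1 {s : ℝ} {Q T B : ℝ × ℝ → ℝ} {i : ℕ} (hs : s = 1 ∨ s = -1) (hi : 2 ≤ i) (hQ : Sm Q)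
    (hT : Sm T) (hB : Sm B) (hT0 : T 0 = 0)
    (hx : ∀ᶠ z in 𝓝 (0 : ℝ × ℝ), s * z.1 = dx Q (T z, z.2) - 2 * T z)
    (hQB : ∀ᶠ z in 𝓝 (0 : ℝ × ℝ), Q z = z.1 ^ i * B z) (hB0 : dy B 0 ≠ 0) :
    ∃ C : ℝ × ℝ → ℝ, Sm C ∧ dy C 0 ≠ 0 ∧
      ∀ᶠ z in 𝓝 (0 : ℝ × ℝ), Q (T z, z.2) - (dx Q (T z, z.2)) ^ 2 / 4 = z.1 ^ i * C z := by
  obtain ⟨j, rfl⟩ : ∃ j, i = j + 2 := ⟨i - 2, by omega⟩
  have hs0 : s ≠ 0 := by rcases hs with rfl | rfl <;> norm_num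
  have z2 : ((0 : ℝ × ℝ)).2 = 0 := rfl
  have zz : ((0 : ℝ), (0 : ℝ)) = 0 := rfl
  set P : ℝ × ℝ → ℝ := fun z => ((j + 2 : ℕ) : ℝ) * B z + z.1 * dx B z with hP
  have hPs : Sm P := (contDiff_const.mul hB).add (sm_fst.mul hB.dx)
  have hBc : Sm fun z : ℝ × ℝ => B (T z, z.2) := hB.comp2 hT sm_snd
  have hPc : Sm fun z : ℝ × ℝ => P (T z, z.2) := hPs.comp2 hT sm_snd
  have hQt : ∀ᶠ z in 𝓝 (0 : ℝ × ℝ), dx Q z = z.1 ^ (j + 1) * P z := by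
    have h1 : Q =ᶠ[𝓝 0] fun z => z.1 ^ (j + 2) * B z := hQB
    filter_upwards [germ_dx h1] with z hz
    rw [hz, dx_mul (sm_fst.pow _) hB, dx_pow sm_fst, dx_fst, hP]
    simp only [Nat.add_succ_sub_one]
    ring
  have hQy : ∀ᶠ z in 𝓝 (0 : ℝ × ℝ), dy Q z = z.1 ^ (j + 2) * dy B z := by
    have h1 : Q =ᶠ[𝓝 0] fun z => z.1 ^ (j + 2) * B z := hQB
    filter_upwards [germ_dy h1] with z hz
    rw [hz, dy_mul (sm_fst.pow _) hB, dy_pow sm_fst, dy_fst]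
    simp
  have hQc := ev_comp2 hQB hT.continuous continuous_snd hT0 rfl
  have hQtc := ev_comp2 hQt hT.continuous continuous_snd hT0 rfl
  have hQyc := ev_comp2 hQy hT.continuous continuous_snd hT0 rfl
  -- `s x = T X`
  set X : ℝ × ℝ → ℝ := fun z => T z ^ j * P (T z, z.2) - 2 with hX
  have hXs : Sm X := ((hT.pow j).mul hPc).sub contDiff_const
  have hsx : ∀ᶠ z in 𝓝 (0 : ℝ × ℝ), s * z.1 = T z * X z := by
    filter_upwards [hx, hQtc] with z a1 a2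
    rw [a1, a2, hX]
    ring
  have hX0 : X 0 ≠ 0 := by
    have h1 : (fun z : ℝ × ℝ => (fun _ => s) z * z.1) =ᶠ[𝓝 0] fun z => T z * X z := hsx
    have h2 := (germ_dx h1).self_of_nhds
    rw [dx_mul (F := fun _ => s) contDiff_const sm_fst, dx_const, dx_fst, dx_mul hT hXs, hT0] at h2
    intro h0
    rw [h0] at h2
    apply hs0
    linarith
  obtain ⟨w, hw, hw0, hwX⟩ := recip hXs hX0
  have hTw : ∀ᶠ z in 𝓝 (0 : ℝ × ℝ), T z = z.1 * (s * w z) := by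
    filter_upwards [hsx, hwX] with z a1 a2
    linear_combination (- T z) * a2 + (- w z) * a1
  set C : ℝ × ℝ → ℝ := fun z =>
    (s * w z) ^ (j + 2) * (B (T z, z.2) - T z ^ j * P (T z, z.2) ^ 2 / 4) with hC
  have hCs : Sm C := by
    refine ((contDiff_const.mul hw).pow _).mul ?_
    exact hBc.sub (((hT.pow j).mul (hPc.pow 2)).div_const 4)
  have hΔ : ∀ᶠ z in 𝓝 (0 : ℝ × ℝ),
      Q (T z, z.2) - (dx Q (T z, z.2)) ^ 2 / 4 = z.1 ^ (j + 2) * C z := by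
    filter_upwards [hQc, hQtc, hTw] with z a1 a2 a3
    have e1 : z.1 ^ (j + 2) * C z = (z.1 * (s * w z)) ^ (j + 2) *
        (B (T z, z.2) - T z ^ j * P (T z, z.2) ^ 2 / 4) := by
      rw [hC, mul_pow z.1]
      ring
    rw [e1, ← a3, a1, a2]
    ring
  refine ⟨C, hCs, ?_, hΔ⟩
  -- the derivative in `y`
  have hQTs : Sm fun z : ℝ × ℝ => Q (T z, z.2) := hQ.comp2 hT sm_snd
  have hQtTs : Sm fun z : ℝ × ℝ => dx Q (T z, z.2) := hQ.dx.comp2 hT sm_snd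
  have hxy : ∀ᶠ z in 𝓝 (0 : ℝ × ℝ),
      dx (dx Q) (T z, z.2) * dy T z + dy (dx Q) (T z, z.2) = 2 * dy T z := by
    have h1 : (fun z : ℝ × ℝ => (fun _ => s) z * z.1) =ᶠ[𝓝 0] fun z =>
      dx Q (T z, z.2) - (fun _ => (2 : ℝ)) z * T z := hx
    filter_upwards [germ_dy h1] with z hz
    rw [dy_mul (F := fun _ => s) contDiff_const sm_fst, dy_const, dy_fst,
      dy_sub hQtTs (G := fun z => (fun _ => (2 : ℝ)) z * T z) (contDiff_const.mul hT),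
      dy_mul (F := fun _ => (2 : ℝ)) contDiff_const hT, dy_const, dy_comp2 hQ.dx hT sm_snd,
      dy_snd] at hz
    linarith
  have hΔy : ∀ᶠ z in 𝓝 (0 : ℝ × ℝ), z.1 ^ (j + 2) * dy C z =
      z.1 ^ (j + 2) * ((s * w z) ^ (j + 2) * dy B (T z, z.2)) := by
    have h1 : (fun z : ℝ × ℝ => Q (T z, z.2) - (fun _ => (1 / 4 : ℝ)) z * (dx Q (T z, z.2)) ^ 2)
        =ᶠ[𝓝 0] fun z => z.1 ^ (j + 2) * C z := by
      filter_upwards [hΔ] with z hz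
      rw [← hz]
      ring
    filter_upwards [germ_dy h1, hxy, hQyc, hTw] with z a1 a2 a3 a4
    rw [dy_mul (sm_fst.pow _) hCs, dy_pow sm_fst, dy_fst,
      dy_sub hQTs (G := fun z => (fun _ => (1 / 4 : ℝ)) z * (dx Q (T z, z.2)) ^ 2)
        (contDiff_const.mul (hQtTs.pow 2)),
      dy_mul (F := fun _ => (1 / 4 : ℝ)) contDiff_const (hQtTs.pow 2), dy_const, dy_pow hQtTs,
      dy_comp2 hQ.dx hT sm_snd, dy_comp2 hQ hT sm_snd, dy_snd] at a1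
    have e2 : z.1 ^ (j + 2) * ((s * w z) ^ (j + 2) * dy B (T z, z.2)) =
        (z.1 * (s * w z)) ^ (j + 2) * dy B (T z, z.2) := by
      rw [mul_pow z.1]
      ring
    rw [e2, ← a4, ← a3]
    simp only [mul_zero, zero_mul, zero_add, mul_one, Nat.add_one_sub_one, pow_one] at a1
    push_cast at a1
    linear_combination (-1) * a1 + (- dx Q (T z, z.2) / 2) * a2
  have hfin := cancel_x (A := fun z => dy C z)
    (B := fun z => (s * w z) ^ (j + 2) * dy B (T z, z.2)) hCs.dy.continuous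
    (((continuous_const.mul hw.continuous).pow _).mul
      (hB.dy.comp2 hT sm_snd).continuous) (j + 2) hΔy
  have h0 := hfin.self_of_nhds
  rw [h0]
  simp only [hT0, z2, zz]
  exact mul_ne_zero (pow_ne_zero _ (mul_ne_zero hs0 hw0)) hB0

end H86N
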