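import Pool.Agent.Lib.H86N.Root

/-! Chunk CONV2: from the shape of `Q` back to `f`. Here `Δ = Q - Q_t^2/4` at `(T z, z.2)`. -/

open Filter Topology Asymptotics
open scoped ContDiff

namespace H86N

/-- `Q = ε H^J`, `J ≥ 3`: `Δ = ε H^J [1 - ε J^2 H^(J-2) H_t^2/4]` at `(T,y)`; the bracket is `1` at `0` (`J ≥ 3`), take
its `J`-th root (`root`). `Y = H(T,y) r(T,y)`, `Y_y(0) = (H_t(0) T_y(0) + H_y(0)) r(0) = H_y(0) r(0) ≠ 0`. -/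
theorem conv2 {Q T H : ℝ × ℝ → ℝ} {J : ℕ} {ε : ℝ} (hJ : 3 ≤ J) (hQ : Sm Q)
    (hT : Sm T) (hT0 : T 0 = 0) (hTy : dy T 0 = 0) (h : PowForm Q ε J H) :
    ∃ Y : ℝ × ℝ → ℝ, Sm Y ∧ Y 0 = 0 ∧ dy Y 0 ≠ 0 ∧
      ∀ᶠ z in 𝓝 (0 : ℝ × ℝ), Q (T z, z.2) - (dx Q (T z, z.2)) ^ 2 / 4 = ε * Y z ^ J := by
  have _ := hQ
  obtain ⟨hε, hH, hH0, hHy, hQH⟩ := h
  obtain ⟨m, rfl⟩ : ∃ m, J = m + 3 := ⟨J - 3, by omega⟩
  have hε2 : ε * ε = 1 := by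
    rcases hε with rfl | rfl <;> norm_num
  have z2 : ((0 : ℝ × ℝ)).2 = 0 := rfl
  have zz : ((0 : ℝ), (0 : ℝ)) = 0 := rfl
  have hHc : Sm fun z : ℝ × ℝ => H (T z, z.2) := hH.comp2 hT sm_snd
  have hHtc : Sm fun z : ℝ × ℝ => dx H (T z, z.2) := hH.dx.comp2 hT sm_snd
  -- the bracket
  set V : ℝ × ℝ → ℝ := fun z =>
    1 - ε * ((m + 3 : ℕ) : ℝ) ^ 2 * H (T z, z.2) ^ (m + 1) * (dx H (T z, z.2)) ^ 2 / 4 with hV
  have hVs : Sm V := by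
    refine contDiff_const.sub (ContDiff.div_const ?_ 4)
    exact (contDiff_const.mul (hHc.pow _)).mul (hHtc.pow 2)
  have hV0 : V 0 = 1 := by
    simp only [hV, hT0, z2, zz, hH0]
    simp
  obtain ⟨v, hv, hv0, hVv⟩ := root hVs (by rw [hV0]; norm_num) (n := m + 3) (by omega)
  refine ⟨fun z => H (T z, z.2) * v z, hHc.mul hv, ?_, ?_, ?_⟩
  · simp only [hT0, z2, zz, hH0, zero_mul]
  · rw [dy_mul hHc hv, dy_comp2 hH hT sm_snd, dy_snd]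
    simp only [hT0, z2, zz, hH0, hTy, zero_mul, mul_zero, zero_add, add_zero, mul_one]
    exact mul_ne_zero hHy hv0.ne'
  · have hdQ : ∀ᶠ z in 𝓝 (0 : ℝ × ℝ), dx Q z = ε * (((m + 3 : ℕ) : ℝ) * H z ^ (m + 2) * dx H z) := by
      have h1 : Q =ᶠ[𝓝 0] fun z => (fun _ => ε) z * (H z ^ (m + 3)) := hQH
      filter_upwards [germ_dx h1] with z hz
      rw [hz, dx_mul (F := fun _ => ε) (G := fun z => H z ^ (m + 3)) contDiff_const (hH.pow _),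
        dx_const, dx_pow hH]
      simp
    have e1 := ev_comp2 hQH hT.continuous continuous_snd hT0 rfl
    have e2 := ev_comp2 hdQ hT.continuous continuous_snd hT0 rfl
    filter_upwards [e1, e2, hVv] with z a1 a2 a3
    rw [a1, a2, mul_pow (H (T z, z.2)) (v z), ← a3]
    simp only [hV]
    have e3 : H (T z, z.2) ^ (m + 3) = H (T z, z.2) ^ (m + 2) * H (T z, z.2) := pow_succ _ _
    have e4 : H (T z, z.2) ^ (m + 2) = H (T z, z.2) ^ (m + 1) * H (T z, z.2) := pow_succ _ _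
    rw [e3]
    have : (ε * (((m + 3 : ℕ) : ℝ) * H (T z, z.2) ^ (m + 2) * dx H (T z, z.2))) ^ 2 =
        ε * ε * (((m + 3 : ℕ) : ℝ) ^ 2 * H (T z, z.2) ^ (m + 2) * H (T z, z.2) ^ (m + 2) *
          dx H (T z, z.2) ^ 2) := by ring
    rw [this]
    have : H (T z, z.2) ^ (m + 2) * H (T z, z.2) ^ (m + 2) =
        H (T z, z.2) ^ (m + 2) * (H (T z, z.2) ^ (m + 1) * H (T z, z.2)) := by rw [e4]
    linear_combination (- (ε * ε) * ((m + 3 : ℕ) : ℝ) ^ 2 * dx H (T z, z.2) ^ 2 / 4) * this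

end H86N
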