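import Pool.Agent.Lib.H86N.Root

/-! Chunk CONV3: from the shape of `Q` back to `f`. Here `Δ = Q - Q_t^2/4` at `(T z, z.2)`. -/

open Filter Topology Asymptotics
open scoped ContDiff

namespace H86N

/-- `x`-derivative of `t^i B`, `B = ε H^J` -/
lemma conv3_dx {Q B H : ℝ × ℝ → ℝ} {i J : ℕ} {ε : ℝ}
    (hQB : ∀ᶠ z in 𝓝 (0 : ℝ × ℝ), Q z = z.1 ^ i * B z) (h : PowForm B ε J H) :
    ∀ᶠ z in 𝓝 (0 : ℝ × ℝ), Q z = z.1 ^ i * (ε * H z ^ J) ∧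
      dx Q z = (i * z.1 ^ (i - 1)) * (ε * H z ^ J)
        + z.1 ^ i * (ε * (J * H z ^ (J - 1) * dx H z)) := by
  obtain ⟨-, hH, -, -, hB⟩ := h
  have h1 : ∀ᶠ z in 𝓝 (0 : ℝ × ℝ), Q z = z.1 ^ i * (ε * H z ^ J) := by
    filter_upwards [hQB, hB] with z a b
    rw [a, b]
  have h2 := germ_dx (F := Q) (G := fun z => z.1 ^ i * (ε * H z ^ J)) h1
  have hp : Sm (fun z : ℝ × ℝ => z.1 ^ i) := sm_fst.pow i
  have hq : Sm (fun z : ℝ × ℝ => H z ^ J) := hH.pow J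
  have hr : Sm (fun z : ℝ × ℝ => ε * H z ^ J) := contDiff_const.mul hq
  filter_upwards [h1, h2] with z a b
  refine ⟨a, ?_⟩
  rw [b, dx_mul hp hr, dx_pow sm_fst, dx_fst, dx_mul contDiff_const hq, dx_const, dx_pow hH]
  ring

/-- the new variable -/
lemma conv3_Y {T H u : ℝ × ℝ → ℝ} (hT : Sm T) (hT0 : T 0 = 0) (hTy : dy T 0 = 0)
    (hH : Sm H) (hH0 : H 0 = 0) (hHy : dy H 0 ≠ 0) (hu : Sm u) (hu0 : 0 < u 0) :
    Sm (fun z : ℝ × ℝ => H (T z, z.2) * u (T z, z.2)) ∧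
    H (T 0, (0 : ℝ × ℝ).2) * u (T 0, (0 : ℝ × ℝ).2) = 0 ∧
      dy (fun z : ℝ × ℝ => H (T z, z.2) * u (T z, z.2)) 0 ≠ 0 := by
  have e0 : (T 0, (0 : ℝ × ℝ).2) = (0 : ℝ × ℝ) := by rw [hT0]; rfl
  have s1 : Sm (fun z : ℝ × ℝ => H (T z, z.2)) := hH.comp2 hT sm_snd
  have s2 : Sm (fun z : ℝ × ℝ => u (T z, z.2)) := hu.comp2 hT sm_snd
  refine ⟨s1.mul s2, by rw [e0, hH0, zero_mul], ?_⟩
  rw [dy_mul s1 s2, dy_comp2 hH hT sm_snd, e0, hTy, dy_snd, hH0]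
  simp only [mul_zero, zero_add, mul_one, zero_mul, add_zero]
  exact mul_ne_zero hHy hu0.ne'

/-- `Q = ε t H^J`, `J ≥ 2`. Put `v^2 = 1 - ε J H^(J-1) H_t`, `v(0) = 1` (`root` with `n = 2`). Then
`x^2/4 + Δ = t^2 v^2` at `t = T`: indeed `x^2 = (Q_t - 2t)^2`, so `x^2/4 + Δ = Q - t Q_t + t^2` and
`Q - t Q_t = - ε J t^2 H^(J-1) H_t`. Moreover `t v + s x/2 = t v + Q_t/2 - t`
`= (ε/2) H^J + t (v - 1) + (ε/2) J t H^(J-1) H_t`, and `(v - 1)(v + 1) = - ε J H^(J-1) H_t`, so this equals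
`(ε/2) H^J + ε J t H^(J-1) H_t (1/2 - 1/(1+v)) = (ε/2) H^J [1 - ε J^2 t H^(J-2) H_t^2/(1+v)^2]` (all at
`(T,y)`). Bracket is `1` at `0` (`t = 0`). `Y = H * ([...]/2)^(1/J)` at `(T,y)`. So
`x^2/4 + Δ = (t v)^2 = (ε Y^J - s x/2)^2`. -/
theorem conv3 {s : ℝ} {Q T B H : ℝ × ℝ → ℝ} {J : ℕ} {ε : ℝ} (hs : s = 1 ∨ s = -1) (hJ : 2 ≤ J)
    (hQ : Sm Q) (hT : Sm T) (hT0 : T 0 = 0) (hTy : dy T 0 = 0)
    (hx : ∀ᶠ z in 𝓝 (0 : ℝ × ℝ), s * z.1 = dx Q (T z, z.2) - 2 * T z)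
    (hQB : ∀ᶠ z in 𝓝 (0 : ℝ × ℝ), Q z = z.1 ^ 1 * B z) (h : PowForm B ε J H) :
    ∃ Y : ℝ × ℝ → ℝ, Sm Y ∧ Y 0 = 0 ∧ dy Y 0 ≠ 0 ∧
      ∀ᶠ z in 𝓝 (0 : ℝ × ℝ), z.1 ^ 2 / 4 + (Q (T z, z.2) - (dx Q (T z, z.2)) ^ 2 / 4)
        = (ε * Y z ^ J - s * z.1 / 2) ^ 2 := by
  have hd := conv3_dx hQB h
  obtain ⟨hε, hH, hH0, hHy, hB⟩ := h
  have hε2 : ε ^ 2 = 1 := by rcases hε with rfl | rfl <;> norm_num
  have hs2 : s ^ 2 = 1 := by rcases hs with rfl | rfl <;> norm_num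
  obtain ⟨j, rfl⟩ : ∃ j, J = j + 2 := ⟨J - 2, by omega⟩
  -- the first root
  have hV : Sm (fun z => 1 - ε * ((((j + 2 : ℕ) : ℝ)) * H z ^ (j + 1) * dx H z)) :=
    contDiff_const.sub (contDiff_const.mul ((contDiff_const.mul (hH.pow _)).mul hH.dx))
  obtain ⟨v, hv, hv0, hvV⟩ := root hV (by simp [hH0]) (n := 2) (by norm_num)
  have hw : Sm (fun z => 1 + v z) := contDiff_const.add hv
  obtain ⟨w, hwS, hw0, hwW⟩ := recip hw (by positivity)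
  have hU : Sm (fun z => (1 - ε * (((((j + 2 : ℕ) : ℝ)) ^ 2 * z.1) * H z ^ j
      * (dx H z) ^ 2 * (w z) ^ 2)) / 2) := by
    refine ContDiff.div_const (contDiff_const.sub (contDiff_const.mul ?_)) _
    exact (((contDiff_const.mul sm_fst).mul (hH.pow _)).mul (hH.dx.pow _)).mul (hwS.pow _)
  obtain ⟨u, hu, hu0, huU⟩ := root hU (by simp) (n := j + 2) (by omega)
  obtain ⟨y1, y2, y3⟩ := conv3_Y hT hT0 hTy hH hH0 hHy hu hu0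
  refine ⟨_, y1, y2, y3, ?_⟩
  have key := ev_comp2 (hd.and (hvV.and (hwW.and huU))) hT.continuous continuous_snd hT0 rfl
  filter_upwards [hx, key] with z a k
  obtain ⟨⟨k1, k2⟩, k3, k4, k5⟩ := k
  try simp only at k1 k2 k3 k4 k5
  set t := T z with ht
  set hh := H (t, z.2) with hhh
  set hx' := dx H (t, z.2) with hhx
  set vv := v (t, z.2) with hvv
  set ww := w (t, z.2) with hww
  set uu := u (t, z.2) with huu
  have e1 : j + 2 - 1 = j + 1 := by omega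
  rw [e1] at k2
  simp only [pow_one, Nat.cast_one, le_refl, Nat.sub_self, pow_zero, mul_one, one_mul] at k1 k2
  have hx2 : z.1 ^ 2 = (dx Q (t, z.2) - 2 * t) ^ 2 := by
    rw [← a, mul_pow, hs2, one_mul]
  -- abbreviation `A = ε J h^(J-1) h_t`
  set A : ℝ := ε * (((j + 2 : ℕ) : ℝ) * hh ^ (j + 1) * hx') with hA
  have k3' : A = 1 - vv ^ 2 := by linarith
  have hAw : A * ww = 1 - vv := by
    rw [k3']
    have : (1 - vv ^ 2) * ww = (1 - vv) * (ww * (1 + vv)) := by ring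
    rw [this, k4, mul_one]
  have hL : z.1 ^ 2 / 4 + (Q (t, z.2) - (dx Q (t, z.2)) ^ 2 / 4) = (t * vv) ^ 2 := by
    rw [hx2]
    have : dx Q (t, z.2) = ε * hh ^ (j + 2) + t * A := by rw [k2]
    rw [this, k1, mul_pow, show vv ^ 2 = 1 - A by linarith]
    ring
  have hR : ε * (hh * uu) ^ (j + 2) - s * z.1 / 2 = t * vv := by
    have h1 : ε * (hh * uu) ^ (j + 2) = ε * hh ^ (j + 2) / 2 - t * (A * ww) ^ 2 / 2 := by
      rw [mul_pow, ← k5, hA]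
      have : ε * (hh ^ (j + 2) * ((1 - ε * (((j + 2 : ℕ) : ℝ) ^ 2 * t * hh ^ j * hx' ^ 2
          * ww ^ 2)) / 2)) = ε * hh ^ (j + 2) / 2 - ε ^ 2 * (t * ((((j + 2 : ℕ) : ℝ)
            * hh ^ (j + 1) * hx') * ww) ^ 2) / 2 := by ring
      rw [this]
      ring
    have h2 : s * z.1 = ε * hh ^ (j + 2) + t * A - 2 * t := by rw [a, k2]
    rw [h1, h2, hAw, k3']
    ring
  rw [hL, hR]

end H86N
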