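import Pool.Agent.Lib.H86N.Root

/-! Chunk CONV4: from the shape of `Q` back to `f`. Here `Δ = Q - Q_t^2/4` at `(T z, z.2)`. -/

open Filter Topology Asymptotics
open scoped ContDiff

namespace H86N

/-- `x`-derivative of `t^i B`, `B = ε H^J` -/
lemma conv4_dx {Q B H : ℝ × ℝ → ℝ} {i J : ℕ} {ε : ℝ}
    (hQB : ∀ᶠ z in 𝓝 (0 : ℝ × ℝ), Q z = z.1 ^ i * B z) (h : PowForm B ε J H) :
    ∀ᶠ z in 𝓝 (0 : ℝ × ℝ), Q z = z.1 ^ i * (ε * H z ^ J) ∧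
      dx Q z = (i * z.1 ^ (i - 1)) * (ε * H z ^ J)
        + z.1 ^ i * (ε * (J * H z ^ (J - 1) * dx H z)) := by
  obtain ⟨-, hH, -, -, hB⟩ := h
  have h1 : ∀ᶠ z in 𝓝 (0 : ℝ × ℝ), Q z = z.1 ^ i * (ε * H z ^ J) := by
    filter_upwards [hQB, hB] with z a b
    rw [a, b]
  have h2 := germ_dx (F := Q) (G := fun z => z.1 ^ i * (ε * H z ^ J)) h1
  have hp : Sm (fun z : ℝ × ℝ => z.1 ^ i) := sm_fst.pow i
  have hq : Sm (fun z : ℝ × ℝ => H z ^ J) := hH.pow J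
  have hr : Sm (fun z : ℝ × ℝ => ε * H z ^ J) := contDiff_const.mul hq
  filter_upwards [h1, h2] with z a b
  refine ⟨a, ?_⟩
  rw [b, dx_mul hp hr, dx_pow sm_fst, dx_fst, dx_mul contDiff_const hq, dx_const, dx_pow hH]
  ring

/-- the new variable -/
lemma conv4_Y {T H u : ℝ × ℝ → ℝ} (hT : Sm T) (hT0 : T 0 = 0) (hTy : dy T 0 = 0)
    (hH : Sm H) (hH0 : H 0 = 0) (hHy : dy H 0 ≠ 0) (hu : Sm u) (hu0 : 0 < u 0) :
    Sm (fun z : ℝ × ℝ => H (T z, z.2) * u (T z, z.2)) ∧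
    H (T 0, (0 : ℝ × ℝ).2) * u (T 0, (0 : ℝ × ℝ).2) = 0 ∧
      dy (fun z : ℝ × ℝ => H (T z, z.2) * u (T z, z.2)) 0 ≠ 0 := by
  have e0 : (T 0, (0 : ℝ × ℝ).2) = (0 : ℝ × ℝ) := by rw [hT0]; rfl
  have s1 : Sm (fun z : ℝ × ℝ => H (T z, z.2)) := hH.comp2 hT sm_snd
  have s2 : Sm (fun z : ℝ × ℝ => u (T z, z.2)) := hu.comp2 hT sm_snd
  refine ⟨s1.mul s2, by rw [e0, hH0, zero_mul], ?_⟩
  rw [dy_mul s1 s2, dy_comp2 hH hT sm_snd, e0, hTy, dy_snd, hH0]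
  simp only [mul_zero, zero_add, mul_one, zero_mul, add_zero]
  exact mul_ne_zero hHy hu0.ne'

/-- `Q = ε t^i H^J`, `i ≥ 2`, `J ≥ 2`. `Q_t = ε t^(i-1) H^(J-1) (i H + J t H_t)`,
`Δ = ε t^i H^J [1 - ε t^(i-2) H^(J-2) (i H + J t H_t)^2/4]`, bracket `1` at `0`. `s x = T X̂`,
`X̂ = ε t^(i-2) H^(J-1) (i H + J t H_t) - 2`, `X̂(0) = -2`. So `T = s x w`, `w = 1/X̂`, `w(0) = -1/2`, and
`Δ = ε s^i x^i w^i H^J [...]`, where `s^i w^i [...]` has a sign at `0`; take the `J`-th root of its absolute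
value. -/
theorem conv4 {s : ℝ} {Q T B H : ℝ × ℝ → ℝ} {i J : ℕ} {ε : ℝ} (hs : s = 1 ∨ s = -1) (hi : 2 ≤ i)
    (hJ : 2 ≤ J) (hQ : Sm Q) (hT : Sm T) (hT0 : T 0 = 0) (hTy : dy T 0 = 0)
    (hx : ∀ᶠ z in 𝓝 (0 : ℝ × ℝ), s * z.1 = dx Q (T z, z.2) - 2 * T z)
    (hQB : ∀ᶠ z in 𝓝 (0 : ℝ × ℝ), Q z = z.1 ^ i * B z) (h : PowForm B ε J H) :
    ∃ (ε' : ℝ) (Y : ℝ × ℝ → ℝ), (ε' = 1 ∨ ε' = -1) ∧ Sm Y ∧ Y 0 = 0 ∧ dy Y 0 ≠ 0 ∧
      ∀ᶠ z in 𝓝 (0 : ℝ × ℝ),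
        Q (T z, z.2) - (dx Q (T z, z.2)) ^ 2 / 4 = ε' * z.1 ^ i * Y z ^ J := by
  have hd := conv4_dx hQB h
  obtain ⟨hε, hH, hH0, hHy, hB⟩ := h
  have hε2 : ε ^ 2 = 1 := by rcases hε with rfl | rfl <;> norm_num
  have hs2 : s ^ 2 = 1 := by rcases hs with rfl | rfl <;> norm_num
  have hs0 : s ≠ 0 := by rcases hs with rfl | rfl <;> norm_num
  obtain ⟨j, rfl⟩ : ∃ j, J = j + 2 := ⟨J - 2, by omega⟩
  obtain ⟨m, rfl⟩ : ∃ m, i = m + 2 := ⟨i - 2, by omega⟩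
  -- `k = i H + J t H_t`
  have hk : Sm (fun z => ((m + 2 : ℕ) : ℝ) * H z + ((j + 2 : ℕ) : ℝ) * z.1 * dx H z) :=
    (contDiff_const.mul hH).add ((contDiff_const.mul sm_fst).mul hH.dx)
  have hX : Sm (fun z => ε * (z.1 ^ m * H z ^ (j + 1)
      * (((m + 2 : ℕ) : ℝ) * H z + ((j + 2 : ℕ) : ℝ) * z.1 * dx H z)) - 2) :=
    (contDiff_const.mul (((sm_fst.pow m).mul (hH.pow _)).mul hk)).sub contDiff_const
  obtain ⟨w, hwS, hw0, hwW⟩ := recip hX (by simp [hH0])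
  have hBr : Sm (fun z => 1 - ε * (z.1 ^ m * H z ^ j
      * (((m + 2 : ℕ) : ℝ) * H z + ((j + 2 : ℕ) : ℝ) * z.1 * dx H z) ^ 2) / 4) :=
    contDiff_const.sub
      ((contDiff_const.mul (((sm_fst.pow m).mul (hH.pow _)).mul (hk.pow 2))).div_const 4)
  have hU : Sm (fun z => s ^ (m + 2) * w z ^ (m + 2) * (1 - ε * (z.1 ^ m * H z ^ j
      * (((m + 2 : ℕ) : ℝ) * H z + ((j + 2 : ℕ) : ℝ) * z.1 * dx H z) ^ 2) / 4)) :=
    (contDiff_const.mul (hwS.pow _)).mul hBr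
  have hP : PowForm (fun z => ε * H z ^ (j + 2)) ε (j + 2) H :=
    ⟨hε, hH, hH0, hHy, Eventually.of_forall fun _ => rfl⟩
  obtain ⟨ε', u, hu, hu0, -, hε', -, -, -, hF⟩ := pow_form_mul (by omega) hP hU (by
    simp only [hH0, Prod.fst_zero, mul_zero, zero_mul, add_zero]
    simp only [ne_eq, OfNat.ofNat_ne_zero, not_false_eq_true, zero_pow, mul_zero, zero_div,
      sub_zero, mul_one]
    exact mul_ne_zero (pow_ne_zero _ hs0) (pow_ne_zero _ hw0))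
  obtain ⟨y1, y2, y3⟩ := conv4_Y hT hT0 hTy hH hH0 hHy hu hu0
  refine ⟨ε', _, hε', y1, y2, y3, ?_⟩
  have key := ev_comp2 (hd.and (hwW.and hF)) hT.continuous continuous_snd hT0 rfl
  filter_upwards [hx, key] with z a k
  obtain ⟨⟨k1, k2⟩, k3, k4⟩ := k
  try simp only at k1 k2 k3 k4
  set t := T z with ht
  set hh := H (t, z.2) with hhh
  set hx' := dx H (t, z.2) with hhx
  set ww := w (t, z.2) with hww
  set uu := u (t, z.2) with huu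
  have e1 : j + 2 - 1 = j + 1 := by omega
  have e2 : m + 2 - 1 = m + 1 := by omega
  rw [e1, e2] at k2
  set K : ℝ := ((m + 2 : ℕ) : ℝ) * hh + ((j + 2 : ℕ) : ℝ) * t * hx' with hK
  have hQx : dx Q (t, z.2) = ε * t ^ (m + 1) * hh ^ (j + 1) * K := by
    rw [k2, hK]; ring
  have hsx : s * z.1 = t * (ε * (t ^ m * hh ^ (j + 1) * K) - 2) := by
    rw [a, hQx]; ring
  have htw : t = s * z.1 * ww := by
    rw [hsx]
    have : t * (ε * (t ^ m * hh ^ (j + 1) * K) - 2) * ww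
        = t * (ww * (ε * (t ^ m * hh ^ (j + 1) * K) - 2)) := by ring
    rw [this, k3, mul_one]
  have hD : Q (t, z.2) - (dx Q (t, z.2)) ^ 2 / 4
      = t ^ (m + 2) * ((1 - ε * (t ^ m * hh ^ j * K ^ 2) / 4) * (ε * hh ^ (j + 2))) := by
    rw [k1, hQx]
    have : t ^ (m + 2) * ((1 - ε * (t ^ m * hh ^ j * K ^ 2) / 4) * (ε * hh ^ (j + 2)))
        = t ^ (m + 2) * (ε * hh ^ (j + 2))
          - ε ^ 2 * (t ^ (m + 1) * hh ^ (j + 1) * K) ^ 2 / 4 := by ring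
    rw [this]; ring
  have ht2 : t ^ (m + 2) = z.1 ^ (m + 2) * (s ^ (m + 2) * ww ^ (m + 2)) := by
    calc t ^ (m + 2) = (s * z.1 * ww) ^ (m + 2) := by rw [← htw]
      _ = _ := by ring
  rw [hD]
  calc t ^ (m + 2) * ((1 - ε * (t ^ m * hh ^ j * K ^ 2) / 4) * (ε * hh ^ (j + 2)))
      = z.1 ^ (m + 2) * (s ^ (m + 2) * ww ^ (m + 2) * (1 - ε * (t ^ m * hh ^ j * K ^ 2) / 4)
        * (ε * hh ^ (j + 2))) := by
        rw [show t ^ (m + 2) * ((1 - ε * (t ^ m * hh ^ j * K ^ 2) / 4) * (ε * hh ^ (j + 2)))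
          = (t ^ (m + 2)) * (1 - ε * (t ^ m * hh ^ j * K ^ 2) / 4) * (ε * hh ^ (j + 2)) by ring]
        conv_lhs => rw [ht2]
        ring
    _ = z.1 ^ (m + 2) * (ε' * (hh * uu) ^ (j + 2)) := by rw [k4]
    _ = _ := by ring

end H86N
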