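import Pool.Agent.Lib.H86N.P3
import Pool.Agent.Lib.H86N.Q6

/-!
# P6: if the block between two frames is everything, the rank is at most two
-/

set_option autoImplicit false
set_option linter.unusedSectionVars false
namespace Pool.Agent.H86N
open Module Pool.Agent.H53Toric Pool.Agent.H49M

variable {K : Type*} [Field K] {V : Type*} [AddCommGroup V] [Module K V]

/-- The restriction of an operator to the range of `p`. -/
noncomputable def res (p T : Module.End K V) : Module.End K (LinearMap.range p) :=
  p.rangeRestrict ∘ₗ T ∘ₗ (LinearMap.range p).subtype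

theorem res_coe (p T : Module.End K V) (u : LinearMap.range p) : ((res p T u : LinearMap.range p) : V) = p (T u) := rfl

theorem res_add (p T S : Module.End K V) : res p (T + S) = res p T + res p S := by
  ext u
  simp [res_coe]

theorem res_smul (p T : Module.End K V) (c : K) : res p (c • T) = c • res p T := by
  ext u
  simp [res_coe]

theorem res_zero (p : Module.End K V) : res p (0 : Module.End K V) = 0 := by
  ext u
  simp [res_coe]

theorem res_mul {p T S : Module.End K V} (h : T * p = T) : res p T * res p S = res p (T * S) := by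
  ext u
  rw [Module.End.mul_apply, res_coe, res_coe, res_coe]
  have h1 : T (p (S u)) = T (S u) := by
    rw [← Module.End.mul_apply T p, h]
  rw [h1, Module.End.mul_apply]

theorem res_fix {p : Module.End K V} (hp : p * p = p) (u : LinearMap.range p) : p (u : V) = u := by
  obtain ⟨_, ⟨v, rfl⟩⟩ := u
  show p (p v) = p v
  rw [← Module.End.mul_apply, hp]

theorem res_self {p : Module.End K V} (hp : p * p = p) : res p p = 1 := by
  ext u
  rw [res_coe, res_fix hp, res_fix hp]
  rfl

theorem res_inj {p T S : Module.End K V} (h1 : p * T = T) (h2 : T * p = T) (h3 : p * S = S) (h4 : S * p = S)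
    (h : res p T = res p S) : T = S := by
  ext v
  have h5 := congrArg Subtype.val (LinearMap.congr_fun h ⟨p v, v, rfl⟩)
  rw [res_coe, res_coe] at h5
  have h6 : p (T (p v)) = T v := by
    rw [← Module.End.mul_apply T p, h2, ← Module.End.mul_apply p T, h1]
  have h7 : p (S (p v)) = S v := by
    rw [← Module.End.mul_apply S p, h4, ← Module.End.mul_apply p S, h3]
  rw [← h6, ← h7]
  exact h5

theorem res_trace [FiniteDimensional K V] {p T : Module.End K V} (h1 : p * T = T) :
    LinearMap.trace K (LinearMap.range p) (res p T) = LinearMap.trace K V T := by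
  have h2 : T = (LinearMap.range p).subtype ∘ₗ (p.rangeRestrict ∘ₗ T) := by
    ext v
    show T v = p (T v)
    rw [← Module.End.mul_apply, h1]
  conv_rhs => rw [h2]
  rw [LinearMap.trace_comp_comm']
  rfl

theorem res_onto {p : Module.End K V} (hp : p * p = p) (A : Module.End K (LinearMap.range p)) :
    ∃ T : Module.End K V, res p (p * T * p) = A := by
  refine ⟨(LinearMap.range p).subtype ∘ₗ A ∘ₗ p.rangeRestrict, ?_⟩
  ext u
  rw [res_coe]
  show p (p ((A (p.rangeRestrict (p u)) : LinearMap.range p) : V)) = _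
  have h1 : p.rangeRestrict (p u) = u := by
    apply Subtype.ext
    show p (p u) = u
    rw [res_fix hp, res_fix hp]
  rw [h1, res_fix hp, res_fix hp]

variable {L : Submodule K (Module.End K V)}

/-- The product of the two parts of an element of the block is scalar. -/
theorem P6_prod [CharZero K] (h : CoreN L) {s e f e' f' u : Module.End K V}
    (G : Grid L s e f e' f' u) {X : Module.End K V} (hX : X ∈ L) :
    ∃ c : K, (e * f * X * (u * f)) * (u * f' * e' * X * f) = c • (e * f) := by
  have hl := h.lie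
  have B := P2_blocks h G
  obtain ⟨p, hp⟩ : ∃ p, p = pp s e f e' f' := ⟨_, rfl⟩
  obtain ⟨q, hq⟩ : ∃ q, q = qq s e f e' f' := ⟨_, rfl⟩
  rw [← hp, ← hq] at B
  have p1 : p 1 = e * f := by rw [hp]; rfl
  have p2 : p 2 = e' * f' := by rw [hp]; rfl
  have q1 : q 1 = f * e := by rw [hq]; rfl
  have q2 : q 2 = f' * e' := by rw [hq]; rfl
  have hZ := B.m0 X hX 1 2 (by decide)
  have he'L := G.F'.e_mem.1
  have h1 := hl _ hZ _ he'L
  have h2 := hl _ hZ _ h1
  have hee' : e * e' = 0 := A2_pp G.F.e_mem G.F'.e_mem
  have he'e : e' * e = 0 := A2_pp G.F'.e_mem G.F.e_mem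
  have c1 : q 1 * e' = 0 := by rw [q1, mul_assoc, hee', mul_zero]
  have c2 : e' * p 1 = 0 := by rw [p1, ← mul_assoc, he'e, zero_mul]
  have c3 : p 2 * p 1 = 0 := by rw [B.pp, if_neg (by decide)]
  have c4 : q 1 * q 2 = 0 := by rw [B.qq, if_neg (by decide)]
  have c5 : q 1 * p 1 = 0 := B.qp 1 1
  have e1 : (p 1 * X * p 2 + q 2 * X * q 1) * e' - e' * (p 1 * X * p 2 + q 2 * X * q 1) =
      p 1 * X * p 2 * e' - e' * (q 2 * X * q 1) := by
    calc (p 1 * X * p 2 + q 2 * X * q 1) * e' - e' * (p 1 * X * p 2 + q 2 * X * q 1)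
        = p 1 * X * p 2 * e' + q 2 * X * (q 1 * e') - ((e' * p 1) * X * p 2 +
          e' * (q 2 * X * q 1)) := by noncomm_ring
      _ = _ := by rw [c1, c2]; simp
  have e2 : (p 1 * X * p 2 + q 2 * X * q 1) * (p 1 * X * p 2 * e' - e' * (q 2 * X * q 1)) -
      (p 1 * X * p 2 * e' - e' * (q 2 * X * q 1)) * (p 1 * X * p 2 + q 2 * X * q 1) =
      (-2 : K) • (p 1 * X * p 2 * e' * (q 2 * X * q 1)) := by
    have e3 : (p 1 * X * p 2 + q 2 * X * q 1) * (p 1 * X * p 2 * e' - e' * (q 2 * X * q 1)) -
        (p 1 * X * p 2 * e' - e' * (q 2 * X * q 1)) * (p 1 * X * p 2 + q 2 * X * q 1) =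
        p 1 * X * (p 2 * p 1) * X * p 2 * e' - p 1 * X * p 2 * e' * (q 2 * X * q 1) +
        q 2 * X * (q 1 * p 1) * X * p 2 * e' - q 2 * X * (q 1 * e') * (q 2 * X * q 1) -
        (p 1 * X * p 2 * (e' * p 1) * X * p 2 + p 1 * X * p 2 * e' * (q 2 * X * q 1) -
          e' * (q 2 * X * (q 1 * p 1) * X * p 2) - e' * (q 2 * X * (q 1 * q 2) * X * q 1)) := by
      noncomm_ring
    rw [e3, c1, c2, c3, c4, c5]
    simp only [mul_zero, zero_mul]
    module
  rw [e1, e2] at h2
  obtain ⟨c, hc⟩ := K0_ext hl G.F h2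
  refine ⟨-(c / 2), ?_⟩
  have d1 : e * f * (p 1 * X * p 2 * e' * (q 2 * X * q 1)) * (f * e) = p 1 * X * p 2 * e' * (q 2 * X * q 1) := by
    rw [← p1, ← q1]
    calc p 1 * (p 1 * X * p 2 * e' * (q 2 * X * q 1)) * q 1 =
          (p 1 * p 1) * X * p 2 * e' * (q 2 * X * (q 1 * q 1)) := by noncomm_ring
      _ = _ := by rw [B.pp, if_pos rfl, B.qq, if_pos rfl]
  rw [mul_smul_comm, smul_mul_assoc, d1] at hc
  have d2 : p 1 * X * p 2 * e' * (q 2 * X * q 1) = (-(c / 2)) • e := by
    have d3 : p 1 * X * p 2 * e' * (q 2 * X * q 1) = (-(1 / 2) : K) • ((-2 : K) • (p 1 * X * p 2 * e' * (q 2 * X * q 1))) := by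
      rw [smul_smul]
      norm_num
    rw [d3, hc, smul_smul]
    congr 1
    ring
  obtain ⟨-, g1, g2, -⟩ := P3_u1 h G
  obtain ⟨-, g3, g4⟩ := P3_u2 h G
  obtain ⟨g5, g6⟩ := P3_u12 G
  -- both sides
  have d4 : (e * f * X * (u * f)) * (u * f' * e' * X * f) = p 1 * X * p 2 * e' * (q 2 * X * q 1) * f := by
    rw [p1, p2, q1, q2]
    have d5 : (u * f) * (u * f' * e' * X * f) = e' * f' * e' * (f' * e') * X * (f * e * f) := by
      calc (u * f) * (u * f' * e' * X * f) = (u * f * (u * f')) * e' * X * f := by noncomm_ring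
        _ = e' * f' * e' * X * f := by rw [g6]
        _ = e' * f' * e' * (f' * e') * X * (f * e * f) := by
            rw [G.F.fef, G.F'.efe, ← mul_assoc e' f' e', G.F'.efe]
    calc (e * f * X * (u * f)) * (u * f' * e' * X * f) = e * f * X * ((u * f) * (u * f' * e' * X * f)) := by
          rw [mul_assoc]
      _ = e * f * X * (e' * f' * e' * (f' * e') * X * (f * e * f)) := by rw [d5]
      _ = e * f * X * (e' * f') * e' * (f' * e' * X * (f * e)) * f := by noncomm_ring
  rw [d4, d2, smul_mul_assoc]

/-- If the block between two frames is everything, the rank is at most two, and in rank two the two parts of an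
element of the block are adjugate to each other. -/
theorem P6_two [CharZero K] [FiniteDimensional K V] (h : CoreN L)
    {s e f e' f' u : Module.End K V} (G : Grid L s e f e' f' u)
    (hall : ∀ T : Module.End K V, e * f * T * (e * f) * (u * f') ∈ LL L (e * f) (e' * f')) :
    finrank K (LinearMap.range e) = 1 ∨ (finrank K (LinearMap.range e) = 2 ∧
      ∀ X ∈ L, u * f' * e' * X * f = e * f * X * (u * f) - LinearMap.trace K V (e * f * X * (u * f)) • (e * f)) := by
  have hpp : e * f * (e * f) = e * f := by rw [← mul_assoc, G.F.efe]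
  obtain ⟨-, g1, g2, -⟩ := P3_u1 h G
  obtain ⟨-, g3, g4⟩ := P3_u2 h G
  obtain ⟨g5, g6⟩ := P3_u12 G
  have hff' : f * f' = 0 := A2_mm G.F.f_mem G.F'.f_mem
  have hf'f : f' * f = 0 := A2_mm G.F'.f_mem G.F.f_mem
  obtain ⟨p, hp⟩ : ∃ p, p = e * f := ⟨_, rfl⟩
  have hpos : finrank K (LinearMap.range e) ≠ 0 := by
    intro h0
    exact G.F.e_ne (LinearMap.range_eq_bot.1 (Submodule.finrank_eq_zero.1 h0))
  by_cases hr : finrank K (LinearMap.range e) = 1
  · exact Or.inl hr
  right
  have hr2 : 2 ≤ finrank K (LinearMap.range p) := by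
    rw [hp, (K0_rank G.F).1]
    omega
  have ha1 : ∀ X, p * (p * X * (u * f)) = p * X * (u * f) := by
    intro X
    rw [hp]
    calc e * f * (e * f * X * (u * f)) = (e * f * (e * f)) * X * (u * f) := by noncomm_ring
      _ = _ := by rw [hpp]
  have ha2 : ∀ X, p * X * (u * f) * p = p * X * (u * f) := by
    intro X
    rw [hp]
    calc e * f * X * (u * f) * (e * f) = e * f * X * (u * f * (e * f)) := by noncomm_ring
      _ = _ := by rw [g4]
  have hb1 : ∀ X, p * (u * f' * e' * X * f) = u * f' * e' * X * f := by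
    intro X
    rw [hp]
    calc e * f * (u * f' * e' * X * f) = (e * f * (u * f')) * e' * X * f := by noncomm_ring
      _ = _ := by rw [g1]
  have hb2 : ∀ X, u * f' * e' * X * f * p = u * f' * e' * X * f := by
    intro X
    rw [hp]
    calc u * f' * e' * X * f * (e * f) = u * f' * e' * X * (f * e * f) := by noncomm_ring
      _ = _ := by rw [G.F.fef]
  let W : Submodule K (Module.End K (LinearMap.range p) × Module.End K (LinearMap.range p)) :=
    { carrier := {w | ∃ X ∈ L, w.1 = res p (p * X * (u * f)) ∧ w.2 = res p (u * f' * e' * X * f)}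
      add_mem' := by
        rintro w w' ⟨X, hX, h1, h2⟩ ⟨X', hX', h3, h4⟩
        refine ⟨X + X', L.add_mem hX hX', ?_, ?_⟩
        · rw [Prod.fst_add, h1, h3, ← res_add]
          congr 1
          noncomm_ring
        · rw [Prod.snd_add, h2, h4, ← res_add]
          congr 1
          noncomm_ring
      zero_mem' := ⟨0, L.zero_mem, by simp [res_zero], by simp [res_zero]⟩
      smul_mem' := by
        rintro c w ⟨X, hX, h1, h2⟩
        refine ⟨c • X, L.smul_mem c hX, ?_, ?_⟩
        · rw [Prod.smul_fst, h1, ← res_smul]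
          congr 1
          simp only [mul_smul_comm, smul_mul_assoc]
        · rw [Prod.smul_snd, h2, ← res_smul]
          congr 1
          simp only [mul_smul_comm, smul_mul_assoc] }
  have hppp : p * p = p := by rw [hp]; exact hpp
  obtain ⟨hd, hW⟩ := q6_quad hr2 W
    (by
      rintro w ⟨X, hX, h1, h2⟩
      obtain ⟨c, hc⟩ := P6_prod h G hX
      refine ⟨c, ?_⟩
      rw [h1, h2, res_mul (ha2 X)]
      rw [← hp] at hc
      rw [hc, res_smul, res_self hppp])
    (by
      intro A
      obtain ⟨T, hT⟩ := res_onto hppp A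
      obtain ⟨X, hX, hXT⟩ := hall T
      refine ⟨res p (u * f' * e' * X * f), X, hX, ?_, rfl⟩
      show A = _
      rw [← hT]
      congr 1
      rw [hp]
      calc e * f * T * (e * f) = e * f * T * (e * f) * (u * f' * (u * f)) := by
            rw [g5, mul_assoc (e * f * T), hpp]
        _ = e * f * T * (e * f) * (u * f') * (u * f) := by noncomm_ring
        _ = e * f * X * (e' * f' * (u * f)) := by rw [hXT]; noncomm_ring
        _ = _ := by rw [g3])
    (by
      refine ⟨u * f' - f' * u, h.lie _ G.u_mem.1 _ G.F'.f_mem.1, ?_, ?_⟩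
      · show (1 : Module.End K (LinearMap.range p)) = _
        rw [← res_self hppp]
        congr 1
        rw [hp]
        symm
        calc e * f * (u * f' - f' * u) * (u * f) = e * f * (u * f') * (u * f) - e * (f * f') * u * (u * f) := by
              noncomm_ring
          _ = e * f := by rw [hff', g1, g5]; simp
      · show (-1 : Module.End K (LinearMap.range p)) = _
        have h1 : u * f' * e' * (u * f' - f' * u) * f = (-1 : K) • p := by
          calc u * f' * e' * (u * f' - f' * u) * f = u * f' * e' * u * (f' * f) - u * (f' * e' * f') * u * f := by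
                noncomm_ring
            _ = -(u * f' * (u * f)) := by rw [hf'f, G.F'.fef]; noncomm_ring
            _ = _ := by rw [g5, hp, neg_one_smul]
        rw [h1, res_smul, res_self hppp]
        module)
  refine ⟨by rw [← hd, hp, (K0_rank G.F).1], fun X hX => ?_⟩
  have h1 := hW (res p (p * X * (u * f)), res p (u * f' * e' * X * f)) ⟨X, hX, rfl, rfl⟩
  simp only at h1
  rw [res_trace (ha1 X), ← res_self hppp, ← res_smul, sub_eq_add_neg, ← neg_one_smul K, ← res_smul, ← res_add] at h1
  rw [← hp]
  have h2 := res_inj (hb1 X) (hb2 X) (by rw [mul_add, ha1 X, mul_smul_comm, mul_smul_comm, hppp])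
    (by rw [add_mul, ha2 X, smul_mul_assoc, smul_mul_assoc, hppp]) h1
  rw [h2, neg_one_smul, ← sub_eq_add_neg]

end Pool.Agent.H86N
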