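import Pool.Agent.Lib.H86N.P2
import Pool.Agent.Lib.H86N.P6
import Pool.Agent.Lib.H49M.P7
import Pool.Agent.Lib.H86N.K5
import Pool.Agent.Lib.H86N.P5

/-!
# P8: the case where two frames fill everything
-/

set_option autoImplicit false
set_option linter.unusedSectionVars false
namespace Pool.Agent.H86N
open Module Pool.Agent.H53Toric Pool.Agent.H49M

variable {K : Type*} [Field K] {V : Type*} [AddCommGroup V] [Module K V]

variable {L : Submodule K (Module.End K V)}

/-- Chunk P8a. The dimension of `V₊` is twice the rank of `e`: `p 1 = e f`, `p 2 = e' f'` have the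
same rank because `u₁ u₂ = p 1`, `u₂ u₁ = p 2` for `u₁ = u f'`, `u₂ = u f`; use `K0_rank`, `K5_eig`. -/
theorem P8_four [CharZero K] [IsAlgClosed K] [FiniteDimensional K V] [Nontrivial V]
    (h : CoreN L) {s e f e' f' u : Module.End K V} (G : Grid L s e f e' f' u)
    (h0 : (1 / 2 : K) • (1 + s) = e * f + e' * f') :
    finrank K V = 4 * finrank K (LinearMap.range e) := by
  obtain ⟨hu12, hu21⟩ := P3_u12 G
  have t1 := (K0_rank G.F).2.2
  have t2 : LinearMap.trace K V (e' * f') = LinearMap.trace K V (e * f) := by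
    rw [← hu12, ← hu21, LinearMap.trace_mul_comm]
  have t3 := h.tr s G.F.s_mem
  have h1 := congrArg (LinearMap.trace K V) h0
  rw [map_smul, map_add, map_add, t2, t1, t3, LinearMap.trace_one, add_zero, smul_eq_mul] at h1
  have h2 : (finrank K V : K) = ((4 * finrank K (LinearMap.range e) : ℕ) : K) := by
    push_cast
    linear_combination 2 * h1
  exact Nat.cast_injective h2

/-- Chunk P8b. `j = f + f'`, `g = e + e'` satisfy `g j = (1+s)/2 =: P`, `j g = (1-s)/2 =: Q` (apply
`adj` to the hypothesis for the second). For `x ∈ Lp`: `p 1 x q 1 = c₁ e` (`K0_ext`),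
`p 2 x q 2 = c₂ e'` (`K0_ext` for the frame `e', f'`), `x' = p 1 x q 2 + p 2 x q 1 ∈ L`. Put
`w = x j - (1/2)(c₁ + c₂) P = (1/2)(c₁ - c₂)(p 1 - p 2) + x' j`, an operator of `V₊ = range P`.
`w² ∈ K P`: `x' j` is off-diagonal: `x' j = p 1 x' f' + p 2 x' f` and anticommutes with
`p 1 - p 2`; `(x' j)² = p 1 x' f' x' f + p 2 x' f x' f'`, where `x' f' x' ∈ L` is
`p 1 (x' f' x') q 1 = c e`, `x' f x' = c' e'`, so `(x' j)² = c p 1 + c' p 2`; `c = c'` because
`(x' j)² (x' j) = (x' j)(x' j)²` if `x' ≠ 0` (if `p 1 x' f' = 0` then `p 1 x' q 2 = 0`, hence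
`x' = 0` by `adj`), and `c = c' = 0` if `x' = 0`. Let `J` be the space of these `w` restricted to
`V₊ = eig s 1`. `J` is irreducible on `V₊`: a `J`-stable subspace `W` is stable under all `x j`,
`x ∈ Lp`, hence under `x y = (x j)(g y g j)` on `V₊` for `x ∈ Lp`, `y ∈ Lm` (`g y g ∈ Lp`,
`IsLie.sandwich`, `y = y P = y g j`), hence under `x y - y x` (`y x = 0` on `V₊`), hence under `L0`
(`A3_span`); so `W = 0` or `W = V₊` by `A3_vec`. Now `P7_cliff`. -/
theorem P8_pow [CharZero K] [IsAlgClosed K] [FiniteDimensional K V] [Nontrivial V]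
    (h : CoreN L) {s e f e' f' u : Module.End K V} (G : Grid L s e f e' f' u)
    (h0 : (1 / 2 : K) • (1 + s) = e * f + e' * f') :
    ∃ t : ℕ, finrank K (eig s 1) = 2 ^ t := by
  have hl := h.lie
  obtain ⟨P, hP⟩ : ∃ P : Module.End K V, P = (1 / 2 : K) • (1 + s) := ⟨_, rfl⟩
  obtain ⟨Q, hQ⟩ : ∃ Q : Module.End K V, Q = (1 / 2 : K) • (1 - s) := ⟨_, rfl⟩
  have hPe : P = e * f + e' * f' := by rw [hP, h0]
  have hs2 := G.F.s_sq
  have hQe : Q = f * e + f' * e' := by
    -- the difference is an idempotent of trace zero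
    have B := P2_blocks h G
    have q0 : (qq s e f e' f' : Fin 3 → Module.End K V) 0 = (1 / 2 : K) • (1 - s) - f * e - f' * e' := rfl
    have p0 : (pp s e f e' f' : Fin 3 → Module.End K V) 0 = (1 / 2 : K) • (1 + s) - e * f - e' * f' := rfl
    have t1 : LinearMap.trace K V ((pp s e f e' f' : Fin 3 → Module.End K V) 0 -
        (qq s e f e' f' : Fin 3 → Module.End K V) 0) = 0 := h.tr _ (B.mem 0)
    have t2 : (pp s e f e' f' : Fin 3 → Module.End K V) 0 = 0 := by rw [p0, h0]; abel
    rw [t2, zero_sub, map_neg, neg_eq_zero] at t1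
    have t3 := trace_idem (V := V) (K := K) (show (qq s e f e' f' : Fin 3 → Module.End K V) 0 *
      (qq s e f e' f' : Fin 3 → Module.End K V) 0 = (qq s e f e' f' : Fin 3 → Module.End K V) 0 by
        rw [B.qq, if_pos rfl])
    rw [t1] at t3
    have t4 : finrank K (LinearMap.range ((qq s e f e' f' : Fin 3 → Module.End K V) 0)) = 0 := by
      exact_mod_cast t3.symm
    have t5 := LinearMap.range_eq_bot.1 (Submodule.finrank_eq_zero.1 t4)
    rw [q0] at t5
    rw [hQ]
    have t6 := sub_eq_zero.1 (show (1 / 2 : K) • (1 - s) - (f * e + f' * e') = 0 by rw [← t5]; abel)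
    exact t6
  have ePx : ∀ X ∈ Lp L s, P * X = X := by
    intro X hX
    rw [hP, smul_mul_assoc, add_mul, one_mul, hX.2.1, ← two_smul K, smul_smul]; norm_num
  have eXQ : ∀ X ∈ Lp L s, X * Q = X := by
    intro X hX
    rw [hQ, mul_smul_comm, mul_sub, mul_one, hX.2.2, sub_neg_eq_add, ← two_smul K, smul_smul]
    norm_num
  have eYP : ∀ Y ∈ Lm L s, Y * P = Y := by
    intro X hX
    rw [hP, mul_smul_comm, mul_add, mul_one, hX.2.2, ← two_smul K, smul_smul]; norm_num
  have hPv : ∀ v, s v = v → P v = v := by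
    intro v hv
    rw [hP, LinearMap.smul_apply, LinearMap.add_apply, hv, Module.End.one_apply, ← two_smul K,
      smul_smul]
    norm_num
  have m1 : ∀ {v : V}, v ∈ eig s 1 ↔ s v = v := by
    intro v
    rw [eig, LinearMap.mem_ker, LinearMap.sub_apply, sub_eq_zero, one_smul, Module.End.one_apply]
  have ff' : f * f' = 0 := A2_mm G.F.f_mem G.F'.f_mem
  have f'f : f' * f = 0 := A2_mm G.F'.f_mem G.F.f_mem
  have efe := G.F.efe
  have fef := G.F.fef
  have efe' := G.F'.efe
  have fef' := G.F'.fef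
  have e'f := G.o3
  have ef' := G.o1
  have hgj : (e + e') * (f + f') = P := by
    rw [hPe, add_mul, mul_add, mul_add, ef', e'f]; simp
  have hjg : (f + f') * (e + e') = Q := by
    rw [hQe, add_mul, mul_add, mul_add, G.o4, G.o2]; simp
  have p1ne : e * f ≠ 0 := by
    intro h1
    apply G.F.e_ne
    rw [← efe, h1, zero_mul]
  -- the space of operators
  let J : Submodule K (Module.End K (eig s 1)) :=
    { carrier := {T | ∃ x ∈ Lp L s, ∃ c₁ c₂ : K, e * f * x * (f * e) = c₁ • e ∧
        e' * f' * x * (f' * e') = c₂ • e' ∧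
        ∀ v : eig s 1, ((T v : eig s 1) : V) = x ((f + f') (v : V)) - ((c₁ + c₂) / 2) • (v : V)}
      add_mem' := by
        rintro S T ⟨x, hx, c₁, c₂, h1, h2, h3⟩ ⟨y, hy, d₁, d₂, h4, h5, h6⟩
        refine ⟨x + y, (Lp L s).add_mem hx hy, c₁ + d₁, c₂ + d₂, ?_, ?_, ?_⟩
        · rw [mul_add, add_mul, h1, h4, add_smul]
        · rw [mul_add, add_mul, h2, h5, add_smul]
        · intro v
          have e1 : (x + y) ((f + f') (v : V)) = x ((f + f') (v : V)) + y ((f + f') (v : V)) := rfl
          rw [LinearMap.add_apply, Submodule.coe_add, h3, h6, e1]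
          module
      zero_mem' := ⟨0, (Lp L s).zero_mem, 0, 0, by simp, by simp, by simp⟩
      smul_mem' := by
        rintro c T ⟨x, hx, c₁, c₂, h1, h2, h3⟩
        refine ⟨c • x, (Lp L s).smul_mem c hx, c * c₁, c * c₂, ?_, ?_, ?_⟩
        · rw [mul_smul_comm, smul_mul_assoc, h1, smul_smul]
        · rw [mul_smul_comm, smul_mul_assoc, h2, smul_smul]
        · intro v
          have e1 : (c • x) ((f + f') (v : V)) = c • x ((f + f') (v : V)) := rfl
          rw [LinearMap.smul_apply, Submodule.coe_smul, h3, e1]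
          module }
  have hsq : ∀ w ∈ J, ∃ c : K, w * w = c • 1 := by
    rintro T ⟨x, hx, c₁, c₂, h1, h2, h3⟩
    have hxx : x * x = 0 := A2_pp hx hx
    obtain ⟨A, hA⟩ : ∃ A, A = e * f * x * f' := ⟨_, rfl⟩
    obtain ⟨B, hB⟩ : ∃ B, B = e' * f' * x * f := ⟨_, rfl⟩
    -- the operator
    have hxj : x * (f + f') = c₁ • (e * f) + c₂ • (e' * f') + A + B := by
      have e1 : e * f * x * f = c₁ • (e * f) := by
        calc e * f * x * f = e * f * x * (f * e) * f := by rw [mul_assoc _ (f * e) f, fef]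
          _ = c₁ • (e * f) := by rw [h1, smul_mul_assoc]
      have e2 : e' * f' * x * f' = c₂ • (e' * f') := by
        calc e' * f' * x * f' = e' * f' * x * (f' * e') * f' := by
              rw [mul_assoc _ (f' * e') f', fef']
          _ = c₂ • (e' * f') := by rw [h2, smul_mul_assoc]
      calc x * (f + f') = P * x * (f + f') := by rw [ePx x hx]
        _ = e * f * x * f + e' * f' * x * f' + e * f * x * f' + e' * f' * x * f := by
            rw [hPe]; noncomm_ring
        _ = _ := by rw [e1, e2, hA, hB]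
    obtain ⟨a, ha⟩ := K0_ext hl G.F (hl.sandwich hx.1 hxx G.F'.f_mem.1)
    obtain ⟨b, hb⟩ := K0_ext hl G.F' (hl.sandwich hx.1 hxx G.F.f_mem.1)
    have hAB : A * B = a • (e * f) := by
      calc A * B = e * f * x * (f' * e' * f') * x * f := by rw [hA, hB]; noncomm_ring
        _ = e * f * (x * f' * x) * (f * e) * f := by
          rw [fef', mul_assoc _ (f * e) f, fef]; noncomm_ring
        _ = _ := by rw [ha, smul_mul_assoc]
    have hBA : B * A = b • (e' * f') := by
      calc B * A = e' * f' * x * (f * e * f) * x * f' := by rw [hA, hB]; noncomm_ring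
        _ = e' * f' * (x * f * x) * (f' * e') * f' := by
          rw [fef, mul_assoc _ (f' * e') f', fef']; noncomm_ring
        _ = _ := by rw [hb, smul_mul_assoc]
    have hp1A : e * f * A = A := by rw [hA]; simp only [← mul_assoc]; rw [efe]
    have hAp2 : A * (e' * f') = A := by rw [hA, mul_assoc, ← mul_assoc f', fef']
    have hp2B : e' * f' * B = B := by rw [hB]; simp only [← mul_assoc]; rw [efe']
    have hBp1 : B * (e * f) = B := by rw [hB, mul_assoc, ← mul_assoc f, fef]
    have hAA : A * A = 0 := by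
      calc A * A = e * f * x * (f' * e) * f * x * f' := by rw [hA]; noncomm_ring
        _ = 0 := by rw [G.o2]; simp
    have hBB : B * B = 0 := by
      calc B * B = e' * f' * x * (f * e') * f' * x * f := by rw [hB]; noncomm_ring
        _ = 0 := by rw [G.o4]; simp
    have hab : a = b := by
      by_cases hA0 : A = 0
      · rw [hA0, zero_mul] at hAB
        rw [hA0, mul_zero] at hBA
        have ha0 := (smul_eq_zero.mp hAB.symm).resolve_right p1ne
        have p2ne : e' * f' ≠ 0 := by
          intro h1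
          apply G.F'.e_ne
          rw [← efe', h1, zero_mul]
        have hb0 := (smul_eq_zero.mp hBA.symm).resolve_right p2ne
        rw [ha0, hb0]
      · have e1 : (a - b) • A = 0 := by
          have e2 : A * B * A = a • A := by rw [hAB, smul_mul_assoc, hp1A]
          have e3 : A * B * A = b • A := by rw [mul_assoc, hBA, mul_smul_comm, hAp2]
          rw [sub_smul, ← e2, ← e3, sub_self]
        exact sub_eq_zero.mp ((smul_eq_zero.mp e1).resolve_right hA0)
    -- the square
    obtain ⟨D, hD⟩ : ∃ D : Module.End K V, D = x * (f + f') - ((c₁ + c₂) / 2) • P := ⟨_, rfl⟩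
    obtain ⟨d, hd⟩ : ∃ d : K, d = (c₁ - c₂) / 2 := ⟨_, rfl⟩
    have hD2 : D = d • (e * f - e' * f') + (A + B) := by
      rw [hD, hxj, hPe, hd]; module
    have t12 : e * f * (e' * f') = 0 := by
      rw [mul_assoc, ← mul_assoc f, G.o4, zero_mul, mul_zero]
    have t21 : e' * f' * (e * f) = 0 := by
      rw [mul_assoc, ← mul_assoc f', G.o2, zero_mul, mul_zero]
    have t11 : e * f * (e * f) = e * f := by rw [← mul_assoc, efe]
    have t22 : e' * f' * (e' * f') = e' * f' := by rw [← mul_assoc, efe']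
    have hp2A : e' * f' * A = 0 := by rw [← hp1A, ← mul_assoc, t21, zero_mul]
    have hp1B : e * f * B = 0 := by rw [← hp2B, ← mul_assoc, t12, zero_mul]
    have hAp1 : A * (e * f) = 0 := by rw [← hAp2, mul_assoc, t21, mul_zero]
    have hBp2 : B * (e' * f') = 0 := by rw [← hBp1, mul_assoc, t12, mul_zero]
    have hDD : D * D = (d * d + a) • P := by
      rw [hD2]
      simp only [add_mul, mul_add, sub_mul, mul_sub, smul_mul_assoc, mul_smul_comm, smul_sub,
        t11, t12, t21, t22, hp1A, hAp2, hp2B, hBp1, hp2A, hp1B, hAp1, hBp2, hAA, hBB, hAB, hBA,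
        ← hab, hPe]
      module
    refine ⟨d * d + a, ?_⟩
    have hTD : ∀ v : eig s 1, ((T v : eig s 1) : V) = D v := by
      intro v
      rw [h3, hD, LinearMap.sub_apply, LinearMap.smul_apply, hPv v (m1.mp v.2)]
      rfl
    ext v
    rw [Module.End.mul_apply, hTD, hTD, ← Module.End.mul_apply, hDD, LinearMap.smul_apply,
      hPv v (m1.mp v.2)]
    rfl
  have hfin := (K5_eig h G.F.s_mem G.F.s_sq).2
  have hpos : 0 < finrank K V := finrank_pos
  have hpos1 : 0 < finrank K (eig s 1) := by omega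
  have : Nontrivial (eig s 1) := (Module.finrank_pos_iff (R := K)).mp hpos1
  refine P7_cliff (finrank K (eig s 1)) (eig s 1) J rfl hsq ?_
  intro U hU
  by_cases hU0 : U = ⊥
  · exact Or.inl hU0
  right
  obtain ⟨W, hW⟩ : ∃ W : Submodule K V, W = U.map (eig s 1).subtype := ⟨_, rfl⟩
  have hWs : ∀ w ∈ W, s w = w := by
    rw [hW]; rintro _ ⟨u, _, rfl⟩; exact m1.mp u.2
  have hW0 : W ≠ ⊥ := by
    intro h1
    apply hU0
    rw [eq_bot_iff]
    intro y hy
    have h4 : (y : V) ∈ W := by rw [hW]; exact ⟨y, hy, rfl⟩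
    rw [h1, Submodule.mem_bot] at h4
    exact Subtype.ext h4
  have hst1 : ∀ x ∈ Lp L s, ∀ w ∈ W, (x * (f + f')) w ∈ W := by
    intro x hx w hw
    obtain ⟨c₁, h1⟩ := K0_ext hl G.F hx.1
    obtain ⟨c₂, h2⟩ := K0_ext hl G.F' hx.1
    have hstab : ∀ v ∈ eig s 1, (x * (f + f') - ((c₁ + c₂) / 2) • 1) v ∈ eig s 1 := by
      intro v hv
      rw [m1] at hv ⊢
      rw [LinearMap.sub_apply, map_sub, ← Module.End.mul_apply, ← mul_assoc, hx.2.1,
        LinearMap.smul_apply, map_smul, Module.End.one_apply, hv]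
    rw [hW] at hw ⊢
    obtain ⟨u, hu, rfl⟩ := hw
    have h5 := hU ((x * (f + f') - ((c₁ + c₂) / 2) • 1).restrict hstab)
      ⟨x, hx, c₁, c₂, h1, h2, fun v => rfl⟩ u hu
    have h6 : (x * (f + f')) (u : V) = (((x * (f + f') - ((c₁ + c₂) / 2) • 1).restrict hstab u +
        ((c₁ + c₂) / 2) • u : eig s 1) : V) := by
      rw [Submodule.coe_add, Submodule.coe_smul, LinearMap.coe_restrict_apply]
      simp
    change (x * (f + f')) (u : V) ∈ _
    rw [h6]
    exact ⟨_, U.add_mem h5 (U.smul_mem _ hu), rfl⟩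
  rw [eq_top_iff]
  rintro ⟨u, hu⟩ -
  have huW : u ∈ W := by
    refine A3_vec h G.F.s_mem G.F.s_sq hWs hW0 ?_ (m1.mp hu)
    intro Z hZ
    have hsp := A3_span h G.F.s_mem G.F.s_sq hZ
    refine Submodule.span_induction (p := fun Z _ => ∀ w ∈ W, Z w ∈ W) ?_ ?_ ?_ ?_ hsp
    · rintro _ ⟨X, hX, Y, hY, rfl⟩ w hw
      have hXw : X w = 0 := by
        have e1 : X w = -(X w) := by
          conv_lhs => rw [← hWs w hw, ← Module.End.mul_apply, hX.2.2]
          rfl
        have e2 : (2 : K) • X w = 0 := by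
          rw [two_smul]
          nth_rewrite 1 [e1]
          exact neg_add_cancel _
        exact (smul_eq_zero.mp e2).resolve_left two_ne_zero
      have hgL : e + e' ∈ Lp L s := (Lp L s).add_mem G.F.e_mem G.F'.e_mem
      have hgg : (e + e') * (e + e') = 0 := A2_pp hgL hgL
      have hgYg : (e + e') * Y * (e + e') ∈ Lp L s := by
        refine ⟨hl.sandwich hgL.1 hgg hY.1, ?_, ?_⟩
        · rw [← mul_assoc, ← mul_assoc, hgL.2.1]
        · rw [mul_assoc, hgL.2.2, mul_neg]
      have e3 : X * Y = (X * (f + f')) * (((e + e') * Y * (e + e')) * (f + f')) := by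
        calc X * Y = (X * Q) * (Y * P) := by rw [eXQ X hX, eYP Y hY]
          _ = (X * ((f + f') * (e + e'))) * (Y * ((e + e') * (f + f'))) := by rw [hgj, hjg]
          _ = _ := by noncomm_ring
      rw [LinearMap.sub_apply, Module.End.mul_apply Y X, hXw, map_zero, sub_zero, e3,
        Module.End.mul_apply]
      exact hst1 X hX _ (hst1 _ hgYg w hw)
    · intro w _; rw [LinearMap.zero_apply]; exact W.zero_mem
    · intro a b _ _ h1 h2 w hw
      rw [LinearMap.add_apply]
      exact W.add_mem (h1 w hw) (h2 w hw)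
    · intro c a _ h1 w hw
      rw [LinearMap.smul_apply]
      exact W.smul_mem _ (h1 w hw)
  rw [hW] at huW
  obtain ⟨y, hy, hyu⟩ := huW
  have : y = ⟨u, hu⟩ := Subtype.ext hyu
  rwa [← this]

end Pool.Agent.H86N
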