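import Pool.Agent.Lib.H86N.P1
import Pool.Agent.Lib.H86N.P5
import Pool.Agent.Lib.H86N.P6
import Pool.Agent.Lib.H86N.P8
import Pool.Agent.Lib.H86N.K5
import Pool.Agent.Lib.H86N.A4

/-!
# The form-free dichotomy
-/

set_option autoImplicit false
set_option linter.unusedSectionVars false
namespace Pool.Agent.H86N
open Module Pool.Agent.H53Toric Pool.Agent.H49M

variable {K : Type*} [Field K] {V : Type*} [AddCommGroup V] [Module K V]
variable {L : Submodule K (Module.End K V)}

/-- The four cases of a frame in a simple irreducible Lie algebra: rank one; a rank one Jordan pair (central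
binomial coefficient); the orthogonal case in rank two; the spin case. -/
theorem coreN [CharZero K] [IsAlgClosed K] [FiniteDimensional K V] [Nontrivial V]
    (h : CoreN L) {s e f : Module.End K V} (F : Frame L s e f) :
    finrank K (LinearMap.range e) = 1 ∨
    ((∀ u ∈ J1 L s e f, u * f * u = 0) ∧ ∃ k : ℕ, 2 ≤ k ∧ finrank K V = k.centralBinom) ∨
    (∃ e' f' u : Module.End K V, Grid L s e f e' f' u ∧ finrank K (LinearMap.range e) = 2 ∧
      (∀ T : Module.End K V, e * f * T * (e * f) * (u * f') ∈ LL L (e * f) (e' * f')) ∧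
      ∀ X ∈ L, u * f' * e' * X * f = e * f * X * (u * f) - LinearMap.trace K V (e * f * X * (u * f)) • (e * f)) ∨
    (∃ e' f' u : Module.End K V, Grid L s e f e' f' u ∧
      ¬ (∀ T : Module.End K V, e * f * T * (e * f) * (u * f') ∈ LL L (e * f) (e' * f')) ∧
      (1 / 2 : K) • (1 + s) = e * f + e' * f' ∧ finrank K V = 4 * finrank K (LinearMap.range e) ∧
      ∃ m : ℕ, 3 ≤ m ∧ finrank K V = 2 ^ m) := by
  by_cases hr : finrank K (LinearMap.range e) = 1
  · exact Or.inl hr
  right
  by_cases ha : ∀ u ∈ J1 L s e f, u * f * u = 0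
  · left
    rcases K5_final h F ha with h1 | ⟨k, hk, h1, h2⟩
    · exact absurd h1 hr
    · exact ⟨ha, k, hk, h1⟩
  right
  push Not at ha
  obtain ⟨u, hu, hu0⟩ := ha
  obtain ⟨e', f', G⟩ := P1_grid h F hu hu0
  by_cases hall : ∀ T : Module.End K V, e * f * T * (e * f) * (u * f') ∈ LL L (e * f) (e' * f')
  · left
    rcases P6_two h G hall with h1 | ⟨h1, h2⟩
    · exact absurd h1 hr
    · exact ⟨e', f', u, G, h1, hall, h2⟩
  · right
    have h1 := (P5_dich h G).resolve_left hall
    have h4 := P8_four h G h1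
    obtain ⟨t, ht⟩ := P8_pow h G h1
    have h5 := (K5_eig h G.F.s_mem G.F.s_sq).2
    refine ⟨e', f', u, G, hall, h1, h4, t + 1, ?_, ?_⟩
    · have hpos : finrank K (LinearMap.range e) ≠ 0 := by
        intro h0
        exact F.e_ne (LinearMap.range_eq_bot.1 (Submodule.finrank_eq_zero.1 h0))
      by_contra hcon
      have : t ≤ 1 := by omega
      interval_cases t <;> omega
    · rw [h5, ht, pow_succ]; ring

end Pool.Agent.H86N
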