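import Pool.Agent.Lib.H86N.P6
import Pool.Agent.Lib.H86N.P5
import Pool.Agent.Lib.H86N.K5
import Pool.Agent.Lib.H86N.A3v

/-!
# E2: the block between the two frames is everything: the orthogonal algebra
-/

set_option autoImplicit false
set_option linter.unusedSectionVars false
namespace Pool.Agent.H86N
open Module Pool.Agent.H53Toric Pool.Agent.H49M

variable {K : Type*} [Field K] {V : Type*} [AddCommGroup V] [Module K V]
variable {L : Submodule K (Module.End K V)}

/-- The operator of `v` and `w` in the orthogonal algebra. -/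
def dd (B : V →ₗ[K] V →ₗ[K] K) (v w : V) : Module.End K V :=
  (B w).smulRight v - (B v).smulRight w

theorem dd_apply (B : V →ₗ[K] V →ₗ[K] K) (v w x : V) : dd B v w x = B w x • v - B v x • w := rfl

theorem dd_swap (B : V →ₗ[K] V →ₗ[K] K) (v w : V) : dd B w v = -dd B v w := by
  ext x
  rw [LinearMap.neg_apply, dd_apply, dd_apply, neg_sub]

theorem dd_add_left (B : V →ₗ[K] V →ₗ[K] K) (v v' w : V) : dd B (v + v') w = dd B v w + dd B v' w := by
  ext x
  rw [LinearMap.add_apply, dd_apply, dd_apply, dd_apply, map_add, LinearMap.add_apply, smul_add, add_smul]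
  abel

theorem dd_add_right (B : V →ₗ[K] V →ₗ[K] K) (v w w' : V) : dd B v (w + w') = dd B v w + dd B v w' := by
  ext x
  rw [LinearMap.add_apply, dd_apply, dd_apply, dd_apply, map_add, LinearMap.add_apply, smul_add, add_smul]
  abel

theorem dd_smul_left (B : V →ₗ[K] V →ₗ[K] K) (c : K) (v w : V) : dd B (c • v) w = c • dd B v w := by
  ext x
  rw [LinearMap.smul_apply, dd_apply, dd_apply, map_smul, LinearMap.smul_apply, smul_eq_mul]
  module

theorem dd_smul_right (B : V →ₗ[K] V →ₗ[K] K) (c : K) (v w : V) : dd B v (c • w) = c • dd B v w := by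
  ext x
  rw [LinearMap.smul_apply, dd_apply, dd_apply, map_smul, LinearMap.smul_apply, smul_eq_mul]
  module

theorem dd_zero_left (B : V →ₗ[K] V →ₗ[K] K) (w : V) : dd B 0 w = 0 := by
  ext x
  simp [dd_apply]

theorem dd_zero_right (B : V →ₗ[K] V →ₗ[K] K) (w : V) : dd B w 0 = 0 := by
  ext x
  simp [dd_apply]

theorem dd_br {B : V →ₗ[K] V →ₗ[K] K} {X : Module.End K V}
    (hX : ∀ v w, B (X v) w + B v (X w) = 0) (v w : V) :
    X * dd B v w - dd B v w * X = dd B (X v) w + dd B v (X w) := by
  ext x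
  rw [LinearMap.sub_apply, LinearMap.add_apply, Module.End.mul_apply, Module.End.mul_apply, dd_apply,
    dd_apply, dd_apply, dd_apply, map_sub, map_smul, map_smul]
  have h1 : B (X v) x = -B v (X x) := eq_neg_of_add_eq_zero_left (hX v x)
  have h2 : B (X w) x = -B w (X x) := eq_neg_of_add_eq_zero_left (hX w x)
  rw [h1, h2]
  module

theorem dd_skew {B : V →ₗ[K] V →ₗ[K] K} (hsym : ∀ v w, B v w = B w v) (v w x y : V) :
    B (dd B v w x) y + B x (dd B v w y) = 0 := by
  rw [dd_apply, dd_apply, map_sub, map_sub, map_smul, map_smul, map_smul, map_smul,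
    LinearMap.sub_apply, LinearMap.smul_apply, LinearMap.smul_apply, hsym x v, hsym x w]
  simp only [smul_eq_mul]
  ring

/-- If the block between the two frames is everything and there is a nonzero symmetric invariant form,
`L` is the orthogonal algebra. -/
theorem full_so' [CharZero K] [IsAlgClosed K] [FiniteDimensional K V] [Nontrivial V]
    (h : CoreN L) {s e f e' f' u : Module.End K V} (G : Grid L s e f e' f' u)
    (hall : ∀ T : Module.End K V, e * f * T * (e * f) * (u * f') ∈ LL L (e * f) (e' * f'))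
    {B : V →ₗ[K] V →ₗ[K] K} (hB : B ≠ 0) (hsym : ∀ v w, B v w = B w v)
    (hinv : ∀ X ∈ L, ∀ v w, B (X v) w + B v (X w) = 0)
    {X : Module.End K V} (hX : ∀ v w, B (X v) w + B v (X w) = 0) : X ∈ L := by
  have hs := G.F.s_mem
  have hs2 := G.F.s_sq
  have eL := G.F.e_mem.1
  have fL := G.F.f_mem.1
  have e'L := G.F'.e_mem.1
  have f'L := G.F'.f_mem.1
  have BL := P2_blocks h G
  obtain ⟨p, hp⟩ : ∃ p, p = H49M.pp s e f e' f' := ⟨_, rfl⟩
  obtain ⟨q, hq⟩ : ∃ q, q = H49M.qq s e f e' f' := ⟨_, rfl⟩
  rw [← hp, ← hq] at BL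
  have p0 : p 0 = (1 / 2 : K) • (1 + s) - e * f - e' * f' := by rw [hp]; rfl
  have p1 : p 1 = e * f := by rw [hp]; rfl
  have p2 : p 2 = e' * f' := by rw [hp]; rfl
  have q0 : q 0 = (1 / 2 : K) • (1 - s) - f * e - f' * e' := by rw [hq]; rfl
  have q1 : q 1 = f * e := by rw [hq]; rfl
  have q2 : q 2 = f' * e' := by rw [hq]; rfl
  -- the form is nondegenerate
  have nd : ∀ v, (∀ w, B v w = 0) → v = 0 := by
    let R : Submodule K V := LinearMap.ker B
    have hR : ∀ X ∈ L, ∀ w ∈ R, X w ∈ R := by
      intro X hX w hw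
      rw [LinearMap.mem_ker] at hw ⊢
      ext y
      have h1 := hinv X hX w y
      rw [hw, LinearMap.zero_apply, add_zero] at h1
      exact h1
    rcases h.irr R hR with h1 | h1
    · intro v hv
      have : v ∈ R := LinearMap.mem_ker.2 (LinearMap.ext hv)
      rw [h1, Submodule.mem_bot] at this
      exact this
    · exact absurd (LinearMap.ker_eq_top.1 h1) hB
  -- the idempotents are adjoint to each other
  have a1 : ∀ v w, B (e (f v)) w = B v (f (e w)) := by
    intro v w
    have h1 := hinv e eL (f v) w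
    have h2 := hinv f fL v (e w)
    linear_combination h1 - h2
  have a2 : ∀ v w, B (e' (f' v)) w = B v (f' (e' w)) := by
    intro v w
    have h1 := hinv e' e'L (f' v) w
    have h2 := hinv f' f'L v (e' w)
    linear_combination h1 - h2
  have adj : ∀ i v w, B (p i v) w = B v (q i w) := by
    intro i v w
    fin_cases i
    · show B (p 0 v) w = B v (q 0 w)
      rw [p0, q0]
      simp only [LinearMap.sub_apply, LinearMap.smul_apply, LinearMap.add_apply, Module.End.one_apply,
        Module.End.mul_apply, map_sub, map_smul, map_add, a1, a2]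
      have h1 := hinv s hs v w
      simp only [smul_eq_mul]
      linear_combination (1 / 2 : K) * h1
    · show B (p 1 v) w = B v (q 1 w)
      rw [p1, q1]
      exact a1 v w
    · show B (p 2 v) w = B v (q 2 w)
      rw [p2, q2]
      exact a2 v w
  have adj' : ∀ i v w, B (q i v) w = B v (p i w) := by
    intro i v w
    rw [hsym, ← adj, hsym]
  have pf : ∀ i v, p i (p i v) = p i v := by
    intro i v
    have := BL.pp i i
    rw [if_pos rfl] at this
    exact LinearMap.congr_fun this v
  have qf : ∀ i v, q i (q i v) = q i v := by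
    intro i v
    have := BL.qq i i
    rw [if_pos rfl] at this
    exact LinearMap.congr_fun this v
  have pz : ∀ i j v, i ≠ j → p i (p j v) = 0 := by
    intro i j v hij
    have := BL.pp i j
    rw [if_neg hij] at this
    exact LinearMap.congr_fun this v
  have qz : ∀ i j v, i ≠ j → q i (q j v) = 0 := by
    intro i j v hij
    have := BL.qq i j
    rw [if_neg hij] at this
    exact LinearMap.congr_fun this v
  have pqz : ∀ i j v, p i (q j v) = 0 := fun i j v => LinearMap.congr_fun (BL.pq i j) v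
  have qpz : ∀ i j v, q i (p j v) = 0 := fun i j v => LinearMap.congr_fun (BL.qp i j) v
  have hext : ∀ S T : Module.End K V, (∀ x y, B (S x) y = B (T x) y) → S = T := by
    intro S T hST
    ext x
    rw [← sub_eq_zero]
    apply nd
    intro y
    rw [map_sub, LinearMap.sub_apply, hST, sub_self]
  -- the step F2
  have F2 : ∀ v w, p 1 v = v → q 2 w = w → dd B v w ∈ L := by
    intro v w hv hw
    obtain ⟨X, hX, hX'⟩ := hall (dd B v w * (u * f))
    have e1 : e * f * (dd B v w * (u * f)) * (e * f) * (u * f') = p 1 * dd B v w * p 2 := by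
      have h1 : u * f * (e * f) = u * f := by rw [mul_assoc, ← mul_assoc f, G.F.fef]
      calc e * f * (dd B v w * (u * f)) * (e * f) * (u * f') =
          e * f * dd B v w * (u * f * (e * f)) * (u * f') := by noncomm_ring
        _ = e * f * dd B v w * (u * f * (u * f')) := by rw [h1]; noncomm_ring
        _ = _ := by rw [(P3_u12 G).2, p1, p2]
    rw [e1, ← p1, ← p2] at hX'
    have hm := BL.m0 X hX 1 2 (by decide)
    have e2 : dd B v w = p 1 * X * p 2 + q 2 * X * q 1 := by
      apply hext
      intro x y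
      have h1 : p 1 (X (p 2 x)) = B w x • v := by
        have h2 := LinearMap.congr_fun hX' x
        simp only [Module.End.mul_apply] at h2
        rw [← h2, dd_apply, map_sub, map_smul, map_smul, hv]
        have h3 : B w (p 2 x) = B w x := by rw [← adj', hw]
        have h4 : B v (p 2 x) = 0 := by rw [← adj', ← hv, qpz, map_zero, LinearMap.zero_apply]
        rw [h3, h4, zero_smul, sub_zero]
      have h1' : p 1 (X (p 2 y)) = B w y • v := by
        have h2 := LinearMap.congr_fun hX' y
        simp only [Module.End.mul_apply] at h2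
        rw [← h2, dd_apply, map_sub, map_smul, map_smul, hv]
        have h3 : B w (p 2 y) = B w y := by rw [← adj', hw]
        have h4 : B v (p 2 y) = 0 := by rw [← adj', ← hv, qpz, map_zero, LinearMap.zero_apply]
        rw [h3, h4, zero_smul, sub_zero]
      rw [LinearMap.add_apply, map_add, LinearMap.add_apply]
      simp only [Module.End.mul_apply]
      rw [h1, adj' 2]
      have h5 : B (X (q 1 x)) (p 2 y) = -B x (B w y • v) := by
        rw [eq_neg_of_add_eq_zero_left (hinv X hX (q 1 x) (p 2 y)), adj' 1, h1']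
      rw [h5, dd_apply]
      simp only [map_sub, map_smul, LinearMap.sub_apply, LinearMap.smul_apply, smul_eq_mul]
      rw [hsym x v]
      ring
    rw [e2]
    exact hm
  -- brackets
  have br : ∀ Y ∈ L, ∀ v w, dd B v w ∈ L → dd B (Y v) w + dd B v (Y w) ∈ L := by
    intro Y hY v w hd
    rw [← dd_br (hinv Y hY)]
    exact h.lie Y hY _ hd
  have ep : ∀ v, p 1 v = v → e' v = 0 := by
    intro v hv
    rw [← hv, p1]
    exact LinearMap.congr_fun (by
      rw [← mul_assoc, A2_pp G.F'.e_mem G.F.e_mem, zero_mul] : e' * (e * f) = 0) v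
  have F3 : ∀ v w, p 1 v = v → p 2 w = w → dd B v w ∈ L := by
    intro v w hv hw
    have hq : q 2 (f' w) = f' w := by
      rw [q2]
      exact LinearMap.congr_fun G.F'.fef w
    have h1 := br e' e'L v (f' w) (F2 v (f' w) hv hq)
    rw [ep v hv, dd_zero_left, zero_add] at h1
    rw [p2] at hw
    have hw' : e' (f' w) = w := hw
    rwa [hw'] at h1
  -- a pair with nonzero product
  obtain ⟨a, w₀, ha, hw₀, haw⟩ : ∃ a w, p 2 a = a ∧ q 2 w = w ∧ B a w ≠ 0 := by
    have h1 : e' ≠ 0 := G.F'.e_ne
    obtain ⟨x, hx⟩ : ∃ x, e' x ≠ 0 := by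
      by_contra hcon
      push Not at hcon
      exact h1 (LinearMap.ext hcon)
    have hx1 : p 2 (e' x) = e' x := by
      rw [p2]
      exact LinearMap.congr_fun G.F'.efe x
    obtain ⟨w, hw⟩ : ∃ w, B (e' x) w ≠ 0 := by
      by_contra hcon
      push Not at hcon
      exact hx (nd _ hcon)
    refine ⟨e' x, q 2 w, hx1, qf 2 w, ?_⟩
    rw [← adj, hx1]
    exact hw
  -- F0
  have F0 : ∀ v v', p 1 v = v → p 1 v' = v' → dd B v v' ∈ L := by
    intro v v' hv hv'
    have h1 := br _ (F2 v w₀ hv hw₀) v' a (F3 v' a hv' ha)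
    have z1 : B w₀ v' = 0 := by rw [← hw₀, adj', ← hv', pz 2 1 _ (by decide), map_zero]
    have z2 : B v v' = 0 := by rw [← hv, adj, ← hv', qpz, map_zero]
    have z3 : B v a = 0 := by rw [← hv, adj, ← ha, qpz, map_zero]
    rw [dd_apply, dd_apply, z1, z2, z3] at h1
    simp only [zero_smul, sub_zero] at h1
    rw [dd_zero_left, zero_add, dd_smul_right, hsym w₀ a] at h1
    have h2 := L.smul_mem (B a w₀)⁻¹ h1
    rw [smul_smul, inv_mul_cancel₀ haw, one_smul, dd_swap] at h2
    have h3 := L.neg_mem h2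
    rwa [neg_neg] at h3
  -- the submodule N
  let N : Submodule K V :=
    { carrier := {w | ∀ v, p 1 v = v → dd B v w ∈ L}
      add_mem' := by
        intro a b ha hb v hv
        rw [dd_add_right]
        exact L.add_mem (ha v hv) (hb v hv)
      zero_mem' := by
        intro v _
        rw [dd_zero_right]
        exact L.zero_mem
      smul_mem' := by
        intro c a ha v hv
        rw [dd_smul_right]
        exact L.smul_mem c (ha v hv) }
  have N1 : ∀ w, p 1 w ∈ N := fun w v hv => F0 v _ hv (pf 1 w)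
  have N2 : ∀ w, p 2 w ∈ N := fun w v hv => F3 v _ hv (pf 2 w)
  have N2' : ∀ w, q 2 w ∈ N := fun w v hv => F2 v _ hv (qf 2 w)
  have N02 : ∀ Y ∈ L, ∀ w, p 0 (Y (p 2 w)) ∈ N := by
    intro Y hY w v hv
    have hm := BL.m0 Y hY 0 2 (by decide)
    have h1 := br _ hm v (p 2 w) (N2 w v hv)
    have z1 : (p 0 * Y * p 2 + q 2 * Y * q 0) v = 0 := by
      rw [LinearMap.add_apply]
      simp only [Module.End.mul_apply]
      rw [← hv, pz 2 1 _ (by decide), qpz]
      simp only [map_zero, add_zero]
    have z2 : (p 0 * Y * p 2 + q 2 * Y * q 0) (p 2 w) = p 0 (Y (p 2 w)) := by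
      rw [LinearMap.add_apply]
      simp only [Module.End.mul_apply]
      rw [pf, qpz]
      simp only [map_zero, add_zero]
    rwa [z1, z2, dd_zero_left, zero_add] at h1
  have N02' : ∀ Y ∈ L, ∀ w, q 0 (Y (q 2 w)) ∈ N := by
    intro Y hY w v hv
    have hm := BL.m0 Y hY 2 0 (by decide)
    have h1 := br _ hm v (q 2 w) (N2' w v hv)
    have z1 : (p 2 * Y * p 0 + q 0 * Y * q 2) v = 0 := by
      rw [LinearMap.add_apply]
      simp only [Module.End.mul_apply]
      rw [← hv, pz 0 1 _ (by decide), qpz]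
      simp only [map_zero, add_zero]
    have z2 : (p 2 * Y * p 0 + q 0 * Y * q 2) (q 2 w) = q 0 (Y (q 2 w)) := by
      rw [LinearMap.add_apply]
      simp only [Module.End.mul_apply]
      rw [qf, pqz]
      simp only [map_zero, zero_add]
    rwa [z1, z2, dd_zero_left, zero_add] at h1
  have ND : ∀ Y ∈ L, ∀ w, w ∈ N → (p 0 * Y * p 0 + p 1 * Y * p 1 + p 2 * Y * p 2 +
      (q 0 * Y * q 0 + q 1 * Y * q 1 + q 2 * Y * q 2)) w ∈ N := by
    intro Y hY w hw v hv
    have hm := BL.md Y hY
    have h1 := br _ hm v w (hw v hv)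
    have z1 : (p 0 * Y * p 0 + p 1 * Y * p 1 + p 2 * Y * p 2 +
      (q 0 * Y * q 0 + q 1 * Y * q 1 + q 2 * Y * q 2)) v = p 1 (Y v) := by
      simp only [LinearMap.add_apply, Module.End.mul_apply]
      have y1 : p 0 v = 0 := by rw [← hv]; exact pz 0 1 _ (by decide)
      have y2 : p 2 v = 0 := by rw [← hv]; exact pz 2 1 _ (by decide)
      have y3 : ∀ i, q i v = 0 := fun i => by rw [← hv]; exact qpz i 1 _
      rw [y1, y2, y3, y3, y3, hv]
      simp only [map_zero, add_zero, zero_add]
    rw [z1] at h1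
    have h2 := hw _ (pf 1 (Y v))
    have h3 := L.sub_mem h1 h2
    rwa [add_sub_cancel_left] at h3
  -- products of blocks
  have u12 : p 1 = (u * f') * (u * f) := by rw [(P3_u12 G).1, p1]
  obtain ⟨⟨Z₁, hZ₁, hZ₁'⟩, -, -, -⟩ := P3_u1 h G
  obtain ⟨⟨Z₂, hZ₂, hZ₂'⟩, hu1, hu2⟩ := P3_u2 h G
  have N01 : ∀ Y ∈ L, ∀ w, p 0 (Y (p 1 w)) ∈ N := by
    intro Y hY w
    have h1 : p 0 * Y * p 1 ∈ LL L (p 0) (p 1) := ⟨Y, hY, rfl⟩
    have h2 : u * f' ∈ LL L (p 1) (p 2) := by rw [p1, p2]; exact (P3_u1 h G).1
    obtain ⟨Y', hY', h3⟩ := P3_mul h.lie BL (by decide) (by decide) (by decide) h1 h2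
    have h4 : p 0 * Y * p 1 = p 0 * Y' * p 2 * (u * f) := by
      rw [← h3]
      calc p 0 * Y * p 1 = p 0 * Y * p 1 * p 1 := by
            rw [mul_assoc (p 0 * Y), BL.pp, if_pos rfl]
        _ = p 0 * Y * p 1 * ((u * f') * (u * f)) := by rw [← u12]
        _ = _ := by noncomm_ring
    have h5 := LinearMap.congr_fun h4 w
    simp only [Module.End.mul_apply] at h5
    rw [h5]
    exact N02 Y' hY' _
  have N01' : ∀ Y ∈ L, ∀ w, q 0 (Y (q 1 w)) ∈ N := by
    intro Y hY w
    -- `q 1 = (f u) (f' u)`
    have fu1 : q 1 = (f * u) * (f' * u) := by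
      rw [q1]
      have : f * u * (f' * u) = f * (u * f' * u) := by noncomm_ring
      rw [this, G.ufu']
    -- the block of `u f - f u`
    have hW : u * f - f * u ∈ L := h.lie _ G.u_mem.1 _ fL
    have hm1 := BL.m0 Y hY 1 0 (by decide)
    have hm2 := BL.m0 _ hW 2 1 (by decide)
    have hm3 := h.lie _ hm1 _ hm2
    have e1 : q 1 * (u * f - f * u) * q 2 = -(f * u * q 2) := by
      have z1 : q 1 * (u * f) = 0 := by
        have : q 1 * u = 0 := by
          rw [q1, mul_assoc, A2_pp G.F.e_mem G.u_mem, mul_zero]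
        rw [← mul_assoc, this, zero_mul]
      have z2 : q 1 * (f * u) = f * u := by
        rw [q1, ← mul_assoc, G.F.fef]
      rw [mul_sub, z1, z2, zero_sub, neg_mul]
    have e2 : q 0 * ((p 1 * Y * p 0 + q 0 * Y * q 1) * (p 2 * (u * f - f * u) * p 1 +
        q 1 * (u * f - f * u) * q 2) - (p 2 * (u * f - f * u) * p 1 + q 1 * (u * f - f * u) * q 2) *
        (p 1 * Y * p 0 + q 0 * Y * q 1)) * q 2 = -(q 0 * Y * q 1 * (f * u) * q 2) := by
      have r1 : q 0 * p 1 = 0 := BL.qp 0 1
      have r2 : q 0 * q 0 = q 0 := by rw [BL.qq, if_pos rfl]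
      have r3 : q 1 * p 2 = 0 := BL.qp 1 2
      have r4 : q 1 * q 1 = q 1 := by rw [BL.qq, if_pos rfl]
      have r5 : q 2 * q 2 = q 2 := by rw [BL.qq, if_pos rfl]
      have r6 : q 0 * p 2 = 0 := BL.qp 0 2
      have r7 : q 0 * q 1 = 0 := by rw [BL.qq, if_neg (by decide)]
      obtain ⟨W, hWd⟩ : ∃ W, W = u * f - f * u := ⟨_, rfl⟩
      rw [← hWd] at e1 ⊢
      calc q 0 * ((p 1 * Y * p 0 + q 0 * Y * q 1) * (p 2 * W * p 1 + q 1 * W * q 2) -
          (p 2 * W * p 1 + q 1 * W * q 2) * (p 1 * Y * p 0 + q 0 * Y * q 1)) * q 2 =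
          ((q 0 * p 1) * Y * p 0 + (q 0 * q 0) * Y * q 1) * (p 2 * W * p 1 + q 1 * W * q 2) * q 2 -
          ((q 0 * p 2) * W * p 1 + (q 0 * q 1) * W * q 2) * (p 1 * Y * p 0 + q 0 * Y * q 1) * q 2 := by
            noncomm_ring
        _ = q 0 * Y * (q 1 * p 2) * W * p 1 * q 2 + q 0 * Y * (q 1 * q 1) * W * (q 2 * q 2) := by
            rw [r1, r2, r6, r7]
            noncomm_ring
        _ = q 0 * Y * (q 1 * W * q 2) := by
            rw [r3, r4, r5]
            noncomm_ring
        _ = _ := by rw [e1]; 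
                    have : q 1 * (f * u) = f * u := by rw [q1, ← mul_assoc, G.F.fef]
                    rw [mul_neg, mul_assoc (q 0 * Y) (q 1), this]
                    noncomm_ring
    have q2u : q 2 * (f' * u) = f' * u := by rw [q2, ← mul_assoc, G.F'.fef]
    have h4 : q 0 * Y * q 1 = q 0 * (-((p 1 * Y * p 0 + q 0 * Y * q 1) * (p 2 * (u * f - f * u) * p 1 +
        q 1 * (u * f - f * u) * q 2) - (p 2 * (u * f - f * u) * p 1 + q 1 * (u * f - f * u) * q 2) *
        (p 1 * Y * p 0 + q 0 * Y * q 1))) * q 2 * (f' * u) := by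
      rw [mul_neg, neg_mul, neg_mul, e2, neg_mul, neg_neg, mul_assoc (q 0 * Y * q 1 * (f * u)), q2u,
        mul_assoc (q 0 * Y * q 1), ← fu1, mul_assoc (q 0 * Y), BL.qq, if_pos rfl]
    have h5 := LinearMap.congr_fun h4 w
    rw [Module.End.mul_apply, Module.End.mul_apply] at h5
    rw [h5, Module.End.mul_apply, Module.End.mul_apply, Module.End.mul_apply]
    exact N02' _ (L.neg_mem hm3) _
  -- the parts `p 0` and `q 0`
  have sump : ∀ w, s w = w → w = p 0 w + p 1 w + p 2 w := by
    intro w hw
    rw [p0, p1, p2]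
    simp only [LinearMap.sub_apply, LinearMap.smul_apply, LinearMap.add_apply, Module.End.one_apply, hw]
    module
  have sumq : ∀ w, s w = -w → w = q 0 w + q 1 w + q 2 w := by
    intro w hw
    rw [q0, q1, q2]
    simp only [LinearMap.sub_apply, LinearMap.smul_apply, Module.End.one_apply, hw]
    module
  have sp : ∀ i w, s (p i w) = p i w := by
    intro i w
    have hsi : s * p i = p i := by
      fin_cases i
      · show s * p 0 = p 0
        rw [p0, mul_sub, mul_sub, mul_smul_comm, mul_add, hs2, mul_one, ← mul_assoc, ← mul_assoc,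
          G.F.e_mem.2.1, G.F'.e_mem.2.1, add_comm s 1]
      · show s * p 1 = p 1
        rw [p1, ← mul_assoc, G.F.e_mem.2.1]
      · show s * p 2 = p 2
        rw [p2, ← mul_assoc, G.F'.e_mem.2.1]
    exact LinearMap.congr_fun hsi w
  have sq : ∀ i w, s (q i w) = -q i w := by
    intro i w
    have hsi : s * q i = -q i := by
      fin_cases i
      · show s * q 0 = -q 0
        rw [q0, mul_sub, mul_sub, mul_smul_comm, mul_sub, hs2, mul_one, ← mul_assoc, ← mul_assoc,
          G.F.f_mem.2.1, G.F'.f_mem.2.1]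
        rw [neg_mul, neg_mul]
        module
      · show s * q 1 = -q 1
        rw [q1, ← mul_assoc, G.F.f_mem.2.1, neg_mul]
      · show s * q 2 = -q 2
        rw [q2, ← mul_assoc, G.F'.f_mem.2.1, neg_mul]
    exact LinearMap.congr_fun hsi w
  have NP : ∀ w, p 0 w ∈ N := by
    let W : Submodule K V :=
      { carrier := {w | s w = w ∧ p 0 w ∈ N}
        add_mem' := by
          rintro a b ⟨h1, h2⟩ ⟨h3, h4⟩
          exact ⟨by rw [map_add, h1, h3], by rw [map_add]; exact N.add_mem h2 h4⟩
        zero_mem' := ⟨map_zero s, by rw [map_zero]; exact N.zero_mem⟩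
        smul_mem' := by
          rintro c a ⟨h1, h2⟩
          exact ⟨by rw [map_smul, h1], by rw [map_smul]; exact N.smul_mem c h2⟩ }
    have hW0 : W ≠ ⊥ := by
      intro h0
      have h1 : a ∈ W := by
        refine ⟨by rw [← ha]; exact sp 2 a, ?_⟩
        rw [← ha, pz 0 2 _ (by decide)]
        exact N.zero_mem
      rw [h0, Submodule.mem_bot] at h1
      rw [h1, map_zero, LinearMap.zero_apply] at haw
      exact haw rfl
    have hWst : ∀ Z ∈ L0 L s, ∀ w ∈ W, Z w ∈ W := by
      rintro Z hZ w ⟨h1, h2⟩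
      refine ⟨?_, ?_⟩
      · have := LinearMap.congr_fun hZ.2 w
        rw [Module.End.mul_apply, Module.End.mul_apply, h1] at this
        exact this
      · have h3 := ND Z hZ.1 _ h2
        have z1 : (p 0 * Z * p 0 + p 1 * Z * p 1 + p 2 * Z * p 2 +
            (q 0 * Z * q 0 + q 1 * Z * q 1 + q 2 * Z * q 2)) (p 0 w) = p 0 (Z (p 0 w)) := by
          simp only [LinearMap.add_apply, Module.End.mul_apply]
          rw [pf, pz 1 0 _ (by decide), pz 2 0 _ (by decide), qpz, qpz, qpz]
          simp
        rw [z1] at h3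
        have h4 : p 0 (Z w) = p 0 (Z (p 0 w)) + p 0 (Z (p 1 w)) + p 0 (Z (p 2 w)) := by
          nth_rw 1 [sump w h1]
          rw [map_add, map_add, map_add, map_add]
        rw [h4]
        exact N.add_mem (N.add_mem h3 (N01 Z hZ.1 w)) (N02 Z hZ.1 w)
    intro w
    have h1 := A3_vec h hs hs2 (W := W) (fun w hw => hw.1) hW0 hWst (sp 0 w)
    have h2 := h1.2
    rwa [pf] at h2
  have NQ : ∀ w, q 0 w ∈ N := by
    let W : Submodule K V :=
      { carrier := {w | s w = -w ∧ q 0 w ∈ N}
        add_mem' := by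
          rintro a b ⟨h1, h2⟩ ⟨h3, h4⟩
          exact ⟨by rw [map_add, h1, h3]; abel, by rw [map_add]; exact N.add_mem h2 h4⟩
        zero_mem' := ⟨by simp, by rw [map_zero]; exact N.zero_mem⟩
        smul_mem' := by
          rintro c a ⟨h1, h2⟩
          exact ⟨by rw [map_smul, h1, smul_neg], by rw [map_smul]; exact N.smul_mem c h2⟩ }
    have hW0 : W ≠ ⊥ := by
      intro h0
      have h1 : w₀ ∈ W := by
        refine ⟨by rw [← hw₀]; exact sq 2 w₀, ?_⟩
        rw [← hw₀, qz 0 2 _ (by decide)]
        exact N.zero_mem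
      rw [h0, Submodule.mem_bot] at h1
      rw [h1, map_zero] at haw
      exact haw rfl
    have hWst : ∀ Z ∈ L0 L s, ∀ w ∈ W, Z w ∈ W := by
      rintro Z hZ w ⟨h1, h2⟩
      refine ⟨?_, ?_⟩
      · have := LinearMap.congr_fun hZ.2 w
        rw [Module.End.mul_apply, Module.End.mul_apply, h1, map_neg] at this
        exact this
      · have h3 := ND Z hZ.1 _ h2
        have z1 : (p 0 * Z * p 0 + p 1 * Z * p 1 + p 2 * Z * p 2 +
            (q 0 * Z * q 0 + q 1 * Z * q 1 + q 2 * Z * q 2)) (q 0 w) = q 0 (Z (q 0 w)) := by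
          simp only [LinearMap.add_apply, Module.End.mul_apply]
          rw [qf, qz 1 0 _ (by decide), qz 2 0 _ (by decide), pqz, pqz, pqz]
          simp
        rw [z1] at h3
        have h4 : q 0 (Z w) = q 0 (Z (q 0 w)) + q 0 (Z (q 1 w)) + q 0 (Z (q 2 w)) := by
          nth_rw 1 [sumq w h1]
          rw [map_add, map_add, map_add, map_add]
        rw [h4]
        exact N.add_mem (N.add_mem h3 (N01' Z hZ.1 w)) (N02' Z hZ.1 w)
    intro w
    have h1 := A3_vec h (L.neg_mem hs) (by rw [neg_mul_neg, hs2]) (W := W)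
      (fun w hw => by rw [LinearMap.neg_apply, hw.1, neg_neg]) hW0
      (fun Z hZ => by rw [K0_L0] at hZ; exact hWst Z hZ) (v := q 0 w)
      (by rw [LinearMap.neg_apply, sq, neg_neg])
    have h2 := h1.2
    rwa [qf] at h2
  -- F6
  have fq : ∀ v, q 1 (f v) = f v := by
    intro v
    rw [q1]
    exact LinearMap.congr_fun G.F.fef v
  have F6a : ∀ v, p 1 v = v → dd B v (f v) ∈ L := by
    intro v hv
    -- `dd b a ∈ L`, `b = f v`
    have z0 : f a = 0 := by
      rw [← ha, p2]
      exact LinearMap.congr_fun (by rw [← mul_assoc, G.o4, zero_mul] : f * (e' * f') = 0) a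
    have h1 := br f fL v a (F3 v a hv ha)
    rw [z0, dd_zero_right, add_zero] at h1
    have h2 : dd B a (f v) ∈ L := by
      rw [dd_swap]
      exact L.neg_mem h1
    have h3 := br _ h2 v w₀ (F2 v w₀ hv hw₀)
    have z1 : B (f v) v = 0 := by
      have h4 := hinv f fL v v
      rw [hsym v (f v)] at h4
      have h5 : (2 : K) * B (f v) v = 0 := by linear_combination h4
      exact (mul_eq_zero.1 h5).resolve_left (by norm_num)
    have z2 : B a v = 0 := by rw [← ha, adj, ← hv, qpz, map_zero]
    have z3 : B (f v) w₀ = 0 := by rw [← fq, adj', ← hw₀, pqz, map_zero]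
    rw [dd_apply, dd_apply, z1, z2, z3] at h3
    simp only [zero_smul, sub_zero, zero_sub] at h3
    rw [dd_zero_left, zero_add] at h3
    have e1 : dd B v (-(B a w₀ • f v)) = (-(B a w₀)) • dd B v (f v) := by
      rw [← neg_smul, dd_smul_right]
    rw [e1] at h3
    have h4 := L.smul_mem (-(B a w₀))⁻¹ h3
    rwa [smul_smul, inv_mul_cancel₀ (neg_ne_zero.2 haw), one_smul] at h4
  have N3 : ∀ w, q 1 w ∈ N := by
    intro w v hv
    obtain ⟨v', hv'⟩ : ∃ v', v' = e w := ⟨_, rfl⟩
    have hv1 : p 1 v' = v' := by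
      rw [hv', p1]
      exact LinearMap.congr_fun G.F.efe w
    have hw : q 1 w = f v' := by rw [q1, hv']; rfl
    rw [hw]
    have h1 := F6a (v + v') (by rw [map_add, hv, hv1])
    have h2 := F6a v hv
    have h3 := F6a v' hv1
    have h4 := br f fL v v' (F0 v v' hv hv1)
    rw [map_add, dd_add_left, dd_add_right, dd_add_right] at h1
    rw [dd_swap B v' (f v)] at h4
    have h5 : (2 : K) • dd B v (f v') = (dd B v (f v) + dd B v (f v') + (dd B v' (f v) + dd B v' (f v'))) -
        dd B v (f v) - dd B v' (f v') + (-dd B v' (f v) + dd B v (f v')) := by module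
    have h6 : (2 : K) • dd B v (f v') ∈ L := by
      rw [h5]
      exact L.add_mem (L.sub_mem (L.sub_mem h1 h2) h3) h4
    have h7 := L.smul_mem (2 : K)⁻¹ h6
    rwa [smul_smul, inv_mul_cancel₀ (by norm_num), one_smul] at h7
  have Nall : ∀ w, w ∈ N := by
    intro w
    have h1 : w = p 0 w + p 1 w + p 2 w + (q 0 w + q 1 w + q 2 w) := by
      have := LinearMap.congr_fun BL.sum w
      simpa using this.symm
    rw [h1]
    exact N.add_mem (N.add_mem (N.add_mem (NP w) (N1 w)) (N2 w))
      (N.add_mem (N.add_mem (NQ w) (N3 w)) (N2' w))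
  -- all operators `dd`
  let Q : Submodule K V :=
    { carrier := {v | ∀ w, dd B v w ∈ L}
      add_mem' := by
        intro a b ha hb w
        rw [dd_add_left]
        exact L.add_mem (ha w) (hb w)
      zero_mem' := by
        intro w
        rw [dd_zero_left]
        exact L.zero_mem
      smul_mem' := by
        intro c a ha w
        rw [dd_smul_left]
        exact L.smul_mem c (ha w) }
  have hQ : ∀ v, v ∈ Q := by
    rcases h.irr Q (fun Y hY v hv w => by
      have h1 := br Y hY v w (hv w)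
      have h2 := L.sub_mem h1 (hv (Y w))
      rwa [add_sub_cancel_right] at h2) with h1 | h1
    · exfalso
      apply G.F.e_ne
      ext x
      have h2 : e x ∈ Q := fun w => Nall w (e x) (by
        rw [p1]
        exact LinearMap.congr_fun G.F.efe x)
      rw [h1, Submodule.mem_bot] at h2
      exact h2
    · intro v
      rw [h1]
      exact Submodule.mem_top
  -- the end
  let φ : L →ₗ[K] K := (LinearMap.trace K V) ∘ₗ (LinearMap.mulLeft K X) ∘ₗ L.subtype
  obtain ⟨Z, hZ, hφ⟩ := exists_trace_repr h.lie h.irr h.tr φ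
  have hφ' : ∀ Y ∈ L, LinearMap.trace K V (X * Y) = LinearMap.trace K V (Z * Y) :=
    fun Y hY => hφ ⟨Y, hY⟩
  have hT : ∀ v w, B ((X - Z) v) w = 0 := by
    intro v w
    have h1 := hφ' _ (hQ v w)
    have h2 : LinearMap.trace K V ((X - Z) * dd B v w) = 0 := by
      rw [sub_mul, map_sub, h1, sub_self]
    have h3 : (X - Z) * dd B v w = (B w).smulRight ((X - Z) v) - (B v).smulRight ((X - Z) w) := by
      ext x
      rw [Module.End.mul_apply, dd_apply, map_sub, map_smul, map_smul]
      rfl
    rw [h3, map_sub, LinearMap.trace_smulRight, LinearMap.trace_smulRight] at h2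
    have h4 : B ((X - Z) v) w + B v ((X - Z) w) = 0 := by
      rw [LinearMap.sub_apply, LinearMap.sub_apply, map_sub, map_sub, LinearMap.sub_apply]
      linear_combination hX v w - hinv Z hZ v w
    rw [hsym w] at h2
    have h5 : (2 : K) * B ((X - Z) v) w = 0 := by linear_combination h2 + h4
    exact (mul_eq_zero.1 h5).resolve_left (by norm_num)
  have hXZ : X = Z := by
    ext v
    have := nd _ (hT v)
    rw [LinearMap.sub_apply, sub_eq_zero] at this
    exact this
  rw [hXZ]
  exact hZ

/-- If the extremal element has rank two, the block between the two frames is everything and there is a nonzero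
symmetric invariant form, then `L` is the orthogonal algebra. (Without `hall` there is `so(7)` in its spin
representation of dimension eight.) -/
theorem full_so [CharZero K] [IsAlgClosed K] [FiniteDimensional K V] [Nontrivial V]
    (h : CoreN L) {s e f e' f' u : Module.End K V} (G : Grid L s e f e' f' u)
    (hr : finrank K (LinearMap.range e) = 2)
    (hall : ∀ T : Module.End K V, e * f * T * (e * f) * (u * f') ∈ LL L (e * f) (e' * f'))
    {B : V →ₗ[K] V →ₗ[K] K} (hB : B ≠ 0) (hsym : ∀ v w, B v w = B w v)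
    (hinv : ∀ X ∈ L, ∀ v w, B (X v) w + B v (X w) = 0)
    {X : Module.End K V} (hX : ∀ v w, B (X v) w + B v (X w) = 0) : X ∈ L :=
  full_so' h G hall hB hsym hinv hX

end Pool.Agent.H86N
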