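import Pool.Agent.Lib.H86N.CoreA
import Pool.Agent.Lib.H86N.E2
import Pool.Agent.Lib.H86N.P8o
import Pool.Agent.Lib.H49M.K6
import Pool.Agent.Lib.H49M.R2

/-!
# Simple irreducible Lie algebras with an involution and a symmetric invariant form
-/

set_option autoImplicit false
set_option linter.unusedSectionVars false
namespace Pool.Agent.H86N
open Module Pool.Agent.H53Toric Pool.Agent.H49M

variable {K : Type*} [Field K] {V : Type*} [AddCommGroup V] [Module K V]
variable {L : Submodule K (Module.End K V)}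

/-- A nonzero symmetric invariant form excludes elements of rank one. -/
theorem coreO_rank (h : CoreN L) [CharZero K] {B : V →ₗ[K] V →ₗ[K] K} (hB : B ≠ 0)
    (hsym : ∀ v w, B v w = B w v) (hinv : ∀ X ∈ L, ∀ v w, B (X v) w + B v (X w) = 0)
    {e : Module.End K V} (he : e ∈ L) (hr : finrank K (LinearMap.range e) = 1) : False := by
  have nd := P8o_nd h hB hinv
  obtain ⟨⟨v₀, hv₀⟩, hv1, hv2⟩ := finrank_eq_one_iff'.1 hr
  have hv0 : v₀ ≠ 0 := fun h0 => hv1 (Subtype.ext h0)
  obtain ⟨x, hx⟩ := hv₀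
  -- all values of `e` are multiples of `v₀`
  have hall : ∀ v, ∃ c : K, e v = c • v₀ := by
    intro v
    obtain ⟨c, hc⟩ := hv2 ⟨e v, v, rfl⟩
    exact ⟨c, (congrArg Subtype.val hc).symm⟩
  -- `v₀` is orthogonal to every vector that `e` does not kill
  have h1 : ∀ v, e v ≠ 0 → B v₀ v = 0 := by
    intro v hv
    obtain ⟨c, hc⟩ := hall v
    have h2 := hinv e he v v
    rw [hsym v (e v), hc, map_smul, LinearMap.smul_apply, smul_eq_mul] at h2
    have h3 : c ≠ 0 := by
      rintro rfl
      rw [zero_smul] at hc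
      exact hv hc
    have h4 : (2 * c) * B v₀ v = 0 := by linear_combination h2
    exact (mul_eq_zero.1 h4).resolve_left (mul_ne_zero two_ne_zero h3)
  have hx0 : e x ≠ 0 := by rw [hx]; exact hv0
  apply hv0
  refine nd v₀ fun w => ?_
  by_cases hw : e w = 0
  · have h2 := h1 (w + x) (by rw [map_add, hw, zero_add]; exact hx0)
    rw [map_add, h1 x hx0, add_zero] at h2
    exact h2
  · exact h1 w hw

/-- A simple irreducible Lie algebra of operators of trace zero with a symmetric invariant form and a frame: it is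
the orthogonal algebra, or the dimension is `(2k)! / k!^2`, `k` even, or a power `2^m`, `m = 3` or `0` modulo `4`;
the rank of the elements of the frame is known in the last two cases. -/
theorem coreO_frame [CharZero K] [IsAlgClosed K] [FiniteDimensional K V] [Nontrivial V]
    (h : CoreN L) {s e f : Module.End K V} (F : Frame L s e f) {B : V →ₗ[K] V →ₗ[K] K} (hB : B ≠ 0)
    (hsym : ∀ v w, B v w = B w v) (hinv : ∀ X ∈ L, ∀ v w, B (X v) w + B v (X w) = 0) :
    (∀ X : Module.End K V, (∀ v w, B (X v) w + B v (X w) = 0) → X ∈ L) ∨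
    ((∀ u ∈ J1 L s e f, u * f * u = 0) ∧ ∃ k : ℕ, 2 ≤ k ∧ Even k ∧ finrank K V = k.centralBinom ∧
      finrank K (LinearMap.range e) = (k - 1).centralBinom) ∨
    (∃ m : ℕ, 3 ≤ m ∧ (m % 4 = 3 ∨ m % 4 = 0) ∧ finrank K V = 2 ^ m ∧
      finrank K V = 4 * finrank K (LinearMap.range e)) := by
  rcases coreN h F with h1 | ⟨ha, -⟩ | ⟨e', f', u, G, hr, hall, -⟩ | ⟨e', f', u, G, -, h0, h4, m, hm, h5⟩
  · exact (coreO_rank h hB hsym hinv F.e_mem.1 h1).elim
  · right; left
    refine ⟨ha, ?_⟩
    have hall := fun (x : Module.End K V) (hx : x ∈ Lp L s) (y : Module.End K V)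
      (hy : y ∈ Lm L s) => K2_all h F ha hx hy
    obtain ⟨n, x, y, hK, hx, hy, hxL, hyL, -, -⟩ := K3_system h F hall
    obtain ⟨k, hk1, hk2, h1, h2, h3, hcnt⟩ := R2_rank hK (by rw [hx]; exact F.e_ne)
    obtain ⟨h4, h5⟩ := K5_eig h F.s_mem F.s_sq
    have hform : ∀ X ∈ L, ∀ v w, B (X v) w = -B v (X w) := fun X hX v w =>
      eq_neg_of_add_eq_zero_left (hinv X hX v w)
    obtain ⟨j', hj1, hj2⟩ : ∃ j : ℕ, n + 1 = 2 * j + 1 ∧ (1 : K) = (-1) ^ (j + 1) :=
      K6_sign (n + 1) V hK B 1 hB (fun v w => by rw [hsym, one_mul])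
        (fun i => hform _ (hxL i)) (fun i => hform _ (hyL i)) (hform _ F.s_mem)
    obtain ⟨j, rfl⟩ : ∃ j, k = j + 1 := ⟨k - 1, by omega⟩
    rw [Nat.add_sub_cancel] at h2 h3
    rw [h1, h2] at h4
    have h6 := Nat.choose_succ_right_eq (n + 1) j
    rw [h4] at h6
    have h7 : 0 < (n + 1).choose j := Nat.choose_pos (by omega)
    have h8 : j + 1 = n + 1 - j := Nat.eq_of_mul_eq_mul_left h7 h6
    have h9 : n = 2 * j := by omega
    have h10 : finrank K (LinearMap.range e) = j.centralBinom := by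
      rw [← hx, h3, h9, Nat.centralBinom]
    have h11 : finrank K V = (j + 1).centralBinom := by
      have e1 : (2 * (j + 1)).choose (j + 1) = (2 * j + 1).choose j + (2 * j + 1).choose (j + 1) := by
        rw [show 2 * (j + 1) = (2 * j + 1) + 1 by ring, Nat.choose_succ_succ]
      rw [h5, h1, Nat.centralBinom, e1, ← h9, h4]
      ring
    have hjj : j' = j := by omega
    have heven : Even (j + 1) := by
      by_contra hne
      rw [Nat.not_even_iff_odd] at hne
      rw [hjj, hne.neg_one_pow] at hj2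
      norm_num at hj2
    refine ⟨j + 1, ?_, heven, h11, by rw [Nat.add_sub_cancel]; exact h10⟩
    obtain ⟨i, hi⟩ := heven
    omega
  · left
    exact fun X hX => full_so h G hr hall hB hsym hinv hX
  · right; right
    obtain ⟨t, ht, hts⟩ := P8_powO h G h0 hB hsym hinv
    have h7 := (K5_eig h G.F.s_mem G.F.s_sq).2
    rw [ht, h5] at h7
    have h8 : 2 ^ m = 2 ^ (t + 1) := by rw [h7, pow_succ]; ring
    have h9 : m = t + 1 := Nat.pow_right_injective (le_refl 2) h8
    exact ⟨m, hm, by omega, h5, h4⟩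

end Pool.Agent.H86N
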