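import Mathlib

/-! Basic definitions for MP_41f0f1_an (rank-one singular points of Nijenhuis operators). -/

open Filter Topology
open scoped ContDiff

namespace H86N

/-- partial derivative in the first variable `x` -/
noncomputable def dx (F : ℝ × ℝ → ℝ) (z : ℝ × ℝ) : ℝ := fderiv ℝ F z (1, 0)

/-- partial derivative in the second variable `y` -/
noncomputable def dy (F : ℝ × ℝ → ℝ) (z : ℝ × ℝ) : ℝ := fderiv ℝ F z (0, 1)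

/-- `C^∞` on a neighbourhood of the origin -/
def SmoothNear (F : ℝ × ℝ → ℝ) : Prop :=
  ∃ U : Set (ℝ × ℝ), IsOpen U ∧ (0 : ℝ × ℝ) ∈ U ∧ ContDiffOn ℝ ∞ F U

/-- vanishing to infinite order at the origin of the plane -/
def Flat (F : ℝ × ℝ → ℝ) : Prop := ∀ n : ℕ, F =O[𝓝 (0 : ℝ × ℝ)] fun z => ‖z‖ ^ n

/-- vanishing to infinite order at the origin of the line -/
def Flat1 (φ : ℝ → ℝ) : Prop := ∀ n : ℕ, φ =O[𝓝 (0 : ℝ)] fun t => t ^ n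

/-- `R_f` extends smoothly to a neighbourhood of the origin -/
def RExtends (f : ℝ × ℝ → ℝ) : Prop :=
  ∃ g : ℝ × ℝ → ℝ, SmoothNear g ∧
    ∀ᶠ z in 𝓝 (0 : ℝ × ℝ), dy f z ≠ 0 → g z = (dx f z * (z.1 - dx f z) - f z) / dy f z

/-- the list of normal forms `N(x,y)` -/
inductive NormalForm : (ℝ → ℝ → ℝ) → Prop
  | A (l ε : ℝ) (n : ℕ) (hε : ε = 1 ∨ ε = -1) (hn : 2 ≤ n) :
      NormalForm fun x y => l * x - l ^ 2 + ε * y ^ n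
  | B (ε : ℝ) (n : ℕ) (hε : ε = 1 ∨ ε = -1) (hn : 2 ≤ n) :
      NormalForm fun x y => x ^ 2 / 4 + ε * y ^ n
  | C (ε : ℝ) (m : ℕ) (hε : ε = 1 ∨ ε = -1) (hm : 2 ≤ m) :
      NormalForm fun x y => (x / 2 + ε * y ^ m) ^ 2
  | D (ε : ℝ) (m : ℕ) (hε : ε = 1 ∨ ε = -1) (hm : 2 ≤ m) :
      NormalForm fun x y => -(y ^ m * (y ^ m + ε * x))
  | E (c : ℝ) (p : ℕ) (hp : 2 ≤ p) :
      NormalForm fun x y => x ^ p * (c + y)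
  | F (c : ℝ) (p : ℕ) (hp : 3 ≤ p) :
      NormalForm fun x y => x ^ 2 / 4 + x ^ p * (c + y)
  | G (ε : ℝ) (p n : ℕ) (hε : ε = 1 ∨ ε = -1) (hp : 2 ≤ p) (hn : 2 ≤ n) :
      NormalForm fun x y => ε * x ^ p * y ^ n
  | H (ε : ℝ) (p n : ℕ) (hε : ε = 1 ∨ ε = -1) (hp : 2 ≤ p) (hn : 2 ≤ n) :
      NormalForm fun x y => x ^ 2 / 4 + ε * x ^ p * y ^ n

/-- `f(x,y) = N(x, Y(x,y))` near the origin for a normal form `N` and a smooth `Y` with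
`Y(0,0) = 0`, `Y_y(0,0) ≠ 0`. -/
def HasNormalForm (f : ℝ × ℝ → ℝ) : Prop :=
  ∃ N : ℝ → ℝ → ℝ, NormalForm N ∧ ∃ Y : ℝ × ℝ → ℝ, SmoothNear Y ∧ Y 0 = 0 ∧ dy Y 0 ≠ 0 ∧
    ∀ᶠ z in 𝓝 (0 : ℝ × ℝ), f z = N z.1 (Y z)

/-- smooth on the whole plane -/
abbrev Sm (F : ℝ × ℝ → ℝ) : Prop := ContDiff ℝ ∞ F

/-- smooth on the whole line -/
abbrev Sm1 (φ : ℝ → ℝ) : Prop := ContDiff ℝ ∞ φ

end H86N
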