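import Pool.Agent.Lib.H49M.Defs

/-!
# H86N: simple Lie algebras containing an involution, without a form
-/

set_option autoImplicit false
set_option linter.unusedSectionVars false
namespace Pool.Agent.H86N
open Module Pool.Agent.H53Toric Pool.Agent.H49M

variable {K : Type*} [Field K] {V : Type*} [AddCommGroup V] [Module K V]

/-- The standing assumptions: `L` is an irreducible simple Lie algebra of operators of trace zero. -/
structure CoreN (L : Submodule K (Module.End K V)) : Prop where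
  lie : IsLie L
  irr : Irr L
  simple : ∀ I : Submodule K (Module.End K V), I ≤ L →
    (∀ X ∈ L, ∀ Y ∈ I, X * Y - Y * X ∈ I) → I = ⊥ ∨ I = L
  tr : ∀ X ∈ L, LinearMap.trace K V X = 0

/-- The form-free version of `Setup`. -/
structure SetupN (g : Submodule K (Module.End K V)) : Prop where
  lie : IsLie g
  irr : Irr g
  tr : ∀ X ∈ g, LinearMap.trace K V X = 0
  span : g ≤ Submodule.span K {y | y ∈ g ∧ y * y = 1}

/-- A system of idempotents compatible with `L`. -/
structure BlocksN (L : Submodule K (Module.End K V)) (p q : Fin 3 → Module.End K V) : Prop where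
  pp : ∀ i j, p i * p j = if i = j then p i else 0
  qq : ∀ i j, q i * q j = if i = j then q i else 0
  pq : ∀ i j, p i * q j = 0
  qp : ∀ i j, q i * p j = 0
  sum : p 0 + p 1 + p 2 + (q 0 + q 1 + q 2) = 1
  mem : ∀ i, p i - q i ∈ L
  m0 : ∀ X ∈ L, ∀ i j, i ≠ j → p i * X * p j + q j * X * q i ∈ L
  mp : ∀ X ∈ L, ∀ i j, i ≠ j → p i * X * q j + p j * X * q i ∈ L
  mm : ∀ X ∈ L, ∀ i j, i ≠ j → q i * X * p j + q j * X * p i ∈ L
  mpp : ∀ X ∈ L, ∀ i, p i * X * q i ∈ L
  mmm : ∀ X ∈ L, ∀ i, q i * X * p i ∈ L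
  md : ∀ X ∈ L, p 0 * X * p 0 + p 1 * X * p 1 + p 2 * X * p 2 +
    (q 0 * X * q 0 + q 1 * X * q 1 + q 2 * X * q 2) ∈ L

end Pool.Agent.H86N
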