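import Pool.Agent.Lib.H86N.Ord
import Pool.Agent.Lib.H86N.LeadD

/-! Chunk DENSE: the zero set of a non-flat function has empty interior near `0`. -/

open Filter Topology Asymptotics
open scoped ContDiff

namespace H86N

theorem dense_sum_sm {φ : ℕ → ℝ → ℝ} (hφ : ∀ m, Sm1 (φ m)) (n : ℕ) :
    Sm fun z : ℝ × ℝ => ∑ m ∈ Finset.range n, z.1 ^ m * φ m z.2 :=
  ContDiff.sum fun m _ => (sm_fst.pow m).mul ((hφ m).comp1 sm_snd)

theorem dense_dx_sum {φ : ℕ → ℝ → ℝ} (hφ : ∀ m, Sm1 (φ m)) (n : ℕ) (z : ℝ × ℝ) :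
    dx (fun z : ℝ × ℝ => ∑ m ∈ Finset.range n, z.1 ^ m * φ m z.2) z
      = ∑ m ∈ Finset.range n, (m : ℝ) * z.1 ^ (m - 1) * φ m z.2 := by
  induction n with
  | zero => simpa using dx_const 0 z
  | succ n ih =>
    have h1 : (fun z : ℝ × ℝ => ∑ m ∈ Finset.range (n + 1), z.1 ^ m * φ m z.2)
        = fun z : ℝ × ℝ => (∑ m ∈ Finset.range n, z.1 ^ m * φ m z.2) + z.1 ^ n * φ n z.2 := by
      funext w
      rw [Finset.sum_range_succ]
    have h2 : Sm fun z : ℝ × ℝ => z.1 ^ n := sm_fst.pow n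
    have h3 : Sm fun z : ℝ × ℝ => φ n z.2 := (hφ n).comp1 sm_snd
    rw [h1, dx_add (dense_sum_sm hφ n) (h2.mul h3), ih, Finset.sum_range_succ, dx_mul h2 h3,
      dx_pow sm_fst, dx_fst, dx_comp1 (hφ n) sm_snd, dx_snd]
    ring

theorem dense_aux {i : ℕ} {F B : ℝ × ℝ → ℝ} {φ : ℕ → ℝ → ℝ} (hB : Sm B) (hφ : ∀ m, Sm1 (φ m))
    (h : ∀ᶠ z in 𝓝 (0 : ℝ × ℝ), F z = ∑ m ∈ Finset.range i, z.1 ^ m * φ m z.2 + z.1 ^ i * B z) :
    ∀ᶠ t in 𝓝 (0 : ℝ), dx^[i] F (0, t) = (Nat.factorial i : ℝ) * B (0, t) := by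
  induction i generalizing F B φ with
  | zero =>
    filter_upwards [ev_slice0 h] with t ht
    simpa using ht
  | succ i ih =>
    have h1 : F =ᶠ[𝓝 0] fun z => ∑ m ∈ Finset.range (i + 1), z.1 ^ m * φ m z.2 + z.1 ^ (i + 1) * B z := h
    have h2 := germ_dx h1
    have hp : Sm fun z : ℝ × ℝ => z.1 ^ (i + 1) := sm_fst.pow _
    have hB1 : Sm fun z : ℝ × ℝ => ((i : ℝ) + 1) * B z + z.1 * dx B z :=
      (contDiff_const.mul hB).add (sm_fst.mul hB.dx)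
    have hφ1 : ∀ m : ℕ, Sm1 fun t => ((m : ℝ) + 1) * φ (m + 1) t := fun m => contDiff_const.mul (hφ (m + 1))
    have h3 : ∀ᶠ z in 𝓝 (0 : ℝ × ℝ), dx F z = ∑ m ∈ Finset.range i, z.1 ^ m * (((m : ℝ) + 1) * φ (m + 1) z.2)
        + z.1 ^ i * (((i : ℝ) + 1) * B z + z.1 * dx B z) := by
      filter_upwards [h2] with z hz
      rw [hz, dx_add (dense_sum_sm hφ (i + 1)) (hp.mul hB), dense_dx_sum hφ, dx_mul hp hB, dx_pow sm_fst, dx_fst,
        Finset.sum_range_succ']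
      have e1 : ∀ m : ℕ, ((m + 1 : ℕ) : ℝ) * z.1 ^ (m + 1 - 1) * φ (m + 1) z.2
          = z.1 ^ m * (((m : ℝ) + 1) * φ (m + 1) z.2) := by
        intro m
        rw [Nat.add_sub_cancel]
        push_cast
        ring
      rw [Finset.sum_congr rfl fun m _ => e1 m, Nat.add_sub_cancel]
      push_cast
      ring
    have h4 := ih hB1 hφ1 h3
    filter_upwards [h4] with t ht
    rw [Function.iterate_succ_apply, ht, Nat.factorial_succ]
    push_cast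
    ring

/-- `dx^[i] F (0, y) = i! B(0, y)` near `y = 0`, if `F` decomposes as in `Dec`. (By induction:
the sum is killed because `m < i`; near `0`, `dx^[k](x^i B) = x^(i-k) B_k`,
`B_k(0,y) = i!/(i-k)! B(0,y)`.) -/
theorem dec_dx {F : ℝ × ℝ → ℝ} (hF : Sm F) {i : ℕ} {φ : ℕ → ℝ → ℝ} {B : ℝ × ℝ → ℝ}
    (hD : Dec F i φ B) : ∀ᶠ t in 𝓝 (0 : ℝ), dx^[i] F (0, t) = (Nat.factorial i : ℝ) * B (0, t) := by
  have _ := hF
  exact dense_aux hD.1 hD.2.1 hD.2.2.2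

theorem dense_germ_dx {F G : ℝ × ℝ → ℝ} {z₀ : ℝ × ℝ} (h : F =ᶠ[𝓝 z₀] G) (m : ℕ) :
    dx^[m] F =ᶠ[𝓝 z₀] dx^[m] G := by
  induction m with
  | zero => exact h
  | succ m ih =>
    rw [Function.iterate_succ_apply', Function.iterate_succ_apply']
    exact germ_dx ih

theorem dense_germ_dy {F G : ℝ × ℝ → ℝ} {z₀ : ℝ × ℝ} (h : F =ᶠ[𝓝 z₀] G) (m : ℕ) :
    dy^[m] F =ᶠ[𝓝 z₀] dy^[m] G := by
  induction m with
  | zero => exact h
  | succ m ih =>
    rw [Function.iterate_succ_apply', Function.iterate_succ_apply']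
    exact germ_dy ih

theorem dense_zero_dx (m : ℕ) : dx^[m] (fun _ => (0 : ℝ)) = fun _ => 0 := by
  induction m with
  | zero => rfl
  | succ m ih =>
    rw [Function.iterate_succ_apply', ih]
    funext z
    exact dx_const 0 z

theorem dense_zero_dy (m : ℕ) : dy^[m] (fun _ => (0 : ℝ)) = fun _ => 0 := by
  induction m with
  | zero => rfl
  | succ m ih =>
    rw [Function.iterate_succ_apply', ih]
    funext z
    exact dy_const 0 z

/-- By `order2`, `dec_dx`, `lead_deriv` the function `K = dy^[J] (dx^[i] F)` does not vanish at `0`,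
hence `K ≠ 0` on a neighbourhood `U`. If `E z ≠ 0` at some `z ∈ U` (where also `E F = 0` holds on
`U`), then `E ≠ 0` near `z`, `F = 0` near `z`, so `K = 0` near `z`; contradiction. -/
theorem zero_of_mul {E F : ℝ × ℝ → ℝ} (hE : Sm E) (hF : Sm F) (h : ¬ Flat F)
    (hz : ∀ᶠ z in 𝓝 (0 : ℝ × ℝ), E z * F z = 0) : ∀ᶠ z in 𝓝 (0 : ℝ × ℝ), E z = 0 := by
  obtain ⟨i, φ, B, J, ψ, hD, hL⟩ := order2 hF h
  have h1 := dec_dx hF hD
  have hL1 : Lead (fun t => dx^[i] F (0, t)) J fun t => (Nat.factorial i : ℝ) * ψ t := by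
    obtain ⟨g1, g2, g3⟩ := hL
    refine ⟨contDiff_const.mul g1, mul_ne_zero (by positivity) g2, ?_⟩
    filter_upwards [h1, g3] with t a b
    rw [a, b]
    ring
  have h2 := (lead_deriv (hF.iter_dx i) hL1).2
  have hK : Sm (dy^[J] (dx^[i] F)) := (hF.iter_dx i).iter_dy J
  have h3 : ∀ᶠ z in 𝓝 (0 : ℝ × ℝ), dy^[J] (dx^[i] F) z ≠ 0 :=
    (isOpen_ne_fun hK.continuous continuous_const).mem_nhds h2
  have h4 := eventually_eventually_nhds.2 hz
  filter_upwards [h3, h4] with z hz1 hz2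
  by_contra hne
  apply hz1
  have h5 : ∀ᶠ w in 𝓝 z, E w ≠ 0 :=
    (isOpen_ne_fun hE.continuous continuous_const).mem_nhds hne
  have h6 : F =ᶠ[𝓝 z] fun _ => (0 : ℝ) := by
    filter_upwards [h5, hz2] with w a b
    exact (mul_eq_zero.1 b).resolve_left a
  have h7 := dense_germ_dy (dense_germ_dx h6 i) J
  rw [dense_zero_dx, dense_zero_dy] at h7
  exact h7.self_of_nhds

end H86N
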