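import Pool.Agent.Lib.H86N.CoreO

/-!
# E3: the symmetric case in dimension six
-/

set_option autoImplicit false
set_option linter.unusedSectionVars false
namespace Pool.Agent.H86N
open Module Pool.Agent.H53Toric Pool.Agent.H49M

variable {K : Type*} [Field K] {V : Type*} [AddCommGroup V] [Module K V]
variable {L : Submodule K (Module.End K V)}

/-- If all operators `dd B v w` are in `L`, every skew operator is in `L`. -/
theorem so_of_dd [CharZero K] [IsAlgClosed K] [FiniteDimensional K V] [Nontrivial V]
    (hl : IsLie L) (hirr : Irr L) (htr : ∀ X ∈ L, LinearMap.trace K V X = 0)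
    {B : V →ₗ[K] V →ₗ[K] K} (nd : ∀ v, (∀ w, B v w = 0) → v = 0) (hsym : ∀ v w, B v w = B w v)
    (hinv : ∀ X ∈ L, ∀ v w, B (X v) w + B v (X w) = 0) (hQ : ∀ v w, dd B v w ∈ L)
    {X : Module.End K V} (hX : ∀ v w, B (X v) w + B v (X w) = 0) : X ∈ L := by
  let φ : L →ₗ[K] K := (LinearMap.trace K V) ∘ₗ (LinearMap.mulLeft K X) ∘ₗ L.subtype
  obtain ⟨Z, hZ, hφ⟩ := exists_trace_repr hl hirr htr φ
  have hφ' : ∀ Y ∈ L, LinearMap.trace K V (X * Y) = LinearMap.trace K V (Z * Y) :=
    fun Y hY => hφ ⟨Y, hY⟩
  have hT : ∀ v w, B ((X - Z) v) w = 0 := by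
    intro v w
    have h1 := hφ' _ (hQ v w)
    have h2 : LinearMap.trace K V ((X - Z) * dd B v w) = 0 := by
      rw [sub_mul, map_sub, h1, sub_self]
    have h3 : (X - Z) * dd B v w = (B w).smulRight ((X - Z) v) - (B v).smulRight ((X - Z) w) := by
      ext x
      rw [Module.End.mul_apply, dd_apply, map_sub, map_smul, map_smul]
      rfl
    rw [h3, map_sub, LinearMap.trace_smulRight, LinearMap.trace_smulRight] at h2
    have h4 : B ((X - Z) v) w + B v ((X - Z) w) = 0 := by
      rw [LinearMap.sub_apply, LinearMap.sub_apply, map_sub, map_sub, LinearMap.sub_apply]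
      linear_combination hX v w - hinv Z hZ v w
    rw [hsym w] at h2
    have h5 : (2 : K) * B ((X - Z) v) w = 0 := by linear_combination h2 + h4
    exact (mul_eq_zero.1 h5).resolve_left (by norm_num)
  have hXZ : X = Z := by
    ext v
    have := nd _ (hT v)
    rw [LinearMap.sub_apply, sub_eq_zero] at this
    exact this
  rw [hXZ]
  exact hZ

/-- The operators of a Kemmer system are linearly independent. -/
theorem kemmer_indep [CharZero K] {s : Module.End K V} {n : ℕ} {x y : Fin (n + 1) → Module.End K V}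
    (h : Kemmer s x y) (hx : x 0 ≠ 0) : LinearIndependent K x ∧ LinearIndependent K y := by
  have hx' : ∀ j, x j ≠ 0 := by
    intro j h0
    have h1 := h.r1 j j 0
    rw [h0, if_pos rfl, zero_mul, zero_mul, mul_zero, ite_self, add_zero, add_zero] at h1
    exact hx h1.symm
  have hy' : ∀ j, y j ≠ 0 := by
    intro j h0
    have h1 := h.r1 j j j
    rw [h0, if_pos rfl, mul_zero, zero_mul, add_zero] at h1
    have h2 : (2 : K) • x j = 0 := by rw [two_smul]; exact h1.symm
    exact hx' j ((smul_eq_zero.1 h2).resolve_left two_ne_zero)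
  constructor
  · rw [Fintype.linearIndependent_iff]
    intro g hg j
    have h1 : y j * (∑ i, g i • x i) * y j = g j • y j := by
      rw [Finset.mul_sum, Finset.sum_mul, Finset.sum_eq_single j]
      · have h2 := h.r2 j j j
        rw [if_pos rfl, ← two_smul K, ← two_smul K (y j)] at h2
        have h3 := smul_right_injective (Module.End K V) (two_ne_zero (α := K)) h2
        rw [mul_smul_comm, smul_mul_assoc, h3]
      · intro i _ hij
        have h2 := h.r2 j i j
        rw [if_neg (Ne.symm hij), add_zero, ← two_smul K] at h2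
        have h3 := (smul_eq_zero.1 h2).resolve_left two_ne_zero
        rw [mul_smul_comm, smul_mul_assoc, h3, smul_zero]
      · intro h2
        exact absurd (Finset.mem_univ j) h2
    rw [hg, mul_zero, zero_mul] at h1
    exact (smul_eq_zero.1 h1.symm).resolve_right (hy' j)
  · rw [Fintype.linearIndependent_iff]
    intro g hg j
    have h1 : x j * (∑ i, g i • y i) * x j = g j • x j := by
      rw [Finset.mul_sum, Finset.sum_mul, Finset.sum_eq_single j]
      · have h2 := h.r1 j j j
        rw [if_pos rfl, ← two_smul K, ← two_smul K (x j)] at h2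
        have h3 := smul_right_injective (Module.End K V) (two_ne_zero (α := K)) h2
        rw [mul_smul_comm, smul_mul_assoc, h3]
      · intro i _ hij
        have h2 := h.r1 j i j
        rw [if_neg (Ne.symm hij), add_zero, ← two_smul K] at h2
        have h3 := (smul_eq_zero.1 h2).resolve_left two_ne_zero
        rw [mul_smul_comm, smul_mul_assoc, h3, smul_zero]
      · intro h2
        exact absurd (Finset.mem_univ j) h2
    rw [hg, mul_zero, zero_mul] at h1
    exact (smul_eq_zero.1 h1.symm).resolve_right (hx' j)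

section half

variable {B : V →ₗ[K] V →ₗ[K] K} {s : Module.End K V} {v w : Fin 3 → V}

/-- Three numbers determine a skew operator from one half to the other. -/
theorem d6_zero [CharZero K] (hsym : ∀ a b, B a b = B b a)
    (hv : ∀ i, s (v i) = v i)
    (N : ∀ x, (∀ i, B x (v i) = 0) → (∀ i, B x (w i) = 0) → x = 0)
    (S : ∀ U : Submodule K V, (∀ i, v i ∈ U) → (∀ i, w i ∈ U) → U = ⊤)
    {D : Module.End K V} (hD' : D * s = -D)
    (hinv : ∀ a b, B (D a) b + B a (D b) = 0)
    (h01 : B (D (w 0)) (w 1) = 0) (h02 : B (D (w 0)) (w 2) = 0) (h12 : B (D (w 1)) (w 2) = 0) : D = 0 := by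
  have hDv : ∀ i, D (v i) = 0 := by
    intro i
    have h1 := LinearMap.congr_fun hD' (v i)
    rw [Module.End.mul_apply, hv, LinearMap.neg_apply] at h1
    have h2 : (2 : K) • D (v i) = 0 := by
      rw [two_smul]
      nth_rw 1 [h1]
      exact neg_add_cancel _
    exact (smul_eq_zero.1 h2).resolve_left two_ne_zero
  have hsk : ∀ a b, B (D a) b = -B (D b) a := by
    intro a b
    rw [hsym (D b) a]
    exact eq_neg_of_add_eq_zero_left (hinv a b)
  have hself : ∀ a, B (D a) a = 0 := by
    intro a
    have h1 := hsk a a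
    have h2 : (2 : K) * B (D a) a = 0 := by linear_combination h1
    exact (mul_eq_zero.1 h2).resolve_left two_ne_zero
  have h10 : B (D (w 1)) (w 0) = 0 := by rw [hsk, h01, neg_zero]
  have h20 : B (D (w 2)) (w 0) = 0 := by rw [hsk, h02, neg_zero]
  have h21 : B (D (w 2)) (w 1) = 0 := by rw [hsk, h12, neg_zero]
  have hDw : ∀ i, D (w i) = 0 := by
    intro i
    refine N _ (fun j => ?_) fun j => ?_
    · rw [hsk, hDv, map_zero, LinearMap.zero_apply, neg_zero]
    · fin_cases i <;> fin_cases j
      · exact hself _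
      · exact h01
      · exact h02
      · exact h10
      · exact hself _
      · exact h12
      · exact h20
      · exact h21
      · exact hself _
  have h1 := S (LinearMap.ker D) (fun i => LinearMap.mem_ker.2 (hDv i)) fun i => LinearMap.mem_ker.2 (hDw i)
  exact LinearMap.ker_eq_top.1 h1

/-- Three independent skew operators from one half to the other: all `dd B (v i) (v j)`. -/
theorem d6_half [CharZero K] (hsym : ∀ a b, B a b = B b a)
    (hv : ∀ i, s (v i) = v i) (hw : ∀ i, s (w i) = -w i)
    (hvv : ∀ i j, B (v i) (v j) = 0)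
    (N : ∀ x, (∀ i, B x (v i) = 0) → (∀ i, B x (w i) = 0) → x = 0)
    (S : ∀ U : Submodule K V, (∀ i, v i ∈ U) → (∀ i, w i ∈ U) → U = ⊤)
    {x : Fin 3 → Module.End K V} (hx : LinearIndependent K x) (hxs : ∀ i, x i * s = -x i)
    (hinv : ∀ i a b, B (x i a) b + B a (x i b) = 0) (hL : ∀ i, x i ∈ L) (i j : Fin 3) :
    dd B (v i) (v j) ∈ L := by
  let X : (Fin 3 → K) → Module.End K V := fun c => ∑ i, c i • x i
  have hXL : ∀ c, X c ∈ L := fun c => L.sum_mem fun i _ => L.smul_mem _ (hL i)
  have hXs : ∀ c, X c * s = -X c := by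
    intro c
    show (∑ i, c i • x i) * s = -∑ i, c i • x i
    rw [Finset.sum_mul, ← Finset.sum_neg_distrib]
    exact Finset.sum_congr rfl fun i _ => by rw [smul_mul_assoc, hxs, smul_neg]
  have hXinv : ∀ c a b, B (X c a) b + B a (X c b) = 0 := by
    intro c a b
    show B ((∑ i, c i • x i) a) b + B a ((∑ i, c i • x i) b) = 0
    rw [LinearMap.sum_apply, LinearMap.sum_apply, map_sum, map_sum, LinearMap.sum_apply,
      ← Finset.sum_add_distrib]
    refine Finset.sum_eq_zero fun i _ => ?_
    rw [LinearMap.smul_apply, LinearMap.smul_apply, map_smul, map_smul, LinearMap.smul_apply, ← smul_add,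
      hinv, smul_zero]
  let Φ : (Fin 3 → K) →ₗ[K] (Fin 3 → K) :=
    { toFun := fun c => ![B (X c (w 0)) (w 1), B (X c (w 0)) (w 2), B (X c (w 1)) (w 2)]
      map_add' := by
        intro c d
        have e1 : X (c + d) = X c + X d := by
          show (∑ i, (c + d) i • x i) = ∑ i, c i • x i + ∑ i, d i • x i
          rw [← Finset.sum_add_distrib]
          exact Finset.sum_congr rfl fun i _ => by rw [Pi.add_apply, add_smul]
        simp only [e1, LinearMap.add_apply, map_add]
        ext k
        fin_cases k <;> simp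
      map_smul' := by
        intro t c
        have e1 : X (t • c) = t • X c := by
          show (∑ i, (t • c) i • x i) = t • ∑ i, c i • x i
          rw [Finset.smul_sum]
          exact Finset.sum_congr rfl fun i _ => by rw [Pi.smul_apply, smul_smul, smul_eq_mul]
        simp only [e1, LinearMap.smul_apply, map_smul]
        ext k
        fin_cases k <;> simp }
  have hΦ0 : ∀ c, Φ c 0 = B (X c (w 0)) (w 1) := fun c => rfl
  have hΦ1 : ∀ c, Φ c 1 = B (X c (w 0)) (w 2) := fun c => rfl
  have hΦ2 : ∀ c, Φ c 2 = B (X c (w 1)) (w 2) := fun c => rfl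
  have hinj : Function.Injective Φ := by
    rw [injective_iff_map_eq_zero]
    intro c hc
    have h0 : X c = 0 := d6_zero hsym hv N S (hXs c) (hXinv c) (by rw [← hΦ0, hc]; rfl)
      (by rw [← hΦ1, hc]; rfl) (by rw [← hΦ2, hc]; rfl)
    exact funext (Fintype.linearIndependent_iff.1 hx c h0)
  have hsur : Function.Surjective Φ := LinearMap.injective_iff_surjective.1 hinj
  have hDs : dd B (v i) (v j) * s = -dd B (v i) (v j) := by
    have h1 := S (LinearMap.ker (dd B (v i) (v j) * s + dd B (v i) (v j))) (fun k => by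
        rw [LinearMap.mem_ker, LinearMap.add_apply, Module.End.mul_apply, hv, dd_apply, hvv, hvv, zero_smul,
          zero_smul, sub_zero, add_zero]) fun k => by
        rw [LinearMap.mem_ker, LinearMap.add_apply, Module.End.mul_apply, hw, map_neg, neg_add_cancel]
    exact eq_neg_of_add_eq_zero_left (LinearMap.ker_eq_top.1 h1)
  obtain ⟨c, hc⟩ := hsur ![B (dd B (v i) (v j) (w 0)) (w 1), B (dd B (v i) (v j) (w 0)) (w 2),
    B (dd B (v i) (v j) (w 1)) (w 2)]
  have h0 : X c - dd B (v i) (v j) = 0 := by
    refine d6_zero hsym hv N S ?_ (fun a b => ?_) ?_ ?_ ?_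
    · rw [sub_mul, hXs, hDs]
      abel
    · rw [LinearMap.sub_apply, LinearMap.sub_apply, map_sub, map_sub, LinearMap.sub_apply]
      linear_combination hXinv c a b - dd_skew hsym (v i) (v j) a b
    · rw [LinearMap.sub_apply, map_sub, LinearMap.sub_apply, ← hΦ0, hc]
      exact sub_self _
    · rw [LinearMap.sub_apply, map_sub, LinearMap.sub_apply, ← hΦ1, hc]
      exact sub_self _
    · rw [LinearMap.sub_apply, map_sub, LinearMap.sub_apply, ← hΦ2, hc]
      exact sub_self _
  rw [← sub_eq_zero.1 h0]
  exact hXL c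

end half

/-- Dual bases of the two halves. -/
theorem d6_bases [CharZero K] [FiniteDimensional K V] {s : Module.End K V} (hs2 : s * s = 1)
    {B : V →ₗ[K] V →ₗ[K] K} (nd : ∀ v, (∀ w, B v w = 0) → v = 0) (hsym : ∀ v w, B v w = B w v)
    (hinv : ∀ v w, B (s v) w + B v (s w) = 0) (h1 : finrank K (eig s 1) = 3)
    (h2 : finrank K (eig s (-1)) = 3) :
    ∃ v w : Fin 3 → V, (∀ i, s (v i) = v i) ∧ (∀ i, s (w i) = -w i) ∧ (∀ i j, B (v i) (v j) = 0) ∧
      (∀ i j, B (w i) (w j) = 0) ∧ (∀ i j, B (v i) (w j) = if i = j then 1 else 0) ∧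
      ∀ U : Submodule K V, (∀ i, v i ∈ U) → (∀ i, w i ∈ U) → U = ⊤ := by
  have m1 : ∀ {v : V}, v ∈ eig s 1 ↔ s v = v := by
    intro v
    rw [eig, LinearMap.mem_ker, LinearMap.sub_apply, sub_eq_zero, one_smul, Module.End.one_apply]
  have m2 : ∀ {v : V}, v ∈ eig s (-1) ↔ s v = -v := by
    intro v
    rw [eig, LinearMap.mem_ker, LinearMap.sub_apply, sub_eq_zero, LinearMap.smul_apply, Module.End.one_apply,
      neg_one_smul]
  have two0 : (2 : K) ≠ 0 := two_ne_zero
  have hpp : ∀ a b, s a = a → s b = b → B a b = 0 := by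
    intro a b ha hb
    have h3 := hinv a b
    rw [ha, hb] at h3
    have h4 : (2 : K) * B a b = 0 := by linear_combination h3
    exact (mul_eq_zero.1 h4).resolve_left two0
  have hmm : ∀ a b, s a = -a → s b = -b → B a b = 0 := by
    intro a b ha hb
    have h3 := hinv a b
    rw [ha, hb, map_neg, map_neg, LinearMap.neg_apply] at h3
    have h4 : (2 : K) * B a b = 0 := by linear_combination -h3
    exact (mul_eq_zero.1 h4).resolve_left two0
  have hdec : ∀ z : V, ∃ a b, s a = a ∧ s b = -b ∧ z = a + b := by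
    intro z
    have hss : s (s z) = z := LinearMap.congr_fun hs2 z
    refine ⟨(1 / 2 : K) • (z + s z), (1 / 2 : K) • (z - s z), ?_, ?_, ?_⟩
    · rw [map_smul, map_add, hss, add_comm]
    · rw [map_smul, map_sub, hss, ← smul_neg, neg_sub]
    · rw [← smul_add]
      have : z + s z + (z - s z) = (2 : K) • z := by rw [two_smul]; abel
      rw [this, smul_smul]
      norm_num
  let b := Module.finBasisOfFinrankEq K (eig s 1) h1
  let T : eig s (-1) →ₗ[K] Module.Dual K (eig s 1) :=
    { toFun := fun y =>
        { toFun := fun x => B y x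
          map_add' := fun a c => by rw [Submodule.coe_add, map_add]
          map_smul' := fun c a => by rw [Submodule.coe_smul, map_smul]; rfl }
      map_add' := fun a c => by
        ext x
        show B ((a + c : eig s (-1)) : V) x = B a x + B c x
        rw [Submodule.coe_add, map_add, LinearMap.add_apply]
      map_smul' := fun c a => by
        ext x
        show B ((c • a : eig s (-1)) : V) x = c • B a x
        rw [Submodule.coe_smul, map_smul, LinearMap.smul_apply] }
  have hT : ∀ y x, T y x = B y x := fun y x => rfl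
  have hTi : Function.Injective T := by
    rw [injective_iff_map_eq_zero]
    intro y hy
    apply Subtype.ext
    refine nd _ fun z => ?_
    obtain ⟨a, c, ha, hc, rfl⟩ := hdec z
    rw [map_add, hmm _ _ (m2.1 y.2) hc, add_zero]
    exact LinearMap.congr_fun hy ⟨a, m1.2 ha⟩
  have hdim : finrank K (eig s (-1)) = finrank K (Module.Dual K (eig s 1)) := by
    rw [Subspace.dual_finrank_eq, h1, h2]
  let E := LinearEquiv.ofInjectiveOfFinrankEq T hTi hdim
  have hE : ∀ y, E y = T y := fun _ => rfl
  have hbw : ∀ i j, B ((E.symm (b.dualBasis i) : eig s (-1)) : V) (b j) = if j = i then 1 else 0 := by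
    intro i j
    have h3 : T (E.symm (b.dualBasis i)) = b.dualBasis i := by
      rw [← hE]
      exact LinearEquiv.apply_symm_apply E _
    rw [← hT, h3, Module.Basis.dualBasis_apply_self]
  refine ⟨fun i => b i, fun i => E.symm (b.dualBasis i), fun i => m1.1 (b i).2,
    fun i => m2.1 (E.symm (b.dualBasis i)).2, fun i j => hpp _ _ (m1.1 (b i).2) (m1.1 (b j).2),
    fun i j => hmm _ _ (m2.1 (E.symm (b.dualBasis i)).2) (m2.1 (E.symm (b.dualBasis j)).2),
    fun i j => ?_, fun U hU1 hU2 => ?_⟩
  · rw [hsym]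
    exact hbw j i
  · rw [eq_top_iff]
    rintro z -
    obtain ⟨a, c, ha, hc, rfl⟩ := hdec z
    refine U.add_mem ?_ ?_
    · have h3 : b.repr ⟨a, m1.2 ha⟩ = b.repr ⟨a, m1.2 ha⟩ := rfl
      have h4 := b.sum_repr ⟨a, m1.2 ha⟩
      have h5 : a = ∑ i, (b.repr ⟨a, m1.2 ha⟩ i) • ((b i : eig s 1) : V) := by
        have := congrArg Subtype.val h4
        rw [AddSubmonoidClass.coe_finsetSum] at this
        exact this.symm
      rw [h5]
      exact U.sum_mem fun i _ => U.smul_mem _ (hU1 i)
    · let C := b.dualBasis.map E.symm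
      have h4 := C.sum_repr ⟨c, m2.2 hc⟩
      have h5 : c = ∑ i, (C.repr ⟨c, m2.2 hc⟩ i) • ((C i : eig s (-1)) : V) := by
        have := congrArg Subtype.val h4
        rw [AddSubmonoidClass.coe_finsetSum] at this
        exact this.symm
      rw [h5]
      refine U.sum_mem fun i _ => U.smul_mem _ ?_
      have h6 : C i = E.symm (b.dualBasis i) := by
        show (b.dualBasis.map E.symm) i = _
        rw [Module.Basis.map_apply]
      rw [h6]
      exact hU2 i

/-- Dimension six: the orthogonal algebra. -/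
theorem full_so6 [CharZero K] [IsAlgClosed K] [FiniteDimensional K V] [Nontrivial V]
    (h : CoreN L) {s e f : Module.End K V} (F : Frame L s e f) (ha : ∀ u ∈ J1 L s e f, u * f * u = 0)
    {B : V →ₗ[K] V →ₗ[K] K} (hB : B ≠ 0) (hsym : ∀ v w, B v w = B w v)
    (hinv : ∀ X ∈ L, ∀ v w, B (X v) w + B v (X w) = 0) (h6 : finrank K V = 6)
    {X : Module.End K V} (hX : ∀ v w, B (X v) w + B v (X w) = 0) : X ∈ L := by
  have nd := P8o_nd h hB hinv
  obtain ⟨h1, h2⟩ := K5_eig h F.s_mem F.s_sq
  have h3 : finrank K (eig s 1) = 3 := by omega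
  have h3' : finrank K (eig s (-1)) = 3 := by omega
  have hall := fun (x : Module.End K V) (hx : x ∈ Lp L s) (y : Module.End K V)
    (hy : y ∈ Lm L s) => K2_all h F ha hx hy
  obtain ⟨n, x, y, hK, hx, hy, hxL, hyL, -, -⟩ := K3_system h F hall
  have hn : n = 2 := by
    obtain ⟨k, hk1, hk2, h4, h5, -, -⟩ := R2_rank hK (by rw [hx]; exact F.e_ne)
    obtain ⟨j, rfl⟩ : ∃ j, k = j + 1 := ⟨k - 1, by omega⟩
    rw [Nat.add_sub_cancel] at h5
    rw [h3] at h4
    rw [h3'] at h5
    have h7 := Nat.choose_succ_right_eq (n + 1) j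
    rw [← h4, ← h5] at h7
    have h8 : n = 2 * j := by omega
    have h9 : 3 = (2 * j + 1).choose j := by rw [← h8]; exact h5
    have h10 : j = 1 := by
      rcases Nat.lt_or_ge j 2 with h11 | h11
      · interval_cases j
        · simp at h9
        · rfl
      · exfalso
        have h12 : (2 * j + 1).choose 2 ≤ (2 * j + 1).choose j := by
          have h13 := Nat.choose_le_middle 2 (2 * j + 1)
          have h14 : (2 * j + 1) / 2 = j := by omega
          rwa [h14] at h13
        have h13 : (2 * j + 1).choose 2 = j * (2 * j + 1) := by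
          rw [Nat.choose_two_right]
          have : (2 * j + 1) * (2 * j + 1 - 1) = 2 * (j * (2 * j + 1)) := by
            rw [Nat.add_sub_cancel]; ring
          rw [this, Nat.mul_div_cancel_left _ (by norm_num)]
        have h14 : 2 * 5 ≤ j * (2 * j + 1) := Nat.mul_le_mul h11 (by omega)
        omega
    omega
  subst hn
  obtain ⟨v, w, hv, hw, hvv, hww, hvw, hU⟩ := d6_bases F.s_sq nd hsym (hinv s F.s_mem) h3 h3'
  obtain ⟨ix, iy⟩ := kemmer_indep hK (by rw [hx]; exact F.e_ne)
  have N : ∀ z, (∀ i, B z (v i) = 0) → (∀ i, B z (w i) = 0) → z = 0 := by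
    intro z hz1 hz2
    refine nd z fun t => ?_
    have h4 := hU (LinearMap.ker (B z)) (fun i => LinearMap.mem_ker.2 (hz1 i)) fun i => LinearMap.mem_ker.2 (hz2 i)
    rw [LinearMap.ker_eq_top.1 h4]
    rfl
  have dv : ∀ i j, dd B (v i) (v j) ∈ L := fun i j =>
    d6_half hsym hv hw hvv N hU ix (fun i => hK.xs i) (fun i => hinv _ (hxL i)) hxL i j
  have dw : ∀ i j, dd B (w i) (w j) ∈ L := fun i j =>
    d6_half (s := -s) hsym (fun i => by rw [LinearMap.neg_apply, hw, neg_neg])
      (fun i => by rw [LinearMap.neg_apply, hv]) hww (fun z h4 h5 => N z h5 h4) (fun U h4 h5 => hU U h5 h4)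
      iy (fun i => by rw [mul_neg, hK.ys]) (fun i => hinv _ (hyL i)) hyL i j
  have hwv : ∀ i j, B (w i) (v j) = if i = j then 1 else 0 := by
    intro i j
    rw [hsym, hvw]
    simp only [eq_comm]
  -- the bracket
  have hbr : ∀ i j k l, (if j = k then (1 : K) else 0) • dd B (v i) (w l) -
      (if i = k then (1 : K) else 0) • dd B (v j) (w l) +
      ((if j = l then (1 : K) else 0) • dd B (w k) (v i) - (if i = l then (1 : K) else 0) • dd B (w k) (v j)) ∈ L := by
    intro i j k l
    have h4 := h.lie (dd B (v i) (v j)) (dv i j) (dd B (w k) (w l)) (dw k l)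
    rw [dd_br (fun a b => dd_skew hsym (v i) (v j) a b), dd_apply, dd_apply, hvw, hvw, hvw, hvw] at h4
    have e1 : ∀ (a b : K) (p q r : V), dd B (a • p - b • q) r = a • dd B p r - b • dd B q r := by
      intro a b p q r
      rw [sub_eq_add_neg, ← neg_smul, dd_add_left, dd_smul_left, dd_smul_left, neg_smul, sub_eq_add_neg]
    have e2 : ∀ (a b : K) (p q r : V), dd B r (a • p - b • q) = a • dd B r p - b • dd B r q := by
      intro a b p q r
      rw [sub_eq_add_neg, ← neg_smul, dd_add_right, dd_smul_right, dd_smul_right, neg_smul, sub_eq_add_neg]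
    rw [e1, e2] at h4
    exact h4
  have hne : ∀ i l : Fin 3, i ≠ l → dd B (v i) (w l) ∈ L := by
    intro i l hil
    obtain ⟨k, hki, hkl⟩ : ∃ k : Fin 3, k ≠ i ∧ k ≠ l := by
      revert i l
      decide
    have h4 := hbr i k k l
    rw [if_pos rfl, if_neg (Ne.symm hki), if_neg hkl, if_neg hil, one_smul, zero_smul, zero_smul, zero_smul,
      sub_zero, sub_zero, add_zero] at h4
    exact h4
  have hsum : ∀ i k : Fin 3, i ≠ k → dd B (v i) (w i) + dd B (v k) (w k) ∈ L := by
    intro i k hik
    have h4 := hbr i k k i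
    rw [if_pos rfl, if_neg hik, if_neg (Ne.symm hik), if_pos rfl, one_smul, zero_smul, zero_smul, one_smul,
      sub_zero, zero_sub, ← dd_swap] at h4
    exact h4
  have hdiag : ∀ i : Fin 3, dd B (v i) (w i) ∈ L := by
    intro i
    obtain ⟨k, l, hki, hli, hkl⟩ : ∃ k l : Fin 3, i ≠ k ∧ i ≠ l ∧ k ≠ l := by
      revert i
      decide
    have h4 := L.sub_mem (L.add_mem (hsum i k hki) (hsum i l hli)) (hsum k l hkl)
    have h5 : dd B (v i) (w i) + dd B (v k) (w k) + (dd B (v i) (w i) + dd B (v l) (w l)) -
        (dd B (v k) (w k) + dd B (v l) (w l)) = (2 : K) • dd B (v i) (w i) := by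
      rw [two_smul]
      abel
    rw [h5] at h4
    have h7 := L.smul_mem (2 : K)⁻¹ h4
    rwa [smul_smul, inv_mul_cancel₀ (by norm_num), one_smul] at h7
  have hvw' : ∀ i l, dd B (v i) (w l) ∈ L := by
    intro i l
    by_cases hil : i = l
    · rw [hil]
      exact hdiag l
    · exact hne i l hil
  -- all of them
  let R : V → Submodule K V := fun a =>
    { carrier := {c | dd B a c ∈ L}
      add_mem' := by
        intro p q hp hq
        show dd B a (p + q) ∈ L
        rw [dd_add_right]
        exact L.add_mem hp hq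
      zero_mem' := by
        show dd B a 0 ∈ L
        rw [dd_zero_right]
        exact L.zero_mem
      smul_mem' := by
        intro c p hp
        show dd B a (c • p) ∈ L
        rw [dd_smul_right]
        exact L.smul_mem c hp }
  have hR : ∀ a c, c ∈ R a ↔ dd B a c ∈ L := fun a c => Iff.rfl
  have r1 : ∀ i c, dd B (v i) c ∈ L := by
    intro i c
    have h4 := hU (R (v i)) (fun j => (hR _ _).2 (dv i j)) fun j => (hR _ _).2 (hvw' i j)
    rw [← hR, h4]
    exact Submodule.mem_top
  have r2 : ∀ i c, dd B (w i) c ∈ L := by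
    intro i c
    have h4 := hU (R (w i)) (fun j => (hR _ _).2 (by rw [dd_swap]; exact L.neg_mem (hvw' j i)))
      fun j => (hR _ _).2 (dw i j)
    rw [← hR, h4]
    exact Submodule.mem_top
  have r3 : ∀ a c, dd B a c ∈ L := by
    intro a c
    have h4 := hU (R c) (fun j => (hR _ _).2 (by rw [dd_swap]; exact L.neg_mem (r1 j c)))
      fun j => (hR _ _).2 (by rw [dd_swap]; exact L.neg_mem (r2 j c))
    have h5 : a ∈ R c := by
      rw [h4]
      exact Submodule.mem_top
    rw [dd_swap]
    exact L.neg_mem h5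
  exact so_of_dd h.lie h.irr h.tr nd hsym hinv r3 hX

end Pool.Agent.H86N
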