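import Pool.Agent.Lib.H86N.Base

/-! Chunk EXT: cut-off. -/

open Filter Topology
open scoped ContDiff

namespace H86N

theorem ext_general {E : Type} [NormedAddCommGroup E] [NormedSpace ℝ E] [FiniteDimensional ℝ E]
    {F : E → ℝ} {U : Set E} (hU : IsOpen U) (h0 : (0 : E) ∈ U) (hF : ContDiffOn ℝ ∞ F U) :
    ∃ G : E → ℝ, ContDiff ℝ ∞ G ∧ ∀ᶠ z in 𝓝 (0 : E), G z = F z := by
  obtain ⟨r, hr, hrU⟩ := Metric.isOpen_iff.1 hU 0 h0
  let χ : ContDiffBump (0 : E) := ⟨r / 4, r / 2, by positivity, by linarith⟩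
  refine ⟨fun z => χ z * F z, ?_, ?_⟩
  · rw [contDiff_iff_contDiffAt]
    intro z
    by_cases hz : z ∈ U
    · exact χ.contDiffAt.mul (hF.contDiffAt (hU.mem_nhds hz))
    · have h1 : z ∈ (Metric.closedBall (0 : E) (r / 2))ᶜ := by
        intro h
        apply hz
        apply hrU
        exact Metric.closedBall_subset_ball (by linarith) h
      have h2 : (fun z => χ z * F z) =ᶠ[𝓝 z] fun _ => (0 : ℝ) := by
        filter_upwards [Metric.isClosed_closedBall.isOpen_compl.mem_nhds h1] with w hw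
        have h3 : χ w = 0 := by
          apply χ.zero_of_le_dist
          have h4 : w ∉ Metric.closedBall (0 : E) (r / 2) := hw
          rw [Metric.mem_closedBall, not_le] at h4
          exact h4.le
        rw [h3, zero_mul]
      exact contDiffAt_const.congr_of_eventuallyEq h2
  · filter_upwards [χ.eventuallyEq_one] with z hz
    have hz' : χ z = 1 := hz
    rw [hz', one_mul]

/-- Take a `ContDiffBump (0 : ℝ × ℝ)` supported in a ball contained in the open set `U` of
`SmoothNear` (`HasContDiffBump` holds for finite dimensional spaces) and multiply: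
`G z = χ z * F z`. It is smooth at every point of `U` (product) and it is locally zero at every point
outside the (closed) support of `χ`. -/
theorem exists_sm_ext {F : ℝ × ℝ → ℝ} (hF : SmoothNear F) :
    ∃ G : ℝ × ℝ → ℝ, Sm G ∧ ∀ᶠ z in 𝓝 (0 : ℝ × ℝ), G z = F z := by
  obtain ⟨U, hU, h0, h⟩ := hF
  exact ext_general hU h0 h

/-- the same in one variable (on an open set around `0`) -/
theorem exists_sm1_ext {φ : ℝ → ℝ} {U : Set ℝ} (hU : IsOpen U) (h0 : (0 : ℝ) ∈ U)
    (hφ : ContDiffOn ℝ ∞ φ U) : ∃ ψ : ℝ → ℝ, Sm1 ψ ∧ ∀ᶠ t in 𝓝 (0 : ℝ), ψ t = φ t :=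
  ext_general hU h0 hφ

end H86N
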