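import Pool.Agent.Lib.H86N.Base

/-! Chunk FXY: `f_xy(0) = 0` if `f_yy(0) = 0`. -/

open Filter Topology Asymptotics
open scoped ContDiff

namespace H86N

/-- Apply `∂_x` to the identity at `0` (`f_x(0) = 0` from the identity at `0`, `f_y(0) = 0`):
`g(0) f_xy(0) = f_xx(0) (0 - 0) + 0 (1 - f_xx(0)) - 0 = 0`. Apply `∂_y^2` at `0`:
`g(0) f_yyy(0) = - 2 f_xy(0)^2` (all other terms vanish because `f_x(0) = f_y(0) = f_yy(0) = 0`). If
`f_xy(0) ≠ 0` the first gives `g(0) = 0` and the second gives a contradiction. -/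
theorem fxy_zero {f g : ℝ × ℝ → ℝ} (hf : Sm f) (hg : Sm g)
    (hI : ∀ᶠ z in 𝓝 (0 : ℝ × ℝ), dx f z * (z.1 - dx f z) - f z = g z * dy f z)
    (h0 : f 0 = 0) (h1 : dx f 0 = 0) (h2 : dy f 0 = 0) (h4 : dy (dy f) 0 = 0) :
    dy (dx f) 0 = 0 := by
  have hfx := hf.dx
  have hfy := hf.dy
  have hs : Sm (fun z : ℝ × ℝ => z.1 - dx f z) := sm_fst.sub hfx
  have hm : Sm (fun z : ℝ × ℝ => dx f z * (z.1 - dx f z)) := hfx.mul hs
  have hL : (fun z : ℝ × ℝ => dx f z * (z.1 - dx f z) - f z) =ᶠ[𝓝 0] fun z => g z * dy f z := hI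
  -- the derivative in x at 0
  have e1 := (germ_dx hL).eq_of_nhds
  rw [dx_sub hm hf, dx_mul hfx hs, dx_sub sm_fst hfx, dx_mul hg hfy, dx_fst, dx_dy hf] at e1
  have z1 : ((0 : ℝ × ℝ)).1 = 0 := rfl
  simp only [h1, h2, z1] at e1
  have e1' : g 0 * dy (dx f) 0 = 0 := by linarith
  -- the derivative in y near 0
  have e2 : (fun z : ℝ × ℝ => dy (dx f) z * (z.1 - dx f z) + dx f z * (0 - dy (dx f) z) - dy f z)
      =ᶠ[𝓝 0] fun z => dy g z * dy f z + g z * dy (dy f) z := by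
    filter_upwards [germ_dy hL] with z hz
    rw [dy_sub hm hf, dy_mul hfx hs, dy_sub sm_fst hfx, dy_mul hg hfy, dy_fst] at hz
    exact hz
  have hA : Sm (fun z : ℝ × ℝ => dy (dx f) z * (z.1 - dx f z)) := hfx.dy.mul hs
  have hz0 : Sm (fun z : ℝ × ℝ => 0 - dy (dx f) z) := contDiff_const.sub hfx.dy
  have hB : Sm (fun z : ℝ × ℝ => dx f z * (0 - dy (dx f) z)) := hfx.mul hz0
  have hAB : Sm (fun z : ℝ × ℝ => dy (dx f) z * (z.1 - dx f z) + dx f z * (0 - dy (dx f) z)) :=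
    hA.add hB
  have hC : Sm (fun z : ℝ × ℝ => dy g z * dy f z) := hg.dy.mul hfy
  have hD : Sm (fun z : ℝ × ℝ => g z * dy (dy f) z) := hg.mul hfy.dy
  have e3 := (germ_dy e2).eq_of_nhds
  rw [dy_sub hAB hfy, dy_add hA hB, dy_mul hfx.dy hs, dy_mul hfx hz0, dy_sub sm_fst hfx,
    dy_sub contDiff_const hfx.dy, dy_add hC hD, dy_mul hg.dy hfy, dy_mul hg hfy.dy, dy_fst,
    dy_const] at e3
  simp only [h1, h2, h4, z1] at e3
  by_contra hne
  have hg0 : g 0 = 0 := by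
    rcases mul_eq_zero.1 e1' with h | h
    · exact h
    · exact absurd h hne
  rw [hg0] at e3
  have : (dy (dx f) 0) ^ 2 = 0 := by nlinarith [e3]
  exact hne (pow_eq_zero_iff (two_ne_zero) |>.1 this)

end H86N
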