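import Pool.Agent.Lib.H86N.Leg

/-! Chunk LEGA: linearisation, `f_xx(0) ≠ 0`. -/

open Filter Topology Asymptotics
open scoped ContDiff

namespace H86N

/-- The linearisation, case `f_xx(0) ≠ 0`: `v = f`, `T = f_x`, `Q = t^2 - vs`,
`Q_t = 2 t - X`, `Q_y = f_y(X,y)`, `G = - g(X, y)`:
`f_x (x - f_x) - f = g f_y` at `(X(t,y), y)` is `t X - t^2 - f = g Q_y`, i.e. `- Q = g(X,y) Q_y`.
`- x = Q_t(T,y) - 2 T`; `f = x T - vs(T,y) = x T - T^2 + Q(T,y)`, so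
`f - x^2/4 = Q - (T - x/2)^2 = Q - Q_t^2/4`. `Q_ty(0) = - X_y(0) = 0` because
`v_xx X_y + v_xy = 0`, and `Q_yy(0) = f_xy(0) X_y(0) + f_yy(0) = 0`. If `Q` were flat, `Q_y` would be flat and
`f_y(z) = Q_y(T z, z.2)` near `0` too. -/
theorem leg_A {f g : ℝ × ℝ → ℝ} (hf : Sm f) (hg : Sm g)
    (hI : ∀ᶠ z in 𝓝 (0 : ℝ × ℝ), dx f z * (z.1 - dx f z) - f z = g z * dy f z)
    (h0 : f 0 = 0) (h1 : dx f 0 = 0) (h2 : dy f 0 = 0) (h3 : dy (dx f) 0 = 0)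
    (h4 : dy (dy f) 0 = 0) (hnf : ¬ Flat (dy f)) (h5 : dx (dx f) 0 ≠ 0) :
    ∃ Q T G : ℝ × ℝ → ℝ, Sm Q ∧ Sm T ∧ Sm G ∧ T 0 = 0 ∧ dy T 0 = 0 ∧ dx T 0 ≠ 0 ∧
      PDE 0 1 G Q ∧ ¬ Flat Q ∧ Q 0 = 0 ∧ dx Q 0 = 0 ∧ dy Q 0 = 0 ∧ dy (dx Q) 0 = 0 ∧
      dy (dy Q) 0 = 0 ∧
      (∀ᶠ z in 𝓝 (0 : ℝ × ℝ), (-1) * z.1 = dx Q (T z, z.2) - 2 * T z) ∧
      (∀ᶠ z in 𝓝 (0 : ℝ × ℝ), f z = z.1 ^ 2 / 4 + (Q (T z, z.2) - (dx Q (T z, z.2)) ^ 2 / 4)) := by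
  obtain ⟨X, hX, hX0, hX1, hX2, hX3, hX4⟩ := legendre hf h1 h5
  have hXy : dy X 0 = 0 := leg_Xy hf hX hX0 hX1 h5 h3
  have e0 : ((0 : ℝ), (0 : ℝ × ℝ).2) = 0 := rfl
  have hvs : Sm (fun w => X w * w.1 - f (X w, w.2)) := (hX.mul sm_fst).sub (hf.comp2 hX sm_snd)
  have hsq : Sm (fun w : ℝ × ℝ => w.1 ^ 2) := sm_fst.pow 2
  set Q : ℝ × ℝ → ℝ := fun w => w.1 ^ 2 - (X w * w.1 - f (X w, w.2)) with hQdef
  have hQ : Sm Q := hsq.sub hvs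
  have hQx : ∀ᶠ z in 𝓝 (0 : ℝ × ℝ), dx Q z = 2 * z.1 - X z := by
    filter_upwards [hX3] with z hz
    rw [hQdef, dx_sub hsq hvs, dx_pow sm_fst, dx_fst, hz]
    norm_num
  have hQy : ∀ᶠ z in 𝓝 (0 : ℝ × ℝ), dy Q z = dy f (X z, z.2) := by
    filter_upwards [hX4] with z hz
    rw [hQdef, dy_sub hsq hvs, dy_pow sm_fst, dy_fst, hz]
    ring
  have hT : Sm (dx f) := hf.dx
  have cT : Continuous (dx f) := hT.continuous
  have cX : Continuous X := hX.continuous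
  have hIX := ev_comp2 hI cX continuous_snd hX0 rfl
  have hQxT := ev_comp2 hQx cT continuous_snd h1 rfl
  have hQyT := ev_comp2 hQy cT continuous_snd h1 rfl
  refine ⟨Q, dx f, fun z => - g (X z, z.2), hQ, hT, (hg.comp2 hX sm_snd).neg, h1, h3, h5,
    ?_, ?_, ?_, ?_, ?_, ?_, ?_, ?_, ?_⟩
  · unfold PDE
    filter_upwards [hQy, hIX, hX1] with z a b c
    rw [a]
    rw [c] at b
    show 0 * (z.1 * dx Q z) + - g (X z, z.2) * dy f (X z, z.2) =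
      1 * (z.1 ^ 2 - (X z * z.1 - f (X z, z.2)))
    linarith
  · intro hfl
    apply hnf
    have h := flat_comp (flat_dy hQ hfl) hT sm_snd h1 rfl
    refine h.congr ?_
    filter_upwards [hQyT, hX2] with z a b
    rw [a, b]
  · show (0 : ℝ × ℝ).1 ^ 2 - (X 0 * (0 : ℝ × ℝ).1 - f (X 0, (0 : ℝ × ℝ).2)) = 0
    rw [hX0, e0, h0]
    simp
  · rw [hQx.self_of_nhds, hX0]
    simp
  · rw [hQy.self_of_nhds, hX0, e0, h2]
  · have h := (germ_dy (F := dx Q) (G := fun z => 2 * z.1 - X z) hQx).self_of_nhds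
    rw [h, dy_sub (contDiff_const.mul sm_fst) hX, dy_mul contDiff_const sm_fst, dy_const, dy_fst,
      hXy]
    ring
  · have h := (germ_dy (F := dy Q) (G := fun z => dy f (X z, z.2)) hQy).self_of_nhds
    rw [h, dy_comp2 hf.dy hX sm_snd, dy_snd, hX0, e0, hXy, h4]
    ring
  · filter_upwards [hQxT, hX2] with z a b
    rw [a, b]
    ring
  · filter_upwards [hQxT, hX2] with z a b
    rw [a, b]
    show f z = z.1 ^ 2 / 4 + ((dx f z) ^ 2 - (X (dx f z, z.2) * dx f z - f (X (dx f z, z.2), z.2)) -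
      (2 * dx f z - z.1) ^ 2 / 4)
    rw [b]
    have : f (z.1, z.2) = f z := rfl
    rw [this]
    ring

end H86N
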