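import Pool.Agent.Lib.H86N.Leg

/-! Chunk LEGP: linearisation, `f_xx(0) = 0`. -/

open Filter Topology Asymptotics
open scoped ContDiff

namespace H86N

/-- The linearisation, case `f_xx(0) = 0`: `v = u = f - x^2/4` (`u_xx(0) = -1/2`), `T = u_x = f_x - x/2`,
`Q = vs + t^2`, `Q_t = X + 2 t`, `Q_y = - f_y(X,y)`, `G = - g(X,y)`. The identity is
`- (u + u_x^2) = g u_y`; at `(X,y)`: `u = X t - vs = X t - Q + t^2`, so `u + u_x^2 = t (X + 2t) - Q = t Q_t - Q`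
and `t Q_t - Q = g Q_y`. `x = Q_t(T,y) - 2T`; `f = u + x^2/4 = x T - Q + T^2 + x^2/4 = (T + x/2)^2 - Q = Q_t^2/4 - Q`. The
remaining statements as in `leg_A`. -/
theorem leg_P {f g : ℝ × ℝ → ℝ} (hf : Sm f) (hg : Sm g)
    (hI : ∀ᶠ z in 𝓝 (0 : ℝ × ℝ), dx f z * (z.1 - dx f z) - f z = g z * dy f z)
    (h0 : f 0 = 0) (h1 : dx f 0 = 0) (h2 : dy f 0 = 0) (h3 : dy (dx f) 0 = 0)
    (h4 : dy (dy f) 0 = 0) (hnf : ¬ Flat (dy f)) (h5 : dx (dx f) 0 = 0) :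
    ∃ Q T G : ℝ × ℝ → ℝ, Sm Q ∧ Sm T ∧ Sm G ∧ T 0 = 0 ∧ dy T 0 = 0 ∧ dx T 0 ≠ 0 ∧
      PDE 1 1 G Q ∧ ¬ Flat Q ∧ Q 0 = 0 ∧ dx Q 0 = 0 ∧ dy Q 0 = 0 ∧ dy (dx Q) 0 = 0 ∧
      dy (dy Q) 0 = 0 ∧
      (∀ᶠ z in 𝓝 (0 : ℝ × ℝ), 1 * z.1 = dx Q (T z, z.2) - 2 * T z) ∧
      (∀ᶠ z in 𝓝 (0 : ℝ × ℝ), f z = - (Q (T z, z.2) - (dx Q (T z, z.2)) ^ 2 / 4)) := by
  have hq : Sm (fun w : ℝ × ℝ => w.1 ^ 2 / 4) := (sm_fst.pow 2).div_const 4
  set u : ℝ × ℝ → ℝ := fun w => f w - w.1 ^ 2 / 4 with hudef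
  have hu : Sm u := hf.sub hq
  have hqx : ∀ z, dx (fun w : ℝ × ℝ => w.1 ^ 2 / 4) z = z.1 / 2 := by
    intro z
    have e : (fun w : ℝ × ℝ => w.1 ^ 2 / 4) = fun w => (1 / 4 : ℝ) * w.1 ^ 2 := by
      funext w; ring
    rw [e, dx_mul contDiff_const (sm_fst.pow 2), dx_const, dx_pow sm_fst, dx_fst]
    ring
  have hqy : ∀ z, dy (fun w : ℝ × ℝ => w.1 ^ 2 / 4) z = 0 := by
    intro z
    have e : (fun w : ℝ × ℝ => w.1 ^ 2 / 4) = fun w => (1 / 4 : ℝ) * w.1 ^ 2 := by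
      funext w; ring
    rw [e, dy_mul contDiff_const (sm_fst.pow 2), dy_const, dy_pow sm_fst, dy_fst]
    ring
  have hux : ∀ z, dx u z = dx f z - z.1 / 2 := by
    intro z
    rw [hudef, dx_sub hf hq, hqx]
  have huy : ∀ z, dy u z = dy f z := by
    intro z
    rw [hudef, dy_sub hf hq, hqy, sub_zero]
  have hhalf : Sm (fun w : ℝ × ℝ => w.1 / 2) := sm_fst.div_const 2
  have ehalf : (fun w : ℝ × ℝ => w.1 / 2) = fun w => (1 / 2 : ℝ) * w.1 := by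
    funext w; ring
  have hux' : dx u = fun z => dx f z - z.1 / 2 := funext hux
  have hu1 : dx u 0 = 0 := by
    rw [hux, h1]; simp
  have hu2 : dx (dx u) 0 ≠ 0 := by
    rw [hux', dx_sub hf.dx hhalf, h5, ehalf, dx_mul contDiff_const sm_fst, dx_const, dx_fst]
    norm_num
  have hu3 : dy (dx u) 0 = 0 := by
    rw [hux', dy_sub hf.dx hhalf, h3, ehalf, dy_mul contDiff_const sm_fst, dy_const, dy_fst]
    norm_num
  obtain ⟨X, hX, hX0, hX1, hX2, hX3, hX4⟩ := legendre hu hu1 hu2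
  have hXy : dy X 0 = 0 := leg_Xy hu hX hX0 hX1 hu2 hu3
  have e0 : ((0 : ℝ), (0 : ℝ × ℝ).2) = 0 := rfl
  have hvs : Sm (fun w => X w * w.1 - u (X w, w.2)) := (hX.mul sm_fst).sub (hu.comp2 hX sm_snd)
  have hsq : Sm (fun w : ℝ × ℝ => w.1 ^ 2) := sm_fst.pow 2
  set Q : ℝ × ℝ → ℝ := fun w => (X w * w.1 - u (X w, w.2)) + w.1 ^ 2 with hQdef
  have hQ : Sm Q := hvs.add hsq
  have hQx : ∀ᶠ z in 𝓝 (0 : ℝ × ℝ), dx Q z = X z + 2 * z.1 := by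
    filter_upwards [hX3] with z hz
    rw [hQdef, dx_add hvs hsq, dx_pow sm_fst, dx_fst, hz]
    norm_num
  have hQy : ∀ᶠ z in 𝓝 (0 : ℝ × ℝ), dy Q z = - dy f (X z, z.2) := by
    filter_upwards [hX4] with z hz
    rw [hQdef, dy_add hvs hsq, dy_pow sm_fst, dy_fst, hz, huy]
    ring
  have hT : Sm (dx u) := hu.dx
  have cT : Continuous (dx u) := hT.continuous
  have cX : Continuous X := hX.continuous
  have hIX := ev_comp2 hI cX continuous_snd hX0 rfl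
  have hQxT := ev_comp2 hQx cT continuous_snd hu1 rfl
  have hQyT := ev_comp2 hQy cT continuous_snd hu1 rfl
  refine ⟨Q, dx u, fun z => - g (X z, z.2), hQ, hT, (hg.comp2 hX sm_snd).neg, hu1, hu3, hu2,
    ?_, ?_, ?_, ?_, ?_, ?_, ?_, ?_, ?_⟩
  · unfold PDE
    filter_upwards [hQx, hQy, hIX, hX1] with z d a b c
    rw [a, d]
    rw [hux] at c
    have c' : dx f (X z, z.2) = z.1 + X z / 2 := by linarith
    rw [c'] at b
    show 1 * (z.1 * (X z + 2 * z.1)) + - g (X z, z.2) * - dy f (X z, z.2) =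
      1 * ((X z * z.1 - (f (X z, z.2) - (X z) ^ 2 / 4)) + z.1 ^ 2)
    linear_combination (-1) * b
  · intro hfl
    apply hnf
    have h := flat_mul (flat_comp (flat_dy hQ hfl) hT sm_snd hu1 rfl)
      (continuous_const (y := (-1 : ℝ)))
    refine h.congr ?_
    filter_upwards [hQyT, hX2] with z a b
    rw [a, b]
    ring
  · show (X 0 * (0 : ℝ × ℝ).1 - (f (X 0, (0 : ℝ × ℝ).2) - (X 0) ^ 2 / 4)) +
      (0 : ℝ × ℝ).1 ^ 2 = 0
    rw [hX0, e0, h0]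
    simp
  · rw [hQx.self_of_nhds, hX0]
    simp
  · rw [hQy.self_of_nhds, hX0, e0, h2, neg_zero]
  · have h := (germ_dy (F := dx Q) (G := fun z => X z + 2 * z.1) hQx).self_of_nhds
    rw [h, dy_add hX (contDiff_const.mul sm_fst), dy_mul contDiff_const sm_fst, dy_const, dy_fst,
      hXy]
    ring
  · have h := (germ_dy (F := dy Q) (G := fun z => - dy f (X z, z.2)) hQy).self_of_nhds
    rw [h, dy_neg, dy_comp2 hf.dy hX sm_snd, dy_snd, hX0, e0, hXy, h4]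
    ring
  · filter_upwards [hQxT, hX2] with z a b
    rw [a, b]
    ring
  · filter_upwards [hQxT, hX2] with z a b
    rw [a, b]
    show f z = - (X (dx u z, z.2) * dx u z - (f (X (dx u z, z.2), z.2) -
      (X (dx u z, z.2)) ^ 2 / 4) + (dx u z) ^ 2 - (z.1 + 2 * dx u z) ^ 2 / 4)
    rw [b]
    have : f (z.1, z.2) = f z := rfl
    rw [this]
    ring

end H86N
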