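import Pool.Agent.Lib.H86N.Gron

/-! Chunk PEEL: the flat terms vanish if `g(0) ≠ 0` or `g_y(0) ≠ 0`. -/

open Filter Topology Asymptotics
open scoped ContDiff

namespace H86N

lemma peel_dx {B : ℝ × ℝ → ℝ} (hB : Sm B) (i : ℕ) (z : ℝ × ℝ) :
    z.1 * dx (fun w => w.1 ^ i * B w) z = z.1 ^ i * (i * B z + z.1 * dx B z) := by
  have hp : Sm (fun w : ℝ × ℝ => w.1 ^ i) := sm_fst.pow i
  rw [dx_mul hp hB, dx_pow sm_fst, dx_fst]
  rcases i with _ | i
  · simp
  · simp only [Nat.add_sub_cancel]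
    ring

lemma peel_dy {B : ℝ × ℝ → ℝ} (hB : Sm B) (i : ℕ) (z : ℝ × ℝ) :
    dy (fun w => w.1 ^ i * B w) z = z.1 ^ i * dy B z := by
  have hp : Sm (fun w : ℝ × ℝ => w.1 ^ i) := sm_fst.pow i
  rw [dy_mul hp hB, dy_pow sm_fst, dy_fst]
  simp

/-- Insert `F = x^i B`: `x^i (θ i B + θ x B_x + g B_y - κ B) = 0`, then `cancel_x`. -/
theorem pde_div {θ κ : ℝ} {g F B : ℝ × ℝ → ℝ} {i : ℕ} (hg : Sm g) (hB : Sm B)
    (hP : PDE θ κ g F) (hFB : ∀ᶠ z in 𝓝 (0 : ℝ × ℝ), F z = z.1 ^ i * B z) :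
    PDE θ (κ - θ * i) g B := by
  have h1 : dx F =ᶠ[𝓝 0] dx (fun w => w.1 ^ i * B w) := germ_dx hFB
  have h2 : dy F =ᶠ[𝓝 0] dy (fun w => w.1 ^ i * B w) := germ_dy hFB
  have hc : ∀ᶠ z in 𝓝 (0 : ℝ × ℝ),
      z.1 ^ i * (θ * (i * B z + z.1 * dx B z) + g z * dy B z) = z.1 ^ i * (κ * B z) := by
    filter_upwards [hP, hFB, h1, h2] with z hz hz0 hz1 hz2
    rw [hz1, hz2, peel_dx hB, peel_dy hB, hz0] at hz
    linear_combination hz
  have c1 : Continuous fun z => θ * (i * B z + z.1 * dx B z) + g z * dy B z := by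
    have := hB.continuous
    have := hB.dx.continuous
    have := hB.dy.continuous
    have := hg.continuous
    fun_prop
  have c2 : Continuous fun z => κ * B z := by
    have := hB.continuous
    fun_prop
  filter_upwards [cancel_x c1 c2 i hc] with z hz
  linear_combination hz

/-- Induction on `i` (generalising `F`, `φ`, `κ`). `i = 0`: nothing. `i + 1`: on `x = 0` the
equation says `g(0,y) φ_0'(y) = κ φ_0(y)`, so `φ_0 = 0` near `0` by `flat_zero`. Hence near `0`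
`F = x F¹`, `F¹ = ∑_{m<i} x^m φ_{m+1}(y) + x^i B` (a globally smooth function), `PDE θ (κ-θ) g F¹` by
`pde_div`, and the induction hypothesis gives `F¹ = x^i B`. -/
theorem peel_all {θ κ : ℝ} {g F B : ℝ × ℝ → ℝ} {i : ℕ} {φ : ℕ → ℝ → ℝ}
    (hg : Sm g) (hF : Sm F) (hP : PDE θ κ g F) (hD : Dec F i φ B)
    (h : g 0 ≠ 0 ∨ dy g 0 ≠ 0) : ∀ᶠ z in 𝓝 (0 : ℝ × ℝ), F z = z.1 ^ i * B z := by
  induction i generalizing F φ κ with
  | zero =>
    filter_upwards [hD.2.2.2] with z hz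
    simpa using hz
  | succ i ih =>
    obtain ⟨hB, hφ, hfl, hdec⟩ := hD
    have e0 : ∀ᶠ t in 𝓝 (0 : ℝ), F (0, t) = φ 0 t := by
      filter_upwards [ev_slice0 hdec] with t ht
      rw [ht, Finset.sum_range_succ']
      simp
    have e1 : ∀ᶠ t in 𝓝 (0 : ℝ), dy F (0, t) = deriv (φ 0) t := by
      have e2 : (fun t => F (0, t)) =ᶠ[𝓝 0] φ 0 := e0
      filter_upwards [e2.deriv] with t ht
      rw [← ht, deriv_slice0 hF]
    have hz : ∀ᶠ t in 𝓝 (0 : ℝ), φ 0 t = 0 := by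
      refine flat_zero (a := fun t => g (0, t)) (c := κ) hg.slice0 (hφ 0) ?_
        (hfl 0 (Nat.succ_pos i)) ?_
      · rcases h with h | h
        · exact Or.inl h
        · refine Or.inr ?_
          rw [deriv_slice0 hg]
          exact h
      · filter_upwards [e0, e1, ev_slice0 hP] with t h0 h1 h2
        rw [h0, h1] at h2
        simpa using h2
    set F1 : ℝ × ℝ → ℝ := fun z =>
      ∑ m ∈ Finset.range i, z.1 ^ m * φ (m + 1) z.2 + z.1 ^ i * B z with hF1
    have hs1 : Sm F1 := by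
      refine ContDiff.add ?_ ?_
      · refine ContDiff.sum fun m _ => ?_
        exact (sm_fst.pow m).mul ((hφ (m + 1)).comp1 sm_snd)
      · exact (sm_fst.pow i).mul hB
    have hFF : ∀ᶠ z in 𝓝 (0 : ℝ × ℝ), F z = z.1 ^ 1 * F1 z := by
      filter_upwards [hdec, ev_snd hz] with z h1 h2
      rw [h1, Finset.sum_range_succ', h2, hF1]
      simp only [pow_one, pow_zero, mul_zero, add_zero, mul_add, Finset.mul_sum]
      congr 1
      · refine Finset.sum_congr rfl fun m _ => ?_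
        ring
      · ring
    have hP1 := pde_div hg hs1 hP hFF
    have hD1 : Dec F1 i (fun m => φ (m + 1)) B :=
      ⟨hB, fun m => hφ (m + 1), fun m hm => hfl (m + 1) (Nat.succ_lt_succ hm),
        Eventually.of_forall fun z => rfl⟩
    have := ih hs1 hP1 hD1
    filter_upwards [this, hFF] with z h1 h2
    rw [h2, h1]
    ring

end H86N
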