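import Pool.Agent.Lib.H86N.Ord
import Pool.Agent.Lib.H86N.LeadD
import Pool.Agent.Lib.H86N.Peel

/-! Chunk SREG: the structure of the solutions, `g(0) ≠ 0`. -/

open Filter Topology Asymptotics
open scoped ContDiff

namespace H86N

/-- cancellation of a power of `t`, value at `0` -/
lemma sreg_cancel1 {A B : ℝ → ℝ} (hA : Continuous A) (hB : Continuous B) (n : ℕ)
    (h : ∀ᶠ t in 𝓝 (0 : ℝ), t ^ n * A t = t ^ n * B t) : A 0 = B 0 := by
  have h1 : ∀ᶠ t in 𝓝[≠] (0 : ℝ), A t = B t := by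
    filter_upwards [h.filter_mono nhdsWithin_le_nhds, self_mem_nhdsWithin] with t ht ht0
    exact mul_left_cancel₀ (pow_ne_zero n ht0) ht
  have h2 : Tendsto A (𝓝[≠] 0) (𝓝 (A 0)) := (hA.tendsto 0).mono_left nhdsWithin_le_nhds
  have h3 : Tendsto B (𝓝[≠] 0) (𝓝 (B 0)) := (hB.tendsto 0).mono_left nhdsWithin_le_nhds
  exact tendsto_nhds_unique (h2.congr' h1) h3

/-- Case `g(0) ≠ 0`. `order2`, `peel_all`, `pde_div`: `Q = t^i B`, `PDE θ (1-θi) g B`,
`B(0,y) = y^J ψ`. On `t = 0`: `g(0,y) b' = (1 - θ i) b`. If `J ≥ 1` then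
(`lead_deriv1`) `b' = y^(J-1) ψ₁`, `ψ₁(0) ≠ 0`, dividing by `y^(J-1)` gives
`g(0) ψ₁(0) = 0`; contradiction; so `J = 0`, `B(0) = ψ(0) ≠ 0`. `i = 0` contradicts `Q(0) = 0`; `i = 1`
contradicts `Q_t(0) = 0`. So `i ≥ 2`, `1 - θ i ≠ 0` and `B_y(0) = (1 - θ i) B(0)/g(0) ≠ 0`. -/
theorem struct_reg {θ : ℝ} {g Q : ℝ × ℝ → ℝ} (hθ : θ = 0 ∨ θ = 1) (hg : Sm g) (hQ : Sm Q)
    (hP : PDE θ 1 g Q) (hnf : ¬ Flat Q) (hg0 : g 0 ≠ 0) (h0 : Q 0 = 0) (h1 : dx Q 0 = 0) :
    SForm Q := by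
  obtain ⟨i, φ, B, J, ψ, hD, hb⟩ := order2 hQ hnf
  have hBs : Sm B := hD.1
  have hQB := peel_all hg hQ hP hD (Or.inl hg0)
  have hP' : PDE θ (1 - θ * i) g B := pde_div hg hBs hP hQB
  have hsl := ev_slice0 hP'
  have hJ : J = 0 := by
    by_contra hJ0
    have hJ1 : 1 ≤ J := Nat.one_le_iff_ne_zero.2 hJ0
    obtain ⟨ψ₁, hL, hψ₁⟩ := lead_deriv1 hBs.slice0 hb hJ1
    have hA : Continuous (fun t : ℝ => g (0, t) * ψ₁ t) :=
      (hg.slice0.continuous).mul hL.1.continuous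
    have hC : Continuous (fun t : ℝ => (1 - θ * i) * (t * ψ t)) :=
      continuous_const.mul (continuous_id.mul hb.1.continuous)
    have key : ∀ᶠ t in 𝓝 (0 : ℝ), t ^ (J - 1) * (g (0, t) * ψ₁ t)
        = t ^ (J - 1) * ((1 - θ * i) * (t * ψ t)) := by
      filter_upwards [hsl, hL.2.2, hb.2.2] with t h1 h2 h3
      rw [deriv_slice0 hBs] at h2
      have h4 : t ^ J = t ^ (J - 1) * t := by
        rw [← pow_succ]
        congr 1
        omega
      simp only [zero_mul, mul_zero, zero_add] at h1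
      rw [h2, h3, h4] at h1
      linear_combination h1
    have := sreg_cancel1 hA hC (J - 1) key
    simp only [zero_mul, mul_zero] at this
    have h5 : g (0, (0 : ℝ)) ≠ 0 := hg0
    have h6 : ψ₁ 0 ≠ 0 := hL.2.1
    exact (mul_ne_zero h5 h6) this
  subst hJ
  have hB0 : B 0 ≠ 0 := by
    have := hb.2.2.self_of_nhds
    simp only [pow_zero, one_mul] at this
    have h2 : B 0 = ψ 0 := this
    rw [h2]
    exact hb.2.1
  have hi : 2 ≤ i := by
    by_contra hlt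
    have hi01 : i = 0 ∨ i = 1 := by omega
    rcases hi01 with rfl | rfl
    · have := hQB.self_of_nhds
      simp only [pow_zero, one_mul] at this
      exact hB0 (this ▸ h0)
    · have hg1 : dx Q 0 = dx (fun z => z.1 * B z) 0 := by
        have : Q =ᶠ[𝓝 (0 : ℝ × ℝ)] fun z => z.1 * B z := by
          filter_upwards [hQB] with z hz
          simpa using hz
        exact (germ_dx this).self_of_nhds
      rw [dx_mul sm_fst hBs, dx_fst] at hg1
      simp only [Prod.fst_zero, zero_mul, add_zero, one_mul] at hg1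
      exact hB0 (hg1 ▸ h1)
  left
  refine ⟨i, B, hi, hBs, ?_, hQB⟩
  have h2 := hP'.self_of_nhds
  simp only [Prod.fst_zero, zero_mul, mul_zero, zero_add] at h2
  intro h3
  rw [h3, mul_zero] at h2
  have h4 : (1 - θ * (i : ℝ)) ≠ 0 := by
    rcases hθ with rfl | rfl
    · simp
    · have : (2 : ℝ) ≤ i := by exact_mod_cast hi
      intro h5
      linarith
  exact (mul_ne_zero h4 hB0) h2.symm

end H86N
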