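import Pool.Agent.Lib.H86N.Inv
import Pool.Agent.Lib.H86N.LeadD
import Pool.Agent.Lib.H86N.Div

/-! Chunk MZERO: `B = g B_y`, `B(0,y) = y^J ψ(y)`, `g(0) = 0`. -/

open Filter Topology Asymptotics
open scoped ContDiff

namespace H86N

lemma mzero_sm_sub {ρ : ℝ → ℝ} (hρ : Sm1 ρ) : Sm (fun z : ℝ × ℝ => z.2 - ρ z.1) :=
  sm_snd.sub (hρ.comp1 sm_fst)

lemma mzero_dy_sub {ρ : ℝ → ℝ} (hρ : Sm1 ρ) (z : ℝ × ℝ) :
    dy (fun z : ℝ × ℝ => z.2 - ρ z.1) z = 1 := by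
  rw [dy_sub (F := fun z : ℝ × ℝ => z.2) (G := fun z : ℝ × ℝ => ρ z.1) sm_snd (hρ.comp1 sm_fst),
    dy_snd, dy_comp1 hρ sm_fst, dy_fst, mul_zero, sub_zero]

/-- `g = (y - ρ x) m` near `0` with `m(0) = g_y(0)` -/
lemma mzero_factor {g : ℝ × ℝ → ℝ} {ρ : ℝ → ℝ} (hg : Sm g) (hρ : Sm1 ρ) (hρ0 : ρ 0 = 0)
    (h : ∀ᶠ x in 𝓝 (0 : ℝ), g (x, ρ x) = 0) :
    ∃ m : ℝ × ℝ → ℝ, Sm m ∧ m 0 = dy g 0 ∧
      ∀ᶠ z in 𝓝 (0 : ℝ × ℝ), g z = (z.2 - ρ z.1) * m z := by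
  obtain ⟨m, hm, hgm⟩ := had_curve hg hρ
  refine ⟨m, hm, ?_, ?_⟩
  · have hfun : g = fun z => g (z.1, ρ z.1) + (z.2 - ρ z.1) * m z := funext hgm
    have hs1 : Sm (fun z : ℝ × ℝ => g (z.1, ρ z.1)) := hg.comp2 sm_fst (hρ.comp1 sm_fst)
    have h1 : dy g 0 = dy (fun z => g (z.1, ρ z.1) + (z.2 - ρ z.1) * m z) 0 := by
      rw [← hfun]
    rw [h1, dy_add hs1 ((mzero_sm_sub hρ).mul hm),
      dy_comp2 (a := fun z : ℝ × ℝ => z.1) (b := fun z : ℝ × ℝ => ρ z.1) hg sm_fst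
        (hρ.comp1 sm_fst),
      dy_mul (mzero_sm_sub hρ) hm, mzero_dy_sub hρ, dy_comp1 hρ sm_fst, dy_fst]
    simp [hρ0]
  · filter_upwards [ev_fst h] with z hz
    rw [hgm z, hz, zero_add]

/-- the induction step: one more factor `y - ρ x` -/
lemma mzero_step {g B V m : ℝ × ℝ → ℝ} {ρ : ℝ → ℝ} {k : ℕ} (hm : Sm m) (hρ : Sm1 ρ)
    (hρ0 : ρ 0 = 0) (hgm : ∀ᶠ z in 𝓝 (0 : ℝ × ℝ), g z = (z.2 - ρ z.1) * m z)
    (hP : PDE 0 1 g B) (hV : Sm V) (hk : 1 - (k : ℝ) * m 0 ≠ 0)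
    (hBV : ∀ᶠ z in 𝓝 (0 : ℝ × ℝ), B z = (z.2 - ρ z.1) ^ k * V z) :
    ∃ V' : ℝ × ℝ → ℝ, Sm V' ∧
      ∀ᶠ z in 𝓝 (0 : ℝ × ℝ), B z = (z.2 - ρ z.1) ^ (k + 1) * V' z := by
  have hr := mzero_sm_sub hρ
  have hdB : dy B =ᶠ[𝓝 (0 : ℝ × ℝ)] fun z =>
      (k * (z.2 - ρ z.1) ^ (k - 1)) * V z + (z.2 - ρ z.1) ^ k * dy V z := by
    refine (germ_dy (show B =ᶠ[𝓝 (0 : ℝ × ℝ)] _ from hBV)).trans
      (Eventually.of_forall fun z => ?_)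
    change dy (fun w : ℝ × ℝ => (w.2 - ρ w.1) ^ k * V w) z = _
    rw [dy_mul (F := fun w : ℝ × ℝ => (w.2 - ρ w.1) ^ k) (hr.pow k) hV,
      dy_pow (F := fun w : ℝ × ℝ => w.2 - ρ w.1) hr, mzero_dy_sub hρ, mul_one]
  have hkey : ∀ᶠ z in 𝓝 (0 : ℝ × ℝ), (z.2 - ρ z.1) ^ k * V z
      = (z.2 - ρ z.1) ^ k * (k * m z * V z + (z.2 - ρ z.1) * m z * dy V z) := by
    filter_upwards [hP, hBV, hdB, hgm] with z h1 h2 h3 h4
    rw [h3, h4, h2] at h1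
    rcases Nat.eq_zero_or_pos k with hk0 | hk0
    · subst hk0
      simp only [Nat.cast_zero, zero_mul, pow_zero, one_mul, zero_add] at h1 ⊢
      linarith
    · obtain ⟨j, rfl⟩ : ∃ j, k = j + 1 := ⟨k - 1, by omega⟩
      simp only [Nat.add_sub_cancel] at h1 ⊢
      rw [pow_succ] at h1 ⊢
      linear_combination -h1
  have hc1 : Continuous (fun z : ℝ × ℝ => k * m z * V z + (z.2 - ρ z.1) * m z * dy V z) :=
    (((contDiff_const.mul hm).mul hV).add ((hr.mul hm).mul hV.dy)).continuous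
  have hVe := cancel_y hV.continuous hc1 k hkey
  have hcurve := ev_curve hVe (φ := fun t => t) (ψ := ρ) continuous_id hρ.continuous rfl hρ0
  have hne : ∀ᶠ x in 𝓝 (0 : ℝ), 1 - (k : ℝ) * m (x, ρ x) ≠ 0 := by
    have hcont : Continuous (fun x : ℝ => 1 - (k : ℝ) * m (x, ρ x)) :=
      continuous_const.sub (continuous_const.mul (hm.curve contDiff_id hρ).continuous)
    have h0 : (fun x : ℝ => 1 - (k : ℝ) * m (x, ρ x)) 0 ≠ 0 := by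
      simp only [hρ0]
      exact hk
    exact hcont.continuousAt.eventually_ne h0
  have hVc : ∀ᶠ x in 𝓝 (0 : ℝ), V (x, ρ x) = 0 := by
    filter_upwards [hcurve, hne] with x h1 h2
    simp only [sub_self, zero_mul, add_zero] at h1
    have : (1 - (k : ℝ) * m (x, ρ x)) * V (x, ρ x) = 0 := by linear_combination h1
    exact (mul_eq_zero.1 this).resolve_left h2
  obtain ⟨V', hV', hVV'⟩ := had_curve hV hρ
  refine ⟨V', hV', ?_⟩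
  filter_upwards [hBV, ev_fst hVc] with z h1 h2
  rw [h1, hVV' z, h2, zero_add, pow_succ]
  ring

/-- `J g_y(0) = 1` (compare `t^J ψ = g(0,t) (J t^(J-1) ψ + t^J ψ')`, or use `curve` with `i = 0`;
pass it as the hypothesis `hμ`), so there is a curve `ρ` with `g(x, ρ x) = 0`, `ρ 0 = 0`
(`imp_fun`), and `g = (y - ρ x) m`, `m(0) = 1/J` (`had_curve`). Claim by induction on `k ≤ J`:
`B = (y - ρ x)^k V_k` near `0`. Step: inserting, `V_k (1 - k m) = (y - ρ x) m (V_k)_y` near `0`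
(`cancel_y`). On the curve this is `V_k(x, ρ x) (1 - k m) = 0`, and `1 - k m(0) = 1 - k/J ≠ 0` for
`k < J`, so `V_k(x, ρ x) = 0` near `x = 0`, and `had_curve` gives `V_k = (y - ρ x) V_{k+1}`. -/
theorem lemM0 {g B : ℝ × ℝ → ℝ} {J : ℕ} {ψ : ℝ → ℝ} (hg : Sm g) (hB : Sm B)
    (hP : PDE 0 1 g B) (hg0 : g 0 = 0) (hμ : J * dy g 0 = 1)
    (hb : Lead (fun t => B (0, t)) J ψ) :
    ∃ (ρ : ℝ → ℝ) (V : ℝ × ℝ → ℝ), Sm1 ρ ∧ ρ 0 = 0 ∧ Sm V ∧ V 0 ≠ 0 ∧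
      ∀ᶠ z in 𝓝 (0 : ℝ × ℝ), B z = (z.2 - ρ z.1) ^ J * V z := by
  have hdg : dy g 0 ≠ 0 := by
    intro h
    rw [h, mul_zero] at hμ
    exact zero_ne_one hμ
  obtain ⟨ρ, hρ, hρ0, hgρ⟩ := imp_fun hg hg0 hdg
  obtain ⟨m, hm, hm0, hgm⟩ := mzero_factor hg hρ hρ0 hgρ
  have claim : ∀ k ≤ J, ∃ V : ℝ × ℝ → ℝ, Sm V ∧
      ∀ᶠ z in 𝓝 (0 : ℝ × ℝ), B z = (z.2 - ρ z.1) ^ k * V z := by
    intro k
    induction k with
    | zero =>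
      intro _
      exact ⟨B, hB, Eventually.of_forall fun z => by simp⟩
    | succ k ih =>
      intro hk
      obtain ⟨V, hV, hBV⟩ := ih (by omega)
      refine mzero_step hm hρ hρ0 hgm hP hV ?_ hBV
      rw [hm0]
      intro h
      have h2 : (J : ℝ) - k = J * (1 - k * dy g 0) := by
        rw [mul_sub, mul_one]
        have : (J : ℝ) * (k * dy g 0) = k * (J * dy g 0) := by ring
        rw [this, hμ, mul_one]
      rw [h, mul_zero] at h2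
      have h3 : (k : ℝ) < J := by exact_mod_cast hk
      linarith
  obtain ⟨V, hV, hBV⟩ := claim J le_rfl
  exact ⟨ρ, V, hρ, hρ0, hV, div_lead hρ0 hV hBV hb, hBV⟩

end H86N
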