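import Pool.Agent.Lib.H86N.Spec1
import Pool.Agent.Lib.H86N.LeadD

/-! Chunk SPEC: the special case `θ = κ = i = 1`. -/

open Filter Topology Asymptotics
open scoped ContDiff

namespace H86N

/-- Near `0` `F = φ_0(y) + x B`. With `b(y) = B(0,y)`: the equation on `x = 0` is
`g(0,y) φ_0'(y) = φ_0(y)`; its `x`-derivative on `x = 0` is (germs, `F_x(0,y) = b(y)`,
`F_y(0,y) = φ_0'(y)`, `F_xy(0,y) = b'(y)`) `b + g_x(0,y) φ_0' + g(0,y) b' = b`, i.e.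
`g(0,y) b' = - g_x(0,y) φ_0'`. Hence `|φ_0| |b'| = |g(0,y) φ_0' b'| = |g_x(0,y)| φ_0'²`, and
`|b'| ≥ c |y|^(J-1)` by `lead_deriv1`. Use `spec1` with `k = J - 1`. -/
theorem spec {g F B : ℝ × ℝ → ℝ} {J : ℕ} {φ : ℕ → ℝ → ℝ} {ψ : ℝ → ℝ}
    (hg : Sm g) (hF : Sm F) (hP : PDE 1 1 g F) (hD : Dec F 1 φ B)
    (hb : Lead (fun t => B (0, t)) J ψ) (hJ : 1 ≤ J) :
    ∀ᶠ z in 𝓝 (0 : ℝ × ℝ), F z = z.1 ^ 1 * B z := by
  obtain ⟨hB, hφ, hfl, hdec⟩ := hD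
  have hφ0 : Sm1 (φ 0) := hφ 0
  have hfl0 : Flat1 (φ 0) := hfl 0 (by norm_num)
  have hFB : F =ᶠ[𝓝 0] fun z => φ 0 z.2 + z.1 * B z := by
    filter_upwards [hdec] with z hz
    rw [hz]; simp
  have hp2 : Sm (fun z : ℝ × ℝ => φ 0 z.2) := hφ0.comp1 sm_snd
  have hxB : Sm (fun z : ℝ × ℝ => z.1 * B z) := sm_fst.mul hB
  have hxBx : Sm (fun z : ℝ × ℝ => z.1 * dx B z) := sm_fst.mul hB.dx
  have eFx : dx F =ᶠ[𝓝 0] fun z => B z + z.1 * dx B z := by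
    filter_upwards [germ_dx hFB] with z hz
    rw [hz, dx_add hp2 hxB, dx_comp1 hφ0 sm_snd, dx_mul sm_fst hB, dx_fst, dx_snd]
    ring
  have eFy : dy F =ᶠ[𝓝 0] fun z => deriv (φ 0) z.2 + z.1 * dy B z := by
    filter_upwards [germ_dy hFB] with z hz
    rw [hz, dy_add hp2 hxB, dy_comp1 hφ0 sm_snd, dy_mul sm_fst hB, dy_fst, dy_snd]
    ring
  have eFxy : dy (dx F) =ᶠ[𝓝 0] fun z => dy B z + z.1 * dy (dx B) z := by
    filter_upwards [germ_dy eFx] with z hz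
    rw [hz, dy_add hB hxBx, dy_mul sm_fst hB.dx, dy_fst]
    ring
  -- the equation and its x-derivative
  have eq0 : (fun z : ℝ × ℝ => z.1 * dx F z + g z * dy F z) =ᶠ[𝓝 0] F := by
    filter_upwards [hP] with z hz
    linarith
  have hxFx : Sm (fun z : ℝ × ℝ => z.1 * dx F z) := sm_fst.mul hF.dx
  have hgFy : Sm (fun z : ℝ × ℝ => g z * dy F z) := hg.mul hF.dy
  have eq1 : ∀ᶠ z in 𝓝 (0 : ℝ × ℝ),
      z.1 * dx (dx F) z + dx g z * dy F z + g z * dy (dx F) z = 0 := by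
    filter_upwards [germ_dx eq0] with z hz
    rw [dx_add hxFx hgFy, dx_mul sm_fst hF.dx, dx_mul hg hF.dy, dx_fst, dx_dy hF] at hz
    linarith
  -- on the line x = 0
  have s0 := ev_slice0 eq0
  have s1 := ev_slice0 eq1
  have sF := ev_slice0 hFB
  have sy := ev_slice0 eFy
  have sxy := ev_slice0 eFxy
  have hb1 : Sm1 (fun t => B (0, t)) := hB.slice0
  obtain ⟨ψ₁, ⟨hψ₁, hψ₁0, hlead⟩, -⟩ := lead_deriv1 hb1 hb hJ
    |>.imp fun ψ₁ h => (⟨⟨h.1.1, by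
      rw [h.2]
      exact mul_ne_zero (by exact_mod_cast (by omega : J ≠ 0)) hb.2.1, h.1.2.2⟩, trivial⟩ :
        (Sm1 ψ₁ ∧ ψ₁ 0 ≠ 0 ∧ ∀ᶠ t in 𝓝 (0 : ℝ), deriv (fun t => B (0, t)) t
          = t ^ (J - 1) * ψ₁ t) ∧ True)
  have hd : ∀ t, deriv (fun t => B (0, t)) t = dy B (0, t) := deriv_slice0 hB
  -- bounds
  have hψb : ∀ᶠ t in 𝓝 (0 : ℝ), |ψ₁ 0| / 2 < |ψ₁ t| := by
    have hc : Tendsto (fun t => |ψ₁ t|) (𝓝 0) (𝓝 |ψ₁ 0|) := (hψ₁.continuous.abs).tendsto 0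
    exact hc.eventually (lt_mem_nhds (by have := abs_pos.2 hψ₁0; linarith))
  have hgb : ∀ᶠ t in 𝓝 (0 : ℝ), |dx g (0, t)| < |dx g 0| + 1 := by
    have hc : Tendsto (fun t => |dx g (0, t)|) (𝓝 0) (𝓝 |dx g (0, 0)|) :=
      ((hg.dx.slice0).continuous.abs).tendsto 0
    exact hc.eventually (gt_mem_nhds (by
      have : dx g (0, 0) = dx g 0 := rfl
      rw [this]; linarith))
  have hpos : 0 < |ψ₁ 0| := abs_pos.2 hψ₁0
  have hz : ∀ᶠ t in 𝓝 (0 : ℝ), φ 0 t = 0 := by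
    apply spec1 (k := J - 1) (C := (|dx g 0| + 1) * (2 / |ψ₁ 0|)) hφ0 hfl0
    filter_upwards [s0, s1, sF, sy, sxy, hlead, hψb, hgb] with t t0 t1 tF ty txy tl tψ tg
    simp only [zero_mul, zero_add, add_zero] at t0 t1 tF ty txy
    rw [ty, tF] at t0
    rw [ty, txy] at t1
    rw [hd] at tl
    -- t0 : g φ' = φ, t1 : g_x φ' + g b' = 0
    have key : φ 0 t * dy B (0, t) = - dx g (0, t) * (deriv (φ 0) t) ^ 2 := by
      have h1 : g (0, t) * dy B (0, t) = - (dx g (0, t) * deriv (φ 0) t) := by linarith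
      calc φ 0 t * dy B (0, t) = (g (0, t) * dy B (0, t)) * deriv (φ 0) t := by
            rw [← t0]; ring
        _ = _ := by rw [h1]; ring
    have key2 : |φ 0 t| * |t| ^ (J - 1) * |ψ₁ t| = |dx g (0, t)| * (deriv (φ 0) t) ^ 2 := by
      have := congrArg abs key
      rw [tl, abs_mul, abs_mul, abs_mul, abs_neg, abs_pow, abs_pow, sq_abs] at this
      rw [← this]; ring
    have h3 : |φ 0 t| * |t| ^ (J - 1) * (|ψ₁ 0| / 2) ≤ (|dx g 0| + 1) * (deriv (φ 0) t) ^ 2 := by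
      calc |φ 0 t| * |t| ^ (J - 1) * (|ψ₁ 0| / 2) ≤ |φ 0 t| * |t| ^ (J - 1) * |ψ₁ t| :=
            mul_le_mul_of_nonneg_left tψ.le (by positivity)
        _ = _ := key2
        _ ≤ _ := mul_le_mul_of_nonneg_right tg.le (sq_nonneg _)
    have h4 : |φ 0 t| * |t| ^ (J - 1)
        = (|φ 0 t| * |t| ^ (J - 1) * (|ψ₁ 0| / 2)) * (2 / |ψ₁ 0|) := by
      field_simp
    rw [h4]
    calc (|φ 0 t| * |t| ^ (J - 1) * (|ψ₁ 0| / 2)) * (2 / |ψ₁ 0|)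
        ≤ ((|dx g 0| + 1) * (deriv (φ 0) t) ^ 2) * (2 / |ψ₁ 0|) :=
          mul_le_mul_of_nonneg_right h3 (by positivity)
      _ = _ := by ring
  filter_upwards [hFB, ev_snd hz] with z h1 h2
  rw [h1, h2]; ring

end H86N
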