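import Pool.Agent.Lib.H86N.Curve
import Pool.Agent.Lib.H86N.Peel
import Pool.Agent.Lib.H86N.Spec
import Pool.Agent.Lib.H86N.MZero
import Pool.Agent.Lib.H86N.M
import Pool.Agent.Lib.H86N.Root

/-! Chunk SSING: the structure of the solutions, `g(0) = 0`. -/

open Filter Topology Asymptotics
open scoped ContDiff

namespace H86N

/-- `x`-derivative of `x B` near `0` -/
lemma ssing_dx_mul {Q B : ℝ × ℝ → ℝ} (hB : Sm B)
    (h : ∀ᶠ z in 𝓝 (0 : ℝ × ℝ), Q z = z.1 * B z) :
    dx Q =ᶠ[𝓝 (0 : ℝ × ℝ)] fun z => B z + z.1 * dx B z := by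
  have h' : Q =ᶠ[𝓝 (0 : ℝ × ℝ)] fun z => z.1 * B z := h
  refine (germ_dx h').trans (Eventually.of_forall fun z => ?_)
  change dx (fun w : ℝ × ℝ => w.1 * B w) z = _
  rw [dx_mul sm_fst hB, dx_fst, one_mul]

/-- `Q = x B` near `0` gives `Q_xy(0) = B_y(0)` -/
lemma ssing_dydx_mul {Q B : ℝ × ℝ → ℝ} (hB : Sm B)
    (h : ∀ᶠ z in 𝓝 (0 : ℝ × ℝ), Q z = z.1 * B z) : dy (dx Q) 0 = dy B 0 := by
  have h1 := (germ_dy (ssing_dx_mul hB h)).self_of_nhds
  rw [h1]
  change dy (fun w : ℝ × ℝ => B w + w.1 * dx B w) 0 = _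
  rw [dy_add (G := fun w : ℝ × ℝ => w.1 * dx B w) hB (sm_fst.mul hB.dx),
    dy_mul sm_fst hB.dx, dy_fst]
  simp

/-- `Q = ε H^2` near `0`, `H(0) = 0`: `Q_yy(0) = 2 ε H_y(0)^2` -/
lemma ssing_dydy_sq {Q H : ℝ × ℝ → ℝ} {ε : ℝ} (hH : Sm H) (hH0 : H 0 = 0)
    (h : ∀ᶠ z in 𝓝 (0 : ℝ × ℝ), Q z = ε * H z ^ 2) : dy (dy Q) 0 = 2 * ε * dy H 0 ^ 2 := by
  have h' : Q =ᶠ[𝓝 (0 : ℝ × ℝ)] fun z => ε * H z ^ 2 := h
  have hH2 : Sm (fun z => H z ^ 2) := hH.pow 2
  have h1 : dy Q =ᶠ[𝓝 (0 : ℝ × ℝ)] fun z => (2 * ε) * (H z * dy H z) := by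
    refine (germ_dy h').trans (Eventually.of_forall fun z => ?_)
    change dy (fun w : ℝ × ℝ => ε * H w ^ 2) z = _
    rw [dy_mul (F := fun _ => ε) contDiff_const hH2, dy_const, dy_pow hH]
    simp
    ring
  rw [(germ_dy h1).self_of_nhds]
  change dy (fun w : ℝ × ℝ => (2 * ε) * (H w * dy H w)) 0 = _
  rw [dy_mul (F := fun _ => 2 * ε) (G := fun w => H w * dy H w) contDiff_const (hH.mul hH.dy),
    dy_const, dy_mul hH hH.dy, hH0]
  ring

/-- Case `g(0) = 0`. `order2` gives `i, φ, B, J, ψ`; `curve`: `θ i + J μ = 1`, `μ = g_y(0)`.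

`J = 0`: then `θ = 1`, `i = 1`, and near `0` `Q = φ_0(y) + t B`, so `Q_t(0) = B(0) = ψ(0) ≠ 0`,
contradiction. So `J ≥ 1`.

If `μ ≠ 0`, `peel_all` gives `Q = t^i B`. If `μ = 0` then `θ = 1`, `i = 1`, and `spec` gives `Q = t B`. In all
cases `Q = t^i B`, `PDE θ (1 - θ i) g B` (`pde_div`).

`J = 1`: `B_y(0) = ψ(0) ≠ 0`; `i = 0` contradicts `Q_y(0) = 0`, `i = 1` contradicts `Q_ty(0) = 0`; `i ≥ 2` is the
first alternative of `SForm`.

`J ≥ 2`: `θ = 0`: `J μ = 1`, `lemM0`. `θ = 1`: `lemM` with `κ = 1 - i = J μ`; for `m + 2 ≤ J`: if `i = 0` then `μ = 1/J`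
and `κ - m μ = 1 - m/J < 1` for `m ≥ 1`, for `m = 0` use `κ = 1`, `B_t(0) = Q_t(0) = 0`; if `i ≥ 1` then
`κ ≤ 0`, `μ ≤ 0` and `κ - m μ = κ (1 - m/J) ≤ 0`. Then `pow_form`. If `i = 0` then `Q = ε H^J` and `J = 2` would give
`Q_yy(0) = 2 ε H_y(0)^2 ≠ 0`, contradiction; so `J ≥ 3`. -/
theorem struct_sing {θ : ℝ} {g Q : ℝ × ℝ → ℝ} (hθ : θ = 0 ∨ θ = 1) (hg : Sm g) (hQ : Sm Q)
    (hP : PDE θ 1 g Q) (hnf : ¬ Flat Q) (hg0 : g 0 = 0) (h1 : dx Q 0 = 0)
    (h2 : dy Q 0 = 0) (h3 : dy (dx Q) 0 = 0) (h4 : dy (dy Q) 0 = 0) :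
    SForm Q := by
  obtain ⟨i, φ, B, J, ψ, hD, hb⟩ := order2 hQ hnf
  have hBs : Sm B := hD.1
  have hc : θ * i + J * dy g 0 = 1 := curve hg hQ hP hD hb hg0
  -- `J ≠ 0`
  have hJ0 : J ≠ 0 := by
    intro hJ
    subst hJ
    simp only [Nat.cast_zero, zero_mul, add_zero] at hc
    have hθ1 : θ = 1 := by
      rcases hθ with h | h
      · rw [h] at hc; simp at hc
      · exact h
    subst hθ1
    have hi1 : i = 1 := by
      have : (i : ℝ) = 1 := by simpa using hc
      exact_mod_cast this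
    subst hi1
    have hB0 : B 0 ≠ 0 := by
      have := hb.2.2.self_of_nhds
      simp only [pow_zero, one_mul] at this
      have h2 : B 0 = ψ 0 := this
      rw [h2]
      exact hb.2.1
    have hQe : Q =ᶠ[𝓝 (0 : ℝ × ℝ)] fun z => φ 0 z.2 + z.1 * B z := by
      filter_upwards [hD.2.2.2] with z hz
      simpa using hz
    have hdx := (germ_dx hQe).self_of_nhds
    change dx Q 0 = dx (fun w : ℝ × ℝ => φ 0 w.2 + w.1 * B w) 0 at hdx
    rw [dx_add (F := fun w : ℝ × ℝ => φ 0 w.2) (G := fun w : ℝ × ℝ => w.1 * B w)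
      ((hD.2.1 0).comp1 sm_snd) (sm_fst.mul hBs), dx_comp1 (hD.2.1 0) sm_snd,
      dx_snd, dx_mul sm_fst hBs, dx_fst] at hdx
    simp only [mul_zero, one_mul, zero_add, Prod.fst_zero, zero_mul, add_zero] at hdx
    exact hB0 (hdx ▸ h1)
  have hJ1 : 1 ≤ J := Nat.one_le_iff_ne_zero.2 hJ0
  -- `Q = t^i B`
  have hQB : ∀ᶠ z in 𝓝 (0 : ℝ × ℝ), Q z = z.1 ^ i * B z := by
    by_cases hμ : dy g 0 = 0
    · rw [hμ, mul_zero, add_zero] at hc
      have hθ1 : θ = 1 := by
        rcases hθ with h | h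
        · rw [h] at hc; simp at hc
        · exact h
      subst hθ1
      have hi1 : i = 1 := by
        have : (i : ℝ) = 1 := by simpa using hc
        exact_mod_cast this
      subst hi1
      exact spec hg hQ hP hD hb hJ1
    · exact peel_all hg hQ hP hD (Or.inr hμ)
  have hP' : PDE θ (1 - θ * i) g B := pde_div hg hBs hP hQB
  have hQ0 : i = 0 → Q =ᶠ[𝓝 (0 : ℝ × ℝ)] B := by
    rintro rfl
    filter_upwards [hQB] with z hz
    simpa using hz
  rcases Nat.lt_or_ge J 2 with hJ2 | hJ2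
  · -- `J = 1`
    have hJe : J = 1 := by omega
    subst hJe
    have hdyB : dy B 0 ≠ 0 := by
      have := (lead_deriv hBs hb).2
      simpa using this
    left
    refine ⟨i, B, ?_, hBs, hdyB, hQB⟩
    by_contra hlt
    have hi01 : i = 0 ∨ i = 1 := by omega
    rcases hi01 with hi | hi
    · have := (germ_dy (hQ0 hi)).self_of_nhds
      exact hdyB (this ▸ h2)
    · subst hi
      have : dy (dx Q) 0 = dy B 0 := ssing_dydx_mul hBs (by
        filter_upwards [hQB] with z hz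
        simpa using hz)
      exact hdyB (this ▸ h3)
  · -- `J ≥ 2`
    have hV : ∃ (ρ : ℝ → ℝ) (V : ℝ × ℝ → ℝ), Sm1 ρ ∧ ρ 0 = 0 ∧ Sm V ∧ V 0 ≠ 0 ∧
        ∀ᶠ z in 𝓝 (0 : ℝ × ℝ), B z = (z.2 - ρ z.1) ^ J * V z := by
      rcases hθ with hθ0 | hθ1
      · subst hθ0
        have hP2 : PDE 0 1 g B := by simpa using hP'
        have hc2 : (J : ℝ) * dy g 0 = 1 := by simpa using hc
        exact lemM0 hg hBs hP2 hg0 hc2 hb
      · subst hθ1
        have hP2 : PDE 1 (1 - i) g B := by simpa using hP'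
        have hc2 : (J : ℝ) * dy g 0 = 1 - i := by linarith
        have hJpos : (0 : ℝ) < J := by
          have : 0 < J := by omega
          exact_mod_cast this
        refine lemM hg hBs hP2 hJ2 hb ?_
        intro m hm
        rcases Nat.eq_zero_or_pos i with hi | hi
        · subst hi
          have hμ : (0 : ℝ) < dy g 0 := by
            by_contra hneg
            push Not at hneg
            have : (J : ℝ) * dy g 0 ≤ 0 := mul_nonpos_of_nonneg_of_nonpos hJpos.le hneg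
            rw [hc2] at this
            simp at this
            linarith
          rcases Nat.eq_zero_or_pos m with hm0 | hm0
          · right
            refine ⟨hm0, by simp, ?_⟩
            have := (germ_dx (hQ0 rfl)).self_of_nhds
            exact this ▸ h1
          · left
            have : (0 : ℝ) < m := by exact_mod_cast hm0
            have := mul_pos this hμ
            simp only [Nat.cast_zero, sub_zero]
            linarith
        · left
          have hi1 : (1 : ℝ) ≤ i := by exact_mod_cast hi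
          have hμ : dy g 0 ≤ 0 := by
            by_contra hneg
            push Not at hneg
            have := mul_pos hJpos hneg
            linarith
          have hmJ : (m : ℝ) ≤ J := by
            have : m ≤ J := by omega
            exact_mod_cast this
          have : ((J : ℝ) - m) * dy g 0 ≤ 0 :=
            mul_nonpos_of_nonneg_of_nonpos (by linarith) hμ
          have e : (1 : ℝ) - i - m * dy g 0 = ((J : ℝ) - m) * dy g 0 := by
            rw [sub_mul, hc2]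
          rw [e]
          linarith
    obtain ⟨ρ, V, hρ, hρ0, hVs, hV0, hBV⟩ := hV
    obtain ⟨ε, H, hpf⟩ := pow_form hJ0 hρ hρ0 hVs hV0 hBV
    right
    refine ⟨i, J, ε, B, H, ?_, hpf, hQB⟩
    rcases Nat.eq_zero_or_pos i with hi | hi
    · left
      refine ⟨hi, ?_⟩
      by_contra hlt
      have hJe : J = 2 := by omega
      subst hJe
      have hQH : ∀ᶠ z in 𝓝 (0 : ℝ × ℝ), Q z = ε * H z ^ 2 := by
        filter_upwards [hQ0 hi, hpf.2.2.2.2] with z e1 e2
        rw [e1, e2]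
      have hyy := ssing_dydy_sq hpf.2.1 hpf.2.2.1 hQH
      rw [h4] at hyy
      have hne : 2 * ε * dy H 0 ^ 2 ≠ 0 := by
        have hε : ε ≠ 0 := by
          rcases hpf.1 with h | h <;> rw [h] <;> norm_num
        exact mul_ne_zero (mul_ne_zero two_ne_zero hε) (pow_ne_zero 2 hpf.2.2.2.1)
      exact hne hyy.symm
    · right
      exact ⟨hi, hJ2⟩

end H86N
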