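import Pool.Agent.Lib.H86N.Dense
import Pool.Agent.Lib.H86N.StructReg
import Pool.Agent.Lib.H86N.StructSing
import Pool.Agent.Lib.H86N.LegA
import Pool.Agent.Lib.H86N.LegP
import Pool.Agent.Lib.H86N.Conv1
import Pool.Agent.Lib.H86N.Conv2
import Pool.Agent.Lib.H86N.Conv3
import Pool.Agent.Lib.H86N.Conv4
import Pool.Agent.Lib.H86N.CaseI
import Pool.Agent.Lib.H86N.CaseIIa
import Pool.Agent.Lib.H86N.Fxy
import Pool.Agent.Lib.H86N.Back

/-! Chunk FINAL: assembly. -/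

open Filter Topology Asymptotics
open scoped ContDiff

namespace H86N

/-- the structure theorem, both cases -/
theorem sform {θ : ℝ} {g Q : ℝ × ℝ → ℝ} (hθ : θ = 0 ∨ θ = 1) (hg : Sm g) (hQ : Sm Q)
    (hP : PDE θ 1 g Q) (hnf : ¬ Flat Q) (h0 : Q 0 = 0) (h1 : dx Q 0 = 0)
    (h2 : dy Q 0 = 0) (h3 : dy (dx Q) 0 = 0) (h4 : dy (dy Q) 0 = 0) : SForm Q := by
  by_cases hg0 : g 0 = 0
  · exact struct_sing hθ hg hQ hP hnf hg0 h1 h2 h3 h4
  · exact struct_reg hθ hg hQ hP hnf hg0 h0 h1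

lemma powForm_of_zero {Q B H : ℝ × ℝ → ℝ} {ε : ℝ} {J : ℕ} (h : PowForm B ε J H)
    (hQ : ∀ᶠ z in 𝓝 (0 : ℝ × ℝ), Q z = z.1 ^ 0 * B z) : PowForm Q ε J H := by
  obtain ⟨h1, h2, h3, h4, h5⟩ := h
  refine ⟨h1, h2, h3, h4, ?_⟩
  filter_upwards [h5, hQ] with z a b
  rw [b, a]; ring

/-- `C - C(0)` -/
lemma shift_dy {C : ℝ × ℝ → ℝ} (hC : Sm C) (c : ℝ) : dy (fun z => C z - c) 0 = dy C 0 := by
  rw [dy_sub hC contDiff_const, dy_const, sub_zero]

/-- chunk CASEIIB -/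
theorem caseIIb {f g : ℝ × ℝ → ℝ} (hf : Sm f) (hg : Sm g)
    (hI : ∀ᶠ z in 𝓝 (0 : ℝ × ℝ), dx f z * (z.1 - dx f z) - f z = g z * dy f z)
    (h0 : f 0 = 0) (h1 : dx f 0 = 0) (h2 : dy f 0 = 0) (h3 : dy (dx f) 0 = 0)
    (h4 : dy (dy f) 0 = 0) (hnf : ¬ Flat (dy f)) : HasNormalForm f := by
  by_cases h5 : dx (dx f) 0 = 0
  · obtain ⟨Q, T, G, hQ, hT, hG, hT0, hTy, hTx, hP, hQnf, q0, q1, q2, q3, q4, hx, hfΔ⟩ :=
      leg_P hf hg hI h0 h1 h2 h3 h4 hnf h5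
    rcases sform (Or.inr rfl) hG hQ hP hQnf q0 q1 q2 q3 q4 with
      ⟨i, B, hi, hB, hB0, hQB⟩ | ⟨i, J, ε, B, H, hiJ, hpf, hQB⟩
    · obtain ⟨C, hC, hC0, hΔ⟩ := conv1 (Or.inl rfl) hi hQ hT hB hT0 hx hQB hB0
      refine ⟨_, NormalForm.E (- C 0) i hi, fun z => - (C z - C 0),
        SmoothNear.of_sm (hC.sub contDiff_const).neg, by simp, ?_, ?_⟩
      · rw [dy_neg, shift_dy hC]; exact neg_ne_zero.2 hC0
      · filter_upwards [hfΔ, hΔ] with z a b
        rw [a, b]; ring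
    · rcases hiJ with ⟨rfl, hJ⟩ | ⟨hi, hJ⟩
      · have hpf' := powForm_of_zero hpf hQB
        obtain ⟨Y, hY, hY0, hYy, hΔ⟩ := conv2 hJ hQ hT hT0 hTy hpf'
        refine ⟨_, NormalForm.A 0 (-ε) J ?_ (by omega), Y, SmoothNear.of_sm hY, hY0, hYy, ?_⟩
        · rcases hpf'.1 with h | h <;> simp [h]
        · filter_upwards [hfΔ, hΔ] with z a b
          rw [a, b]; ring
      · rcases Nat.lt_or_ge i 2 with hi2 | hi2
        · obtain rfl : i = 1 := by omega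
          obtain ⟨Y, hY, hY0, hYy, hΔ⟩ := conv3 (Or.inl rfl) hJ hQ hT hT0 hTy hx hQB hpf
          have hε2 : ε ^ 2 = 1 := by rcases hpf.1 with h | h <;> simp [h]
          refine ⟨_, NormalForm.D (-ε) J ?_ hJ, Y, SmoothNear.of_sm hY, hY0, hYy, ?_⟩
          · rcases hpf.1 with h | h <;> simp [h]
          · filter_upwards [hfΔ, hΔ] with z a b
            rw [a]
            linear_combination - b - (Y z ^ J) ^ 2 * hε2
        · obtain ⟨ε', Y, hε', hY, hY0, hYy, hΔ⟩ :=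
            conv4 (Or.inl rfl) hi2 hJ hQ hT hT0 hTy hx hQB hpf
          refine ⟨_, NormalForm.G (-ε') i J ?_ hi2 hJ, Y, SmoothNear.of_sm hY, hY0, hYy, ?_⟩
          · rcases hε' with h | h <;> simp [h]
          · filter_upwards [hfΔ, hΔ] with z a b
            rw [a, b]; ring
  · obtain ⟨Q, T, G, hQ, hT, hG, hT0, hTy, hTx, hP, hQnf, q0, q1, q2, q3, q4, hx, hfΔ⟩ :=
      leg_A hf hg hI h0 h1 h2 h3 h4 hnf h5
    rcases sform (Or.inl rfl) hG hQ hP hQnf q0 q1 q2 q3 q4 with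
      ⟨i, B, hi, hB, hB0, hQB⟩ | ⟨i, J, ε, B, H, hiJ, hpf, hQB⟩
    · obtain ⟨C, hC, hC0, hΔ⟩ := conv1 (Or.inr rfl) hi hQ hT hB hT0 hx hQB hB0
      rcases Nat.lt_or_ge i 3 with hi3 | hi3
      · obtain rfl : i = 2 := by omega
        refine ⟨_, NormalForm.E (1 / 4 + C 0) 2 le_rfl, fun z => C z - C 0,
          SmoothNear.of_sm (hC.sub contDiff_const), by simp, ?_, ?_⟩
        · rw [shift_dy hC]; exact hC0
        · filter_upwards [hfΔ, hΔ] with z a b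
          rw [a, b]; ring
      · refine ⟨_, NormalForm.F (C 0) i hi3, fun z => C z - C 0,
          SmoothNear.of_sm (hC.sub contDiff_const), by simp, ?_, ?_⟩
        · rw [shift_dy hC]; exact hC0
        · filter_upwards [hfΔ, hΔ] with z a b
          rw [a, b]; ring
    · rcases hiJ with ⟨rfl, hJ⟩ | ⟨hi, hJ⟩
      · have hpf' := powForm_of_zero hpf hQB
        obtain ⟨Y, hY, hY0, hYy, hΔ⟩ := conv2 hJ hQ hT hT0 hTy hpf'
        refine ⟨_, NormalForm.B ε J hpf'.1 (by omega), Y, SmoothNear.of_sm hY, hY0, hYy, ?_⟩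
        filter_upwards [hfΔ, hΔ] with z a b
        rw [a, b]
      · rcases Nat.lt_or_ge i 2 with hi2 | hi2
        · obtain rfl : i = 1 := by omega
          obtain ⟨Y, hY, hY0, hYy, hΔ⟩ := conv3 (Or.inr rfl) hJ hQ hT hT0 hTy hx hQB hpf
          refine ⟨_, NormalForm.C ε J hpf.1 hJ, Y, SmoothNear.of_sm hY, hY0, hYy, ?_⟩
          filter_upwards [hfΔ, hΔ] with z a b
          rw [a, b]; ring
        · obtain ⟨ε', Y, hε', hY, hY0, hYy, hΔ⟩ :=
            conv4 (Or.inr rfl) hi2 hJ hQ hT hT0 hTy hx hQB hpf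
          refine ⟨_, NormalForm.H ε' i J hε' hi2 hJ, Y, SmoothNear.of_sm hY, hY0, hYy, ?_⟩
          filter_upwards [hfΔ, hΔ] with z a b
          rw [a, b]

/-- the classification for globally smooth representatives -/
theorem forward_sm {f g : ℝ × ℝ → ℝ} (hf : Sm f) (hg : Sm g)
    (hI : ∀ᶠ z in 𝓝 (0 : ℝ × ℝ), dx f z * (z.1 - dx f z) - f z = g z * dy f z)
    (h2 : dy f 0 = 0) (hnf : ¬ Flat (dy f)) : HasNormalForm f := by
  by_cases h0 : f 0 = 0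
  · have h1 : dx f 0 = 0 := by
      have := hI.self_of_nhds
      rw [h0, h2] at this
      simp only [Prod.fst_zero, zero_sub, sub_zero, mul_zero] at this
      have h3 : dx f 0 * dx f 0 = 0 := by linarith
      exact mul_self_eq_zero.1 h3
    by_cases h4 : dy (dy f) 0 = 0
    · exact caseIIb hf hg hI h0 h1 h2 (fxy_zero hf hg hI h0 h1 h2 h4) h4 hnf
    · exact caseIIa hf hg hI h0 h2 h4
  · exact caseI hf hg hI h0 h2 hnf

theorem forward {f : ℝ × ℝ → ℝ} (hf : SmoothNear f) (h2 : dy f 0 = 0) (hnf : ¬ Flat (dy f))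
    (hR : RExtends f) : HasNormalForm f := by
  obtain ⟨g0, hg0, hgR⟩ := hR
  obtain ⟨F, hF, hFf⟩ := exists_sm_ext hf
  obtain ⟨g, hg, hgg⟩ := exists_sm_ext hg0
  have ex := germ_dx (F := F) (G := f) hFf
  have ey := germ_dy (F := F) (G := f) hFf
  have hnF : ¬ Flat (dy F) := fun h => hnf (h.congr (ey.mono fun z hz => hz.symm))
  have hI : ∀ᶠ z in 𝓝 (0 : ℝ × ℝ),
      (dx F z * (z.1 - dx F z) - F z - g z * dy F z) = 0 := by
    refine zero_of_mul (F := dy F) ?_ hF.dy hnF ?_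
    · exact (((hF.dx.mul (sm_fst.sub hF.dx)).sub hF).sub (hg.mul hF.dy))
    · filter_upwards [hgR, hFf, hgg, ex, ey] with z a b c d e
      by_cases hz : dy F z = 0
      · rw [hz, mul_zero]
      · rw [e] at hz
        have h3 := a hz
        rw [eq_div_iff hz] at h3
        rw [d, e, b, c, h3]
        ring
  have hI' : ∀ᶠ z in 𝓝 (0 : ℝ × ℝ), dx F z * (z.1 - dx F z) - F z = g z * dy F z :=
    hI.mono fun z hz => by linarith
  have h2' : dy F 0 = 0 := by rw [ey.self_of_nhds]; exact h2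
  exact (forward_sm hF hg hI' h2' hnF).congr (hFf.mono fun z hz => hz.symm)

theorem classification {f : ℝ × ℝ → ℝ} (hf : SmoothNear f) :
    (dy f 0 = 0 ∧ ¬ Flat (dy f) ∧ RExtends f) ↔ HasNormalForm f :=
  ⟨fun h => forward hf h.1 h.2.1 h.2.2, back⟩

end H86N
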