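import Pool.Agent.Lib.H86N.Ord
import Pool.Agent.Lib.H86N.LeadD
import Pool.Agent.Lib.H86N.FlatD

/-! Chunk FLQ: if `Q_y` is flat then `Q` is flat. -/

open Filter Topology Asymptotics
open scoped ContDiff

namespace H86N

/-- identities on `{F ≠ 0}` extend to the closure -/
lemma flq_closure {A B F : ℝ × ℝ → ℝ} (hA : Continuous A) (hB : Continuous B) {z : ℝ × ℝ}
    (h : ∀ᶠ w in 𝓝 z, F w ≠ 0 → A w = B w) (hf : ∃ᶠ w in 𝓝 z, F w ≠ 0) : A z = B z := by
  by_contra hne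
  have h1 : ∀ᶠ w in 𝓝 z, A w ≠ B w := (isOpen_ne_fun hA hB).mem_nhds hne
  obtain ⟨w, h2, h3, h4⟩ := (hf.and_eventually (h.and h1)).exists
  exact h4 (h3 h2)

/-- Claim 2 of the proof. -/
lemma flq_line {θ δ C : ℝ} {Q G : ℝ × ℝ → ℝ} (hQ : Sm Q) (hG : Sm G)
    (hE : ∀ z : ℝ × ℝ, dist z 0 < δ →
      dy Q z ≠ 0 → Q z - θ * (z.1 * dx Q z) = G z * dy Q z)
    (hC : ∀ z : ℝ × ℝ, dist z 0 < δ → |G z| ≤ C)
    {t y₁ : ℝ} (ht : |t| < δ) (hy : |y₁| < δ) (hne : dy Q (t, y₁) ≠ 0) :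
    |Q (t, 0) - θ * (t * dx Q (t, 0))| ≤ C * |dy Q (t, 0)| := by
  have hdist : ∀ a b : ℝ, |a| < δ → |b| < δ → dist ((a, b) : ℝ × ℝ) 0 < δ := by
    intro a b ha hb
    rw [dist_zero_right, Prod.norm_def]
    exact max_lt ha hb
  have hδ : 0 < δ := lt_of_le_of_lt (abs_nonneg t) ht
  have hball : ∀ z : ℝ × ℝ, dist z 0 < δ → ∀ᶠ w in 𝓝 z, dist w 0 < δ := by
    intro z hz
    exact (Metric.isOpen_ball (x := (0 : ℝ × ℝ)) (ε := δ)).mem_nhds hz
  set E : ℝ × ℝ → ℝ := fun z => Q z - θ * (z.1 * dx Q z) with hEdef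
  have hEs : Sm E := hQ.sub (contDiff_const.mul (sm_fst.mul hQ.dx))
  have hEy : ∀ z, dy E z = dy Q z - θ * (z.1 * dy (dx Q) z) := by
    intro z
    rw [hEdef, dy_sub hQ (contDiff_const.mul (sm_fst.mul hQ.dx)),
      dy_mul contDiff_const (sm_fst.mul hQ.dx), dy_mul sm_fst hQ.dx, dy_const, dy_fst]
    ring
  have hcl : ∀ z : ℝ × ℝ, dist z 0 < δ → (∃ᶠ w in 𝓝 z, dy Q w ≠ 0) → E z = G z * dy Q z := by
    intro z hz hf
    refine flq_closure hEs.continuous (hG.mul hQ.dy).continuous ?_ hf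
    filter_upwards [hball z hz] with w hw h
    exact hE w hw h
  have claim1 : ∀ z : ℝ × ℝ, dist z 0 < δ → dy Q z = 0 → E z * dy E z = 0 := by
    intro z hz h0
    by_cases hf : ∃ᶠ w in 𝓝 z, dy Q w ≠ 0
    · rw [hcl z hz hf, h0]; ring
    · rw [not_frequently] at hf
      have h1 : dy Q =ᶠ[𝓝 z] fun _ => 0 := by
        filter_upwards [hf] with w hw
        exact not_not.1 hw
      have h2 := (germ_dx h1).self_of_nhds
      rw [dx_const, dx_dy hQ] at h2
      rw [hEy, h0, h2]; ring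
  by_cases h0 : dy Q (t, 0) = 0
  · rw [h0, abs_zero, mul_zero]
    have key : E (t, 0) = 0 := by
      set m : ℝ → ℝ := fun s => dy Q (t, s * y₁) with hm
      have hmc : Continuous m := by
        have := hQ.dy.continuous
        fun_prop
      set S : Set ℝ := {s | 0 ≤ s ∧ s ≤ 1 ∧ m s ≠ 0} with hS
      have h1S : (1 : ℝ) ∈ S := ⟨zero_le_one, le_rfl, by simpa [hm] using hne⟩
      have hbdd : BddBelow S := ⟨0, fun s hs => hs.1⟩
      set σ := sInf S with hσ
      have hσ0 : 0 ≤ σ := le_csInf ⟨1, h1S⟩ fun s hs => hs.1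
      have hσ1 : σ ≤ 1 := csInf_le hbdd h1S
      have hlt : ∀ r, 0 ≤ r → r < σ → m r = 0 := by
        intro r hr hrσ
        by_contra hmr
        have : σ ≤ r := csInf_le hbdd ⟨hr, by linarith, hmr⟩
        linarith
      have hmσ : m σ = 0 := by
        rcases hσ0.eq_or_lt with h | h
        · rw [← h]; simpa [hm] using h0
        · by_contra hmr
          have h2 : ∀ᶠ r in 𝓝 σ, m r ≠ 0 := hmc.continuousAt.eventually_ne hmr
          have h3 : ∀ᶠ r in 𝓝[<] σ, m r ≠ 0 := h2.filter_mono nhdsWithin_le_nhds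
          have h4 : ∀ᶠ r in 𝓝[<] σ, 0 < r := (lt_mem_nhds h).filter_mono nhdsWithin_le_nhds
          have h5 : ∀ᶠ r in 𝓝[<] σ, r < σ := self_mem_nhdsWithin
          obtain ⟨r, h6, h7, h8⟩ := (h3.and (h4.and h5)).exists
          exact h6 (hlt r h7.le h8)
      have hmz : ∀ r, 0 ≤ r → r ≤ σ → m r = 0 := by
        intro r hr hrσ
        rcases hrσ.eq_or_lt with h | h
        · rw [h]; exact hmσ
        · exact hlt r hr h
      have hsmall : ∀ s, 0 ≤ s → s ≤ 1 → |s * y₁| < δ := by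
        intro s hs0 hs1
        rw [abs_mul, abs_of_nonneg hs0]
        calc s * |y₁| ≤ 1 * |y₁| := mul_le_mul_of_nonneg_right hs1 (abs_nonneg _)
          _ < δ := by linarith
      have hfreq : ∃ᶠ w in 𝓝 ((t, σ * y₁) : ℝ × ℝ), dy Q w ≠ 0 := by
        have h2 : ∃ᶠ s in 𝓝 σ, s ∈ S := mem_closure_iff_frequently.1 (csInf_mem_closure ⟨1, h1S⟩ hbdd)
        have h3 : ∃ᶠ s in 𝓝 σ, dy Q (t, s * y₁) ≠ 0 := h2.mono fun s hs => hs.2.2
        have h4 : Tendsto (fun s : ℝ => ((t, s * y₁) : ℝ × ℝ)) (𝓝 σ) (𝓝 (t, σ * y₁)) := by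
          have : Continuous (fun s : ℝ => ((t, s * y₁) : ℝ × ℝ)) := by fun_prop
          exact this.tendsto σ
        exact h4.frequently h3
      have hEσ : E (t, σ * y₁) = 0 := by
        rw [hcl _ (hdist _ _ ht (hsmall σ hσ0 hσ1)) hfreq]
        have : dy Q (t, σ * y₁) = 0 := hmσ
        rw [this, mul_zero]
      have hconst : ∀ s ∈ Set.Icc 0 σ, (E (t, s * y₁)) ^ 2 = (E (t, 0 * y₁)) ^ 2 := by
        apply constant_of_has_deriv_right_zero
        · have := hEs.continuous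
          exact Continuous.continuousOn (by fun_prop)
        · intro s hs
          have hd : HasDerivAt (fun s => E (t, s * y₁)) (dy E (t, s * y₁) * y₁) s := by
            have hφ : Sm1 (fun s : ℝ => s * y₁) := contDiff_id.mul contDiff_const
            have h1 := deriv_curve (φ := fun _ => t) (ψ := fun s => s * y₁) hEs contDiff_const hφ s
            have h2 : DifferentiableAt ℝ (fun s => E (t, s * y₁)) s :=
              (hEs.curve (φ := fun _ => t) contDiff_const hφ).diffAt s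
            have h3 := h2.hasDerivAt
            rw [h1] at h3
            refine h3.congr_deriv ?_
            simp
          have h4 := hd.pow 2
          have h5 := claim1 (t, s * y₁) (hdist _ _ ht (hsmall s hs.1 (by linarith [hs.2])))
            (hmz s hs.1 hs.2.le)
          have h6 : (2 : ℕ) * E (t, s * y₁) ^ (2 - 1) * (dy E (t, s * y₁) * y₁) = 0 := by
            push_cast
            have : E (t, s * y₁) * dy E (t, s * y₁) = 0 := h5
            linear_combination (2 * y₁) * this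
          rw [h6] at h4
          exact h4.hasDerivWithinAt
      have h7 := hconst σ ⟨hσ0, le_rfl⟩
      rw [hEσ, zero_mul] at h7
      have h8 : (E (t, 0)) ^ 2 = 0 := by rw [← h7]; ring
      exact pow_eq_zero_iff two_ne_zero |>.1 h8
    have : Q (t, 0) - θ * (t * dx Q (t, 0)) = 0 := key
    rw [this, abs_zero]
  · have hz : dist ((t, 0) : ℝ × ℝ) 0 < δ := hdist _ _ ht (by simpa using hδ)
    have h1 : Q (t, 0) - θ * (t * dx Q (t, 0)) = G (t, 0) * dy Q (t, 0) := hE (t, 0) hz h0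
    rw [h1, abs_mul]
    exact mul_le_mul_of_nonneg_right (hC _ hz) (abs_nonneg _)

/-- Let `E = Q - θ t Q_t` (smooth), `D = {Q_y ≠ 0}`. Work in a box `|t|,|y| < δ` where `hE` holds and
`|G| ≤ C`. Claim 1: at every point `z` of the box with `Q_y(z) = 0`: `E(z) E_y(z) = 0`. (If `z` is in the closure
of `D` then `E(z) = G(z) Q_y(z) = 0` by continuity; otherwise `Q_y = 0` near `z` and
`E_y = Q_y - θ t Q_yt = 0`.) Claim 2: if the vertical line `{t} × (-δ,δ)` meets `D` then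
`|E(t,0)| ≤ C |Q_y(t,0)|`. (If `Q_y(t,0) ≠ 0` use `hE`. Otherwise let `y₁ ∈ D`, say `y₁ > 0` (the case `y₁ < 0` is
symmetric), `y* = inf {y ≥ 0 | Q_y(t,y) ≠ 0}`; `Q_y(t,·) = 0` on `[0,y*]`, so `(E²)_y = 0` there, and
`(t,y*)` is in the closure of `D` with `Q_y = 0`, so `E(t,y*) = 0`; hence `E(t,0) = 0`.)
By `hn` and openness of `D` there are `t_k → 0`, `t_k ≠ 0`, with the vertical line meeting `D`. So
`e(t) = E(t,0)` satisfies `|e(t_k)| ≤ C |Q_y(t_k,0)| = O(|t_k|^n)` for all `n`, hence `e` is flat (`order1`: otherwise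
`|e(t)| ≥ c |t|^J` near `0`). With `w(t) = Q(t,0)`: `e = w - θ t w'`. If `w` is not flat, `w = t^J ψ`
(`order1`); `θ = 0`: contradiction; `θ = 1`: `J ≥ 2` because `w(0) = w'(0) = 0`, and
`e = t^J ((1 - J) ψ - t ψ')` is not flat, contradiction. So `w` is flat, and
`|Q(t,y) - w(t)| ≤ |y| sup |Q_y| = O(‖z‖^n)` (mean value theorem on the vertical segment). -/
theorem flat_Q {θ : ℝ} {Q G : ℝ × ℝ → ℝ} (hθ : θ = 0 ∨ θ = 1) (hQ : Sm Q) (hG : Sm G)
    (h0 : Q 0 = 0) (h1 : dx Q 0 = 0)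
    (hE : ∀ᶠ z in 𝓝 (0 : ℝ × ℝ), dy Q z ≠ 0 → Q z - θ * (z.1 * dx Q z) = G z * dy Q z)
    (hn : ¬ ∀ᶠ z in 𝓝 (0 : ℝ × ℝ), dy Q z = 0) (hfl : Flat (dy Q)) : Flat Q := by
  have hGb : ∀ᶠ z in 𝓝 (0 : ℝ × ℝ), |G z| ≤ |G 0| + 1 := by
    have : ∀ᶠ z in 𝓝 (0 : ℝ × ℝ), |G z| < |G 0| + 1 :=
      (hG.continuous.abs.continuousAt).eventually_lt_const (by linarith)
    exact this.mono fun z hz => hz.le
  obtain ⟨δ, hδ, hall⟩ := Metric.eventually_nhds_iff.1 (hE.and hGb)
  set C := |G 0| + 1 with hCdef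
  have hC0 : 0 < C := by positivity
  have line := fun {t y₁ : ℝ} => flq_line (θ := θ) (δ := δ) (C := C) hQ hG
    (fun z hz => (hall hz).1) (fun z hz => (hall hz).2) (t := t) (y₁ := y₁)
  set e : ℝ → ℝ := fun t => Q (t, 0) - θ * (t * dx Q (t, 0)) with he
  have hes : Sm1 e := by
    have a1 : Sm1 (fun t : ℝ => Q (t, 0)) := hQ.curve contDiff_id contDiff_const
    have a2 : Sm1 (fun t : ℝ => dx Q (t, 0)) := hQ.dx.curve contDiff_id contDiff_const
    exact a1.sub (contDiff_const.mul (contDiff_id.mul a2))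
  -- frequently `t ≠ 0` and the line meets `D`
  have hfreq : ∃ᶠ z in 𝓝 (0 : ℝ × ℝ), z.1 ≠ 0 ∧ dy Q z ≠ 0 := by
    intro h
    apply hn
    have h2 := cancel_x hQ.dy.continuous (continuous_const (y := (0 : ℝ))) 1 (by
      filter_upwards [h] with z hz
      by_cases hz1 : z.1 = 0
      · rw [hz1]; ring
      · have : dy Q z = 0 := by
          by_contra h3
          exact hz ⟨hz1, h3⟩
        rw [this])
    exact h2
  have heflat : Flat1 e := by
    by_contra hnf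
    obtain ⟨J, ψ, hψ, hψ0, hJ⟩ := order1 hes hnf
    obtain ⟨K, hK⟩ := (hfl (J + 1)).bound
    have hK' := ev_curve (φ := fun t => t) (ψ := fun _ => (0 : ℝ)) hK continuous_id
      continuous_const rfl rfl
    have hψb : ∀ᶠ t in 𝓝 (0 : ℝ), |ψ 0| / 2 < |ψ t| :=
      (hψ.continuous.abs.continuousAt).eventually_const_lt (by
        have := abs_pos.2 hψ0; linarith)
    have hKb : ∀ᶠ t in 𝓝 (0 : ℝ), C * |K| * |t| < |ψ 0| / 2 := by
      have hc : Continuous (fun t : ℝ => C * |K| * |t|) := by fun_prop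
      refine hc.continuousAt.eventually_lt_const ?_
      have := abs_pos.2 hψ0
      simp only [abs_zero, mul_zero]
      linarith
    have hsm : ∀ᶠ z in 𝓝 (0 : ℝ × ℝ), dist z 0 < δ := Metric.ball_mem_nhds _ hδ
    obtain ⟨z, ⟨hz1, hz2⟩, b1, b2, b3, b4, b5⟩ := (hfreq.and_eventually
      ((ev_fst hJ).and ((ev_fst hK').and ((ev_fst hψb).and ((ev_fst hKb).and hsm))))).exists
    rw [dist_zero_right, Prod.norm_def] at b5
    have c1 : |z.1| < δ := lt_of_le_of_lt (le_max_left _ _) b5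
    have c2 : |z.2| < δ := lt_of_le_of_lt (le_max_right _ _) b5
    have hl := line c1 c2 hz2
    have h3 : e z.1 = z.1 ^ J * ψ z.1 := b1
    have h4 : |e z.1| ≤ C * |dy Q (z.1, 0)| := hl
    rw [h3, abs_mul, abs_pow] at h4
    have h5 : |dy Q (z.1, 0)| ≤ |K| * |z.1| ^ (J + 1) := by
      have h6 : ‖dy Q (z.1, 0)‖ ≤ K * ‖‖((z.1, 0) : ℝ × ℝ)‖ ^ (J + 1)‖ := b2
      have h7 : ‖((z.1, 0) : ℝ × ℝ)‖ = |z.1| := by simp [Prod.norm_def]
      rw [h7, Real.norm_eq_abs, Real.norm_eq_abs, abs_pow, abs_abs] at h6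
      exact h6.trans (mul_le_mul_of_nonneg_right (le_abs_self K) (by positivity))
    have hpos : 0 < |z.1| ^ J := pow_pos (abs_pos.2 hz1) J
    have h8 : |z.1| ^ J * |ψ z.1| ≤ |z.1| ^ J * (C * |K| * |z.1|) := by
      calc |z.1| ^ J * |ψ z.1| ≤ C * |dy Q (z.1, 0)| := h4
        _ ≤ C * (|K| * |z.1| ^ (J + 1)) := mul_le_mul_of_nonneg_left h5 hC0.le
        _ = |z.1| ^ J * (C * |K| * |z.1|) := by ring
    have h9 := le_of_mul_le_mul_left h8 hpos
    linarith
  -- `w(t) = Q(t,0)` is flat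
  set w : ℝ → ℝ := fun t => Q (t, 0) with hw
  have hws : Sm1 w := hQ.curve contDiff_id contDiff_const
  have hwd : ∀ t, deriv w t = dx Q (t, 0) := by
    intro t
    have := deriv_curve (φ := fun t => t) (ψ := fun _ => (0 : ℝ)) hQ contDiff_id contDiff_const t
    simpa using this
  have hwflat : Flat1 w := by
    rcases hθ with rfl | rfl
    · refine heflat.congr (Eventually.of_forall fun t => ?_)
      simp [he, hw]
    · by_contra hnf
      obtain ⟨J, ψ, hL⟩ := order1 hws hnf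
      have hw0 : w 0 = 0 := h0
      have hw1 : deriv w 0 = 0 := by rw [hwd]; exact h1
      have hJ0 : J ≠ 0 := by
        rintro rfl
        have := hL.2.2.self_of_nhds
        rw [hw0, pow_zero, one_mul] at this
        exact hL.2.1 this.symm
      obtain ⟨ψ₁, hL1, hψ1⟩ := lead_deriv1 hws hL (by omega)
      have hJ1 : J ≠ 1 := by
        rintro rfl
        have := hL1.2.2.self_of_nhds
        rw [hw1, Nat.sub_self, pow_zero, one_mul, hψ1] at this
        apply hL.2.1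
        simpa using this.symm
      refine lead_not_flat (b := e) (J := J) (ψ := fun t => ψ t - ψ₁ t)
        ⟨hL.1.sub hL1.1, ?_, ?_⟩ heflat
      · show ψ 0 - ψ₁ 0 ≠ 0
        rw [hψ1]
        have h5 : ((J : ℝ) - 1) ≠ 0 := by
          intro h
          apply hJ1
          have : (J : ℝ) = 1 := by linarith
          exact_mod_cast this
        intro h
        apply h5
        have h6 : ((J : ℝ) - 1) * ψ 0 = 0 := by linarith
        exact (mul_eq_zero.1 h6).resolve_right hL.2.1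
      · filter_upwards [hL.2.2, hL1.2.2] with t a b
        have h5 : e t = w t - t * deriv w t := by
          rw [hwd]; simp [he, hw]
        rw [h5, a, b]
        obtain ⟨j, rfl⟩ : ∃ j, J = j + 1 := ⟨J - 1, by omega⟩
        simp only [Nat.add_sub_cancel]
        ring
  -- `Q` is flat
  intro n
  obtain ⟨K1, hK1⟩ := (hwflat n).bound
  obtain ⟨K2, hK2⟩ := (hfl n).bound
  obtain ⟨r, hr, hr2⟩ := Metric.eventually_nhds_iff.1 hK2
  refine IsBigO.of_bound (|K1| + |K2|) ?_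
  filter_upwards [ev_fst hK1, Metric.ball_mem_nhds (0 : ℝ × ℝ) hr,
    Metric.ball_mem_nhds (0 : ℝ × ℝ) one_pos] with z hz1 hz2 hz3
  have hz2' : ‖z‖ < r := by simpa [dist_zero_right] using hz2
  have hz3' : ‖z‖ < 1 := by simpa [dist_zero_right] using hz3
  have a1 : |Q (z.1, 0)| ≤ |K1| * ‖z‖ ^ n := by
    have h5 : ‖w z.1‖ ≤ K1 * ‖z.1 ^ n‖ := hz1
    rw [norm_pow] at h5
    calc |Q (z.1, 0)| ≤ K1 * ‖z.1‖ ^ n := h5
      _ ≤ |K1| * ‖z.1‖ ^ n := mul_le_mul_of_nonneg_right (le_abs_self _) (by positivity)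
      _ ≤ |K1| * ‖z‖ ^ n := by
        refine mul_le_mul_of_nonneg_left ?_ (abs_nonneg _)
        exact pow_le_pow_left₀ (norm_nonneg _) (norm_fst_le z) n
  have a2 : ‖Q (z.1, 1 * z.2) - Q (z.1, 0 * z.2)‖ ≤ |K2| * ‖z‖ ^ n := by
    refine norm_image_sub_le_of_norm_deriv_le_segment_01'
      (f := fun s => Q (z.1, s * z.2)) (f' := fun s => dy Q (z.1, s * z.2) * z.2) ?_ ?_
    · intro s _
      have hφ : Sm1 (fun s : ℝ => s * z.2) := contDiff_id.mul contDiff_const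
      have h1 := deriv_curve (φ := fun _ => z.1) (ψ := fun s => s * z.2) hQ contDiff_const hφ s
      have h2 : DifferentiableAt ℝ (fun s => Q (z.1, s * z.2)) s :=
        (hQ.curve (φ := fun _ => z.1) contDiff_const hφ).diffAt s
      have h3 := h2.hasDerivAt
      rw [h1] at h3
      refine (h3.congr_deriv ?_).hasDerivWithinAt
      simp
    · intro s hs
      have hnorm : ‖((z.1, s * z.2) : ℝ × ℝ)‖ ≤ ‖z‖ := by
        rw [Prod.norm_def, Prod.norm_def]
        refine max_le_max le_rfl ?_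
        simp only [norm_mul, Real.norm_eq_abs, abs_of_nonneg hs.1]
        calc s * |z.2| ≤ 1 * |z.2| := mul_le_mul_of_nonneg_right hs.2.le (abs_nonneg _)
          _ = |z.2| := one_mul _
      have h5 : ‖dy Q (z.1, s * z.2)‖ ≤ K2 * ‖‖((z.1, s * z.2) : ℝ × ℝ)‖ ^ n‖ :=
        hr2 (by rw [dist_zero_right]; exact lt_of_le_of_lt hnorm hz2')
      rw [norm_pow, norm_norm] at h5
      have h6 : ‖dy Q (z.1, s * z.2)‖ ≤ |K2| * ‖z‖ ^ n := by
        calc ‖dy Q (z.1, s * z.2)‖ ≤ K2 * ‖((z.1, s * z.2) : ℝ × ℝ)‖ ^ n := h5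
          _ ≤ |K2| * ‖((z.1, s * z.2) : ℝ × ℝ)‖ ^ n :=
            mul_le_mul_of_nonneg_right (le_abs_self _) (by positivity)
          _ ≤ |K2| * ‖z‖ ^ n := mul_le_mul_of_nonneg_left
            (pow_le_pow_left₀ (norm_nonneg _) hnorm n) (abs_nonneg _)
      rw [norm_mul]
      have h7 : ‖z.2‖ ≤ 1 := (norm_snd_le z).trans hz3'.le
      calc ‖dy Q (z.1, s * z.2)‖ * ‖z.2‖ ≤ (|K2| * ‖z‖ ^ n) * 1 :=
            mul_le_mul h6 h7 (norm_nonneg _) (by positivity)
        _ = |K2| * ‖z‖ ^ n := mul_one _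
  rw [one_mul, zero_mul] at a2
  rw [norm_pow, norm_norm]
  have h8 : Q z = (Q (z.1, z.2) - Q (z.1, 0)) + Q (z.1, 0) := by simp
  rw [h8]
  calc ‖(Q (z.1, z.2) - Q (z.1, 0)) + Q (z.1, 0)‖
      ≤ ‖Q (z.1, z.2) - Q (z.1, 0)‖ + ‖Q (z.1, 0)‖ := norm_add_le _ _
    _ ≤ |K2| * ‖z‖ ^ n + |K1| * ‖z‖ ^ n := add_le_add a2 a1
    _ = (|K1| + |K2|) * ‖z‖ ^ n := by ring

end H86N
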