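import Pool.Agent.Lib.H86N.Leg

/-! Chunk LA2: linearisation, `f_xx(0) ≠ 0`, all smooth `f`. -/

open Filter Topology Asymptotics
open scoped ContDiff

namespace H86N

/-- Same `Q, T, G, X` as in `leg_A` (copy): `Q = t^2 - vs`, `T = f_x`, `G = - g(X,y)`. -/
theorem leg_A2 {f g : ℝ × ℝ → ℝ} (hf : Sm f) (hg : Sm g)
    (hR : ∀ᶠ z in 𝓝 (0 : ℝ × ℝ), dy f z ≠ 0 → dx f z * (z.1 - dx f z) - f z = g z * dy f z)
    (h0 : f 0 = 0) (h1 : dx f 0 = 0) (h5 : dx (dx f) 0 ≠ 0) :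
    ∃ Q T G X : ℝ × ℝ → ℝ, Sm Q ∧ Sm T ∧ Sm G ∧ Sm X ∧ T 0 = 0 ∧ X 0 = 0 ∧
      Q 0 = 0 ∧ dx Q 0 = 0 ∧
      (∀ᶠ z in 𝓝 (0 : ℝ × ℝ), dy Q z = dy f (X z, z.2)) ∧
      (∀ᶠ z in 𝓝 (0 : ℝ × ℝ), dy f z = dy Q (T z, z.2)) ∧
      (∀ᶠ z in 𝓝 (0 : ℝ × ℝ), dy Q z ≠ 0 → Q z = G z * dy Q z) ∧
      (∀ᶠ z in 𝓝 (0 : ℝ × ℝ), z.1 = 2 * T z - dx Q (T z, z.2)) ∧
      (∀ᶠ z in 𝓝 (0 : ℝ × ℝ), f z = z.1 ^ 2 / 4 + Q (T z, z.2) - (dx Q (T z, z.2)) ^ 2 / 4) := by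
  obtain ⟨X, hX, hX0, hX1, hX2, hX3, hX4⟩ := legendre hf h1 h5
  have e0 : ((0 : ℝ), (0 : ℝ × ℝ).2) = 0 := rfl
  have hvs : Sm (fun w => X w * w.1 - f (X w, w.2)) := (hX.mul sm_fst).sub (hf.comp2 hX sm_snd)
  have hsq : Sm (fun w : ℝ × ℝ => w.1 ^ 2) := sm_fst.pow 2
  set Q : ℝ × ℝ → ℝ := fun w => w.1 ^ 2 - (X w * w.1 - f (X w, w.2)) with hQdef
  have hQ : Sm Q := hsq.sub hvs
  have hQx : ∀ᶠ z in 𝓝 (0 : ℝ × ℝ), dx Q z = 2 * z.1 - X z := by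
    filter_upwards [hX3] with z hz
    rw [hQdef, dx_sub hsq hvs, dx_pow sm_fst, dx_fst, hz]
    norm_num
  have hQy : ∀ᶠ z in 𝓝 (0 : ℝ × ℝ), dy Q z = dy f (X z, z.2) := by
    filter_upwards [hX4] with z hz
    rw [hQdef, dy_sub hsq hvs, dy_pow sm_fst, dy_fst, hz]
    ring
  have hT : Sm (dx f) := hf.dx
  have cT : Continuous (dx f) := hT.continuous
  have cX : Continuous X := hX.continuous
  have hIX := ev_comp2 hR cX continuous_snd hX0 rfl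
  have hQxT := ev_comp2 hQx cT continuous_snd h1 rfl
  have hQyT := ev_comp2 hQy cT continuous_snd h1 rfl
  refine ⟨Q, dx f, fun z => - g (X z, z.2), X, hQ, hT, (hg.comp2 hX sm_snd).neg, hX, h1, hX0,
    ?_, ?_, hQy, ?_, ?_, ?_, ?_⟩
  · show (0 : ℝ × ℝ).1 ^ 2 - (X 0 * (0 : ℝ × ℝ).1 - f (X 0, (0 : ℝ × ℝ).2)) = 0
    rw [hX0, e0, h0]
    simp
  · rw [hQx.self_of_nhds, hX0]
    simp
  · filter_upwards [hQyT, hX2] with z a b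
    rw [a, b]
  · filter_upwards [hQy, hIX, hX1] with z a b c hne
    rw [a] at hne ⊢
    have b' := b hne
    rw [c] at b'
    show z.1 ^ 2 - (X z * z.1 - f (X z, z.2)) = - g (X z, z.2) * dy f (X z, z.2)
    linarith
  · filter_upwards [hQxT, hX2] with z a b
    rw [a, b]
    ring
  · filter_upwards [hQxT, hX2] with z a b
    rw [a, b]
    show f z = z.1 ^ 2 / 4 + ((dx f z) ^ 2 - (X (dx f z, z.2) * dx f z - f (X (dx f z, z.2), z.2))) -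
      (2 * dx f z - z.1) ^ 2 / 4
    rw [b]
    have : f (z.1, z.2) = f z := rfl
    rw [this]
    ring

end H86N
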