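import Pool.Agent.Lib.H86N.Leg

/-! Chunk LP2: linearisation, `f_xx(0) = 0`, all smooth `f`. -/

open Filter Topology Asymptotics
open scoped ContDiff

namespace H86N

/-- Same `Q, T, X` as in `leg_P` (copy): `v = u = f - x^2/4`, `T = f_x - x/2`, `Q = vs + t^2`,
`G = g(X,y)`: `z.1 Q_t - Q = u + u_x^2 = - (f_x (x - f_x) - f)`, `Q_y = - f_y(X,y)`. -/
theorem leg_P2 {f g : ℝ × ℝ → ℝ} (hf : Sm f) (hg : Sm g)
    (hR : ∀ᶠ z in 𝓝 (0 : ℝ × ℝ), dy f z ≠ 0 → dx f z * (z.1 - dx f z) - f z = g z * dy f z)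
    (h0 : f 0 = 0) (h1 : dx f 0 = 0) (h5 : dx (dx f) 0 = 0) :
    ∃ Q T G X : ℝ × ℝ → ℝ, Sm Q ∧ Sm T ∧ Sm G ∧ Sm X ∧ T 0 = 0 ∧ X 0 = 0 ∧
      Q 0 = 0 ∧ dx Q 0 = 0 ∧
      (∀ᶠ z in 𝓝 (0 : ℝ × ℝ), dy Q z = - dy f (X z, z.2)) ∧
      (∀ᶠ z in 𝓝 (0 : ℝ × ℝ), dy f z = - dy Q (T z, z.2)) ∧
      (∀ᶠ z in 𝓝 (0 : ℝ × ℝ), dy Q z ≠ 0 → z.1 * dx Q z - Q z = G z * dy Q z) ∧
      (∀ᶠ z in 𝓝 (0 : ℝ × ℝ), z.1 = dx Q (T z, z.2) - 2 * T z) ∧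
      (∀ᶠ z in 𝓝 (0 : ℝ × ℝ), f z = (dx Q (T z, z.2)) ^ 2 / 4 - Q (T z, z.2)) := by
  have hq : Sm (fun w : ℝ × ℝ => w.1 ^ 2 / 4) := (sm_fst.pow 2).div_const 4
  set u : ℝ × ℝ → ℝ := fun w => f w - w.1 ^ 2 / 4 with hudef
  have hu : Sm u := hf.sub hq
  have hqx : ∀ z, dx (fun w : ℝ × ℝ => w.1 ^ 2 / 4) z = z.1 / 2 := by
    intro z
    have e : (fun w : ℝ × ℝ => w.1 ^ 2 / 4) = fun w => (1 / 4 : ℝ) * w.1 ^ 2 := by
      funext w; ring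
    rw [e, dx_mul contDiff_const (sm_fst.pow 2), dx_const, dx_pow sm_fst, dx_fst]
    ring
  have hqy : ∀ z, dy (fun w : ℝ × ℝ => w.1 ^ 2 / 4) z = 0 := by
    intro z
    have e : (fun w : ℝ × ℝ => w.1 ^ 2 / 4) = fun w => (1 / 4 : ℝ) * w.1 ^ 2 := by
      funext w; ring
    rw [e, dy_mul contDiff_const (sm_fst.pow 2), dy_const, dy_pow sm_fst, dy_fst]
    ring
  have hux : ∀ z, dx u z = dx f z - z.1 / 2 := by
    intro z
    rw [hudef, dx_sub hf hq, hqx]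
  have huy : ∀ z, dy u z = dy f z := by
    intro z
    rw [hudef, dy_sub hf hq, hqy, sub_zero]
  have hhalf : Sm (fun w : ℝ × ℝ => w.1 / 2) := sm_fst.div_const 2
  have ehalf : (fun w : ℝ × ℝ => w.1 / 2) = fun w => (1 / 2 : ℝ) * w.1 := by
    funext w; ring
  have hux' : dx u = fun z => dx f z - z.1 / 2 := funext hux
  have hu1 : dx u 0 = 0 := by
    rw [hux, h1]; simp
  have hu2 : dx (dx u) 0 ≠ 0 := by
    rw [hux', dx_sub hf.dx hhalf, h5, ehalf, dx_mul contDiff_const sm_fst, dx_const, dx_fst]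
    norm_num
  obtain ⟨X, hX, hX0, hX1, hX2, hX3, hX4⟩ := legendre hu hu1 hu2
  have e0 : ((0 : ℝ), (0 : ℝ × ℝ).2) = 0 := rfl
  have hvs : Sm (fun w => X w * w.1 - u (X w, w.2)) := (hX.mul sm_fst).sub (hu.comp2 hX sm_snd)
  have hsq : Sm (fun w : ℝ × ℝ => w.1 ^ 2) := sm_fst.pow 2
  set Q : ℝ × ℝ → ℝ := fun w => (X w * w.1 - u (X w, w.2)) + w.1 ^ 2 with hQdef
  have hQ : Sm Q := hvs.add hsq
  have hQx : ∀ᶠ z in 𝓝 (0 : ℝ × ℝ), dx Q z = X z + 2 * z.1 := by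
    filter_upwards [hX3] with z hz
    rw [hQdef, dx_add hvs hsq, dx_pow sm_fst, dx_fst, hz]
    norm_num
  have hQy : ∀ᶠ z in 𝓝 (0 : ℝ × ℝ), dy Q z = - dy f (X z, z.2) := by
    filter_upwards [hX4] with z hz
    rw [hQdef, dy_add hvs hsq, dy_pow sm_fst, dy_fst, hz, huy]
    ring
  have hT : Sm (dx u) := hu.dx
  have cT : Continuous (dx u) := hT.continuous
  have cX : Continuous X := hX.continuous
  have hIX := ev_comp2 hR cX continuous_snd hX0 rfl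
  have hQxT := ev_comp2 hQx cT continuous_snd hu1 rfl
  have hQyT := ev_comp2 hQy cT continuous_snd hu1 rfl
  refine ⟨Q, dx u, fun z => g (X z, z.2), X, hQ, hT, hg.comp2 hX sm_snd, hX, hu1, hX0,
    ?_, ?_, hQy, ?_, ?_, ?_, ?_⟩
  · show (X 0 * (0 : ℝ × ℝ).1 - (f (X 0, (0 : ℝ × ℝ).2) - (X 0) ^ 2 / 4)) +
      (0 : ℝ × ℝ).1 ^ 2 = 0
    rw [hX0, e0, h0]
    simp
  · rw [hQx.self_of_nhds, hX0]
    simp
  · filter_upwards [hQyT, hX2] with z a b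
    rw [a, b]
    ring
  · filter_upwards [hQx, hQy, hIX, hX1] with z d a b c hne
    rw [a] at hne ⊢
    rw [d]
    have b' := b (fun h => hne (by rw [h, neg_zero]))
    rw [hux] at c
    have c' : dx f (X z, z.2) = z.1 + X z / 2 := by linarith
    rw [c'] at b'
    show z.1 * (X z + 2 * z.1) - ((X z * z.1 - (f (X z, z.2) - (X z) ^ 2 / 4)) + z.1 ^ 2) =
      g (X z, z.2) * - dy f (X z, z.2)
    linear_combination (-1) * b'
  · filter_upwards [hQxT, hX2] with z a b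
    rw [a, b]
    ring
  · filter_upwards [hQxT, hX2] with z a b
    rw [a, b]
    show f z = (z.1 + 2 * dx u z) ^ 2 / 4 - (X (dx u z, z.2) * dx u z - (f (X (dx u z, z.2), z.2) -
      (X (dx u z, z.2)) ^ 2 / 4) + (dx u z) ^ 2)
    rw [b]
    have : f (z.1, z.2) = f z := rfl
    rw [this]
    ring

end H86N
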