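import Pool.Agent.Lib.H86N.S2Defs
import Pool.Agent.Lib.H86N.Inv
import Pool.Agent.Lib.H86N.Root

/-! Chunk T1B: functions of type I are admissible. -/

open Filter Topology Asymptotics
open scoped ContDiff

namespace H86N

lemma typeI_const {φ : ℝ → ℝ} (hφ : Sm1 φ) (h : ∀ᶠ t in 𝓝 (0 : ℝ), deriv φ t = 0) :
    ∀ᶠ t in 𝓝 (0 : ℝ), φ t = φ 0 := by
  obtain ⟨ε, hε, hb⟩ := Metric.eventually_nhds_iff_ball.1 h
  filter_upwards [Metric.ball_mem_nhds (0 : ℝ) hε] with t ht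
  refine Metric.isOpen_ball.is_const_of_deriv_eq_zero (s := Metric.ball (0 : ℝ) ε)
    (convex_ball _ _).isPreconnected ?_ ?_ ht (Metric.mem_ball_self hε)
  · exact (hφ.differentiable (by simp)).differentiableOn
  · intro s hs
    exact hb s hs

/-- `Y` may be taken globally smooth. `lam = φ(Y)`, `f_x = - lam_x (x + 2 lam) - lam`, `f_y = - lam_y (x + 2 lam)`,
`lam_x = (Y_x/Y_y) lam_y`, and `f_x (x - f_x) - f = - lam_x (x + 2 lam)^2 (1 + lam_x)`, so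
`R_f = (Y_x/Y_y) (x + 2 lam) (1 + lam_x)` where `f_y ≠ 0`. `f_y(0) = 0` because `φ'(0) = 0`. If `f_y = 0` near `0`
then `φ'(Y) = 0` near `0` (`x + 2 lam ≠ 0`, `Y_y ≠ 0` near `0`), and `Y` maps onto a neighbourhood of `0`
(`inv_y`), so `φ' = 0` near `0` and `φ` is constant near `0`. -/
theorem typeI_back {f : ℝ × ℝ → ℝ} (h : TypeI f) :
    dy f 0 = 0 ∧ (¬ ∀ᶠ z in 𝓝 (0 : ℝ × ℝ), dy f z = 0) ∧ RExtends f := by
  obtain ⟨φ, Y0, hφ, hY0, hY00, hY0y, hφ0, hφ1, hnc, he0⟩ := h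
  obtain ⟨Y, hY, hYe⟩ := exists_sm_ext hY0
  have hφ' : Sm1 φ := hφ
  have z1 : ((0 : ℝ × ℝ)).1 = 0 := rfl
  have hYz : Y 0 = 0 := by rw [hYe.self_of_nhds, hY00]
  have hYy : dy Y 0 ≠ 0 := by
    have := (germ_dy (F := Y) (G := Y0) hYe).self_of_nhds
    rw [this]; exact hY0y
  set lam : ℝ × ℝ → ℝ := fun z => φ (Y z) with hlam
  have hlams : Sm lam := hφ'.comp1 hY
  have hxl : Sm (fun z : ℝ × ℝ => z.1 + lam z) := sm_fst.add hlams
  have hff' : f =ᶠ[𝓝 0] fun z => - (lam z * (z.1 + lam z)) := by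
    filter_upwards [he0, hYe] with z a1 a2
    rw [a1, hlam]
    simp only [a2]
  have elx : ∀ z, dx lam z = deriv φ (Y z) * dx Y z := fun z => dx_comp1 hφ' hY z
  have ely : ∀ z, dy lam z = deriv φ (Y z) * dy Y z := fun z => dy_comp1 hφ' hY z
  have efx : ∀ᶠ z in 𝓝 (0 : ℝ × ℝ), dx f z = - (dx lam z * (z.1 + 2 * lam z)) - lam z := by
    filter_upwards [germ_dx hff'] with z hz
    rw [hz, dx_neg, dx_mul hlams hxl, dx_add sm_fst hlams, dx_fst]
    ring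
  have efy : ∀ᶠ z in 𝓝 (0 : ℝ × ℝ), dy f z = - (dy lam z * (z.1 + 2 * lam z)) := by
    filter_upwards [germ_dy hff'] with z hz
    rw [hz, dy_neg, dy_mul hlams hxl, dy_add sm_fst hlams, dy_fst]
    ring
  have hlam0 : lam 0 = φ 0 := by simp only [hlam, hYz]
  have hx2s : Sm (fun z : ℝ × ℝ => z.1 + 2 * lam z) := sm_fst.add (contDiff_const.mul hlams)
  have hx2 : ∀ᶠ z in 𝓝 (0 : ℝ × ℝ), z.1 + 2 * lam z ≠ 0 := by
    refine hx2s.continuous.continuousAt.eventually_ne ?_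
    rw [hlam0, z1]
    simpa using hφ0
  have hYye : ∀ᶠ z in 𝓝 (0 : ℝ × ℝ), dy Y z ≠ 0 :=
    hY.dy.continuous.continuousAt.eventually_ne hYy
  obtain ⟨w, hw, hw0, hwe⟩ := recip hY.dy hYy
  refine ⟨?_, ?_, ?_⟩
  · rw [efy.self_of_nhds, ely, hYz, hφ1]
    ring
  · intro hc
    obtain ⟨X, hX, hX0, hX1, -⟩ := inv_y hY hYz hYy
    apply hnc
    have h1 : ∀ᶠ z in 𝓝 (0 : ℝ × ℝ), deriv φ (Y z) = 0 := by
      filter_upwards [hc, efy, hx2, hYye] with z a1 a2 a3 a4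
      rw [a1, ely] at a2
      have h2 : deriv φ (Y z) * dy Y z * (z.1 + 2 * lam z) = 0 := by linarith
      rcases mul_eq_zero.1 h2 with h3 | h3
      · rcases mul_eq_zero.1 h3 with h4 | h4
        · exact h4
        · exact absurd h4 a4
      · exact absurd h3 a3
    have h2 := ev_comp2 (a := fun z => z.1) h1 continuous_fst hX.continuous rfl hX0
    have h3 : ∀ᶠ z in 𝓝 (0 : ℝ × ℝ), deriv φ z.2 = 0 := by
      filter_upwards [h2, hX1] with z a1 a2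
      have a1' : deriv φ (Y (z.1, X z)) = 0 := a1
      rw [a2] at a1'
      exact a1'
    exact typeI_const hφ' (ev_slice0 h3)
  · have hg : Sm fun z : ℝ × ℝ => dx Y z * w z * (z.1 + 2 * lam z) * (1 + dx lam z) :=
      ((hY.dx.mul hw).mul hx2s).mul (contDiff_const.add hlams.dx)
    refine ⟨_, SmoothNear.of_sm hg, ?_⟩
    filter_upwards [efx, efy, hff', hwe] with z a1 a2 a3 a4 hne
    rw [eq_div_iff hne, a1, a2, a3, elx, ely]
    linear_combination (-(dx Y z * (z.1 + 2 * lam z) ^ 2 * (1 + deriv φ (Y z) * dx Y z) *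
      deriv φ (Y z))) * a4

end H86N
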