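import Pool.Agent.Lib.H86N.Had

/-! Chunk FL3: differentiability of the flow in the initial value. -/

open Filter Topology MeasureTheory
open scoped ContDiff

namespace H86N

/-- the averaged slope of `k` in the second variable -/
noncomputable def avg (k : ℝ × ℝ → ℝ) (x a b : ℝ) : ℝ :=
  ∫ t in (0 : ℝ)..1, dy k (x, a + t * (b - a))

lemma avg_spec {k : ℝ × ℝ → ℝ} (hk : Sm k) (x a b : ℝ) :
    k (x, b) - k (x, a) = avg k x a b * (b - a) := by
  have hd : ∀ t ∈ Set.uIcc (0 : ℝ) 1, HasDerivAt (fun t : ℝ => k (x, a + t * (b - a)))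
      (dy k (x, a + t * (b - a)) * (b - a)) t := by
    intro t _
    have h1 : HasDerivAt (fun t : ℝ => a + t * (b - a)) (b - a) t := by
      simpa using ((hasDerivAt_id t).mul_const (b - a)).const_add a
    have h := (hk.diffAt (x, a + t * (b - a))).hasFDerivAt.comp_hasDerivAt t
      ((hasDerivAt_const t x).prodMk h1)
    rw [fderiv_apply_eq] at h
    refine HasDerivAt.congr_deriv h ?_
    simp
  have hc : Continuous (fun t : ℝ => dy k (x, a + t * (b - a)) * (b - a)) := by
    have h := hk.dy.continuous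
    fun_prop
  have hint := intervalIntegral.integral_eq_sub_of_hasDerivAt hd (hc.intervalIntegrable _ _)
  rw [intervalIntegral.integral_mul_const] at hint
  simp only [one_mul, zero_mul, add_zero, add_sub_cancel] at hint
  rw [avg, hint]

lemma avg_self {k : ℝ × ℝ → ℝ} (x a : ℝ) : avg k x a a = dy k (x, a) := by
  simp [avg]

lemma avg_cont {k : ℝ × ℝ → ℝ} (hk : Sm k) :
    Continuous (fun p : ℝ × ℝ × ℝ => avg k p.1 p.2.1 p.2.2) := by
  unfold avg
  apply intervalIntegral.continuous_parametric_intervalIntegral_of_continuous'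
  have := hk.dy.continuous
  simp only [Function.uncurry_def]
  fun_prop

/-- the difference of two solutions -/
lemma flow_diff {k U : ℝ × ℝ → ℝ} {η : ℝ → ℝ} (hk : Sm k) (hU : Continuous U)
    (h0 : ∀ y, U (0, y) = η y)
    (hd : ∀ x y, HasDerivAt (fun x => U (x, y)) (-(k (x, U (x, y)))) x) (x y y₁ : ℝ) :
    U (x, y₁) - U (x, y) = (η y₁ - η y) *
      Real.exp (-(∫ s in (0 : ℝ)..x, avg k s (U (s, y)) (U (s, y₁)))) := by
  have hc : Continuous (fun s : ℝ => avg k s (U (s, y)) (U (s, y₁))) := by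
    have h1 : Continuous (fun s : ℝ => (s, U (s, y), U (s, y₁))) := by fun_prop
    exact (avg_cont hk).comp h1
  have hI : ∀ x, HasDerivAt (fun x => ∫ s in (0 : ℝ)..x, avg k s (U (s, y)) (U (s, y₁)))
      (avg k x (U (x, y)) (U (x, y₁))) x := fun x =>
    intervalIntegral.integral_hasDerivAt_right (hc.intervalIntegrable _ _)
      (hc.stronglyMeasurableAtFilter _ _) hc.continuousAt
  have hD : ∀ x, HasDerivAt (fun x => (U (x, y₁) - U (x, y)) *
      Real.exp (∫ s in (0 : ℝ)..x, avg k s (U (s, y)) (U (s, y₁)))) 0 x := by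
    intro x
    refine HasDerivAt.congr_deriv (((hd x y₁).sub (hd x y)).mul (hI x).exp) ?_
    have h := avg_spec hk x (U (x, y)) (U (x, y₁))
    simp only [Pi.sub_apply]
    linear_combination (-Real.exp (∫ s in (0 : ℝ)..x, avg k s (U (s, y)) (U (s, y₁)))) * h
  have hconst := is_const_of_deriv_eq_zero (fun x => (hD x).differentiableAt)
    (fun x => (hD x).deriv) x 0
  simp only [intervalIntegral.integral_same, Real.exp_zero, mul_one, h0] at hconst
  rw [← hconst, mul_assoc, ← Real.exp_add, add_neg_cancel, Real.exp_zero, mul_one]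

/-- Let `K(x,a,b) = ∫_0^1 k_v(x, a + t (b - a)) dt`, continuous in `(x,a,b)`, with
`k(x,b) - k(x,a) = K(x,a,b) (b - a)` and `K(x,a,a) = k_v(x,a)`. For fixed `y₀, y₁` the difference
`d(x) = U(x,y₁) - U(x,y₀)` satisfies `d' = - K(x, U(x,y₀), U(x,y₁)) d`, hence
`d(x) = (η y₁ - η y₀) exp(- ∫_0^x K(s, U(s,y₀), U(s,y₁)) ds)` (the derivative of
`d(x) exp(∫_0^x K)` is `0`). Divide by `y₁ - y₀` and let `y₁ → y₀`: the exponential factor is
continuous in `y₁` (`intervalIntegral.continuous_parametric_intervalIntegral_of_continuous'`). -/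
theorem flow_dy {k U : ℝ × ℝ → ℝ} {η : ℝ → ℝ} (hk : Sm k) (hη : Sm1 η) (hU : Continuous U)
    (h0 : ∀ y, U (0, y) = η y)
    (hd : ∀ x y, HasDerivAt (fun x => U (x, y)) (-(k (x, U (x, y)))) x) (x y : ℝ) :
    HasDerivAt (fun y => U (x, y))
      (deriv η y * Real.exp (-(∫ s in (0 : ℝ)..x, dy k (s, U (s, y))))) y := by
  rw [hasDerivAt_iff_tendsto_slope]
  have hη' := hasDerivAt_iff_tendsto_slope.1 (hη.diffAt y).hasDerivAt
  have hg : Continuous (fun y₁ : ℝ =>
      Real.exp (-(∫ s in (0 : ℝ)..x, avg k s (U (s, y)) (U (s, y₁))))) := by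
    have h1 : Continuous (fun y₁ : ℝ =>
        ∫ s in (0 : ℝ)..x, avg k s (U (s, y)) (U (s, y₁))) := by
      apply intervalIntegral.continuous_parametric_intervalIntegral_of_continuous'
      have h2 : Continuous (fun p : ℝ × ℝ => (p.2, U (p.2, y), U (p.2, p.1))) := by fun_prop
      exact (avg_cont hk).comp h2
    fun_prop
  have hg' : Tendsto (fun y₁ : ℝ =>
      Real.exp (-(∫ s in (0 : ℝ)..x, avg k s (U (s, y)) (U (s, y₁))))) (𝓝[≠] y)
      (𝓝 (Real.exp (-(∫ s in (0 : ℝ)..x, dy k (s, U (s, y)))))) := by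
    have h3 := (hg.tendsto y).mono_left (nhdsWithin_le_nhds (s := {y}ᶜ))
    simpa only [avg_self] using h3
  refine (hη'.mul hg').congr fun y₁ => ?_
  rw [slope_def_field, slope_def_field, flow_diff hk hU h0 hd x y y₁]
  ring

end H86N
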