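import Pool.Agent.Lib.H86N.Base
import Mathlib.Analysis.Calculus.FDeriv.Partial

/-! Continuous (`C^n`) partial derivatives give `C^1` (`C^(n+1)`). -/

open Filter Topology
open scoped ContDiff

namespace H86N

/-- continuous partial derivatives give the Fréchet derivative -/
lemma hasFDerivAt_of_partials {U A B : ℝ × ℝ → ℝ} (hA : Continuous A) (hB : Continuous B)
    (hx : ∀ x y, HasDerivAt (fun x => U (x, y)) (A (x, y)) x)
    (hy : ∀ x y, HasDerivAt (fun y => U (x, y)) (B (x, y)) y) (z : ℝ × ℝ) :
    HasFDerivAt U (A z • ContinuousLinearMap.fst ℝ ℝ ℝ + B z • ContinuousLinearMap.snd ℝ ℝ ℝ) z := by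
  have h := hasStrictFDerivAt_uncurry_coprod (𝕜 := ℝ) (u := z) (f := fun x y => U (x, y))
    (f₁ := fun x y => A (x, y) • ContinuousLinearMap.id ℝ ℝ)
    (f₂ := fun x y => B (x, y) • ContinuousLinearMap.id ℝ ℝ)
    (Eventually.of_forall fun v => by
      have h1 := (hx v.1 v.2).hasFDerivAt
      refine h1.congr_fderiv ?_
      ext
      simp [Function.HasUncurry.uncurry])
    (Eventually.of_forall fun v => by
      have h1 := (hy v.1 v.2).hasFDerivAt
      refine h1.congr_fderiv ?_
      ext
      simp [Function.HasUncurry.uncurry])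
    (by
      have : Continuous (fun z : ℝ × ℝ => A z • ContinuousLinearMap.id ℝ ℝ) :=
        hA.smul continuous_const
      exact this.continuousAt)
    (by
      have : Continuous (fun z : ℝ × ℝ => B z • ContinuousLinearMap.id ℝ ℝ) :=
        hB.smul continuous_const
      exact this.continuousAt)
  refine HasFDerivAt.congr_fderiv h.hasFDerivAt ?_
  ext <;> simp [Function.HasUncurry.uncurry]

/-- `C^n` partial derivatives give `C^(n+1)` -/
lemma contDiff_of_partials (n : ℕ) {U A B : ℝ × ℝ → ℝ} (hA : ContDiff ℝ n A)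
    (hB : ContDiff ℝ n B)
    (hx : ∀ x y, HasDerivAt (fun x => U (x, y)) (A (x, y)) x)
    (hy : ∀ x y, HasDerivAt (fun y => U (x, y)) (B (x, y)) y) :
    ContDiff ℝ ((n + 1 : ℕ) : WithTop ℕ∞) U := by
  have hf := hasFDerivAt_of_partials hA.continuous hB.continuous hx hy
  push_cast
  rw [contDiff_succ_iff_fderiv_apply]
  refine ⟨fun z => (hf z).differentiableAt, by simp, fun v => ?_⟩
  have hcong : (fun z => fderiv ℝ U z v) = fun z => A z * v.1 + B z * v.2 := by
    funext z
    rw [(hf z).fderiv]
    simp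
  rw [hcong]
  exact (hA.mul contDiff_const).add (hB.mul contDiff_const)

end H86N
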