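import Pool.Agent.Lib.H86N.Flow1
import Pool.Agent.Lib.H86N.Flow3
import Pool.Agent.Lib.H86N.Partials

/-! Chunk FL4: the flow is smooth. -/

open Filter Topology MeasureTheory
open scoped ContDiff

namespace H86N

/-- By induction on `n`, `U` is `C^n`. `n = 0`: `hU`. Step: the partial derivatives
`U_x = - k(x,U)` (`hd`) and `U_y = η'(y) exp(- ∫_0^x k_v(s,U(s,y)) ds)` (`flow_dy`) are continuous, so
`U` is Fréchet differentiable with derivative `U_x • fst + U_y • snd` (if Mathlib has no theorem on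
continuous partial derivatives: `U(x₁,y₁) - U(x₀,y₁) = ∫_{x₀}^{x₁} U_x(s,y₁) ds` and
continuity), and both partials are `C^n` if `U` is (`contDiff_integral_fin`). Use
`contDiff_succ_iff_hasFDerivAt` or `contDiff_succ_iff_fderiv_apply`. -/
theorem flow_smooth {k U : ℝ × ℝ → ℝ} {η : ℝ → ℝ} (hk : Sm k) (hη : Sm1 η) (hU : Continuous U)
    (h0 : ∀ y, U (0, y) = η y)
    (hd : ∀ x y, HasDerivAt (fun x => U (x, y)) (-(k (x, U (x, y)))) x) : Sm U := by
  refine contDiff_infty.2 fun n => ?_
  induction n with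
  | zero => exact_mod_cast contDiff_zero.2 hU
  | succ n ih =>
    have hle : ((n : ℕ) : WithTop ℕ∞) ≤ ∞ := by
      exact_mod_cast le_top
    have hA : ContDiff ℝ n (fun z : ℝ × ℝ => -(k (z.1, U z))) :=
      ((hk.of_le hle).comp (contDiff_fst.prodMk ih)).neg
    have hdk : ContDiff ℝ n (fun z : ℝ × ℝ => dy k (z.1, U z)) :=
      (hk.dy.of_le hle).comp (contDiff_fst.prodMk ih)
    have hI := contDiff_integral_fin n hdk
    have hB : ContDiff ℝ n (fun z : ℝ × ℝ =>
        deriv η z.2 * Real.exp (-(∫ s in (0 : ℝ)..z.1, dy k (s, U (s, z.2))))) :=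
      ((hη.deriv.of_le hle).comp contDiff_snd).mul hI.neg.exp
    exact contDiff_of_partials n hA hB (fun x y => hd x y)
      (fun x y => flow_dy hk hη hU h0 hd x y)

end H86N
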