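import Pool.Agent.Lib.H86N.Flow2
import Pool.Agent.Lib.H86N.Flow4

/-! Chunk FL5: smooth local flow of `∂_x - h ∂_y`. -/

open Filter Topology
open scoped ContDiff

namespace H86N

/-- `flow_exists`, `flow_smooth` with `k(x,v) = ξ'(x) h(ξ x, v)`; near `0` `ξ' = 1`, `ξ x = x`,
`η y = y`. -/
theorem flow {h : ℝ × ℝ → ℝ} (hh : Sm h) :
    ∃ u : ℝ × ℝ → ℝ, Sm u ∧ (∀ᶠ z in 𝓝 (0 : ℝ × ℝ), dx u z = - h (z.1, u z)) ∧
      ∀ᶠ t in 𝓝 (0 : ℝ), u (0, t) = t := by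
  obtain ⟨ξ, η, U, hξ, hη, hξ0, hη0, hUc, hU0, hUd⟩ := flow_exists hh
  have hk : Sm (fun z : ℝ × ℝ => deriv ξ z.1 * h (ξ z.1, z.2)) :=
    (Sm1.comp1 hξ.deriv sm_fst).mul (hh.comp2 (Sm1.comp1 hξ sm_fst) sm_snd)
  have hU : Sm U := flow_smooth hk hη hUc hU0 hUd
  refine ⟨U, hU, ?_, ?_⟩
  · have h1 : ∀ᶠ x in 𝓝 (0 : ℝ), deriv ξ x = 1 := by
      have h2 : ∀ᶠ x in 𝓝 (0 : ℝ), ξ =ᶠ[𝓝 x] fun x => x := eventually_eventually_nhds.2 hξ0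
      filter_upwards [h2] with x hx
      rw [hx.deriv_eq]
      exact deriv_id x
    have hfst : Tendsto (fun z : ℝ × ℝ => z.1) (𝓝 0) (𝓝 0) :=
      (continuous_fst.tendsto (0 : ℝ × ℝ))
    filter_upwards [hfst.eventually h1, hfst.eventually hξ0] with z hz1 hz2
    have hs : HasDerivAt (fun x => U (x, z.2)) (dx U z) z.1 := by
      have hF : HasFDerivAt U (fderiv ℝ U z) (z.1, z.2) := (hU.diffAt z).hasFDerivAt
      have hc : HasDerivAt (fun x : ℝ => (x, z.2)) ((1 : ℝ), (0 : ℝ)) z.1 :=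
        (hasDerivAt_id z.1).prodMk (hasDerivAt_const z.1 z.2)
      exact hF.comp_hasDerivAt z.1 hc
    have he := hs.unique (hUd z.1 z.2)
    rw [he, hz1, hz2, one_mul]
  · filter_upwards [hη0] with t ht
    rw [hU0, ht]

end H86N
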