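import Pool.Agent.Lib.H86N.S2Defs
import Pool.Agent.Lib.H86N.Flow
import Pool.Agent.Lib.H86N.Box
import Pool.Agent.Lib.H86N.Inv
import Pool.Agent.Lib.H86N.Root

/-! Chunk T1F: `f(0) ≠ 0`, all smooth `f`. -/

open Filter Topology Asymptotics
open scoped ContDiff

namespace H86N

/-- As `caseI_lambda` (copy the proof from `Lambda.lean`), but the equation is only known where
`f_y ≠ 0`. `hat` is the value of the identity at `0`: `f(0) = - f_x(0)^2`. -/
theorem typeI_lambda {f g : ℝ × ℝ → ℝ} (hf : Sm f) (hg : Sm g)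
    (hR : ∀ᶠ z in 𝓝 (0 : ℝ × ℝ), dy f z ≠ 0 → dx f z * (z.1 - dx f z) - f z = g z * dy f z)
    (hat : f 0 = - (dx f 0) ^ 2) (h0 : f 0 ≠ 0) (h2 : dy f 0 = 0) :
    ∃ (lam h : ℝ × ℝ → ℝ), Sm lam ∧ Sm h ∧ lam 0 ≠ 0 ∧
      (∀ᶠ z in 𝓝 (0 : ℝ × ℝ), f z = - (lam z * (z.1 + lam z))) ∧
      (∀ᶠ z in 𝓝 (0 : ℝ × ℝ), dy lam z ≠ 0 → dx lam z = h z * dy lam z) := by
  have z1 : ((0 : ℝ × ℝ)).1 = 0 := rfl
  set l := dx f 0 with hl
  have hl0 : l ≠ 0 := by
    intro h; apply h0; rw [hat, h]; simp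
  -- the square root
  have hV : Sm (fun z : ℝ × ℝ => z.1 ^ 2 / 4 - f z) := ((sm_fst.pow 2).div_const 4).sub hf
  have hV0 : 0 < (fun z : ℝ × ℝ => z.1 ^ 2 / 4 - f z) 0 := by
    simp only [z1, hat]
    have : 0 < l ^ 2 := by positivity
    nlinarith
  obtain ⟨v, hv, hv0, hVv⟩ := root hV hV0 (n := 2) two_ne_zero
  have hv00 : v 0 ^ 2 = l ^ 2 := by
    have := hVv.self_of_nhds
    simp only [z1, hat] at this
    linarith
  obtain ⟨s, hs, hsv⟩ : ∃ s : ℝ, s ^ 2 = 1 ∧ s * v 0 = - l := by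
    rcases sq_eq_sq_iff_eq_or_eq_neg.1 hv00 with h | h
    · exact ⟨-1, by norm_num, by rw [h]; ring⟩
    · exact ⟨1, by norm_num, by rw [h]; ring⟩
  set lam : ℝ × ℝ → ℝ := fun z => - z.1 / 2 + s * v z with hlam
  have hlams : Sm lam := by
    have h1 : Sm (fun z : ℝ × ℝ => - z.1 / 2) := (sm_fst.neg).div_const 2
    exact h1.add (contDiff_const.mul hv)
  have hlam0 : lam 0 = - l := by
    simp only [hlam, z1, hsv]; ring
  have hff : ∀ᶠ z in 𝓝 (0 : ℝ × ℝ), f z = - (lam z * (z.1 + lam z)) := by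
    filter_upwards [hVv] with z hz
    have : f z = z.1 ^ 2 / 4 - v z ^ 2 := by linarith
    rw [this, hlam]
    simp only
    linear_combination (v z ^ 2) * hs
  have hxl : Sm (fun z : ℝ × ℝ => z.1 + lam z) := sm_fst.add hlams
  have hff' : f =ᶠ[𝓝 0] fun z => - (lam z * (z.1 + lam z)) := hff
  have efx : ∀ᶠ z in 𝓝 (0 : ℝ × ℝ), dx f z = - (dx lam z * (z.1 + 2 * lam z)) - lam z := by
    filter_upwards [germ_dx hff'] with z hz
    rw [hz, dx_neg, dx_mul hlams hxl, dx_add sm_fst hlams, dx_fst]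
    ring
  have efy : ∀ᶠ z in 𝓝 (0 : ℝ × ℝ), dy f z = - (dy lam z * (z.1 + 2 * lam z)) := by
    filter_upwards [germ_dy hff'] with z hz
    rw [hz, dy_neg, dy_mul hlams hxl, dy_add sm_fst hlams, dy_fst]
    ring
  have hlx0 : dx lam 0 = 0 := by
    have := efx.self_of_nhds
    rw [← hl, hlam0, z1] at this
    have h3 : dx lam 0 * (2 * l) = 0 := by linarith
    rcases mul_eq_zero.1 h3 with h | h
    · exact h
    · exact absurd h (by simpa using hl0)
  set D : ℝ × ℝ → ℝ := fun z => (z.1 + 2 * lam z) * (1 + dx lam z) with hD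
  have hx2s : Sm (fun z : ℝ × ℝ => z.1 + 2 * lam z) := sm_fst.add (contDiff_const.mul hlams)
  have hDs : Sm D := by
    have h2 : Sm (fun z : ℝ × ℝ => 1 + dx lam z) := contDiff_const.add hlams.dx
    exact hx2s.mul h2
  have hD0 : D 0 ≠ 0 := by
    simp only [hD, hlx0, hlam0, z1]
    simpa using hl0
  have hx2 : ∀ᶠ z in 𝓝 (0 : ℝ × ℝ), z.1 + 2 * lam z ≠ 0 := by
    refine hx2s.continuous.continuousAt.eventually_ne ?_
    rw [hlam0, z1]
    simpa using hl0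
  obtain ⟨w, hw, -, hwD⟩ := recip hDs hD0
  refine ⟨lam, fun z => g z * w z, hlams, hg.mul hw, by rw [hlam0]; exact neg_ne_zero.mpr hl0,
    hff, ?_⟩
  filter_upwards [hR, hff, efx, efy, hwD, hx2] with z a0 a2 a3 a4 a5 a8 hne
  have hfne : dy f z ≠ 0 := by
    rw [a4]
    exact neg_ne_zero.mpr (mul_ne_zero hne a8)
  have a1 := a0 hfne
  rw [a3, a4, a2] at a1
  simp only [hD] at a5
  have a6 : dx lam z * (z.1 + 2 * lam z) ^ 2 * (1 + dx lam z)
      = g z * dy lam z * (z.1 + 2 * lam z) := by linear_combination -a1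
  have a7 : dx lam z = (dx lam z * (z.1 + 2 * lam z) ^ 2 * (1 + dx lam z))
      * (w z ^ 2 * (1 + dx lam z)) := by
    have : (w z * ((z.1 + 2 * lam z) * (1 + dx lam z))) ^ 2 = 1 := by rw [a5]; ring
    linear_combination (- dx lam z) * this
  rw [a6] at a7
  rw [a7]
  linear_combination (g z * dy lam z * w z) * a5

/-- a smooth function with `L_x = 0` near `0` depends only on the second variable near `0` -/
lemma typeI_slice {L : ℝ × ℝ → ℝ} (hL : Sm L) (h : ∀ᶠ z in 𝓝 (0 : ℝ × ℝ), dx L z = 0) :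
    ∀ᶠ z in 𝓝 (0 : ℝ × ℝ), L z = L (0, z.2) := by
  obtain ⟨ε, hε, hb⟩ := Metric.eventually_nhds_iff_ball.1 h
  filter_upwards [Metric.ball_mem_nhds (0 : ℝ × ℝ) hε] with z hz
  have hz' : |z.1| < ε ∧ |z.2| < ε := by
    rw [Metric.mem_ball, Prod.dist_eq, max_lt_iff] at hz
    simpa [Real.dist_eq] using hz
  have hcont : Sm1 (fun s : ℝ => L (s, z.2)) := hL.curve contDiff_id contDiff_const
  have hder : ∀ s ∈ Metric.ball (0 : ℝ) ε, deriv (fun s : ℝ => L (s, z.2)) s = 0 := by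
    intro s hs
    have h1 := deriv_curve (φ := fun s => s) (ψ := fun _ => z.2) hL contDiff_id contDiff_const s
    rw [h1, deriv_id'', deriv_const, mul_one, mul_zero, add_zero]
    refine hb _ ?_
    rw [Metric.mem_ball, Prod.dist_eq, max_lt_iff]
    have hs' : |s| < ε := by simpa [Real.dist_eq] using hs
    simpa [Real.dist_eq] using ⟨hs', hz'.2⟩
  have h3 := Metric.isOpen_ball.is_const_of_deriv_eq_zero (s := Metric.ball (0 : ℝ) ε)
    (convex_ball _ _).isPreconnected (hcont.differentiable (by simp)).differentiableOn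
    (fun s hs => hder s hs) (x := z.1) (y := 0) (by simpa [Real.dist_eq] using hz'.1)
    (Metric.mem_ball_self hε)
  exact h3

/-- `u` from `flow h`, `L(x,t) = lam(x, u(x,t))`. `L_x = lam_x - h lam_y` and `L_t = lam_y u_t` at
`(x, u(x,t))`, so `L_t ≠ 0` implies `L_x = 0` near `0`, and `L_t` is not identically `0` near `0`
(otherwise `lam_y = 0` near `0`, since `(x,t) ↦ (x,u(x,t))` is a local diffeomorphism, `u_t(0) = 1`, `inv_y`;
then `f_y = - lam_y (x + 2 lam) = 0`, contradiction). `box`: `L_x = 0`, so near `0` `L(x,t) = L(0,t) = lam(0,t)` (for `t` near `0`); put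
`φ(t) = lam(0,t)`, `Y` from `inv_y` for `u`: `lam(x,y) = L(x, Y(x,y)) = φ(Y(x,y))`. `Y_y(0) ≠ 0` (from
`Y(x,u(x,t)) = t`), `φ'(0) = lam_y(0) = 0` from `f_y(0) = 0`. `φ` is not constant near `0`, otherwise `f_y = 0`
near `0`. -/
theorem typeI_forward {f g : ℝ × ℝ → ℝ} (hf : Sm f) (hg : Sm g)
    (hR : ∀ᶠ z in 𝓝 (0 : ℝ × ℝ), dy f z ≠ 0 → dx f z * (z.1 - dx f z) - f z = g z * dy f z)
    (hn : ¬ ∀ᶠ z in 𝓝 (0 : ℝ × ℝ), dy f z = 0)
    (hat : f 0 = - (dx f 0) ^ 2) (h0 : f 0 ≠ 0) (h2 : dy f 0 = 0) : TypeI f := by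
  have z1 : ((0 : ℝ × ℝ)).1 = 0 := rfl
  have zz : ((0 : ℝ), (0 : ℝ)) = 0 := rfl
  obtain ⟨lam, h, hlam, hh, hlam0, hff, hlx⟩ := typeI_lambda hf hg hR hat h0 h2
  have hff' : f =ᶠ[𝓝 0] fun z => - (lam z * (z.1 + lam z)) := hff
  have hxl : Sm (fun z : ℝ × ℝ => z.1 + lam z) := sm_fst.add hlam
  have efy : ∀ᶠ z in 𝓝 (0 : ℝ × ℝ), dy f z = - (dy lam z * (z.1 + 2 * lam z)) := by
    filter_upwards [germ_dy hff'] with z hz
    rw [hz, dy_neg, dy_mul hlam hxl, dy_add sm_fst hlam, dy_fst]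
    ring
  have hly0 : dy lam 0 = 0 := by
    have h3 := efy.self_of_nhds
    rw [h2, z1] at h3
    have h4 : dy lam 0 * (2 * lam 0) = 0 := by linarith
    rcases mul_eq_zero.1 h4 with h5 | h5
    · exact h5
    · exact absurd h5 (by simpa using hlam0)
  obtain ⟨u, hu, hux, hu0⟩ := flow hh
  have huz : u 0 = 0 := hu0.self_of_nhds
  have huy : dy u 0 = 1 := by
    have h3 := deriv_slice0 hu 0
    have h4 : (fun t => u (0, t)) =ᶠ[𝓝 0] fun t => t := hu0
    rw [h4.deriv_eq, deriv_id''] at h3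
    exact h3.symm
  have huy0 : dy u 0 ≠ 0 := by rw [huy]; exact one_ne_zero
  obtain ⟨Y, hY, hY0, hY1, -⟩ := inv_y hu huz huy0
  set L : ℝ × ℝ → ℝ := fun z => lam (z.1, u z) with hLd
  have hL : Sm L := hlam.comp2 sm_fst hu
  have eLx : ∀ z, dx L z = dx lam (z.1, u z) + dy lam (z.1, u z) * dx u z := by
    intro z
    rw [hLd, dx_comp2 hlam sm_fst hu, dx_fst, mul_one]
  have eLy : ∀ z, dy L z = dy lam (z.1, u z) * dy u z := by
    intro z
    rw [hLd, dy_comp2 hlam sm_fst hu, dy_fst, mul_zero, zero_add]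
  have hlxc := ev_comp2 (a := fun z => z.1) hlx continuous_fst hu.continuous rfl huz
  have hbox : ∀ᶠ z in 𝓝 (0 : ℝ × ℝ), dy L z ≠ 0 → dx L z = 0 := by
    filter_upwards [hlxc, hux] with z a1 a2 hne
    rw [eLy] at hne
    have h3 : dy lam (z.1, u z) ≠ 0 := left_ne_zero_of_mul hne
    have h4 : dx lam (z.1, u z) = h (z.1, u z) * dy lam (z.1, u z) := a1 h3
    rw [eLx, h4, a2]
    ring
  have hlnz : ¬ ∀ᶠ z in 𝓝 (0 : ℝ × ℝ), dy lam z = 0 := by
    intro hc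
    apply hn
    filter_upwards [hc, efy] with z a1 a2
    rw [a2, a1]
    ring
  have hLn : ¬ ∀ᶠ z in 𝓝 (0 : ℝ × ℝ), dy L z = 0 := by
    intro hc
    apply hlnz
    have huye : ∀ᶠ z in 𝓝 (0 : ℝ × ℝ), dy u z ≠ 0 :=
      hu.dy.continuous.continuousAt.eventually_ne huy0
    have h3 : ∀ᶠ z in 𝓝 (0 : ℝ × ℝ), dy lam (z.1, u z) = 0 := by
      filter_upwards [hc, huye] with z a1 a2
      rw [eLy] at a1
      rcases mul_eq_zero.1 a1 with h4 | h4
      · exact h4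
      · exact absurd h4 a2
    have h4 := ev_comp2 (a := fun z => z.1) h3 continuous_fst hY.continuous rfl hY0
    filter_upwards [h4, hY1] with z a1 a2
    have a1' : dy lam (z.1, u (z.1, Y z)) = 0 := a1
    rw [a2] at a1'
    exact a1'
  have hLx := box hL hbox hLn
  have hLs := typeI_slice hL hLx
  have hLs' := ev_comp2 (a := fun z => z.1) hLs continuous_fst hY.continuous rfl hY0
  have hu0' : ∀ᶠ z in 𝓝 (0 : ℝ × ℝ), u (0, Y z) = Y z := by
    have h3 := ev_snd hu0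
    exact ev_comp2 (a := fun z => z.1) h3 continuous_fst hY.continuous rfl hY0
  have hlY : ∀ᶠ z in 𝓝 (0 : ℝ × ℝ), lam z = lam (0, Y z) := by
    filter_upwards [hLs', hY1, hu0'] with z a1 a2 a3
    have a1' : lam (z.1, u (z.1, Y z)) = lam (0, u (0, Y z)) := a1
    rw [a2, a3] at a1'
    exact a1'
  have hYy : dy Y 0 ≠ 0 := by
    have h3 : (fun z : ℝ × ℝ => u (z.1, Y z)) =ᶠ[𝓝 0] fun z => z.2 := hY1
    have h4 := (germ_dy h3).self_of_nhds
    rw [dy_comp2 hu sm_fst hY, dy_snd, dy_fst] at h4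
    intro h5
    rw [h5] at h4
    norm_num at h4
  refine ⟨fun t => lam (0, t), Y, hlam.slice0, SmoothNear.of_sm hY, hY0, hYy, hlam0, ?_, ?_, ?_⟩
  · rw [deriv_slice0 hlam]
    exact hly0
  · intro hc
    apply hlnz
    have h3 : ∀ᶠ z in 𝓝 (0 : ℝ × ℝ), lam (0, Y z) = lam (0, 0) :=
      ev_comp2 (a := fun z => z.1) (ev_snd hc) continuous_fst hY.continuous rfl hY0
    have h4 : lam =ᶠ[𝓝 0] fun _ => lam (0, 0) := by
      filter_upwards [h3, hlY] with z a1 a2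
      rw [a2, a1]
    filter_upwards [germ_dy h4] with z a1
    rw [a1, dy_const]
  · filter_upwards [hff, hlY] with z a1 a2
    rw [← a2]
    exact a1

end H86N
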