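import Pool.Agent.Lib.H86N.Final
import Pool.Agent.Lib.H86N.TypeIF
import Pool.Agent.Lib.H86N.TypeIB
import Pool.Agent.Lib.H86N.LegA2
import Pool.Agent.Lib.H86N.LegP2
import Pool.Agent.Lib.H86N.FlatQ
import Pool.Agent.Lib.H86N.BackW
import Pool.Agent.Lib.H86N.BackQ

/-! Chunk FINAL2: all smooth `f`. -/

open Filter Topology Asymptotics
open scoped ContDiff

namespace H86N

/-- a flat function vanishes at the origin -/
lemma final2_flat_zero {F : ℝ × ℝ → ℝ} (h : Flat F) : F 0 = 0 := by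
  have h1 := (h 1)
  have h2 := h1.bound
  obtain ⟨C, hC⟩ := h2
  have := hC.self_of_nhds
  simpa using this

/-- a smooth function vanishing near the origin is flat -/
lemma final2_zero_flat {F : ℝ × ℝ → ℝ} (h : ∀ᶠ z in 𝓝 (0 : ℝ × ℝ), F z = 0) : Flat F := by
  intro n
  refine IsBigO.congr' (isBigO_zero _ _) ?_ EventuallyEq.rfl
  filter_upwards [h] with z hz
  exact hz.symm

/-- the identity holds at the origin -/
lemma final2_at {f g : ℝ × ℝ → ℝ} (hf : Sm f) (hg : Sm g)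
    (hR : ∀ᶠ z in 𝓝 (0 : ℝ × ℝ), dy f z ≠ 0 → dx f z * (z.1 - dx f z) - f z = g z * dy f z)
    (hn : ¬ ∀ᶠ z in 𝓝 (0 : ℝ × ℝ), dy f z = 0) (h2 : dy f 0 = 0) :
    f 0 = - (dx f 0) ^ 2 := by
  by_contra hne
  have hE : Sm (fun z => dx f z * (z.1 - dx f z) - f z - g z * dy f z) :=
    (((hf.dx.mul (sm_fst.sub hf.dx)).sub hf).sub (hg.mul hf.dy))
  have h3 : ∀ᶠ z in 𝓝 (0 : ℝ × ℝ), dx f z * (z.1 - dx f z) - f z - g z * dy f z ≠ 0 := by
    refine hE.continuous.continuousAt.eventually_ne ?_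
    simp only [Prod.fst_zero, h2, mul_zero, sub_zero, zero_sub]
    intro h
    apply hne
    linarith
  apply hn
  filter_upwards [hR, h3] with z a b
  by_contra hz
  exact b (by rw [a hz]; ring)

theorem forward2_sm {f g : ℝ × ℝ → ℝ} (hf : Sm f) (hg : Sm g)
    (hR : ∀ᶠ z in 𝓝 (0 : ℝ × ℝ), dy f z ≠ 0 → dx f z * (z.1 - dx f z) - f z = g z * dy f z)
    (hn : ¬ ∀ᶠ z in 𝓝 (0 : ℝ × ℝ), dy f z = 0) (h2 : dy f 0 = 0) (hfl : Flat (dy f)) :
    TypeI f ∨ TypeW f ∨ TypeQ f := by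
  have hat := final2_at hf hg hR hn h2
  by_cases h0 : f 0 = 0
  · have h1 : dx f 0 = 0 := by
      rw [h0] at hat
      have : (dx f 0) ^ 2 = 0 := by linarith
      exact pow_eq_zero_iff two_ne_zero |>.1 this
    by_cases h5 : dx (dx f) 0 = 0
    · obtain ⟨Q, T, G, X, hQ, hT, hG, hX, hT0, hX0, q0, q1, e1, e2, e3, e4, e5⟩ :=
        leg_P2 hf hg hR h0 h1 h5
      have hfl' : Flat (dy Q) := by
        have h := flat_mul (G := fun _ => (-1 : ℝ)) (flat_comp hfl hX sm_snd hX0 rfl)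
          continuous_const
        refine h.congr ?_
        filter_upwards [e1] with z hz
        rw [hz]; ring
      have hn' : ¬ ∀ᶠ z in 𝓝 (0 : ℝ × ℝ), dy Q z = 0 := by
        intro h
        apply hn
        have h' := ev_comp2 (a := T) (b := fun z => z.2) h hT.continuous continuous_snd hT0 rfl
        filter_upwards [h', e2] with z a b
        rw [b, a, neg_zero]
      have hfQ : Flat Q := flat_Q (θ := 1) (Or.inr rfl) hQ hG.neg q0 q1
        (by
          filter_upwards [e3] with z hz hne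
          have := hz hne
          linarith) hn' hfl'
      refine Or.inr (Or.inr ⟨Q, T, SmoothNear.of_sm hQ, SmoothNear.of_sm hT, hT0, hfQ, hn',
        ⟨G, SmoothNear.of_sm hG, ?_⟩, e4.and e5⟩)
      filter_upwards [e3] with z hz hne
      rw [eq_div_iff hne, hz hne]
    · obtain ⟨Q, T, G, X, hQ, hT, hG, hX, hT0, hX0, q0, q1, e1, e2, e3, e4, e5⟩ :=
        leg_A2 hf hg hR h0 h1 h5
      have hfl' : Flat (dy Q) := (flat_comp hfl hX sm_snd hX0 rfl).congr e1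
      have hn' : ¬ ∀ᶠ z in 𝓝 (0 : ℝ × ℝ), dy Q z = 0 := by
        intro h
        apply hn
        have h' := ev_comp2 (a := T) (b := fun z => z.2) h hT.continuous continuous_snd hT0 rfl
        filter_upwards [h', e2] with z a b
        rw [b, a]
      have hfQ : Flat Q := flat_Q (θ := 0) (Or.inl rfl) hQ hG q0 q1
        (by
          filter_upwards [e3] with z hz hne
          have := hz hne
          linarith) hn' hfl'
      refine Or.inr (Or.inl ⟨Q, T, SmoothNear.of_sm hQ, SmoothNear.of_sm hT, hT0, hfQ, hn',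
        ⟨G, SmoothNear.of_sm hG, ?_⟩, e4.and e5⟩)
      filter_upwards [e3] with z hz hne
      rw [eq_div_iff hne]
      exact (hz hne).symm
  · exact Or.inl (typeI_forward hf hg hR hn hat h0 h2)

lemma TypeI.congr {f f' : ℝ × ℝ → ℝ} (h : TypeI f)
    (e : ∀ᶠ z in 𝓝 (0 : ℝ × ℝ), f' z = f z) : TypeI f' := by
  obtain ⟨φ, Y, h1, h2, h3, h4, h5, h6, h7, h8⟩ := h
  exact ⟨φ, Y, h1, h2, h3, h4, h5, h6, h7, by filter_upwards [h8, e] with z a b; rw [b, a]⟩

lemma TypeW.congr {f f' : ℝ × ℝ → ℝ} (h : TypeW f)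
    (e : ∀ᶠ z in 𝓝 (0 : ℝ × ℝ), f' z = f z) : TypeW f' := by
  obtain ⟨φ, Y, h1, h2, h3, h4, h5, h6, h7⟩ := h
  exact ⟨φ, Y, h1, h2, h3, h4, h5, h6, by
    filter_upwards [h7, e] with z a b; exact ⟨a.1, by rw [b, a.2]⟩⟩

lemma TypeQ.congr {f f' : ℝ × ℝ → ℝ} (h : TypeQ f)
    (e : ∀ᶠ z in 𝓝 (0 : ℝ × ℝ), f' z = f z) : TypeQ f' := by
  obtain ⟨φ, Y, h1, h2, h3, h4, h5, h6, h7⟩ := h
  exact ⟨φ, Y, h1, h2, h3, h4, h5, h6, by
    filter_upwards [h7, e] with z a b; exact ⟨a.1, by rw [b, a.2]⟩⟩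

theorem forward2 {f : ℝ × ℝ → ℝ} (hf : SmoothNear f) (h2 : dy f 0 = 0)
    (hn : ¬ ∀ᶠ z in 𝓝 (0 : ℝ × ℝ), dy f z = 0) (hR : RExtends f) :
    TypeI f ∨ HasNormalForm f ∨ TypeW f ∨ TypeQ f := by
  by_cases hfl : Flat (dy f)
  · obtain ⟨g0, hg0, hgR⟩ := hR
    obtain ⟨F, hF, hFf⟩ := exists_sm_ext hf
    obtain ⟨g, hg, hgg⟩ := exists_sm_ext hg0
    have ex := germ_dx (F := F) (G := f) hFf
    have ey := germ_dy (F := F) (G := f) hFf
    have hFfl : Flat (dy F) := hfl.congr ey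
    have h2' : dy F 0 = 0 := by rw [ey.self_of_nhds]; exact h2
    have hn' : ¬ ∀ᶠ z in 𝓝 (0 : ℝ × ℝ), dy F z = 0 := by
      intro h
      apply hn
      filter_upwards [h, ey] with z a b
      rw [← b, a]
    have hR' : ∀ᶠ z in 𝓝 (0 : ℝ × ℝ),
        dy F z ≠ 0 → dx F z * (z.1 - dx F z) - F z = g z * dy F z := by
      filter_upwards [hgR, hFf, hgg, ex, ey] with z a b c d e hz
      rw [e] at hz
      have h3 := a hz
      rw [eq_div_iff hz] at h3
      rw [d, e, b, c, h3]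
    have hback : ∀ᶠ z in 𝓝 (0 : ℝ × ℝ), f z = F z := hFf.mono fun z hz => hz.symm
    rcases forward2_sm hF hg hR' hn' h2' hFfl with h | h | h
    · exact Or.inl (h.congr hback)
    · exact Or.inr (Or.inr (Or.inl (h.congr hback)))
    · exact Or.inr (Or.inr (Or.inr (h.congr hback)))
  · exact Or.inr (Or.inl ((classification hf).1 ⟨h2, hfl, hR⟩))

theorem classification2 {f : ℝ × ℝ → ℝ} (hf : SmoothNear f) :
    (dy f 0 = 0 ∧ (¬ ∀ᶠ z in 𝓝 (0 : ℝ × ℝ), dy f z = 0) ∧ RExtends f) ↔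
      (TypeI f ∨ HasNormalForm f ∨ TypeW f ∨ TypeQ f) := by
  constructor
  · rintro ⟨h1, h2, h3⟩
    exact forward2 hf h1 h2 h3
  · rintro (h | h | h | h)
    · exact typeI_back h
    · obtain ⟨h1, h2, h3⟩ := back h
      exact ⟨h1, fun h' => h2 (final2_zero_flat h'), h3⟩
    · exact typeW_back h
    · exact typeQ_back h

/-- the forward direction as a trichotomy -/
theorem trichotomy {f : ℝ × ℝ → ℝ} (hf : SmoothNear f) (h2 : dy f 0 = 0)
    (hn : ¬ ∀ᶠ z in 𝓝 (0 : ℝ × ℝ), dy f z = 0) (hR : RExtends f) :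
    (f 0 ≠ 0 ∧ TypeI f) ∨ (f 0 = 0 ∧ (¬ Flat (dy f)) ∧ HasNormalForm f) ∨
      (f 0 = 0 ∧ Flat (dy f) ∧ (TypeW f ∨ TypeQ f)) := by
  by_cases h0 : f 0 = 0
  · by_cases hfl : Flat (dy f)
    · refine Or.inr (Or.inr ⟨h0, hfl, ?_⟩)
      rcases forward2 hf h2 hn hR with h | h | h
      · exfalso
        obtain ⟨φ, Y, h1, h2, h3, h4, h5, h6, h7, h8⟩ := h
        have h9 := h8.self_of_nhds
        rw [h0, h3] at h9
        simp only [Prod.fst_zero, zero_add] at h9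
        apply h5
        have h10 : φ 0 * φ 0 = 0 := by linarith
        exact mul_self_eq_zero.1 h10
      · exfalso
        exact (back h).2.1 hfl
      · exact h
    · exact Or.inr (Or.inl ⟨h0, hfl, (classification hf).1 ⟨h2, hfl, hR⟩⟩)
  · refine Or.inl ⟨h0, ?_⟩
    obtain ⟨g0, hg0, hgR⟩ := hR
    obtain ⟨F, hF, hFf⟩ := exists_sm_ext hf
    obtain ⟨g, hg, hgg⟩ := exists_sm_ext hg0
    have ex := germ_dx (F := F) (G := f) hFf
    have ey := germ_dy (F := F) (G := f) hFf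
    have h2' : dy F 0 = 0 := by rw [ey.self_of_nhds]; exact h2
    have h0' : F 0 ≠ 0 := by rw [hFf.self_of_nhds]; exact h0
    have hn' : ¬ ∀ᶠ z in 𝓝 (0 : ℝ × ℝ), dy F z = 0 := by
      intro h
      apply hn
      filter_upwards [h, ey] with z a b
      rw [← b, a]
    have hR' : ∀ᶠ z in 𝓝 (0 : ℝ × ℝ),
        dy F z ≠ 0 → dx F z * (z.1 - dx F z) - F z = g z * dy F z := by
      filter_upwards [hgR, hFf, hgg, ex, ey] with z a b c d e hz
      rw [e] at hz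
      have h3 := a hz
      rw [eq_div_iff hz] at h3
      rw [d, e, b, c, h3]
    have hback : ∀ᶠ z in 𝓝 (0 : ℝ × ℝ), f z = F z := hFf.mono fun z hz => hz.symm
    exact (typeI_forward hF hg hR' hn' (final2_at hF hg hR' hn' h2') h0' h2').congr hback

end H86N
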