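import Pool.Agent.Lib.H86N.Base
import Mathlib.Analysis.Calculus.ParametricIntervalIntegral

/-! Chunk FL1: `∫_0^x F(s,y) ds` is `C^n` if `F` is. -/

open Filter Topology MeasureTheory
open scoped ContDiff

namespace H86N

/-- derivative of a parametric integral of a `C^1` function -/
lemma fl1_hasFDerivAt {G : Type} [NormedAddCommGroup G] [NormedSpace ℝ G]
    [CompleteSpace G] (f : ℝ × (ℝ × ℝ) → G) (hf : ContDiff ℝ 1 f) (z₀ : ℝ × ℝ) :
    HasFDerivAt (fun z : ℝ × ℝ => ∫ t in (0 : ℝ)..1, f (t, z))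
      (∫ t in (0 : ℝ)..1, (fderiv ℝ f (t, z₀)).comp (ContinuousLinearMap.inr ℝ ℝ (ℝ × ℝ))) z₀ := by
  have hdf : Continuous (fun p : ℝ × (ℝ × ℝ) =>
      (fderiv ℝ f p).comp (ContinuousLinearMap.inr ℝ ℝ (ℝ × ℝ))) := by
    have h1 : Continuous (fderiv ℝ f) := hf.continuous_fderiv (by simp)
    exact h1.clm_comp continuous_const
  have hc : IsCompact (Set.Icc (0 : ℝ) 1 ×ˢ Metric.closedBall z₀ 1) :=
    isCompact_Icc.prod (isCompact_closedBall z₀ 1)
  obtain ⟨C, hC⟩ := hc.exists_bound_of_continuousOn hdf.continuousOn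
  refine intervalIntegral.hasFDerivAt_integral_of_dominated_of_fderiv_le (𝕜 := ℝ)
    (s := Metric.closedBall z₀ 1) (bound := fun _ => C)
    (F := fun z t => f (t, z)) (F' := fun z t => (fderiv ℝ f (t, z)).comp
      (ContinuousLinearMap.inr ℝ ℝ (ℝ × ℝ))) ?_ ?_ ?_ ?_ ?_ ?_ ?_
  · exact Metric.closedBall_mem_nhds z₀ one_pos
  · refine Eventually.of_forall fun z => ?_
    have : Continuous (fun t : ℝ => f (t, z)) := hf.continuous.comp (by fun_prop)
    exact this.aestronglyMeasurable
  · have : Continuous (fun t : ℝ => f (t, z₀)) := hf.continuous.comp (by fun_prop)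
    exact this.intervalIntegrable _ _
  · have : Continuous (fun t : ℝ => (fderiv ℝ f (t, z₀)).comp
      (ContinuousLinearMap.inr ℝ ℝ (ℝ × ℝ))) := hdf.comp (by fun_prop)
    exact this.aestronglyMeasurable
  · refine Eventually.of_forall fun t ht z hz => ?_
    apply hC
    rw [Set.uIoc_of_le zero_le_one] at ht
    exact ⟨⟨ht.1.le, ht.2⟩, hz⟩
  · exact continuous_const.intervalIntegrable _ _
  · refine Eventually.of_forall fun t ht z hz => ?_
    have h1 : HasFDerivAt f (fderiv ℝ f (t, z)) (t, z) :=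
      (hf.differentiable (by simp) _).hasFDerivAt
    have h2 : HasFDerivAt (fun z : ℝ × ℝ => (t, z)) (ContinuousLinearMap.inr ℝ ℝ (ℝ × ℝ)) z :=
      hasFDerivAt_prodMk_right t z
    exact h1.comp z h2

/-- A parametric integral of a `C^n` function is `C^n`. -/
theorem fl1_param (n : ℕ) {G : Type} [NormedAddCommGroup G] [NormedSpace ℝ G]
    [CompleteSpace G] (f : ℝ × (ℝ × ℝ) → G) (hf : ContDiff ℝ n f) :
    ContDiff ℝ n (fun z : ℝ × ℝ => ∫ t in (0 : ℝ)..1, f (t, z)) := by
  induction n generalizing f with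
  | zero =>
    have : Continuous (fun z : ℝ × ℝ => ∫ t in (0 : ℝ)..1, f (t, z)) := by
      apply intervalIntegral.continuous_parametric_intervalIntegral_of_continuous'
      have := hf.continuous
      simp only [Function.uncurry_def]
      fun_prop
    exact_mod_cast contDiff_zero.2 this
  | succ n ih =>
    push_cast at hf ⊢
    have hf1 : ContDiff ℝ 1 f := hf.of_le (by simp)
    rw [contDiff_succ_iff_fderiv_apply]
    refine ⟨fun z => (fl1_hasFDerivAt f hf1 z).differentiableAt, by simp, ?_⟩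
    intro v
    have hcong : (fun z : ℝ × ℝ => fderiv ℝ (fun z : ℝ × ℝ => ∫ t in (0 : ℝ)..1, f (t, z)) z v)
        = fun z : ℝ × ℝ => ∫ t in (0 : ℝ)..1, (fderiv ℝ f (t, z)) (0, v) := by
      funext z
      rw [(fl1_hasFDerivAt f hf1 z).fderiv]
      rw [ContinuousLinearMap.intervalIntegral_apply]
      · simp
      · have hdf : Continuous (fun p : ℝ × (ℝ × ℝ) =>
            (fderiv ℝ f p).comp (ContinuousLinearMap.inr ℝ ℝ (ℝ × ℝ))) := by
          have h1 : Continuous (fderiv ℝ f) := hf1.continuous_fderiv (by simp)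
          exact h1.clm_comp continuous_const
        have : Continuous (fun t : ℝ => (fderiv ℝ f (t, z)).comp
          (ContinuousLinearMap.inr ℝ ℝ (ℝ × ℝ))) := hdf.comp (by fun_prop)
        exact this.intervalIntegrable _ _
    rw [hcong]
    exact ih (fun p => fderiv ℝ f p (0, v))
      ((hf.fderiv_right (m := n) le_rfl).clm_apply contDiff_const)

/-- Induction on `n` (generalising `F`). `n = 0`: continuity
(`intervalIntegral.continuous_parametric_intervalIntegral_of_continuous`, the upper limit may vary).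
`n + 1`: the Fréchet derivative at `z` is `F z • fst + (∫_0^{z.1} F_y(s, z.2) ds) • snd`
(e.g. partial derivatives exist and are continuous; compare `had_hasFDerivAt` in `Had.lean` for the
`y`-part), use `contDiff_succ_iff_fderiv_apply` or `contDiff_succ_iff_hasFDerivAt`. -/
theorem contDiff_integral_fin (n : ℕ) {F : ℝ × ℝ → ℝ} (hF : ContDiff ℝ n F) :
    ContDiff ℝ n (fun z : ℝ × ℝ => ∫ s in (0 : ℝ)..z.1, F (s, z.2)) := by
  have h : (fun z : ℝ × ℝ => ∫ s in (0 : ℝ)..z.1, F (s, z.2)) =
      fun z : ℝ × ℝ => z.1 * ∫ t in (0 : ℝ)..1, F (z.1 * t, z.2) := by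
    funext z
    have := intervalIntegral.mul_integral_comp_mul_left (a := 0) (b := 1)
      (f := fun s => F (s, z.2)) z.1
    rw [this]
    simp
  rw [h]
  refine contDiff_fst.mul ?_
  refine fl1_param n (fun p : ℝ × (ℝ × ℝ) => F (p.2.1 * p.1, p.2.2)) ?_
  exact hF.comp (by fun_prop)

end H86N
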