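import Pool.Agent.Lib.H86N.Ext
import Mathlib.Analysis.ODE.ExistUnique

/-! Chunk FL2: existence of a continuous flow, globally parametrised. -/

open Filter Topology
open scoped ContDiff

namespace H86N

/-- a smooth function with values in `(-δ, δ)`, equal to the identity near `0` -/
lemma exists_cut {δ : ℝ} (hδ : 0 < δ) :
    ∃ ξ : ℝ → ℝ, Sm1 ξ ∧ (∀ x, |ξ x| < δ) ∧ ∀ᶠ x in 𝓝 (0 : ℝ), ξ x = x := by
  let χ : ContDiffBump (0 : ℝ) := ⟨δ / 3, δ / 2, by positivity, by linarith⟩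
  refine ⟨fun t => t * χ t, contDiff_id.mul χ.contDiff, fun t => ?_, ?_⟩
  · rcases le_or_gt (δ / 2) |t| with h | h
    · have h0 : χ t = 0 := χ.zero_of_le_dist (by simpa [Real.dist_eq] using h)
      simp only [h0, mul_zero, abs_zero]
      exact hδ
    · have h1 : |χ t| ≤ 1 := by
        rw [abs_of_nonneg χ.nonneg]
        exact χ.le_one
      rw [abs_mul]
      have h2 := mul_le_mul_of_nonneg_left h1 (abs_nonneg t)
      linarith
  · have hm : Metric.closedBall (0 : ℝ) (δ / 3) ∈ 𝓝 (0 : ℝ) :=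
      Metric.closedBall_mem_nhds _ (by positivity)
    filter_upwards [hm] with t ht
    have h1 : χ t = 1 := χ.one_of_mem_closedBall ht
    simp only [h1, mul_one]

/-- `IsPicardLindelof.of_contDiffAt_one` for the vector field `(x,u) ↦ (1, - h(x,u))` at `0` and
`IsPicardLindelof.exists_forall_mem_closedBall_eq_hasDerivWithinAt_continuousOn` (with `t₀ = 0`)
give `r, ε > 0` and `u : ℝ × ℝ → ℝ`, continuous on `[-ε,ε] × [-r,r]`, with `u(0,y) = y` and
`d/dx u(x,y) = - h(x, u(x,y))` for `|x| < ε`, `|y| ≤ r` (start at `(0,y)`; the first component is `x`).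
Let `ξ, η` be smooth functions on the line with values in `(-ε,ε)` resp. `(-r,r)`, equal to the
identity near `0` (`t χ(t)` with a bump function `χ`). Put `U(x,y) = u(ξ x, η y)`. -/
theorem flow_exists {h : ℝ × ℝ → ℝ} (hh : Sm h) :
    ∃ (ξ η : ℝ → ℝ) (U : ℝ × ℝ → ℝ), Sm1 ξ ∧ Sm1 η ∧ (∀ᶠ x in 𝓝 (0 : ℝ), ξ x = x) ∧
      (∀ᶠ y in 𝓝 (0 : ℝ), η y = y) ∧ Continuous U ∧ (∀ y, U (0, y) = η y) ∧
      ∀ x y, HasDerivAt (fun x => U (x, y)) (-(deriv ξ x * h (ξ x, U (x, y)))) x := by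
  have hV : ContDiffAt ℝ 1 (fun z : ℝ × ℝ => ((1 : ℝ), -h z)) 0 :=
    (contDiff_const.prodMk (hh.neg.of_le (by exact_mod_cast le_top))).contDiffAt
  obtain ⟨ε, hε, a, r, L, K, hr, hPL⟩ := IsPicardLindelof.of_contDiffAt_one hV
  obtain ⟨α, hα, hαc⟩ :=
    (hPL 0).exists_forall_mem_closedBall_eq_hasDerivWithinAt_continuousOn
  obtain ⟨ξ, hξ, hξb, hξ0⟩ := exists_cut hε
  obtain ⟨η, hη, hηb, hη0⟩ := exists_cut (show (0 : ℝ) < r from hr)
  have hmem : ∀ y, ((0 : ℝ), η y) ∈ Metric.closedBall (0 : ℝ × ℝ) r := by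
    intro y
    rw [mem_closedBall_zero_iff, Prod.norm_def]
    simp only [norm_zero, Real.norm_eq_abs]
    exact max_le hr.le (hηb y).le
  have hIcc : ∀ x, ξ x ∈ Set.Icc (0 - ε) (0 + ε) := by
    intro x
    have := abs_lt.1 (hξb x)
    constructor <;> linarith [this.1, this.2]
  have hξ00 : ξ 0 = 0 := hξ0.self_of_nhds
  -- first component
  have hfst : ∀ y, ∀ t ∈ Set.Icc (0 - ε) (0 + ε), (α ((0, η y), t)).1 = t := by
    intro y t ht
    have hd : ∀ s ∈ Set.Icc (0 - ε) (0 + ε),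
        HasDerivWithinAt (fun s => (α ((0, η y), s)).1 - s) 0 (Set.Icc (0 - ε) (0 + ε)) s := by
      intro s hs
      have h1 := ((hα _ (hmem y)).2 s hs)
      have h2 : HasDerivWithinAt (fun s => (α ((0, η y), s)).1) (1 : ℝ)
          (Set.Icc (0 - ε) (0 + ε)) s := by
        exact (ContinuousLinearMap.fst ℝ ℝ ℝ).hasFDerivAt.comp_hasDerivWithinAt s h1
      have h3 := h2.sub (hasDerivWithinAt_id s _)
      rw [sub_self] at h3
      exact h3
    have hconst : (fun s => (α ((0, η y), s)).1 - s) t = (fun s => (α ((0, η y), s)).1 - s) 0 := by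
      refine (convex_Icc (0 - ε) (0 + ε)).is_const_of_fderivWithin_eq_zero (𝕜 := ℝ)
        (fun s hs => (hd s hs).differentiableWithinAt) (fun s hs => ?_) ht ?_
      · have hu : UniqueDiffWithinAt ℝ (Set.Icc (0 - ε) (0 + ε)) s :=
          uniqueDiffOn_Icc (by linarith) s hs
        rw [(hd s hs).hasFDerivWithinAt.fderivWithin hu]
        ext
        simp
      · constructor <;> linarith
    have h0 : α ((0, η y), 0) = (0, η y) := (hα _ (hmem y)).1
    simp only [h0] at hconst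
    simpa [sub_eq_zero] using hconst
  refine ⟨ξ, η, fun z => (α ((0, η z.2), ξ z.1)).2, hξ, hη, hξ0, hη0, ?_, ?_, ?_⟩
  · refine continuous_snd.comp (hαc.comp_continuous ?_ ?_)
    · exact (continuous_const.prodMk (hη.continuous.comp continuous_snd)).prodMk
        (hξ.continuous.comp continuous_fst)
    · intro z
      exact ⟨hmem z.2, hIcc z.1⟩
  · intro y
    have h0 : α ((0, η y), 0) = (0, η y) := (hα _ (hmem y)).1
    simp only [hξ00, h0]
  · intro x y
    have h1 := ((hα _ (hmem y)).2 (ξ x) (hIcc x))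
    have h2 : HasDerivWithinAt (fun s => (α ((0, η y), s)).2) (-h (α ((0, η y), ξ x)))
        (Set.Icc (0 - ε) (0 + ε)) (ξ x) := by
      exact (ContinuousLinearMap.snd ℝ ℝ ℝ).hasFDerivAt.comp_hasDerivWithinAt (ξ x) h1
    have hn : Set.Icc (0 - ε) (0 + ε) ∈ 𝓝 (ξ x) := by
      have := abs_lt.1 (hξb x)
      exact Icc_mem_nhds (by linarith [this.1]) (by linarith [this.2])
    have h3 := h2.hasDerivAt hn
    have h4 : HasDerivAt ξ (deriv ξ x) x := (hξ.differentiable (by simp) x).hasDerivAt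
    have h5 := h3.comp x h4
    have hval : α ((0, η y), ξ x) = (ξ x, (α ((0, η y), ξ x)).2) :=
      Prod.ext (hfst y _ (hIcc x)) rfl
    have h6 : -(deriv ξ x * h (ξ x, (α ((0, η y), ξ x)).2)) =
        -h (α ((0, η y), ξ x)) * deriv ξ x := by
      rw [← hval]; ring
    show HasDerivAt (fun x => (α ((0, η y), ξ x)).2)
      (-(deriv ξ x * h (ξ x, (α ((0, η y), ξ x)).2))) x
    rw [h6]
    exact h5

end H86N
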