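import Pool.Agent.Lib.H86N.Base
import Mathlib.Analysis.Calculus.ParametricIntervalIntegral

/-! Chunk HAD: Hadamard's lemma (parametric integrals of smooth functions are smooth). -/

open Filter Topology MeasureTheory
open scoped ContDiff

namespace H86N

/-- derivative of a parametric integral -/
lemma had_hasFDerivAt {G : Type} [NormedAddCommGroup G] [NormedSpace ℝ G]
    [CompleteSpace G] (f : ℝ × (ℝ × ℝ) → G) (hf : ContDiff ℝ ∞ f) (z₀ : ℝ × ℝ) :
    HasFDerivAt (fun z : ℝ × ℝ => ∫ t in (0 : ℝ)..1, f (t, z))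
      (∫ t in (0 : ℝ)..1, (fderiv ℝ f (t, z₀)).comp (ContinuousLinearMap.inr ℝ ℝ (ℝ × ℝ))) z₀ := by
  have hdf : Continuous (fun p : ℝ × (ℝ × ℝ) =>
      (fderiv ℝ f p).comp (ContinuousLinearMap.inr ℝ ℝ (ℝ × ℝ))) := by
    have h1 : Continuous (fderiv ℝ f) := hf.continuous_fderiv (by simp)
    exact h1.clm_comp continuous_const
  have hc : IsCompact (Set.Icc (0 : ℝ) 1 ×ˢ Metric.closedBall z₀ 1) :=
    isCompact_Icc.prod (isCompact_closedBall z₀ 1)
  obtain ⟨C, hC⟩ := hc.exists_bound_of_continuousOn hdf.continuousOn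
  refine intervalIntegral.hasFDerivAt_integral_of_dominated_of_fderiv_le (𝕜 := ℝ)
    (s := Metric.closedBall z₀ 1) (bound := fun _ => C)
    (F := fun z t => f (t, z)) (F' := fun z t => (fderiv ℝ f (t, z)).comp
      (ContinuousLinearMap.inr ℝ ℝ (ℝ × ℝ))) ?_ ?_ ?_ ?_ ?_ ?_ ?_
  · exact Metric.closedBall_mem_nhds z₀ one_pos
  · refine Eventually.of_forall fun z => ?_
    have : Continuous (fun t : ℝ => f (t, z)) := hf.continuous.comp (by fun_prop)
    exact this.aestronglyMeasurable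
  · have : Continuous (fun t : ℝ => f (t, z₀)) := hf.continuous.comp (by fun_prop)
    exact this.intervalIntegrable _ _
  · have : Continuous (fun t : ℝ => (fderiv ℝ f (t, z₀)).comp
      (ContinuousLinearMap.inr ℝ ℝ (ℝ × ℝ))) := hdf.comp (by fun_prop)
    exact this.aestronglyMeasurable
  · refine Eventually.of_forall fun t ht z hz => ?_
    apply hC
    rw [Set.uIoc_of_le zero_le_one] at ht
    exact ⟨⟨ht.1.le, ht.2⟩, hz⟩
  · exact continuous_const.intervalIntegrable _ _
  · refine Eventually.of_forall fun t ht z hz => ?_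
    have h1 : HasFDerivAt f (fderiv ℝ f (t, z)) (t, z) :=
      (hf.differentiable (by simp) _).hasFDerivAt
    have h2 : HasFDerivAt (fun z : ℝ × ℝ => (t, z)) (ContinuousLinearMap.inr ℝ ℝ (ℝ × ℝ)) z :=
      hasFDerivAt_prodMk_right t z
    exact h1.comp z h2

/-- A parametric integral of a jointly smooth function is smooth.
Proof by induction on the order. -/
theorem contDiff_param_integral {G : Type} [NormedAddCommGroup G] [NormedSpace ℝ G]
    [CompleteSpace G] (n : ℕ) (f : ℝ × (ℝ × ℝ) → G) (hf : ContDiff ℝ ∞ f) :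
    ContDiff ℝ n (fun z : ℝ × ℝ => ∫ t in (0 : ℝ)..1, f (t, z)) := by
  induction n generalizing f with
  | zero =>
    have : Continuous (fun z : ℝ × ℝ => ∫ t in (0 : ℝ)..1, f (t, z)) := by
      apply intervalIntegral.continuous_parametric_intervalIntegral_of_continuous'
      have := hf.continuous
      simp only [Function.uncurry_def]
      fun_prop
    exact_mod_cast contDiff_zero.2 this
  | succ n ih =>
    push_cast
    rw [contDiff_succ_iff_fderiv_apply]
    refine ⟨fun z => (had_hasFDerivAt f hf z).differentiableAt, by simp, ?_⟩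
    intro v
    have hcong : (fun z : ℝ × ℝ => fderiv ℝ (fun z : ℝ × ℝ => ∫ t in (0 : ℝ)..1, f (t, z)) z v)
        = fun z : ℝ × ℝ => ∫ t in (0 : ℝ)..1, (fderiv ℝ f (t, z)) (0, v) := by
      funext z
      rw [(had_hasFDerivAt f hf z).fderiv]
      rw [ContinuousLinearMap.intervalIntegral_apply]
      · simp
      · have hdf : Continuous (fun p : ℝ × (ℝ × ℝ) =>
            (fderiv ℝ f p).comp (ContinuousLinearMap.inr ℝ ℝ (ℝ × ℝ))) := by
          have h1 : Continuous (fderiv ℝ f) := hf.continuous_fderiv (by simp)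
          exact h1.clm_comp continuous_const
        have : Continuous (fun t : ℝ => (fderiv ℝ f (t, z)).comp
          (ContinuousLinearMap.inr ℝ ℝ (ℝ × ℝ))) := hdf.comp (by fun_prop)
        exact this.intervalIntegrable _ _
    rw [hcong]
    exact ih (fun p => fderiv ℝ f p (0, v))
      ((hf.fderiv_right (m := ∞) (by simp)).clm_apply contDiff_const)

lemma had_sm {f : ℝ × (ℝ × ℝ) → ℝ} (hf : ContDiff ℝ ∞ f) :
    Sm (fun z : ℝ × ℝ => ∫ t in (0 : ℝ)..1, f (t, z)) :=
  contDiff_infty.2 fun n => contDiff_param_integral n f hf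

/-- Hadamard in `x`: `F z - F (0, z.2) = z.1 * ∫_0^1 F_x (t z.1, z.2) dt`. -/
theorem had_x {F : ℝ × ℝ → ℝ} (hF : Sm F) :
    ∃ H : ℝ × ℝ → ℝ, Sm H ∧ ∀ z, F z = F (0, z.2) + z.1 * H z := by
  refine ⟨fun z => ∫ t in (0 : ℝ)..1, dx F (t * z.1, z.2), ?_, ?_⟩
  · apply had_sm (f := fun p : ℝ × (ℝ × ℝ) => dx F (p.1 * p.2.1, p.2.2))
    have h := hF.dx
    fun_prop
  · intro z
    have hd : ∀ t ∈ Set.uIcc (0 : ℝ) 1, HasDerivAt (fun t : ℝ => F (t * z.1, z.2))
        (z.1 * dx F (t * z.1, z.2)) t := by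
      intro t _
      have h := (hF.diffAt (t * z.1, z.2)).hasFDerivAt.comp_hasDerivAt t
        (((hasDerivAt_id t).mul_const z.1).prodMk (hasDerivAt_const t z.2))
      rw [fderiv_apply_eq] at h
      refine HasDerivAt.congr_deriv h ?_
      simp [mul_comm]
    have hc : Continuous (fun t : ℝ => z.1 * dx F (t * z.1, z.2)) := by
      have h := hF.dx.continuous
      fun_prop
    have hint := intervalIntegral.integral_eq_sub_of_hasDerivAt hd (hc.intervalIntegrable _ _)
    rw [intervalIntegral.integral_const_mul] at hint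
    simp only [one_mul, zero_mul] at hint
    rw [hint]
    ring

theorem had_y {F : ℝ × ℝ → ℝ} (hF : Sm F) :
    ∃ H : ℝ × ℝ → ℝ, Sm H ∧ ∀ z, F z = F (z.1, 0) + z.2 * H z := by
  obtain ⟨H, hH, h⟩ := had_x (F := fun z => F (z.2, z.1)) (hF.comp2 sm_snd sm_fst)
  refine ⟨fun z => H (z.2, z.1), hH.comp2 sm_snd sm_fst, fun z => ?_⟩
  have := h (z.2, z.1)
  simpa using this

theorem had_1 {φ : ℝ → ℝ} (hφ : Sm1 φ) :
    ∃ ψ : ℝ → ℝ, Sm1 ψ ∧ ∀ t, φ t = φ 0 + t * ψ t := by
  obtain ⟨H, hH, h⟩ := had_x (F := fun z => φ z.1) (hφ.comp1 sm_fst)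
  refine ⟨fun t => H (t, 0), hH.curve contDiff_id contDiff_const, fun t => ?_⟩
  have := h (t, 0)
  simpa using this

end H86N
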