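import Pool.Agent.Lib.H86N.G1
import Pool.Agent.Lib.H86N.P6
import Pool.Agent.Lib.H49M.K4

/-!
# KF: Kemmer systems with an odd number of generators in the middle degree have an invariant form
-/

set_option autoImplicit false
set_option linter.unusedSectionVars false
namespace Pool.Agent.H86N
open Module Pool.Agent.H53Toric Pool.Agent.H49M

universe u

variable {K : Type*} [Field K] {V : Type u} [AddCommGroup V] [Module K V]

/-- A space of operators spanned by a set closed under brackets modulo its span is a Lie algebra. -/
theorem kf_lie_span {S : Set (Module.End K V)}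
    (h : ∀ a ∈ S, ∀ b ∈ S, a * b - b * a ∈ Submodule.span K S) : IsLie (Submodule.span K S) := by
  have h1 : ∀ a ∈ S, ∀ Y ∈ Submodule.span K S, a * Y - Y * a ∈ Submodule.span K S := by
    intro a ha Y hY
    refine Submodule.span_induction (p := fun Y _ => a * Y - Y * a ∈ Submodule.span K S)
      (fun b hb => h a ha b hb) (by simp) ?_ ?_ hY
    · intro y z _ _ h2 h3
      have e1 : a * (y + z) - (y + z) * a = (a * y - y * a) + (a * z - z * a) := by noncomm_ring
      rw [e1]
      exact add_mem h2 h3
    · intro c y _ h2
      have e1 : a * (c • y) - (c • y) * a = c • (a * y - y * a) := by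
        rw [mul_smul_comm, smul_mul_assoc, smul_sub]
      rw [e1]
      exact Submodule.smul_mem _ _ h2
  intro X hX Y hY
  refine Submodule.span_induction (p := fun X _ => X * Y - Y * X ∈ Submodule.span K S)
    (fun b hb => h1 b hb Y hY) (by simp) ?_ ?_ hX
  · intro y z _ _ h2 h3
    have e1 : (y + z) * Y - Y * (y + z) = (y * Y - Y * y) + (z * Y - Y * z) := by noncomm_ring
    rw [e1]
    exact add_mem h2 h3
  · intro c y _ h2
    have e1 : (c • y) * Y - Y * (c • y) = c • (y * Y - Y * y) := by
      rw [mul_smul_comm, smul_mul_assoc, smul_sub]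
    rw [e1]
    exact Submodule.smul_mem _ _ h2

/-- The generators of the Lie algebra of a Kemmer system. -/
def kgen (s : Module.End K V) {n : ℕ} (x y : Fin n → Module.End K V) : Set (Module.End K V) :=
  {T | T = s ∨ (∃ i, T = x i) ∨ (∃ i, T = y i) ∨ ∃ i j, T = x i * y j - y j * x i}

/-- The Lie algebra of a Kemmer system. -/
def kL (s : Module.End K V) {n : ℕ} (x y : Fin n → Module.End K V) : Submodule K (Module.End K V) :=
  Submodule.span K (kgen s x y)

section sys
variable {s : Module.End K V} {n : ℕ} {x y : Fin n → Module.End K V}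

theorem kL_s : s ∈ kL s x y := Submodule.subset_span (Or.inl rfl)
theorem kL_x (i : Fin n) : x i ∈ kL s x y := Submodule.subset_span (Or.inr (Or.inl ⟨i, rfl⟩))
theorem kL_y (i : Fin n) : y i ∈ kL s x y := Submodule.subset_span (Or.inr (Or.inr (Or.inl ⟨i, rfl⟩)))
theorem kL_xy (i j : Fin n) : x i * y j - y j * x i ∈ kL s x y :=
  Submodule.subset_span (Or.inr (Or.inr (Or.inr ⟨i, j, rfl⟩)))

theorem kL_lie [CharZero K] (h : Kemmer s x y) : IsLie (kL s x y) := by
  have xx := K4a_xx h
  have yy := K4a_yy h
  have bsx : ∀ i, s * x i - x i * s = (2 : K) • x i := by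
    intro i
    rw [h.sx, h.xs, two_smul]; abel
  have bsy : ∀ i, s * y i - y i * s = (-2 : K) • y i := by
    intro i
    rw [h.sy, h.ys, neg_smul, two_smul]; abel
  have bsxy : ∀ i j, s * (x i * y j - y j * x i) - (x i * y j - y j * x i) * s = 0 := by
    intro i j
    have e1 : s * (x i * y j - y j * x i) - (x i * y j - y j * x i) * s =
        (s * x i) * y j - (s * y j) * x i - x i * (y j * s) + y j * (x i * s) := by noncomm_ring
    rw [e1, h.sx, h.sy, h.ys, h.xs]
    noncomm_ring
  have bxyx : ∀ i j k, (x i * y j - y j * x i) * x k - x k * (x i * y j - y j * x i) =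
      (if i = j then x k else 0) + (if k = j then x i else 0) := by
    intro i j k
    have e1 : (x i * y j - y j * x i) * x k - x k * (x i * y j - y j * x i) =
        (x i * y j * x k + x k * y j * x i) - y j * (x i * x k) - (x k * x i) * y j := by noncomm_ring
    rw [e1, h.r1, xx, xx]
    simp
  have bxyy : ∀ i j k, (x i * y j - y j * x i) * y k - y k * (x i * y j - y j * x i) =
      -((if j = i then y k else 0) + (if k = i then y j else 0)) := by
    intro i j k
    have e1 : (x i * y j - y j * x i) * y k - y k * (x i * y j - y j * x i) =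
        -(y j * x i * y k + y k * x i * y j) + x i * (y j * y k) + (y k * y j) * x i := by noncomm_ring
    rw [e1, h.r2, yy, yy]
    simp
  have hx : ∀ i, x i ∈ kL s x y := kL_x
  have hy : ∀ i, y i ∈ kL s x y := kL_y
  have hxy : ∀ i j, x i * y j - y j * x i ∈ kL s x y := kL_xy
  have mxyx : ∀ i j k, (x i * y j - y j * x i) * x k - x k * (x i * y j - y j * x i) ∈ kL s x y := by
    intro i j k
    rw [bxyx]
    apply add_mem
    · split_ifs
      · exact hx k
      · exact zero_mem _
    · split_ifs
      · exact hx i
      · exact zero_mem _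
  have mxyy : ∀ i j k, (x i * y j - y j * x i) * y k - y k * (x i * y j - y j * x i) ∈ kL s x y := by
    intro i j k
    rw [bxyy]
    apply neg_mem
    apply add_mem
    · split_ifs
      · exact hy k
      · exact zero_mem _
    · split_ifs
      · exact hy j
      · exact zero_mem _
  have hneg : ∀ a b : Module.End K V, a * b - b * a ∈ kL s x y → b * a - a * b ∈ kL s x y := by
    intro a b hab
    have := neg_mem hab
    rwa [neg_sub] at this
  have hzero : (0 : Module.End K V) ∈ kL s x y := zero_mem _
  apply kf_lie_span
  rintro a (rfl | ⟨i, rfl⟩ | ⟨i, rfl⟩ | ⟨i, j, rfl⟩) b (rfl | ⟨k, rfl⟩ | ⟨k, rfl⟩ | ⟨k, l, rfl⟩)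
  · rw [sub_self]; exact hzero
  · rw [bsx]; exact Submodule.smul_mem _ _ (hx k)
  · rw [bsy]; exact Submodule.smul_mem _ _ (hy k)
  · rw [bsxy]; exact hzero
  · apply hneg
    rw [bsx]; exact Submodule.smul_mem _ _ (hx i)
  · rw [xx, xx, sub_self]; exact hzero
  · exact hxy i k
  · exact hneg _ _ (mxyx k l i)
  · apply hneg
    rw [bsy]; exact Submodule.smul_mem _ _ (hy i)
  · exact hneg _ _ (hxy k i)
  · rw [yy, yy, sub_self]; exact hzero
  · exact hneg _ _ (mxyy k l i)
  · apply hneg
    rw [bsxy]; exact hzero
  · exact mxyx i j k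
  · exact mxyy i j k
  · -- Jacobi
    obtain ⟨T, hT⟩ : ∃ T, T = x i * y j - y j * x i := ⟨_, rfl⟩
    have e1 : T * (x k * y l - y l * x k) - (x k * y l - y l * x k) * T =
        ((T * x k - x k * T) * y l - y l * (T * x k - x k * T)) +
        (x k * (T * y l - y l * T) - (T * y l - y l * T) * x k) := by noncomm_ring
    rw [← hT, e1, hT, bxyx, bxyy]
    have f1 : ∀ (a b : Module.End K V) (c d : Prop) [Decidable c] [Decidable d] (z : Module.End K V),
        (((if c then a else 0) + (if d then b else 0)) * z - z * ((if c then a else 0) + (if d then b else 0))) =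
        (if c then a * z - z * a else 0) + (if d then b * z - z * b else 0) := by
      intro a b c d _ _ z
      split_ifs <;> noncomm_ring
    have f2 : ∀ (a b : Module.End K V) (c d : Prop) [Decidable c] [Decidable d] (z : Module.End K V),
        (z * (-((if c then a else 0) + (if d then b else 0))) - (-((if c then a else 0) + (if d then b else 0))) * z) =
        -((if c then z * a - a * z else 0) + (if d then z * b - b * z else 0)) := by
      intro a b c d _ _ z
      split_ifs <;> noncomm_ring
    rw [f1, f2]
    apply add_mem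
    · apply add_mem
      · split_ifs
        · exact hxy k l
        · exact hzero
      · split_ifs
        · exact hxy i l
        · exact hzero
    · apply neg_mem
      apply add_mem
      · split_ifs
        · exact hxy k l
        · exact hzero
      · split_ifs
        · exact hxy k j
        · exact hzero

theorem kL_irr (h : Kemmer s x y) : Irr (kL s x y) := by
  intro W hW
  exact h.irr W (fun i w hw => hW _ (kL_x i) w hw) (fun i w hw => hW _ (kL_y i) w hw)
    (fun w hw => hW _ kL_s w hw)

end sys

end Pool.Agent.H86N
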