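import Pool.Agent.Lib.H86N.KF

/-!
# KF2: reduction of a Kemmer system to the corner of the first pair
-/

set_option autoImplicit false
set_option linter.unusedSectionVars false
namespace Pool.Agent.H86N
open Module Pool.Agent.H53Toric Pool.Agent.H49M

universe u

variable {K : Type*} [Field K] {V : Type u} [AddCommGroup V] [Module K V]
variable {s : Module.End K V} {n : ℕ} {x y : Fin (n + 2) → Module.End K V}

/-- The index of a generator of the reduced system. -/
def kj (i : Fin n) : Fin (n + 2) := i.succ.succ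

theorem kj_zero (i : Fin n) : kj i ≠ 0 := Fin.succ_ne_zero _
theorem kj_one (i : Fin n) : kj i ≠ 1 := by
  intro h
  have h1 : i.succ.succ = (0 : Fin (n + 1)).succ := h
  exact Fin.succ_ne_zero i (Fin.succ_injective _ h1)
theorem kj_inj (i j : Fin n) : kj i = kj j ↔ i = j := by
  unfold kj
  rw [Fin.succ_inj, Fin.succ_inj]
theorem one_ne_zero' : (1 : Fin (n + 2)) ≠ 0 := by
  intro h
  have h1 : (0 : Fin (n + 1)).succ = 0 := h
  exact Fin.succ_ne_zero _ h1

theorem kj_cases (P : Fin (n + 2) → Prop) (h0 : P 0) (h1 : P 1) (h2 : ∀ i : Fin n, P (kj i)) (i : Fin (n + 2)) : P i := by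
  refine Fin.cases h0 (fun i => ?_) i
  refine Fin.cases h1 (fun i => ?_) i
  exact h2 i

/-- `x i y j` preserves the corner. -/
theorem kf_A [CharZero K] (h : Kemmer s x y) {j : Fin (n + 2)} (hj : j ≠ 0) (i : Fin (n + 2)) (hi : i ≠ 0) :
    x 0 * y 0 * (x i * y j * (x 0 * y 0)) = x i * y j * (x 0 * y 0) := by
  have h1 : x i * y j * x 0 = (if i = j then x 0 else 0) - x 0 * y j * x i := by
    have h2 := h.r1 i j 0
    rw [if_neg (Ne.symm hj), add_zero] at h2
    exact eq_sub_of_add_eq h2
  have h3 : x 0 * y 0 * (x i * y j * x 0) = x i * y j * x 0 := by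
    rw [h1, mul_sub, ← mul_assoc, ← mul_assoc, K4a_xyx h]
    congr 1
    split_ifs
    · exact K4a_xyx h 0
    · rw [mul_zero]
  calc x 0 * y 0 * (x i * y j * (x 0 * y 0)) = x 0 * y 0 * (x i * y j * x 0) * y 0 := by noncomm_ring
    _ = x i * y j * x 0 * y 0 := by rw [h3]
    _ = _ := by noncomm_ring

theorem kf_mem [CharZero K] (h : Kemmer s x y) {j : Fin (n + 2)} (hj : j ≠ 0) (i : Fin (n + 2)) (hi : i ≠ 0)
    (v : V) (hv : v ∈ LinearMap.range (x 0 * y 0)) : (x i * y j) v ∈ LinearMap.range (x 0 * y 0) := by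
  obtain ⟨w, rfl⟩ := hv
  exact ⟨x i (y j (x 0 (y 0 w))), LinearMap.congr_fun (kf_A h hj i hi) w⟩

/-- The reduced operators on the whole space. -/
theorem kf_r1 [CharZero K] (h : Kemmer s x y) (i j k : Fin n) :
    (x (kj i) * y 1) * (x 1 * y (kj j)) * (x (kj k) * y 1) + (x (kj k) * y 1) * (x 1 * y (kj j)) * (x (kj i) * y 1) =
      (if i = j then x (kj k) * y 1 else 0) + (if k = j then x (kj i) * y 1 else 0) := by
  have key : ∀ i j k : Fin n, (x (kj i) * y 1) * (x 1 * y (kj j)) * (x (kj k) * y 1) =
      x (kj i) * y (kj j) * x (kj k) * y 1 := by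
    intro i j k
    have h1 := K4a_ne2 h (Ne.symm (kj_one j))
    have h2 : y 1 * x (kj k) * y 1 = 0 := K4a_zero (K4a_swap h) (Ne.symm (kj_one k))
    calc (x (kj i) * y 1) * (x 1 * y (kj j)) * (x (kj k) * y 1) =
          x (kj i) * (y 1 * x 1 * y (kj j)) * (x (kj k) * y 1) := by noncomm_ring
      _ = x (kj i) * (y 1 * x 1 * y (kj j) + y (kj j) * x 1 * y 1) * (x (kj k) * y 1) -
          x (kj i) * y (kj j) * x 1 * (y 1 * x (kj k) * y 1) := by noncomm_ring
      _ = _ := by rw [h1, h2]; noncomm_ring
  rw [key, key]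
  have h1 := h.r1 (kj i) (kj j) (kj k)
  simp only [kj_inj] at h1
  calc x (kj i) * y (kj j) * x (kj k) * y 1 + x (kj k) * y (kj j) * x (kj i) * y 1 =
        (x (kj i) * y (kj j) * x (kj k) + x (kj k) * y (kj j) * x (kj i)) * y 1 := by noncomm_ring
    _ = _ := by
        rw [h1, add_mul]
        split_ifs <;> simp

theorem kf_xyx1 [CharZero K] (h : Kemmer s x y) (j k : Fin n) :
    (x (kj j) * y 1) * (x 1 * y (kj k)) = x (kj j) * y (kj k) - x 1 * y 1 * x (kj j) * y (kj k) := by
  have h1 := K4a_ne1 h (Ne.symm (kj_one j))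
  calc (x (kj j) * y 1) * (x 1 * y (kj k)) = (x 1 * y 1 * x (kj j) + x (kj j) * y 1 * x 1) * y (kj k) -
        x 1 * y 1 * x (kj j) * y (kj k) := by noncomm_ring
    _ = _ := by rw [h1]

theorem kf_r2 [CharZero K] (h : Kemmer s x y) (i j k : Fin n) :
    (x 1 * y (kj i)) * (x (kj j) * y 1) * (x 1 * y (kj k)) + (x 1 * y (kj k)) * (x (kj j) * y 1) * (x 1 * y (kj i)) =
      (if i = j then x 1 * y (kj k) else 0) + (if k = j then x 1 * y (kj i) else 0) := by
  have key : ∀ i j k : Fin n, (x 1 * y (kj i)) * (x (kj j) * y 1) * (x 1 * y (kj k)) =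
      x 1 * (y (kj i) * x (kj j) * y (kj k)) := by
    intro i j k
    have h2 : x 1 * y (kj i) * x 1 = 0 := K4a_zero h (Ne.symm (kj_one i))
    calc (x 1 * y (kj i)) * (x (kj j) * y 1) * (x 1 * y (kj k)) =
          x 1 * y (kj i) * ((x (kj j) * y 1) * (x 1 * y (kj k))) := by noncomm_ring
      _ = x 1 * (y (kj i) * x (kj j) * y (kj k)) - (x 1 * y (kj i) * x 1) * y 1 * x (kj j) * y (kj k) := by
          rw [kf_xyx1 h]; noncomm_ring
      _ = _ := by rw [h2]; simp
  rw [key, key, ← mul_add]
  have h1 := h.r2 (kj i) (kj j) (kj k)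
  simp only [kj_inj] at h1
  rw [h1, mul_add]
  split_ifs <;> simp

/-- The bracket of the reduced generators. -/
theorem kf_br [CharZero K] (h : Kemmer s x y) (i j : Fin n) :
    (x (kj i) * y 1) * (x 1 * y (kj j)) - (x 1 * y (kj j)) * (x (kj i) * y 1) =
      x (kj i) * y (kj j) - (if i = j then x 1 * y 1 else 0) := by
  have h1 := h.r2 (kj j) (kj i) 1
  rw [if_neg (Ne.symm (kj_one i)), add_zero] at h1
  simp only [kj_inj] at h1
  have h2 : (x 1 * y (kj j)) * (x (kj i) * y 1) = (if i = j then x 1 * y 1 else 0) - x 1 * y 1 * x (kj i) * y (kj j) := by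
    calc (x 1 * y (kj j)) * (x (kj i) * y 1) = x 1 * (y (kj j) * x (kj i) * y 1 + y 1 * x (kj i) * y (kj j)) -
          x 1 * y 1 * x (kj i) * y (kj j) := by noncomm_ring
      _ = _ := by
          rw [h1]
          congr 1
          by_cases hij : i = j
          · rw [if_pos hij, if_pos hij.symm]
          · rw [if_neg hij, if_neg (Ne.symm hij), mul_zero]
  rw [kf_xyx1 h, h2]
  abel

section red
variable [CharZero K] (h : Kemmer s x y)
include h

/-- The restriction of `x i y j` to the corner. -/
noncomputable def kR (i j : Fin (n + 2)) (hi : i ≠ 0) (hj : j ≠ 0) :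
    Module.End K (LinearMap.range (x 0 * y 0)) :=
  LinearMap.restrict (x i * y j) (kf_mem h hj i hi)

theorem kR_coe (i j : Fin (n + 2)) (hi : i ≠ 0) (hj : j ≠ 0) (v : LinearMap.range (x 0 * y 0)) :
    ((kR h i j hi hj v : LinearMap.range (x 0 * y 0)) : V) = x i (y j v) := rfl

/-- The reduced system. -/
noncomputable def kx (i : Fin n) : Module.End K (LinearMap.range (x 0 * y 0)) :=
  -kR h (kj i) 1 (kj_zero i) one_ne_zero'
noncomputable def ky (i : Fin n) : Module.End K (LinearMap.range (x 0 * y 0)) :=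
  -kR h 1 (kj i) one_ne_zero' (kj_zero i)
noncomputable def ks : Module.End K (LinearMap.range (x 0 * y 0)) :=
  1 - (2 : K) • kR h 1 1 one_ne_zero' one_ne_zero'

theorem kx_coe (i : Fin n) (v : LinearMap.range (x 0 * y 0)) :
    ((kx h i v : LinearMap.range (x 0 * y 0)) : V) = -(x (kj i) (y 1 v)) := rfl
theorem ky_coe (i : Fin n) (v : LinearMap.range (x 0 * y 0)) :
    ((ky h i v : LinearMap.range (x 0 * y 0)) : V) = -(x 1 (y (kj i) v)) := rfl
theorem ks_coe (v : LinearMap.range (x 0 * y 0)) :
    ((ks h v : LinearMap.range (x 0 * y 0)) : V) = v - (2 : K) • x 1 (y 1 v) := rfl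

theorem kU_fix (v : LinearMap.range (x 0 * y 0)) : x 0 (y 0 (v : V)) = v := by
  obtain ⟨_, ⟨w, rfl⟩⟩ := v
  show x 0 (y 0 (x 0 (y 0 w))) = x 0 (y 0 w)
  exact LinearMap.congr_fun (K4a_xyx h 0) (y 0 w)

theorem kU_x (i : Fin (n + 2)) (v : LinearMap.range (x 0 * y 0)) : x i (v : V) = 0 := by
  rw [← kU_fix h v]
  exact LinearMap.congr_fun (K4a_xx h i 0) (y 0 v)

theorem kU_s (v : LinearMap.range (x 0 * y 0)) : s (v : V) = v := by
  rw [← kU_fix h v]
  exact LinearMap.congr_fun (h.sx 0) (y 0 v)

/-- The corner of an operator of the Lie algebra. -/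
theorem kf_corner (W : Submodule K (LinearMap.range (x 0 * y 0)))
    (h1 : ∀ i, ∀ w ∈ W, kx h i w ∈ W) (h2 : ∀ i, ∀ w ∈ W, ky h i w ∈ W) (h3 : ∀ w ∈ W, ks h w ∈ W)
    {C : Module.End K V} (hC : C ∈ kL s x y) (w : LinearMap.range (x 0 * y 0)) (hw : w ∈ W) :
    (x 0 * y 0) (C w) ∈ W.map (LinearMap.range (x 0 * y 0)).subtype := by
  have hp : ∀ w : LinearMap.range (x 0 * y 0), w ∈ W → (w : V) ∈ W.map (LinearMap.range (x 0 * y 0)).subtype :=
    fun w hw => ⟨w, hw, rfl⟩
  have hx0 : ∀ v, x 0 (x 0 v) = 0 := fun v => LinearMap.congr_fun (K4a_xx h 0 0) v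
  refine Submodule.span_induction (p := fun C _ => (x 0 * y 0) (C w) ∈ W.map (LinearMap.range (x 0 * y 0)).subtype)
    ?_ ?_ ?_ ?_ hC
  · rintro C (rfl | ⟨i, rfl⟩ | ⟨i, rfl⟩ | ⟨i, j, rfl⟩)
    · rw [kU_s h, Module.End.mul_apply, kU_fix h]
      exact hp w hw
    · rw [kU_x h, map_zero]
      exact zero_mem _
    · have h4 : y 0 (y i w) = 0 := LinearMap.congr_fun (K4a_yy h 0 i) w
      rw [Module.End.mul_apply, h4, map_zero]
      exact zero_mem _
    · rw [LinearMap.sub_apply, Module.End.mul_apply (y j), kU_x h, map_zero, sub_zero]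
      by_cases hj : j = 0
      · subst hj
        by_cases hi : i = 0
        · subst hi
          rw [Module.End.mul_apply, Module.End.mul_apply, kU_fix h, kU_fix h]
          exact hp w hw
        · have h4 : y 0 (x i (y 0 w)) = 0 := LinearMap.congr_fun (K4a_zero (K4a_swap h) (Ne.symm hi)) w
          rw [Module.End.mul_apply, Module.End.mul_apply, h4, map_zero]
          exact zero_mem _
      · by_cases hi : i = 0
        · subst hi
          have h4 : x 0 (y j w) = 0 := by
            rw [← kU_fix h w]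
            exact LinearMap.congr_fun (K4a_zero h (Ne.symm hj)) (y 0 w)
          rw [Module.End.mul_apply (x 0) (y j), h4, map_zero]
          exact zero_mem _
        · have h5 : (x 0 * y 0) ((x i * y j) w) = ((kR h i j hi hj w : LinearMap.range (x 0 * y 0)) : V) := by
            have h6 := kU_fix h (kR h i j hi hj w)
            rw [kR_coe] at h6 ⊢
            exact h6
          rw [h5]
          have m11 : kR h 1 1 one_ne_zero' one_ne_zero' w ∈ W := by
            have h6 : kR h 1 1 one_ne_zero' one_ne_zero' w = (1 / 2 : K) • (w - ks h w) := by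
              apply Subtype.ext
              rw [Submodule.coe_smul, Submodule.coe_sub, ks_coe, kR_coe]
              module
            rw [h6]
            exact W.smul_mem _ (W.sub_mem hw (h3 w hw))
          have hmain : ∀ (i j : Fin (n + 2)) (hi : i ≠ 0) (hj : j ≠ 0), kR h i j hi hj w ∈ W := by
            intro i
            refine kj_cases (n := n) (fun i => ∀ (j : Fin (n + 2)) (hi : i ≠ 0) (hj : j ≠ 0), kR h i j hi hj w ∈ W)
              ?_ ?_ ?_ i
            · intro j hi; exact absurd rfl hi
            · intro j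
              refine kj_cases (n := n) (fun j => ∀ (hi : (1 : Fin (n + 2)) ≠ 0) (hj : j ≠ 0), kR h 1 j hi hj w ∈ W)
                ?_ ?_ ?_ j
              · intro _ hj; exact absurd rfl hj
              · intro _ _; exact m11
              · intro j' hi hj
                have h6 : kR h 1 (kj j') hi hj w = -(ky h j' w) := by
                  apply Subtype.ext
                  rw [kR_coe, Submodule.coe_neg, ky_coe, neg_neg]
                rw [h6]
                exact W.neg_mem (h2 j' w hw)
            · intro i' j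
              refine kj_cases (n := n) (fun j => ∀ (hi : kj i' ≠ 0) (hj : j ≠ 0), kR h (kj i') j hi hj w ∈ W)
                ?_ ?_ ?_ j
              · intro _ hj; exact absurd rfl hj
              · intro hi hj
                have h6 : kR h (kj i') 1 hi hj w = -(kx h i' w) := by
                  apply Subtype.ext
                  rw [kR_coe, Submodule.coe_neg, kx_coe, neg_neg]
                rw [h6]
                exact W.neg_mem (h1 i' w hw)
              · intro j' hi hj
                have h6 : kR h (kj i') (kj j') hi hj w = kx h i' (ky h j' w) - ky h j' (kx h i' w) +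
                    (if i' = j' then (1 : K) else 0) • kR h 1 1 one_ne_zero' one_ne_zero' w := by
                  apply Subtype.ext
                  rw [Submodule.coe_add, Submodule.coe_sub, Submodule.coe_smul, kx_coe, ky_coe, ky_coe, kx_coe,
                    kR_coe, kR_coe]
                  have h7 := LinearMap.congr_fun (kf_br h i' j') (w : V)
                  simp only [LinearMap.sub_apply, Module.End.mul_apply] at h7
                  simp only [map_neg, neg_neg]
                  rw [h7]
                  split_ifs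
                  · rw [one_smul, Module.End.mul_apply]; abel
                  · simp
                rw [h6]
                exact W.add_mem (W.sub_mem (h1 _ _ (h2 _ w hw)) (h2 _ _ (h1 _ w hw))) (W.smul_mem _ m11)
          exact hp _ (hmain i j hi hj)
  · rw [LinearMap.zero_apply, map_zero]
    exact zero_mem _
  · intro a b _ _ h4 h5
    rw [LinearMap.add_apply, map_add]
    exact add_mem h4 h5
  · intro c a _ h4
    rw [LinearMap.smul_apply, map_smul]
    exact Submodule.smul_mem _ _ h4

/-- The reduced system is a Kemmer system. -/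
theorem kf_red (hx : x 0 ≠ 0) : Kemmer (ks h) (kx h) (ky h) where
  s_sq := by
    ext v
    rw [Module.End.mul_apply, ks_coe, ks_coe, Module.End.one_apply]
    have h1 : x 1 (y 1 (x 1 (y 1 (v : V)))) = x 1 (y 1 v) := LinearMap.congr_fun (K4a_xyx h 1) (y 1 v)
    simp only [map_sub, map_smul, h1]
    module
  sx := fun i => by
    ext v
    rw [Module.End.mul_apply, ks_coe, kx_coe]
    have h1 : y 1 (x (kj i) (y 1 (v : V))) = 0 :=
      LinearMap.congr_fun (K4a_zero (K4a_swap h) (Ne.symm (kj_one i))) (v : V)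
    simp only [map_neg, h1, map_zero, neg_zero, smul_zero, sub_zero]
  xs := fun i => by
    ext v
    rw [Module.End.mul_apply, kx_coe, ks_coe, LinearMap.neg_apply, Submodule.coe_neg, kx_coe]
    have h1 : y 1 (x 1 (y 1 (v : V))) = y 1 v := LinearMap.congr_fun (K4a_yxy h 1) (v : V)
    simp only [map_sub, map_smul, h1]
    module
  sy := fun i => by
    ext v
    rw [Module.End.mul_apply, ks_coe, ky_coe, LinearMap.neg_apply, Submodule.coe_neg, ky_coe]
    have h1 : x 1 (y 1 (x 1 (y (kj i) (v : V)))) = x 1 (y (kj i) v) :=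
      LinearMap.congr_fun (K4a_xyx h 1) (y (kj i) v)
    simp only [map_neg, h1]
    module
  ys := fun i => by
    ext v
    rw [Module.End.mul_apply, ky_coe, ks_coe, ky_coe]
    have h1 : x 1 (y (kj i) (x 1 (y 1 (v : V)))) = 0 :=
      LinearMap.congr_fun (K4a_zero h (Ne.symm (kj_one i))) (y 1 v)
    simp only [map_sub, map_smul, h1, smul_zero, sub_zero]
  r1 := fun i j k => by
    ext v
    have h1 := LinearMap.congr_fun (kf_r1 h i j k) (v : V)
    have e1 : ((((kx h i * ky h j * kx h k + kx h k * ky h j * kx h i) v : LinearMap.range (x 0 * y 0))) : V) =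
        -(((x (kj i) * y 1) * (x 1 * y (kj j)) * (x (kj k) * y 1) +
          (x (kj k) * y 1) * (x 1 * y (kj j)) * (x (kj i) * y 1)) (v : V)) := by
      simp only [LinearMap.add_apply, Module.End.mul_apply, Submodule.coe_add, kx_coe, ky_coe, map_neg, neg_neg]
      abel
    rw [e1, h1]
    have e2 : ∀ (c : Prop) [Decidable c] (a : Fin n), (((if c then kx h a else 0 : Module.End K (LinearMap.range (x 0 * y 0))) v :
        LinearMap.range (x 0 * y 0)) : V) = -((if c then x (kj a) * y 1 else 0 : Module.End K V) (v : V)) := by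
      intro c _ a
      split_ifs
      · rfl
      · simp
    rw [LinearMap.add_apply, LinearMap.add_apply, Submodule.coe_add, e2, e2]
    abel
  r2 := fun i j k => by
    ext v
    have h1 := LinearMap.congr_fun (kf_r2 h i j k) (v : V)
    have e1 : ((((ky h i * kx h j * ky h k + ky h k * kx h j * ky h i) v : LinearMap.range (x 0 * y 0))) : V) =
        -(((x 1 * y (kj i)) * (x (kj j) * y 1) * (x 1 * y (kj k)) +
          (x 1 * y (kj k)) * (x (kj j) * y 1) * (x 1 * y (kj i))) (v : V)) := by
      simp only [LinearMap.add_apply, Module.End.mul_apply, Submodule.coe_add, kx_coe, ky_coe, map_neg, neg_neg]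
      abel
    rw [e1, h1]
    have e2 : ∀ (c : Prop) [Decidable c] (a : Fin n), (((if c then ky h a else 0 : Module.End K (LinearMap.range (x 0 * y 0))) v :
        LinearMap.range (x 0 * y 0)) : V) = -((if c then x 1 * y (kj a) else 0 : Module.End K V) (v : V)) := by
      intro c _ a
      split_ifs
      · rfl
      · simp
    rw [LinearMap.add_apply, LinearMap.add_apply, Submodule.coe_add, e2, e2]
    abel
  irr := fun W h1 h2 h3 => by
    by_cases hW : W = ⊥
    · exact Or.inl hW
    right
    rw [eq_top_iff]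
    rintro v -
    have hl := kL_lie h
    have hH : x 0 * y 0 - y 0 * x 0 ∈ kL s x y := kL_xy 0 0
    have h5 := P4_irr_aux hl (kL_irr h) (E := x 0 * y 0)
      (fun z hz => by
        obtain ⟨w, hw, w1, -, w3, -⟩ := G1_low' hl (K4a_xx h 0 0) (K4a_yy h 0 0) (K4a_xyx h 0) (K4a_yxy h 0) hH hz
        exact ⟨w, hw, w1, w3⟩)
      (U := W.map (LinearMap.range (x 0 * y 0)).subtype)
      (by
        rintro _ ⟨w, -, rfl⟩
        exact kU_fix h w)
      (by
        intro h0
        apply hW
        rw [eq_bot_iff]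
        intro w hw
        have h4 : (w : V) ∈ W.map (LinearMap.range (x 0 * y 0)).subtype := ⟨w, hw, rfl⟩
        rw [h0, Submodule.mem_bot] at h4
        exact Subtype.ext h4)
      (by
        rintro C hC _ ⟨w, hw, rfl⟩
        exact kf_corner h W h1 h2 h3 hC w hw) (v : V)
    obtain ⟨w, hw, hwv⟩ := h5
    have h6 : w = v := by
      apply Subtype.ext
      have h7 : (w : V) = (x 0 * y 0) (v : V) := hwv
      rw [h7, Module.End.mul_apply, kU_fix h]
    rw [← h6]
    exact hw

/-- The counting operator of the reduced system. -/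
theorem kf_cnt {c : K} (hc : ∀ v, cnt s x y v = c • v) (v : LinearMap.range (x 0 * y 0)) :
    cnt (ks h) (kx h) (ky h) v = (c - 1) • v := by
  apply Subtype.ext
  have h1 := hc (v : V)
  rw [cnt, LinearMap.add_apply, LinearMap.sum_apply, Fin.sum_univ_succ, Fin.sum_univ_succ] at h1
  have hQ : ((1 / 2 : K) • (1 - s)) (v : V) = 0 := by
    rw [LinearMap.smul_apply, LinearMap.sub_apply, Module.End.one_apply, kU_s h, sub_self, smul_zero]
  have hi : ∀ i : Fin (n + 2), (x i * y i + (1 / 2 : K) • (1 - s) - y i * x i) (v : V) = x i (y i v) := by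
    intro i
    rw [LinearMap.sub_apply, LinearMap.add_apply, hQ, Module.End.mul_apply, Module.End.mul_apply, kU_x h, map_zero]
    simp
  simp only [hi] at h1
  rw [hQ, kU_fix h, zero_add] at h1
  rw [cnt, LinearMap.add_apply, LinearMap.sum_apply, Submodule.coe_add, AddSubmonoidClass.coe_finsetSum]
  have hQ' : ((((1 / 2 : K) • (1 - ks h)) v : LinearMap.range (x 0 * y 0)) : V) = x 1 (y 1 v) := by
    rw [LinearMap.smul_apply, LinearMap.sub_apply, Module.End.one_apply, Submodule.coe_smul, Submodule.coe_sub, ks_coe]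
    module
  have hi' : ∀ i : Fin n, (((kx h i * ky h i + (1 / 2 : K) • (1 - ks h) - ky h i * kx h i) v :
      LinearMap.range (x 0 * y 0)) : V) = x (kj i) (y (kj i) v) := by
    intro i
    rw [LinearMap.sub_apply, LinearMap.add_apply, Submodule.coe_sub, Submodule.coe_add, hQ', Module.End.mul_apply,
      Module.End.mul_apply, kx_coe, ky_coe, ky_coe, kx_coe]
    have h7 := LinearMap.congr_fun (kf_br h i i) (v : V)
    rw [if_pos rfl] at h7
    simp only [LinearMap.sub_apply, Module.End.mul_apply] at h7
    simp only [map_neg, neg_neg]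
    have h8 : x (kj i) (y 1 (x 1 (y (kj i) (v : V)))) = x (kj i) (y (kj i) v) - x 1 (y 1 v) +
        x 1 (y (kj i) (x (kj i) (y 1 v))) := by
      rw [← h7]; abel
    rw [h8]
    abel
  simp only [hi']
  rw [hQ', Submodule.coe_smul, sub_smul, one_smul, ← h1]
  have e0 : (Fin.succ (0 : Fin (n + 1))) = (1 : Fin (n + 2)) := rfl
  rw [e0]
  have e1 : ∀ i : Fin n, i.succ.succ = kj i := fun i => rfl
  simp only [e1]
  abel

end red

end Pool.Agent.H86N
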