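import Pool.Agent.Lib.H86N.Root

/-! Chunk LAMBDA: `f(0) ≠ 0`, first step. -/

open Filter Topology Asymptotics
open scoped ContDiff

namespace H86N

/-- `l = f_x(0)`; the identity at `0` gives `f(0) = - l^2`, so `l ≠ 0`. `v` = root (`n = 2`) of
`x^2/4 - f`; `s = ±1` with `s v(0) = - l`; `λ = - x/2 + s v`, so `f = - λ (x + λ)` near `0`, `λ(0) = - l`, and
`f_x(0) = l` gives `λ_x(0) = 0`. Inserting `f = - λ (x+λ)` in the identity:
`- λ_x (x + 2λ)^2 (1 + λ_x) = g f_y = - g λ_y (x + 2 λ)`, so `λ_x = h λ_y` near `0` with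
`h = g/((x+2λ)(1+λ_x))` (`recip`). -/
theorem caseI_lambda {f g : ℝ × ℝ → ℝ} (hf : Sm f) (hg : Sm g)
    (hI : ∀ᶠ z in 𝓝 (0 : ℝ × ℝ), dx f z * (z.1 - dx f z) - f z = g z * dy f z)
    (h0 : f 0 ≠ 0) (h2 : dy f 0 = 0) :
    ∃ (l : ℝ) (lam h : ℝ × ℝ → ℝ), l ≠ 0 ∧ Sm lam ∧ Sm h ∧ lam 0 = - l ∧
      (∀ᶠ z in 𝓝 (0 : ℝ × ℝ), f z = - (lam z * (z.1 + lam z))) ∧
      (∀ᶠ z in 𝓝 (0 : ℝ × ℝ), dx lam z = h z * dy lam z) := by
  have z1 : ((0 : ℝ × ℝ)).1 = 0 := rfl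
  set l := dx f 0 with hl
  have hI0 := hI.self_of_nhds
  rw [h2, ← hl, z1] at hI0
  have hfl : f 0 = - l ^ 2 := by nlinarith
  have hl0 : l ≠ 0 := by
    intro h; apply h0; rw [hfl, h]; simp
  -- the square root
  have hV : Sm (fun z : ℝ × ℝ => z.1 ^ 2 / 4 - f z) := ((sm_fst.pow 2).div_const 4).sub hf
  have hV0 : 0 < (fun z : ℝ × ℝ => z.1 ^ 2 / 4 - f z) 0 := by
    simp only [z1, hfl]
    have : 0 < l ^ 2 := by positivity
    nlinarith
  obtain ⟨v, hv, hv0, hVv⟩ := root hV hV0 (n := 2) two_ne_zero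
  have hv00 : v 0 ^ 2 = l ^ 2 := by
    have := hVv.self_of_nhds
    simp only [z1, hfl] at this
    linarith
  obtain ⟨s, hs, hsv⟩ : ∃ s : ℝ, s ^ 2 = 1 ∧ s * v 0 = - l := by
    rcases sq_eq_sq_iff_eq_or_eq_neg.1 hv00 with h | h
    · exact ⟨-1, by norm_num, by rw [h]; ring⟩
    · exact ⟨1, by norm_num, by rw [h]; ring⟩
  set lam : ℝ × ℝ → ℝ := fun z => - z.1 / 2 + s * v z with hlam
  have hlams : Sm lam := by
    have h1 : Sm (fun z : ℝ × ℝ => - z.1 / 2) := (sm_fst.neg).div_const 2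
    exact h1.add (contDiff_const.mul hv)
  have hlam0 : lam 0 = - l := by
    simp only [hlam, z1, hsv]; ring
  have hff : ∀ᶠ z in 𝓝 (0 : ℝ × ℝ), f z = - (lam z * (z.1 + lam z)) := by
    filter_upwards [hVv] with z hz
    have : f z = z.1 ^ 2 / 4 - v z ^ 2 := by linarith
    rw [this, hlam]
    simp only
    linear_combination (v z ^ 2) * hs
  have hxl : Sm (fun z : ℝ × ℝ => z.1 + lam z) := sm_fst.add hlams
  have hff' : f =ᶠ[𝓝 0] fun z => - (lam z * (z.1 + lam z)) := hff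
  have efx : ∀ᶠ z in 𝓝 (0 : ℝ × ℝ), dx f z = - (dx lam z * (z.1 + 2 * lam z)) - lam z := by
    filter_upwards [germ_dx hff'] with z hz
    rw [hz, dx_neg, dx_mul hlams hxl, dx_add sm_fst hlams, dx_fst]
    ring
  have efy : ∀ᶠ z in 𝓝 (0 : ℝ × ℝ), dy f z = - (dy lam z * (z.1 + 2 * lam z)) := by
    filter_upwards [germ_dy hff'] with z hz
    rw [hz, dy_neg, dy_mul hlams hxl, dy_add sm_fst hlams, dy_fst]
    ring
  have hlx0 : dx lam 0 = 0 := by
    have := efx.self_of_nhds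
    rw [← hl, hlam0, z1] at this
    have h3 : dx lam 0 * (2 * l) = 0 := by linarith
    rcases mul_eq_zero.1 h3 with h | h
    · exact h
    · exact absurd h (by simpa using hl0)
  set D : ℝ × ℝ → ℝ := fun z => (z.1 + 2 * lam z) * (1 + dx lam z) with hD
  have hDs : Sm D := by
    have h1 : Sm (fun z : ℝ × ℝ => z.1 + 2 * lam z) := sm_fst.add (contDiff_const.mul hlams)
    have h2 : Sm (fun z : ℝ × ℝ => 1 + dx lam z) := contDiff_const.add hlams.dx
    exact h1.mul h2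
  have hD0 : D 0 ≠ 0 := by
    simp only [hD, hlx0, hlam0, z1]
    simpa using hl0
  obtain ⟨w, hw, -, hwD⟩ := recip hDs hD0
  refine ⟨l, lam, fun z => g z * w z, hl0, hlams, hg.mul hw, hlam0, hff, ?_⟩
  filter_upwards [hI, hff, efx, efy, hwD] with z a1 a2 a3 a4 a5
  rw [a3, a4, a2] at a1
  simp only [hD] at a5
  have a6 : dx lam z * (z.1 + 2 * lam z) ^ 2 * (1 + dx lam z)
      = g z * dy lam z * (z.1 + 2 * lam z) := by linear_combination -a1
  have a7 : dx lam z = (dx lam z * (z.1 + 2 * lam z) ^ 2 * (1 + dx lam z))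
      * (w z ^ 2 * (1 + dx lam z)) := by
    have : (w z * ((z.1 + 2 * lam z) * (1 + dx lam z))) ^ 2 = 1 := by rw [a5]; ring
    linear_combination (- dx lam z) * this
  rw [a6] at a7
  rw [a7]
  linear_combination (g z * dy lam z * w z) * a5

end H86N
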