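import Pool.Agent.Lib.H86N.Inv
import Pool.Agent.Lib.H86N.FlatD

/-! Chunk LEG: Legendre transformation. -/

open Filter Topology Asymptotics
open scoped ContDiff

namespace H86N

/-- Legendre transform in the first variable. `X` from `inv_x` for `dx v`;
`vs z = X z * z.1 - v (X z, z.2)` (so it is globally smooth). Its `x`-derivative is
`X + X_x z.1 - v_x(X,·) X_x = X` near `0` since `v_x(X z, z.2) = z.1` near `0`; its `y`-derivative is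
`X_y z.1 - v_x(X,·) X_y - v_y(X,·) = - v_y(X,·)`. -/
theorem legendre {v : ℝ × ℝ → ℝ} (hv : Sm v) (h1 : dx v 0 = 0) (h2 : dx (dx v) 0 ≠ 0) :
    ∃ X : ℝ × ℝ → ℝ, Sm X ∧ X 0 = 0 ∧ (∀ᶠ z in 𝓝 (0 : ℝ × ℝ), dx v (X z, z.2) = z.1) ∧
      (∀ᶠ z in 𝓝 (0 : ℝ × ℝ), X (dx v z, z.2) = z.1) ∧
      (∀ᶠ z in 𝓝 (0 : ℝ × ℝ), dx (fun w => X w * w.1 - v (X w, w.2)) z = X z) ∧
      (∀ᶠ z in 𝓝 (0 : ℝ × ℝ),
        dy (fun w => X w * w.1 - v (X w, w.2)) z = - dy v (X z, z.2)) := by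
  obtain ⟨X, hX, hX0, hX1, hX2⟩ := inv_x hv.dx h1 h2
  refine ⟨X, hX, hX0, hX1, hX2, ?_, ?_⟩
  · filter_upwards [hX1] with z hz
    rw [dx_sub (hX.mul sm_fst) (hv.comp2 hX sm_snd), dx_mul hX sm_fst, dx_fst,
      dx_comp2 hv hX sm_snd, dx_snd, hz]
    ring
  · filter_upwards [hX1] with z hz
    rw [dy_sub (hX.mul sm_fst) (hv.comp2 hX sm_snd), dy_mul hX sm_fst, dy_fst,
      dy_comp2 hv hX sm_snd, dy_snd, hz]
    ring

/-- `X_y(0) = 0` if `v_xy(0) = 0` -/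
theorem leg_Xy {v X : ℝ × ℝ → ℝ} (hv : Sm v) (hX : Sm X) (hX0 : X 0 = 0)
    (hX1 : ∀ᶠ z in 𝓝 (0 : ℝ × ℝ), dx v (X z, z.2) = z.1) (h2 : dx (dx v) 0 ≠ 0)
    (h3 : dy (dx v) 0 = 0) : dy X 0 = 0 := by
  have h := (germ_dy (F := fun z => dx v (X z, z.2)) (G := fun z => z.1) hX1).self_of_nhds
  rw [dy_comp2 hv.dx hX sm_snd, dy_snd, dy_fst, hX0] at h
  have e : ((0 : ℝ), (0 : ℝ × ℝ).2) = 0 := rfl
  rw [e, h3] at h
  have h4 : dx (dx v) 0 * dy X 0 = 0 := by linarith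
  exact (mul_eq_zero.1 h4).resolve_left h2

end H86N
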