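import Pool.Agent.Lib.H86N.Base

/-! Chunk NORMALR: the normal forms are admissible. -/

open Filter Topology Asymptotics
open scoped ContDiff

namespace H86N

lemma nr_dx {F : ℝ × ℝ → ℝ} (hF : Sm F) {z : ℝ × ℝ} {d : ℝ}
    (h : HasDerivAt (fun t => F (t, z.2)) d z.1) : dx F z = d := by
  have h1 := deriv_curve (φ := fun t => t) (ψ := fun _ => z.2) hF contDiff_id contDiff_const z.1
  rw [h.deriv] at h1
  simpa using h1.symm

lemma nr_dy {F : ℝ × ℝ → ℝ} (hF : Sm F) {z : ℝ × ℝ} {d : ℝ}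
    (h : HasDerivAt (fun t => F (z.1, t)) d z.2) : dy F z = d := by
  have h1 := deriv_curve (φ := fun _ => z.1) (ψ := fun t => t) hF contDiff_const contDiff_id z.2
  rw [h.deriv] at h1
  simpa using h1.symm

lemma nr_pow (k : ℕ) (t : ℝ) : HasDerivAt (fun t : ℝ => t ^ (k + 1)) ((k + 1 : ℝ) * t ^ k) t := by
  have := hasDerivAt_pow (k + 1) t
  simpa using this

/-- For every normal form there is a polynomial (globally smooth) `RN` with
`N_x (x - N_x) - N = N_y RN`, `N_y(0,0) = 0` and `N_y(t,t)` has a leading term. Here `N' = fun z => N z.1 z.2`.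
`A`: `RN = - y/n`. `B`: `- y/n`. `C`: `- y/m`. `D`: `0`. `E`: `(p-1)(c+y) - p^2 x^(p-2) (c+y)^2`.
`F`: `- p^2 x^(p-2) (c+y)^2 - (c+y)`. `G`: `((p-1) y - ε p^2 x^(p-2) y^(n+1))/n`.
`H`: `(- y - ε p^2 x^(p-2) y^(n+1))/n`. -/
theorem normal_R {N : ℝ → ℝ → ℝ} (hN : NormalForm N) :
    Sm (fun z => N z.1 z.2) ∧ dy (fun z => N z.1 z.2) 0 = 0 ∧
    (∃ RN : ℝ × ℝ → ℝ, Sm RN ∧ ∀ z : ℝ × ℝ,
      dx (fun z => N z.1 z.2) z * (z.1 - dx (fun z => N z.1 z.2) z) - N z.1 z.2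
        = dy (fun z => N z.1 z.2) z * RN z) ∧
    (∃ (J : ℕ) (ψ : ℝ → ℝ), Lead (fun t => dy (fun z => N z.1 z.2) (t, t)) J ψ) := by
  cases hN with
  | A l ε n hε hn =>
    obtain ⟨k, rfl⟩ : ∃ k, n = k + 2 := ⟨n - 2, by omega⟩
    have hε0 : ε ≠ 0 := by rcases hε with h | h <;> simp [h]
    have hk : ((k : ℝ) + 2) ≠ 0 := by positivity
    have hs : Sm (fun z : ℝ × ℝ => l * z.1 - l ^ 2 + ε * z.2 ^ (k + 2)) := by
      show ContDiff ℝ ∞ _; fun_prop
    have e1 : ∀ z, dx (fun z : ℝ × ℝ => l * z.1 - l ^ 2 + ε * z.2 ^ (k + 2)) z = l := by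
      intro z
      refine nr_dx hs ?_
      have := (((hasDerivAt_id z.1).const_mul l).sub_const (l ^ 2)).add_const (ε * z.2 ^ (k + 2))
      simpa using this
    have e2 : ∀ z, dy (fun z : ℝ × ℝ => l * z.1 - l ^ 2 + ε * z.2 ^ (k + 2)) z
        = ε * ((k + 2) * z.2 ^ (k + 1)) := by
      intro z
      refine nr_dy hs ?_
      have := ((nr_pow (k + 1) z.2).const_mul ε).const_add (l * z.1 - l ^ 2)
      refine HasDerivAt.congr_deriv this ?_
      push_cast; ring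
    refine ⟨hs, ?_, ⟨fun z => - z.2 / (k + 2), by show ContDiff ℝ ∞ _; fun_prop, ?_⟩,
      ⟨k + 1, fun _ => ε * (k + 2), contDiff_const, by positivity, ?_⟩⟩
    · rw [e2]; simp
    · intro z
      rw [e1, e2]
      field_simp
      ring
    · refine Eventually.of_forall fun t => ?_
      simp only [e2]
      ring
  | B ε n hε hn =>
    obtain ⟨k, rfl⟩ : ∃ k, n = k + 2 := ⟨n - 2, by omega⟩
    have hε0 : ε ≠ 0 := by rcases hε with h | h <;> simp [h]
    have hk : ((k : ℝ) + 2) ≠ 0 := by positivity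
    have hs : Sm (fun z : ℝ × ℝ => z.1 ^ 2 / 4 + ε * z.2 ^ (k + 2)) := by
      show ContDiff ℝ ∞ _; fun_prop
    have e1 : ∀ z, dx (fun z : ℝ × ℝ => z.1 ^ 2 / 4 + ε * z.2 ^ (k + 2)) z = z.1 / 2 := by
      intro z
      refine nr_dx hs ?_
      have := ((nr_pow 1 z.1).div_const 4).add_const (ε * z.2 ^ (k + 2))
      refine HasDerivAt.congr_deriv this ?_
      push_cast; ring
    have e2 : ∀ z, dy (fun z : ℝ × ℝ => z.1 ^ 2 / 4 + ε * z.2 ^ (k + 2)) z
        = ε * ((k + 2) * z.2 ^ (k + 1)) := by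
      intro z
      refine nr_dy hs ?_
      have := ((nr_pow (k + 1) z.2).const_mul ε).const_add (z.1 ^ 2 / 4)
      refine HasDerivAt.congr_deriv this ?_
      push_cast; ring
    refine ⟨hs, ?_, ⟨fun z => - z.2 / (k + 2), by show ContDiff ℝ ∞ _; fun_prop, ?_⟩,
      ⟨k + 1, fun _ => ε * (k + 2), contDiff_const, by positivity, ?_⟩⟩
    · rw [e2]; simp
    · intro z
      rw [e1, e2]
      field_simp
      ring
    · refine Eventually.of_forall fun t => ?_
      simp only [e2]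
      ring
  | C ε m hε hm =>
    obtain ⟨k, rfl⟩ : ∃ k, m = k + 2 := ⟨m - 2, by omega⟩
    have hε0 : ε ≠ 0 := by rcases hε with h | h <;> simp [h]
    have hk : ((k : ℝ) + 2) ≠ 0 := by positivity
    have hs : Sm (fun z : ℝ × ℝ => (z.1 / 2 + ε * z.2 ^ (k + 2)) ^ 2) := by
      show ContDiff ℝ ∞ _; fun_prop
    have e1 : ∀ z, dx (fun z : ℝ × ℝ => (z.1 / 2 + ε * z.2 ^ (k + 2)) ^ 2) z
        = z.1 / 2 + ε * z.2 ^ (k + 2) := by
      intro z
      refine nr_dx hs ?_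
      have := (((hasDerivAt_id z.1).div_const 2).add_const (ε * z.2 ^ (k + 2))).pow 2
      refine HasDerivAt.congr_deriv this ?_
      simp; ring
    have e2 : ∀ z, dy (fun z : ℝ × ℝ => (z.1 / 2 + ε * z.2 ^ (k + 2)) ^ 2) z
        = 2 * (z.1 / 2 + ε * z.2 ^ (k + 2)) * (ε * ((k + 2) * z.2 ^ (k + 1))) := by
      intro z
      refine nr_dy hs ?_
      have := (((nr_pow (k + 1) z.2).const_mul ε).const_add (z.1 / 2)).pow 2
      refine HasDerivAt.congr_deriv this ?_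
      push_cast; ring
    refine ⟨hs, ?_, ⟨fun z => - z.2 / (k + 2), by show ContDiff ℝ ∞ _; fun_prop, ?_⟩,
      ⟨k + 2, fun t => (1 + 2 * ε * t ^ (k + 1)) * (ε * (k + 2)), by show ContDiff ℝ ∞ _; fun_prop,
        ?_, ?_⟩⟩
    · rw [e2]; simp
    · intro z
      rw [e1, e2]
      field_simp
      ring
    · simp [hε0, hk]
    · refine Eventually.of_forall fun t => ?_
      simp only [e2]
      ring
  | D ε m hε hm =>
    obtain ⟨k, rfl⟩ : ∃ k, m = k + 2 := ⟨m - 2, by omega⟩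
    have hε0 : ε ≠ 0 := by rcases hε with h | h <;> simp [h]
    have hε2 : ε ^ 2 = 1 := by rcases hε with h | h <;> simp [h]
    have hk : ((k : ℝ) + 2) ≠ 0 := by positivity
    have hs : Sm (fun z : ℝ × ℝ => -(z.2 ^ (k + 2) * (z.2 ^ (k + 2) + ε * z.1))) := by
      show ContDiff ℝ ∞ _; fun_prop
    have e1 : ∀ z, dx (fun z : ℝ × ℝ => -(z.2 ^ (k + 2) * (z.2 ^ (k + 2) + ε * z.1))) z
        = - (z.2 ^ (k + 2) * ε) := by
      intro z
      refine nr_dx hs ?_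
      have := ((((hasDerivAt_id z.1).const_mul ε).const_add (z.2 ^ (k + 2))).const_mul
        (z.2 ^ (k + 2))).neg
      refine HasDerivAt.congr_deriv this ?_
      simp
    have e2 : ∀ z, dy (fun z : ℝ × ℝ => -(z.2 ^ (k + 2) * (z.2 ^ (k + 2) + ε * z.1))) z
        = - ((k + 2) * z.2 ^ (k + 1) * (z.2 ^ (k + 2) + ε * z.1)
            + z.2 ^ (k + 2) * ((k + 2) * z.2 ^ (k + 1))) := by
      intro z
      refine nr_dy hs ?_
      have := ((nr_pow (k + 1) z.2).mul ((nr_pow (k + 1) z.2).add_const (ε * z.1))).neg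
      refine HasDerivAt.congr_deriv this ?_
      push_cast; ring
    refine ⟨hs, ?_, ⟨fun z => 0, contDiff_const, ?_⟩,
      ⟨k + 2, fun t => - ((k + 2) * (2 * t ^ (k + 1) + ε)), by show ContDiff ℝ ∞ _; fun_prop,
        ?_, ?_⟩⟩
    · rw [e2]; simp
    · intro z
      rw [e1]
      linear_combination (- z.2 ^ (2 * k + 4)) * hε2
    · simp [hε0, hk]
    · refine Eventually.of_forall fun t => ?_
      simp only [e2]
      ring
  | E c p hp =>
    obtain ⟨k, rfl⟩ : ∃ k, p = k + 2 := ⟨p - 2, by omega⟩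
    have hs : Sm (fun z : ℝ × ℝ => z.1 ^ (k + 2) * (c + z.2)) := by
      show ContDiff ℝ ∞ _; fun_prop
    have e1 : ∀ z, dx (fun z : ℝ × ℝ => z.1 ^ (k + 2) * (c + z.2)) z
        = (k + 2) * z.1 ^ (k + 1) * (c + z.2) := by
      intro z
      refine nr_dx hs ?_
      have := (nr_pow (k + 1) z.1).mul_const (c + z.2)
      refine HasDerivAt.congr_deriv this ?_
      push_cast; ring
    have e2 : ∀ z, dy (fun z : ℝ × ℝ => z.1 ^ (k + 2) * (c + z.2)) z = z.1 ^ (k + 2) := by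
      intro z
      refine nr_dy hs ?_
      have := ((hasDerivAt_id z.2).const_add c).const_mul (z.1 ^ (k + 2))
      refine HasDerivAt.congr_deriv this ?_
      simp
    refine ⟨hs, ?_, ⟨fun z => (k + 1) * (c + z.2) - (k + 2) ^ 2 * z.1 ^ k * (c + z.2) ^ 2,
      by show ContDiff ℝ ∞ _; fun_prop, ?_⟩, ⟨k + 2, fun _ => 1, contDiff_const, one_ne_zero, ?_⟩⟩
    · rw [e2]; simp
    · intro z
      rw [e1, e2]
      ring
    · refine Eventually.of_forall fun t => ?_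
      simp only [e2]
      ring
  | F c p hp =>
    obtain ⟨k, rfl⟩ : ∃ k, p = k + 3 := ⟨p - 3, by omega⟩
    have hs : Sm (fun z : ℝ × ℝ => z.1 ^ 2 / 4 + z.1 ^ (k + 3) * (c + z.2)) := by
      show ContDiff ℝ ∞ _; fun_prop
    have e1 : ∀ z, dx (fun z : ℝ × ℝ => z.1 ^ 2 / 4 + z.1 ^ (k + 3) * (c + z.2)) z
        = z.1 / 2 + (k + 3) * z.1 ^ (k + 2) * (c + z.2) := by
      intro z
      refine nr_dx hs ?_
      have := ((nr_pow 1 z.1).div_const 4).add ((nr_pow (k + 2) z.1).mul_const (c + z.2))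
      refine HasDerivAt.congr_deriv this ?_
      push_cast; ring
    have e2 : ∀ z, dy (fun z : ℝ × ℝ => z.1 ^ 2 / 4 + z.1 ^ (k + 3) * (c + z.2)) z
        = z.1 ^ (k + 3) := by
      intro z
      refine nr_dy hs ?_
      have := (((hasDerivAt_id z.2).const_add c).const_mul (z.1 ^ (k + 3))).const_add (z.1 ^ 2 / 4)
      refine HasDerivAt.congr_deriv this ?_
      simp
    refine ⟨hs, ?_, ⟨fun z => - (k + 3) ^ 2 * z.1 ^ (k + 1) * (c + z.2) ^ 2 - (c + z.2),
      by show ContDiff ℝ ∞ _; fun_prop, ?_⟩, ⟨k + 3, fun _ => 1, contDiff_const, one_ne_zero, ?_⟩⟩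
    · rw [e2]; simp
    · intro z
      rw [e1, e2]
      ring
    · refine Eventually.of_forall fun t => ?_
      simp only [e2]
      ring
  | G ε p n hε hp hn =>
    obtain ⟨k, rfl⟩ : ∃ k, p = k + 2 := ⟨p - 2, by omega⟩
    obtain ⟨j, rfl⟩ : ∃ j, n = j + 2 := ⟨n - 2, by omega⟩
    have hε0 : ε ≠ 0 := by rcases hε with h | h <;> simp [h]
    have hj : ((j : ℝ) + 2) ≠ 0 := by positivity
    have hs : Sm (fun z : ℝ × ℝ => ε * z.1 ^ (k + 2) * z.2 ^ (j + 2)) := by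
      show ContDiff ℝ ∞ _; fun_prop
    have e1 : ∀ z, dx (fun z : ℝ × ℝ => ε * z.1 ^ (k + 2) * z.2 ^ (j + 2)) z
        = ε * ((k + 2) * z.1 ^ (k + 1)) * z.2 ^ (j + 2) := by
      intro z
      refine nr_dx hs ?_
      have := ((nr_pow (k + 1) z.1).const_mul ε).mul_const (z.2 ^ (j + 2))
      refine HasDerivAt.congr_deriv this ?_
      push_cast; ring
    have e2 : ∀ z, dy (fun z : ℝ × ℝ => ε * z.1 ^ (k + 2) * z.2 ^ (j + 2)) z
        = ε * z.1 ^ (k + 2) * ((j + 2) * z.2 ^ (j + 1)) := by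
      intro z
      refine nr_dy hs ?_
      have := (nr_pow (j + 1) z.2).const_mul (ε * z.1 ^ (k + 2))
      refine HasDerivAt.congr_deriv this ?_
      push_cast; ring
    refine ⟨hs, ?_, ⟨fun z => ((k + 1) * z.2 - ε * (k + 2) ^ 2 * z.1 ^ k * z.2 ^ (j + 3)) / (j + 2),
      by show ContDiff ℝ ∞ _; fun_prop, ?_⟩,
      ⟨k + j + 3, fun _ => ε * (j + 2), contDiff_const, by positivity, ?_⟩⟩
    · rw [e2]; simp
    · intro z
      rw [e1, e2]
      field_simp
      ring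
    · refine Eventually.of_forall fun t => ?_
      simp only [e2]
      ring
  | H ε p n hε hp hn =>
    obtain ⟨k, rfl⟩ : ∃ k, p = k + 2 := ⟨p - 2, by omega⟩
    obtain ⟨j, rfl⟩ : ∃ j, n = j + 2 := ⟨n - 2, by omega⟩
    have hε0 : ε ≠ 0 := by rcases hε with h | h <;> simp [h]
    have hj : ((j : ℝ) + 2) ≠ 0 := by positivity
    have hs : Sm (fun z : ℝ × ℝ => z.1 ^ 2 / 4 + ε * z.1 ^ (k + 2) * z.2 ^ (j + 2)) := by
      show ContDiff ℝ ∞ _; fun_prop
    have e1 : ∀ z, dx (fun z : ℝ × ℝ => z.1 ^ 2 / 4 + ε * z.1 ^ (k + 2) * z.2 ^ (j + 2)) z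
        = z.1 / 2 + ε * ((k + 2) * z.1 ^ (k + 1)) * z.2 ^ (j + 2) := by
      intro z
      refine nr_dx hs ?_
      have := ((nr_pow 1 z.1).div_const 4).add
        (((nr_pow (k + 1) z.1).const_mul ε).mul_const (z.2 ^ (j + 2)))
      refine HasDerivAt.congr_deriv this ?_
      push_cast; ring
    have e2 : ∀ z, dy (fun z : ℝ × ℝ => z.1 ^ 2 / 4 + ε * z.1 ^ (k + 2) * z.2 ^ (j + 2)) z
        = ε * z.1 ^ (k + 2) * ((j + 2) * z.2 ^ (j + 1)) := by
      intro z
      refine nr_dy hs ?_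
      have := ((nr_pow (j + 1) z.2).const_mul (ε * z.1 ^ (k + 2))).const_add (z.1 ^ 2 / 4)
      refine HasDerivAt.congr_deriv this ?_
      push_cast; ring
    refine ⟨hs, ?_, ⟨fun z => (- z.2 - ε * (k + 2) ^ 2 * z.1 ^ k * z.2 ^ (j + 3)) / (j + 2),
      by show ContDiff ℝ ∞ _; fun_prop, ?_⟩,
      ⟨k + j + 3, fun _ => ε * (j + 2), contDiff_const, by positivity, ?_⟩⟩
    · rw [e2]; simp
    · intro z
      rw [e1, e2]
      field_simp
      ring
    · refine Eventually.of_forall fun t => ?_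
      simp only [e2]
      ring

end H86N
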