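import Pool.Agent.Lib.H86N.CoreNS
import Pool.Agent.Lib.H86N.E2
import Pool.Agent.Lib.H49M.K6
import Pool.Agent.Lib.H49M.R3
import Pool.Agent.Lib.H25Y.Sym

/-!
# O1: symmetric forms: general facts and dimension six
-/

set_option autoImplicit false
set_option linter.unusedSectionVars false
namespace Pool.Agent.H86N
open Module Pool.Agent.H53Toric Pool.Agent.H49M

variable {K : Type*} [Field K] {V : Type*} [AddCommGroup V] [Module K V]
variable {L : Submodule K (Module.End K V)}

/-- A nonzero invariant symmetric form is nondegenerate. -/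
theorem o1_nd (hirr : Irr L) {B : V →ₗ[K] V →ₗ[K] K} (hB : B ≠ 0)
    (hinv : ∀ X ∈ L, ∀ v w, B (X v) w + B v (X w) = 0) {v : V} (hv : ∀ w, B v w = 0) : v = 0 := by
  rcases hirr (LinearMap.ker B) (by
    intro X hX u hu
    rw [LinearMap.mem_ker] at hu ⊢
    ext w
    have h1 := hinv X hX u w
    rw [hu, LinearMap.zero_apply, add_zero] at h1
    rw [h1, LinearMap.zero_apply]) with h1 | h1
  · have h2 : v ∈ LinearMap.ker B := by
      rw [LinearMap.mem_ker]
      ext w
      exact hv w
    rw [h1, Submodule.mem_bot] at h2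
    exact h2
  · exact absurd (LinearMap.ker_eq_top.1 h1) hB

/-- Skew operators have trace zero. -/
theorem o1_trace [CharZero K] [FiniteDimensional K V] {B : V →ₗ[K] V →ₗ[K] K}
    (hnd : ∀ v, (∀ w, B v w = 0) → v = 0) {X : Module.End K V}
    (hX : ∀ v w, B (X v) w + B v (X w) = 0) : LinearMap.trace K V X = 0 := by
  have hinj : Function.Injective B := by
    rw [injective_iff_map_eq_zero]
    intro v hv
    exact hnd v fun w => by rw [hv]; rfl
  let Φ : V ≃ₗ[K] Module.Dual K V := LinearEquiv.ofInjectiveOfFinrankEq B hinj (Subspace.dual_finrank_eq).symm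
  have hΦ : ∀ v, Φ v = B v := fun v => rfl
  have h1 : (Φ.conj X : Module.End K (Module.Dual K V)) = -X.dualMap := by
    apply LinearMap.ext
    intro φ
    obtain ⟨v, rfl⟩ := Φ.surjective φ
    rw [LinearEquiv.conj_apply_apply, LinearEquiv.symm_apply_apply]
    ext w
    rw [hΦ, LinearMap.neg_apply, LinearMap.neg_apply, LinearMap.dualMap_apply, hΦ]
    exact eq_neg_of_add_eq_zero_left (hX v w)
  have h2 := LinearMap.trace_conj' X Φ
  rw [h1] at h2
  have h3 : LinearMap.trace K (Module.Dual K V) X.dualMap = LinearMap.trace K V X := LinearMap.trace_transpose' X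
  have h5 : LinearMap.trace K (Module.Dual K V) (-X.dualMap) = -LinearMap.trace K (Module.Dual K V) X.dualMap :=
    (LinearMap.trace K (Module.Dual K V)).map_neg (X.dualMap : Module.End K (Module.Dual K V))
  rw [h5, h3] at h2
  have h4 : (2 : K) * LinearMap.trace K V X = 0 := by linear_combination -h2
  exact (mul_eq_zero.1 h4).resolve_left two_ne_zero

/-- Skew operators for a symmetric form do not have rank one. -/
theorem o1_rank [CharZero K] [FiniteDimensional K V] {B : V →ₗ[K] V →ₗ[K] K}
    (hnd : ∀ v, (∀ w, B v w = 0) → v = 0) (hsym : ∀ v w, B v w = B w v) {X : Module.End K V}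
    (hX : ∀ v w, B (X v) w + B v (X w) = 0) : finrank K (LinearMap.range X) ≠ 1 := by
  intro h1
  obtain ⟨⟨x, hx⟩, hx0, hspan⟩ := finrank_eq_one_iff'.1 h1
  have hx0' : x ≠ 0 := fun h => hx0 (Subtype.ext h)
  obtain ⟨y, hy⟩ := hx
  have hc : ∀ v, ∃ c : K, X v = c • x := by
    intro v
    obtain ⟨c, hc⟩ := hspan ⟨X v, v, rfl⟩
    exact ⟨c, (congrArg Subtype.val hc).symm⟩
  -- B (x, v) = 0 for all v outside the kernel
  have h2 : ∀ v, X v ≠ 0 → B x v = 0 := by
    intro v hv
    obtain ⟨c, hc'⟩ := hc v
    have hc0 : c ≠ 0 := by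
      rintro rfl
      rw [zero_smul] at hc'
      exact hv hc'
    have h3 := hX v v
    rw [hsym v (X v), hc', map_smul, LinearMap.smul_apply, smul_eq_mul] at h3
    have h4 : (2 : K) * (c * B x v) = 0 := by linear_combination h3
    have h5 := (mul_eq_zero.1 h4).resolve_left two_ne_zero
    exact (mul_eq_zero.1 h5).resolve_left hc0
  have hXy : X y ≠ 0 := by rw [hy]; exact hx0'
  apply hx0'
  apply hnd
  intro w
  by_cases hw : X w = 0
  · have h3 := h2 (w + y) (by rw [map_add, hw, zero_add]; exact hXy)
    have h4 := h2 y hXy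
    rw [map_add, h4, add_zero] at h3
    exact h3
  · exact h2 w hw

/-- The eigenspaces of an involution are isotropic. -/
theorem o1_iso [CharZero K] {B : V →ₗ[K] V →ₗ[K] K} {s : Module.End K V}
    (hs : ∀ v w, B (s v) w + B v (s w) = 0) {c : K} (hc : c * c = 1) {v w : V} (hv : s v = c • v) (hw : s w = c • w) :
    B v w = 0 := by
  have h1 := hs v w
  rw [hv, hw, map_smul, map_smul, LinearMap.smul_apply, smul_eq_mul] at h1
  have h2 : (2 * c) * B v w = 0 := by linear_combination h1
  have hc0 : c ≠ 0 := by
    rintro rfl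
    rw [zero_mul] at hc
    exact zero_ne_one hc
  exact (mul_eq_zero.1 h2).resolve_left (mul_ne_zero two_ne_zero hc0)

/-- If the eigenspaces of `s` have dimension three and `L` contains three independent operators of weight one, it
contains all skew operators of weight one. -/
theorem o1_weight [CharZero K] [FiniteDimensional K V] {B : V →ₗ[K] V →ₗ[K] K}
    (hnd : ∀ v, (∀ w, B v w = 0) → v = 0) (hsym : ∀ v w, B v w = B w v) {s : Module.End K V}
    (hss : s * s = 1) (hs : ∀ v w, B (s v) w + B v (s w) = 0) (h3 : finrank K (eig s (-1)) = 3)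
    (hinv : ∀ X ∈ L, ∀ v w, B (X v) w + B v (X w) = 0) {x : Fin 3 → Module.End K V}
    (hx : ∀ i, x i ∈ Lp L s) (hli : LinearIndependent K x) {X : Module.End K V}
    (hX : ∀ v w, B (X v) w + B v (X w) = 0) (h1 : s * X = X) (h2 : X * s = -X) : X ∈ L := by
  let S : Submodule K (Module.End K V) :=
    { carrier := {X | (∀ v w, B (X v) w + B v (X w) = 0) ∧ s * X = X ∧ X * s = -X}
      add_mem' := by
        rintro a b ⟨h1, h2, h3⟩ ⟨h4, h5, h6⟩
        refine ⟨fun v w => ?_, by rw [mul_add, h2, h5], by rw [add_mul, h3, h6]; abel⟩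
        simp only [LinearMap.add_apply, map_add]
        linear_combination h1 v w + h4 v w
      zero_mem' := ⟨fun v w => by simp, by simp, by simp⟩
      smul_mem' := by
        rintro c a ⟨h1, h2, h3⟩
        refine ⟨fun v w => ?_, by rw [mul_smul_comm, h2], by rw [smul_mul_assoc, h3, smul_neg]⟩
        simp only [LinearMap.smul_apply, map_smul, smul_eq_mul]
        linear_combination c * h1 v w }
  have hLS : Submodule.span K (Set.range x) ≤ S := by
    rw [Submodule.span_le]
    rintro _ ⟨i, rfl⟩
    exact ⟨hinv _ (hx i).1, (hx i).2.1, (hx i).2.2⟩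
  -- the dimension of S
  let b := Module.finBasisOfFinrankEq K (eig s (-1)) h3
  have m1 : ∀ {v : V}, v ∈ eig s (-1) ↔ s v = (-1 : K) • v := by
    intro v
    rw [eig, LinearMap.mem_ker, LinearMap.sub_apply, sub_eq_zero, LinearMap.smul_apply, Module.End.one_apply]
  let T : S →ₗ[K] (Fin 3 → K) :=
    { toFun := fun X => ![B (X.1 (b 0)) (b 1), B (X.1 (b 0)) (b 2), B (X.1 (b 1)) (b 2)]
      map_add' := by
        intro X Y
        ext i
        fin_cases i <;> simp
      map_smul' := by
        intro c X
        ext i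
        fin_cases i <;> simp }
  have hT : Function.Injective T := by
    rw [injective_iff_map_eq_zero]
    rintro ⟨X, hX1, hX2, hX3⟩ h0
    have t0 : B (X (b 0)) (b 1) = 0 := congrFun h0 0
    have t1 : B (X (b 0)) (b 2) = 0 := congrFun h0 1
    have t2 : B (X (b 1)) (b 2) = 0 := congrFun h0 2
    have hsk : ∀ i j, B (X (b i)) (b j) = -B (X (b j)) (b i) := by
      intro i j
      rw [eq_neg_of_add_eq_zero_left (hX1 (b i) (b j)), hsym (X (b j)) (b i)]
    have hall : ∀ i j, B (X (b i)) (b j) = 0 := by
      intro i j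
      have hd : ∀ i, B (X (b i)) (b i) = 0 := by
        intro i
        have := hsk i i
        have h4 : (2 : K) * B (X (b i)) (b i) = 0 := by linear_combination this
        exact (mul_eq_zero.1 h4).resolve_left two_ne_zero
      fin_cases i <;> fin_cases j
      · exact hd 0
      · exact t0
      · exact t1
      · show B (X (b 1)) (b 0) = 0
        rw [hsk, t0, neg_zero]
      · exact hd 1
      · exact t2
      · show B (X (b 2)) (b 0) = 0
        rw [hsk, t1, neg_zero]
      · show B (X (b 2)) (b 1) = 0
        rw [hsk, t2, neg_zero]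
      · exact hd 2
    have hsX : ∀ v, s (X v) = (1 : K) • X v := by
      intro v
      rw [one_smul, ← Module.End.mul_apply, hX2]
    have hXb : ∀ i, X (b i) = 0 := by
      intro i
      apply hnd
      intro w
      -- decompose w
      have hw : w = (1 / 2 : K) • (w + s w) + (1 / 2 : K) • (w - s w) := by module
      have ss : ∀ v, s (s v) = v := fun v => LinearMap.congr_fun hss v
      have hw1 : s ((1 / 2 : K) • (w + s w)) = (1 : K) • ((1 / 2 : K) • (w + s w)) := by
        rw [map_smul, map_add, ss, one_smul, add_comm]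
      have hw2 : (1 / 2 : K) • (w - s w) ∈ eig s (-1) := by
        rw [m1, map_smul, map_sub, ss]
        module
      have e1 : B (X (b i)) ((1 / 2 : K) • (w + s w)) = 0 :=
        o1_iso hs (one_mul 1) (hsX _) hw1
      have e2 : ∀ w' : eig s (-1), B (X (b i)) w' = 0 := by
        intro w'
        have h5 : ((B (X (b i))) ∘ₗ (eig s (-1)).subtype) = 0 := by
          apply b.ext
          intro j
          exact hall i j
        exact LinearMap.congr_fun h5 w'
      rw [hw, map_add, e1, zero_add]
      exact e2 ⟨_, hw2⟩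
    have hXm : ∀ v ∈ eig s (-1), X v = 0 := by
      intro v hv
      have h5 : X ∘ₗ (eig s (-1)).subtype = 0 := b.ext hXb
      exact LinearMap.congr_fun h5 ⟨v, hv⟩
    apply Subtype.ext
    apply LinearMap.ext
    intro v
    have ss : ∀ v, s (s v) = v := fun v => LinearMap.congr_fun hss v
    have hv2 : (1 / 2 : K) • (v - s v) ∈ eig s (-1) := by
      rw [m1, map_smul, map_sub, ss]
      module
    have h5 := hXm _ hv2
    have h6 : X (s v) = -X v := LinearMap.congr_fun hX3 v
    rw [map_smul, map_sub, h6, sub_neg_eq_add, ← two_smul K, smul_smul] at h5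
    norm_num at h5
    exact h5
  have hS3 : finrank K S ≤ 3 := by
    have := LinearMap.finrank_le_finrank_of_injective hT
    rwa [Module.finrank_fin_fun] at this
  have hsp3 : finrank K (Submodule.span K (Set.range x)) = 3 := by
    rw [finrank_span_eq_card hli, Fintype.card_fin]
  have heq : Submodule.span K (Set.range x) = S :=
    Submodule.eq_of_le_of_finrank_le hLS (by rw [hsp3]; exact hS3)
  have hXS : X ∈ S := ⟨hX, h1, h2⟩
  rw [← heq] at hXS
  refine (Submodule.span_le.2 ?_ : Submodule.span K (Set.range x) ≤ L) hXS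
  rintro _ ⟨i, rfl⟩
  exact (hx i).1

/-- The generators of a Kemmer system are independent. -/
theorem o1_li [CharZero K] {s : Module.End K V} {n : ℕ} {x y : Fin (n + 1) → Module.End K V} (h : Kemmer s x y)
    (hx0 : x 0 ≠ 0) : LinearIndependent K x := by
  have hne : ∀ j, x j ≠ 0 := by
    intro j hj
    by_cases h0 : j = 0
    · rw [h0] at hj; exact hx0 hj
    · apply hx0
      have h1 := h.r1 j j 0
      rw [hj, if_pos rfl, if_neg (Ne.symm h0)] at h1
      simp only [zero_mul, mul_zero, add_zero] at h1
      exact h1.symm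
  rw [Fintype.linearIndependent_iff]
  intro c hc j
  have h1 : (∑ i, c i • x i) * y j * x j + x j * y j * (∑ i, c i • x i) = c j • x j + ∑ i, c i • x i := by
    have h2 : ∀ i, (c i • x i) * y j * x j + x j * y j * (c i • x i) = (if i = j then c i • x j else 0) + c i • x i := by
      intro i
      have h3 := h.r1 i j j
      rw [if_pos rfl] at h3
      rw [smul_mul_assoc, smul_mul_assoc, mul_smul_comm, ← smul_add, h3, smul_add]
      congr 1
      split_ifs
      · rfl
      · rw [smul_zero]
    rw [Finset.sum_mul, Finset.sum_mul, Finset.mul_sum, ← Finset.sum_add_distrib]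
    simp only [h2]
    rw [Finset.sum_add_distrib]
    congr 1
    simp
  rw [hc] at h1
  simp only [zero_mul, mul_zero, add_zero] at h1
  exact (smul_eq_zero.1 h1.symm).resolve_right (hne j)

end Pool.Agent.H86N
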