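import Pool.Agent.Lib.H86N.O1

/-!
# O2: symmetric forms, the case of a rank one Jordan pair
-/

set_option autoImplicit false
set_option linter.unusedSectionVars false
namespace Pool.Agent.H86N
open Module Pool.Agent.H53Toric Pool.Agent.H49M

variable {K : Type*} [Field K] {V : Type*} [AddCommGroup V] [Module K V]
variable {L : Submodule K (Module.End K V)}

/-- The Kemmer case with a symmetric form: `k` is even, and `k = 2` is the orthogonal algebra. -/
theorem o2_alpha [CharZero K] [IsAlgClosed K] [FiniteDimensional K V] [Nontrivial V]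
    (h : CoreN L) {B : V →ₗ[K] V →ₗ[K] K} (hB : B ≠ 0) (hsym : ∀ v w, B v w = B w v)
    (hinv : ∀ X ∈ L, ∀ v w, B (X v) w + B v (X w) = 0)
    {s e f : Module.End K V} (F : Frame L s e f) (ha : ∀ u ∈ J1 L s e f, u * f * u = 0) :
    (∀ X : Module.End K V, (∀ v w, B (X v) w + B v (X w) = 0) → X ∈ L) ∨
    ∃ k : ℕ, 4 ≤ k ∧ Even k ∧ finrank K V = k.centralBinom ∧
      finrank K (LinearMap.range e) = (k - 1).centralBinom := by
  have hall := fun (x : Module.End K V) (hx : x ∈ Lp L s) (y : Module.End K V)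
    (hy : y ∈ Lm L s) => K2_all h F ha hx hy
  obtain ⟨n, x, y, hK, hx, hy, hxL, hyL, -, -⟩ := K3_system h F hall
  have hx0 : x 0 ≠ 0 := by rw [hx]; exact F.e_ne
  obtain ⟨k, hk1, hk2, h1, h2, h3, hcnt⟩ := R2_rank hK hx0
  obtain ⟨h4, h5⟩ := K5_eig h F.s_mem F.s_sq
  obtain ⟨j', hj1, hj2⟩ : ∃ j : ℕ, n + 1 = 2 * j + 1 ∧ (1 : K) = (-1) ^ (j + 1) := by
    have hform : ∀ X ∈ L, ∀ v w, B (X v) w = -B v (X w) := fun X hX v w =>
      eq_neg_of_add_eq_zero_left (hinv X hX v w)
    exact K6_sign (n + 1) V hK B 1 hB (fun v w => by rw [hsym]; ring)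
      (fun i => hform _ (hxL i)) (fun i => hform _ (hyL i)) (hform _ F.s_mem)
  obtain ⟨j, rfl⟩ : ∃ j, k = j + 1 := ⟨k - 1, by omega⟩
  rw [Nat.add_sub_cancel] at h2 h3
  rw [h1, h2] at h4
  have h6 := Nat.choose_succ_right_eq (n + 1) j
  rw [h4] at h6
  have h7 : 0 < (n + 1).choose j := Nat.choose_pos (by omega)
  have h8 : j + 1 = n + 1 - j := Nat.eq_of_mul_eq_mul_left h7 h6
  have h9 : n = 2 * j := by omega
  have h10 : finrank K (LinearMap.range e) = j.centralBinom := by
    rw [← hx, h3, h9, Nat.centralBinom]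
  have h11 : finrank K V = (j + 1).centralBinom := by
    have e1 : (2 * (j + 1)).choose (j + 1) = (2 * j + 1).choose j + (2 * j + 1).choose (j + 1) := by
      rw [show 2 * (j + 1) = (2 * j + 1) + 1 by ring, Nat.choose_succ_succ]
    rw [h5, h1, Nat.centralBinom, e1, ← h9, h4]
    ring
  have hjj : j' = j := by omega
  have heven : Even (j + 1) := by
    by_contra hne
    rw [Nat.not_even_iff_odd] at hne
    rw [hjj, hne.neg_one_pow] at hj2
    have h12 : (2 : K) = 0 := by linear_combination hj2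
    exact two_ne_zero h12
  rcases Nat.lt_or_ge (j + 1) 4 with hj4 | hj4
  swap
  · exact Or.inr ⟨j + 1, hj4, heven, h11, by rw [Nat.add_sub_cancel]; exact h10⟩
  left
  have hj : j = 1 := by
    obtain ⟨a, ha⟩ := heven
    omega
  subst hj
  subst h9
  -- dimension six
  have hnd : ∀ v, (∀ w, B v w = 0) → v = 0 := fun v hv => o1_nd h.irr hB hinv hv
  have hss := hinv s F.s_mem
  have d1 : finrank K (eig s (-1)) = 3 := by rw [h2]; rfl
  have d2 : finrank K (eig s 1) = 3 := by rw [h1]; rfl
  have hns : ∀ v w, B ((-s) v) w + B v ((-s) w) = 0 := by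
    intro v w
    rw [LinearMap.neg_apply, LinearMap.neg_apply, map_neg, map_neg, LinearMap.neg_apply]
    linear_combination -hss v w
  have xp : ∀ i, x i ∈ Lp L s := fun i => ⟨hxL i, hK.sx i, hK.xs i⟩
  have ym : ∀ i, y i ∈ Lp L (-s) := fun i => ⟨hyL i, by rw [neg_mul, hK.sy, neg_neg], by rw [mul_neg, hK.ys]⟩
  have y0 : y 0 ≠ 0 := by
    intro h0
    apply hx0
    rw [← K4a_xyx hK 0, h0]
    simp
  have hpos : ∀ X : Module.End K V, (∀ v w, B (X v) w + B v (X w) = 0) → s * X = X → X * s = -X → X ∈ L :=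
    fun X hX a1 a2 => o1_weight hnd hsym F.s_sq hss d1 hinv xp (o1_li hK hx0) hX a1 a2
  have hneg : ∀ X : Module.End K V, (∀ v w, B (X v) w + B v (X w) = 0) → s * X = -X → X * s = X → X ∈ L := by
    intro X hX a1 a2
    have e1 : eig (-s) (-1) = eig s 1 := by
      ext v
      rw [eig, eig, LinearMap.mem_ker, LinearMap.mem_ker, LinearMap.sub_apply, LinearMap.sub_apply,
        LinearMap.neg_apply, LinearMap.smul_apply, LinearMap.smul_apply, Module.End.one_apply, neg_one_smul,
        one_smul, sub_neg_eq_add, sub_eq_zero, neg_add_eq_zero]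
    exact o1_weight hnd hsym (by rw [neg_mul_neg, F.s_sq]) hns (by rw [e1]; exact d2) hinv ym
      (o1_li (K4a_swap hK) y0) hX (by rw [neg_mul, a1, neg_neg]) (by rw [mul_neg, a2])
  -- brackets of skew operators are skew
  have hbr : ∀ X Y : Module.End K V, (∀ v w, B (X v) w + B v (X w) = 0) → (∀ v w, B (Y v) w + B v (Y w) = 0) →
      ∀ v w, B ((X * Y - Y * X) v) w + B v ((X * Y - Y * X) w) = 0 := by
    intro X Y hX hY v w
    have a1 := hX (Y v) w
    have a2 := hY v (X w)
    have a3 := hY (X v) w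
    have a4 := hX v (Y w)
    simp only [LinearMap.sub_apply, Module.End.mul_apply, map_sub]
    linear_combination a1 - a2 - a3 + a4
  intro X hX
  have hs2 := F.s_sq
  -- the part of weight zero
  have hsX : ∀ v w, B ((s * X * s) v) w + B v ((s * X * s) w) = 0 := by
    intro v w
    have a1 := hss (X (s v)) w
    have a2 := hX (s v) (s w)
    have a3 := hss v (X (s w))
    simp only [Module.End.mul_apply]
    linear_combination a1 - a2 + a3
  obtain ⟨Z, hZ⟩ : ∃ Z : Module.End K V, Z = (1 / 2 : K) • (X + s * X * s) := ⟨_, rfl⟩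
  have hZs : ∀ v w, B (Z v) w + B v (Z w) = 0 := by
    intro v w
    rw [hZ]
    simp only [LinearMap.smul_apply, LinearMap.add_apply, map_smul, map_add, smul_eq_mul]
    linear_combination (1 / 2 : K) * hX v w + (1 / 2 : K) * hsX v w
  have hsZ : s * Z = Z * s := by
    rw [hZ, mul_smul_comm, smul_mul_assoc]
    congr 1
    calc s * (X + s * X * s) = s * X + (s * s) * X * s := by noncomm_ring
      _ = s * X * (s * s) + X * s := by rw [hs2]; noncomm_ring
      _ = _ := by noncomm_ring
  have hZL : Z ∈ L := by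
    have kp : ∀ Y ∈ Lp L s, Z * Y - Y * Z ∈ L := by
      intro Y hY
      refine hpos _ (hbr Z Y hZs (hinv Y hY.1)) ?_ ?_
      · calc s * (Z * Y - Y * Z) = (s * Z) * Y - (s * Y) * Z := by noncomm_ring
          _ = (Z * s) * Y - Y * Z := by rw [hsZ, hY.2.1]
          _ = Z * (s * Y) - Y * Z := by rw [mul_assoc Z s Y]
          _ = _ := by rw [hY.2.1]
      · calc (Z * Y - Y * Z) * s = Z * (Y * s) - Y * (Z * s) := by noncomm_ring
          _ = Z * (-Y) - Y * (s * Z) := by rw [hY.2.2, ← hsZ]
          _ = -(Z * Y) - (Y * s) * Z := by noncomm_ring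
          _ = -(Z * Y) - (-Y) * Z := by rw [hY.2.2]
          _ = _ := by noncomm_ring
    have km : ∀ Y ∈ Lm L s, Z * Y - Y * Z ∈ L := by
      intro Y hY
      refine hneg _ (hbr Z Y hZs (hinv Y hY.1)) ?_ ?_
      · calc s * (Z * Y - Y * Z) = (s * Z) * Y - (s * Y) * Z := by noncomm_ring
          _ = (Z * s) * Y - (-Y) * Z := by rw [hsZ, hY.2.1]
          _ = Z * (s * Y) + Y * Z := by noncomm_ring
          _ = Z * (-Y) + Y * Z := by rw [hY.2.1]
          _ = _ := by noncomm_ring
      · calc (Z * Y - Y * Z) * s = Z * (Y * s) - Y * (Z * s) := by noncomm_ring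
          _ = Z * Y - Y * (s * Z) := by rw [hY.2.2, ← hsZ]
          _ = Z * Y - (Y * s) * Z := by rw [mul_assoc Y s Z]
          _ = _ := by rw [hY.2.2]
    have k0 : ∀ Y ∈ L0 L s, Z * Y - Y * Z ∈ L := by
      intro Y hY
      refine Submodule.span_induction (p := fun Y _ => Z * Y - Y * Z ∈ L) ?_ (by simp) ?_ ?_
        (A3_span h F.s_mem F.s_sq hY)
      · rintro _ ⟨P, hP, Q, hQ, rfl⟩
        have e1 : Z * (P * Q - Q * P) - (P * Q - Q * P) * Z =
            ((Z * P - P * Z) * Q - Q * (Z * P - P * Z)) + (P * (Z * Q - Q * Z) - (Z * Q - Q * Z) * P) := by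
          noncomm_ring
        rw [e1]
        exact L.add_mem (h.lie _ (kp P hP) _ hQ.1) (h.lie _ hP.1 _ (km Q hQ))
      · intro a b _ _ h1 h2
        have e1 : Z * (a + b) - (a + b) * Z = (Z * a - a * Z) + (Z * b - b * Z) := by noncomm_ring
        rw [e1]
        exact L.add_mem h1 h2
      · intro c a _ h1
        have e1 : Z * (c • a) - (c • a) * Z = c • (Z * a - a * Z) := by
          rw [mul_smul_comm, smul_mul_assoc, smul_sub]
        rw [e1]
        exact L.smul_mem c h1
    refine Pool.Agent.H25Y.norm_mem h.lie h.irr h.tr (fun Y hY => ?_) (o1_trace hnd hZs)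
    obtain ⟨a, ha, b, hb, c, hc, rfl⟩ := A2_decomp h F.s_mem F.s_sq hY
    have e1 : Z * (a + b + c) - (a + b + c) * Z = (Z * a - a * Z) + (Z * b - b * Z) + (Z * c - c * Z) := by
      noncomm_ring
    rw [e1]
    exact L.add_mem (L.add_mem (kp a ha) (k0 b hb)) (km c hc)
  -- the parts of weight one and minus one
  obtain ⟨P, hP⟩ : ∃ P : Module.End K V, P = (1 / 4 : K) • (X + s * X - X * s - s * X * s) := ⟨_, rfl⟩
  obtain ⟨Q, hQ⟩ : ∃ Q : Module.End K V, Q = (1 / 4 : K) • (X - s * X + X * s - s * X * s) := ⟨_, rfl⟩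
  have hc : ∀ v w, B ((s * X - X * s) v) w + B v ((s * X - X * s) w) = 0 := hbr s X hss hX
  have hPL : P ∈ L := by
    refine hpos P (fun v w => ?_) ?_ ?_
    · have a1 := hX v w
      have a2 := hsX v w
      have a3 := hc v w
      rw [hP]
      simp only [LinearMap.smul_apply, LinearMap.add_apply, LinearMap.sub_apply, map_smul, map_add, map_sub,
        smul_eq_mul] at a3 ⊢
      linear_combination (1 / 4 : K) * a1 - (1 / 4 : K) * a2 + (1 / 4 : K) * a3
    · rw [hP, mul_smul_comm]
      congr 1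
      calc s * (X + s * X - X * s - s * X * s) = s * X + (s * s) * X - s * X * s - (s * s) * X * s := by noncomm_ring
        _ = _ := by rw [hs2]; noncomm_ring
    · rw [hP, smul_mul_assoc, ← smul_neg]
      congr 1
      calc (X + s * X - X * s - s * X * s) * s = X * s + s * X * s - X * (s * s) - s * X * (s * s) := by noncomm_ring
        _ = _ := by rw [hs2]; noncomm_ring
  have hQL : Q ∈ L := by
    refine hneg Q (fun v w => ?_) ?_ ?_
    · have a1 := hX v w
      have a2 := hsX v w
      have a3 := hc v w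
      rw [hQ]
      simp only [LinearMap.smul_apply, LinearMap.add_apply, LinearMap.sub_apply, map_smul, map_add, map_sub,
        smul_eq_mul] at a3 ⊢
      linear_combination (1 / 4 : K) * a1 - (1 / 4 : K) * a2 - (1 / 4 : K) * a3
    · rw [hQ, mul_smul_comm, ← smul_neg]
      congr 1
      calc s * (X - s * X + X * s - s * X * s) = s * X - (s * s) * X + s * X * s - (s * s) * X * s := by noncomm_ring
        _ = _ := by rw [hs2]; noncomm_ring
    · rw [hQ, smul_mul_assoc]
      congr 1
      calc (X - s * X + X * s - s * X * s) * s = X * s - s * X * s + X * (s * s) - s * X * (s * s) := by noncomm_ring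
        _ = _ := by rw [hs2]; noncomm_ring
  have hfin : X = Z + P + Q := by
    rw [hZ, hP, hQ]
    module
  rw [hfin]
  exact L.add_mem (L.add_mem hZL hPL) hQL

end Pool.Agent.H86N
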