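import Pool.Agent.Lib.H86N.Had

/-! Chunk ORD: orders of non-flat functions. -/

open Filter Topology Asymptotics
open scoped ContDiff

namespace H86N

/-- Iterate `had_1`: as long as the value at `0` is `0` divide by `t`; if this never stops then
`b = t^n ψ_n` for every `n`, so `b` is flat. -/
theorem order1 {b : ℝ → ℝ} (hb : Sm1 b) (h : ¬ Flat1 b) : ∃ (J : ℕ) (ψ : ℝ → ℝ), Lead b J ψ := by
  by_contra hno
  apply h
  have key : ∀ n : ℕ, ∃ ψ : ℝ → ℝ, Sm1 ψ ∧ ∀ t, b t = t ^ n * ψ t := by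
    intro n
    induction n with
    | zero => exact ⟨b, hb, fun t => by simp⟩
    | succ n ih =>
      obtain ⟨ψ, h1, h2⟩ := ih
      obtain ⟨ψ', h3, h4⟩ := had_1 h1
      have h5 : ψ 0 = 0 := by
        by_contra h6
        exact hno ⟨n, ψ, h1, h6, Eventually.of_forall h2⟩
      refine ⟨ψ', h3, fun t => ?_⟩
      rw [h2 t, h4 t, h5, pow_succ]
      ring
  intro n
  obtain ⟨ψ, h1, h2⟩ := key n
  have h3 : ψ =O[𝓝 0] fun _ => (1 : ℝ) := (h1.continuous.tendsto 0).isBigO_one ℝ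
  have h4 := (isBigO_refl (fun t : ℝ => t ^ n) (𝓝 0)).mul h3
  refine h4.congr (fun t => (h2 t).symm) (fun t => by simp)

theorem ord_snd_isBigO : (fun z : ℝ × ℝ => z.2) =O[𝓝 0] fun z => ‖z‖ :=
  IsBigO.of_bound 1 (Eventually.of_forall fun z => by simpa using norm_snd_le z)

theorem ord_fst_isBigO : (fun z : ℝ × ℝ => z.1) =O[𝓝 0] fun z => ‖z‖ :=
  IsBigO.of_bound 1 (Eventually.of_forall fun z => by simpa using norm_fst_le z)

/-- Iterate `had_x`: `F = ∑_{m<i} x^m φ_m(y) + x^i B_i` for every `i`, `φ_m = B_m(0,·)`. If all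
`φ_m` were flat then `|F z| ≤ ∑ |x|^m |φ_m y| + C |x|^i = O(‖z‖^i)` for every `i`, so `F` is flat.
Take the first `i` with `B_i(0,·)` not flat, and `order1`. -/
theorem order2 {F : ℝ × ℝ → ℝ} (hF : Sm F) (h : ¬ Flat F) :
    ∃ (i : ℕ) (φ : ℕ → ℝ → ℝ) (B : ℝ × ℝ → ℝ) (J : ℕ) (ψ : ℝ → ℝ),
      Dec F i φ B ∧ Lead (fun t => B (0, t)) J ψ := by
  classical
  -- the sequence of quotients
  let nxt : {B : ℝ × ℝ → ℝ // Sm B} → {B : ℝ × ℝ → ℝ // Sm B} := fun B =>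
    ⟨(had_x B.2).choose, (had_x B.2).choose_spec.1⟩
  have hnxt : ∀ (B : {B : ℝ × ℝ → ℝ // Sm B}) (z : ℝ × ℝ), B.1 z = B.1 (0, z.2) + z.1 * (nxt B).1 z :=
    fun B => (had_x B.2).choose_spec.2
  let S : ℕ → {B : ℝ × ℝ → ℝ // Sm B} := fun n => nxt^[n] ⟨F, hF⟩
  have hS : ∀ n, S (n + 1) = nxt (S n) := fun n => Function.iterate_succ_apply' _ _ _
  let φ : ℕ → ℝ → ℝ := fun m t => (S m).1 (0, t)
  have hφ : ∀ m, Sm1 (φ m) := fun m => (S m).2.slice0
  have hdec : ∀ i : ℕ, ∀ z : ℝ × ℝ, F z = ∑ m ∈ Finset.range i, z.1 ^ m * φ m z.2 + z.1 ^ i * (S i).1 z := by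
    intro i z
    induction i with
    | zero => simp [S]
    | succ i ih =>
      rw [ih, Finset.sum_range_succ, hS i, hnxt (S i) z, pow_succ]
      ring
  -- not all of the functions are flat
  have hex : ∃ i, ¬ Flat1 (φ i) := by
    by_contra hno
    push Not at hno
    apply h
    intro n
    have h1 : (fun z : ℝ × ℝ => ∑ m ∈ Finset.range n, z.1 ^ m * φ m z.2) =O[𝓝 0] fun z => ‖z‖ ^ n := by
      apply IsBigO.fun_sum
      intro m _
      have e1 : (fun z : ℝ × ℝ => φ m z.2) =O[𝓝 0] fun z => z.2 ^ n :=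
        (hno m n).comp_tendsto (continuous_snd.tendsto (0 : ℝ × ℝ))
      have e2 := e1.trans (ord_snd_isBigO.pow n)
      have e3 : (fun z : ℝ × ℝ => z.1 ^ m) =O[𝓝 0] fun _ => (1 : ℝ) :=
        ((continuous_fst.pow m).tendsto (0 : ℝ × ℝ)).isBigO_one ℝ
      have e4 := e3.mul e2
      simpa using e4
    have h2 : (fun z : ℝ × ℝ => z.1 ^ n * (S n).1 z) =O[𝓝 0] fun z => ‖z‖ ^ n := by
      have e3 : (S n).1 =O[𝓝 0] fun _ => (1 : ℝ) := ((S n).2.continuous.tendsto 0).isBigO_one ℝ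
      have e4 := (ord_fst_isBigO.pow n).mul e3
      simpa using e4
    refine (h1.add h2).congr (fun z => (hdec n z).symm) (fun z => rfl)
  let i := Nat.find hex
  have hi : ¬ Flat1 (φ i) := Nat.find_spec hex
  have hlt : ∀ m < i, Flat1 (φ m) := fun m hm => not_not.1 (Nat.find_min hex hm)
  obtain ⟨J, ψ, hL⟩ := order1 (hφ i) hi
  exact ⟨i, φ, (S i).1, J, ψ, ⟨(S i).2, hφ, hlt, Eventually.of_forall (hdec i)⟩, hL⟩

end H86N
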