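import Pool.Agent.Lib.H86N.Defs

/-! Stage 2 definitions: the description of all smooth admissible `f`. -/

open Filter Topology
open scoped ContDiff

namespace H86N

/-- `f = - φ(Y) (x + φ(Y))` with `φ` an arbitrary smooth function of one variable, `φ(0) ≠ 0`,
`φ'(0) = 0`, `φ` not constant near `0`, and `Y` smooth near the origin, `Y(0,0) = 0`,
`Y_y(0,0) ≠ 0` -/
def TypeI (f : ℝ × ℝ → ℝ) : Prop :=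
  ∃ (φ : ℝ → ℝ) (Y : ℝ × ℝ → ℝ), ContDiff ℝ ∞ φ ∧ SmoothNear Y ∧ Y 0 = 0 ∧ dy Y 0 ≠ 0 ∧
    φ 0 ≠ 0 ∧ deriv φ 0 = 0 ∧ (¬ ∀ᶠ t in 𝓝 (0 : ℝ), φ t = φ 0) ∧
    ∀ᶠ z in 𝓝 (0 : ℝ × ℝ), f z = -(φ (Y z) * (z.1 + φ (Y z)))

/-- `f = x²/4 + W(P,y) - W_P(P,y)²/4`, where `x = 2 P - W_P(P,y)`, with `W(P,y)` smooth, flat at the
origin, `W_y` not identically zero near the origin and `W / W_y` extends smoothly -/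
def TypeW (f : ℝ × ℝ → ℝ) : Prop :=
  ∃ W P : ℝ × ℝ → ℝ, SmoothNear W ∧ SmoothNear P ∧ P 0 = 0 ∧ Flat W ∧
    (¬ ∀ᶠ z in 𝓝 (0 : ℝ × ℝ), dy W z = 0) ∧
    (∃ G : ℝ × ℝ → ℝ, SmoothNear G ∧
      ∀ᶠ z in 𝓝 (0 : ℝ × ℝ), dy W z ≠ 0 → G z = W z / dy W z) ∧
    ∀ᶠ z in 𝓝 (0 : ℝ × ℝ), z.1 = 2 * P z - dx W (P z, z.2) ∧
      f z = z.1 ^ 2 / 4 + W (P z, z.2) - (dx W (P z, z.2)) ^ 2 / 4

/-- `f = q_p(p,y)²/4 - q(p,y)`, where `x = q_p(p,y) - 2 p`, with `q(p,y)` smooth, flat at the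
origin, `q_y` not identically zero near the origin and `(p q_p - q) / q_y` extends smoothly -/
def TypeQ (f : ℝ × ℝ → ℝ) : Prop :=
  ∃ q p : ℝ × ℝ → ℝ, SmoothNear q ∧ SmoothNear p ∧ p 0 = 0 ∧ Flat q ∧
    (¬ ∀ᶠ z in 𝓝 (0 : ℝ × ℝ), dy q z = 0) ∧
    (∃ G : ℝ × ℝ → ℝ, SmoothNear G ∧
      ∀ᶠ z in 𝓝 (0 : ℝ × ℝ), dy q z ≠ 0 → G z = (z.1 * dx q z - q z) / dy q z) ∧
    ∀ᶠ z in 𝓝 (0 : ℝ × ℝ), z.1 = dx q (p z, z.2) - 2 * p z ∧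
      f z = (dx q (p z, z.2)) ^ 2 / 4 - q (p z, z.2)

end H86N
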