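import Pool.Agent.Lib.H86N.Base

/-! Chunk SPEC1: a flat function with `|φ| |t|^k ≤ C φ'^2` vanishes. -/

open Filter Topology Asymptotics
open scoped ContDiff

namespace H86N

lemma spec1_zero {φ : ℝ → ℝ} (hfl : Flat1 φ) : φ 0 = 0 := by
  obtain ⟨c, hc⟩ := (hfl 1).bound
  have := hc.self_of_nhds
  simpa using this

/-- no zeros to the right if there are nonzero values arbitrarily close to `0+` -/
lemma spec1_ne {φ : ℝ → ℝ} {k : ℕ} {C δ : ℝ} (hφ : Sm1 φ) (h0 : φ 0 = 0)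
    (hδ' : ∀ t, 0 < t → t < δ → |φ t| * |t| ^ k ≤ C * (deriv φ t) ^ 2)
    (hcon : ∀ ε > 0, ∃ t, 0 < t ∧ t < ε ∧ φ t ≠ 0) :
    ∀ t, 0 < t → t < δ → φ t ≠ 0 := by
  intro t ht0 htδ htz
  obtain ⟨t1, h1, h2, hne⟩ := hcon t ht0
  have hcont : Continuous φ := hφ.continuous
  obtain ⟨c, hc, hmax⟩ := isCompact_Icc.exists_isMaxOn (s := Set.Icc 0 t)
    ⟨0, le_refl _, ht0.le⟩ (hcont.abs.continuousOn)
  have hpos : 0 < |φ c| := lt_of_lt_of_le (abs_pos.2 hne) (hmax ⟨h1.le, h2.le⟩)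
  have hcne : φ c ≠ 0 := abs_pos.1 hpos
  have hc0 : c ≠ 0 := by rintro rfl; exact hcne h0
  have hct : c ≠ t := by rintro rfl; exact hcne htz
  have hcI : c ∈ Set.Ioo 0 t := ⟨lt_of_le_of_ne hc.1 (Ne.symm hc0), lt_of_le_of_ne hc.2 hct⟩
  have hnhds : Set.Icc 0 t ∈ 𝓝 c := Icc_mem_nhds hcI.1 hcI.2
  have hd : deriv φ c = 0 := by
    rcases lt_or_gt_of_ne hcne with hlt | hgt
    · have : IsLocalMin φ c := by
        filter_upwards [hnhds] with x hx
        have := hmax hx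
        simp only [Set.mem_ofPred_eq] at this
        rw [abs_of_neg hlt] at this
        have := neg_abs_le (φ x)
        linarith
      exact this.deriv_eq_zero
    · have : IsLocalMax φ c := by
        filter_upwards [hnhds] with x hx
        have := hmax hx
        simp only [Set.mem_ofPred_eq] at this
        rw [abs_of_pos hgt] at this
        have := le_abs_self (φ x)
        linarith
      exact this.deriv_eq_zero
  have := hδ' c hcI.1 (hcI.2.trans htδ)
  rw [hd] at this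
  have hc' : 0 < |c| ^ k := pow_pos (abs_pos.2 hc0) k
  have := mul_pos hpos hc'
  simp at *
  linarith

lemma spec1_right {φ : ℝ → ℝ} {k : ℕ} {C : ℝ} (hφ : Sm1 φ) (hfl : Flat1 φ)
    (h : ∀ᶠ t in 𝓝 (0 : ℝ), |φ t| * |t| ^ k ≤ C * (deriv φ t) ^ 2) :
    ∃ ε > 0, ∀ t, 0 < t → t < ε → φ t = 0 := by
  obtain ⟨δ, hδ, hδ'⟩ := Metric.eventually_nhds_iff.1 h
  obtain ⟨K, hK⟩ := (hfl (k + 3)).bound
  obtain ⟨η, hη, hη'⟩ := Metric.eventually_nhds_iff.1 hK
  by_contra hcon
  push Not at hcon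
  have hcon' : ∀ ε > 0, ∃ t, 0 < t ∧ t < ε ∧ φ t ≠ 0 := hcon
  have hdd : ∀ t, 0 < t → t < δ → |φ t| * |t| ^ k ≤ C * (deriv φ t) ^ 2 := by
    intro t h1 h2
    apply hδ'
    rw [Real.dist_eq, sub_zero, abs_of_pos h1]; exact h2
  have hne := spec1_ne hφ (spec1_zero hfl) hdd hcon'
  set D := max C 1 with hD
  have hDpos : 0 < D := lt_of_lt_of_le one_pos (le_max_right _ _)
  set K' := max K 1 with hK'
  have hKpos : 0 < K' := lt_of_lt_of_le one_pos (le_max_right _ _)
  -- choose t small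
  set q : ℝ := 1 / (4 * D * 2 ^ (k + 2)) / (2 * K') with hq
  have hqpos : 0 < q := by positivity
  obtain ⟨t, ht0, htδ, htη, htq⟩ : ∃ t : ℝ, 0 < t ∧ t < δ ∧ t < η ∧ t < q := by
    refine ⟨min δ (min η q) / 2, by positivity, ?_, ?_, ?_⟩
    · have : 0 < min δ (min η q) := by positivity
      have := min_le_left δ (min η q)
      linarith
    · have : 0 < min δ (min η q) := by positivity
      have := min_le_right δ (min η q)
      have := min_le_left η q
      linarith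
    · have : 0 < min δ (min η q) := by positivity
      have := min_le_right δ (min η q)
      have := min_le_right η q
      linarith
  have hlt : t / 2 < t := by linarith
  have hcont : Continuous φ := hφ.continuous
  obtain ⟨c, hc, hslope⟩ := exists_hasDerivAt_eq_slope (fun s => √|φ s|)
    (fun s => ((SignType.sign (φ s) : ℝ) * deriv φ s) / (2 * √|φ s|)) hlt
    ((hcont.abs.sqrt).continuousOn) (by
      intro s hs
      have hs0 : 0 < s := lt_trans (by linarith) hs.1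
      have hsne : φ s ≠ 0 := hne s hs0 (hs.2.trans htδ)
      have h1 : HasDerivAt (fun s => |φ s|) ((SignType.sign (φ s) : ℝ) * deriv φ s) s :=
        (hasDerivAt_abs hsne).comp s (hφ.diffAt s).hasDerivAt
      exact h1.sqrt (abs_ne_zero.2 hsne))
  have hc0 : 0 < c := lt_trans (by linarith) hc.1
  have hcne : φ c ≠ 0 := hne c hc0 (hc.2.trans htδ)
  have hcpos : 0 < |φ c| := abs_pos.2 hcne
  have hineq := hdd c hc0 (hc.2.trans htδ)
  have hCD : C * (deriv φ c) ^ 2 ≤ D * (deriv φ c) ^ 2 :=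
    mul_le_mul_of_nonneg_right (le_max_left _ _) (sq_nonneg _)
  rw [abs_of_pos hc0] at hineq
  -- square of the slope
  have hsign : ((SignType.sign (φ c) : ℝ)) ^ 2 = 1 := by
    rcases lt_or_gt_of_ne hcne with hlt' | hgt'
    · rw [sign_neg hlt']; norm_num
    · rw [sign_pos hgt']; norm_num
  have hsq : (√|φ c|) ^ 2 = |φ c| := Real.sq_sqrt (abs_nonneg _)
  have e1 : (((SignType.sign (φ c) : ℝ) * deriv φ c) / (2 * √|φ c|)) ^ 2
      = (deriv φ c) ^ 2 / (4 * |φ c|) := by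
    rw [div_pow, mul_pow, mul_pow, hsign, hsq]; ring
  have e2 : c ^ k / (4 * D) ≤ (deriv φ c) ^ 2 / (4 * |φ c|) := by
    rw [div_le_div_iff₀ (by positivity) (by positivity)]
    nlinarith
  have e3 : (t / 2) ^ k / (4 * D) ≤ c ^ k / (4 * D) := by
    apply div_le_div_of_nonneg_right _ (by positivity)
    exact pow_le_pow_left₀ (by linarith) hc.1.le k
  have e4 : (t / 2) ^ k / (4 * D) ≤ ((√|φ t| - √|φ (t / 2)|) / (t - t / 2)) ^ 2 := by
    rw [← hslope, e1]; exact e3.trans e2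
  have e5 : (t / 2) ^ (k + 2) / (4 * D) ≤ (√|φ t| - √|φ (t / 2)|) ^ 2 := by
    have ht2 : t - t / 2 = t / 2 := by ring
    rw [ht2, div_pow (√|φ t| - √|φ (t / 2)|), le_div_iff₀ (by positivity)] at e4
    calc (t / 2) ^ (k + 2) / (4 * D) = (t / 2) ^ k / (4 * D) * (t / 2) ^ 2 := by ring
      _ ≤ _ := e4
  have e6 : (√|φ t| - √|φ (t / 2)|) ^ 2 ≤ |φ t| + |φ (t / 2)| := by
    have a1 : (√|φ t|) ^ 2 = |φ t| := Real.sq_sqrt (abs_nonneg _)
    have a2 : (√|φ (t / 2)|) ^ 2 = |φ (t / 2)| := Real.sq_sqrt (abs_nonneg _)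
    have a3 := mul_nonneg (Real.sqrt_nonneg |φ t|) (Real.sqrt_nonneg |φ (t / 2)|)
    nlinarith
  have b1 : |φ t| ≤ K' * t ^ (k + 3) := by
    have := hη' (y := t) (by rw [Real.dist_eq, sub_zero, abs_of_pos ht0]; exact htη)
    rw [Real.norm_eq_abs, norm_pow, Real.norm_eq_abs, abs_of_pos ht0] at this
    exact this.trans (mul_le_mul_of_nonneg_right (le_max_left _ _) (by positivity))
  have b2 : |φ (t / 2)| ≤ K' * t ^ (k + 3) := by
    have hh : 0 < t / 2 := by linarith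
    have := hη' (y := t / 2) (by rw [Real.dist_eq, sub_zero, abs_of_pos hh]; linarith)
    rw [Real.norm_eq_abs, norm_pow, Real.norm_eq_abs, abs_of_pos hh] at this
    refine this.trans ?_
    have h3 : (t / 2) ^ (k + 3) ≤ t ^ (k + 3) := pow_le_pow_left₀ hh.le hlt.le _
    calc K * (t / 2) ^ (k + 3) ≤ K' * (t / 2) ^ (k + 3) :=
          mul_le_mul_of_nonneg_right (le_max_left _ _) (by positivity)
      _ ≤ K' * t ^ (k + 3) := mul_le_mul_of_nonneg_left h3 hKpos.le
  have e7 : (t / 2) ^ (k + 2) / (4 * D) ≤ 2 * K' * t ^ (k + 3) := by linarith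
  have e8 : (1 / (4 * D * 2 ^ (k + 2))) * t ^ (k + 2) ≤ (2 * K' * t) * t ^ (k + 2) := by
    calc (1 / (4 * D * 2 ^ (k + 2))) * t ^ (k + 2) = (t / 2) ^ (k + 2) / (4 * D) := by
          rw [div_pow]; field_simp
      _ ≤ 2 * K' * t ^ (k + 3) := e7
      _ = _ := by ring
  have e9 : 1 / (4 * D * 2 ^ (k + 2)) ≤ 2 * K' * t := le_of_mul_le_mul_right e8 (by positivity)
  have e10 : q ≤ t := by
    rw [hq, div_le_iff₀ (by positivity)]
    linarith
  linarith

/-- Let `δ > 0` be such that the inequality holds on `(-δ, δ)`; it shows `φ' ≠ 0` wherever `φ ≠ 0`,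
`t ≠ 0`. Right side: if `φ` does not vanish identically on some `(0, ε)`, then `φ ≠ 0` on `(0, δ)`
(otherwise `|φ|` has an interior maximum, where `φ' = 0`). The mean value theorem for `√|φ|` on
`[t/2, t]` gives `|φ t| + |φ (t/2)| ≥ c t^(k+2)`, contradicting flatness. -/
theorem spec1 {φ : ℝ → ℝ} {k : ℕ} {C : ℝ} (hφ : Sm1 φ) (hfl : Flat1 φ)
    (h : ∀ᶠ t in 𝓝 (0 : ℝ), |φ t| * |t| ^ k ≤ C * (deriv φ t) ^ 2) :
    ∀ᶠ t in 𝓝 (0 : ℝ), φ t = 0 := by
  obtain ⟨ε₁, hε₁, h₁⟩ := spec1_right hφ hfl h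
  have hneg : Tendsto (fun t : ℝ => -t) (𝓝 0) (𝓝 0) := by
    have := (continuous_neg (G := ℝ)).tendsto 0
    simpa using this
  have hφ' : Sm1 (fun t => φ (-t)) := hφ.comp contDiff_neg
  have hfl' : Flat1 (fun t => φ (-t)) := by
    intro n
    have := (hfl n).comp_tendsto hneg
    refine this.trans ?_
    apply IsBigO.of_bound 1
    refine Eventually.of_forall fun t => ?_
    simp
  have h' : ∀ᶠ t in 𝓝 (0 : ℝ),
      |(fun t => φ (-t)) t| * |t| ^ k ≤ C * (deriv (fun t => φ (-t)) t) ^ 2 := by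
    filter_upwards [hneg.eventually h] with t ht
    rw [deriv_comp_neg]
    simpa using ht
  obtain ⟨ε₂, hε₂, h₂⟩ := spec1_right hφ' hfl' h'
  rw [Metric.eventually_nhds_iff]
  refine ⟨min ε₁ ε₂, lt_min hε₁ hε₂, fun t ht => ?_⟩
  rw [Real.dist_eq, sub_zero] at ht
  rcases lt_trichotomy t 0 with hlt | heq | hgt
  · have := h₂ (-t) (by linarith) (by
      rw [abs_of_neg hlt] at ht
      exact lt_of_lt_of_le ht (min_le_right _ _))
    simpa using this
  · rw [heq]; exact spec1_zero hfl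
  · exact h₁ t hgt (by
      rw [abs_of_pos hgt] at ht
      exact lt_of_lt_of_le ht (min_le_left _ _))

end H86N
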