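import Pool.Agent.Lib.H86N.Ord
import Pool.Agent.Lib.H86N.LeadD

/-! Chunk SYSF: a Fuchsian system with lower triangular residue, flatness. -/

open Filter Topology Asymptotics
open scoped ContDiff

namespace H86N

theorem sysf_pow {J n : ℕ} (hn : n ≤ J) :
    (fun t : ℝ => t ^ J) =O[𝓝 (0 : ℝ)] fun t => t ^ n := by
  apply IsBigO.of_bound 1
  have h1 : Tendsto (fun t : ℝ => ‖t‖) (𝓝 0) (𝓝 ‖(0 : ℝ)‖) := continuous_norm.tendsto 0
  rw [norm_zero] at h1
  filter_upwards [h1.eventually_lt_const zero_lt_one] with t ht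
  rw [norm_pow, norm_pow, one_mul]
  exact pow_le_pow_of_le_one (norm_nonneg t) ht.le hn

/-- a function with a leading term of order `J` is `O(t^n)` for `n ≤ J` -/
theorem sysf_lead {b ψ : ℝ → ℝ} {J n : ℕ} (h : Lead b J ψ) (hn : n ≤ J) :
    b =O[𝓝 (0 : ℝ)] fun t => t ^ n := by
  obtain ⟨hψ, -, he⟩ := h
  have h1 : ψ =O[𝓝 (0 : ℝ)] fun _ => (1 : ℝ) := (hψ.continuous.tendsto 0).isBigO_one ℝ
  have h2 := sysf_pow hn
  have h3 := h2.mul h1
  exact (h3.congr' (he.mono fun t ht => ht.symm) (Eventually.of_forall fun t => mul_one _))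

/-- All `b m` (`m < N`) are flat. Otherwise let `n` be the least order (`order1`) of the non-flat ones
among them, `n ≥ 1` because `b m 0 = 0`; all `b k = O(x^n)` (`k < N`). Let `m` be the least index with
order exactly `n`; then `b k = O(x^(n+1))` for `k < m`. In the equation for `b m` the terms
`e b_{m+1} = O(x^n) O(x^n)` (or `0` if `m + 1 = N`) and `c b_k`, `k < m`, are `O(x^(n+1))`, the left side is
`n x^n ψ(0) + O(x^(n+1))` and `l b = l(0) x^n ψ(0) + O(x^(n+1))`. So `l m 0 = n ≥ 1`. Hence the second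
alternative of `hl1`: `m = 0`, `n = 1`, but then `deriv (b 0) 0 = ψ 0 ≠ 0`. -/
theorem sys_flat {N : ℕ} {b l : ℕ → ℝ → ℝ} {e : ℝ → ℝ} {c : ℕ → ℕ → ℝ → ℝ}
    (hb : ∀ m, Sm1 (b m)) (hl : ∀ m, Sm1 (l m)) (hc : ∀ m k, Sm1 (c m k))
    (h0 : ∀ m < N, b m 0 = 0)
    (he : ∃ C : ℝ, ∀ᶠ x in 𝓝 (0 : ℝ), |e x| ≤ C * ∑ k ∈ Finset.range N, |b k x|)
    (hN : ∀ᶠ x in 𝓝 (0 : ℝ), b N x = 0)
    (hs : ∀ m < N, ∀ᶠ x in 𝓝 (0 : ℝ), x * deriv (b m) x =
      l m x * b m x + e x * b (m + 1) x + ∑ k ∈ Finset.range m, c m k x * b k x)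
    (hl1 : ∀ m < N, l m 0 < 1 ∨ (m = 0 ∧ l 0 0 = 1 ∧ deriv (b 0) 0 = 0)) :
    ∀ m < N, Flat1 (b m) := by
  classical
  by_contra hcon
  push Not at hcon
  obtain ⟨m0, hm0, hm0f⟩ := hcon
  -- the least order
  have hex : ∃ J : ℕ, ∃ m < N, ∃ ψ : ℝ → ℝ, Lead (b m) J ψ := by
    obtain ⟨J, ψ, h⟩ := order1 (hb m0) hm0f
    exact ⟨J, m0, hm0, ψ, h⟩
  set n := Nat.find hex with hn
  have hnspec := Nat.find_spec hex
  rw [← hn] at hnspec
  -- the least index
  set m := Nat.find hnspec with hm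
  have hmspec := Nat.find_spec hnspec
  rw [← hm] at hmspec
  obtain ⟨hmN, ψ, hlead⟩ := hmspec
  have hbig : ∀ k < N, b k =O[𝓝 (0 : ℝ)] fun t => t ^ n := by
    intro k hk
    by_cases hf : Flat1 (b k)
    · exact hf n
    · obtain ⟨J, φ, h⟩ := order1 (hb k) hf
      exact sysf_lead h (Nat.find_min' hex ⟨k, hk, φ, h⟩)
  have hsmall : ∀ k < m, b k =O[𝓝 (0 : ℝ)] fun t => t ^ (n + 1) := by
    intro k hk
    by_cases hf : Flat1 (b k)
    · exact hf (n + 1)
    · obtain ⟨J, φ, h⟩ := order1 (hb k) hf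
      have h1 : n ≤ J := Nat.find_min' hex ⟨k, hk.trans hmN, φ, h⟩
      have h2 : J ≠ n := by
        rintro rfl
        exact Nat.find_min hnspec hk ⟨hk.trans hmN, φ, h⟩
      exact sysf_lead h (by omega)
  have hn1 : 1 ≤ n := by
    by_contra hlt
    have hn0 : n = 0 := by omega
    have h1 := hlead.2.2.self_of_nhds
    rw [hn0, pow_zero, one_mul, h0 m hmN] at h1
    exact hlead.2.1 h1.symm
  obtain ⟨ψ₁, hlead1, hψ₁⟩ := lead_deriv1 (hb m) hlead hn1
  have hO1 : ∀ {f : ℝ → ℝ}, Sm1 f → f =O[𝓝 (0 : ℝ)] fun _ => (1 : ℝ) := fun hf =>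
    (hf.continuous.tendsto 0).isBigO_one ℝ
  -- the error terms
  have hen : e =O[𝓝 (0 : ℝ)] fun t => t ^ n := by
    obtain ⟨C, hC⟩ := he
    have h1 : e =O[𝓝 (0 : ℝ)] fun x => ∑ k ∈ Finset.range N, |b k x| := by
      apply IsBigO.of_bound C
      filter_upwards [hC] with x hx
      rw [Real.norm_eq_abs, Real.norm_eq_abs, abs_of_nonneg (a := ∑ k ∈ Finset.range N, |b k x|)
        (Finset.sum_nonneg fun k _ => abs_nonneg _)]
      exact hx
    refine h1.trans ?_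
    apply IsBigO.fun_sum
    intro k hk
    exact (hbig k (Finset.mem_range.1 hk)).abs_left
  have hsq : (fun t : ℝ => t ^ n * t ^ n) =O[𝓝 (0 : ℝ)] fun t => t ^ (n + 1) := by
    have h1 : (fun t : ℝ => t ^ (n + n)) =O[𝓝 (0 : ℝ)] fun t => t ^ (n + 1) :=
      sysf_pow (by omega)
    simpa only [pow_add] using h1
  have heb : (fun x => e x * b (m + 1) x) =O[𝓝 (0 : ℝ)] fun t => t ^ (n + 1) := by
    by_cases h : m + 1 < N
    · exact (hen.mul (hbig (m + 1) h)).trans hsq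
    · have h1 : m + 1 = N := by omega
      rw [h1]
      apply IsBigO.of_bound 0
      filter_upwards [hN] with x hx
      rw [hx]
      simp
  have hcb : (fun x => ∑ k ∈ Finset.range m, c m k x * b k x) =O[𝓝 (0 : ℝ)]
      fun t => t ^ (n + 1) := by
    apply IsBigO.fun_sum
    intro k hk
    have := (hO1 (hc m k)).mul (hsmall k (Finset.mem_range.1 hk))
    simpa only [one_mul] using this
  -- the leading coefficient
  set D : ℝ → ℝ := fun t => ψ₁ t - l m t * ψ t with hD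
  have hDs : Sm1 D := hlead1.1.sub ((hl m).mul hlead.1)
  have hmain : (fun t => t ^ n * D t) =O[𝓝 (0 : ℝ)] fun t => t ^ (n + 1) := by
    refine (heb.add hcb).congr' ?_ EventuallyEq.rfl
    filter_upwards [hs m hmN, hlead.2.2, hlead1.2.2] with t h1 h2 h3
    rw [h3, h2] at h1
    have h4 : t * (t ^ (n - 1) * ψ₁ t) = t ^ n * ψ₁ t := by
      rw [← mul_assoc, ← pow_succ', Nat.sub_add_cancel hn1]
    rw [h4] at h1
    rw [hD]
    linarith
  have hD0 : D 0 = 0 := by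
    have h1 : (fun t => D t - D 0) =O[𝓝 (0 : ℝ)] fun t => t := by
      have := (hDs.diffAt 0).hasDerivAt.differentiableAt.isBigO_sub
      simpa using this
    have h2 : (fun t : ℝ => t ^ n * (D t - D 0)) =O[𝓝 (0 : ℝ)] fun t => t ^ (n + 1) := by
      have := (isBigO_refl (fun t : ℝ => t ^ n) (𝓝 0)).mul h1
      simpa only [pow_succ] using this
    have h3 : (fun t : ℝ => D 0 * t ^ n) =O[𝓝 (0 : ℝ)] fun t => t ^ (n + 1) := by
      refine (hmain.sub h2).congr_left fun t => ?_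
      ring
    exact lead_unique (b := fun t => t ^ n) (J := n) (ψ := fun _ => 1)
      ⟨contDiff_const, one_ne_zero, Eventually.of_forall fun t => (mul_one _).symm⟩ h3
  have hln : l m 0 = n := by
    rw [hD] at hD0
    simp only at hD0
    rw [hψ₁] at hD0
    have h1 : ((n : ℝ) - l m 0) * ψ 0 = 0 := by linarith
    rcases mul_eq_zero.1 h1 with h2 | h2
    · linarith
    · exact absurd h2 hlead.2.1
  have hn1' : (1 : ℝ) ≤ n := by exact_mod_cast hn1
  rcases hl1 m hmN with h1 | ⟨h1, h2, h3⟩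
  · linarith
  · rw [h1, h2] at hln
    have hn2 : n = 1 := by exact_mod_cast hln.symm
    have h4 := hlead1.2.2.self_of_nhds
    rw [h1, h3, hn2] at h4
    simp only [Nat.sub_self, pow_zero, one_mul] at h4
    rw [← h4, hn2] at hψ₁
    apply hlead.2.1
    simpa using hψ₁.symm

end H86N
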